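import Pool.Agent.H391.SK.StA

/-!
# SK-A1 (by helper215)
-/

set_option autoImplicit false

namespace Pool.Agent.H391.SK.P_A1

open MvPolynomial

/-- Laurent polynomials with integral coefficients -/
abbrev LA (r : ℕ) : Type := AddMonoidAlgebra ℤ (Fin r → ℤ)

/-- the inclusion of the exponents -/
def fe (r : ℕ) : (Fin r →₀ ℕ) →+ (Fin r → ℤ) where
  toFun μ i := (μ i : ℤ)
  map_zero' := by funext i; simp
  map_add' μ ν := by funext i; simp

theorem fe_inj (r : ℕ) : Function.Injective (fe r) := by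
  intro μ ν h
  ext i
  have h1 : (μ i : ℤ) = (ν i : ℤ) := congrFun h i
  exact_mod_cast h1

/-- polynomials as Laurent polynomials -/
noncomputable def ph (r : ℕ) : MvPolynomial (Fin r) ℤ →+* LA r :=
  AddMonoidAlgebra.mapDomainRingHom ℤ (fe r)

theorem ph_coeff {r : ℕ} (P : MvPolynomial (Fin r) ℤ) (μ : Fin r →₀ ℕ) :
    (ph r P).coeff (fe r μ) = MvPolynomial.coeff μ P :=
  Finsupp.mapDomain_apply (fe_inj r) (AddMonoidAlgebra.coeff P) μ

/-- the variables -/
noncomputable def T {r : ℕ} (i : Fin r) : LA r := AddMonoidAlgebra.single (Pi.single i 1) 1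

theorem ph_X {r : ℕ} (i : Fin r) : ph r (X i) = T i := by
  have h1 : ph r (X i) = AddMonoidAlgebra.single (fe r (Finsupp.single i 1)) 1 :=
    AddMonoidAlgebra.mapDomain_single
  rw [h1, T]
  congr 1
  funext j
  change ((Finsupp.single i 1 : Fin r →₀ ℕ) j : ℤ) = _
  rw [Finsupp.single_apply, Pi.single_apply]
  by_cases h : i = j
  · simp [h]
  · simp [h, Ne.symm h]

/-- the inversion of the variables -/
noncomputable def io (r : ℕ) : LA r →+* LA r :=
  AddMonoidAlgebra.mapDomainRingHom ℤ (-AddMonoidHom.id (Fin r → ℤ))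

theorem io_coeff {r : ℕ} (f : LA r) (x : Fin r → ℤ) : (io r f).coeff (-x) = f.coeff x :=
  Finsupp.mapDomain_apply (f := fun x : Fin r → ℤ => -x) neg_injective f.coeff x

theorem io_T {r : ℕ} (i : Fin r) : io r (T i) = AddMonoidAlgebra.single (-Pi.single i 1) 1 :=
  AddMonoidAlgebra.mapDomain_single

theorem io_T_mul {r : ℕ} (i : Fin r) : io r (T i) * T i = 1 := by
  rw [io_T, T, AddMonoidAlgebra.single_mul_single, neg_add_cancel, mul_one]
  rfl

theorem rel {r : ℕ} (i j : Fin r) : io r (T i - T j) * (T i * T j) = (-1) * (T i - T j) := by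
  rw [map_sub]
  linear_combination (T j) * io_T_mul i - (T i) * io_T_mul j

theorem prod_single {r : ℕ} {ι : Type} (s : Finset ι) (f : ι → Fin r → ℤ) :
    ∏ i ∈ s, (AddMonoidAlgebra.single (f i) 1 : LA r) =
      AddMonoidAlgebra.single (∑ i ∈ s, f i) 1 := by
  classical
  induction s using Finset.induction_on with
  | empty => rfl
  | insert a s ha ih =>
    rw [Finset.prod_insert ha, Finset.sum_insert ha, ih, AddMonoidAlgebra.single_mul_single,
      mul_one]

theorem prodT (r n : ℕ) : ∏ i : Fin r, (T i) ^ n =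
    (AddMonoidAlgebra.single (fun _ => (n : ℤ)) 1 : LA r) := by
  have h1 : ∀ i : Fin r, (T i) ^ n = (AddMonoidAlgebra.single (n • Pi.single i 1) 1 : LA r) := by
    intro i
    rw [T, AddMonoidAlgebra.single_pow, one_pow]
  rw [Finset.prod_congr rfl fun i _ => h1 i, prod_single]
  congr 1
  funext j
  simp [Finset.sum_apply, Pi.single_apply]

theorem prodM (r : ℕ) : ∏ i : Fin r, ∏ j ∈ Finset.Ioi i, (T i * T j) =
    (AddMonoidAlgebra.single (fun _ => ((r - 1 : ℕ) : ℤ)) 1 : LA r) := by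
  rw [← prodT]
  simp only [Finset.prod_mul_distrib]
  have h1 : ∏ i : Fin r, ∏ j ∈ Finset.Ioi i, T j = ∏ j : Fin r, ∏ i ∈ Finset.Iio j, T j :=
    Finset.prod_comm' (by simp)
  rw [h1, ← Finset.prod_mul_distrib]
  refine Finset.prod_congr rfl fun i _ => ?_
  rw [Finset.prod_const, Finset.prod_const, ← pow_add, Fin.card_Ioi, Fin.card_Iio]
  congr 1
  have := i.2
  omega

/-- the Vandermonde product -/
noncomputable def vd (r : ℕ) : LA r := ∏ i : Fin r, ∏ j ∈ Finset.Ioi i, (T i - T j)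

theorem io_vd (r : ℕ) : ∃ e : ℤ, e * e = 1 ∧
    vd r = (e : LA r) * (io r (vd r) * AddMonoidAlgebra.single (fun _ => ((r - 1 : ℕ) : ℤ)) 1) := by
  refine ⟨∏ i : Fin r, ∏ j ∈ Finset.Ioi i, (-1), ?_, ?_⟩
  · simp only [← Finset.prod_mul_distrib]
    simp
  · rw [← prodM, vd, map_prod]
    simp only [map_prod, ← Finset.prod_mul_distrib, rel]
    push_cast
    simp only [← Finset.prod_mul_distrib]
    refine Finset.prod_congr rfl fun i _ => Finset.prod_congr rfl fun j _ => ?_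
    ring

theorem vd_ne (q r : ℕ) : vd r ^ q ≠ 0 := by
  have h1 : ph r ((∏ i : Fin r, ∏ j ∈ Finset.Ioi i, (X i - X j)) ^ q) = vd r ^ q := by
    simp only [map_pow, map_prod, map_sub, ph_X]
    rfl
  rw [← h1]
  intro h3
  have h4 := AddMonoidAlgebra.mapDomain_injective (R := ℤ) (fe_inj r)
  have h5 := h4 (h3.trans (map_zero (ph r)).symm)
  refine pow_ne_zero q ?_ h5
  refine Finset.prod_ne_zero_iff.2 fun i _ => Finset.prod_ne_zero_iff.2 fun j hj => ?_
  rw [sub_ne_zero]
  intro h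
  exact (Finset.mem_Ioi.1 hj).ne (X_injective h)

theorem key (q r : ℕ) : (vd r ^ (2 * q)).coeff (fun _ => ((q * (r - 1) : ℕ) : ℤ)) ≠ 0 := by
  obtain ⟨e, he, h⟩ := io_vd r
  obtain ⟨g, hg⟩ : ∃ g, g = vd r ^ q := ⟨_, rfl⟩
  have hg0 : g ≠ 0 := hg ▸ vd_ne q r
  have h1 : g = ((e ^ q : ℤ) : LA r) *
      (io r g * AddMonoidAlgebra.single (fun _ => ((q * (r - 1) : ℕ) : ℤ)) 1) := by
    have h2 : (AddMonoidAlgebra.single (fun _ => ((r - 1 : ℕ) : ℤ)) 1 : LA r) ^ q =
        AddMonoidAlgebra.single (fun _ => ((q * (r - 1) : ℕ) : ℤ)) 1 := by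
      rw [AddMonoidAlgebra.single_pow, one_pow]
      congr 1
    conv_lhs => rw [hg, h, mul_pow, mul_pow, ← map_pow, ← hg, h2]
    rw [Int.cast_pow]
  have h2 : vd r ^ (2 * q) = (e ^ q) •
      (g * io r g * AddMonoidAlgebra.single (fun _ => ((q * (r - 1) : ℕ) : ℤ)) 1) := by
    rw [two_mul, pow_add, ← hg, zsmul_eq_mul]
    calc g * g = g * (((e ^ q : ℤ) : LA r) *
        (io r g * AddMonoidAlgebra.single (fun _ => ((q * (r - 1) : ℕ) : ℤ)) 1)) := by rw [← h1]
      _ = _ := by ring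
  have h3 : (g * io r g).coeff 0 = ∑ x ∈ g.coeff.support, g.coeff x * g.coeff x := by
    rw [AddMonoidAlgebra.coeff_mul_apply_left, Finsupp.sum]
    refine Finset.sum_congr rfl fun x _ => ?_
    rw [add_zero, io_coeff]
  have h4 : 0 < (g * io r g).coeff 0 := by
    rw [h3]
    refine Finset.sum_pos (fun x hx => ?_) ?_
    · exact mul_self_pos.2 (Finsupp.mem_support_iff.1 hx)
    · rw [Finsupp.support_nonempty_iff]
      intro h5
      exact hg0 (AddMonoidAlgebra.coeff_eq_zero.1 h5)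
  rw [h2, AddMonoidAlgebra.coeff_smul_apply, AddMonoidAlgebra.coeff_mul_single_apply, mul_one,
    add_neg_cancel, smul_eq_mul]
  refine mul_ne_zero (pow_ne_zero _ ?_) h4.ne'
  rintro rfl
  simp at he

theorem main : S_A1 := by
  intro q r
  have h1 : ((∏ i : Fin r, ∏ j ∈ Finset.Ioi i, (X i - X j : MvPolynomial (Fin r) ℂ)) ^ (2 * q)) =
      MvPolynomial.map (Int.castRingHom ℂ)
        ((∏ i : Fin r, ∏ j ∈ Finset.Ioi i, (X i - X j : MvPolynomial (Fin r) ℤ)) ^ (2 * q)) := by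
    simp only [map_pow, map_prod, map_sub, map_X]
  rw [h1, coeff_map]
  intro h2
  have h3 : coeff (Finsupp.equivFunOnFinite.symm fun _ => q * (r - 1))
      ((∏ i : Fin r, ∏ j ∈ Finset.Ioi i, (X i - X j : MvPolynomial (Fin r) ℤ)) ^ (2 * q)) = 0 :=
    Int.cast_injective (α := ℂ) (by simpa using h2)
  rw [← ph_coeff] at h3
  simp only [map_pow, map_prod, map_sub, ph_X] at h3
  exact key q r h3

end Pool.Agent.H391.SK.P_A1

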