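import Pool.Agent.H391.SK.StA

set_option maxHeartbeats 1000000

namespace Pool.Agent.H391.SK.P_A10

open MvPolynomial Pool.Agent.H391.SK

/-! ### counting exponent vectors -/

/-- exponent vectors of weight `n` (weights `k + 1`) -/
def Wset (n : ℕ) : Set (ℕ →₀ ℕ) := {d | Finsupp.weight (fun k : ℕ => k + 1) d = n}

/-- exponent vectors of weight `n` (weights `k + 2`) -/
def Eset (n : ℕ) : Set (ℕ →₀ ℕ) := {d | Finsupp.weight (fun k : ℕ => k + 2) d = n}

lemma finite_of_weight (w : ℕ → ℕ) (hw : ∀ k, k < w k) (n : ℕ) :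
    {d : ℕ →₀ ℕ | Finsupp.weight w d = n}.Finite := by
  classical
  refine Set.Finite.subset
    ((Finset.range n).finsupp fun _ => Finset.range (n + 1)).finite_toSet ?_
  intro d hd
  have hd' : ∑ k ∈ d.support, d k * w k = n := by
    have : Finsupp.weight w d = ∑ k ∈ d.support, d k * w k := by
      simp [Finsupp.weight_apply, Finsupp.sum]
    rw [← this]; exact hd
  have key : ∀ k ∈ d.support, d k * w k ≤ n := fun k hk => by
    rw [← hd']
    exact Finset.single_le_sum (f := fun k => d k * w k) (fun _ _ => Nat.zero_le _) hk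
  rw [Finset.mem_coe, Finset.mem_finsupp_iff]
  constructor
  · intro k hk
    have h1 := key k hk
    have h2 : 1 ≤ d k := Nat.one_le_iff_ne_zero.2 (Finsupp.mem_support_iff.1 hk)
    have h3 := hw k
    rw [Finset.mem_range]
    nlinarith
  · intro k _
    rw [Finset.mem_range]
    by_cases hk : k ∈ d.support
    · have h1 := key k hk
      have h3 := hw k
      have : d k ≤ d k * w k := Nat.le_mul_of_pos_right _ (by omega)
      omega
    · rw [Finsupp.notMem_support_iff.1 hk]; omega

lemma Wfin (n : ℕ) : (Wset n).Finite := finite_of_weight _ (fun k => Nat.lt_succ_self k) n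

lemma Efin (n : ℕ) : (Eset n).Finite := finite_of_weight _ (fun k => by omega) n

instance (n : ℕ) : Finite (Wset n) := (Wfin n).to_subtype
instance (n : ℕ) : Finite (Eset n) := (Efin n).to_subtype

lemma weight_mapDomain_succ (e : ℕ →₀ ℕ) :
    Finsupp.weight (fun k : ℕ => k + 1) (e.mapDomain (· + 1)) =
      Finsupp.weight (fun k : ℕ => k + 2) e := by
  rw [Finsupp.weight_apply, Finsupp.weight_apply, Finsupp.sum_mapDomain_index]
  · intro b; simp
  · intro b m₁ m₂; simp [add_mul]

lemma card_le (n : ℕ) : Nat.card (Wset (n + 1)) ≤ Nat.card (Wset n) + Nat.card (Eset (n + 1)) := by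
  classical
  rw [← Nat.card_sum]
  let φ : Wset n ⊕ Eset (n + 1) → Wset (n + 1) := Sum.elim
    (fun d => ⟨d.1 + Finsupp.single 0 1, by
      have h := d.2
      simp only [Wset, Set.mem_ofPred_eq] at h ⊢
      rw [map_add, h, Finsupp.weight_single]; simp⟩)
    (fun e => ⟨e.1.mapDomain (· + 1), by
      have h := e.2
      simp only [Eset, Set.mem_ofPred_eq] at h
      simp only [Wset, Set.mem_ofPred_eq]
      rw [weight_mapDomain_succ, h]⟩)
  refine Nat.card_le_card_of_surjective φ ?_
  rintro ⟨d, hd⟩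
  simp only [Wset, Set.mem_ofPred_eq] at hd
  by_cases h0 : d 0 = 0
  · have hd2 : (Finsupp.comapDomain.addMonoidHom (add_left_injective 1) d).mapDomain (· + 1) = d := by
      rw [Finsupp.mapDomain_comapDomain_nat_add_one, Finsupp.erase_of_notMem_support]
      rw [Finsupp.notMem_support_iff]; exact h0
    refine ⟨Sum.inr ⟨Finsupp.comapDomain.addMonoidHom (add_left_injective 1) d, ?_⟩, ?_⟩
    · simp only [Eset, Set.mem_ofPred_eq]
      rw [← weight_mapDomain_succ, hd2, hd]
    · exact Subtype.ext hd2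
  · have h1 := Finsupp.weight_sub_single_add (w := fun k : ℕ => k + 1) (f := d) (i := 0) h0
    refine ⟨Sum.inl ⟨d - Finsupp.single 0 1, ?_⟩, ?_⟩
    · simp only [Wset, Set.mem_ofPred_eq]
      rw [hd] at h1
      simpa using h1
    · exact Subtype.ext (Finsupp.sub_add_single_one_cancel h0)

/-! ### the weight spaces -/

/-- the polynomials of weight `n` -/
noncomputable abbrev V (n : ℕ) : Submodule ℂ (Lm ℂ) :=
  weightedHomogeneousSubmodule ℂ (fun k : ℕ => k + 1) n

lemma V_eq (n : ℕ) : V n = restrictSupport ℂ (Wset n) := by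
  rw [V, weightedHomogeneousSubmodule_eq_finsupp_supported]
  rfl

instance (n : ℕ) : FiniteDimensional ℂ (V n) := by
  rw [V_eq]
  exact Module.Finite.of_basis (basisRestrictSupport ℂ (Wset n))

lemma finrank_V (n : ℕ) : Module.finrank ℂ (V n) = Nat.card (Wset n) := by
  rw [V_eq]
  exact Module.finrank_eq_nat_card_basis (basisRestrictSupport ℂ (Wset n))

/-! ### the left inverse of the `yy` -/

/-- the images of `X k` -/
noncomputable def xs : ℕ → MvPolynomial ℕ ℂ
  | 0 => 1
  | k + 1 => C (1 / 2) * (X (k + 1) - ∑ a : Fin k, xs (a + 1) * xs (k - a))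

lemma yy_xs (k : ℕ) : ∑ a ∈ Finset.range (k + 2), xs a * xs (k + 1 - a) = X (k + 1) := by
  rw [Finset.sum_range_succ, Finset.sum_range_succ']
  have h1 : ∑ a ∈ Finset.range k, xs (a + 1) * xs (k + 1 - (a + 1)) =
      ∑ a : Fin k, xs (a + 1) * xs (k - a) := by
    rw [Finset.sum_range]
    refine Finset.sum_congr rfl fun a _ => ?_
    congr 2
    omega
  rw [h1]
  have h0 : xs 0 = 1 := by rw [xs]
  have h2 : xs (k + 1) = C (1 / 2) * (X (k + 1) - ∑ a : Fin k, xs (a + 1) * xs (k - a)) := by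
    rw [xs]
  rw [Nat.sub_zero, Nat.sub_self, h0, mul_one, one_mul, h2]
  have h3 : (C (1 / 2) : MvPolynomial ℕ ℂ) + C (1 / 2) = 1 := by
    rw [← C_add]; norm_num
  linear_combination (X (k + 1) - ∑ a : Fin k, xs (a + 1) * xs (k - a)) * h3

/-- the homomorphism -/
noncomputable def θ : Lm ℂ →ₐ[ℂ] MvPolynomial ℕ ℂ := aeval xs

lemma θ_yy (k : ℕ) : θ (yy k) = if k = 0 then 1 else X k := by
  rcases k with _ | k
  · simp [θ, yy, xs]
  · rw [if_neg (Nat.succ_ne_zero k), ← yy_xs k, yy, map_sum]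
    simp [θ]

lemma θ_mon (e : ℕ →₀ ℕ) : θ (aeval yy (monomial e (1 : ℂ))) = monomial (e.erase 0) 1 := by
  classical
  have h1 : θ (aeval yy (monomial e (1 : ℂ))) =
      aeval (fun k : ℕ => (if k = 0 then 1 else X k : MvPolynomial ℕ ℂ)) (monomial e (1 : ℂ)) := by
    have : (θ.comp (aeval yy)) = aeval (fun k : ℕ => (if k = 0 then 1 else X k : MvPolynomial ℕ ℂ)) := by
      apply MvPolynomial.algHom_ext
      intro k
      simp [θ_yy]
    rw [← this]; rfl
  rw [h1, aeval_monomial, map_one, one_mul, monomial_eq, C_1, one_mul, Finsupp.prod, Finsupp.prod,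
    Finsupp.support_erase]
  by_cases h0 : (0 : ℕ) ∈ e.support
  · rw [← Finset.mul_prod_erase _ _ h0]
    simp only [if_true, one_pow, one_mul]
    refine Finset.prod_congr rfl fun k hk => ?_
    have hk0 : k ≠ 0 := (Finset.mem_erase.1 hk).1
    rw [if_neg hk0, Finsupp.erase_ne hk0]
  · rw [Finset.erase_eq_of_notMem h0]
    refine Finset.prod_congr rfl fun k hk => ?_
    have hk0 : k ≠ 0 := fun h => h0 (h ▸ hk)
    rw [if_neg hk0, Finsupp.erase_ne hk0]

lemma indep (D : ℕ) {ι : Type} (s : Finset ι) (e : ι → ℕ →₀ ℕ) (he : Function.Injective e)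
    (hs : ∀ i ∈ s, (e i).degree = D) (c : ι → ℂ)
    (h : ∑ i ∈ s, c i • aeval yy (monomial (e i) (1 : ℂ)) = (0 : Lm ℂ)) : ∀ i ∈ s, c i = 0 := by
  classical
  intro j hj
  have h1 := congrArg θ h
  rw [map_sum, map_zero] at h1
  have h2 : ∑ i ∈ s, c i • (monomial ((e i).erase 0) (1 : ℂ) : MvPolynomial ℕ ℂ) = 0 := by
    rw [← h1]
    refine Finset.sum_congr rfl fun i _ => ?_
    rw [map_smul, θ_mon]
  have h3 := congrArg (coeff ((e j).erase 0)) h2
  rw [coeff_sum, coeff_zero, Finset.sum_eq_single j] at h3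
  · simpa using h3
  · intro i hi hij
    rw [coeff_smul, coeff_monomial, if_neg, smul_zero]
    intro hE
    apply hij
    apply he
    have a1 := hs i hi
    have a2 := hs j hj
    rw [← Finsupp.erase_add_single 0 (e i), map_add, Finsupp.degree_single] at a1
    rw [← Finsupp.erase_add_single 0 (e j), map_add, Finsupp.degree_single] at a2
    rw [hE] at a1
    have a3 : e i 0 = e j 0 := by omega
    rw [← Finsupp.erase_add_single 0 (e i), ← Finsupp.erase_add_single 0 (e j), hE, a3]
  · intro h; exact absurd hj h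

/-! ### the operators `LL` and degrees -/

lemma deg_der (c : ℕ → ℂ) (g : ℕ → ℕ) (F : Lm ℂ) (d : ℕ) (h : F.totalDegree ≤ d) :
    ((mkDerivation ℂ fun i : ℕ => C (c i) * X (g i) : Derivation ℂ (Lm ℂ) (Lm ℂ)) F).totalDegree
      ≤ d := by
  classical
  have hF : (mkDerivation ℂ fun i : ℕ => C (c i) * X (g i) : Derivation ℂ (Lm ℂ) (Lm ℂ)) F =
      ∑ s ∈ F.support, (mkDerivation ℂ fun i : ℕ => C (c i) * X (g i) :
        Derivation ℂ (Lm ℂ) (Lm ℂ)) (monomial s (coeff s F)) := by
    conv_lhs => rw [F.as_sum]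
    rw [map_sum]
  rw [hF]
  refine totalDegree_finsetSum_le fun s hs => ?_
  have hs' : s.degree ≤ d := (le_totalDegree hs).trans h
  rw [mkDerivation_monomial]
  refine (totalDegree_smul_le _ _).trans ?_
  rw [Finsupp.sum]
  refine totalDegree_finsetSum_le fun i hi => ?_
  have hi0 : s i ≠ 0 := Finsupp.mem_support_iff.1 hi
  rw [smul_eq_mul]
  refine (totalDegree_mul _ _).trans ?_
  have h1 : (monomial (s - Finsupp.single i 1) ((s i : ℕ) : ℂ) : Lm ℂ).totalDegree ≤
      (s - Finsupp.single i 1).degree := by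
    refine (totalDegree_monomial_le _ _).trans (le_of_eq ?_)
    rfl
  have h2 : (C (c i) * X (g i) : Lm ℂ).totalDegree ≤ 1 :=
    (isHomogeneous_C_mul_X (c i) (g i)).totalDegree_le
  have h3 : (s - Finsupp.single i 1).degree + 1 = s.degree := by
    conv_rhs => rw [← Finsupp.sub_add_single_one_cancel hi0]
    rw [map_add, Finsupp.degree_single]
  omega

lemma yy_hom (k : ℕ) : (yy k).IsHomogeneous 2 := by
  rw [yy]
  refine IsHomogeneous.sum _ _ _ fun a _ => ?_
  exact (isHomogeneous_X ℂ a).mul (isHomogeneous_X ℂ _)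

lemma hc_mul (m n : ℕ) (φ ψ : Lm ℂ) (hφ : φ.IsHomogeneous m) :
    homogeneousComponent (m + n) (φ * ψ) = φ * homogeneousComponent n ψ := by
  classical
  conv_lhs => rw [← sum_homogeneousComponent ψ]
  rw [Finset.mul_sum, map_sum]
  have key : ∀ i, homogeneousComponent (m + n) (φ * homogeneousComponent i ψ) =
      if i = n then φ * homogeneousComponent n ψ else 0 := by
    intro i
    have hh : (φ * homogeneousComponent i ψ).IsHomogeneous (m + i) :=
      hφ.mul (homogeneousComponent_isHomogeneous i ψ)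
    rw [homogeneousComponent_of_mem hh]
    by_cases hin : i = n
    · subst hin; simp
    · rw [if_neg hin, if_neg (by omega)]
  simp only [key]
  rw [Finset.sum_ite_eq']
  by_cases hn : n ∈ Finset.range (ψ.totalDegree + 1)
  · rw [if_pos hn]
  · rw [if_neg hn, homogeneousComponent_eq_zero, mul_zero]
    simpa using hn

lemma LL_eq (ν : ℂ) (k : ℕ) (F : Lm ℂ) : LL 0 ν (k + 2) F =
    yy k * F + (C (2 * 0 + 2 * (ν - 1) * (((k + 2 : ℕ) : ℂ) - 1)) * X (k + 1)) * F +
      (mkDerivation ℂ fun i : ℕ => C (4 * ν * ((i : ℂ) + 1)) * X (k + 2 + i) :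
        Derivation ℂ (Lm ℂ) (Lm ℂ)) F := by
  rw [LL, yy]
  simp only [LinearMap.add_apply, LinearMap.mulLeft_apply, add_mul]
  have e1 : k + 2 - 1 = k + 1 := by omega
  have e2 : k + 2 - 2 = k := by omega
  rw [e1, e2]
  rfl

lemma LL_deg (ν : ℂ) (k : ℕ) (F : Lm ℂ) (d : ℕ) (h : F.totalDegree ≤ d) :
    (LL 0 ν (k + 2) F).totalDegree ≤ d + 2 ∧
      homogeneousComponent (d + 2) (LL 0 ν (k + 2) F) = yy k * homogeneousComponent d F := by
  rw [LL_eq]
  set c1 : ℂ := 2 * 0 + 2 * (ν - 1) * (((k + 2 : ℕ) : ℂ) - 1)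
  set D1 := (mkDerivation ℂ fun i : ℕ => C (4 * ν * ((i : ℂ) + 1)) * X (k + 2 + i) :
        Derivation ℂ (Lm ℂ) (Lm ℂ)) F with hD1
  have h1 : (yy k * F).totalDegree ≤ d + 2 := by
    refine (totalDegree_mul _ _).trans ?_
    have := (yy_hom k).totalDegree_le
    omega
  have h2 : ((C c1 * X (k + 1)) * F : Lm ℂ).totalDegree ≤ d + 1 := by
    refine (totalDegree_mul _ _).trans ?_
    have := (isHomogeneous_C_mul_X c1 (k + 1) : (C c1 * X (k + 1) : Lm ℂ).IsHomogeneous 1).totalDegree_le
    omega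
  have h3 : D1.totalDegree ≤ d := deg_der _ _ F d h
  constructor
  · refine (totalDegree_add _ _).trans (max_le ((totalDegree_add _ _).trans (max_le h1 ?_)) ?_)
    · omega
    · omega
  · rw [map_add, map_add, homogeneousComponent_eq_zero (n := d + 2) (φ := D1) (by omega),
      homogeneousComponent_eq_zero (n := d + 2) (φ := (C c1 * X (k + 1)) * F) (by omega),
      add_zero, add_zero, add_comm d 2, hc_mul 2 d _ _ (yy_hom k)]

/-- the elements of the kernel with given top component -/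
lemma exF (h0 : S_A0) (h2 : S_A2) (p : ℕ) (e : ℕ →₀ ℕ) : ∃ F : Lm ℂ,
    S1 (p : ℂ) (-1) F = 0 ∧ Wt F (Finsupp.weight (fun k : ℕ => k + 2) e) ∧
    F.totalDegree ≤ 2 * e.degree ∧
    homogeneousComponent (2 * e.degree) F = aeval yy (monomial e (1 : ℂ)) := by
  classical
  have step : ∀ (k : ℕ) (e : ℕ →₀ ℕ), (∃ F : Lm ℂ,
      S1 (p : ℂ) (-1) F = 0 ∧ Wt F (Finsupp.weight (fun k : ℕ => k + 2) e) ∧
      F.totalDegree ≤ 2 * e.degree ∧
      homogeneousComponent (2 * e.degree) F = aeval yy (monomial e (1 : ℂ))) →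
      ∃ F : Lm ℂ,
      S1 (p : ℂ) (-1) F = 0 ∧
      Wt F (Finsupp.weight (fun k : ℕ => k + 2) (Finsupp.single k 1 + e)) ∧
      F.totalDegree ≤ 2 * (Finsupp.single k 1 + e).degree ∧
      homogeneousComponent (2 * (Finsupp.single k 1 + e).degree) F =
        aeval yy (monomial (Finsupp.single k 1 + e) (1 : ℂ)) := by
    rintro k e ⟨F, hF1, hF2, hF3, hF4⟩
    have hdeg : 2 * (Finsupp.single k 1 + e).degree = 2 * e.degree + 2 := by
      rw [map_add, Finsupp.degree_single]; ring
    have hw : Finsupp.weight (fun k : ℕ => k + 2) (Finsupp.single k 1 + e) =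
        Finsupp.weight (fun k : ℕ => k + 2) e + (k + 2) := by
      rw [map_add, Finsupp.weight_single]; simp; ring
    obtain ⟨hL1, hL2⟩ := LL_deg (p : ℂ) k F _ hF3
    refine ⟨LL 0 (p : ℂ) (k + 2) F, ?_, ?_, ?_, ?_⟩
    · have h := h2 ℂ 0 (p : ℂ) (k + 2) (by omega) (-1) F
      rw [hF1, map_zero] at h
      have hc : (4 * (p : ℂ) * (0 + 1 + (((-1 : ℤ) : ℤ) : ℂ))) = 0 := by push_cast; ring
      rw [hc, map_zero, zero_mul, zero_sub, neg_eq_zero] at h
      exact h
    · rw [hw]
      exact (h0 ℂ 0 (p : ℂ) _ F hF2).2.2.1 (k + 2) (by omega)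
    · rw [hdeg]; exact hL1
    · rw [hdeg, hL2, hF4]
      have : (monomial (Finsupp.single k 1 + e) (1 : ℂ) : MvPolynomial ℕ ℂ) =
          X k * monomial e 1 := by
        rw [X, monomial_mul, one_mul]
      rw [this, map_mul, aeval_X]
  induction e using Finsupp.induction with
  | zero =>
    refine ⟨1, ?_, ?_, ?_, ?_⟩
    · exact (h0 ℂ 0 (p : ℂ) 0 1 (isWeightedHomogeneous_one ℂ _)).2.1 (-1) (by norm_num)
    · rw [map_zero]; exact isWeightedHomogeneous_one ℂ _
    · rw [totalDegree_one]; exact Nat.zero_le _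
    · rw [map_zero, mul_zero, homogeneousComponent_zero]
      simp
  | single_add a b f ha hb ih =>
    clear ha hb
    induction b with
    | zero => simpa using ih
    | succ b ihb =>
      have := step a _ ihb
      rwa [← add_assoc, ← Finsupp.single_add, add_comm 1 b] at this

/-! ### top components of linear combinations -/

lemma top {ι : Type} [Fintype ι] (e : ι → ℕ →₀ ℕ) (F : ι → Lm ℂ)
    (h3 : ∀ i, (F i).totalDegree ≤ 2 * (e i).degree)
    (h4 : ∀ i, homogeneousComponent (2 * (e i).degree) (F i) = aeval yy (monomial (e i) (1 : ℂ)))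
    (c : ι → ℂ) (D : ℕ) (hD : ∀ i, c i ≠ 0 → (e i).degree ≤ D) :
    homogeneousComponent (2 * D) (∑ i, c i • F i) =
      ∑ i ∈ Finset.univ.filter (fun i => (e i).degree = D),
        c i • (aeval yy (monomial (e i) (1 : ℂ)) : Lm ℂ) := by
  classical
  rw [map_sum, Finset.sum_filter]
  refine Finset.sum_congr rfl fun i _ => ?_
  rw [map_smul]
  by_cases hi : (e i).degree = D
  · rw [if_pos hi, ← h4 i, hi]
  · rw [if_neg hi]
    by_cases hc : c i = 0
    · rw [hc, zero_smul]
    · have h5 := hD i hc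
      have h6 := h3 i
      rw [homogeneousComponent_eq_zero, smul_zero]
      omega

/-- if the combination is nonzero then its top component is found in degree `2 D` -/
lemma top_ne {ι : Type} [Fintype ι] (e : ι → ℕ →₀ ℕ) (he : Function.Injective e) (F : ι → Lm ℂ)
    (h3 : ∀ i, (F i).totalDegree ≤ 2 * (e i).degree)
    (h4 : ∀ i, homogeneousComponent (2 * (e i).degree) (F i) = aeval yy (monomial (e i) (1 : ℂ)))
    (c : ι → ℂ) (hc : ∃ i, c i ≠ 0) : ∃ D : ℕ, (∀ i, c i ≠ 0 → (e i).degree ≤ D) ∧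
      homogeneousComponent (2 * D) (∑ i, c i • F i) ≠ 0 := by
  classical
  obtain ⟨i0, hi0⟩ := hc
  obtain ⟨j, hj, hmax⟩ := Finset.exists_max_image (Finset.univ.filter fun i => c i ≠ 0)
    (fun i => (e i).degree) ⟨i0, by simpa using hi0⟩
  have hj' : c j ≠ 0 := by simpa using hj
  have hD : ∀ i, c i ≠ 0 → (e i).degree ≤ (e j).degree := fun i hi => hmax i (by simpa using hi)
  refine ⟨(e j).degree, hD, ?_⟩
  rw [top e F h3 h4 c _ hD]
  intro h
  exact hj' (indep (e j).degree _ e he (fun i hi => (Finset.mem_filter.1 hi).2) c h j (by simp))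

lemma linInd {ι : Type} [Fintype ι] (e : ι → ℕ →₀ ℕ) (he : Function.Injective e) (F : ι → Lm ℂ)
    (h3 : ∀ i, (F i).totalDegree ≤ 2 * (e i).degree)
    (h4 : ∀ i, homogeneousComponent (2 * (e i).degree) (F i) = aeval yy (monomial (e i) (1 : ℂ))) :
    LinearIndependent ℂ F := by
  rw [Fintype.linearIndependent_iff]
  intro c hc i
  by_contra hi
  obtain ⟨D, _, hD⟩ := top_ne e he F h3 h4 c ⟨i, hi⟩
  rw [hc, map_zero] at hD
  exact hD rfl

lemma comb {ι : Type} [Fintype ι] (e : ι → ℕ →₀ ℕ) (he : Function.Injective e) (F : ι → Lm ℂ)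
    (h3 : ∀ i, (F i).totalDegree ≤ 2 * (e i).degree)
    (h4 : ∀ i, homogeneousComponent (2 * (e i).degree) (F i) = aeval yy (monomial (e i) (1 : ℂ)))
    (c : ι → ℂ) (d : ℕ) (hd : (∑ i, c i • F i).totalDegree ≤ d) :
    homogeneousComponent d (∑ i, c i • F i) ∈ Algebra.adjoin ℂ (Set.range yy) := by
  classical
  by_cases hc : ∃ i, c i ≠ 0
  · obtain ⟨D, hD, hne⟩ := top_ne e he F h3 h4 c hc
    have h5 : 2 * D ≤ d := by
      by_contra hlt
      exact hne (homogeneousComponent_eq_zero _ _ (by omega))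
    rcases Nat.eq_or_lt_of_le h5 with h6 | h6
    · rw [← h6, top e F h3 h4 c D hD]
      refine Subalgebra.sum_mem _ fun i _ => Subalgebra.smul_mem _ ?_ _
      rw [Algebra.adjoin_range_eq_range_aeval]
      exact ⟨_, rfl⟩
    · rw [map_sum]
      refine Subalgebra.sum_mem _ fun i _ => ?_
      rw [map_smul]
      by_cases hi : c i = 0
      · rw [hi, zero_smul]; exact Subalgebra.zero_mem _
      · have h7 := hD i hi
        have h8 := h3 i
        rw [homogeneousComponent_eq_zero _ _ (by omega), smul_zero]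
        exact Subalgebra.zero_mem _
  · push Not at hc
    have : (∑ i, c i • F i) = 0 := Finset.sum_eq_zero fun i _ => by rw [hc i, zero_smul]
    rw [this, map_zero]
    exact Subalgebra.zero_mem _

/-- the operator between the weight spaces -/
noncomputable def T (h0 : S_A0) (p n : ℕ) : V (n + 1) →ₗ[ℂ] V n :=
  ((S1 (p : ℂ) (-1)).domRestrict (V (n + 1))).codRestrict (V n) fun g =>
    (h0 ℂ 0 (p : ℂ) (n + 1) g.1 g.2).1 n (-1) (by push_cast; ring)

lemma T_coe (h0 : S_A0) (p n : ℕ) (g : V (n + 1)) :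
    ((T h0 p n g : V n) : Lm ℂ) = S1 (p : ℂ) (-1) (g : Lm ℂ) := by
  rw [T, LinearMap.codRestrict_apply, LinearMap.domRestrict_apply]

lemma T_surj (h0 : S_A0) (h9 : S_A9) (p : ℕ) (hp : 1 ≤ p) (n : ℕ) :
    Function.Surjective (T h0 p n) := by
  rintro ⟨h, hh⟩
  obtain ⟨g, hg1, hg2⟩ := h9 p n hp h hh
  refine ⟨⟨g, hg1⟩, Subtype.ext ?_⟩
  rw [T_coe]
  exact hg2

lemma finrank_ker_T (h0 : S_A0) (h9 : S_A9) (p : ℕ) (hp : 1 ≤ p) (n : ℕ) :
    Module.finrank ℂ (LinearMap.ker (T h0 p n)) ≤ Nat.card (Eset (n + 1)) := by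
  have h1 := LinearMap.finrank_range_add_finrank_ker (T h0 p n)
  rw [LinearMap.range_eq_top.2 (T_surj h0 h9 p hp n), finrank_top, finrank_V, finrank_V] at h1
  have := card_le n
  omega

/-- the kernel as a subspace of `Lm ℂ` -/
noncomputable def Z (p n : ℕ) : Submodule ℂ (Lm ℂ) :=
  V (n + 1) ⊓ LinearMap.ker (S1 (p : ℂ) (-1))

/-- the identification -/
noncomputable def ZT (h0 : S_A0) (p n : ℕ) : Z p n →ₗ[ℂ] LinearMap.ker (T h0 p n) where
  toFun g := ⟨⟨g.1, g.2.1⟩, by
    rw [LinearMap.mem_ker]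
    apply Subtype.ext
    rw [T_coe]
    exact LinearMap.mem_ker.1 g.2.2⟩
  map_add' _ _ := rfl
  map_smul' _ _ := rfl

lemma ZT_inj (h0 : S_A0) (p n : ℕ) : Function.Injective (ZT h0 p n) := by
  intro g h hgh
  have := congrArg (fun x => ((x.1 : V (n + 1)) : Lm ℂ)) hgh
  exact Subtype.ext this

lemma finrank_Z (h0 : S_A0) (h9 : S_A9) (p : ℕ) (hp : 1 ≤ p) (n : ℕ) :
    Module.finrank ℂ (Z p n) ≤ Nat.card (Eset (n + 1)) :=
  (LinearMap.finrank_le_finrank_of_injective (ZT_inj h0 p n)).trans (finrank_ker_T h0 h9 p hp n)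

instance (p n : ℕ) : FiniteDimensional ℂ (Z p n) :=
  Submodule.finiteDimensional_of_le (inf_le_left : Z p n ≤ V (n + 1))

/-- a linear independent family in a subspace with enough elements spans it -/
lemma span_of_card {E : Type} [AddCommGroup E] [Module ℂ E] (W : Submodule ℂ E)
    [FiniteDimensional ℂ W] {ι : Type} [Fintype ι] (v : ι → E) (hv : LinearIndependent ℂ v)
    (hvW : ∀ i, v i ∈ W) (hc : Module.finrank ℂ W ≤ Fintype.card ι) (x : E) (hx : x ∈ W) :
    ∃ c : ι → ℂ, ∑ i, c i • v i = x := by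
  let u : ι → W := fun i => ⟨v i, hvW i⟩
  have hu : LinearIndependent ℂ u := LinearIndependent.of_comp W.subtype hv
  have hcard : Fintype.card ι = Module.finrank ℂ W := le_antisymm hu.fintype_card_le_finrank hc
  have hspan := hu.span_eq_top_of_card_eq_finrank' hcard
  have hmem : (⟨x, hx⟩ : W) ∈ Submodule.span ℂ (Set.range u) := by rw [hspan]; trivial
  rw [Submodule.mem_span_range_iff_exists_fun] at hmem
  obtain ⟨c, hc⟩ := hmem
  refine ⟨c, ?_⟩
  have := congrArg W.subtype hc
  rw [map_sum] at this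
  simpa [u] using this

/-- the case of a homogeneous element of positive weight -/
lemma caseHom (h0 : S_A0) (h2 : S_A2) (h9 : S_A9) (p : ℕ) (hp : 1 ≤ p) (n d : ℕ) (f : Lm ℂ)
    (hf : Wt f (n + 1)) (hk : S1 (p : ℂ) (-1) f = 0) (hd : f.totalDegree ≤ d) :
    homogeneousComponent d f ∈ Algebra.adjoin ℂ (Set.range yy) := by
  classical
  have : Fintype (Eset (n + 1)) := Fintype.ofFinite _
  choose F hF1 hF2 hF3 hF4 using fun e : ℕ →₀ ℕ => exF h0 h2 p e
  have hinj : Function.Injective (fun e : Eset (n + 1) => e.1) := Subtype.val_injective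
  have hv0 : LinearIndependent ℂ (fun e : Eset (n + 1) => F e.1) :=
    linInd (fun e : Eset (n + 1) => e.1) hinj _ (fun e => hF3 e.1) (fun e => hF4 e.1)
  have hcard : Module.finrank ℂ (Z p n) ≤ Fintype.card (Eset (n + 1)) := by
    rw [← Nat.card_eq_fintype_card]; exact finrank_Z h0 h9 p hp n
  have hFZ : ∀ e : Eset (n + 1), F e.1 ∈ Z p n := by
    intro e
    refine ⟨?_, LinearMap.mem_ker.2 (hF1 e.1)⟩
    have h := hF2 e.1
    have h' : Finsupp.weight (fun k : ℕ => k + 2) e.1 = n + 1 := e.2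
    rw [h'] at h
    exact h
  obtain ⟨c, hc⟩ := span_of_card (Z p n) _ hv0 hFZ hcard f ⟨hf, LinearMap.mem_ker.2 hk⟩
  rw [← hc] at hd ⊢
  exact comb (fun e : Eset (n + 1) => e.1) hinj _ (fun e => hF3 e.1) (fun e => hF4 e.1) c d hd

lemma caseZero (d : ℕ) (f : Lm ℂ) (hf : Wt f 0) :
    homogeneousComponent d f ∈ Algebra.adjoin ℂ (Set.range yy) := by
  classical
  have h1 : f = C (coeff 0 f) := by
    ext s
    rw [coeff_C]
    split_ifs with h
    · rw [← h]
    · refine hf.coeff_eq_zero s fun h' => h ?_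
      ext k
      have := Finsupp.le_weight (fun k : ℕ => k + 1) (s := k) (Nat.succ_ne_zero k) s
      rw [h'] at this
      rw [Finsupp.zero_apply]
      omega
  have h2 : (C (coeff 0 f) : Lm ℂ).IsHomogeneous 0 := isHomogeneous_C _ _
  rw [h1, homogeneousComponent_of_mem h2]
  split_ifs
  · exact Subalgebra.algebraMap_mem _ _
  · exact Subalgebra.zero_mem _

theorem main : S_A10imp := by
  classical
  intro h0 h2 h9 p hp d f hk hd
  let w : ℕ → ℕ := fun k => k + 1
  -- weight components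
  obtain ⟨N, hN⟩ : ∃ N : ℕ, f = ∑ n ∈ Finset.range N, weightedHomogeneousComponent w n f := by
    refine ⟨weightedTotalDegree w f + 1, ?_⟩
    ext s
    simp only [coeff_sum, coeff_weightedHomogeneousComponent]
    rw [Finset.sum_ite_eq]
    split_ifs with h
    · rfl
    · by_contra hs
      apply h
      rw [Finset.mem_range, Nat.lt_succ_iff]
      exact le_weightedTotalDegree w (mem_support_iff.2 hs)
  have hwt : ∀ n, Wt (weightedHomogeneousComponent w n f) n := fun n =>
    weightedHomogeneousComponent_isWeightedHomogeneous n f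
  have hker : ∀ n, S1 (p : ℂ) (-1) (weightedHomogeneousComponent w n f) = 0 := by
    intro n
    by_cases hnN : n < N
    · rcases n with _ | n
      · exact (h0 ℂ 0 (p : ℂ) 0 _ (hwt 0)).2.1 (-1) (by norm_num)
      · have h3 := hk
        rw [hN, map_sum] at h3
        have h4 := congrArg (weightedHomogeneousComponent w n) h3
        rw [map_zero, map_sum, Finset.sum_eq_single (n + 1)] at h4
        · have h5 : Wt (S1 (p : ℂ) (-1) (weightedHomogeneousComponent w (n + 1) f)) n :=
            (h0 ℂ 0 (p : ℂ) (n + 1) _ (hwt (n + 1))).1 n (-1) (by push_cast; ring)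
          rwa [IsWeightedHomogeneous.weightedHomogeneousComponent_same h5] at h4
        · intro m _ hm
          rcases m with _ | m
          · rw [(h0 ℂ 0 (p : ℂ) 0 _ (hwt 0)).2.1 (-1) (by norm_num), map_zero]
          · have h5 : Wt (S1 (p : ℂ) (-1) (weightedHomogeneousComponent w (m + 1) f)) m :=
              (h0 ℂ 0 (p : ℂ) (m + 1) _ (hwt (m + 1))).1 m (-1) (by push_cast; ring)
            exact IsWeightedHomogeneous.weightedHomogeneousComponent_ne n h5 (by omega)
        · intro h; exact absurd (Finset.mem_range.2 hnN) h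
    · -- the component vanishes
      have : weightedHomogeneousComponent w n f = 0 := by
        have h4 := congrArg (weightedHomogeneousComponent w n) hN
        rw [map_sum] at h4
        rw [h4]
        refine Finset.sum_eq_zero fun m hm => ?_
        exact IsWeightedHomogeneous.weightedHomogeneousComponent_ne n (hwt m)
          (by have := Finset.mem_range.1 hm; omega)
      rw [this, map_zero]
  have htd : ∀ n, (weightedHomogeneousComponent w n f).totalDegree ≤ d := by
    intro n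
    refine le_trans ?_ hd
    refine Finset.sup_mono ?_
    intro s hs
    rw [mem_support_iff, coeff_weightedHomogeneousComponent] at hs
    rw [mem_support_iff]
    intro h
    apply hs
    rw [h, ite_self]
  rw [hN, map_sum]
  refine Subalgebra.sum_mem _ fun n _ => ?_
  rcases n with _ | n
  · exact caseZero d _ (hwt 0)
  · exact caseHom h0 h2 h9 p hp n d _ (hwt (n + 1)) (hker (n + 1)) (htd (n + 1))

end Pool.Agent.H391.SK.P_A10
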