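import Pool.Agent.H391.SK.StA

/-!
# Project SK: task A2 (helper278), commutation of the Virasoro operators with the modes `S1`
-/

set_option autoImplicit false

namespace Pool.Agent.H391.SK.P_A2

open MvPolynomial
open Pool.Agent.H391.SK

section

variable {A : Type} [CommRing A] [Algebra ℂ A]

/-! ### the elements `hz` -/

theorem hz_neg {R : Type} [CommRing R] [Algebra ℂ R] (x : ℕ → R) {j : ℤ} (h : j < 0) :
    hz x j = 0 := by
  unfold hz
  rw [if_neg (not_le.2 h)]

theorem hz_zero {R : Type} [CommRing R] [Algebra ℂ R] (x : ℕ → R) : hz x 0 = 1 := by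
  unfold hz
  rw [if_pos le_rfl]
  simp [hs]

theorem hz_nat {R : Type} [CommRing R] [Algebra ℂ R] (x : ℕ → R) (m : ℕ) :
    hz x (m : ℤ) = hs x m := by
  unfold hz
  rw [if_pos (by positivity), Int.toNat_natCast]

/-- Newton's recursion -/
theorem newton {R : Type} [CommRing R] [Algebra ℂ R] (x : ℕ → R) (J : ℤ) (M : ℕ) (hM : J ≤ M) :
    ∑ a ∈ Finset.range M, x a * hz x (J - 1 - a) = (J : R) * hz x J := by
  rcases lt_or_ge 0 J with h | h
  · obtain ⟨m, rfl⟩ : ∃ m : ℕ, J = (m : ℤ) + 1 := ⟨(J - 1).toNat, by omega⟩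
    have hmM : m + 1 ≤ M := by exact_mod_cast hM
    have h1 : ∑ a ∈ Finset.range M, x a * hz x ((m : ℤ) + 1 - 1 - a) =
        ∑ a ∈ Finset.range (m + 1), x a * hs x (m - a) := by
      rw [← Finset.sum_range_add_sum_Ico _ hmM]
      have h2 : ∑ k ∈ Finset.Ico (m + 1) M, x k * hz x ((m : ℤ) + 1 - 1 - k) = 0 := by
        refine Finset.sum_eq_zero fun k hk => ?_
        rw [Finset.mem_Ico] at hk
        rw [hz_neg x (by omega), mul_zero]
      rw [h2, add_zero]
      refine Finset.sum_congr rfl fun k hk => ?_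
      rw [Finset.mem_range] at hk
      rw [← hz_nat, Nat.cast_sub (by omega)]
      congr 2
      ring
    rw [h1]
    have h3 : hz x ((m : ℤ) + 1) = hs x (m + 1) := by
      rw [← hz_nat]
      push_cast
      rfl
    rw [h3, hs, Finset.sum_range (fun a => x a * hs x (m - a))]
    have h4 : (((m : ℤ) + 1 : ℤ) : R) = algebraMap ℂ R ((m : ℂ) + 1) := by
      rw [map_add, map_natCast, map_one]
      push_cast
      rfl
    rw [h4, ← Algebra.smul_def, smul_smul, mul_inv_cancel₀ (by exact_mod_cast Nat.succ_ne_zero m),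
      one_smul]
  · rw [Finset.sum_eq_zero fun a _ => by rw [hz_neg x (by omega), mul_zero]]
    rcases h.lt_or_eq with h | h
    · rw [hz_neg x h, mul_zero]
    · rw [h]; simp

theorem cancel {R : Type} [CommRing R] [Algebra ℂ R] (m : ℕ) {r s : R}
    (h : ((m : R) + 1) * r = ((m : R) + 1) * s) : r = s := by
  have h4 : ((m : R) + 1) = algebraMap ℂ R ((m : ℂ) + 1) := by
    rw [map_add, map_natCast, map_one]
  rw [h4, ← Algebra.smul_def, ← Algebra.smul_def] at h
  have h5 := congrArg (fun z => (((m : ℂ) + 1)⁻¹) • z) h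
  simpa [smul_smul, inv_mul_cancel₀ (by exact_mod_cast Nat.succ_ne_zero m : ((m : ℂ) + 1) ≠ 0)]
    using h5

/-- the derivation in `LL` -/
noncomputable def Dn (ν : A) (n : ℕ) : Derivation A (Lm A) (Lm A) :=
  mkDerivation A fun k : ℕ => C (4 * ν * ((k : A) + 1)) * X (n + k)

theorem Dn_X (ν : A) (n k : ℕ) : Dn ν n (X k) = C (4 * ν * ((k : A) + 1)) * X (n + k) := by
  unfold Dn
  rw [mkDerivation_X]

theorem Dn_hz (ν : A) (n : ℕ) (j : ℤ) (M : ℕ) (hM : j ≤ M) :
    Dn ν n (hz (X : ℕ → Lm A) j) =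
      C (4 * ν) * ∑ k ∈ Finset.range M, X (n + k) * hz (X : ℕ → Lm A) (j - k - 1) := by
  have key : ∀ d : ℕ, ∀ j : ℤ, j ≤ d → j ≤ M → Dn ν n (hz (X : ℕ → Lm A) j) =
      C (4 * ν) * ∑ k ∈ Finset.range M, X (n + k) * hz (X : ℕ → Lm A) (j - k - 1) := by
    intro d
    induction d with
    | zero =>
      intro j hj _
      rw [Finset.sum_eq_zero fun k _ => by rw [hz_neg _ (by push_cast at hj; omega), mul_zero],
        mul_zero]
      rcases (show j ≤ 0 by exact_mod_cast hj).lt_or_eq with h | h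
      · rw [hz_neg _ h, map_zero]
      · rw [h, hz_zero, Derivation.map_one_eq_zero]
    | succ d ih =>
      intro j hj hjM
      rcases lt_or_ge j ((d : ℤ) + 1) with h | h
      · exact ih j (by omega) hjM
      obtain rfl : j = (d : ℤ) + 1 := le_antisymm (by exact_mod_cast hj) h
      have h1 := newton (X : ℕ → Lm A) ((d : ℤ) + 1) M hjM
      have h2 := congrArg (Dn ν n) h1
      rw [map_sum] at h2
      have h3 : ∀ a ∈ Finset.range M, Dn ν n (X a * hz (X : ℕ → Lm A) ((d : ℤ) + 1 - 1 - a)) =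
          X a * (C (4 * ν) * ∑ k ∈ Finset.range M,
            X (n + k) * hz (X : ℕ → Lm A) ((d : ℤ) - a - k - 1)) +
          hz (X : ℕ → Lm A) ((d : ℤ) - a) * (C (4 * ν * ((a : A) + 1)) * X (n + a)) := by
        intro a _
        rw [Derivation.leibniz, smul_eq_mul, smul_eq_mul, Dn_X,
          ih ((d : ℤ) + 1 - 1 - a) (by omega) (by omega)]
        have e1 : (d : ℤ) + 1 - 1 - a = d - a := by ring
        rw [e1]
      rw [Finset.sum_congr rfl h3, Finset.sum_add_distrib] at h2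
      have h4 : ∑ a ∈ Finset.range M, X a * (C (4 * ν) * ∑ k ∈ Finset.range M,
            X (n + k) * hz (X : ℕ → Lm A) ((d : ℤ) - a - k - 1)) =
          C (4 * ν) * ∑ k ∈ Finset.range M, X (n + k) *
            ((((d : ℤ) - (k : ℤ) : ℤ) : Lm A) * hz (X : ℕ → Lm A) ((d : ℤ) - k)) := by
        rw [Finset.mul_sum]
        simp only [Finset.mul_sum]
        rw [Finset.sum_comm]
        refine Finset.sum_congr rfl fun k _ => ?_
        rw [← newton (X : ℕ → Lm A) ((d : ℤ) - k) M (by omega), Finset.mul_sum, Finset.mul_sum]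
        refine Finset.sum_congr rfl fun a _ => ?_
        have e1 : (d : ℤ) - a - k - 1 = d - k - 1 - a := by ring
        rw [e1]
        ring
      rw [h4] at h2
      have h5 : Dn ν n ((((d : ℤ) + 1 : ℤ) : Lm A) * hz (X : ℕ → Lm A) ((d : ℤ) + 1)) =
          ((d : Lm A) + 1) * Dn ν n (hz (X : ℕ → Lm A) ((d : ℤ) + 1)) := by
        rw [Derivation.leibniz, smul_eq_mul, smul_eq_mul]
        have : Dn ν n (((d : ℤ) + 1 : ℤ) : Lm A) = 0 := Derivation.map_intCast _ _
        rw [this, mul_zero, add_zero]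
        push_cast
        ring
      rw [h5] at h2
      refine cancel d ?_
      rw [← h2, Finset.mul_sum, Finset.mul_sum, Finset.mul_sum, ← Finset.sum_add_distrib]
      refine Finset.sum_congr rfl fun k _ => ?_
      have e1 : (d : ℤ) + 1 - k - 1 = d - k := by ring
      rw [e1]
      simp only [map_mul, map_add, map_natCast, map_one, map_ofNat]
      push_cast
      ring
  exact key j.toNat j (by omega) hM

/-! ### the operators `S1` -/

/-- the evaluation in `S1` -/
noncomputable def TT (j : ℤ) : Polynomial (Lm A) →ₗ[A] Lm A :=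
  Polynomial.lsum fun k : ℕ => LinearMap.mulLeft A (hz (X : ℕ → Lm A) ((k : ℤ) + j))

theorem TT_monomial (j : ℤ) (k : ℕ) (c : Lm A) :
    TT j (Polynomial.monomial k c) = hz (X : ℕ → Lm A) ((k : ℤ) + j) * c := by
  unfold TT
  rw [Polynomial.lsum_apply, Polynomial.sum_monomial_index]
  · simp
  · simp

theorem TT_mul (j : ℤ) (r : Lm A) (l : ℕ) (p : Polynomial (Lm A)) :
    TT j (Polynomial.C r * Polynomial.X ^ l * p) = r * TT (j + l) p := by
  induction p using Polynomial.induction_on' with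
  | add p q hp hq => rw [mul_add, map_add, hp, hq, map_add, mul_add]
  | monomial k c =>
    have h1 : Polynomial.C r * Polynomial.X ^ l * Polynomial.monomial k c =
        Polynomial.monomial (l + k) (r * c) := by
      rw [Polynomial.C_mul_X_pow_eq_monomial, Polynomial.monomial_mul_monomial]
    rw [h1, TT_monomial, TT_monomial]
    have e : ((l + k : ℕ) : ℤ) + j = (k : ℤ) + (j + l) := by push_cast; ring
    rw [e]
    ring

theorem S1_apply (ν : A) (j : ℤ) (f : Lm A) : S1 ν j f = TT j (shA ν f) := rfl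

theorem S1_X_mul (ν : A) (j : ℤ) (k : ℕ) (f : Lm A) :
    S1 ν j (X k * f) = X k * S1 ν j f - C (2 * ν) * S1 ν (j + k + 1) f := by
  rw [S1_apply, map_mul]
  have h1 : shA ν (X k) = Polynomial.C (X k) -
      Polynomial.C (MvPolynomial.C (2 * ν)) * Polynomial.X ^ (k + 1) := by
    unfold shA
    rw [aeval_X]
  rw [h1, sub_mul, map_sub, TT_mul]
  have h2 := TT_mul j (X k : Lm A) 0 (shA ν f)
  rw [pow_zero, mul_one] at h2
  rw [h2, S1_apply, S1_apply]
  have e1 : j + ((0 : ℕ) : ℤ) = j := by simp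
  have e2 : j + ((k + 1 : ℕ) : ℤ) = j + k + 1 := by push_cast; ring
  rw [e1, e2]

theorem S1_one (ν : A) (j : ℤ) : S1 ν j 1 = hz (X : ℕ → Lm A) j := by
  rw [S1_apply, map_one, ← Polynomial.monomial_zero_one, TT_monomial]
  simp

theorem S1_X (ν : A) (j : ℤ) (k : ℕ) :
    S1 ν j (X k) = X k * hz (X : ℕ → Lm A) j - C (2 * ν) * hz (X : ℕ → Lm A) (j + k + 1) := by
  have h := S1_X_mul ν j k 1
  rw [mul_one, S1_one, S1_one] at h
  exact h

theorem S1_C_mul (ν : A) (j : ℤ) (a : A) (f : Lm A) : S1 ν j (C a * f) = C a * S1 ν j f := by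
  rw [← smul_eq_C_mul, map_smul, smul_eq_C_mul]

/-! ### the operators `LL` -/

/-- the quadratic part -/
noncomputable def Q (m ν : A) (n : ℕ) : Lm A :=
  ∑ a ∈ Finset.range (n - 1), X a * X (n - 2 - a) +
    C (2 * m + 2 * (ν - 1) * ((n : A) - 1)) * X (n - 1)

theorem LL_apply (m ν : A) (n : ℕ) (f : Lm A) : LL m ν n f = Q m ν n * f + Dn ν n f := rfl

theorem LL_X_mul (m ν : A) (n k : ℕ) (f : Lm A) :
    LL m ν n (X k * f) = X k * LL m ν n f + C (4 * ν * ((k : A) + 1)) * X (n + k) * f := by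
  rw [LL_apply, LL_apply, Derivation.leibniz, Dn_X, smul_eq_mul, smul_eq_mul]
  ring

theorem LL_C_mul (m ν : A) (n : ℕ) (a : A) (f : Lm A) :
    LL m ν n (C a * f) = C a * LL m ν n f := by
  rw [← smul_eq_C_mul, map_smul, smul_eq_C_mul]

/-- the case `f = 1` -/
theorem base (m ν : A) (n : ℕ) (hn : 1 ≤ n) (j : ℤ) :
    LL (m + 2 * ν) ν n (S1 ν j 1) - S1 ν j (LL m ν n 1) =
      C (4 * ν * (m + 1 + ((j : ℤ) : A))) * S1 ν (j + n) 1 := by
  obtain ⟨n, rfl⟩ : ∃ k, n = k + 1 := ⟨n - 1, by omega⟩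
  set H : ℤ → Lm A := hz (X : ℕ → Lm A) with hH
  -- the sum over the quadratic part
  have hq : S1 ν j (∑ a ∈ Finset.range n, X a * X (n - 1 - a)) =
      (∑ a ∈ Finset.range n, X a * X (n - 1 - a)) * H j -
        C (4 * ν) * ∑ a ∈ Finset.range n, X a * H (j + n - a) +
        C (4 * ν ^ 2) * (n : Lm A) * H (j + n + 1) := by
    rw [map_sum]
    have h1 : ∀ a ∈ Finset.range n, S1 ν j (X a * X (n - 1 - a)) =
        X a * X (n - 1 - a) * H j - C (2 * ν) * (X a * H (j + n - a)) -
          C (2 * ν) * (X (n - 1 - a) * H (j + n - ((n - 1 - a : ℕ) : ℤ))) +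
          C (4 * ν ^ 2) * H (j + n + 1) := by
      intro a ha
      rw [Finset.mem_range] at ha
      rw [S1_X_mul, S1_X, S1_X]
      have e1 : j + ((n - 1 - a : ℕ) : ℤ) + 1 = j + n - a := by
        have : ((n - 1 - a : ℕ) : ℤ) = n - 1 - a := by omega
        rw [this]; ring
      have e2 : j + (n : ℤ) - ((n - 1 - a : ℕ) : ℤ) = j + a + 1 := by
        have : ((n - 1 - a : ℕ) : ℤ) = n - 1 - a := by omega
        rw [this]; ring
      have e3 : j + (a : ℤ) + 1 + ((n - 1 - a : ℕ) : ℤ) + 1 = j + n + 1 := by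
        have : ((n - 1 - a : ℕ) : ℤ) = n - 1 - a := by omega
        rw [this]; ring
      rw [e1, e2, e3, ← hH]
      have e4 : (C (4 * ν ^ 2) : Lm A) = C (2 * ν) * C (2 * ν) := by
        rw [← C_mul]; congr 1; ring
      rw [e4]
      ring
    rw [Finset.sum_congr rfl h1, Finset.sum_add_distrib, Finset.sum_sub_distrib,
      Finset.sum_sub_distrib, ← Finset.sum_mul, ← Finset.mul_sum, ← Finset.mul_sum,
      Finset.sum_const, Finset.card_range, nsmul_eq_mul,
      Finset.sum_range_reflect (fun a => (X a : Lm A) * H (j + n - a)) n]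
    have e5 : (C (4 * ν) : Lm A) = C (2 * ν) + C (2 * ν) := by
      rw [← C_add]; congr 1; ring
    rw [e5]
    ring
  -- the derivation
  obtain ⟨M, hM⟩ : ∃ M : ℕ, j ≤ M := ⟨j.toNat, by omega⟩
  have hd : Dn ν (n + 1) (H j) = C (4 * ν) * ∑ k ∈ Finset.range M,
      X (n + 1 + k) * H (j - k - 1) := Dn_hz ν (n + 1) j M hM
  -- Newton
  have hN := newton (X : ℕ → Lm A) (j + n + 1) (n + 1 + M) (by push_cast; omega)
  rw [← hH, Finset.sum_range_add, Finset.sum_range_succ] at hN
  have e6 : ∀ a : ℕ, j + (n : ℤ) + 1 - 1 - (a : ℤ) = j + n - a := fun a => by ring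
  have e7 : ∀ k : ℕ, j + (n : ℤ) - ((n + 1 + k : ℕ) : ℤ) = j - k - 1 := fun k => by
    push_cast; ring
  have e8 : j + (n : ℤ) - (n : ℤ) = j := by ring
  simp only [e6, e7] at hN
  rw [e8] at hN
  rw [LL_apply, LL_apply, Derivation.map_one_eq_zero, add_zero, mul_one, S1_one, S1_one, ← hH]
  unfold Q
  rw [show n + 1 - 1 = n by omega]
  simp only [show ∀ a, n + 1 - 2 - a = n - 1 - a from fun a => by omega]
  rw [LinearMap.map_add, S1_C_mul, hq, S1_X, ← hH, hd]
  have e9 : j + ((n + 1 : ℕ) : ℤ) = j + n + 1 := by push_cast; ring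
  rw [e9]
  simp only [map_mul, map_add, map_sub, map_one, map_natCast, map_intCast, map_ofNat, map_pow]
  push_cast at hN ⊢
  linear_combination (4 * (C ν : Lm A)) * hN

theorem all (m ν : A) (n : ℕ) (hn : 1 ≤ n) (f : Lm A) : ∀ j : ℤ,
    LL (m + 2 * ν) ν n (S1 ν j f) - S1 ν j (LL m ν n f) =
      C (4 * ν * (m + 1 + ((j : ℤ) : A))) * S1 ν (j + n) f := by
  induction f using MvPolynomial.induction_on with
  | C a =>
    intro j
    have h := base m ν n hn j
    have e : (C a : Lm A) = C a * 1 := (mul_one _).symm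
    rw [e, S1_C_mul, LL_C_mul, LL_C_mul, S1_C_mul, S1_C_mul]
    linear_combination (C a : Lm A) * h
  | add f g hf hg =>
    intro j
    have h1 := hf j
    have h2 := hg j
    simp only [map_add] at h1 h2 ⊢
    linear_combination h1 + h2
  | mul_X f k hf =>
    intro j
    have h1 := hf j
    have h2 := hf (j + k + 1)
    rw [mul_comm f (X k), S1_X_mul, LL_X_mul, map_sub, LL_X_mul, LL_C_mul, map_add, S1_X_mul,
      mul_assoc (C (4 * ν * ((k : A) + 1))) (X (n + k)) f, S1_C_mul, S1_X_mul, S1_X_mul]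
    have e1 : j + ((n + k : ℕ) : ℤ) + 1 = j + k + 1 + n := by push_cast; ring
    have e2 : j + (n : ℤ) + (k : ℤ) + 1 = j + k + 1 + n := by ring
    rw [e1, e2]
    simp only [map_mul, map_add, map_one, map_natCast, map_intCast, map_ofNat] at h1 h2 ⊢
    push_cast at h1 h2 ⊢
    linear_combination (X k : Lm A) * h1 - (2 * (C ν : Lm A)) * h2

end

theorem main : S_A2 := fun _ _ _ m ν n hn j f => all m ν n hn f j

end Pool.Agent.H391.SK.P_A2
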