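import Pool.Agent.H391.SK.StA

namespace Pool.Agent.H391.SK.P_A3

open MvPolynomial

theorem hs_zero {R : Type} [CommRing R] [Algebra ℂ R] (x : ℕ → R) : hs x 0 = 1 := by
  rw [hs]

theorem hs_succ {R : Type} [CommRing R] [Algebra ℂ R] (x : ℕ → R) (m : ℕ) :
    ((m : ℂ) + 1) • hs x (m + 1) = ∑ k ∈ Finset.range (m + 1), x k * hs x (m - k) := by
  have h : ((m : ℂ) + 1) ≠ 0 := by exact_mod_cast Nat.succ_ne_zero m
  rw [hs, smul_smul, mul_inv_cancel₀ h, one_smul]
  exact (Finset.sum_range (f := fun k => x k * hs x (m - k))).symm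

/-- the sequence shifted by one -/
def pm {R : Type} [Zero R] (g : ℕ → R) (k : ℕ) : R := if k = 0 then 0 else g (k - 1)

theorem pm_zero {R : Type} [Zero R] (g : ℕ → R) : pm g 0 = 0 := if_pos rfl

theorem pm_succ {R : Type} [Zero R] (g : ℕ → R) (k : ℕ) : pm g (k + 1) = g k := by
  unfold pm
  rw [if_neg (Nat.succ_ne_zero k)]
  rfl

theorem pm_sub {R : Type} [Zero R] (g : ℕ → R) {m k : ℕ} (h : k < m) :
    pm g (m - k) = g (m - (k + 1)) := by
  unfold pm
  rw [if_neg (by omega)]
  congr 1

/-- telescoping -/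
theorem tel {R : Type} [CommRing R] (g : ℕ → R) (m : ℕ) :
    ∑ k ∈ Finset.range (m + 1), ((Polynomial.X : Polynomial R) ^ (k + 1) * Polynomial.C (g (m - k)) -
      (Polynomial.X : Polynomial R) ^ (k + 2) * Polynomial.C (pm g (m - k))) =
    Polynomial.X * Polynomial.C (g m) := by
  rw [Finset.sum_sub_distrib]
  rw [Finset.sum_range_succ' (fun k => (Polynomial.X : Polynomial R) ^ (k + 1) *
    Polynomial.C (g (m - k))) m]
  rw [Finset.sum_range_succ (fun k => (Polynomial.X : Polynomial R) ^ (k + 2) *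
    Polynomial.C (pm g (m - k))) m]
  have h : ∑ k ∈ Finset.range m, (Polynomial.X : Polynomial R) ^ (k + 2) *
      Polynomial.C (pm g (m - k)) =
      ∑ k ∈ Finset.range m, (Polynomial.X : Polynomial R) ^ (k + 1 + 1) *
      Polynomial.C (g (m - (k + 1))) := by
    refine Finset.sum_congr rfl fun k hk => ?_
    rw [pm_sub g (Finset.mem_range.1 hk)]
  rw [h, Nat.sub_self, pm_zero]
  simp

/-- the recursion for the shifted sequence -/
theorem pm_rec {R : Type} [CommRing R] [Algebra ℂ R] (x : ℕ → R) (m : ℕ) :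
    ∑ k ∈ Finset.range (m + 1), x k * pm (hs x) (m - k) = (m : ℂ) • hs x m := by
  rw [Finset.sum_range_succ, Nat.sub_self, pm_zero, mul_zero, add_zero]
  cases m with
  | zero => simp
  | succ m =>
    have h := hs_succ x m
    push_cast
    rw [h]
    refine Finset.sum_congr rfl fun k hk => ?_
    rw [pm_sub _ (Finset.mem_range.1 hk)]
    congr 2
    omega

variable {ν : ℂ}

theorem sh_x (hν : ν ≠ 0) (n : ℕ) :
    shA ν (C ((2 * ν)⁻¹) * X n) =
      Polynomial.C (C ((2 * ν)⁻¹) * X n) - Polynomial.X ^ (n + 1) := by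
  have h2 : (2 * ν)⁻¹ * (2 * ν) = 1 := inv_mul_cancel₀ (mul_ne_zero two_ne_zero hν)
  rw [map_mul]
  have e1 : shA ν (C ((2 * ν)⁻¹)) = Polynomial.C (C ((2 * ν)⁻¹)) := by
    unfold shA
    rw [MvPolynomial.aeval_C]
    rfl
  have e2 : shA ν (X n) = Polynomial.C (X n) -
      Polynomial.C (MvPolynomial.C (2 * ν)) * Polynomial.X ^ (n + 1) := by
    unfold shA
    rw [MvPolynomial.aeval_X]
  rw [e1, e2, mul_sub, ← mul_assoc, ← Polynomial.C_mul, ← Polynomial.C_mul, ← MvPolynomial.C_mul,
    h2]
  simp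

theorem key (hν : ν ≠ 0) (k : ℕ) :
    shA ν (gs ν k) = Polynomial.C (gs ν k) - Polynomial.C (pm (gs ν) k) * Polynomial.X := by
  induction k using Nat.strong_induction_on with
  | _ k ih =>
    cases k with
    | zero =>
      rw [pm_zero]
      unfold gs
      rw [hs_zero]
      simp
    | succ m =>
      have hm : ((m : ℂ) + 1) ≠ 0 := by exact_mod_cast Nat.succ_ne_zero m
      obtain ⟨x, hx⟩ : ∃ x : ℕ → Lm ℂ, x = fun n => C ((2 * ν)⁻¹) * X n := ⟨_, rfl⟩
      have hg : ∀ k, gs ν k = hs x k := fun k => by rw [hx]; rfl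
      have hgf : gs ν = hs x := funext hg
      have hrec := hs_succ x m
      have hp := pm_rec x m
      have htel := tel (hs x) m
      have hcancel : ((m : ℂ) + 1) • shA ν (gs ν (m + 1)) = ((m : ℂ) + 1) •
          (Polynomial.C (gs ν (m + 1)) - Polynomial.C (pm (gs ν) (m + 1)) * Polynomial.X) := by
        have e1 : ((m : ℂ) + 1) • shA ν (gs ν (m + 1)) =
            ∑ k ∈ Finset.range (m + 1), ((Polynomial.C (x k * hs x (m - k)) -
              Polynomial.C (x k * pm (hs x) (m - k)) * Polynomial.X) -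
              (Polynomial.X ^ (k + 1) * Polynomial.C (hs x (m - k)) -
              Polynomial.X ^ (k + 2) * Polynomial.C (pm (hs x) (m - k)))) := by
          rw [← map_smul, hg, hrec, map_sum]
          refine Finset.sum_congr rfl fun k _ => ?_
          rw [map_mul]
          have h1 : shA ν (x k) = Polynomial.C (x k) - Polynomial.X ^ (k + 1) := by
            rw [hx]; exact sh_x hν k
          have h2 : shA ν (hs x (m - k)) = Polynomial.C (hs x (m - k)) -
              Polynomial.C (pm (hs x) (m - k)) * Polynomial.X := by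
            rw [← hgf]; exact ih (m - k) (by omega)
          rw [h1, h2, Polynomial.C_mul, Polynomial.C_mul]
          ring
        rw [e1, Finset.sum_sub_distrib, htel, Finset.sum_sub_distrib, ← Finset.sum_mul, ← map_sum,
          ← map_sum, ← hrec, hp, pm_succ]
        have h3 : ∀ (c : ℂ) (p : Lm ℂ), Polynomial.C (c • p) = c • Polynomial.C p :=
          fun c p => (Polynomial.smul_C c p).symm
        rw [h3, h3, smul_sub, hg, hg, add_smul ((m : ℂ)) 1 (Polynomial.C (hs x m) * Polynomial.X),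
          one_smul, smul_mul_assoc]
        ring
      have := congrArg (fun z => ((m : ℂ) + 1)⁻¹ • z) hcancel
      simp only [smul_smul, inv_mul_cancel₀ hm, one_smul] at this
      exact this

/-- the sum over the coefficients -/
noncomputable def ls (j : ℤ) : Polynomial (Lm ℂ) →ₗ[ℂ] Lm ℂ :=
  Polynomial.lsum fun k : ℕ => LinearMap.mulLeft ℂ (hz (X : ℕ → Lm ℂ) ((k : ℤ) + j))

theorem ls_monomial (j : ℤ) (k : ℕ) (a : Lm ℂ) :
    ls j (Polynomial.monomial k a) = hz (X : ℕ → Lm ℂ) ((k : ℤ) + j) * a := by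
  unfold ls
  rw [Polynomial.lsum_apply, Polynomial.sum_monomial_index]
  · rfl
  · exact map_zero _

theorem ls_C_mul (j : ℤ) (g : Lm ℂ) (q : Polynomial (Lm ℂ)) :
    ls j (Polynomial.C g * q) = g * ls j q := by
  induction q using Polynomial.induction_on' with
  | add p q hp hq => rw [mul_add, map_add, map_add, hp, hq, mul_add]
  | monomial k a =>
    rw [Polynomial.C_mul_monomial, ls_monomial, ls_monomial]
    ring

theorem ls_X_mul (j : ℤ) (q : Polynomial (Lm ℂ)) :
    ls j (Polynomial.X * q) = ls (j + 1) q := by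
  induction q using Polynomial.induction_on' with
  | add p q hp hq => rw [mul_add, map_add, map_add, hp, hq]
  | monomial k a =>
    rw [Polynomial.X_mul_monomial, ls_monomial, ls_monomial]
    congr 2
    push_cast
    ring

theorem main : S_A3 := by
  intro ν hν k j f
  have e : ∀ (j : ℤ) (f : Lm ℂ), S1 ν j f = ls j (shA ν f) := fun j f => rfl
  rw [e, e, e, map_mul, key hν, pm_succ, sub_mul, map_sub, ls_C_mul, mul_assoc, ls_C_mul, ls_X_mul]

end Pool.Agent.H391.SK.P_A3
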