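import Mathlib
import Pool.Agent.H391.SK.StA

/-! SK-A4 (helper139). -/

namespace Pool.Agent.H391.SK.P_A4

open MvPolynomial
open Pool.Agent.H391.SK

section hsl

variable {R : Type} [CommRing R] [Algebra ℂ R]

/-- `P` is the exponential series belonging to `x` -/
def Lg (P : PowerSeries R) (x : ℕ → R) : Prop :=
  PowerSeries.constantCoeff P = 1 ∧ PowerSeries.derivative R P = P * PowerSeries.mk x

theorem Lg.hs {P : PowerSeries R} {x : ℕ → R} (h : Lg P x) (m : ℕ) : hs x m = PowerSeries.coeff m P := by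
  induction m using Nat.strong_induction_on with
  | _ m ih =>
    match m with
    | 0 =>
      rw [Pool.Agent.H391.SK.hs, PowerSeries.coeff_zero_eq_constantCoeff_apply, h.1]
    | m + 1 =>
      rw [Pool.Agent.H391.SK.hs]
      have h1 : ∑ k : Fin (m + 1), x k * Pool.Agent.H391.SK.hs x (m - k) =
          PowerSeries.coeff (m + 1) P * ((m : R) + 1) := by
        rw [← PowerSeries.coeff_derivative, h.2, PowerSeries.coeff_mul,
          Finset.Nat.sum_antidiagonal_eq_sum_range_succ_mk, ← Finset.sum_range_reflect,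
          Finset.sum_range]
        apply Finset.sum_congr rfl
        intro k _
        have hk : (k : ℕ) ≤ m := Nat.lt_succ_iff.1 k.2
        rw [ih (m - k) (by omega), PowerSeries.coeff_mk]
        have e1 : m + 1 - 1 - (k : ℕ) = m - k := by omega
        have e2 : m - (m - (k : ℕ)) = k := by omega
        simp only [Nat.succ_eq_add_one, e1, e2]
        ring
      rw [h1]
      have h2 : ((m : R) + 1) = algebraMap ℂ R ((m : ℂ) + 1) := by simp
      rw [h2, mul_comm, ← Algebra.smul_def, smul_smul, inv_mul_cancel₀, one_smul]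
      exact_mod_cast Nat.succ_ne_zero m

theorem Lg.one : Lg (1 : PowerSeries R) 0 := by
  refine ⟨by simp, ?_⟩
  have : PowerSeries.mk (0 : ℕ → R) = 0 := by
    ext n
    simp
  rw [this]
  simp

theorem Lg.mul {P Q : PowerSeries R} {x y : ℕ → R} (h : Lg P x) (h' : Lg Q y) : Lg (P * Q) (x + y) := by
  refine ⟨by rw [map_mul, h.1, h'.1, one_mul], ?_⟩
  have e : PowerSeries.mk (x + y) = PowerSeries.mk x + PowerSeries.mk y := by
    ext n
    simp
  rw [Derivation.leibniz, h.2, h'.2, e]
  simp only [smul_eq_mul]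
  ring

theorem Lg.pow {P : PowerSeries R} {x : ℕ → R} (h : Lg P x) (n : ℕ) : Lg (P ^ n) (n • x) := by
  induction n with
  | zero => simpa using Lg.one
  | succ n ih =>
    rw [pow_succ, succ_nsmul]
    exact ih.mul h

theorem Lg.prod {ι : Type} (s : Finset ι) (P : ι → PowerSeries R) (x : ι → ℕ → R)
    (h : ∀ i ∈ s, Lg (P i) (x i)) : Lg (∏ i ∈ s, P i) (∑ i ∈ s, x i) := by
  classical
  induction s using Finset.induction_on with
  | empty => simpa using Lg.one
  | insert a s ha ih =>
    rw [Finset.prod_insert ha, Finset.sum_insert ha]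
    exact (h a (Finset.mem_insert_self a s)).mul (ih fun i hi => h i (Finset.mem_insert_of_mem hi))

theorem Lg.lin (a : R) : Lg (1 - PowerSeries.C a * PowerSeries.X) (fun k => -a ^ (k + 1)) := by
  refine ⟨by simp, ?_⟩
  ext n
  rw [PowerSeries.coeff_derivative, sub_mul, one_mul, map_sub, map_sub]
  rw [mul_assoc, PowerSeries.coeff_C_mul, PowerSeries.coeff_mk]
  cases n with
  | zero =>
    simp
  | succ n =>
    rw [PowerSeries.coeff_C_mul, mul_comm PowerSeries.X, PowerSeries.coeff_succ_mul_X, PowerSeries.coeff_mk,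
      PowerSeries.coeff_X, PowerSeries.coeff_one]
    simp
    ring

theorem Lg.congr {P : PowerSeries R} {x y : ℕ → R} (h : Lg P x) (e : x = y) : Lg P y := e ▸ h

/-- compatibility with homomorphisms -/
theorem hs_map {S : Type} [CommRing S] [Algebra ℂ S] (φ : R →ₐ[ℂ] S) (x : ℕ → R) (m : ℕ) :
    φ (Pool.Agent.H391.SK.hs x m) = Pool.Agent.H391.SK.hs (fun n => φ (x n)) m := by
  induction m using Nat.strong_induction_on with
  | _ m ih =>
    match m with
    | 0 => rw [Pool.Agent.H391.SK.hs, Pool.Agent.H391.SK.hs, map_one]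
    | m + 1 =>
      rw [Pool.Agent.H391.SK.hs, Pool.Agent.H391.SK.hs, map_smul, map_sum]
      congr 1
      apply Finset.sum_congr rfl
      intro k _
      rw [map_mul, ih (m - k) (by have := k.2; omega)]

end hsl


open Polynomial in
/-- the reversed polynomial -/
noncomputable def revHom (R : Type) [CommRing R] [IsDomain R] : Polynomial R →* Polynomial R where
  toFun := Polynomial.reverse
  map_one' := by
    have := Polynomial.reverse_C (1 : R)
    simpa using this
  map_mul' := Polynomial.reverse_mul_of_domain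

theorem revHom_X_sub_C {R : Type} [CommRing R] [IsDomain R] (a : R) :
    revHom R (Polynomial.X - Polynomial.C a) = 1 - Polynomial.C a * Polynomial.X := by
  ext n
  show (Polynomial.reverse (Polynomial.X - Polynomial.C a)).coeff n = _
  rw [Polynomial.coeff_reverse, Polynomial.natDegree_X_sub_C]
  rcases n with _ | _ | n
  · rw [Polynomial.revAt_le (by omega)]
    simp [Polynomial.coeff_C]
  · rw [Polynomial.revAt_le (by omega)]
    simp [Polynomial.coeff_one]
  · rw [Polynomial.revAt_eq_self_of_lt (by omega)]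
    simp [Polynomial.coeff_X, Polynomial.coeff_C, Polynomial.coeff_one]

section ev

variable (q : ℕ)

/-- evaluation at the power sums of `N` variables -/
noncomputable def E (N : ℕ) : Lm ℂ →ₐ[ℂ] MvPolynomial (Fin N) ℂ :=
  aeval fun n => C (-2 * (q : ℂ)) * ∑ i : Fin N, X i ^ (n + 1)

/-- the polynomial `∏ (b - x_j)^{2q}` -/
noncomputable def Bp (N : ℕ) : Polynomial (MvPolynomial (Fin N) ℂ) :=
  (∏ j : Fin N, (Polynomial.X - Polynomial.C (X j))) ^ (2 * q)

theorem Bp_monic (N : ℕ) : (Bp q N).Monic := by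
  unfold Bp
  exact (Polynomial.monic_prod_of_monic _ _ fun i _ => Polynomial.monic_X_sub_C _).pow _

theorem Bp_natDegree (N : ℕ) : (Bp q N).natDegree = 2 * q * N := by
  unfold Bp
  rw [(Polynomial.monic_prod_of_monic _ _ fun i _ => Polynomial.monic_X_sub_C _).natDegree_pow,
    Polynomial.natDegree_finsetProd_X_sub_C_eq_card]
  simp

theorem Bp_rev (N : ℕ) : (Bp q N).reverse =
    (∏ j : Fin N, (1 - Polynomial.C (X j) * Polynomial.X)) ^ (2 * q) := by
  show revHom _ (Bp q N) = _
  unfold Bp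
  rw [map_pow, map_prod]
  simp only [revHom_X_sub_C]

theorem E_X (N n : ℕ) : E q N (X n) = C (-2 * (q : ℂ)) * ∑ i : Fin N, X i ^ (n + 1) := by
  unfold E
  rw [aeval_X]

theorem E_hs (N m : ℕ) : E q N (hs X m) = (Bp q N).reverse.coeff m := by
  have h : Lg (((Bp q N).reverse : Polynomial (MvPolynomial (Fin N) ℂ)) : PowerSeries (MvPolynomial (Fin N) ℂ))
      (fun n => E q N (X n)) := by
    rw [Bp_rev]
    have h1 : Lg ((∏ j : Fin N, (1 - PowerSeries.C (X j : MvPolynomial (Fin N) ℂ) * PowerSeries.X)) ^ (2 * q))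
      ((2 * q) • ∑ j : Fin N, fun k => -(X j : MvPolynomial (Fin N) ℂ) ^ (k + 1)) :=
      (Lg.prod Finset.univ _ _ fun i _ => Lg.lin (X i : MvPolynomial (Fin N) ℂ)).pow (2 * q)
    have e1 : (((∏ j : Fin N, (1 - Polynomial.C (X j) * Polynomial.X)) ^ (2 * q) : Polynomial (MvPolynomial (Fin N) ℂ)) :
        PowerSeries (MvPolynomial (Fin N) ℂ)) =
        (∏ j : Fin N, (1 - PowerSeries.C (X j : MvPolynomial (Fin N) ℂ) * PowerSeries.X)) ^ (2 * q) := by
      rw [← Polynomial.coeToPowerSeries.ringHom_apply, map_pow, map_prod]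
      congr 1
      apply Finset.prod_congr rfl
      intro j _
      rw [map_sub, map_one, map_mul]
      simp
    rw [e1]
    refine h1.congr ?_
    funext n
    rw [E_X, Pi.smul_apply, Finset.sum_apply, Finset.sum_neg_distrib]
    simp only [nsmul_eq_mul, map_mul, map_neg, map_ofNat, map_natCast]
    push_cast
    ring
  rw [hs_map, h.hs, Polynomial.coeff_coe]

theorem E_hz (N M : ℕ) (k : ℕ) (j : ℤ) (hM : (M : ℤ) = 2 * q * N - j) :
    E q N (hz X ((k : ℤ) + j)) = if k ≤ M then (Bp q N).coeff (M - k) else 0 := by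
  unfold hz
  by_cases h0 : 0 ≤ (k : ℤ) + j
  · rw [if_pos h0]
    obtain ⟨m, hm⟩ := Int.eq_ofNat_of_zero_le h0
    rw [hm, Int.toNat_natCast, E_hs, Polynomial.coeff_reverse, Bp_natDegree]
    by_cases h1 : k ≤ M
    · rw [if_pos h1, Polynomial.revAt_le]
      · congr 1
        zify [h1]
        rw [Nat.cast_sub]
        · push_cast
          linarith
        · zify
          push_cast
          have : (k : ℤ) ≤ M := by exact_mod_cast h1
          linarith
      · zify
        have : (k : ℤ) ≤ M := by exact_mod_cast h1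
        linarith
    · rw [if_neg h1]
      have h2 : 2 * q * N < m := by
        zify
        have : (M : ℤ) < k := by exact_mod_cast not_le.1 h1
        linarith
      rw [Polynomial.revAt_eq_self_of_lt h2]
      apply Polynomial.coeff_eq_zero_of_natDegree_lt
      rw [Bp_natDegree]
      exact h2
  · rw [if_neg h0, map_zero]
    split_ifs with h1
    · symm
      apply Polynomial.coeff_eq_zero_of_natDegree_lt
      rw [Bp_natDegree]
      zify [h1]
      linarith
    · rfl

/-- the substitution is the evaluation at one more variable -/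
theorem E_succ (N : ℕ) (f : Lm ℂ) :
    finSuccEquiv ℂ N (E q (N + 1) f) = Polynomial.map (E q N : Lm ℂ →+* MvPolynomial (Fin N) ℂ) (shA (q : ℂ) f) := by
  have h : ((finSuccEquiv ℂ N : MvPolynomial (Fin (N + 1)) ℂ →+* Polynomial (MvPolynomial (Fin N) ℂ)).comp
      (E q (N + 1) : Lm ℂ →+* MvPolynomial (Fin (N + 1)) ℂ)) =
      (Polynomial.mapRingHom (E q N : Lm ℂ →+* MvPolynomial (Fin N) ℂ)).comp
        (shA (q : ℂ) : Lm ℂ →+* Polynomial (Lm ℂ)) := by
    apply MvPolynomial.ringHom_ext
    · intro r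
      simp only [RingHom.comp_apply, RingHom.coe_coe]
      rw [show (C r : Lm ℂ) = algebraMap ℂ (Lm ℂ) r from rfl, AlgHom.commutes, AlgHom.commutes, AlgEquiv.commutes]
      rw [Polynomial.coe_mapRingHom]
      rw [Polynomial.algebraMap_apply, Polynomial.algebraMap_apply, Polynomial.map_C]
      congr 1
      exact (AlgHom.commutes (E q N) r).symm
    · intro n
      simp only [RingHom.comp_apply, RingHom.coe_coe, Polynomial.coe_mapRingHom]
      rw [E_X, shA, aeval_X, Polynomial.map_sub, Polynomial.map_mul, Polynomial.map_C, Polynomial.map_C,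
        Polynomial.map_pow, Polynomial.map_X]
      rw [map_mul, map_sum, Fin.sum_univ_succ]
      simp only [map_pow, finSuccEquiv_X_zero, finSuccEquiv_X_succ]
      rw [RingHom.coe_coe, E_X]
      have e1 : (finSuccEquiv ℂ N) (C (-2 * (q : ℂ))) = Polynomial.C (C (-2 * (q : ℂ))) := by
        rw [show (C (-2 * (q : ℂ)) : MvPolynomial (Fin (N + 1)) ℂ) = algebraMap ℂ _ (-2 * (q : ℂ)) from rfl,
          AlgEquiv.commutes]
        rfl
      have e2 : (E q N) (C (2 * (q : ℂ))) = C (2 * (q : ℂ)) := AlgHom.commutes (E q N) (2 * (q : ℂ))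
      rw [e1, e2]
      simp only [map_mul, map_sum, map_pow, map_neg, map_ofNat]
      ring
  have := congrArg (fun g => g f) h
  simpa using this

/-- the Vandermonde product -/
noncomputable def Vd (N : ℕ) : MvPolynomial (Fin N) ℂ :=
  ∏ i : Fin N, ∏ j ∈ Finset.Ioi i, (X i - X j : MvPolynomial (Fin N) ℂ)

/-- the product with the Vandermonde factor -/
noncomputable def F (N : ℕ) (f : Lm ℂ) : MvPolynomial (Fin N) ℂ := E q N f * Vd N ^ (2 * q)

theorem F_succ (N : ℕ) (f : Lm ℂ) : finSuccEquiv ℂ N (F q (N + 1) f) =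
    Polynomial.map (E q N : Lm ℂ →+* MvPolynomial (Fin N) ℂ) (shA (q : ℂ) f) * Bp q N *
      Polynomial.C (Vd N ^ (2 * q)) := by
  unfold F
  rw [map_mul, E_succ, mul_assoc]
  congr 1
  unfold Vd Bp
  rw [Fin.prod_univ_succ, Fin.prod_Ioi_zero]
  simp only [Fin.prod_Ioi_succ]
  rw [map_pow, map_mul, map_prod, map_prod, map_pow, map_prod, mul_pow]
  simp only [map_sub, finSuccEquiv_X_zero, finSuccEquiv_X_succ, map_prod]

theorem F_S1 (N M : ℕ) (j : ℤ) (hM : (M : ℤ) = 2 * q * N - j) (f : Lm ℂ) :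
    F q N (S1 (q : ℂ) j f) = (finSuccEquiv ℂ N (F q (N + 1) f)).coeff M := by
  rw [F_succ, Polynomial.coeff_mul_C]
  unfold F
  congr 1
  unfold S1
  rw [LinearMap.comp_apply, AlgHom.toLinearMap_apply]
  generalize shA (q : ℂ) f = p
  induction p using Polynomial.induction_on' with
  | add p1 p2 h1 h2 =>
    rw [map_add, map_add, h1, h2, Polynomial.map_add, add_mul, Polynomial.coeff_add]
  | monomial k a =>
    rw [Polynomial.lsum_apply, Polynomial.sum_monomial_index _ _ (by simp), LinearMap.mulLeft_apply, map_mul,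
      E_hz q N M k j hM, Polynomial.map_monomial]
    by_cases h1 : k ≤ M
    · rw [if_pos h1]
      obtain ⟨d, rfl⟩ := Nat.exists_eq_add_of_le h1
      rw [Nat.add_sub_cancel_left, add_comm k d, Polynomial.coeff_monomial_mul, mul_comm]
      rfl
    · rw [if_neg h1, zero_mul]
      symm
      rw [← Polynomial.C_mul_X_pow_eq_monomial, mul_assoc, Polynomial.coeff_C_mul,
        Polynomial.coeff_X_pow_mul', if_neg h1, mul_zero]

end ev

/-- the constant exponent vector -/
noncomputable def cv (N K : ℕ) : Fin N →₀ ℕ := Finsupp.equivFunOnFinite.symm fun _ => K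

theorem cv_cons (N K : ℕ) : (cv N K).cons K = cv (N + 1) K := by
  ext i
  refine Fin.cases ?_ (fun j => ?_) i
  · simp [cv]
  · simp [cv]

theorem iter (q r s : ℕ) (hr : 1 ≤ r) (f : Lm ℂ) (N : ℕ) (hN : N ≤ r) :
    coeff (cv N (q * (r - 1) + s)) (F q N (XX q ((s : ℤ) - 1 - (r - 1) * q) (r - N) f)) =
      coeff 0 (F q 0 (XX q ((s : ℤ) - 1 - (r - 1) * q) r f)) := by
  induction N with
  | zero =>
    rw [Nat.sub_zero]
    congr 1
    ext i
    exact i.elim0
  | succ N ih =>
    rw [← ih (by omega), ← cv_cons, ← finSuccEquiv_coeff_coeff]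
    obtain ⟨t, ht⟩ : ∃ t, r - N = t + 1 := ⟨r - (N + 1), by omega⟩
    have ht' : r - (N + 1) = t := by omega
    rw [ht, ht']
    show _ = coeff _ (F q N (S1 (q : ℂ) (-1 - (((s : ℤ) - 1 - (r - 1) * q) + 2 * q * t))
      (XX q ((s : ℤ) - 1 - (r - 1) * q) t f)))
    rw [F_S1 q N (q * (r - 1) + s)]
    have hrt : (r : ℤ) = N + t + 1 := by omega
    push_cast [Nat.cast_sub hr]
    rw [hrt]
    ring

theorem E_gs (q r : ℕ) (hq : 1 ≤ q) : E q r (gs q r) = monomial (cv r 1) ((-1) ^ r) := by
  unfold gs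
  rw [hs_map]
  have h1 : Lg (∏ j : Fin r, (1 - PowerSeries.C (X j : MvPolynomial (Fin r) ℂ) * PowerSeries.X))
      (∑ j : Fin r, fun k => -(X j : MvPolynomial (Fin r) ℂ) ^ (k + 1)) :=
    Lg.prod Finset.univ _ _ fun i _ => Lg.lin (X i : MvPolynomial (Fin r) ℂ)
  have hx : (∑ j : Fin r, fun k => -(X j : MvPolynomial (Fin r) ℂ) ^ (k + 1)) =
      fun n => E q r (C ((2 * (q : ℂ))⁻¹) * X n) := by
    funext n
    have hq0 : (q : ℂ) ≠ 0 := by exact_mod_cast (by omega : q ≠ 0)
    have e2 : (E q r) (C ((2 * (q : ℂ))⁻¹)) = C ((2 * (q : ℂ))⁻¹) := AlgHom.commutes (E q r) _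
    rw [Finset.sum_apply, Finset.sum_neg_distrib, map_mul, E_X, e2, ← mul_assoc, ← C_mul]
    have e3 : (2 * (q : ℂ))⁻¹ * (-2 * q) = -1 := by field_simp
    rw [e3, map_neg, map_one, neg_one_mul]
  rw [← hx, h1.hs]
  have e1 : (∏ j : Fin r, (1 - PowerSeries.C (X j : MvPolynomial (Fin r) ℂ) * PowerSeries.X)) =
      ((revHom _ (∏ j : Fin r, (Polynomial.X - Polynomial.C (X j : MvPolynomial (Fin r) ℂ))) :
        Polynomial (MvPolynomial (Fin r) ℂ)) : PowerSeries (MvPolynomial (Fin r) ℂ)) := by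
    rw [map_prod, ← Polynomial.coeToPowerSeries.ringHom_apply, map_prod]
    apply Finset.prod_congr rfl
    intro j _
    rw [revHom_X_sub_C, map_sub, map_one, map_mul]
    simp
  rw [e1, Polynomial.coeff_coe]
  show (Polynomial.reverse _).coeff r = _
  rw [Polynomial.coeff_reverse, Polynomial.natDegree_finsetProd_X_sub_C_eq_card, Finset.card_univ, Fintype.card_fin,
    Polynomial.revAt_le le_rfl, Nat.sub_self, Polynomial.coeff_zero_eq_eval_zero, Polynomial.eval_prod]
  simp only [Polynomial.eval_sub, Polynomial.eval_X, Polynomial.eval_C, zero_sub]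
  rw [Finset.prod_neg, Finset.card_univ, Fintype.card_fin, monomial_eq]
  have : (cv r 1).prod (fun n e => (X n : MvPolynomial (Fin r) ℂ) ^ e) = ∏ i : Fin r, X i := by
    rw [Finsupp.prod_fintype _ _ (by simp)]
    simp [cv]
  rw [this]
  simp

theorem cst (f : Lm ℂ) (h : Wt f 0) : f = C (coeff 0 f) := by
  ext d
  rw [coeff_C]
  split_ifs with h1
  · rw [h1]
  · by_contra h2
    have h3 := h h2
    rw [Finsupp.weight_apply, Finsupp.sum] at h3
    rw [Finset.sum_eq_zero_iff] at h3
    apply h1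
    symm
    ext i
    by_contra h4
    have h5 := h3 i (by rw [Finsupp.mem_support_iff]; exact h4)
    rw [smul_eq_mul, Nat.mul_eq_zero] at h5
    rcases h5 with h5 | h5
    · exact h4 h5
    · omega

theorem main (hA0 : S_A0) (hA1 : S_A1) : S_A4 := by
  intro q r s hq hr hs
  set m : ℤ := (s : ℤ) - 1 - (r - 1) * q with hm
  -- weights
  have hwt : ∀ i : ℕ, i ≤ r → Wt (XX q m i (gs q r ^ s)) ((r - i) * (s + q * i)) := by
    intro i
    induction i with
    | zero =>
      intro _
      show Wt (gs q r ^ s) _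
      have h1 : Wt (gs q r) r := (hA0 ℂ 0 0 0 0 (isWeightedHomogeneous_zero ℂ _ _)).2.2.2.2 q r
      have h2 := h1.pow s
      rw [smul_eq_mul] at h2
      rw [Nat.sub_zero, mul_zero, add_zero, mul_comm]
      exact h2
    | succ i ih =>
      intro hi
      have h1 := (hA0 ℂ 0 (q : ℂ) _ _ (ih (by omega))).1 ((r - (i + 1)) * (s + q * (i + 1)))
        (-1 - (m + 2 * q * i)) ?_
      · exact h1
      · obtain ⟨t, rfl⟩ : ∃ t, r = i + 1 + t := ⟨r - (i + 1), by omega⟩
        have e1 : i + 1 + t - (i + 1) = t := by omega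
        have e2 : i + 1 + t - i = t + 1 := by omega
        rw [e1, e2, hm]
        push_cast
        ring
  have hw := hwt r le_rfl
  rw [Nat.sub_self, zero_mul] at hw
  have hc := cst _ hw
  refine ⟨coeff 0 (XX q m r (gs q r ^ s)), ?_, hc⟩
  have h1 := iter q r s hr (gs q r ^ s) r le_rfl
  rw [← hm, Nat.sub_self] at h1
  have h2 : coeff 0 (F q 0 (XX q m r (gs q r ^ s))) = coeff 0 (XX q m r (gs q r ^ s)) := by
    rw [hc]
    unfold F
    have e1 : E q 0 (C (coeff 0 (XX q m r (gs q r ^ s)))) = C (coeff 0 (XX q m r (gs q r ^ s))) :=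
      AlgHom.commutes (E q 0) _
    rw [e1]
    have e2 : Vd 0 = 1 := by unfold Vd; simp
    rw [e2, one_pow, mul_one]
    simp
  rw [← h2, ← h1]
  show coeff _ (F q r (gs q r ^ s)) ≠ 0
  unfold F
  rw [map_pow, E_gs q r hq, monomial_pow]
  have h3 : cv r (q * (r - 1) + s) = s • cv r 1 + cv r (q * (r - 1)) := by
    ext i
    simp [cv, add_comm]
  rw [h3, coeff_monomial_mul]
  apply mul_ne_zero
  · exact pow_ne_zero _ (pow_ne_zero _ (by norm_num))
  · exact hA1 q r

end Pool.Agent.H391.SK.P_A4
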