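import Pool.Agent.H391.SK.StA

/-!
# A5: counting the parts of partitions
-/

set_option autoImplicit false

namespace Pool.Agent.H391.SK.P_A5

open Finset

theorem le_of_count {d r s : ℕ} (l : Nat.Partition d) (h : r ≤ l.parts.count s) : r * s ≤ d := by
  have h1 : Multiset.replicate r s ≤ l.parts := Multiset.le_count_iff_replicate_le.mp h
  obtain ⟨u, hu⟩ := Multiset.le_iff_exists_add.mp h1
  have h2 := l.parts_sum
  rw [hu, Multiset.sum_add, Multiset.sum_replicate, smul_eq_mul] at h2
  omega

/-- removing `r` parts `s` -/
def eqv (d r s : ℕ) (hs : 1 ≤ s) (h : r * s ≤ d) :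
    {l : Nat.Partition d // r ≤ l.parts.count s} ≃ Nat.Partition (d - r * s) where
  toFun l := ⟨l.1.parts - Multiset.replicate r s, by
      intro i hi
      exact l.1.parts_pos (Multiset.mem_of_le (Multiset.sub_le_self _ _) hi), by
      have h1 : Multiset.replicate r s ≤ l.1.parts := Multiset.le_count_iff_replicate_le.mp l.2
      obtain ⟨u, hu⟩ := Multiset.le_iff_exists_add.mp h1
      have h2 := l.1.parts_sum
      rw [hu, add_tsub_cancel_left]
      rw [hu, Multiset.sum_add, Multiset.sum_replicate, smul_eq_mul] at h2
      omega⟩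
  invFun l := ⟨⟨Multiset.replicate r s + l.parts, by
      intro i hi
      rcases Multiset.mem_add.mp hi with h | h
      · rw [Multiset.eq_of_mem_replicate h]
        exact hs
      · exact l.parts_pos h, by
      rw [Multiset.sum_add, Multiset.sum_replicate, smul_eq_mul, l.parts_sum]
      omega⟩, by
      change r ≤ Multiset.count s (Multiset.replicate r s + l.parts)
      rw [Multiset.count_add, Multiset.count_replicate_self]
      omega⟩
  left_inv l := by
    have h1 : Multiset.replicate r s ≤ l.1.parts := Multiset.le_count_iff_replicate_le.mp l.2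
    apply Subtype.ext
    apply Nat.Partition.ext
    change Multiset.replicate r s + (l.1.parts - Multiset.replicate r s) = l.1.parts
    exact add_tsub_cancel_of_le h1
  right_inv l := by
    apply Nat.Partition.ext
    change (Multiset.replicate r s + l.parts) - Multiset.replicate r s = l.parts
    exact add_tsub_cancel_left _ _

theorem card_filter_count (d r s : ℕ) (hs : 1 ≤ s) :
    ∑ l : Nat.Partition d, (if r ≤ l.parts.count s then 1 else 0) =
      if r * s ≤ d then pn (d - r * s) else 0 := by
  split_ifs with h
  · rw [← Finset.card_filter, ← Fintype.card_subtype]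
    exact Fintype.card_congr (eqv d r s hs h)
  · refine Finset.sum_eq_zero fun l _ => if_neg fun h1 => h (le_of_count l h1)

theorem count_eq {d s : ℕ} (hs : 1 ≤ s) (l : Nat.Partition d) :
    l.parts.count s = ∑ r ∈ Icc 1 d, if r ≤ l.parts.count s then 1 else 0 := by
  have h1 : l.parts.count s ≤ d := by
    have := le_of_count (r := l.parts.count s) (s := s) l le_rfl
    calc l.parts.count s = l.parts.count s * 1 := (mul_one _).symm
      _ ≤ l.parts.count s * s := Nat.mul_le_mul_left _ hs
      _ ≤ d := this
  rw [← Finset.card_filter]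
  have h2 : (Icc 1 d).filter (fun r => r ≤ l.parts.count s) = Icc 1 (l.parts.count s) := by
    ext r
    simp only [Finset.mem_filter, Finset.mem_Icc]
    omega
  rw [h2, Nat.card_Icc, Nat.add_sub_cancel]

theorem card_parts {d : ℕ} (l : Nat.Partition d) :
    l.parts.card = ∑ s ∈ Icc 1 d, l.parts.count s := by
  refine (Multiset.sum_count_eq_card fun a ha => ?_).symm
  rw [Finset.mem_Icc]
  refine ⟨l.parts_pos ha, ?_⟩
  have := le_of_count (r := 1) (s := a) l (Multiset.one_le_count_iff_mem.mpr ha)
  omega

theorem main : S_A5 := by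
  intro d
  calc ∑ l : Nat.Partition d, l.parts.card
      = ∑ l : Nat.Partition d, ∑ s ∈ Icc 1 d, ∑ r ∈ Icc 1 d,
          (if r ≤ l.parts.count s then 1 else 0) := by
        refine Finset.sum_congr rfl fun l _ => ?_
        rw [card_parts l]
        exact Finset.sum_congr rfl fun s hs => count_eq (Finset.mem_Icc.mp hs).1 l
    _ = ∑ s ∈ Icc 1 d, ∑ r ∈ Icc 1 d, ∑ l : Nat.Partition d,
          (if r ≤ l.parts.count s then 1 else 0) := by
        rw [Finset.sum_comm]
        exact Finset.sum_congr rfl fun s _ => Finset.sum_comm
    _ = ∑ s ∈ Icc 1 d, ∑ r ∈ Icc 1 d, (if r * s ≤ d then pn (d - r * s) else 0) := by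
        refine Finset.sum_congr rfl fun s hs => Finset.sum_congr rfl fun r _ => ?_
        exact card_filter_count d r s (Finset.mem_Icc.mp hs).1
    _ = _ := Finset.sum_comm

end Pool.Agent.H391.SK.P_A5
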