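import Pool.Agent.H391.SK.StA

/-! # SK project, task A6 (helper484, for helper391) -/

set_option autoImplicit false

namespace Pool.Agent.H391.SK.P_A6

open Polynomial Module

/-- an invertible matrix with many rows in the left kernel -/
theorem exists_rows {n : Type} [Fintype n] [DecidableEq n] (N : Matrix n n ℂ) (k : ℕ)
    (h : N.rank + k ≤ Fintype.card n) :
    ∃ (P : Matrix n n ℂ) (I : Finset n), IsUnit P.det ∧ k ≤ I.card ∧
      ∀ i ∈ I, ∀ j, (P * N) i j = 0 := by
  classical
  set W : Submodule ℂ (n → ℂ) := LinearMap.ker (Matrix.mulVecLin N.transpose) with hW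
  have h1 : finrank ℂ (LinearMap.range (Matrix.mulVecLin N.transpose)) + finrank ℂ W =
      Fintype.card n := by
    have := LinearMap.finrank_range_add_finrank_ker (Matrix.mulVecLin N.transpose)
    rw [this]
    simp
  have h2 : finrank ℂ (LinearMap.range (Matrix.mulVecLin N.transpose)) = N.rank := by
    have : N.transpose.rank = N.rank := Matrix.rank_transpose N
    rw [← this]
    rfl
  obtain ⟨W', hW'⟩ := Submodule.exists_isCompl W
  let b1 := finBasis ℂ W
  let b2 := finBasis ℂ W'
  let b : Basis (Fin (finrank ℂ W) ⊕ Fin (finrank ℂ W')) ℂ (n → ℂ) :=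
    (b1.prod b2).map (Submodule.prodEquivOfIsCompl W W' hW')
  have hcard : Fintype.card n = Fintype.card (Fin (finrank ℂ W) ⊕ Fin (finrank ℂ W')) := by
    have h3 := finrank_eq_card_basis b
    rw [← h3]
    simp
  let e : n ≃ Fin (finrank ℂ W) ⊕ Fin (finrank ℂ W') := Fintype.equivOfCardEq hcard
  let P : Matrix n n ℂ := Matrix.of fun i j => b (e i) j
  refine ⟨P, Finset.univ.filter (fun i => (e i).isLeft = true), ?_, ?_, ?_⟩
  · have h4 : LinearIndependent ℂ (fun i => P i) := by
      have := (b.reindex e.symm).linearIndependent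
      convert this using 1
      funext i
      simp only [P, Basis.reindex_apply, Equiv.symm_symm]
      rfl
    have h5 : IsUnit P := Matrix.linearIndependent_rows_iff_isUnit.1 h4
    exact (Matrix.isUnit_iff_isUnit_det P).1 h5
  · have h6 : (Finset.univ.filter (fun i => (e i).isLeft = true)).card = finrank ℂ W := by
      have h7 : (Finset.univ.filter (fun i => (e i).isLeft = true)) =
          (Finset.univ : Finset (Fin (finrank ℂ W))).map
            ⟨fun a => e.symm (Sum.inl a), fun a a' haa => by
              simpa using haa⟩ := by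
        ext i
        simp only [Finset.mem_filter, Finset.mem_univ, true_and, Finset.mem_map,
          Function.Embedding.coeFn_mk]
        constructor
        · intro hi
          obtain ⟨a, ha⟩ := Sum.isLeft_iff.1 hi
          exact ⟨a, by rw [← ha]; simp⟩
        · rintro ⟨a, ha⟩
          rw [← ha]
          simp
      rw [h7, Finset.card_map]
      simp
    rw [h6]
    omega
  · intro i hi j
    obtain ⟨a, ha⟩ := Sum.isLeft_iff.1 (Finset.mem_filter.1 hi).2
    have h8 : b (e i) = (b1 a : n → ℂ) := by
      rw [ha]
      simp [b, Submodule.prodEquivOfIsCompl]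
    have h9 : N.transpose.mulVecLin (b1 a : n → ℂ) = 0 := LinearMap.mem_ker.1 (b1 a).2
    rw [Matrix.mulVecLin_apply] at h9
    have h10 := congrFun h9 j
    rw [Matrix.mul_apply]
    simp only [Matrix.mulVec, dotProduct, Matrix.transpose_apply, Pi.zero_apply] at h10
    rw [← h10]
    refine Finset.sum_congr rfl fun l _ => ?_
    simp only [P, Matrix.of_apply, h8]
    ring

theorem main : S_A6 := by
  classical
  intro n _ _ M a k h
  obtain ⟨P, I, hP, hk, hI⟩ := exists_rows (M.map (Polynomial.eval a)) k h
  set Q : Matrix n n (Polynomial ℂ) := (P.map Polynomial.C) * M with hQ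
  have hdiv : ∀ i j, ∃ q, Q i j = (if i ∈ I then (Polynomial.X - Polynomial.C a) else 1) * q := by
    intro i j
    by_cases hi : i ∈ I
    · have h0 : Polynomial.eval a (Q i j) = 0 := by
        have h1 := hI i hi j
        rw [Matrix.mul_apply] at h1
        rw [hQ, Matrix.mul_apply, Polynomial.eval_finsetSum]
        rw [← h1]
        refine Finset.sum_congr rfl fun l _ => ?_
        simp
      have h2 : (Polynomial.X - Polynomial.C a) ∣ Q i j := Polynomial.dvd_iff_isRoot.2 h0
      obtain ⟨q, hq⟩ := h2
      exact ⟨q, by rw [if_pos hi]; exact hq⟩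
    · exact ⟨Q i j, by rw [if_neg hi, one_mul]⟩
  choose Q' hQ' using hdiv
  have h1 : Q.det = (∏ i, (if i ∈ I then (Polynomial.X - Polynomial.C a) else 1)) *
      (Matrix.of Q').det := by
    rw [← Matrix.det_mul_column]
    congr 1
    ext1 i j
    simp only [Matrix.of_apply]
    exact hQ' i j
  have h2 : (∏ i, (if i ∈ I then (Polynomial.X - Polynomial.C a) else (1 : Polynomial ℂ))) =
      (Polynomial.X - Polynomial.C a) ^ I.card := by
    rw [Finset.prod_ite_mem, Finset.univ_inter, Finset.prod_const]
  have h3 : Q.det = Polynomial.C P.det * M.det := by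
    rw [hQ, Matrix.det_mul]
    congr 1
    exact (RingHom.map_det Polynomial.C P).symm
  have h4 : IsUnit (Polynomial.C P.det) := hP.map Polynomial.C
  have h5 : (Polynomial.X - Polynomial.C a) ^ k ∣ Polynomial.C P.det * M.det := by
    rw [← h3, h1, h2]
    exact Dvd.dvd.mul_right (pow_dvd_pow _ hk) _
  exact (h4.dvd_mul_left).1 h5

end Pool.Agent.H391.SK.P_A6
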