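import Pool.Agent.H391.SK.StA

namespace Pool.Agent.H391.SK.P_A7

open MvPolynomial Pool.Agent.H391.SK

set_option linter.unusedSectionVars false

section compat

variable {A B : Type} [CommRing A] [Algebra ℂ A] [CommRing B] [Algebra ℂ B]

theorem map_der (φ : A →+* B) (g : ℕ → Lm A) (f : Lm A) :
    MvPolynomial.map φ (mkDerivation A g f) =
      mkDerivation B (fun i => MvPolynomial.map φ (g i)) (MvPolynomial.map φ f) := by
  induction f using MvPolynomial.induction_on with
  | C a => simp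
  | add p q hp hq => simp [map_add, hp, hq]
  | mul_X p i hp =>
    simp only [Derivation.leibniz, map_add, smul_eq_mul, map_mul, mkDerivation_X, map_X, hp]

omit [Algebra ℂ A] in
theorem LL_ap (m ν : A) (n : ℕ) (f : Lm A) : LL m ν n f =
    (∑ a ∈ Finset.range (n - 1), X a * X (n - 2 - a) +
      C (2 * m + 2 * (ν - 1) * ((n : A) - 1)) * X (n - 1)) * f +
    (mkDerivation A fun k : ℕ => C (4 * ν * ((k : A) + 1)) * X (n + k)) f := rfl

theorem map_LL (φ : A →+* B) (m ν : A) (n : ℕ) (f : Lm A) :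
    MvPolynomial.map φ (LL m ν n f) = LL (φ m) (φ ν) n (MvPolynomial.map φ f) := by
  rw [LL_ap, LL_ap, map_add, map_mul, map_der]
  congr 1
  · congr 1
    rw [map_add, map_mul, map_C, map_sum]
    simp only [map_mul, map_add, map_sub, map_X, map_ofNat, map_natCast, map_one]
  · congr 2
    funext k
    rw [map_mul, map_C, map_X]
    simp only [map_mul, map_add, map_ofNat, map_natCast, map_one]

theorem map_foldr (φ : A →+* B) (m ν : A) (L : List ℕ) (f : Lm A) :
    MvPolynomial.map φ (L.foldr (fun n f => LL m ν n f) f) =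
      L.foldr (fun n f => LL (φ m) (φ ν) n f) (MvPolynomial.map φ f) := by
  induction L with
  | nil => simp
  | cons a L ih => simp only [List.foldr_cons, map_LL, ih]

theorem map_vv (φ : A →+* B) (m ν : A) {d : ℕ} (l : Nat.Partition d) :
    MvPolynomial.map φ (vv m ν l) = vv (φ m) (φ ν) l := by
  unfold vv
  rw [map_foldr]
  simp

theorem map_DD (φ : A →+* B) (m ν : A) (d : ℕ) :
    φ.mapMatrix (DD m ν d) = DD (φ m) (φ ν) d := by
  ext l k
  simp only [DD, RingHom.mapMatrix_apply, Matrix.map_apply, ← map_vv, coeff_map]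

end compat

/-! ### degree in the charge -/

abbrev Pc := Polynomial ℂ

/-- constants -/
noncomputable def io : Lm ℂ →+* Lm Pc := MvPolynomial.map (Polynomial.C)

/-- `f` has degree `≤ n` in the indeterminate, with the coefficient `g` at `t ^ n`. -/
def Q (n : ℕ) (f : Lm Pc) (g : Lm ℂ) : Prop :=
  ∃ G : ℕ → Lm ℂ, G n = g ∧
    f = ∑ j ∈ Finset.range (n + 1), C (Polynomial.X ^ j : Pc) * io (G j)

theorem LL_split (q : ℂ) (k : ℕ) (f : Lm Pc) :
    LL (Polynomial.X : Pc) (Polynomial.C q) k f =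
      LL (0 : Pc) (Polynomial.C q) k f + C (Polynomial.X : Pc) * (io (2 * X (k - 1)) * f) := by
  simp only [LL, LinearMap.add_apply, LinearMap.mulLeft_apply, Derivation.coeFn_coe, io]
  simp only [map_mul, map_X, map_add, map_ofNat, mul_zero, zero_add]
  ring

theorem Q_LL (q : ℂ) (n k : ℕ) (f : Lm Pc) (g : Lm ℂ) (h : Q n f g) :
    Q (n + 1) (LL (Polynomial.X : Pc) (Polynomial.C q) k f) (2 * X (k - 1) * g) := by
  obtain ⟨G, hG, hf⟩ := h
  refine ⟨fun j => (if j < n + 1 then LL 0 q k (G j) else 0) +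
    (if 0 < j then 2 * X (k - 1) * G (j - 1) else 0), ?_, ?_⟩
  · simp [hG]
  · rw [LL_split]
    have h1 : LL (0 : Pc) (Polynomial.C q) k f =
        ∑ j ∈ Finset.range (n + 1), C (Polynomial.X ^ j : Pc) * io (LL 0 q k (G j)) := by
      rw [hf, map_sum]
      refine Finset.sum_congr rfl fun j _ => ?_
      rw [← smul_eq_C_mul, LinearMap.map_smul, smul_eq_C_mul]
      congr 1
      rw [io, map_LL]
      simp
    have h2 : ∑ j ∈ Finset.range (n + 1 + 1), C (Polynomial.X ^ j : Pc) *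
        io ((if j < n + 1 then LL 0 q k (G j) else 0) +
          (if 0 < j then 2 * X (k - 1) * G (j - 1) else 0)) =
        ∑ j ∈ Finset.range (n + 1 + 1), C (Polynomial.X ^ j : Pc) *
          io (if j < n + 1 then LL 0 q k (G j) else 0) +
        ∑ j ∈ Finset.range (n + 1 + 1), C (Polynomial.X ^ j : Pc) *
          io (if 0 < j then 2 * X (k - 1) * G (j - 1) else 0) := by
      rw [← Finset.sum_add_distrib]
      refine Finset.sum_congr rfl fun j _ => ?_
      rw [map_add, mul_add]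
    rw [h2]
    congr 1
    · rw [h1, Finset.sum_range_succ _ (n + 1)]
      simp only [lt_irrefl, if_false, map_zero, mul_zero, add_zero]
      refine Finset.sum_congr rfl fun j hj => ?_
      rw [if_pos (Finset.mem_range.mp hj)]
    · rw [Finset.sum_range_succ' _ (n + 1)]
      simp only [lt_irrefl, if_false, map_zero, mul_zero, add_zero]
      rw [hf, Finset.mul_sum, Finset.mul_sum]
      refine Finset.sum_congr rfl fun j _ => ?_
      rw [if_pos (Nat.succ_pos j), Nat.add_sub_cancel, pow_succ, C_mul]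
      simp only [map_mul, map_ofNat]
      ring

theorem Q_foldr (q : ℂ) (L : List ℕ) :
    Q L.length (L.foldr (fun n f => LL (Polynomial.X : Pc) (Polynomial.C q) n f) 1)
      (2 ^ L.length * (L.map fun k => (X (k - 1) : Lm ℂ)).prod) := by
  induction L with
  | nil => exact ⟨fun _ => 1, by simp, by simp⟩
  | cons a L ih =>
    have := Q_LL q L.length a _ _ ih
    simp only [List.foldr_cons, List.length_cons, List.map_cons, List.prod_cons]
    convert this using 1
    ring

theorem Q_coeff {n : ℕ} {f : Lm Pc} {g : Lm ℂ} (h : Q n f g) (e : ℕ →₀ ℕ) :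
    (coeff e f).natDegree ≤ n ∧ (coeff e f).coeff n = coeff e g := by
  obtain ⟨G, hG, hf⟩ := h
  have h1 : coeff e f = ∑ j ∈ Finset.range (n + 1),
      (Polynomial.X ^ j : Pc) * Polynomial.C (coeff e (G j)) := by
    rw [hf, coeff_sum]
    refine Finset.sum_congr rfl fun j _ => ?_
    rw [coeff_C_mul, io, coeff_map]
  constructor
  · rw [h1]
    refine Polynomial.natDegree_sum_le_of_forall_le _ _ fun j hj => ?_
    refine (Polynomial.natDegree_mul_C_le _ _).trans ?_
    rw [Polynomial.natDegree_X_pow]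
    exact Nat.lt_succ_iff.mp (Finset.mem_range.mp hj)
  · rw [h1, Polynomial.finsetSum_coeff, Finset.sum_eq_single n]
    · rw [Polynomial.coeff_mul_C, Polynomial.coeff_X_pow_self, one_mul, hG]
    · intro j _ hj
      rw [Polynomial.coeff_mul_C, Polynomial.coeff_X_pow, if_neg (Ne.symm hj), zero_mul]
    · intro hn
      exact absurd (Finset.mem_range.mpr (Nat.lt_succ_self n)) hn

/-! ### monomials and partitions -/

theorem mo_eq {d : ℕ} (l : Nat.Partition d) :
    mo l = Multiset.toFinsupp (l.parts.map fun k => k - 1) := by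
  unfold mo
  rw [← Multiset.sum_map_singleton (l.parts.map fun k => k - 1), Multiset.map_map,
    map_multiset_sum, Multiset.map_map]
  congr 1
  refine Multiset.map_congr rfl fun k _ => ?_
  simp

theorem mo_inj {d : ℕ} {l k : Nat.Partition d} (h : mo l = mo k) : l = k := by
  rw [mo_eq, mo_eq] at h
  have h1 := Multiset.toFinsupp.injective h
  have h2 : ∀ l : Nat.Partition d, (l.parts.map fun k => k - 1).map (· + 1) = l.parts := by
    intro l
    rw [Multiset.map_map]
    conv_rhs => rw [← Multiset.map_id l.parts]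
    refine Multiset.map_congr rfl fun k hk => ?_
    have := l.parts_pos hk
    simp only [Function.comp_apply, id]
    omega
  refine Nat.Partition.ext ?_
  rw [← h2 l, ← h2 k, h1]

theorem exists_mo {d : ℕ} (e : ℕ →₀ ℕ) (he : Finsupp.weight (fun n : ℕ => n + 1) e = d) :
    ∃ l : Nat.Partition d, mo l = e := by
  refine ⟨⟨(Finsupp.toMultiset e).map (· + 1), ?_, ?_⟩, ?_⟩
  · intro i hi
    rw [Multiset.mem_map] at hi
    obtain ⟨a, _, rfl⟩ := hi
    exact Nat.succ_pos a
  · rw [← he, Finsupp.weight_apply]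
    clear he
    induction e using Finsupp.induction_linear with
    | zero => simp
    | add f g hf hg =>
      rw [map_add, Multiset.map_add, Multiset.sum_add, hf, hg, Finsupp.sum_add_index']
      · simp
      · intro a b c; simp [add_mul]
    | single a b =>
      rw [Finsupp.toMultiset_single, Multiset.map_nsmul, Multiset.sum_nsmul]
      simp
  · rw [mo_eq]
    simp only [Multiset.map_map, Function.comp_def, Nat.add_sub_cancel, Multiset.map_id']
    simp

/-- coordinates -/
noncomputable def co (d : ℕ) : Lm ℂ →ₗ[ℂ] (Nat.Partition d → ℂ) :=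
  LinearMap.pi fun k => MvPolynomial.lcoeff ℂ (mo k)

/-- the polynomial with given coordinates -/
noncomputable def fr (d : ℕ) : (Nat.Partition d → ℂ) →ₗ[ℂ] Lm ℂ :=
  ∑ k, (LinearMap.toSpanSingleton ℂ (Lm ℂ) (monomial (mo k) 1)) ∘ₗ LinearMap.proj k

theorem co_apply {d : ℕ} (f : Lm ℂ) (k : Nat.Partition d) : co d f k = coeff (mo k) f := rfl

theorem fr_apply {d : ℕ} (v : Nat.Partition d → ℂ) : fr d v = ∑ k, v k • monomial (mo k) (1 : ℂ) := by
  simp [fr, LinearMap.sum_apply]

theorem fr_co {d : ℕ} {f : Lm ℂ} (hf : Wt f d) : fr d (co d f) = f := by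
  rw [fr_apply]
  ext e
  rw [coeff_sum]
  simp only [co_apply, coeff_smul, coeff_monomial, smul_eq_mul, mul_ite, mul_one, mul_zero]
  by_cases he : ∃ l : Nat.Partition d, mo l = e
  · obtain ⟨l, rfl⟩ := he
    rw [Finset.sum_eq_single l]
    · rw [if_pos rfl]
    · intro k _ hk
      rw [if_neg (fun h => hk (mo_inj h))]
    · intro h
      exact absurd (Finset.mem_univ _) h
  · have h0 : coeff e f = 0 := by
      by_contra h
      exact he (exists_mo e (hf h))
    rw [h0]
    refine Finset.sum_eq_zero fun k _ => ?_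
    rw [if_neg (fun h => he ⟨k, h⟩)]

/-! ### the degree of the determinant -/

theorem coeff_prod_le {n : Type} (s : Finset n) (f : n → Polynomial ℂ) (c : n → ℕ)
    (h : ∀ i ∈ s, (f i).natDegree ≤ c i) :
    (∏ i ∈ s, f i).natDegree ≤ ∑ i ∈ s, c i ∧
      (∏ i ∈ s, f i).coeff (∑ i ∈ s, c i) = ∏ i ∈ s, (f i).coeff (c i) := by
  classical
  induction s using Finset.induction_on with
  | empty => simp
  | insert a s ha ih =>
    obtain ⟨h1, h2⟩ := ih fun i hi => h i (Finset.mem_insert_of_mem hi)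
    have h3 := h a (Finset.mem_insert_self a s)
    rw [Finset.prod_insert ha, Finset.sum_insert ha, Finset.prod_insert ha]
    refine ⟨Polynomial.natDegree_mul_le.trans (add_le_add h3 h1), ?_⟩
    rw [Polynomial.coeff_mul_add_eq_of_natDegree_le h3 h1, h2]

theorem det_deg {n : Type} [Fintype n] [DecidableEq n] (M : Matrix n n (Polynomial ℂ)) (c : n → ℕ)
    (h : ∀ i j, (M i j).natDegree ≤ c i) :
    M.det.natDegree ≤ ∑ i, c i ∧
      M.det.coeff (∑ i, c i) = (Matrix.of fun i j => (M i j).coeff (c i)).det := by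
  have hs : ∀ σ : Equiv.Perm n, ∑ i, c (σ i) = ∑ i, c i := fun σ => Equiv.sum_comp σ c
  have h1 : ∀ σ : Equiv.Perm n, (∏ i, M (σ i) i).natDegree ≤ ∑ i, c i ∧
      (∏ i, M (σ i) i).coeff (∑ i, c i) = ∏ i, (M (σ i) i).coeff (c (σ i)) := by
    intro σ
    have := coeff_prod_le Finset.univ (fun i => M (σ i) i) (fun i => c (σ i)) fun i _ => h _ _
    rw [hs σ] at this
    exact this
  constructor
  · rw [Matrix.det_apply']
    refine Polynomial.natDegree_sum_le_of_forall_le _ _ fun σ _ => ?_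
    refine Polynomial.natDegree_mul_le.trans ?_
    rw [Polynomial.natDegree_intCast, zero_add]
    exact (h1 σ).1
  · rw [Matrix.det_apply', Matrix.det_apply', Polynomial.finsetSum_coeff]
    refine Finset.sum_congr rfl fun σ _ => ?_
    rw [Polynomial.coeff_intCast_mul, (h1 σ).2]
    rfl

theorem prod_X (s : Multiset ℕ) : (s.map fun k => (X (k - 1) : Lm ℂ)).prod =
    monomial (s.map fun k => Finsupp.single (k - 1) 1).sum 1 := by
  induction s using Multiset.induction_on with
  | empty => simp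
  | cons a s ih =>
    rw [Multiset.map_cons, Multiset.prod_cons, Multiset.map_cons, Multiset.sum_cons, ih, X,
      monomial_mul, one_mul]

theorem Q_vv (q : ℂ) {d : ℕ} (l : Nat.Partition d) :
    Q l.parts.card (vv (Polynomial.X : Pc) (Polynomial.C q) l)
      (2 ^ l.parts.card * monomial (mo l) 1) := by
  have h := Q_foldr q (l.parts.sort (· ≥ ·))
  rw [Multiset.length_sort] at h
  unfold vv
  convert h using 2
  rw [mo, ← prod_X, ← Multiset.prod_coe, ← Multiset.map_coe, Multiset.sort_eq]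

theorem DD_deg (q : ℂ) (d : ℕ) :
    (DD (Polynomial.X : Pc) (Polynomial.C q) d).det.natDegree ≤ ∑ l : Nat.Partition d, l.parts.card ∧
    (DD (Polynomial.X : Pc) (Polynomial.C q) d).det.coeff (∑ l : Nat.Partition d, l.parts.card) =
      2 ^ (∑ l : Nat.Partition d, l.parts.card) := by
  have h1 : ∀ l k : Nat.Partition d, _ := fun l k => Q_coeff (Q_vv q l) (mo k)
  obtain ⟨h2, h3⟩ := det_deg (DD (Polynomial.X : Pc) (Polynomial.C q) d) (fun l => l.parts.card)
    fun l k => (h1 l k).1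
  refine ⟨h2, h3.trans ?_⟩
  have h4 : (Matrix.of fun i j => ((DD (Polynomial.X : Pc) (Polynomial.C q) d) i j).coeff
      i.parts.card) = Matrix.diagonal fun l : Nat.Partition d => (2 : ℂ) ^ l.parts.card := by
    ext l k
    rw [Matrix.of_apply]
    refine (h1 l k).2.trans ?_
    have h5 : (2 ^ l.parts.card * monomial (mo l) 1 : Lm ℂ) =
        C ((2 : ℂ) ^ l.parts.card) * monomial (mo l) 1 := by
      rw [map_pow, map_ofNat]
    rw [h5, coeff_C_mul, coeff_monomial, Matrix.diagonal_apply]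
    by_cases hlk : l = k
    · rw [if_pos hlk, if_pos (by rw [hlk]), mul_one]
    · rw [if_neg hlk, if_neg (fun h => hlk (mo_inj h)), mul_zero]
  rw [h4, Matrix.det_diagonal, Finset.prod_pow_eq_pow_sum]

/-! ### powers of the screening operator -/

theorem XX_LL (h2 : S_A2) (q : ℕ) (m : ℤ) (n : ℕ) (hn : 1 ≤ n) (i : ℕ) (f : Lm ℂ) :
    XX q m i (LL (m : ℂ) (q : ℂ) n f) = LL ((m : ℂ) + 2 * q * i) (q : ℂ) n (XX q m i f) := by
  induction i with
  | zero => simp [XX]
  | succ i ih =>
    have h := h2 ℂ ((m : ℂ) + 2 * q * i) (q : ℂ) n hn (-1 - (m + 2 * q * i)) (XX q m i f)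
    have h3 : ((m : ℂ) + 2 * q * i + 1 + ((-1 - (m + 2 * q * i) : ℤ) : ℂ)) = 0 := by
      push_cast
      ring
    rw [h3, mul_zero, map_zero, zero_mul, sub_eq_zero] at h
    simp only [XX, LinearMap.comp_apply]
    rw [ih, ← h]
    congr 2
    push_cast
    ring

theorem XX_foldr (h2 : S_A2) (q : ℕ) (m : ℤ) (i : ℕ) (L : List ℕ) (hL : ∀ n ∈ L, 1 ≤ n) (f : Lm ℂ) :
    XX q m i (L.foldr (fun n f => LL (m : ℂ) (q : ℂ) n f) f) =
      L.foldr (fun n f => LL ((m : ℂ) + 2 * q * i) (q : ℂ) n f) (XX q m i f) := by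
  induction L with
  | nil => rfl
  | cons a L ih =>
    simp only [List.foldr_cons]
    rw [XX_LL h2 q m a (hL a List.mem_cons_self), ih fun n hn => hL n (List.mem_cons_of_mem _ hn)]

theorem foldr_smul (m ν : ℂ) (L : List ℕ) (κ : ℂ) (f : Lm ℂ) :
    L.foldr (fun n f => LL m ν n f) (κ • f) = κ • L.foldr (fun n f => LL m ν n f) f := by
  induction L with
  | nil => rfl
  | cons a L ih => simp only [List.foldr_cons, ih, LinearMap.map_smul]

theorem wt_foldr (h0 : S_A0) (m ν : ℂ) (L : List ℕ) (hL : ∀ n ∈ L, 1 ≤ n) (f : Lm ℂ) (e : ℕ)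
    (hf : Wt f e) : Wt (L.foldr (fun n f => LL m ν n f) f) (e + L.sum) := by
  induction L with
  | nil => simpa using hf
  | cons a L ih =>
    have h1 := ih fun n hn => hL n (List.mem_cons_of_mem _ hn)
    have h3 := (h0 ℂ m ν _ _ h1).2.2.1 a (hL a List.mem_cons_self)
    simp only [List.foldr_cons, List.sum_cons]
    convert h3 using 1
    ring

theorem wt_XX (h0 : S_A0) (q : ℕ) (m : ℤ) (d : ℕ) (f : Lm ℂ) (hf : Wt f d) (i : ℕ) :
    XX q m i f = 0 ∨ ∃ e : ℕ, (e : ℤ) = d - i * (1 + m) - q * i * (i - 1) ∧ Wt (XX q m i f) e := by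
  induction i with
  | zero => exact Or.inr ⟨d, by simp, hf⟩
  | succ i ih =>
    simp only [XX, LinearMap.comp_apply]
    rcases ih with h | ⟨e, he, hw⟩
    · left
      rw [h, map_zero]
    · obtain ⟨h1, h2, -, -, -⟩ := h0 ℂ 0 (q : ℂ) e _ hw
      by_cases hn : (e : ℤ) + (-1 - (m + 2 * q * i)) < 0
      · exact Or.inl (h2 _ hn)
      · right
        obtain ⟨e', he'⟩ := Int.eq_ofNat_of_zero_le (not_lt.mp hn)
        refine ⟨e', ?_, h1 e' _ he'.symm⟩
        rw [← he', he]
        push_cast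
        ring

theorem XX_one (h0 : S_A0) (q r s : ℕ) (hr : 1 ≤ r) (hs : 1 ≤ s) :
    XX q ((s : ℤ) - 1 - (r - 1) * q) r 1 = 0 := by
  rcases wt_XX h0 q ((s : ℤ) - 1 - (r - 1) * q) 0 1 (isWeightedHomogeneous_one ℂ _) r with
    h | ⟨e, he, -⟩
  · exact h
  · exfalso
    have h1 : (e : ℤ) = - (r * s) := by rw [he]; push_cast; ring
    have h3 : (0 : ℤ) < r * s := by positivity
    have h4 : (0 : ℤ) ≤ e := Int.natCast_nonneg e
    linarith

/-! ### the corank -/

theorem corank (h0 : S_A0) (h2 : S_A2) (h4 : S_A4) (d q r s : ℕ) (hr : 1 ≤ r) (hs : 1 ≤ s)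
    (hrs : r * s ≤ d) (hq : 1 ≤ q)
    (hd : (DD ((s : ℂ) - 1 - (r - 1) * q + 2 * q * r) (q : ℂ) (d - r * s)).det ≠ 0) :
    (DD ((s : ℂ) - 1 - (r - 1) * q) (q : ℂ) d).rank + pn (d - r * s) ≤
      Fintype.card (Nat.Partition d) := by
  set m : ℤ := (s : ℤ) - 1 - (r - 1) * q with hm
  have hm' : (s : ℂ) - 1 - (r - 1) * q = (m : ℂ) := by rw [hm]; push_cast; ring
  rw [hm'] at hd ⊢
  set d' := d - r * s with hd'
  obtain ⟨κ, hκ, hg⟩ := h4 q r s hq hr hs
  rw [← hm] at hg
  set Ξ : (Nat.Partition d → ℂ) →ₗ[ℂ] (Nat.Partition d' → ℂ) := co d' ∘ₗ XX q m r ∘ₗ fr d with hΞ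
  have hpos : ∀ {n : ℕ} (l : Nat.Partition n), ∀ k ∈ l.parts.sort (· ≥ ·), 1 ≤ k := by
    intro n l k hk
    rw [Multiset.mem_sort] at hk
    exact l.parts_pos hk
  have hsum : ∀ {n : ℕ} (l : Nat.Partition n), (l.parts.sort (· ≥ ·)).sum = n := by
    intro n l
    rw [← Multiset.sum_coe, Multiset.sort_eq, l.parts_sum]
  -- rows are in the kernel
  have hker : ∀ l, Ξ ((DD (m : ℂ) (q : ℂ) d) l) = 0 := by
    intro l
    have h5 : (DD (m : ℂ) (q : ℂ) d) l = co d (vv (m : ℂ) q l) := rfl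
    have h6 : Wt (vv (m : ℂ) (q : ℂ) l) d := by
      have := wt_foldr h0 (m : ℂ) q (l.parts.sort (· ≥ ·)) (hpos l) 1 0
        (isWeightedHomogeneous_one ℂ _)
      rw [hsum, zero_add] at this
      exact this
    rw [h5, hΞ, LinearMap.comp_apply, LinearMap.comp_apply, fr_co h6, vv,
      XX_foldr h2 q m r _ (hpos l), hm, XX_one h0 q r s hr hs, ← hm]
    have h7 : (l.parts.sort (· ≥ ·)).foldr (fun n f => LL ((m : ℂ) + 2 * q * r) (q : ℂ) n f) 0 =
        (0 : Lm ℂ) := by
      have := foldr_smul ((m : ℂ) + 2 * q * r) q (l.parts.sort (· ≥ ·)) 0 0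
      rw [zero_smul, zero_smul] at this
      exact this
    rw [h7, map_zero]
  -- the rows of the small matrix are in the range
  have hrow : ∀ l', ∃ v, Ξ v = κ • (DD ((m : ℂ) + 2 * q * r) (q : ℂ) d') l' := by
    intro l'
    set u : Lm ℂ := (l'.parts.sort (· ≥ ·)).foldr (fun n f => LL (m : ℂ) (q : ℂ) n f)
      (gs (q : ℂ) r ^ s) with hu
    have h6 : Wt u d := by
      have h8 : Wt (gs (q : ℂ) r ^ s) (s • r) :=
        ((h0 ℂ 0 0 0 1 (isWeightedHomogeneous_one ℂ _)).2.2.2.2 (q : ℂ) r).pow s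
      have := wt_foldr h0 (m : ℂ) q (l'.parts.sort (· ≥ ·)) (hpos l') _ _ h8
      rw [hsum] at this
      have hsr : s • r + d' = d := by
        rw [smul_eq_mul, mul_comm s r, hd']
        omega
      rw [hsr] at this
      exact this
    refine ⟨co d u, ?_⟩
    rw [hΞ, LinearMap.comp_apply, LinearMap.comp_apply, fr_co h6, hu,
      XX_foldr h2 q m r _ (hpos l'), hg]
    have h7 : (C κ : Lm ℂ) = κ • 1 := by rw [smul_eq_C_mul, mul_one]
    rw [h7, foldr_smul, map_smul]
    rfl
  have hsurj : Function.Surjective Ξ := by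
    intro w
    choose v hv using hrow
    set M := DD ((m : ℂ) + 2 * q * r) (q : ℂ) d' with hM
    set c := Matrix.vecMul w M⁻¹ with hc
    refine ⟨∑ l', (c l' * κ⁻¹) • v l', ?_⟩
    rw [map_sum]
    have h9 : Matrix.vecMul c M = w := by
      rw [hc, Matrix.vecMul_vecMul, Matrix.nonsing_inv_mul _ (isUnit_iff_ne_zero.mpr hd),
        Matrix.vecMul_one]
    rw [← h9, Matrix.vecMul_eq_sum]
    refine Finset.sum_congr rfl fun l' _ => ?_
    rw [map_smul, hv, smul_smul, mul_assoc, inv_mul_cancel₀ hκ, mul_one]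
  have hfr := LinearMap.finrank_range_add_finrank_ker Ξ
  rw [LinearMap.range_eq_top.mpr hsurj, finrank_top, Module.finrank_fintype_fun_eq_card,
    Module.finrank_fintype_fun_eq_card] at hfr
  have hspan : (DD (m : ℂ) (q : ℂ) d).rank ≤ Module.finrank ℂ (LinearMap.ker Ξ) := by
    rw [Matrix.rank_eq_finrank_span_row]
    refine Submodule.finrank_mono ?_
    rw [Submodule.span_le]
    rintro _ ⟨l, rfl⟩
    exact hker l
  have hpn : pn d' = Fintype.card (Nat.Partition d') := rfl
  rw [hpn]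
  omega

/-! ### the determinant -/

/-- the index set -/
noncomputable def SS (d : ℕ) : Finset (ℕ × ℕ) :=
  (Finset.Icc 1 d ×ˢ Finset.Icc 1 d).filter fun p => p.1 * p.2 ≤ d

/-- the roots -/
noncomputable def rt (q : ℕ) (p : ℕ × ℕ) : ℂ := (p.2 : ℂ) - 1 - (p.1 - 1) * q

theorem prod_SS (d : ℕ) (F : ℕ → ℕ → ℂ) :
    (∏ r ∈ Finset.Icc 1 d, ∏ s ∈ Finset.Icc 1 d, if r * s ≤ d then F r s else 1) =
      ∏ p ∈ SS d, F p.1 p.2 := by
  rw [SS, Finset.prod_filter, ← Finset.prod_product']

theorem sum_SS (d : ℕ) (F : ℕ → ℕ → ℕ) :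
    (∑ r ∈ Finset.Icc 1 d, ∑ s ∈ Finset.Icc 1 d, if r * s ≤ d then F r s else 0) =
      ∑ p ∈ SS d, F p.1 p.2 := by
  rw [SS, Finset.sum_filter, ← Finset.sum_product']

theorem mem_SS {d : ℕ} {p : ℕ × ℕ} (h : p ∈ SS d) :
    1 ≤ p.1 ∧ p.1 ≤ d ∧ 1 ≤ p.2 ∧ p.2 ≤ d ∧ p.1 * p.2 ≤ d := by
  rw [SS, Finset.mem_filter, Finset.mem_product, Finset.mem_Icc, Finset.mem_Icc] at h
  exact ⟨h.1.1.1, h.1.1.2, h.1.2.1, h.1.2.2, h.2⟩

/-- a small integer which is a multiple of `q` is zero -/
theorem small_mul {q x y : ℤ} (hq : 0 < q) (h : x = y * q) (h1 : x < q) (h2 : -q < x) : y = 0 := by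
  rcases lt_trichotomy y 0 with hy | hy | hy
  · nlinarith
  · exact hy
  · nlinarith

theorem rt_inj {d q : ℕ} (hq : d < q) {p p' : ℕ × ℕ} (hp : p ∈ SS d) (hp' : p' ∈ SS d)
    (h : rt q p = rt q p') : p = p' := by
  obtain ⟨a1, a2, a3, a4, -⟩ := mem_SS hp
  obtain ⟨b1, b2, b3, b4, -⟩ := mem_SS hp'
  unfold rt at h
  have h1 : (p.2 : ℤ) - 1 - (p.1 - 1) * q = (p'.2 : ℤ) - 1 - (p'.1 - 1) * q := by exact_mod_cast h
  have h2 : (p.2 : ℤ) - p'.2 = (p.1 - p'.1) * q := by linarith
  have h3 : (p.1 : ℤ) - p'.1 = 0 := by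
    refine small_mul (q := (q : ℤ)) ?_ h2 ?_ ?_ <;> omega
  rw [h3, zero_mul] at h2
  refine Prod.ext ?_ ?_ <;> omega

theorem main : S_A7imp := by
  intro h0 h2 h4 h5 h6 d
  induction d using Nat.strong_induction_on with
  | _ d ih =>
  intro q hq m
  set D := DD (Polynomial.X : Pc) (Polynomial.C (q : ℂ)) d with hD
  obtain ⟨hd1, hd2⟩ := DD_deg (q : ℂ) d
  rw [← hD] at hd1 hd2
  set L := ∑ l : Nat.Partition d, l.parts.card with hL
  have hev : ∀ a : ℂ, D.map (Polynomial.eval a) = DD a (q : ℂ) d := by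
    intro a
    have := map_DD (Polynomial.evalRingHom a) (Polynomial.X : Pc) (Polynomial.C (q : ℂ)) d
    simp only [Polynomial.coe_evalRingHom, Polynomial.eval_X, Polynomial.eval_C,
      RingHom.mapMatrix_apply] at this
    rw [hD, this]
  set P : Pc := ∏ p ∈ SS d, (Polynomial.X - Polynomial.C (rt q p)) ^ pn (d - p.1 * p.2) with hP
  have hdvd : P ∣ D.det := by
    refine Finset.prod_dvd_of_coprime ?_ ?_
    · intro p hp p' hp' hne
      refine IsCoprime.pow ?_
      refine Polynomial.isCoprime_X_sub_C_of_isUnit_sub ?_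
      rw [isUnit_iff_ne_zero, sub_ne_zero]
      exact fun h => hne (rt_inj hq hp hp' h)
    · intro p hp
      obtain ⟨a1, a2, a3, a4, a5⟩ := mem_SS hp
      refine h6 _ D (rt q p) _ ?_
      rw [hev]
      refine corank h0 h2 h4 d q p.1 p.2 a1 a3 a5 (by omega) ?_
      have hlt : d - p.1 * p.2 < d := by
        have : 0 < p.1 * p.2 := Nat.mul_pos a1 a3
        omega
      rw [ih _ hlt q (by omega), prod_SS (d - p.1 * p.2) fun r s =>
        ((p.2 : ℂ) - 1 - (p.1 - 1) * q + 2 * q * p.1 - ((s : ℂ) - 1) + ((r : ℂ) - 1) * q) ^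
          pn (d - p.1 * p.2 - r * s)]
      refine mul_ne_zero (pow_ne_zero _ two_ne_zero) (Finset.prod_ne_zero_iff.mpr fun p' hp' => ?_)
      refine pow_ne_zero _ ?_
      obtain ⟨b1, b2, b3, b4, b5⟩ := mem_SS hp'
      intro h
      have h1 : ((p.2 : ℤ) - 1 - (p.1 - 1) * q + 2 * q * p.1 - ((p'.2 : ℤ) - 1) +
        ((p'.1 : ℤ) - 1) * q) = 0 := by exact_mod_cast h
      have h7 : (p'.2 : ℤ) - p.2 = (p.1 + p'.1) * q := by linarith
      have h8 : (p.1 : ℤ) + p'.1 = 0 := by
        refine small_mul (q := (q : ℤ)) ?_ h7 ?_ ?_ <;> omega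
      omega
  have hmon : P.Monic := by
    refine Polynomial.monic_prod_of_monic _ _ fun p _ => ?_
    exact (Polynomial.monic_X_sub_C _).pow _
  have hPdeg : P.natDegree = L := by
    rw [hP, Polynomial.natDegree_prod_of_monic _ _ fun p _ => (Polynomial.monic_X_sub_C _).pow _,
      hL, h5 d, sum_SS d fun r s => pn (d - r * s)]
    refine Finset.sum_congr rfl fun p _ => ?_
    rw [Polynomial.natDegree_pow, Polynomial.natDegree_X_sub_C, mul_one]
  obtain ⟨R, hR⟩ := hdvd
  have hdet0 : D.det ≠ 0 := by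
    intro h
    rw [h, Polynomial.coeff_zero] at hd2
    exact pow_ne_zero L two_ne_zero hd2.symm
  have hR0 : R ≠ 0 := by
    rintro rfl
    exact hdet0 (by rw [hR, mul_zero])
  have hRdeg : R.natDegree = 0 := by
    have h1 : D.det.natDegree = P.natDegree + R.natDegree := by
      rw [hR, Polynomial.natDegree_mul hmon.ne_zero hR0]
    omega
  obtain ⟨c, hc⟩ := Polynomial.natDegree_eq_zero.mp hRdeg
  have hcc : c = 2 ^ L := by
    rw [← hd2, hR, ← hc, Polynomial.coeff_mul_C, ← hPdeg, hmon.coeff_natDegree, one_mul]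
  have hfin : (DD m (q : ℂ) d).det = Polynomial.eval m D.det := by
    rw [← hev]
    have := RingHom.map_det (Polynomial.evalRingHom m) D
    rw [RingHom.mapMatrix_apply, Polynomial.coe_evalRingHom] at this
    exact this.symm
  rw [hfin, hR, ← hc, Polynomial.eval_mul, Polynomial.eval_C, hcc, mul_comm, hP,
    Polynomial.eval_prod, prod_SS d fun r s => (m - ((s : ℂ) - 1) + ((r : ℂ) - 1) * q) ^ pn (d - r * s)]
  congr 1
  refine Finset.prod_congr rfl fun p _ => ?_
  rw [Polynomial.eval_pow, Polynomial.eval_sub, Polynomial.eval_X, Polynomial.eval_C, rt]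
  congr 1
  ring

end Pool.Agent.H391.SK.P_A7
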