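import Pool.Agent.H391.SK.StA

set_option autoImplicit false

/-!
# SK-A8: the operator `S_0` is surjective
-/

namespace Pool.Agent.H391.SK.P_A8

open MvPolynomial

/-! ## 1. Naturality -/

section nat

variable {A B : Type} [CommRing A] [Algebra ℂ A] [CommRing B] [Algebra ℂ B] (φ : A →ₐ[ℂ] B)

theorem hs_nat (m : ℕ) :
    MvPolynomial.map (φ : A →+* B) (hs (X : ℕ → Lm A) m) = hs (X : ℕ → Lm B) m := by
  induction m using Nat.strong_induction_on with
  | _ m ih =>
    cases m with
    | zero => rw [hs, hs, map_one]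
    | succ m =>
      rw [hs, hs]
      have h1 : ∀ (c : ℂ) (f : Lm A), MvPolynomial.map (φ : A →+* B) (c • f) =
          c • MvPolynomial.map (φ : A →+* B) f := by
        intro c f
        rw [← algebraMap_smul A c f, ← algebraMap_smul B c, smul_eq_C_mul, smul_eq_C_mul, map_mul,
          map_C]
        congr 2
        exact φ.commutes c
      rw [h1, map_sum]
      congr 1
      refine Finset.sum_congr rfl fun k _ => ?_
      rw [map_mul, map_X, ih (m - k) (by omega)]

theorem hz_nat (m : ℤ) :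
    MvPolynomial.map (φ : A →+* B) (hz (X : ℕ → Lm A) m) = hz (X : ℕ → Lm B) m := by
  unfold hz
  split_ifs
  · exact hs_nat φ _
  · exact map_zero _

theorem shA_nat (ν : A) (f : Lm A) :
    Polynomial.map (MvPolynomial.map (φ : A →+* B)) (shA ν f) =
      shA (φ ν) (MvPolynomial.map (φ : A →+* B) f) := by
  have h : ((Polynomial.mapRingHom (MvPolynomial.map (φ : A →+* B))).comp
      (shA ν : Lm A →ₐ[A] Polynomial (Lm A)).toRingHom) =
      ((shA (φ ν) : Lm B →ₐ[B] Polynomial (Lm B)).toRingHom).comp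
        (MvPolynomial.map (φ : A →+* B)) := by
    apply MvPolynomial.ringHom_ext
    · intro r
      simp [shA, MvPolynomial.algebraMap_eq, Polynomial.algebraMap_apply]
    · intro i
      have h2 : φ 2 = 2 := map_ofNat φ 2
      simp [shA, h2]
  exact DFunLike.congr_fun h f

theorem S1_apply (ν : A) (j : ℤ) (f : Lm A) :
    S1 ν j f = (shA ν f).sum fun k c => hz (X : ℕ → Lm A) ((k : ℤ) + j) * c := by
  unfold S1
  rw [LinearMap.comp_apply, Polynomial.lsum_apply]
  rfl

theorem S1_nat (ν : A) (j : ℤ) (f : Lm A) :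
    MvPolynomial.map (φ : A →+* B) (S1 ν j f) = S1 (φ ν) j (MvPolynomial.map (φ : A →+* B) f) := by
  rw [S1_apply, S1_apply, ← shA_nat, Polynomial.sum_def, map_sum]
  rw [Polynomial.sum_over_range' _ (by simp) ((shA ν f).natDegree + 1)
    (lt_of_le_of_lt Polynomial.natDegree_map_le (Nat.lt_succ_self _))]
  symm
  rw [← Finset.sum_subset (s₁ := (shA ν f).support)]
  · refine Finset.sum_congr rfl fun k _ => ?_
    rw [map_mul, hz_nat, Polynomial.coeff_map]
  · intro k hk
    rw [Finset.mem_range]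
    exact Nat.lt_succ_of_le (Polynomial.le_natDegree_of_mem_supp k hk)
  · intro k _ hk
    rw [Polynomial.coeff_map, Polynomial.notMem_support_iff.1 hk, map_zero, mul_zero]

theorem mk_nat (g : ℕ → Lm A) (f : Lm A) :
    MvPolynomial.map (φ : A →+* B) (mkDerivation A g f) =
      mkDerivation B (fun n => MvPolynomial.map (φ : A →+* B) (g n))
        (MvPolynomial.map (φ : A →+* B) f) := by
  induction f using MvPolynomial.induction_on with
  | C a => simp
  | add p q hp hq => rw [map_add, map_add, map_add, map_add, hp, hq]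
  | mul_X p i hp =>
    rw [Derivation.leibniz, map_mul, Derivation.leibniz, map_X, map_add, smul_eq_mul, smul_eq_mul,
      smul_eq_mul, smul_eq_mul, map_mul, map_mul, hp, map_X, mkDerivation_X, mkDerivation_X]

theorem LL_nat (m ν : A) (n : ℕ) (f : Lm A) :
    MvPolynomial.map (φ : A →+* B) (LL m ν n f) =
      LL (φ m) (φ ν) n (MvPolynomial.map (φ : A →+* B) f) := by
  unfold LL
  rw [LinearMap.add_apply, LinearMap.add_apply, map_add]
  congr 1
  · simp only [LinearMap.mulLeft_apply, map_mul, map_add, map_sum, map_X, map_C]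
    congr 3
    have h2 : φ 2 = 2 := map_ofNat φ 2
    simp [h2]
  · show MvPolynomial.map (φ : A →+* B) (mkDerivation A _ f) = mkDerivation B _ _
    rw [mk_nat]
    congr 2
    funext k
    have h4 : φ 4 = 4 := map_ofNat φ 4
    simp [h4]

theorem vv_nat (m ν : A) {d : ℕ} (l : Nat.Partition d) :
    MvPolynomial.map (φ : A →+* B) (vv m ν l) = vv (φ m) (φ ν) l := by
  unfold vv
  induction l.parts.sort (· ≥ ·) with
  | nil => simp
  | cons n L ih => rw [List.foldr_cons, List.foldr_cons, LL_nat, ih]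

theorem DD_nat (m ν : A) (d : ℕ) : (DD m ν d).map φ = DD (φ m) (φ ν) d := by
  ext l k
  rw [Matrix.map_apply]
  unfold DD
  rw [← vv_nat, coeff_map]
  rfl

end nat

/-! ## 2. Monomials and partitions -/

theorem sum_single (s : Multiset ℕ) (hs : ∀ k ∈ s, 0 < k) (n : ℕ) :
    ((s.map fun k => Finsupp.single (k - 1) 1).sum : ℕ →₀ ℕ) n = s.count (n + 1) := by
  induction s using Multiset.induction_on with
  | empty => simp
  | cons a s ih =>
    rw [Multiset.map_cons, Multiset.sum_cons, Finsupp.add_apply,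
      ih (fun k hk => hs k (Multiset.mem_cons_of_mem hk)), Multiset.count_cons,
      Finsupp.single_apply, add_comm]
    have ha := hs a (Multiset.mem_cons_self a s)
    congr 1
    by_cases h : n + 1 = a
    · rw [if_pos h, if_pos (by omega)]
    · rw [if_neg h, if_neg (by omega)]

theorem mo_apply {d : ℕ} (l : Nat.Partition d) (n : ℕ) : mo l n = l.parts.count (n + 1) :=
  sum_single _ (fun _ hk => l.parts_pos hk) n

theorem mo_inj {d : ℕ} : Function.Injective (mo : Nat.Partition d → ℕ →₀ ℕ) := by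
  intro l l' h
  apply Nat.Partition.ext
  ext n
  cases n with
  | zero =>
    rw [Multiset.count_eq_zero_of_notMem, Multiset.count_eq_zero_of_notMem]
    · exact fun h => lt_irrefl _ (l'.parts_pos h)
    · exact fun h => lt_irrefl _ (l.parts_pos h)
  | succ n => rw [← mo_apply, ← mo_apply, h]

theorem mo_weight {d : ℕ} (l : Nat.Partition d) :
    Finsupp.weight (fun n : ℕ => n + 1) (mo l) = d := by
  have h : ∀ s : Multiset ℕ, (∀ k ∈ s, 0 < k) → Finsupp.weight (fun n : ℕ => n + 1)
      ((s.map fun k => Finsupp.single (k - 1) 1).sum : ℕ →₀ ℕ) = s.sum := by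
    intro s
    induction s using Multiset.induction_on with
    | empty => intro _; simp
    | cons a s ih =>
      intro hs
      rw [Multiset.map_cons, Multiset.sum_cons, map_add,
        ih (fun k hk => hs k (Multiset.mem_cons_of_mem hk)), Multiset.sum_cons,
        Finsupp.weight_single]
      have ha := hs a (Multiset.mem_cons_self a s)
      congr 1
      simp only [smul_eq_mul]
      omega
  exact (h _ (fun _ hk => l.parts_pos hk)).trans l.parts_sum

theorem mo_surj {d : ℕ} (e : ℕ →₀ ℕ) (he : Finsupp.weight (fun n : ℕ => n + 1) e = d) :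
    ∃ l : Nat.Partition d, mo l = e := by
  have h1 : ((Finsupp.toMultiset e).map (· + 1)).sum = d := by
    rw [← he]
    clear he
    induction e using Finsupp.induction_linear with
    | zero => simp
    | add f g hf hg => rw [map_add, Multiset.map_add, Multiset.sum_add, hf, hg, map_add]
    | single a b =>
      rw [Finsupp.toMultiset_single, Multiset.map_nsmul, Multiset.map_singleton,
        Multiset.sum_nsmul, Multiset.sum_singleton, Finsupp.weight_single]
  let l : Nat.Partition d :=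
    { parts := (Finsupp.toMultiset e).map (· + 1)
      parts_pos := by
        intro i hi
        rw [Multiset.mem_map] at hi
        obtain ⟨a, -, rfl⟩ := hi
        exact Nat.succ_pos a
      parts_sum := h1 }
  refine ⟨l, ?_⟩
  ext n
  rw [mo_apply]
  show ((Finsupp.toMultiset e).map (· + 1)).count (n + 1) = e n
  rw [Multiset.count_map_eq_count' _ _ (add_left_injective 1), Finsupp.count_toMultiset]

section lin

variable {A : Type} [CommRing A]

theorem expand {d : ℕ} {f : Lm A} (hf : Wt f d) :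
    f = ∑ l : Nat.Partition d, monomial (mo l) (coeff (mo l) f) := by
  ext e
  rw [coeff_sum]
  by_cases he : Finsupp.weight (fun n : ℕ => n + 1) e = d
  · obtain ⟨l, rfl⟩ := mo_surj e he
    rw [Finset.sum_eq_single l]
    · rw [coeff_monomial, if_pos rfl]
    · intro l' _ hl
      rw [coeff_monomial, if_neg (fun h => hl (mo_inj h))]
    · intro h
      exact absurd (Finset.mem_univ l) h
  · rw [Finset.sum_eq_zero]
    · by_contra h
      exact he (hf h)
    · intro l _
      rw [coeff_monomial, if_neg]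
      rintro rfl
      exact he (mo_weight l)

variable [Algebra ℂ A]

/-- the matrix of `S_0` -/
noncomputable def TT (ν : A) (d : ℕ) : Matrix (Nat.Partition d) (Nat.Partition d) A :=
  fun l k => coeff (mo k) (S1 ν 0 (monomial (mo l) 1))

theorem coeff_S1 (ν : A) {d : ℕ} {f : Lm A} (hf : Wt f d) (k : Nat.Partition d) :
    coeff (mo k) (S1 ν 0 f) = ∑ l : Nat.Partition d, coeff (mo l) f * TT ν d l k := by
  conv_lhs => rw [expand hf]
  rw [map_sum, coeff_sum]
  refine Finset.sum_congr rfl fun l _ => ?_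
  have h : (monomial (mo l) (coeff (mo l) f) : Lm A) = coeff (mo l) f • monomial (mo l) 1 := by
    rw [smul_monomial, smul_eq_mul, mul_one]
  rw [h, map_smul, coeff_smul, smul_eq_mul]
  rfl

theorem vv_wt (h0 : S_A0) (m ν : A) {d : ℕ} (l : Nat.Partition d) : Wt (vv m ν l) d := by
  unfold vv
  have h : ∀ L : List ℕ, (∀ k ∈ L, 0 < k) →
      Wt (L.foldr (fun n f => LL m ν n f) (1 : Lm A)) L.sum := by
    intro L
    induction L with
    | nil =>
      intro _
      simp only [List.foldr_nil, List.sum_nil]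
      exact isWeightedHomogeneous_one A _
    | cons n L ih =>
      intro hL
      rw [List.foldr_cons, List.sum_cons, add_comm]
      exact (h0 A m ν _ _ (ih fun k hk => hL k (List.mem_cons_of_mem _ hk))).2.2.1 n
        (hL n List.mem_cons_self)
  have h2 := h (l.parts.sort (· ≥ ·)) (fun k hk => l.parts_pos ((Multiset.mem_sort _).1 hk))
  have h3 : (l.parts.sort (· ≥ ·)).sum = d := by
    rw [← Multiset.sum_coe, Multiset.sort_eq, l.parts_sum]
  rw [h3] at h2
  exact h2

theorem S1_one (ν : A) : S1 ν 0 (1 : Lm A) = 1 := by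
  rw [S1_apply, map_one, ← Polynomial.C_1, Polynomial.sum_C_index]
  · simp [hz, hs]
  · simp

theorem S1_vv (h2 : S_A2) (ν : A) {d : ℕ} (l : Nat.Partition d) :
    S1 ν 0 (vv (-1) ν l) = vv (-1 + 2 * ν) ν l := by
  unfold vv
  have h : ∀ L : List ℕ, (∀ k ∈ L, 0 < k) →
      S1 ν 0 (L.foldr (fun n f => LL (-1) ν n f) (1 : Lm A)) =
        L.foldr (fun n f => LL (-1 + 2 * ν) ν n f) 1 := by
    intro L
    induction L with
    | nil =>
      intro _
      exact S1_one ν
    | cons n L ih =>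
      intro hL
      rw [List.foldr_cons, List.foldr_cons, ← ih fun k hk => hL k (List.mem_cons_of_mem _ hk)]
      have h3 := h2 A (-1) ν n (hL n List.mem_cons_self) 0
        (L.foldr (fun n f => LL (-1) ν n f) (1 : Lm A))
      have h4 : (C (4 * ν * (-1 + 1 + (((0 : ℤ) : ℤ) : A))) : Lm A) = 0 := by
        rw [neg_add_cancel, Int.cast_zero, add_zero, mul_zero, C_0]
      rw [h4, zero_mul, sub_eq_zero] at h3
      exact h3.symm
  exact h _ (fun k hk => l.parts_pos ((Multiset.mem_sort _).1 hk))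

theorem DD_mul (h0 : S_A0) (h2 : S_A2) (ν : A) (d : ℕ) :
    DD (-1) ν d * TT ν d = DD (-1 + 2 * ν) ν d := by
  ext l k
  rw [Matrix.mul_apply]
  show ∑ j, coeff (mo j) (vv (-1) ν l) * TT ν d j k = coeff (mo k) (vv (-1 + 2 * ν) ν l)
  rw [← coeff_S1 ν (vv_wt h0 (-1) ν l) k, S1_vv h2]

end lin

theorem TT_nat {A B : Type} [CommRing A] [Algebra ℂ A] [CommRing B] [Algebra ℂ B] (φ : A →ₐ[ℂ] B)
    (ν : A) (d : ℕ) : (TT ν d).map φ = TT (φ ν) d := by
  ext l k
  rw [Matrix.map_apply]
  unfold TT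
  have h : (monomial (mo l) (1 : B) : Lm B) =
      MvPolynomial.map (φ : A →+* B) (monomial (mo l) (1 : A)) := by
    rw [map_monomial]
    congr 1
    exact (map_one φ).symm
  rw [h, ← S1_nat, coeff_map]
  rfl

/-! ## 3. Orders of vanishing -/

theorem cnt (p d : ℕ) (hp : 1 ≤ p) (F : ℕ → ℕ) :
    ∑ r ∈ Finset.Icc 1 d, ∑ s ∈ Finset.Icc 1 d,
      (if r * s ≤ d ∧ (r + 1) * p = s then F (r * s) else 0) =
    ∑ r ∈ Finset.Icc 1 d, ∑ s ∈ Finset.Icc 1 d,
      (if r * s ≤ d ∧ (r - 1) * p = s then F (r * s) else 0) := by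
  rw [← Finset.sum_product', ← Finset.sum_product', ← Finset.sum_filter, ← Finset.sum_filter]
  refine Finset.sum_bij' (fun x _ => (x.1 + 1, x.1 * p)) (fun x _ => (x.1 - 1, x.1 * p)) ?_ ?_ ?_
    ?_ ?_
  · rintro ⟨r, s⟩ h
    simp only [Finset.mem_filter, Finset.mem_product, Finset.mem_Icc] at h ⊢
    obtain ⟨⟨⟨h1, h2⟩, h3, h4⟩, h5, h6⟩ := h
    subst h6
    have e1 : (r + 1) * (r * p) = r * ((r + 1) * p) := by ring
    have e2 : 1 ≤ r * p := Nat.mul_pos h1 hp
    have e3 : r + 1 ≤ (r + 1) * (r * p) := Nat.le_mul_of_pos_right _ e2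
    have e4 : r * p ≤ (r + 1) * (r * p) := Nat.le_mul_of_pos_left _ (by omega)
    refine ⟨⟨⟨by omega, by omega⟩, e2, by omega⟩, by omega, ?_⟩
    rw [Nat.add_sub_cancel]
  · rintro ⟨r, s⟩ h
    simp only [Finset.mem_filter, Finset.mem_product, Finset.mem_Icc] at h ⊢
    obtain ⟨⟨⟨h1, h2⟩, h3, h4⟩, h5, h6⟩ := h
    obtain ⟨r, rfl⟩ : ∃ t, r = t + 1 := ⟨r - 1, by omega⟩
    rw [Nat.add_sub_cancel] at h6 ⊢
    subst h6
    have hr : 1 ≤ r := Nat.pos_of_mul_pos_right h3
    have e1 : (r + 1) * (r * p) = r * ((r + 1) * p) := by ring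
    have e2 : 1 ≤ (r + 1) * p := Nat.mul_pos (by omega) hp
    have e4 : (r + 1) * p ≤ r * ((r + 1) * p) := Nat.le_mul_of_pos_left _ hr
    exact ⟨⟨⟨hr, by omega⟩, e2, by omega⟩, by omega, rfl⟩
  · rintro ⟨r, s⟩ h
    simp only [Finset.mem_filter, Finset.mem_product, Finset.mem_Icc] at h
    obtain ⟨⟨⟨h1, h2⟩, h3, h4⟩, h5, h6⟩ := h
    simp only [Nat.add_sub_cancel, h6]
  · rintro ⟨r, s⟩ h
    simp only [Finset.mem_filter, Finset.mem_product, Finset.mem_Icc] at h
    obtain ⟨⟨⟨h1, h2⟩, h3, h4⟩, h5, h6⟩ := h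
    simp only [h6, Nat.sub_add_cancel h1]
  · rintro ⟨r, s⟩ h
    simp only [Finset.mem_filter, Finset.mem_product, Finset.mem_Icc] at h
    obtain ⟨⟨⟨h1, h2⟩, h3, h4⟩, h5, h6⟩ := h
    subst h6
    simp only
    congr 1
    ring

theorem rm_prod {κ : Type} (a : ℂ) (s : Finset κ) (f : κ → Polynomial ℂ)
    (hf : ∀ i ∈ s, f i ≠ 0) :
    Polynomial.rootMultiplicity a (∏ i ∈ s, f i) = ∑ i ∈ s, Polynomial.rootMultiplicity a (f i) := by
  classical
  induction s using Finset.induction_on with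
  | empty =>
    rw [Finset.prod_empty, Finset.sum_empty, ← Polynomial.C_1, Polynomial.rootMultiplicity_C]
  | insert i s his ih =>
    have h1 : ∏ i ∈ insert i s, f i ≠ 0 := Finset.prod_ne_zero_iff.2 hf
    rw [Finset.prod_insert his] at h1 ⊢
    rw [Finset.sum_insert his, Polynomial.rootMultiplicity_mul h1,
      ih fun j hj => hf j (Finset.mem_insert_of_mem hj)]

theorem rm_lin (a p s : ℂ) (hs : s ≠ 0) :
    Polynomial.C a * Polynomial.X - Polynomial.C s ≠ 0 ∧
    Polynomial.rootMultiplicity p (Polynomial.C a * Polynomial.X - Polynomial.C s) =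
      if a * p = s then 1 else 0 := by
  have h0 : Polynomial.C a * Polynomial.X - Polynomial.C s ≠ (0 : Polynomial ℂ) := by
    intro h
    have := congrArg (Polynomial.eval 0) h
    simp at this
    exact hs this
  refine ⟨h0, ?_⟩
  split_ifs with h
  · have ha : a ≠ 0 := by
      rintro rfl
      exact hs (by rw [← h, zero_mul])
    have e : Polynomial.C a * Polynomial.X - Polynomial.C s =
        Polynomial.C a * (Polynomial.X - Polynomial.C p) := by
      rw [← h, Polynomial.C_mul]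
      ring
    rw [e, Polynomial.rootMultiplicity_mul (by rw [← e]; exact h0),
      Polynomial.rootMultiplicity_C, Polynomial.rootMultiplicity_X_sub_C_self]
  · apply Polynomial.rootMultiplicity_eq_zero
    intro h1
    rw [Polynomial.IsRoot.def] at h1
    simp only [Polynomial.eval_sub, Polynomial.eval_mul, Polynomial.eval_C, Polynomial.eval_X]
      at h1
    exact h (sub_eq_zero.1 h1)

/-- the product in the determinant formula -/
noncomputable def RR (d : ℕ) (c : ℕ → ℂ) : Polynomial ℂ :=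
  Polynomial.C (2 ^ (∑ l : Nat.Partition d, l.parts.card)) *
    ∏ r ∈ Finset.Icc 1 d, ∏ s ∈ Finset.Icc 1 d,
      if r * s ≤ d then (Polynomial.C (c r) * Polynomial.X - Polynomial.C (s : ℂ)) ^ pn (d - r * s)
      else 1

theorem RR_rm (p d : ℕ) (c : ℕ → ℂ) :
    RR d c ≠ 0 ∧ Polynomial.rootMultiplicity (p : ℂ) (RR d c) =
      ∑ r ∈ Finset.Icc 1 d, ∑ s ∈ Finset.Icc 1 d,
        (if r * s ≤ d ∧ c r * p = s then pn (d - r * s) else 0) := by
  have hs : ∀ s ∈ Finset.Icc 1 d, ((s : ℕ) : ℂ) ≠ 0 := by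
    intro s hs
    rw [Finset.mem_Icc] at hs
    exact_mod_cast (by omega : s ≠ 0)
  have h1 : ∀ r ∈ Finset.Icc 1 d, ∀ s ∈ Finset.Icc 1 d,
      (if r * s ≤ d then (Polynomial.C (c r) * Polynomial.X - Polynomial.C (s : ℂ)) ^
        pn (d - r * s) else 1) ≠ 0 ∧
      Polynomial.rootMultiplicity (p : ℂ)
        (if r * s ≤ d then (Polynomial.C (c r) * Polynomial.X - Polynomial.C (s : ℂ)) ^
          pn (d - r * s) else 1) =
      (if r * s ≤ d ∧ c r * p = s then pn (d - r * s) else 0) := by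
    intro r _ s hs'
    obtain ⟨h2, h3⟩ := rm_lin (c r) (p : ℂ) s (hs s hs')
    by_cases h : r * s ≤ d
    · rw [if_pos h]
      refine ⟨pow_ne_zero _ h2, ?_⟩
      have h4 : (Polynomial.C (c r) * Polynomial.X - Polynomial.C (s : ℂ)) ^ pn (d - r * s) =
          ∏ _i ∈ Finset.range (pn (d - r * s)),
            (Polynomial.C (c r) * Polynomial.X - Polynomial.C (s : ℂ)) := by
        rw [Finset.prod_const, Finset.card_range]
      rw [h4, rm_prod _ _ _ (fun _ _ => h2), Finset.sum_const, Finset.card_range, h3]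
      by_cases h5 : c r * p = s
      · rw [if_pos h5, if_pos ⟨h, h5⟩, smul_eq_mul, mul_one]
      · rw [if_neg h5, if_neg (fun h6 => h5 h6.2), smul_zero]
    · rw [if_neg h, if_neg (fun h6 => h h6.1)]
      refine ⟨one_ne_zero, ?_⟩
      rw [← Polynomial.C_1, Polynomial.rootMultiplicity_C]
  have h2 : ∀ r ∈ Finset.Icc 1 d, (∏ s ∈ Finset.Icc 1 d,
      if r * s ≤ d then (Polynomial.C (c r) * Polynomial.X - Polynomial.C (s : ℂ)) ^ pn (d - r * s)
      else 1) ≠ 0 := fun r hr => Finset.prod_ne_zero_iff.2 fun s hs => (h1 r hr s hs).1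
  have h3 : RR d c ≠ 0 := by
    unfold RR
    refine mul_ne_zero ?_ (Finset.prod_ne_zero_iff.2 h2)
    rw [Polynomial.C_ne_zero]
    exact pow_ne_zero _ two_ne_zero
  refine ⟨h3, ?_⟩
  have h4 := h3
  unfold RR at h4 ⊢
  rw [Polynomial.rootMultiplicity_mul h4, Polynomial.rootMultiplicity_C, zero_add,
    rm_prod _ _ _ h2]
  refine Finset.sum_congr rfl fun r hr => ?_
  rw [rm_prod _ _ _ (fun s hs => (h1 r hr s hs).1)]
  exact Finset.sum_congr rfl fun s hs => (h1 r hr s hs).2

/-! ## 4. The determinants -/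

theorem infinite_gt (d : ℕ) (P Q : Polynomial ℂ)
    (h : ∀ q : ℕ, d < q → P.eval (q : ℂ) = Q.eval (q : ℂ)) : P = Q := by
  apply Polynomial.eq_of_infinite_eval_eq
  refine Set.Infinite.mono (s := (fun q : ℕ => (q : ℂ)) '' (Set.Ioi d)) ?_ ?_
  · rintro _ ⟨q, hq, rfl⟩
    exact h q hq
  · exact (Set.Ioi_infinite d).image (Nat.cast_injective.injOn)

theorem det_eq (h7 : S_A7) (d : ℕ) :
    (DD (-1) (Polynomial.X : Polynomial ℂ) d).det = RR d (fun r => (r : ℂ) - 1) ∧
    (DD (-1 + 2 * Polynomial.X) (Polynomial.X : Polynomial ℂ) d).det =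
      RR d (fun r => (r : ℂ) + 1) := by
  have hev : ∀ (q : ℕ) (m : Polynomial ℂ),
      ((DD m (Polynomial.X : Polynomial ℂ) d).det).eval (q : ℂ) =
        (DD (m.eval (q : ℂ)) (q : ℂ) d).det := by
    intro q m
    have h1 := DD_nat (Polynomial.aeval (q : ℂ) : Polynomial ℂ →ₐ[ℂ] ℂ) m Polynomial.X d
    rw [Polynomial.aeval_X, Polynomial.coe_aeval_eq_eval] at h1
    rw [← h1, ← Polynomial.coe_evalRingHom, RingHom.map_det]
    rfl
  refine ⟨infinite_gt d _ _ fun q hq => ?_, infinite_gt d _ _ fun q hq => ?_⟩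
  · rw [hev, h7 d q hq, RR]
    simp only [Polynomial.eval_mul, Polynomial.eval_C, Polynomial.eval_prod, Polynomial.eval_neg,
      Polynomial.eval_one]
    congr 1
    refine Finset.prod_congr rfl fun r _ => Finset.prod_congr rfl fun s _ => ?_
    split_ifs
    · rw [Polynomial.eval_pow]
      congr 1
      simp only [Polynomial.eval_sub, Polynomial.eval_mul, Polynomial.eval_C, Polynomial.eval_X]
      ring
    · rw [Polynomial.eval_one]
  · rw [hev, h7 d q hq, RR]
    simp only [Polynomial.eval_mul, Polynomial.eval_C, Polynomial.eval_prod, Polynomial.eval_neg,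
      Polynomial.eval_one, Polynomial.eval_add, Polynomial.eval_X, Polynomial.eval_ofNat]
    congr 1
    refine Finset.prod_congr rfl fun r _ => Finset.prod_congr rfl fun s _ => ?_
    split_ifs
    · rw [Polynomial.eval_pow]
      congr 1
      simp only [Polynomial.eval_sub, Polynomial.eval_mul, Polynomial.eval_C, Polynomial.eval_X]
      ring
    · rw [Polynomial.eval_one]

theorem det_ne (h0 : S_A0) (h2 : S_A2) (h7 : S_A7) (p d : ℕ) (hp : 1 ≤ p) :
    (TT (p : ℂ) d).det ≠ 0 := by
  obtain ⟨e1, e2⟩ := det_eq h7 d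
  have e3 := congrArg Matrix.det (DD_mul h0 h2 (Polynomial.X : Polynomial ℂ) d)
  rw [Matrix.det_mul, e1, e2] at e3
  obtain ⟨n1, r1⟩ := RR_rm p d (fun r => (r : ℂ) - 1)
  obtain ⟨n2, r2⟩ := RR_rm p d (fun r => (r : ℂ) + 1)
  have h3 := congrArg (Polynomial.rootMultiplicity (p : ℂ)) e3
  rw [Polynomial.rootMultiplicity_mul (by rw [e3]; exact n2), r1, r2] at h3
  have h4 : (∑ r ∈ Finset.Icc 1 d, ∑ s ∈ Finset.Icc 1 d,
        (if r * s ≤ d ∧ ((r : ℂ) - 1) * p = s then pn (d - r * s) else 0)) =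
      ∑ r ∈ Finset.Icc 1 d, ∑ s ∈ Finset.Icc 1 d,
        (if r * s ≤ d ∧ ((r : ℂ) + 1) * p = s then pn (d - r * s) else 0) := by
    have h5 := cnt p d hp (fun t => pn (d - t))
    have h6 : ∀ r s : ℕ, (((r : ℂ) + 1) * p = s ↔ (r + 1) * p = s) := by
      intro r s
      exact_mod_cast Iff.rfl
    have h7 : ∀ r ∈ Finset.Icc 1 d, ∀ s : ℕ, (((r : ℂ) - 1) * p = s ↔ (r - 1) * p = s) := by
      intro r hr s
      rw [Finset.mem_Icc] at hr
      obtain ⟨r, rfl⟩ : ∃ t, r = t + 1 := ⟨r - 1, by omega⟩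
      rw [Nat.add_sub_cancel, Nat.cast_add, Nat.cast_one, add_sub_cancel_right]
      exact_mod_cast Iff.rfl
    have h8 : (∑ r ∈ Finset.Icc 1 d, ∑ s ∈ Finset.Icc 1 d,
        (if r * s ≤ d ∧ ((r : ℂ) - 1) * p = s then pn (d - r * s) else 0)) =
        ∑ r ∈ Finset.Icc 1 d, ∑ s ∈ Finset.Icc 1 d,
          (if r * s ≤ d ∧ (r - 1) * p = s then pn (d - r * s) else 0) :=
      Finset.sum_congr rfl fun r hr => Finset.sum_congr rfl fun s _ =>
        if_congr (and_congr_right fun _ => h7 r hr s) rfl rfl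
    have h9 : (∑ r ∈ Finset.Icc 1 d, ∑ s ∈ Finset.Icc 1 d,
        (if r * s ≤ d ∧ ((r : ℂ) + 1) * p = s then pn (d - r * s) else 0)) =
        ∑ r ∈ Finset.Icc 1 d, ∑ s ∈ Finset.Icc 1 d,
          (if r * s ≤ d ∧ (r + 1) * p = s then pn (d - r * s) else 0) :=
      Finset.sum_congr rfl fun r hr => Finset.sum_congr rfl fun s _ =>
        if_congr (and_congr_right fun _ => h6 r s) rfl rfl
    rw [h8, h9]
    exact h5.symm
  rw [h4] at h3
  have h10 : Polynomial.rootMultiplicity (p : ℂ) (TT (Polynomial.X : Polynomial ℂ) d).det = 0 := by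
    omega
  have h11 : (TT (Polynomial.X : Polynomial ℂ) d).det ≠ 0 := by
    intro h
    rw [h, mul_zero] at e3
    exact n2 e3.symm
  have h12 : ((TT (Polynomial.X : Polynomial ℂ) d).det).eval (p : ℂ) = (TT (p : ℂ) d).det := by
    have h1 := TT_nat (Polynomial.aeval (p : ℂ) : Polynomial ℂ →ₐ[ℂ] ℂ) Polynomial.X d
    rw [Polynomial.aeval_X, Polynomial.coe_aeval_eq_eval] at h1
    rw [← h1, ← Polynomial.coe_evalRingHom, RingHom.map_det]
    rfl
  rw [← h12]
  intro h13
  have h14 := (Polynomial.rootMultiplicity_pos h11).2 h13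
  omega

theorem main : S_A8imp := by
  intro h0 h2 h7 p d hp h hh
  have hdet := det_ne h0 h2 h7 p d hp
  have hunit : IsUnit (TT (p : ℂ) d).det := isUnit_iff_ne_zero.2 hdet
  set c : Nat.Partition d → ℂ := fun k => coeff (mo k) h with hc
  set x : Nat.Partition d → ℂ := Matrix.vecMul c (TT (p : ℂ) d)⁻¹ with hx
  have hxT : Matrix.vecMul x (TT (p : ℂ) d) = c := by
    rw [hx, Matrix.vecMul_vecMul, Matrix.nonsing_inv_mul _ hunit, Matrix.vecMul_one]
  set f : Lm ℂ := ∑ l : Nat.Partition d, monomial (mo l) (x l) with hf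
  have hfw : Wt f d := by
    rw [hf]
    refine Submodule.sum_mem (weightedHomogeneousSubmodule ℂ (fun n : ℕ => n + 1) d) fun l _ => ?_
    exact isWeightedHomogeneous_monomial _ _ _ (mo_weight l)
  have hfc : ∀ l, coeff (mo l) f = x l := by
    intro l
    rw [hf, coeff_sum, Finset.sum_eq_single l]
    · rw [coeff_monomial, if_pos rfl]
    · intro l' _ hl
      rw [coeff_monomial, if_neg (fun h => hl (mo_inj h))]
    · intro h
      exact absurd (Finset.mem_univ l) h
  refine ⟨f, hfw, ?_⟩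
  have hSw : Wt (S1 (p : ℂ) 0 f) d := (h0 ℂ 0 (p : ℂ) d f hfw).1 d 0 (by simp)
  rw [expand hSw, expand hh]
  refine Finset.sum_congr rfl fun k _ => ?_
  congr 1
  rw [coeff_S1 _ hfw]
  simp only [hfc]
  exact congrFun hxT k

end Pool.Agent.H391.SK.P_A8
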