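import Pool.Agent.H391.SK.StA

/-!
# Project SK, A9 (helper356)
-/

namespace Pool.Agent.H391.SK.P_A9

open Pool.Agent.H391.SK MvPolynomial

theorem wt_sub {f g : Lm ℂ} {d : ℕ} (hf : Wt f d) (hg : Wt g d) : Wt (f - g) d := by
  have h1 : f ∈ weightedHomogeneousSubmodule ℂ (fun n : ℕ => n + 1) d := hf
  have h2 : g ∈ weightedHomogeneousSubmodule ℂ (fun n : ℕ => n + 1) d := hg
  exact Submodule.sub_mem _ h1 h2

theorem wt_zero (d : ℕ) : Wt (0 : Lm ℂ) d := isWeightedHomogeneous_zero ℂ _ d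

theorem main : S_A9imp := by
  intro h0 h3 h8 p d hp h hh
  have hν : ((p : ℕ) : ℂ) ≠ 0 := by
    have : p ≠ 0 := by omega
    exact_mod_cast this
  have key : ∀ j k : ℕ, k + j = d → ∀ h : Lm ℂ, Wt h j →
      ∃ f : Lm ℂ, Wt f (d + 1) ∧ S1 (p : ℂ) (-1) f = gs (p : ℂ) k * h := by
    intro j
    induction j with
    | zero =>
      intro k hk h hh
      obtain ⟨f, hf, hfh⟩ := h8 p 0 hp h hh
      have e := h3 (p : ℂ) hν k (-1) f
      obtain ⟨-, a2, -, -, a5⟩ := h0 ℂ (0 : ℂ) (p : ℂ) 0 f hf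
      rw [a2 (-1) (by norm_num), mul_zero, zero_sub] at e
      have e0 : (-1 : ℤ) + 1 = 0 := by norm_num
      rw [e0, hfh] at e
      refine ⟨0 - gs (p : ℂ) (k + 1) * f, wt_sub (wt_zero _) ?_, ?_⟩
      · have := (a5 (p : ℂ) (k + 1)).mul hf
        have e1 : d + 1 = k + 1 + 0 := by omega
        rw [e1]
        exact this
      · rw [zero_sub, map_neg, e, neg_neg]
    | succ j ih =>
      intro k hk h hh
      obtain ⟨f, hf, hfh⟩ := h8 p (j + 1) hp h hh
      have e := h3 (p : ℂ) hν k (-1) f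
      obtain ⟨a1, -, -, -, a5⟩ := h0 ℂ (0 : ℂ) (p : ℂ) (j + 1) f hf
      have e0 : (-1 : ℤ) + 1 = 0 := by norm_num
      rw [e0, hfh] at e
      have w1 : Wt (S1 (p : ℂ) (-1) f) j := a1 j (-1) (by push_cast; ring)
      obtain ⟨f', hf', he'⟩ := ih (k + 1) (by omega) _ w1
      refine ⟨f' - gs (p : ℂ) (k + 1) * f, wt_sub hf' ?_, ?_⟩
      · have := (a5 (p : ℂ) (k + 1)).mul hf
        have e1 : d + 1 = k + 1 + (j + 1) := by omega
        rw [e1]
        exact this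
      · rw [map_sub, he', e]
        ring
  obtain ⟨f, hf, hfe⟩ := key d 0 (by omega) h hh
  refine ⟨f, hf, ?_⟩
  rw [hfe]
  have : gs (p : ℂ) 0 = 1 := by
    unfold gs
    rw [hs]
  rw [this, one_mul]

end Pool.Agent.H391.SK.P_A9

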