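import Pool.Agent.H391.SK.StD

/-!
# Project SK, task CH1: the key lemma for Chevalley's theorem
-/

set_option linter.unusedSectionVars false

namespace Pool.Agent.H391.SK.P_CH1

open MvPolynomial

variable {ι : Type} [Fintype ι] [DecidableEq ι]

/-- The difference of a polynomial and its reflection is divisible by the root. -/
theorem X_dvd (c : Matrix ι ι ℤ) (i : ι) (f : MvPolynomial ι ℂ) :
    (X i : MvPolynomial ι ℂ) ∣ f - act0 (sr c (al i)) f := by
  rw [← Ideal.mem_span_singleton, ← Ideal.Quotient.eq]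
  have : (Ideal.Quotient.mkₐ ℂ (Ideal.span {(X i : MvPolynomial ι ℂ)})) =
      (Ideal.Quotient.mkₐ ℂ (Ideal.span {(X i : MvPolynomial ι ℂ)})).comp
        (act0 (sr c (al i))) := by
    refine algHom_ext fun k => ?_
    rw [AlgHom.comp_apply, act0_X, sr_apply, lin0_sub, lin0_smul, lin0_al, lin0_al]
    rw [Ideal.Quotient.mkₐ_eq_mk, Ideal.Quotient.eq, Ideal.mem_span_singleton]
    exact ⟨C ((form c (al k) (al i) : ℤ) : ℂ), by ring⟩
  exact DFunLike.congr_fun this f

theorem hom_of_X_mul {i : ι} {d : ℕ} {f : MvPolynomial ι ℂ}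
    (h : (X i * f).IsHomogeneous (d + 1)) : f.IsHomogeneous d := by
  intro m hm
  have h1 : coeff (Finsupp.single i 1 + m) (X i * f) ≠ 0 := by
    rwa [coeff_X_mul]
  have h2 := h h1
  rw [map_add] at h2
  have h3 : (Finsupp.weight (1 : ι → ℕ)) (Finsupp.single i 1) = 1 := by
    simp [Finsupp.weight_apply]
  rw [h3] at h2
  omega

theorem lin0_isHomogeneous (v : ι → ℤ) : (lin0 v).IsHomogeneous 1 :=
  IsHomogeneous.sum _ _ _ fun k _ => by
    simpa using (isHomogeneous_C ι (((v k : ℤ) : ℂ))).mul (isHomogeneous_X ℂ k)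

theorem act0_isHomogeneous (g : (ι → ℤ) →ₗ[ℤ] (ι → ℤ)) {f : MvPolynomial ι ℂ} {d : ℕ}
    (hf : f.IsHomogeneous d) : (act0 g f).IsHomogeneous d := by
  have := hf.aeval (fun k => lin0 (g (al k))) (n := 1) (fun k => lin0_isHomogeneous _)
  simpa [act0] using this

theorem constantCoeff_act0 (g : (ι → ℤ) →ₗ[ℤ] (ι → ℤ)) (f : MvPolynomial ι ℂ) :
    constantCoeff (act0 g f) = constantCoeff f := by
  have : (aeval (fun _ : ι => (0 : ℂ)) : MvPolynomial ι ℂ →ₐ[ℂ] ℂ).comp (act0 g) =
      aeval (fun _ : ι => (0 : ℂ)) := by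
    refine algHom_ext fun k => ?_
    rw [AlgHom.comp_apply, act0_X]
    simp [lin0]
  have h := DFunLike.congr_fun this f
  rw [AlgHom.comp_apply] at h
  have e : ∀ p : MvPolynomial ι ℂ, aeval (fun _ : ι => (0 : ℂ)) p = constantCoeff p := by
    intro p
    have h1 : aeval (fun _ : ι => (0 : ℂ)) p = aeval (0 : ι → ℂ) p := rfl
    rw [h1, aeval_zero]
    simp
  rwa [e, e] at h

theorem constantCoeff_hom {d : ℕ} {f : MvPolynomial ι ℂ} (h : f.IsHomogeneous (d + 1)) :
    constantCoeff f = 0 := by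
  rw [constantCoeff_eq]
  exact h.coeff_eq_zero (by simp)

section

variable (c : Matrix ι ι ℤ) [Fintype (Wg c (Set.univ : Set ι))]

/-- The sum over the group. -/
noncomputable def S (f : MvPolynomial ι ℂ) : MvPolynomial ι ℂ :=
  ∑ g : Wg c (Set.univ : Set ι), act0 (g.1 : (ι → ℤ) →ₗ[ℤ] (ι → ℤ)) f

theorem S_inv (hc : IsADE c) (f : MvPolynomial ι ℂ) (i : ι) :
    act0 (sr c (al i)) (S c f) = S c f := by
  rw [← act0_sre (hc.form_al i), S, map_sum]
  simp only [← act0_mul]
  exact Fintype.sum_equiv (Equiv.mulLeft (⟨sre (hc.form_al i), sre_mem_Wg hc (Set.mem_univ i)⟩ :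
    Wg c (Set.univ : Set ι))) _ _ fun g => rfl

theorem S_mul (hc : IsADE c) {F : MvPolynomial ι ℂ} (hF : ∀ i, act0 (sr c (al i)) F = F)
    (f : MvPolynomial ι ℂ) : S c (F * f) = F * S c f := by
  rw [S, S, Finset.mul_sum]
  refine Finset.sum_congr rfl fun g _ => ?_
  rw [map_mul, (act0_inv_iff hc Set.univ F).1 (fun i _ => hF i) g.1 g.2]

theorem S_sum {κ : Type} (s : Finset κ) (f : κ → MvPolynomial ι ℂ) :
    S c (∑ j ∈ s, f j) = ∑ j ∈ s, S c (f j) := by
  simp only [S, map_sum]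
  exact Finset.sum_comm

theorem S_zero : S c 0 = 0 := by simp [S]

theorem S_C (a : ℂ) : S c (C a) = C ((Fintype.card (Wg c (Set.univ : Set ι)) : ℂ) * a) := by
  have : ∀ g : (ι → ℤ) →ₗ[ℤ] (ι → ℤ), act0 g (C a) = C a := by
    intro g
    rw [← algebraMap_eq, AlgHom.commutes]
  simp [S, this]

theorem S_hom {f : MvPolynomial ι ℂ} {d : ℕ} (hf : f.IsHomogeneous d) : (S c f).IsHomogeneous d :=
  IsHomogeneous.sum _ _ _ fun _ _ => act0_isHomogeneous _ hf

end

/-- The ideal. -/
noncomputable abbrev aa (c : Matrix ι ι ℤ) : Ideal (MvPolynomial ι ℂ) :=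
  Ideal.span {f : MvPolynomial ι ℂ | (∀ i, act0 (sr c (al i)) f = f) ∧ constantCoeff f = 0}

theorem act0_mem_aa {c : Matrix ι ι ℤ} (i : ι) {f : MvPolynomial ι ℂ} (hf : f ∈ aa c) :
    act0 (sr c (al i)) f ∈ aa c := by
  have : aa c ≤ (aa c).comap (act0 (sr c (al i))) := by
    refine Ideal.span_le.2 fun f hf => ?_
    show act0 (sr c (al i)) f ∈ aa c
    rw [hf.1 i]
    exact Ideal.subset_span hf
  exact this hf

theorem main : S_CH1 := by
  intro hroot ι _ _ c hc m d F G hF hnot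
  have hfin : Finite (Wg c (Set.univ : Set ι)) := (hroot ι c hc).2.2.1 Set.univ
  have : Fintype (Wg c (Set.univ : Set ι)) := Fintype.ofFinite _
  have hn : ((Fintype.card (Wg c (Set.univ : Set ι)) : ℕ) : ℂ) ≠ 0 := by
    exact_mod_cast Fintype.card_ne_zero
  show (G 0).IsHomogeneous d → ∑ j, F j * G j = 0 → G 0 ∈ aa c
  induction d generalizing G with
  | zero =>
    intro hG hsum
    have hG0 : G 0 = C (coeff 0 (G 0)) := by
      rw [← totalDegree_eq_zero_iff_eq_C, ← Nat.le_zero]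
      exact hG.totalDegree_le
    by_cases ha : coeff 0 (G 0) = 0
    · rw [hG0, ha, C_0]
      exact zero_mem _
    exfalso
    apply hnot
    have hna : (Fintype.card (Wg c (Set.univ : Set ι)) : ℂ) * coeff 0 (G 0) ≠ 0 :=
      mul_ne_zero hn ha
    have h1 : S c (∑ j, F j * G j) = 0 := by rw [hsum, S_zero]
    rw [S_sum] at h1
    simp only [fun j => S_mul c hc (hF j)] at h1
    rw [Fin.sum_univ_succ, hG0, S_C] at h1
    refine ⟨fun j => C (-((Fintype.card (Wg c (Set.univ : Set ι)) : ℂ) * coeff 0 (G 0))⁻¹) *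
      S c (G j.succ), ?_, ?_⟩
    · intro j i
      rw [map_mul, S_inv c hc, ← algebraMap_eq, AlgHom.commutes]
    · have h2 : F 0 = C (((Fintype.card (Wg c (Set.univ : Set ι)) : ℂ) * coeff 0 (G 0))⁻¹) *
          (F 0 * C ((Fintype.card (Wg c (Set.univ : Set ι)) : ℂ) * coeff 0 (G 0))) := by
        rw [mul_left_comm, ← C_mul, inv_mul_cancel₀ hna, C_1, mul_one]
      rw [h2, eq_neg_of_add_eq_zero_left h1, mul_neg, Finset.mul_sum, ← Finset.sum_neg_distrib]
      refine Finset.sum_congr rfl fun j _ => ?_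
      rw [C_neg]
      ring
  | succ d ih =>
    intro hG hsum
    have hi : ∀ i, G 0 - act0 (sr c (al i)) (G 0) ∈ aa c := by
      intro i
      choose G' hG' using fun j => X_dvd c i (G j)
      have hX : (X i : MvPolynomial ι ℂ) ≠ 0 := X_ne_zero i
      have h1 : (G' 0).IsHomogeneous d := by
        apply hom_of_X_mul (i := i)
        rw [← hG']
        exact hG.sub (act0_isHomogeneous _ hG)
      have h2 : ∑ j, F j * G' j = 0 := by
        apply mul_left_cancel₀ hX
        rw [mul_zero, Finset.mul_sum]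
        have e : ∀ j, X i * (F j * G' j) = F j * G j - act0 (sr c (al i)) (F j * G j) := by
          intro j
          rw [map_mul, hF j i, mul_left_comm, ← hG']
          ring
        simp only [e]
        rw [Finset.sum_sub_distrib, ← map_sum, hsum, map_zero, sub_zero]
      rw [hG']
      exact Ideal.mul_mem_left _ _ (ih G' h1 h2)
    have hg : ∀ g ∈ Wg c (Set.univ : Set ι),
        G 0 - act0 ((g : (ι → ℤ) ≃ₗ[ℤ] (ι → ℤ)) : (ι → ℤ) →ₗ[ℤ] (ι → ℤ)) (G 0) ∈ aa c := by
      intro g hg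
      refine Wg_induction hc (P := fun g => G 0 - act0 (g : (ι → ℤ) →ₗ[ℤ] (ι → ℤ)) (G 0) ∈ aa c)
        ?_ ?_ hg
      · show G 0 - act0 _ (G 0) ∈ aa c
        rw [act0_one, sub_self]
        exact zero_mem _
      · intro i _ g _ h
        show G 0 - act0 _ (G 0) ∈ aa c
        rw [act0_mul, act0_sre]
        have := add_mem (hi i) (act0_mem_aa i h)
        rw [map_sub] at this
        convert this using 1
        ring
    have h3 : C ((Fintype.card (Wg c (Set.univ : Set ι)) : ℕ) : ℂ) * G 0 - S c (G 0) ∈ aa c := by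
      have h4 : ∑ g : Wg c (Set.univ : Set ι),
          (G 0 - act0 (g.1 : (ι → ℤ) →ₗ[ℤ] (ι → ℤ)) (G 0)) ∈ aa c :=
        sum_mem fun g _ => hg g.1 g.2
      rw [Finset.sum_sub_distrib] at h4
      have e : ∑ _x : Wg c (Set.univ : Set ι), G 0 =
          C ((Fintype.card (Wg c (Set.univ : Set ι)) : ℕ) : ℂ) * G 0 := by
        simp
      rw [e] at h4
      exact h4
    have h5 : S c (G 0) ∈ aa c :=
      Ideal.subset_span ⟨S_inv c hc _, constantCoeff_hom (S_hom c hG)⟩
    have h6 : C ((Fintype.card (Wg c (Set.univ : Set ι)) : ℕ) : ℂ) * G 0 ∈ aa c := by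
      have := add_mem h3 h5
      rwa [sub_add_cancel] at this
    have h7 := Ideal.mul_mem_left _ (C (((Fintype.card (Wg c (Set.univ : Set ι)) : ℕ) : ℂ)⁻¹)) h6
    rwa [← mul_assoc, ← C_mul, inv_mul_cancel₀ hn, C_1, one_mul] at h7

end Pool.Agent.H391.SK.P_CH1
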