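import Pool.Agent.H391.SK.StG

/-!
# SK-CHAR (helper747, for helper391): the graded dimension of the common kernel
-/

set_option autoImplicit false
set_option linter.unusedSectionVars false

namespace Pool.Agent.H391.SK.P_CHAR

open MvPolynomial

/-! ### Weighted homogeneous polynomials -/

section wh

variable {σ τ : Type}

/-- substitution of weighted homogeneous elements -/
theorem aeval_wh (u : σ → ℕ) (w : τ → ℕ) (g : σ → MvPolynomial τ ℂ)
    (hg : ∀ i, IsWeightedHomogeneous w (g i) (u i)) {F : MvPolynomial σ ℂ} {n : ℕ}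
    (hF : IsWeightedHomogeneous u F n) : IsWeightedHomogeneous w (aeval g F) n := by
  classical
  rw [F.as_sum, map_sum]
  refine IsWeightedHomogeneous.sum _ _ _ fun m hm => ?_
  rw [aeval_monomial]
  refine IsWeightedHomogeneous.C_mul ?_ _
  have h1 : Finsupp.weight u m = n := hF (mem_support_iff.mp hm)
  rw [← h1, Finsupp.weight_apply]
  exact IsWeightedHomogeneous.prod _ _ _ fun i _ => (hg i).pow _

/-- components commute -/
theorem whc_hc (w : σ → ℕ) (N d : ℕ) (f : MvPolynomial σ ℂ) :
    homogeneousComponent d (weightedHomogeneousComponent w N f) =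
      weightedHomogeneousComponent w N (homogeneousComponent d f) := by
  classical
  ext m
  rw [coeff_homogeneousComponent, coeff_weightedHomogeneousComponent,
    coeff_weightedHomogeneousComponent, coeff_homogeneousComponent]
  split_ifs <;> rfl

theorem hc_wh (w : σ → ℕ) (N d : ℕ) {f : MvPolynomial σ ℂ} (hf : IsWeightedHomogeneous w f N) :
    IsWeightedHomogeneous w (homogeneousComponent d f) N := by
  classical
  intro m hm
  rw [coeff_homogeneousComponent] at hm
  split_ifs at hm with h
  · exact hf hm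
  · exact absurd rfl hm

theorem whc_totalDegree (w : σ → ℕ) (N d : ℕ) {f : MvPolynomial σ ℂ} (hf : f.totalDegree ≤ d) :
    (weightedHomogeneousComponent w N f).totalDegree ≤ d := by
  classical
  refine le_trans (Finset.sup_mono ?_) hf
  intro m hm
  rw [mem_support_iff, coeff_weightedHomogeneousComponent] at hm
  rw [mem_support_iff]
  split_ifs at hm with h
  · exact hm
  · exact absurd rfl hm

/-- dimension of a space of weighted homogeneous elements -/
theorem finrank_wh (w : σ → ℕ) (N : ℕ) :
    Module.finrank ℂ (weightedHomogeneousSubmodule ℂ w N) =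
      Nat.card {m : σ →₀ ℕ // Finsupp.weight w m = N} := by
  rw [weightedHomogeneousSubmodule_eq_finsupp_supported]
  exact Module.finrank_eq_nat_card_basis (basisRestrictSupport ℂ {m | Finsupp.weight w m = N})

end wh

section

variable {ι : Type} [Fintype ι] [DecidableEq ι]

/-- conformal weight -/
def cw (p : ι × ℕ) : ℕ := p.2 + 1

theorem mem_WtN {N : ℕ} {f : Fk ι ℂ} : f ∈ WtN ι ℂ N ↔ IsWeightedHomogeneous cw f N := by
  unfold WtN
  rw [mem_weightedHomogeneousSubmodule]
  rfl

theorem emb_wh {f : MvPolynomial ι ℂ} {n : ℕ} (hf : f.IsHomogeneous n) :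
    IsWeightedHomogeneous cw (emb f) n := by
  have h0 : (emb : MvPolynomial ι ℂ →ₐ[ℂ] Fk ι ℂ) = aeval (fun k => (X (k, 0) : Fk ι ℂ)) := by
    refine algHom_ext fun k => ?_
    rw [emb_X, aeval_X]
  have h1 : (emb f : Fk ι ℂ) = aeval (fun k => (X (k, 0) : Fk ι ℂ)) f := by
    rw [h0]
  rw [h1]
  refine aeval_wh (fun _ => 1) cw _ (fun i => ?_) hf
  exact isWeightedHomogeneous_X ℂ cw (i, 0)

/-- `D n` raises the weight by `n` -/
theorem D_wh {f : Fk ι ℂ} {e : ℕ} (hf : IsWeightedHomogeneous cw f e) (n : ℕ) :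
    IsWeightedHomogeneous cw (D n f) (e + n) := by
  have key : ∀ (m : (ι × ℕ) →₀ ℕ) (n : ℕ),
      IsWeightedHomogeneous cw (D n (monomial m (1 : ℂ))) (Finsupp.weight cw m + n) := by
    intro m
    induction m using Finsupp.induction_linear with
    | zero =>
      intro n
      have : (monomial (0 : (ι × ℕ) →₀ ℕ) (1 : ℂ)) = 1 := rfl
      rw [this, D_one]
      split_ifs with h
      · rw [h, map_zero]
        exact isWeightedHomogeneous_one _ _
      · exact isWeightedHomogeneous_zero _ _ _
    | add a b ha hb =>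
      intro n
      have : (monomial (a + b) (1 : ℂ)) = monomial a 1 * monomial b 1 := by
        rw [monomial_mul, one_mul]
      rw [this, D_mul]
      refine IsWeightedHomogeneous.sum _ _ _ fun p hp => ?_
      have h1 := (ha p.1).mul (hb p.2)
      have h2 : Finsupp.weight cw a + p.1 + (Finsupp.weight cw b + p.2) =
          Finsupp.weight cw (a + b) + n := by
        rw [map_add]
        have := Finset.HasAntidiagonal.mem_antidiagonal.1 hp
        omega
      rw [h2] at h1
      exact h1
    | single p k =>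
      induction k with
      | zero =>
        intro n
        rw [Finsupp.single_zero]
        have : (monomial (0 : (ι × ℕ) →₀ ℕ) (1 : ℂ)) = 1 := rfl
        rw [this, D_one]
        split_ifs with h
        · rw [h, map_zero]
          exact isWeightedHomogeneous_one _ _
        · exact isWeightedHomogeneous_zero _ _ _
      | succ k ih =>
        intro n
        have h1 : (monomial (Finsupp.single p (k + 1)) (1 : ℂ)) =
            monomial (Finsupp.single p k) 1 * X p := by
          rw [X, monomial_mul, one_mul, ← Finsupp.single_add]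
        rw [h1, D_mul]
        refine IsWeightedHomogeneous.sum _ _ _ fun q hq => ?_
        obtain ⟨j, m⟩ := p
        have hX : IsWeightedHomogeneous cw (D q.2 (X (j, m) : Fk ι ℂ)) (m + 1 + q.2) := by
          rw [D_X]
          refine IsWeightedHomogeneous.C_mul ?_ _
          have := isWeightedHomogeneous_X ℂ cw (j, m + q.2)
          have e : cw (j, m + q.2) = m + 1 + q.2 := by
            unfold cw
            omega
          rw [e] at this
          exact this
        have h3 := (ih q.1).mul hX
        have h2 : Finsupp.weight cw (Finsupp.single (j, m) k) + q.1 + (m + 1 + q.2) =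
            Finsupp.weight cw (Finsupp.single (j, m) (k + 1)) + n := by
          rw [Finsupp.weight_single, Finsupp.weight_single]
          have := Finset.HasAntidiagonal.mem_antidiagonal.1 hq
          have e : cw (j, m) = m + 1 := rfl
          rw [e, smul_eq_mul, smul_eq_mul, Nat.succ_mul]
          omega
        rw [h2] at h3
        exact h3
  rw [f.as_sum, D_sum]
  refine IsWeightedHomogeneous.sum _ _ _ fun m hm => ?_
  have h1 : monomial m (coeff m f) = C (coeff m f) * monomial m 1 := by
    rw [C_mul_monomial, mul_one]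
  rw [h1, D_C_mul]
  have h2 : Finsupp.weight cw m = e := hf (mem_support_iff.mp hm)
  rw [← h2]
  exact (key m n).C_mul _

/-- `RR P` is graded by the degree. -/
theorem hc_mem_RR {P : ι → MvPolynomial ι ℂ} {d : ι → ℕ} (hd : ∀ j, (P j).IsHomogeneous (d j))
    {f : Fk ι ℂ} (hf : f ∈ RR P) (e : ℕ) : homogeneousComponent e f ∈ RR P := by
  have key : ∀ f ∈ RR P, ∀ e, homogeneousComponent e f ∈ RR P := by
    intro f hf
    induction hf using Algebra.adjoin_induction with
    | mem x hx =>
      intro e
      obtain ⟨j, n, rfl⟩ := hx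
      have h2 : (D n (emb (P j))).IsHomogeneous (d j) := by
        refine D_isHomogeneous ?_ n
        exact (hd j).rename_isHomogeneous
      rw [homogeneousComponent_of_mem ((mem_homogeneousSubmodule _ _).mpr h2)]
      split_ifs
      · exact Algebra.subset_adjoin ⟨j, n, rfl⟩
      · exact Subalgebra.zero_mem _
    | algebraMap r =>
      intro e
      have : algebraMap ℂ (Fk ι ℂ) r = C r := rfl
      rw [this, homogeneousComponent_of_mem ((mem_homogeneousSubmodule _ _).mpr (isHomogeneous_C _ r))]
      split_ifs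
      · exact Subalgebra.algebraMap_mem _ r
      · exact Subalgebra.zero_mem _
    | add x y _ _ hx hy => intro e; rw [map_add]; exact Subalgebra.add_mem _ (hx e) (hy e)
    | mul x y _ _ hx hy =>
      intro e
      rw [hc_mul]
      refine Subalgebra.sum_mem _ fun i _ => Subalgebra.sum_mem _ fun j _ => ?_
      split_ifs
      · exact Subalgebra.mul_mem _ (hx _) (hy _)
      · exact Subalgebra.zero_mem _
  exact key f hf e

/-- the weights of the generators of `RR P` -/
def gw (d : ι → ℕ) (q : ι × ℕ) : ℕ := d q.1 + q.2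

theorem RR_eq_range (P : ι → MvPolynomial ι ℂ) :
    RR P = (aeval fun p : ι × ℕ => D p.2 (emb (P p.1)) : Fk ι ℂ →ₐ[ℂ] Fk ι ℂ).range := by
  unfold RR
  rw [← Algebra.adjoin_range_eq_range_aeval]
  congr 1
  ext g
  constructor
  · rintro ⟨j, n, rfl⟩
    exact ⟨(j, n), rfl⟩
  · rintro ⟨⟨j, n⟩, rfl⟩
    exact ⟨j, n, rfl⟩

/-- the image of the elements of weight `N` -/
theorem map_wh {P : ι → MvPolynomial ι ℂ} {d : ι → ℕ} (hd : ∀ j, (P j).IsHomogeneous (d j))
    (N : ℕ) :
    (weightedHomogeneousSubmodule ℂ (gw d) N).map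
      (aeval fun p : ι × ℕ => D p.2 (emb (P p.1)) : Fk ι ℂ →ₐ[ℂ] Fk ι ℂ).toLinearMap =
      Subalgebra.toSubmodule (RR P) ⊓ WtN ι ℂ N := by
  classical
  have hgen : ∀ p : ι × ℕ, IsWeightedHomogeneous cw (D p.2 (emb (P p.1))) (gw d p) := fun p =>
    D_wh (emb_wh (hd p.1)) p.2
  apply le_antisymm
  · rintro _ ⟨F, hF, rfl⟩
    refine ⟨?_, ?_⟩
    · rw [SetLike.mem_coe, Subalgebra.mem_toSubmodule, RR_eq_range]
      exact ⟨F, rfl⟩
    · rw [SetLike.mem_coe, mem_WtN]
      exact aeval_wh (gw d) cw _ hgen hF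
  · rintro f ⟨hf1, hf2⟩
    rw [SetLike.mem_coe, Subalgebra.mem_toSubmodule, RR_eq_range] at hf1
    rw [SetLike.mem_coe, mem_WtN] at hf2
    obtain ⟨F, rfl⟩ := hf1
    refine ⟨weightedHomogeneousComponent (gw d) N F,
      weightedHomogeneousComponent_mem _ _ _, ?_⟩
    -- components commute with the substitution
    have hcomp : ∀ G : Fk ι ℂ, weightedHomogeneousComponent cw N
        ((aeval fun p : ι × ℕ => D p.2 (emb (P p.1)) : Fk ι ℂ →ₐ[ℂ] Fk ι ℂ) G) =
        (aeval fun p : ι × ℕ => D p.2 (emb (P p.1)) : Fk ι ℂ →ₐ[ℂ] Fk ι ℂ)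
          (weightedHomogeneousComponent (gw d) N G) := by
      intro G
      rw [G.as_sum]
      simp only [map_sum]
      refine Finset.sum_congr rfl fun m _ => ?_
      have h1 : IsWeightedHomogeneous (gw d) (monomial m (coeff m G)) (Finsupp.weight (gw d) m) :=
        isWeightedHomogeneous_monomial _ _ _ rfl
      have h2 := aeval_wh (gw d) cw _ hgen h1
      by_cases hm : Finsupp.weight (gw d) m = N
      · rw [hm] at h1 h2
        rw [h1.weightedHomogeneousComponent_same, h2.weightedHomogeneousComponent_same]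
      · rw [h1.weightedHomogeneousComponent_ne N (Ne.symm hm),
          h2.weightedHomogeneousComponent_ne N (Ne.symm hm),
          map_zero]
    show (aeval fun p : ι × ℕ => D p.2 (emb (P p.1)) : Fk ι ℂ →ₐ[ℂ] Fk ι ℂ)
      (weightedHomogeneousComponent (gw d) N F) =
      (aeval fun p : ι × ℕ => D p.2 (emb (P p.1)) : Fk ι ℂ →ₐ[ℂ] Fk ι ℂ) F
    rw [← hcomp]
    exact hf2.weightedHomogeneousComponent_same

theorem finrank_RR {P : ι → MvPolynomial ι ℂ} {d : ι → ℕ} (hd : ∀ j, (P j).IsHomogeneous (d j))
    (hind : AlgebraicIndependent ℂ fun p : ι × ℕ => D p.2 (emb (P p.1))) (N : ℕ) :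
    Module.finrank ℂ (Subalgebra.toSubmodule (RR P) ⊓ WtN ι ℂ N : Submodule ℂ (Fk ι ℂ)) =
      cnt d N := by
  rw [← map_wh hd N]
  have hinj : Function.Injective
      (aeval fun p : ι × ℕ => D p.2 (emb (P p.1)) : Fk ι ℂ →ₐ[ℂ] Fk ι ℂ).toLinearMap := hind
  rw [← (Submodule.equivMapOfInjective _ hinj _).finrank_eq, finrank_wh]
  unfold cnt
  apply Nat.card_congr
  apply Equiv.subtypeEquivRight
  intro m
  rw [Finsupp.weight_apply]
  simp only [smul_eq_mul]
  rfl

end

theorem main : S_CHARimp := by
  classical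
  intro hSPW hDIM hE1 hSYM ι _ _ c hc P d hd hG p N hp
  obtain ⟨-, -, -, hW, hfin⟩ := hSPW ι c
  have hind := (hE1 ι c hc Finset.univ P hG).1
  have hdh : ∀ j, (P j).IsHomogeneous (d j) := fun j => (hd j).2
  rw [← finrank_RR hdh hind N]
  -- finite dimension
  have hfd : FiniteDimensional ℂ (WtN ι ℂ N) := by
    unfold WtN
    rw [weightedHomogeneousSubmodule_eq_finsupp_supported]
    have := (hfin N).to_subtype
    exact Module.Finite.of_basis (basisRestrictSupport ℂ
      {m : (ι × ℕ) →₀ ℕ | Finsupp.weight (fun p : ι × ℕ => p.2 + 1) m = N})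
  have hfd1 : FiniteDimensional ℂ
      (KerS c (p : ℂ) Set.univ ⊓ WtN ι ℂ N : Submodule ℂ (Fk ι ℂ)) :=
    Submodule.finiteDimensional_of_le inf_le_right
  have hfd2 : FiniteDimensional ℂ
      (Subalgebra.toSubmodule (RR P) ⊓ WtN ι ℂ N : Submodule ℂ (Fk ι ℂ)) :=
    Submodule.finiteDimensional_of_le inf_le_right
  have key : ∀ (d : ℕ) (f : Fk ι ℂ), f.IsHomogeneous d → homogeneousComponent d f = f := by
    intro d f hf
    rw [homogeneousComponent_of_mem ((mem_homogeneousSubmodule _ _).mpr hf), if_pos rfl]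
  apply le_antisymm
  · refine hDIM (ι × ℕ) _ _ hfd1 hfd2 ?_
    rintro e f ⟨hf1, hf2⟩ hfe
    have hh : (homogeneousComponent e f).IsHomogeneous e := homogeneousComponent_isHomogeneous e f
    refine ⟨homogeneousComponent e f, ⟨?_, ?_⟩, hh.totalDegree_le, key e _ hh⟩
    · rw [SetLike.mem_coe, Subalgebra.mem_toSubmodule]
      exact (hSYM ι c hc P hG p e hp _ hh).2 ⟨f, hf1, hfe, rfl⟩
    · rw [SetLike.mem_coe, mem_WtN] at hf2 ⊢
      exact hc_wh cw N e hf2
  · refine hDIM (ι × ℕ) _ _ hfd2 hfd1 ?_
    rintro e f ⟨hf1, hf2⟩ hfe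
    have hh : (homogeneousComponent e f).IsHomogeneous e := homogeneousComponent_isHomogeneous e f
    rw [SetLike.mem_coe, Subalgebra.mem_toSubmodule] at hf1
    rw [SetLike.mem_coe, mem_WtN] at hf2
    obtain ⟨a, ha1, ha2, ha3⟩ := (hSYM ι c hc P hG p e hp _ hh).1 (hc_mem_RR hdh hf1 e)
    refine ⟨weightedHomogeneousComponent cw N a, ⟨?_, ?_⟩, whc_totalDegree cw N e ha2, ?_⟩
    · exact hW ℂ (p : ℂ) Set.univ N a ha1
    · rw [SetLike.mem_coe, mem_WtN]
      exact weightedHomogeneousComponent_isWeightedHomogeneous N a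
    · rw [whc_hc, ha3]
      exact (hc_wh cw N e hf2).weightedHomogeneousComponent_same

end Pool.Agent.H391.SK.P_CHAR
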