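import Pool.Agent.H391.SK.StB

/-!
# Project SK, task CLO
-/

namespace Pool.Agent.H391.SK.P_CLO

open MvPolynomial Pool.Agent.H391.SK
open Pool.Agent.W345.VO (VertexAlgebra bc BorcherdsId)

set_option linter.unusedSectionVars false

variable {ι : Type} [Fintype ι] [DecidableEq ι]

/-- symbol predicate -/
def Sy (N : ℕ) (v : VV ι) (x : Fk ι ℂ) : Prop :=
  ∃ f : Fk ι ℂ, v = (f, 0) ∧ f.totalDegree ≤ N ∧ homogeneousComponent N f = x

theorem hc_X_mul (p : ι × ℕ) (f : Fk ι ℂ) (d : ℕ) :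
    homogeneousComponent (d + 1) (X p * f) = X p * homogeneousComponent d f := by
  ext s
  rw [coeff_homogeneousComponent, coeff_X_mul', coeff_X_mul']
  by_cases hp : p ∈ s.support
  · rw [if_pos hp, if_pos hp, coeff_homogeneousComponent]
    have h1 : s.degree = (s - Finsupp.single p 1).degree + 1 := by
      have h2 : s = (s - Finsupp.single p 1) + Finsupp.single p 1 := by
        refine (tsub_add_cancel_of_le ?_).symm
        rw [Finsupp.single_le_iff]
        exact Nat.one_le_iff_ne_zero.mpr (Finsupp.mem_support_iff.mp hp)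
      conv_lhs => rw [h2, map_add, Finsupp.degree_single]
    rw [h1]
    simp only [Nat.add_right_cancel_iff]
  · rw [if_neg hp, if_neg hp, ite_self]

theorem totalDegree_pderiv_le (p : ι × ℕ) {f : Fk ι ℂ} {e : ℕ} (h : f.totalDegree ≤ e + 1) :
    (pderiv p f).totalDegree ≤ e := by
  rw [← sum_homogeneousComponent f, map_sum]
  refine totalDegree_finsetSum_le fun i hi => ?_
  rw [Finset.mem_range] at hi
  exact ((homogeneousComponent_isHomogeneous i f).pderiv).totalDegree_le.trans (by omega)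

theorem Sy.add {N : ℕ} {v w : VV ι} {x y : Fk ι ℂ} (hv : Sy N v x) (hw : Sy N w y) :
    Sy N (v + w) (x + y) := by
  obtain ⟨f, rfl, h1, rfl⟩ := hv
  obtain ⟨g, rfl, h2, rfl⟩ := hw
  refine ⟨f + g, ?_, ?_, ?_⟩
  · rw [Prod.mk_add_mk, add_zero]
  · exact (totalDegree_add _ _).trans (max_le h1 h2)
  · rw [map_add]

theorem Sy.smul {N : ℕ} {v : VV ι} {x : Fk ι ℂ} (r : ℂ) (hv : Sy N v x) :
    Sy N (r • v) (r • x) := by
  obtain ⟨f, rfl, h1, rfl⟩ := hv
  refine ⟨r • f, ?_, ?_, ?_⟩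
  · rw [Prod.smul_mk, smul_zero]
  · exact (totalDegree_smul_le _ _).trans h1
  · rw [map_smul]

theorem Sy.zero (N : ℕ) : Sy N (0 : VV ι) 0 := ⟨0, rfl, by simp, by simp⟩

theorem Sy.sub {N : ℕ} {v w : VV ι} {x y : Fk ι ℂ} (hv : Sy N v x) (hw : Sy N w y) :
    Sy N (v - w) (x - y) := by
  have h := hv.add (hw.smul (-1))
  have e1 : v + (-1 : ℂ) • w = v - w := by rw [neg_one_smul, sub_eq_add_neg]
  have e2 : x + (-1 : ℂ) • y = x - y := by rw [neg_one_smul, sub_eq_add_neg]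
  rwa [e1, e2] at h

theorem Sy.sum {N : ℕ} {κ : Type} (s : Finset κ) (v : κ → VV ι) (x : κ → Fk ι ℂ)
    (h : ∀ i ∈ s, Sy N (v i) (x i)) : Sy N (∑ i ∈ s, v i) (∑ i ∈ s, x i) := by
  classical
  induction s using Finset.induction_on with
  | empty => simpa using Sy.zero N
  | insert a s ha ih =>
    rw [Finset.sum_insert ha, Finset.sum_insert ha]
    exact (h a (Finset.mem_insert_self _ _)).add
      (ih fun i hi => h i (Finset.mem_insert_of_mem hi))

theorem Sy.up {N : ℕ} {v : VV ι} {x : Fk ι ℂ} (hv : Sy N v x) : Sy (N + 1) v 0 := by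
  obtain ⟨f, rfl, h1, rfl⟩ := hv
  exact ⟨f, rfl, by omega, homogeneousComponent_eq_zero _ _ (by omega)⟩

theorem Sy.of_lt {N : ℕ} {f : Fk ι ℂ} (h : f.totalDegree < N) : Sy N ((f, 0) : VV ι) 0 :=
  ⟨f, rfl, h.le, homogeneousComponent_eq_zero _ _ h⟩

theorem hop_fst (c : Matrix ι ι ℤ) (ν : ℂ) (j : ι) (n : ℤ) (f : Fk ι ℂ) :
    hop c ν j n (f, 0) = (hF c ν 0 j n f, 0) := by
  unfold hop
  rw [LinearMap.prodMap_apply]
  simp only [map_zero]

theorem hF_neg (c : Matrix ι ι ℤ) (ν q : ℂ) (j : ι) (m : ℕ) (f : Fk ι ℂ) :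
    hF c ν q j (-(m : ℤ) - 1) f = X (j, m) * f := by
  unfold hF
  have h1 : (-(m : ℤ) - 1) < 0 := by omega
  have h2 : (-(-(m : ℤ) - 1) - 1).toNat = m := by omega
  rw [if_pos h1, h2, LinearMap.mulLeft_apply]

theorem hF_zero (c : Matrix ι ι ℤ) (ν : ℂ) (j : ι) (f : Fk ι ℂ) : hF c ν 0 j 0 f = 0 := by
  unfold hF
  rw [if_neg (lt_irrefl 0), if_pos rfl, zero_smul, LinearMap.zero_apply]

theorem hF_pos (c : Matrix ι ι ℤ) (ν q : ℂ) (j : ι) (m : ℕ) (f : Fk ι ℂ) :
    hF c ν q j ((m : ℤ) + 1) f = ∑ k, (ν * (((m : ℤ) + 1 : ℤ) : ℂ) * ((c j k : ℤ) : ℂ)) •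
      pderiv (k, m) f := by
  unfold hF
  have h1 : ¬ ((m : ℤ) + 1) < 0 := by omega
  have h2 : ¬ ((m : ℤ) + 1) = 0 := by omega
  have h3 : ((m : ℤ) + 1 - 1).toNat = m := by omega
  rw [if_neg h1, if_neg h2, h3, LinearMap.sum_apply]
  rfl

/-- the annihilation operators lower the degree -/
theorem hF_low (c : Matrix ι ι ℤ) (ν : ℂ) (j : ι) (i e : ℕ) {f : Fk ι ℂ}
    (h : f.totalDegree ≤ e + 1) : (hF c ν 0 j i f).totalDegree ≤ e := by
  rcases i with _ | m
  · rw [Nat.cast_zero, hF_zero]; simp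
  · push_cast
    rw [hF_pos]
    refine totalDegree_finsetSum_le fun k _ => ?_
    exact (totalDegree_smul_le _ _).trans (totalDegree_pderiv_le _ h)

theorem hF_low0 (c : Matrix ι ι ℤ) (ν : ℂ) (j : ι) (i : ℕ) {f : Fk ι ℂ}
    (h : f.totalDegree = 0) : hF c ν 0 j i f = 0 := by
  rcases i with _ | m
  · rw [Nat.cast_zero, hF_zero]
  · push_cast
    rw [hF_pos]
    refine Finset.sum_eq_zero fun k _ => ?_
    rw [totalDegree_eq_zero_iff_eq_C.mp h, pderiv_C, smul_zero]

theorem Sy.mulX (c : Matrix ι ι ℤ) (ν : ℂ) (j : ι) (m : ℕ) {N : ℕ} {v : VV ι} {x : Fk ι ℂ}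
    (hv : Sy N v x) : Sy (N + 1) (hop c ν j (-(m : ℤ) - 1) v) (X (j, m) * x) := by
  obtain ⟨f, rfl, h1, rfl⟩ := hv
  rw [hop_fst, hF_neg]
  refine ⟨X (j, m) * f, rfl, ?_, hc_X_mul _ _ _⟩
  refine (totalDegree_mul _ _).trans ?_
  rw [totalDegree_X]
  omega

/-- `D` with integral index -/
noncomputable def Dz (k : ℤ) (x : Fk ι ℂ) : Fk ι ℂ := if 0 ≤ k then D k.toNat x else 0

theorem Dz_add (k : ℤ) (x y : Fk ι ℂ) : Dz k (x + y) = Dz k x + Dz k y := by
  unfold Dz
  split_ifs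
  · exact D_add _ _ _
  · rw [add_zero]

theorem Dz_zero (k : ℤ) : Dz k (0 : Fk ι ℂ) = 0 := by
  have := Dz_add k (0 : Fk ι ℂ) 0
  simpa using this

theorem bc_zero (i : ℕ) : bc 0 i = if i = 0 then 1 else 0 := by
  unfold bc
  rw [Ring.choose_zero_ite]
  split_ifs <;> simp

theorem bc_neg (m i : ℕ) : (-1 : ℂ) ^ i * bc (-(m : ℤ) - 1) i = ((m + i).choose i : ℕ) := by
  unfold bc
  have h1 : (-(m : ℤ) - 1) = -((m : ℤ) + 1) := by ring
  have h2 : ((m : ℤ) + 1 + (i : ℤ) - 1) = ((m + i : ℕ) : ℤ) := by push_cast; ring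
  rw [h1, Ring.choose_neg, h2, Ring.choose_natCast]
  have h3 : (((Int.negOnePow (i : ℤ) • (((m + i).choose i : ℕ) : ℤ) : ℤ)) : ℂ) =
      (-1 : ℂ) ^ i * (((m + i).choose i : ℕ) : ℂ) := by
    rw [Units.smul_def, smul_eq_mul]
    push_cast
    congr 1
    rcases Nat.even_or_odd i with h | h
    · rw [Int.negOnePow_even _ (by exact_mod_cast h), h.neg_one_pow]; simp
    · rw [Int.negOnePow_odd _ (by exact_mod_cast h), h.neg_one_pow]; simp
  rw [h3, ← mul_assoc, ← mul_pow]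
  simp

/-- the symbol of `X (j, m) * a` -/
theorem Dz_X_mul (j : ι) (m : ℕ) (n : ℤ) (x : Fk ι ℂ) (M : ℕ) (hM : (-n).toNat ≤ M) :
    ∑ i ∈ Finset.range M, ((-1 : ℂ) ^ i * bc (-(m : ℤ) - 1) i) •
      (X (j, m + i) * Dz (-(n + i) - 1) x) = Dz (-n - 1) (X (j, m) * x) := by
  by_cases hn : 0 ≤ -n - 1
  · obtain ⟨N, hN⟩ := Int.eq_ofNat_of_zero_le hn
    have hn' : n = -(N : ℤ) - 1 := by omega
    subst hn'
    have hMN : N + 1 ≤ M := by omega
    have e1 : Dz (-(-(N : ℤ) - 1) - 1) (X (j, m) * x) = D N (X (j, m) * x) := by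
      unfold Dz
      rw [if_pos (by omega)]
      congr 1
      omega
    rw [e1, D_mul, Finset.Nat.sum_antidiagonal_eq_sum_range_succ
      (fun p q => D p (X (j, m)) * D q x) N]
    rw [← Finset.sum_subset (Finset.range_subset_range.mpr hMN)]
    · refine Finset.sum_congr rfl fun i hi => ?_
      rw [Finset.mem_range] at hi
      rw [D_X, bc_neg]
      have e2 : Dz (-(-(N : ℤ) - 1 + i) - 1) x = D (N - i) x := by
        unfold Dz
        rw [if_pos (by omega)]
        congr 1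
        omega
      rw [e2, smul_eq_C_mul]
      ring
    · intro i _ hi
      rw [Finset.mem_range, not_lt] at hi
      have e2 : Dz (-(-(N : ℤ) - 1 + i) - 1) x = 0 := by
        unfold Dz
        rw [if_neg (by omega)]
      rw [e2, mul_zero, smul_zero]
  · have e1 : ∀ y : Fk ι ℂ, Dz (-n - 1) y = 0 := by
      intro y
      unfold Dz
      rw [if_neg hn]
    rw [e1]
    refine Finset.sum_eq_zero fun i _ => ?_
    have e2 : Dz (-(n + i) - 1) x = 0 := by
      unfold Dz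
      rw [if_neg (by omega)]
    rw [e2, mul_zero, smul_zero]

/-- the statement proved by induction -/
def PP (A : VertexAlgebra (VV ι)) (a : Fk ι ℂ) (d : ℕ) : Prop :=
  ∀ (n : ℤ) (e : ℕ) (b : Fk ι ℂ), b.totalDegree ≤ e →
    Sy (d + e) (A.Y (a, 0) n (b, 0)) (Dz (-n - 1) (homogeneousComponent d a) *
      homogeneousComponent e b)

theorem PP_add {A : VertexAlgebra (VV ι)} {a a' : Fk ι ℂ} {d : ℕ} (h : PP A a d)
    (h' : PP A a' d) : PP A (a + a') d := by
  intro n e b hb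
  have h1 := (h n e b hb).add (h' n e b hb)
  have e1 : ((a + a', 0) : VV ι) = (a, 0) + (a', 0) := by rw [Prod.mk_add_mk, add_zero]
  rw [e1, map_add, Pi.add_apply, LinearMap.add_apply, map_add, Dz_add, add_mul]
  exact h1

theorem PP_zero {A : VertexAlgebra (VV ι)} {d : ℕ} : PP A 0 d := by
  intro n e b hb
  have e1 : ((0, 0) : VV ι) = 0 := rfl
  rw [e1, map_zero, Pi.zero_apply, LinearMap.zero_apply, map_zero, Dz_zero, zero_mul]
  exact Sy.zero _

theorem PP_C {A : VertexAlgebra (VV ι)} (h1 : A.one = (1, 0)) (r : ℂ) (d : ℕ) :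
    PP A (C r) d := by
  intro n e b hb
  have e1 : ((C r, 0) : VV ι) = r • A.one := by
    rw [h1, Prod.smul_mk, smul_zero, smul_eq_C_mul, mul_one]
  rw [e1, map_smul, Pi.smul_apply, LinearMap.smul_apply, A.one_left]
  rcases d with _ | d
  · rw [homogeneousComponent_zero, coeff_C, if_pos rfl, zero_add]
    have e2 : (C r : Fk ι ℂ) = r • 1 := by rw [smul_eq_C_mul, mul_one]
    by_cases hn : n = -1
    · subst hn
      rw [if_pos rfl]
      have e3 : Dz (-(-1) - 1) (C r : Fk ι ℂ) = C r := by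
        unfold Dz
        rw [if_pos (by norm_num)]
        exact D_zero_idx _
      rw [e3, ← smul_eq_C_mul]
      exact Sy.smul r ⟨b, rfl, hb, rfl⟩
    · rw [if_neg hn, smul_zero]
      have e3 : Dz (-n - 1) (C r : Fk ι ℂ) = 0 := by
        unfold Dz
        split_ifs with h
        · rw [e2, D_smul, D_one, if_neg (by omega), smul_zero]
        · rfl
      rw [e3, zero_mul]
      exact Sy.zero _
  · have e2 : homogeneousComponent (d + 1) (C r : Fk ι ℂ) = 0 :=
      homogeneousComponent_eq_zero _ _ (by rw [totalDegree_C]; omega)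
    rw [e2, Dz_zero, zero_mul]
    split_ifs
    · have := (Sy.of_lt (N := d + 1 + e) (f := b) (by omega)).smul r
      rwa [smul_zero] at this
    · rw [smul_zero]; exact Sy.zero _

/-- the induction step -/
theorem PP_step {A : VertexAlgebra (VV ι)} {c : Matrix ι ι ℤ} {ν : ℂ}
    (hX : ∀ j, A.Y (X (j, 0), 0) = hop c ν j) {a : Fk ι ℂ} {d : ℕ} (h : PP A a d)
    (j : ι) (m : ℕ) : PP A (X (j, m) * a) (d + 1) := by
  classical
  intro n e b hb
  have hB := A.borcherds (X (j, 0), 0) (a, 0) (b, 0) 0 n (-(m : ℤ) - 1)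
  rw [hX] at hB
  have hL : ∑ᶠ i : ℕ, bc 0 i • A.Y (hop c ν j (-(m : ℤ) - 1 + i) (a, 0)) (0 + n - i) (b, 0) =
      A.Y (X (j, m) * a, 0) n (b, 0) := by
    rw [finsum_eq_single _ 0]
    · rw [bc_zero, if_pos rfl, one_smul]
      simp only [Nat.cast_zero, add_zero, sub_zero, zero_add]
      rw [hop_fst, hF_neg]
    · intro i hi
      rw [bc_zero, if_neg hi, zero_smul]
  rw [hL] at hB
  rw [hB]
  obtain ⟨N1, hN1⟩ := A.trunc (a, 0) (b, 0)
  obtain ⟨N2, hN2⟩ := A.trunc (X (j, 0), 0) (b, 0)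
  rw [hX] at hN2
  set M : ℕ := max (max (N1 - n).toNat N2.toNat) (-n).toNat with hM
  rw [finsum_eq_sum_of_support_subset (s := Finset.range M)]
  swap
  · intro i hi
    rw [Finset.coe_range, Set.mem_Iio]
    by_contra hcon
    rw [not_lt] at hcon
    apply hi
    have h1 : N1 ≤ n + i := by omega
    have h2 : N2 ≤ 0 + (i : ℤ) := by omega
    simp only
    rw [hN1 _ h1, hN2 _ h2, map_zero, map_zero, smul_zero, sub_zero, smul_zero]
  rw [hc_X_mul, ← Dz_X_mul j m n _ M (by omega), Finset.sum_mul]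
  refine Sy.sum _ _ _ fun i _ => ?_
  rw [smul_mul_assoc]
  refine Sy.smul _ ?_
  have hs1 : Sy (d + 1 + e) (hop c ν j (0 + (-(m : ℤ) - 1) - i) (A.Y (a, 0) (n + i) (b, 0)))
      (X (j, m + i) * Dz (-(n + i) - 1) (homogeneousComponent d a) *
        homogeneousComponent e b) := by
    have h1 := (h (n + i) e b hb).mulX c ν j (m + i)
    have e1 : (0 + (-(m : ℤ) - 1) - i) = -((m + i : ℕ) : ℤ) - 1 := by push_cast; ring
    have e2 : d + 1 + e = d + e + 1 := by ring
    rw [e1, e2, mul_assoc]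
    exact h1
  have hs2 : Sy (d + 1 + e) (A.Y (a, 0) (n + (-(m : ℤ) - 1) - i) (hop c ν j (0 + i) (b, 0)))
      0 := by
    rw [zero_add, hop_fst]
    rcases e with _ | e
    · rw [hF_low0 c ν j i (by omega)]
      have e1 : ((0, 0) : VV ι) = 0 := rfl
      rw [e1, map_zero]
      exact Sy.zero _
    · have h1 := (h (n + (-(m : ℤ) - 1) - i) e _ (hF_low c ν j i e hb)).up.up
      have e2 : d + 1 + (e + 1) = d + e + 1 + 1 := by ring
      rw [e2]
      exact h1
  have hs3 := hs1.sub (hs2.smul ((-1 : ℂ) ^ (-(m : ℤ) - 1)))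
  rw [smul_zero, sub_zero] at hs3
  exact hs3

theorem PP_monomial {A : VertexAlgebra (VV ι)} {c : Matrix ι ι ℤ} {ν : ℂ}
    (h1 : A.one = (1, 0)) (hX : ∀ j, A.Y (X (j, 0), 0) = hop c ν j) (s : (ι × ℕ) →₀ ℕ) (r : ℂ) :
    ∀ d, (monomial s r).totalDegree ≤ d → PP A (monomial s r) d := by
  refine induction_on_monomial (motive := fun p : Fk ι ℂ => ∀ d, p.totalDegree ≤ d → PP A p d)
    (fun r d _ => PP_C h1 r d) ?_ s r
  intro p q ih d hd
  by_cases hp : p = 0
  · subst hp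
    rw [zero_mul]; exact PP_zero
  · rw [totalDegree_mul_of_isDomain hp (X_ne_zero q), totalDegree_X] at hd
    obtain ⟨d, rfl⟩ : ∃ d', d = d' + 1 := ⟨d - 1, by omega⟩
    rw [mul_comm]
    exact PP_step hX (ih d (by omega)) q.1 q.2

theorem PP_all {A : VertexAlgebra (VV ι)} {c : Matrix ι ι ℤ} {ν : ℂ}
    (h1 : A.one = (1, 0)) (hX : ∀ j, A.Y (X (j, 0), 0) = hop c ν j) (a : Fk ι ℂ) (d : ℕ)
    (hd : a.totalDegree ≤ d) : PP A a d := by
  classical
  have key : ∀ s : Finset ((ι × ℕ) →₀ ℕ), s ⊆ a.support →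
      PP A (∑ m ∈ s, monomial m (coeff m a)) d := by
    intro s
    induction s using Finset.induction_on with
    | empty => intro _; rw [Finset.sum_empty]; exact PP_zero
    | insert m s hm ih =>
      intro hs
      rw [Finset.sum_insert hm]
      refine PP_add ?_ (ih fun x hx => hs (Finset.mem_insert_of_mem hx))
      refine PP_monomial h1 hX _ _ d ?_
      have hm' : m ∈ a.support := hs (Finset.mem_insert_self _ _)
      refine (totalDegree_monomial_le _ _).trans ?_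
      exact (le_totalDegree hm').trans hd
  have := key a.support (Finset.Subset.refl _)
  rwa [← a.as_sum] at this

theorem main : S_CLOimp := by
  intro hREL hVA ι _ _ c hc ν I a b d e n ha hb had hbe
  obtain ⟨A, hone, hX, hE⟩ := hVA hREL ι c hc ν
  obtain ⟨f, hf1, hf2, hf3⟩ := PP_all hone hX a d had (-(n : ℤ) - 1) e b hbe
  refine ⟨f, ?_, hf2, ?_⟩
  · unfold KerS at ha hb ⊢
    simp only [Submodule.mem_iInf, LinearMap.mem_ker] at ha hb ⊢
    intro i hi
    have hEop : ∀ x : Fk ι ℂ, Eop c ν i 0 (x, 0) = (0, Pi.single i (Scr c ν i x)) := by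
      intro x
      unfold Eop Scr
      simp only [LinearMap.comp_apply, LinearMap.fst_apply, LinearMap.inr_apply,
        LinearMap.coe_single, neg_zero, zero_sub]
    have hE0 : ∀ x : Fk ι ℂ, Scr c ν i x = 0 → Eop c ν i 0 (x, 0) = 0 := by
      intro x hx
      rw [hEop, hx, Pi.single_zero]; rfl
    have hB := A.borcherds (0, Pi.single i 1) (a, 0) (b, 0) 0 (-(n : ℤ) - 1) 0
    rw [hE] at hB
    rw [finsum_eq_single _ 0 (by
      intro k hk
      rw [bc_zero, if_neg hk, zero_smul]), finsum_eq_single _ 0 (by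
      intro k hk
      rw [bc_zero, if_neg hk, mul_zero, zero_smul])] at hB
    simp only [bc_zero, if_true, one_smul, Nat.cast_zero, add_zero, sub_zero, pow_zero,
      one_mul, zpow_zero] at hB
    rw [hE0 a (ha i hi), hE0 b (hb i hi), map_zero, map_zero, Pi.zero_apply,
      LinearMap.zero_apply, sub_zero, hf1, hEop] at hB
    have h2 := congrArg Prod.snd hB
    have h3 := congrFun h2 i
    simpa using h3.symm
  · rw [hf3]
    have e1 : (-(-(n : ℤ) - 1) - 1) = (n : ℤ) := by ring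
    rw [e1]
    unfold Dz
    rw [if_pos (by omega), Int.toNat_natCast]

end Pool.Agent.H391.SK.P_CLO
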