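import Pool.Agent.H391.SK.StF
import Pool.Agent.H391.SK.AsmC

namespace Pool.Agent.H391.SK.P_DEQ

open MvPolynomial Pool.Agent.H391.SK

variable {ι : Type} [Fintype ι] [DecidableEq ι]

theorem comm_comp {σ : Type} (w : σ → ℕ) (N d : ℕ) (f : MvPolynomial σ ℂ) :
    homogeneousComponent d (weightedHomogeneousComponent w N f) =
      weightedHomogeneousComponent w N (homogeneousComponent d f) := by
  classical
  ext m
  rw [coeff_homogeneousComponent, coeff_weightedHomogeneousComponent,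
    coeff_weightedHomogeneousComponent, coeff_homogeneousComponent]
  split_ifs <;> rfl

theorem totalDegree_whc_le {σ : Type} (w : σ → ℕ) (N : ℕ) (f : MvPolynomial σ ℂ) :
    (weightedHomogeneousComponent w N f).totalDegree ≤ f.totalDegree := by
  classical
  refine totalDegree_le_of_support_subset ?_
  intro m hm
  rw [mem_support_iff, coeff_weightedHomogeneousComponent] at hm
  rw [mem_support_iff]
  intro h
  apply hm
  rw [h, ite_self]

omit [Fintype ι] [DecidableEq ι] in
theorem finDim (N : ℕ)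
    (h : {m : (ι × ℕ) →₀ ℕ | Finsupp.weight (fun p : ι × ℕ => p.2 + 1) m = N}.Finite) :
    FiniteDimensional ℂ (WtN ι ℂ N) := by
  classical
  have hle : WtN ι ℂ N ≤ Submodule.span ℂ
      ((fun m => (monomial m (1 : ℂ) : Fk ι ℂ)) ''
        {m : (ι × ℕ) →₀ ℕ | Finsupp.weight (fun p : ι × ℕ => p.2 + 1) m = N}) := by
    intro f hf
    rw [f.as_sum]
    refine Submodule.sum_mem _ fun m hm => ?_
    have h1 : (monomial m (coeff m f) : Fk ι ℂ) = coeff m f • monomial m 1 := by
      rw [smul_monomial, smul_eq_mul, mul_one]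
    rw [h1]
    refine Submodule.smul_mem _ _ (Submodule.subset_span ⟨m, ?_, rfl⟩)
    exact (mem_weightedHomogeneousSubmodule _ _ _ _).mp hf (mem_support_iff.mp hm)
  have : FiniteDimensional ℂ (Submodule.span ℂ
      ((fun m => (monomial m (1 : ℂ) : Fk ι ℂ)) ''
        {m : (ι × ℕ) →₀ ℕ | Finsupp.weight (fun p : ι × ℕ => p.2 + 1) m = N})) :=
    FiniteDimensional.span_of_finite ℂ (h.image _)
  exact Submodule.finiteDimensional_of_le hle

theorem le_aux (hR1 : S_R1) (hALL : S_ALL) (hSPW : S_SPW) (hDIM : S_DIM)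
    (c : Matrix ι ι ℤ) (hc : IsADE c) (p q N : ℕ) (hp : 1 ≤ p) (hq : 1 ≤ q) :
    Module.finrank ℂ (KerS c (p : ℂ) Set.univ ⊓ WtN ι ℂ N : Submodule ℂ (Fk ι ℂ)) ≤
      Module.finrank ℂ (KerS c (q : ℂ) Set.univ ⊓ WtN ι ℂ N : Submodule ℂ (Fk ι ℂ)) := by
  classical
  obtain ⟨-, -, -, h4, h5⟩ := hSPW ι c
  have : FiniteDimensional ℂ (WtN ι ℂ N) := finDim N (h5 N)
  refine hDIM (ι × ℕ) _ _ (Submodule.finiteDimensional_of_le inf_le_right)
    (Submodule.finiteDimensional_of_le inf_le_right) ?_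
  intro d f hf hd
  have hf1 := hf.1
  have hf2 : f ∈ WtN ι ℂ N := hf.2
  have hB : ∀ i, homogeneousComponent d f ∈ B c (al i) := fun i =>
    hR1 ι c hc p hp i d f (mem_KerS.mp hf1 i (Set.mem_univ _)) hd
  obtain ⟨-, a, ha, had, hax⟩ := hALL ι c hc q hq d (homogeneousComponent d f)
    (homogeneousComponent_isHomogeneous d f) hB
  have hfN : weightedHomogeneousComponent (fun p : ι × ℕ => p.2 + 1) N f = f := by
    ext m
    rw [coeff_weightedHomogeneousComponent]
    split_ifs with hm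
    · rfl
    · exact (IsWeightedHomogeneous.coeff_eq_zero
        ((mem_weightedHomogeneousSubmodule _ _ _ _).mp hf2) m hm).symm
  refine ⟨weightedHomogeneousComponent (fun p : ι × ℕ => p.2 + 1) N a, ⟨?_, ?_⟩, ?_, ?_⟩
  · exact h4 ℂ (q : ℂ) Set.univ N a ha
  · exact (mem_weightedHomogeneousSubmodule _ _ _ _).mpr
      (weightedHomogeneousComponent_isWeightedHomogeneous _ _)
  · exact (totalDegree_whc_le _ _ _).trans had
  · rw [comm_comp, hax, ← comm_comp, hfN]

theorem main : S_DEQimp := by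
  intro hR1 hALL hSPW hDIM ι _ _ c hc p q N hp hq
  exact le_antisymm (le_aux hR1 hALL hSPW hDIM c hc p q N hp hq)
    (le_aux hR1 hALL hSPW hDIM c hc q p N hq hp)

end Pool.Agent.H391.SK.P_DEQ
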