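import Pool.Agent.H391.SK.StF

/-!
# Project SK: comparison of dimensions by symbols (task DIM)
-/

set_option autoImplicit false

namespace Pool.Agent.H391.SK.P_DIM

open MvPolynomial

variable {σ : Type}

/-- polynomials of degree less than `d` -/
noncomputable def G (σ : Type) (d : ℕ) : Submodule ℂ (MvPolynomial σ ℂ) :=
  restrictSupport ℂ {m | m.degree < d}

theorem mem_G {d : ℕ} {f : MvPolynomial σ ℂ} :
    f ∈ G σ d ↔ ∀ m, coeff m f ≠ 0 → m.degree < d := by
  unfold G
  rw [mem_restrictSupport_iff]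
  constructor
  · intro h m hm
    exact h (by simpa using hm)
  · intro h m hm
    exact h m (by simpa using hm)

theorem G_mono {d e : ℕ} (h : d ≤ e) : G σ d ≤ G σ e := by
  intro f hf
  rw [mem_G] at hf ⊢
  exact fun m hm => (hf m hm).trans_le h

theorem mem_G_of_deg {d : ℕ} {f : MvPolynomial σ ℂ} (h : f.totalDegree ≤ d) :
    f ∈ G σ (d + 1) := by
  rw [mem_G]
  intro m hm
  have h1 := le_totalDegree (mem_support_iff.2 hm)
  have h2 : m.degree = m.sum fun _ e => e := rfl
  omega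

theorem deg_of_mem_G {d : ℕ} {f : MvPolynomial σ ℂ} (h : f ∈ G σ (d + 1)) :
    f.totalDegree ≤ d := by
  rw [mem_G] at h
  rw [totalDegree, Finset.sup_le_iff]
  intro m hm
  have h1 := h m (mem_support_iff.1 hm)
  have h2 : m.degree = m.sum fun _ e => e := rfl
  omega

theorem ker_eq (d : ℕ) {f : MvPolynomial σ ℂ} :
    (f ∈ G σ (d + 1) ∧ homogeneousComponent d f = 0) ↔ f ∈ G σ d := by
  constructor
  · rintro ⟨h1, h2⟩
    rw [mem_G] at h1 ⊢
    intro m hm
    have h3 := h1 m hm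
    rcases Nat.lt_succ_iff_lt_or_eq.1 h3 with h | h
    · exact h
    · exfalso
      apply hm
      have h4 := congrArg (coeff m) h2
      rw [coeff_homogeneousComponent, if_pos h, coeff_zero] at h4
      exact h4
  · intro h
    refine ⟨G_mono (Nat.le_succ d) h, ?_⟩
    ext m
    rw [coeff_homogeneousComponent, coeff_zero]
    split_ifs with h1
    · by_contra h2
      have h3 := mem_G.1 h m h2
      omega
    · rfl

theorem step (K : Submodule ℂ (MvPolynomial σ ℂ)) [FiniteDimensional ℂ K] (d : ℕ) :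
    Module.finrank ℂ (K ⊓ G σ (d + 1) : Submodule ℂ (MvPolynomial σ ℂ)) =
      Module.finrank ℂ ((K ⊓ G σ (d + 1)).map (homogeneousComponent d)) +
      Module.finrank ℂ (K ⊓ G σ d : Submodule ℂ (MvPolynomial σ ℂ)) := by
  have : FiniteDimensional ℂ (K ⊓ G σ (d + 1) : Submodule ℂ (MvPolynomial σ ℂ)) :=
    Submodule.finiteDimensional_of_le inf_le_left
  have h := LinearMap.finrank_range_add_finrank_ker
    ((homogeneousComponent d : MvPolynomial σ ℂ →ₗ[ℂ] MvPolynomial σ ℂ).domRestrict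
      (K ⊓ G σ (d + 1)))
  rw [LinearMap.range_domRestrict] at h
  rw [← h]
  congr 1
  have e : (K ⊓ G σ d : Submodule ℂ (MvPolynomial σ ℂ)) =
      (LinearMap.ker ((homogeneousComponent d : MvPolynomial σ ℂ →ₗ[ℂ] MvPolynomial σ ℂ).domRestrict
        (K ⊓ G σ (d + 1)))).map (K ⊓ G σ (d + 1)).subtype := by
    ext f
    constructor
    · rintro ⟨hK, hG⟩
      have h1 := (ker_eq d).2 hG
      exact ⟨⟨f, hK, h1.1⟩, h1.2, rfl⟩
    · rintro ⟨⟨g, hK, hG⟩, h1, rfl⟩
      exact ⟨hK, (ker_eq d).1 ⟨hG, h1⟩⟩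
  rw [e]
  exact (LinearEquiv.finrank_eq (Submodule.equivMapOfInjective (K ⊓ G σ (d + 1)).subtype
    (Submodule.injective_subtype _) _))

theorem bounded (K : Submodule ℂ (MvPolynomial σ ℂ)) [FiniteDimensional ℂ K] :
    ∃ d, K ≤ G σ d := by
  obtain ⟨s, hs⟩ : K.FG := Module.Finite.iff_fg.1 inferInstance
  refine ⟨s.sup totalDegree + 1, ?_⟩
  rw [← hs, Submodule.span_le]
  intro f hf
  exact mem_G_of_deg (Finset.le_sup (f := totalDegree) hf)

theorem main : S_DIM := by
  intro σ K K' hK hK' h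
  have key : ∀ d, Module.finrank ℂ (K ⊓ G σ d : Submodule ℂ (MvPolynomial σ ℂ)) ≤
      Module.finrank ℂ (K' ⊓ G σ d : Submodule ℂ (MvPolynomial σ ℂ)) := by
    intro d
    induction d with
    | zero =>
      have h0 : (K ⊓ G σ 0 : Submodule ℂ (MvPolynomial σ ℂ)) = ⊥ := by
        rw [eq_bot_iff]
        rintro f ⟨-, hf⟩
        rw [Submodule.mem_bot]
        ext m
        rw [coeff_zero]
        by_contra hm
        exact absurd (mem_G.1 hf m hm) (Nat.not_lt_zero _)
      rw [h0, finrank_bot]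
      exact Nat.zero_le _
    | succ d ih =>
      rw [step K d, step K' d]
      refine Nat.add_le_add ?_ ih
      have : FiniteDimensional ℂ (K' ⊓ G σ (d + 1) : Submodule ℂ (MvPolynomial σ ℂ)) :=
        Submodule.finiteDimensional_of_le inf_le_left
      apply Submodule.finrank_mono
      rintro _ ⟨f, ⟨hf1, hf2⟩, rfl⟩
      obtain ⟨f', h1, h2, h3⟩ := h d f hf1 (deg_of_mem_G hf2)
      exact ⟨f', ⟨h1, mem_G_of_deg h2⟩, h3⟩
  obtain ⟨d, hd⟩ := bounded K
  have h1 := key d
  rw [inf_eq_left.2 hd] at h1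
  exact h1.trans (Submodule.finrank_mono inf_le_left)

end Pool.Agent.H391.SK.P_DIM
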