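import Pool.Agent.H391.SK.StE

/-!
# SK-EQ: compatibility with the Weyl group
-/

set_option linter.unusedSectionVars false

namespace Pool.Agent.H391.SK.P_EQ

open MvPolynomial

variable {ι : Type} [Fintype ι] [DecidableEq ι]

/-- The positive roots made negative. -/
def Nw (c : Matrix ι ι ℤ) (w : (ι → ℤ) ≃ₗ[ℤ] (ι → ℤ)) : Set (ι → ℤ) :=
  {β | β ∈ PR c Set.univ ∧ -(w β) ∈ PR c Set.univ}

theorem PR_ne_zero {c : Matrix ι ι ℤ} {I : Set ι} {β : ι → ℤ} (h : β ∈ PR c I) : β ≠ 0 := by
  rintro rfl
  have := h.1
  simp [form] at this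

theorem PR_not_neg {c : Matrix ι ι ℤ} {I : Set ι} {β : ι → ℤ} (h : β ∈ PR c I)
    (h' : -β ∈ PR c I) : False := by
  apply PR_ne_zero h
  funext k
  have h1 := h.2.1 k
  have h2 := h'.2.1 k
  simp only [Pi.neg_apply] at h2
  show β k = 0
  omega

theorem al_mem_PR {c : Matrix ι ι ℤ} (hc : IsADE c) (i : ι) : al i ∈ PR c Set.univ := by
  refine ⟨hc.form_al i, ?_, fun k hk => absurd (Set.mem_univ k) hk⟩
  intro k
  simp only [al, Pi.single_apply]
  split_ifs <;> norm_num

theorem PR_sum_pos {c : Matrix ι ι ℤ} {I : Set ι} {β : ι → ℤ} (h : β ∈ PR c I) :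
    1 ≤ ∑ k, β k := by
  have h0 : 0 ≤ ∑ k, β k := Finset.sum_nonneg fun k _ => h.2.1 k
  rcases h0.lt_or_eq with h1 | h1
  · exact h1
  · exfalso
    apply PR_ne_zero h
    have := (Finset.sum_eq_zero_iff_of_nonneg fun k _ => h.2.1 k).mp h1.symm
    funext k
    exact this k (Finset.mem_univ k)

theorem al_sum (i : ι) : ∑ k, al i k = 1 := by
  simp [al]

theorem sr_al {c : Matrix ι ι ℤ} (hc : IsADE c) (i : ι) : sr c (al i) (al i) = -al i := by
  rw [sr_apply, hc.form_al, two_smul]
  abel

/-- A simple reflection reduces the length. -/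
theorem ncard_lt (hR : S_ROOT) {c : Matrix ι ι ℤ} (hc : IsADE c)
    {w : (ι → ℤ) ≃ₗ[ℤ] (ι → ℤ)} {j : ι} (hj : -(w (al j)) ∈ PR c Set.univ) :
    (Nw c (w * sre (hc.form_al j))).ncard < (Nw c w).ncard := by
  obtain ⟨-, hfin, -, -, h5, -⟩ := hR ι c hc
  have hfinN : (Nw c w).Finite := (hfin Set.univ).subset fun β hβ => hβ.1
  have hmem : al j ∈ Nw c w := ⟨al_mem_PR hc j, hj⟩
  have hsub : (fun β => sr c (al j) β) '' (Nw c (w * sre (hc.form_al j))) ⊆ Nw c w \ {al j} := by
    rintro _ ⟨β, ⟨hβ1, hβ2⟩, rfl⟩
    have hβ2' : -(w (sr c (al j) β)) ∈ PR c Set.univ := hβ2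
    have hne : β ≠ al j := by
      rintro rfl
      rw [sr_al hc, map_neg, neg_neg] at hβ2'
      exact PR_not_neg hβ2' hj
    refine ⟨⟨h5 Set.univ j (Set.mem_univ j) β hβ1 hne, hβ2'⟩, ?_⟩
    intro h
    rw [Set.mem_singleton_iff] at h
    have h1 : β = -al j := by
      rw [← sr_sr (hc.form_al j) β]
      have h' : sr c (al j) β = al j := h
      rw [h', sr_al hc]
    rw [h1] at hβ1
    exact PR_not_neg (al_mem_PR hc j) hβ1
  have hinj : Function.Injective (fun β => sr c (al j) β) := by
    intro a b hab
    have hab' : sr c (al j) a = sr c (al j) b := hab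
    rw [← sr_sr (hc.form_al j) a, hab', sr_sr]
    exact hc.form_al j
  calc (Nw c (w * sre (hc.form_al j))).ncard
      = ((fun β => sr c (al j) β) '' (Nw c (w * sre (hc.form_al j)))).ncard :=
        (Set.ncard_image_of_injective _ hinj).symm
    _ ≤ (Nw c w \ {al j}).ncard := Set.ncard_le_ncard hsub (hfinN.subset Set.sdiff_subset)
    _ < (Nw c w).ncard := Set.ncard_sdiff_singleton_lt_of_mem hmem hfinN

theorem sre_inv {c : Matrix ι ι ℤ} (hc : IsADE c) (j : ι) :
    (sre (hc.form_al j))⁻¹ = sre (hc.form_al j) := by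
  refine inv_eq_of_mul_eq_one_left ?_
  exact LinearEquiv.ext fun v => sr_sr (hc.form_al j) v

theorem exists_min {c : Matrix ι ι ℤ} (I : Set ι) (w : (ι → ℤ) ≃ₗ[ℤ] (ι → ℤ)) :
    ∃ v ∈ Wg c I, ∀ v' ∈ Wg c I, (Nw c (w * v⁻¹)).ncard ≤ (Nw c (w * v'⁻¹)).ncard := by
  set S : Set ℕ := {n | ∃ v ∈ Wg c I, (Nw c (w * v⁻¹)).ncard = n} with hS
  have hne : S.Nonempty := ⟨_, 1, Subgroup.one_mem _, rfl⟩
  obtain ⟨v, hv, hv'⟩ := Nat.sInf_mem hne
  refine ⟨v, hv, fun v' hv'' => ?_⟩
  rw [hv']
  exact Nat.sInf_le ⟨v', hv'', rfl⟩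

theorem main : S_EQ := by
  intro hR hL ι _ _ c hc N f hF
  have hR' := hR ι c hc
  obtain ⟨-, hfin, -, h4, h5, h6, -⟩ := hR'
  have key : ∀ (n : ℕ) (w : (ι → ℤ) ≃ₗ[ℤ] (ι → ℤ)), w ∈ Wg c Set.univ → (Nw c w).ncard = n →
      ∀ i k : ι, w (al i) = al k →
        act ((w : (ι → ℤ) ≃ₗ[ℤ] (ι → ℤ)) : (ι → ℤ) →ₗ[ℤ] (ι → ℤ)) (f i) - f k ∈ B c (al k) := by
    intro n
    induction n using Nat.strong_induction_on with
    | _ n ih =>
      intro w hw hn i k hik
      by_cases hw1 : w = 1
      · subst hw1
        have h1 : al i = al k := hik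
        have h2 : i = k := by
          by_contra hne
          have h3 := congrFun h1 i
          simp [al, hne] at h3
        subst h2
        rw [act_one, sub_self]
        exact Subalgebra.zero_mem _
      · -- a simple root made negative
        obtain ⟨j, hj⟩ : ∃ j, w (al j) ∉ PR c Set.univ := by
          by_contra hcon
          push Not at hcon
          exact hw1 (hL hR ι c hc Set.univ w hw fun k _ => hcon k)
        have hjneg : -(w (al j)) ∈ PR c Set.univ :=
          (h6 Set.univ w hw (al j) (al_mem_PR hc j)).resolve_left hj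
        obtain ⟨v, hv, hmin⟩ := exists_min (c := c) ({i, j} : Set ι) w
        set w' := w * v⁻¹ with hw'
        have hvu : v ∈ Wg c Set.univ := Wg_mono (Set.subset_univ _) hv
        have hw'u : w' ∈ Wg c Set.univ :=
          Subgroup.mul_mem _ hw (Subgroup.inv_mem _ hvu)
        have hwv : w = w' * v := by rw [hw']; group
        have hpos : ∀ l ∈ ({i, j} : Set ι), w' (al l) ∈ PR c Set.univ := by
          intro l hl
          by_contra hcon
          have hneg : -(w' (al l)) ∈ PR c Set.univ :=
            (h6 Set.univ w' hw'u (al l) (al_mem_PR hc l)).resolve_left hcon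
          have h1 := ncard_lt hR hc hneg
          have h2 := hmin (sre (hc.form_al l) * v)
            (Subgroup.mul_mem _ (sre_mem_Wg hc hl) hv)
          have h3 : w * (sre (hc.form_al l) * v)⁻¹ = w' * sre (hc.form_al l) := by
            rw [mul_inv_rev, sre_inv hc, ← mul_assoc]
          rw [h3] at h2
          omega
        have hlt : (Nw c w').ncard < n := by
          have h1 := ncard_lt hR hc hjneg
          have h2 := hmin (sre (hc.form_al j))
            (sre_mem_Wg hc (Set.mem_insert_of_mem _ (Set.mem_singleton j)))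
          rw [sre_inv hc] at h2
          omega
        -- the root `v (al i)`
        have hij : i ≠ j := by
          rintro rfl
          exact hj (hik ▸ al_mem_PR hc k)
        have hvi : v (al i) = (v (al i) i) • al i + (v (al i) j) • al j := by
          funext l
          by_cases hli : l = i
          · subst hli
            simp [al, hij]
          · by_cases hlj : l = j
            · subst hlj
              simp [al, Ne.symm hij]
            · have h1 := Wg_supp hc hv (al i) (k := l) (by simp [hli, hlj])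
              rw [h1]
              simp [al, hli, hlj]
        have hnorm : form c (v (al i)) (v (al i)) = 2 := by
          rw [form_Wg hc hv, hc.form_al]
        have hsum : ((v (al i)) i) • w' (al i) + ((v (al i)) j) • w' (al j) = al k := by
          rw [← map_smul, ← map_smul, ← map_add, ← hvi, ← hik, hwv]
          rfl
        set a := (v (al i)) i with ha
        set b := (v (al i)) j with hb
        have hPi := hpos i (Set.mem_insert _ _)
        have hPj := hpos j (Set.mem_insert_of_mem _ (Set.mem_singleton j))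
        have hab : 0 ≤ a ∧ 0 ≤ b := by
          rcases h4 _ hnorm with h | h
          · exact ⟨h i, h j⟩
          · exfalso
            have h1 := h i
            have h2 := h j
            have h3 := congrFun hsum k
            have h4' : al k k = (1 : ℤ) := by simp [al]
            rw [h4'] at h3
            simp only [Pi.add_apply, Pi.smul_apply, smul_eq_mul] at h3
            have h5' := hPi.2.1 k
            have h6' := hPj.2.1 k
            rw [← ha] at h1
            rw [← hb] at h2
            nlinarith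
        have hS : a * ∑ l, (w' (al i)) l + b * ∑ l, (w' (al j)) l = 1 := by
          have h1 : ∑ l, (a • w' (al i) + b • w' (al j)) l = 1 := by
            rw [hsum, al_sum]
          simpa only [Pi.add_apply, Pi.smul_apply, smul_eq_mul, Finset.sum_add_distrib,
            ← Finset.mul_sum] using h1
        have hSi := PR_sum_pos hPi
        have hSj := PR_sum_pos hPj
        have hcases : (a = 1 ∧ b = 0) ∨ (a = 0 ∧ b = 1) := by
          obtain ⟨ha0, hb0⟩ := hab
          have h1 : a ≤ a * ∑ l, (w' (al i)) l := by nlinarith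
          have h2 : b ≤ b * ∑ l, (w' (al j)) l := by nlinarith
          have h3 : a + b ≤ 1 := by linarith
          have h4' : ¬ (a = 0 ∧ b = 0) := by
            rintro ⟨h, h'⟩
            rw [h, h'] at hS
            simp at hS
          omega
        -- the index `i'`
        obtain ⟨i', hi'mem, hvi'⟩ : ∃ i' ∈ ({i, j} : Set ι), v (al i) = al i' := by
          rcases hcases with ⟨h, h'⟩ | ⟨h, h'⟩
          · refine ⟨i, Set.mem_insert _ _, ?_⟩
            rw [hvi, h, h', one_smul, zero_smul, add_zero]
          · refine ⟨j, Set.mem_insert_of_mem _ (Set.mem_singleton j), ?_⟩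
            rw [hvi, h, h', one_smul, zero_smul, zero_add]
        have hw'i' : w' (al i') = al k := by
          rw [← hvi', ← hik, hwv]
          rfl
        obtain ⟨g, hgi, hgj, -, hgi', hgj'⟩ := hF.2 i j
        have hvg : act ((v : (ι → ℤ) ≃ₗ[ℤ] (ι → ℤ)) : (ι → ℤ) →ₗ[ℤ] (ι → ℤ)) g = g := by
          refine (act_inv_iff hc ({i, j} : Set ι) g).mp ?_ v hv
          intro l hl
          rcases hl with rfl | hl
          · exact hgi
          · rw [Set.mem_singleton_iff] at hl
            subst hl
            exact hgj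
        have hgl : g - f i' ∈ B c (al i') := by
          rcases hi'mem with h | h
          · rw [h]; exact hgi'
          · rw [Set.mem_singleton_iff] at h
            rw [h]; exact hgj'
        have h1 : act ((v : (ι → ℤ) ≃ₗ[ℤ] (ι → ℤ)) : (ι → ℤ) →ₗ[ℤ] (ι → ℤ)) (f i) - f i' ∈
            B c (al i') := by
          have h2 := act_Wg_mem_B hc hv hgi'
          rw [hvi', map_sub, hvg] at h2
          have h3 := Subalgebra.sub_mem _ hgl h2
          have h4' : g - f i' - (g - act ((v : (ι → ℤ) ≃ₗ[ℤ] (ι → ℤ)) :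
              (ι → ℤ) →ₗ[ℤ] (ι → ℤ)) (f i)) =
              act ((v : (ι → ℤ) ≃ₗ[ℤ] (ι → ℤ)) : (ι → ℤ) →ₗ[ℤ] (ι → ℤ)) (f i) - f i' := by
            ring
          rwa [h4'] at h3
        have h2 := act_Wg_mem_B hc hw'u h1
        rw [hw'i', map_sub, ← act_mul, ← hwv] at h2
        have h3 := ih _ hlt w' hw'u rfl i' k hw'i'
        have h4' := Subalgebra.add_mem _ h2 h3
        rwa [sub_add_sub_cancel] at h4'
  intro w hw i k hik
  exact key _ w hw rfl i k hik

end Pool.Agent.H391.SK.P_EQ
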