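import Pool.Agent.H391.SK.StF
import Pool.Agent.H391.SK.AsmC

/-!
# Project SK: the common kernel at an integer is the specialisation of the generic one
-/

set_option linter.unusedSectionVars false

namespace Pool.Agent.H391.SK.P_FIN

open MvPolynomial

variable {ι : Type} [Fintype ι] [DecidableEq ι]

/-! ### coordinates -/

section vec

variable {A : Type} [CommRing A] {n : ℕ} {T : Finset ((ι × ℕ) →₀ ℕ)}

/-- The polynomial with given coordinates with respect to the monomials of `T`. -/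
noncomputable def vec (A : Type) [CommRing A] {n : ℕ} {T : Finset ((ι × ℕ) →₀ ℕ)}
    (e : Fin n ≃ T) : (Fin n → A) →ₗ[A] Fk ι A :=
  ∑ s, (monomial (R := A) ((e s : T) : (ι × ℕ) →₀ ℕ)) ∘ₗ LinearMap.proj s

theorem vec_apply (e : Fin n ≃ T) (v : Fin n → A) :
    vec A e v = ∑ s, monomial ((e s : T) : (ι × ℕ) →₀ ℕ) (v s) := by
  simp [vec, LinearMap.sum_apply]

theorem coeff_vec (e : Fin n ≃ T) (v : Fin n → A) (s : Fin n) :
    coeff ((e s : T) : (ι × ℕ) →₀ ℕ) (vec A e v) = v s := by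
  rw [vec_apply, coeff_sum, Finset.sum_eq_single s]
  · rw [coeff_monomial, if_pos rfl]
  · intro t _ hts
    rw [coeff_monomial, if_neg]
    intro h
    exact hts (e.injective (Subtype.ext h))
  · intro h
    exact absurd (Finset.mem_univ _) h

theorem coeff_vec_not (e : Fin n ≃ T) (v : Fin n → A) {m : (ι × ℕ) →₀ ℕ} (hm : m ∉ T) :
    coeff m (vec A e v) = 0 := by
  rw [vec_apply, coeff_sum]
  refine Finset.sum_eq_zero fun s _ => ?_
  rw [coeff_monomial, if_neg]
  intro h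
  exact hm (h ▸ (e s).2)

theorem vec_coeff (e : Fin n ≃ T) (f : Fk ι A) (hf : ∀ m, m ∉ T → coeff m f = 0) :
    vec A e (fun s => coeff ((e s : T) : (ι × ℕ) →₀ ℕ) f) = f := by
  ext m
  by_cases hm : m ∈ T
  · obtain ⟨s, hs⟩ := e.surjective ⟨m, hm⟩
    have h1 : m = ((e s : T) : (ι × ℕ) →₀ ℕ) := by rw [hs]
    rw [h1, coeff_vec]
  · rw [hf m hm, coeff_vec_not e _ hm]

theorem vec_injective (e : Fin n ≃ T) : Function.Injective (vec A e) := by
  intro v v' h
  funext s
  rw [← coeff_vec e v s, h, coeff_vec]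

end vec

/-- The weight. -/
abbrev wg (ι : Type) : ι × ℕ → ℕ := fun p => p.2 + 1

theorem mem_WtN {A : Type} [CommRing A] {N : ℕ} {f : Fk ι A} :
    f ∈ WtN ι A N ↔ ∀ m, coeff m f ≠ 0 → Finsupp.weight (wg ι) m = N := Iff.rfl

theorem vec_mem {A : Type} [CommRing A] {N n : ℕ} {T : Finset ((ι × ℕ) →₀ ℕ)}
    (hT : ∀ m, m ∈ T ↔ Finsupp.weight (wg ι) m = N) (e : Fin n ≃ T) (v : Fin n → A) :
    vec A e v ∈ WtN ι A N := by
  rw [mem_WtN]
  intro m hm
  by_contra h
  exact hm (coeff_vec_not e v fun h' => h ((hT m).1 h'))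

/-! ### the matrix -/

section mat

variable (c : Matrix ι ι ℤ) {N m n : ℕ} {T T' : Finset ((ι × ℕ) →₀ ℕ)}

/-- The matrix of the screening operators. -/
noncomputable def mat (e : Fin n ≃ T) (e' : Fin m ≃ ι × T') :
    Matrix (Fin m) (Fin n) (Polynomial ℂ) := fun r s =>
  coeff ((e' r).2 : (ι × ℕ) →₀ ℕ)
    (Scr c (Polynomial.X : Polynomial ℂ) (e' r).1 (monomial ((e s : T) : (ι × ℕ) →₀ ℕ) 1))

theorem Scr_vec {A : Type} [CommRing A] [Algebra ℂ A] (ν : A) (i : ι) (e : Fin n ≃ T)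
    (v : Fin n → A) (m' : (ι × ℕ) →₀ ℕ) :
    coeff m' (Scr c ν i (vec A e v)) =
      ∑ s, coeff m' (Scr c ν i (monomial ((e s : T) : (ι × ℕ) →₀ ℕ) 1)) * v s := by
  rw [vec_apply, map_sum, coeff_sum]
  refine Finset.sum_congr rfl fun s _ => ?_
  have h1 : (monomial ((e s : T) : (ι × ℕ) →₀ ℕ) (v s) : Fk ι A) =
      v s • monomial ((e s : T) : (ι × ℕ) →₀ ℕ) 1 := by
    rw [smul_monomial, smul_eq_mul, mul_one]
  rw [h1, map_smul, coeff_smul, smul_eq_mul, mul_comm]

theorem mulVec_X (e : Fin n ≃ T) (e' : Fin m ≃ ι × T') (w : Fin n → Polynomial ℂ) (r : Fin m) :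
    (mat c e e').mulVec w r = coeff ((e' r).2 : (ι × ℕ) →₀ ℕ)
      (Scr c (Polynomial.X : Polynomial ℂ) (e' r).1 (vec (Polynomial ℂ) e w)) := by
  rw [Scr_vec]
  rfl

theorem coeff_spe (a : ℂ) (F : Fk ι (Polynomial ℂ)) (m' : (ι × ℕ) →₀ ℕ) :
    coeff m' (spe a F) = (coeff m' F).eval a := by
  unfold spe
  rw [coeff_map]
  rfl

theorem mulVec_a (hS : S_SPW) (a : ℂ) (e : Fin n ≃ T) (e' : Fin m ≃ ι × T') (v : Fin n → ℂ)
    (r : Fin m) :
    ((mat c e e').map (Polynomial.eval a)).mulVec v r = coeff ((e' r).2 : (ι × ℕ) →₀ ℕ)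
      (Scr c a (e' r).1 (vec ℂ e v)) := by
  rw [Scr_vec, Matrix.mulVec, dotProduct]
  refine Finset.sum_congr rfl fun s _ => ?_
  congr 1
  rw [Matrix.map_apply]
  unfold mat
  rw [← coeff_spe, (hS ι c).1]
  congr 2
  unfold spe
  rw [map_monomial, map_one]

theorem ker_iff {A : Type} [CommRing A] [Algebra ℂ A] (hS : S_SPW) (ν : A)
    (hT' : ∀ m, m ∈ T' ↔ Finsupp.weight (wg ι) m = N) {f : Fk ι A} (hf : f ∈ WtN ι A (N + 1))
    (e' : Fin m ≃ ι × T') :
    f ∈ KerS c ν Set.univ ↔ ∀ r : Fin m, coeff ((e' r).2 : (ι × ℕ) →₀ ℕ)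
      (Scr c ν (e' r).1 f) = 0 := by
  rw [mem_KerS]
  constructor
  · intro h r
    rw [h _ (Set.mem_univ _), coeff_zero]
  · intro h i _
    ext m'
    rw [coeff_zero]
    by_cases hm : m' ∈ T'
    · obtain ⟨r, hr⟩ := e'.surjective (i, ⟨m', hm⟩)
      have := h r
      rwa [hr] at this
    · by_contra h1
      exact hm ((hT' m').2 (mem_WtN.1 ((hS ι c).2.1 A ν i N f hf) m' h1))

end mat

theorem finrank_ker (hS : S_SPW) (c : Matrix ι ι ℤ) {N m n : ℕ} {T T' : Finset ((ι × ℕ) →₀ ℕ)}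
    (hT : ∀ m, m ∈ T ↔ Finsupp.weight (wg ι) m = N + 1)
    (hT' : ∀ m, m ∈ T' ↔ Finsupp.weight (wg ι) m = N) (e : Fin n ≃ T) (e' : Fin m ≃ ι × T')
    (a : ℂ) :
    (LinearMap.ker (Matrix.mulVecLin ((mat c e e').map (Polynomial.eval a)))).map (vec ℂ e) =
      (KerS c a Set.univ ⊓ WtN ι ℂ (N + 1) : Submodule ℂ (Fk ι ℂ)) := by
  ext f
  constructor
  · rintro ⟨v, hv, rfl⟩
    have hw := vec_mem hT e v
    refine ⟨(ker_iff c hS a hT' hw e').2 fun r => ?_, hw⟩
    rw [← mulVec_a c hS]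
    exact congr_fun (LinearMap.mem_ker.1 hv) r
  · rintro ⟨h1, h2⟩
    have h3 : vec ℂ e (fun s => coeff ((e s : T) : (ι × ℕ) →₀ ℕ) f) = f := by
      refine vec_coeff e f fun m' hm' => ?_
      by_contra h
      exact hm' ((hT m').2 (mem_WtN.1 h2 m' h))
    refine ⟨_, ?_, h3⟩
    show Matrix.mulVecLin _ _ = 0
    funext r
    rw [Matrix.mulVecLin_apply, mulVec_a c hS, h3]
    exact (ker_iff c hS a hT' h2 e').1 h1 r

theorem Wk_le (hS : S_SPW) (c : Matrix ι ι ℤ) (a : ℂ) : Wk c a ≤ KerS c a Set.univ := by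
  rintro f ⟨F, hF, rfl⟩
  rw [mem_KerS]
  intro i hi
  rw [← (hS ι c).1, mem_KerS.1 hF i hi, map_zero]

theorem main : S_FINimp := by
  intro hS hD hL ι _ _ c hc p hp
  refine le_antisymm ?_ (Wk_le hS c _)
  intro f hf
  have key : ∀ N, ∀ g ∈ KerS c (p : ℂ) Set.univ, g ∈ WtN ι ℂ N → g ∈ Wk c (p : ℂ) := by
    intro N g hg hgN
    rcases N with _ | N
    · -- constants
      have h1 : g = C (coeff 0 g) := by
        ext m'
        rw [coeff_C]
        split_ifs with h
        · rw [h]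
        · by_contra h2
          have h3 := mem_WtN.1 hgN m' h2
          rw [Finsupp.weight_apply] at h3
          apply h
          symm
          ext q
          by_contra h4
          have h5 : q ∈ m'.support := Finsupp.mem_support_iff.2 h4
          have h6 := Finset.sum_eq_zero_iff.1 h3 q h5
          simp only [smul_eq_mul, mul_eq_zero] at h6
          rcases h6 with h6 | h6
          · exact h4 h6
          · exact absurd h6 (Nat.succ_ne_zero _)
      refine ⟨C (Polynomial.C (coeff 0 g)), ?_, ?_⟩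
      · rw [mem_KerS]
        intro i _
        exact (hS ι c).2.2.1 (Polynomial ℂ) _ i _
      · conv_rhs => rw [h1]
        unfold spe
        rw [map_C]
        simp
    · have hfin := (hS ι c).2.2.2.2
      set T := (hfin (N + 1)).toFinset with hTd
      set T' := (hfin N).toFinset with hTd'
      have hT : ∀ m, m ∈ T ↔ Finsupp.weight (wg ι) m = N + 1 := fun m => by
        rw [hTd, Set.Finite.mem_toFinset]
        rfl
      have hT' : ∀ m, m ∈ T' ↔ Finsupp.weight (wg ι) m = N := fun m => by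
        rw [hTd', Set.Finite.mem_toFinset]
        rfl
      let e : Fin T.card ≃ T := T.equivFin.symm
      let e' : Fin (Fintype.card (ι × T')) ≃ ι × T' := (Fintype.equivFin _).symm
      have hfr : ∀ q : ℕ, 1 ≤ q → Module.finrank ℂ
          (LinearMap.ker (Matrix.mulVecLin ((mat c e e').map (Polynomial.eval (q : ℂ))))) =
          Module.finrank ℂ (KerS c ((1 : ℕ) : ℂ) Set.univ ⊓ WtN ι ℂ (N + 1) :
            Submodule ℂ (Fk ι ℂ)) := by
        intro q hq
        rw [← hD ι c hc q 1 (N + 1) hq le_rfl, ← finrank_ker hS c hT hT' e e' (q : ℂ)]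
        exact (LinearEquiv.finrank_eq
          (Submodule.equivMapOfInjective (vec ℂ e) (vec_injective e) _))
      have hgmem : g ∈ (LinearMap.ker (Matrix.mulVecLin
          ((mat c e e').map (Polynomial.eval (p : ℂ))))).map (vec ℂ e) := by
        rw [finrank_ker hS c hT hT' e e' (p : ℂ)]
        exact ⟨hg, hgN⟩
      obtain ⟨v, hv, hvg⟩ := hgmem
      obtain ⟨w, hw, hwv⟩ := hL _ _ (mat c e e') _ hfr p hp v (LinearMap.mem_ker.1 hv)
      refine ⟨vec (Polynomial ℂ) e w, ?_, ?_⟩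
      · rw [ker_iff c hS _ hT' (vec_mem hT e w) e']
        intro r
        rw [← mulVec_X, hw]
        rfl
      · rw [← hvg, vec_apply, vec_apply, map_sum]
        refine Finset.sum_congr rfl fun s _ => ?_
        unfold spe
        rw [map_monomial, ← hwv s]
        rfl
  -- weight components
  have hsum : ∑ᶠ N : ℕ, weightedHomogeneousComponent (wg ι) N f = f :=
    sum_weightedHomogeneousComponent (wg ι) f
  rw [← hsum]
  refine finsum_induction (fun g => g ∈ Wk c (p : ℂ)) (Submodule.zero_mem _)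
    (fun _ _ => Submodule.add_mem _) fun N => ?_
  refine key N _ ((hS ι c).2.2.2.1 ℂ (p : ℂ) Set.univ N f hf) ?_
  exact weightedHomogeneousComponent_isWeightedHomogeneous N f

end Pool.Agent.H391.SK.P_FIN
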