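import Pool.Agent.H391.SK.StE

/-!
# Project SK, task GAR: exactness for a finite reflection group acting on a vector space
-/

namespace Pool.Agent.H391.SK.P_GAR

open scoped InnerProductSpace

section Core

variable {E : Type} [NormedAddCommGroup E] [InnerProductSpace ℂ E]

/-- `(1 - s)/2`. -/
noncomputable def pr (s : Module.End ℂ E) : Module.End ℂ E := (1/2 : ℂ) • (1 - s)

lemma c2 : (starRingEnd ℂ) (1 / 2) = 1 / 2 := by rw [map_div₀, map_one, map_ofNat]
lemma c4 : (starRingEnd ℂ) (1 / 4) = 1 / 4 := by rw [map_div₀, map_one, map_ofNat]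
lemma c8 : (starRingEnd ℂ) (1 / 8) = 1 / 8 := by rw [map_div₀, map_one, map_ofNat]

lemma re_self (z : E) : (⟪z, z⟫_ℂ).re = ‖z‖ ^ 2 := inner_self_eq_norm_sq (𝕜 := ℂ) z

lemma pr_apply (s : Module.End ℂ E) (x : E) : pr s x = (1/2 : ℂ) • (x - s x) := rfl

lemma pr_idem {s : Module.End ℂ E} (hs : ∀ x, s (s x) = x) (x : E) :
    pr s (pr s x) = pr s x := by
  simp only [pr_apply, map_smul, map_sub, hs]
  module

lemma pr_sym {s : Module.End ℂ E} (hs : ∀ x y, ⟪s x, y⟫_ℂ = ⟪x, s y⟫_ℂ) (x y : E) :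
    ⟪pr s x, y⟫_ℂ = ⟪x, pr s y⟫_ℂ := by
  simp only [pr_apply, inner_smul_left, inner_smul_right, inner_sub_left, inner_sub_right, hs,
    c2]

lemma claim_comm {s t : Module.End ℂ E} (hs : ∀ x, s (s x) = x) (ht : ∀ x, t (t x) = x)
    (hss : ∀ x y, ⟪s x, y⟫_ℂ = ⟪x, s y⟫_ℂ) (hts : ∀ x y, ⟪t x, y⟫_ℂ = ⟪x, t y⟫_ℂ)
    (h : ∀ x, s (t x) = t (s x)) (u : E) : 0 ≤ (⟪pr s u, pr t u⟫_ℂ).re := by
  have hc : ∀ x, pr s (pr t x) = pr t (pr s x) := by
    intro x
    simp only [pr_apply, map_smul, map_sub, h]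
    module
  have e : ⟪pr s u, pr t u⟫_ℂ = ⟪pr t (pr s u), pr t (pr s u)⟫_ℂ := by
    calc ⟪pr s u, pr t u⟫_ℂ = ⟪pr s (pr s u), pr t (pr t u)⟫_ℂ := by rw [pr_idem hs, pr_idem ht]
      _ = ⟪pr s u, pr s (pr t (pr t u))⟫_ℂ := pr_sym hss _ _
      _ = ⟪pr s u, pr t (pr s (pr t u))⟫_ℂ := by rw [hc]
      _ = ⟪pr t (pr s u), pr s (pr t u)⟫_ℂ := (pr_sym hts _ _).symm
      _ = ⟪pr t (pr s u), pr t (pr s u)⟫_ℂ := by rw [hc]
  rw [e]
  exact inner_self_nonneg (𝕜 := ℂ)

/-- The multiple of the projection to the sign component. -/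
noncomputable def TT (s t : Module.End ℂ E) : Module.End ℂ E :=
  (1/8 : ℂ) • (1 - s - t + s * t + t * s - s * (t * s))

lemma TT_apply (s t : Module.End ℂ E) (x : E) :
    TT s t x = (1/8 : ℂ) • (x - s x - t x + s (t x) + t (s x) - s (t (s x))) := rfl

lemma claim_braid {s t : Module.End ℂ E} (hs : ∀ x, s (s x) = x) (ht : ∀ x, t (t x) = x)
    (hss : ∀ x y, ⟪s x, y⟫_ℂ = ⟪x, s y⟫_ℂ) (hts : ∀ x y, ⟪t x, y⟫_ℂ = ⟪x, t y⟫_ℂ)
    (h : ∀ x, t (s (t x)) = s (t (s x))) (u : E) :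
    -(1/2) * (‖pr s u‖ * ‖pr t u‖) ≤ (⟪pr s u, pr t u⟫_ℂ).re := by
  have hTsym : ∀ x y, ⟪TT s t x, y⟫_ℂ = ⟪x, TT s t y⟫_ℂ := by
    intro x y
    simp only [TT_apply, inner_smul_left, inner_smul_right, inner_sub_left, inner_sub_right,
      inner_add_left, inner_add_right, hss, hts, c8]
    ring
  have hT1 : ∀ x, pr s (pr t (pr s x)) = TT s t x + (1/4 : ℂ) • pr s x := by
    intro x
    simp only [pr_apply, TT_apply, map_smul, map_sub, map_add, hs, ht, h]
    module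
  have hsT : ∀ x, pr s (TT s t x) = TT s t x := by
    intro x
    simp only [pr_apply, TT_apply, map_smul, map_sub, map_add, hs, ht, h]
    module
  have htT : ∀ x, pr t (TT s t x) = TT s t x := by
    intro x
    simp only [pr_apply, TT_apply, map_smul, map_sub, map_add, hs, ht, h]
    module
  have hTs : ∀ x, TT s t (pr s x) = TT s t x := by
    intro x
    simp only [pr_apply, TT_apply, map_smul, map_sub, map_add, hs, ht, h]
    module
  have hTt : ∀ x, TT s t (pr t x) = TT s t x := by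
    intro x
    simp only [pr_apply, TT_apply, map_smul, map_sub, map_add, hs, ht, h]
    module
  have hTT : ∀ x, TT s t (TT s t x) = (3/4 : ℂ) • TT s t x := by
    intro x
    simp only [TT_apply, map_smul, map_sub, map_add, hs, ht, h]
    module
  obtain ⟨z, hz⟩ : ∃ z, z = (4/3 : ℂ) • TT s t u := ⟨_, rfl⟩
  obtain ⟨m, hm⟩ : ∃ m, m = pr s u - z := ⟨_, rfl⟩
  obtain ⟨n, hn⟩ : ∃ n, n = pr t u - z := ⟨_, rfl⟩
  have hTz : TT s t z = TT s t u := by
    rw [hz, map_smul, hTT]; module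
  have hTm : TT s t m = 0 := by rw [hm, map_sub, hTs, hTz, sub_self]
  have hTn : TT s t n = 0 := by rw [hn, map_sub, hTt, hTz, sub_self]
  have hzs : pr s z = z := by rw [hz, map_smul, hsT]
  have hzt : pr t z = z := by rw [hz, map_smul, htT]
  have hms : pr s m = m := by rw [hm, map_sub, pr_idem hs, hzs]
  have hnt : pr t n = n := by rw [hn, map_sub, pr_idem ht, hzt]
  have hzm : ⟪z, m⟫_ℂ = 0 := by rw [hz, inner_smul_left, hTsym, hTm, inner_zero_right, mul_zero]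
  have hzn : ⟪z, n⟫_ℂ = 0 := by rw [hz, inner_smul_left, hTsym, hTn, inner_zero_right, mul_zero]
  have hmz : ⟪m, z⟫_ℂ = 0 := by rw [← inner_conj_symm, hzm, map_zero]
  have hpm : pr s u = z + m := by rw [hm]; abel
  have hpn : pr t u = z + n := by rw [hn]; abel
  have n1 : ‖pr s u‖ ^ 2 = ‖z‖ ^ 2 + ‖m‖ ^ 2 := by
    rw [hpm, norm_add_sq (𝕜 := ℂ), hzm]; simp
  have n2 : ‖pr t u‖ ^ 2 = ‖z‖ ^ 2 + ‖n‖ ^ 2 := by
    rw [hpn, norm_add_sq (𝕜 := ℂ), hzn]; simp
  have n3 : ‖pr t m‖ ^ 2 = (1/4) * ‖m‖ ^ 2 := by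
    have e : ⟪pr t m, pr t m⟫_ℂ = (1/4 : ℂ) * ⟪m, m⟫_ℂ := by
      calc ⟪pr t m, pr t m⟫_ℂ = ⟪pr t (pr t m), m⟫_ℂ := (pr_sym hts _ _).symm
        _ = ⟪pr t (pr s m), pr s m⟫_ℂ := by rw [pr_idem ht, hms]
        _ = ⟪pr s (pr t (pr s m)), m⟫_ℂ := (pr_sym hss _ _).symm
        _ = (1/4 : ℂ) * ⟪m, m⟫_ℂ := by
          rw [hT1, hTm, zero_add, inner_smul_left, hms, c4]
    have e' := congrArg Complex.re e
    rw [re_self] at e'
    rw [e', ← re_self, show (1/4 : ℂ) = ((1/4 : ℝ) : ℂ) by norm_num, Complex.re_ofReal_mul]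
  have hmn : |(⟪m, n⟫_ℂ).re| ≤ (1/2) * (‖m‖ * ‖n‖) := by
    have e : ⟪m, n⟫_ℂ = ⟪pr t m, n⟫_ℂ := by
      conv_lhs => rw [← hnt]
      exact (pr_sym hts _ _).symm
    have h3 : ‖pr t m‖ = (1/2) * ‖m‖ := by
      have : ‖pr t m‖ ^ 2 = ((1/2) * ‖m‖) ^ 2 := by rw [n3]; ring
      exact (sq_eq_sq₀ (norm_nonneg _) (by positivity)).mp this
    calc |(⟪m, n⟫_ℂ).re| ≤ ‖⟪m, n⟫_ℂ‖ := Complex.abs_re_le_norm _
      _ = ‖⟪pr t m, n⟫_ℂ‖ := by rw [e]
      _ ≤ ‖pr t m‖ * ‖n‖ := norm_inner_le_norm _ _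
      _ = (1/2) * (‖m‖ * ‖n‖) := by rw [h3]; ring
  have hfin : (⟪pr s u, pr t u⟫_ℂ).re = ‖z‖ ^ 2 + (⟪m, n⟫_ℂ).re := by
    rw [hpm, hpn, inner_add_left, inner_add_right, inner_add_right, hzn, hmz, ← re_self, add_zero,
      zero_add, Complex.add_re]
  rw [hfin]
  have l1 : ‖m‖ ≤ ‖pr s u‖ := by
    rw [← sq_le_sq₀ (norm_nonneg _) (norm_nonneg _)]
    nlinarith [sq_nonneg ‖z‖]
  have l2 : ‖n‖ ≤ ‖pr t u‖ := by
    rw [← sq_le_sq₀ (norm_nonneg _) (norm_nonneg _)]
    nlinarith [sq_nonneg ‖z‖]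
  have l3 : ‖m‖ * ‖n‖ ≤ ‖pr s u‖ * ‖pr t u‖ := by gcongr
  have := (abs_le.mp hmn).1
  nlinarith [sq_nonneg ‖z‖]

lemma pr_eq_zero {s : Module.End ℂ E} {x : E} : pr s x = 0 ↔ s x = x := by
  rw [pr_apply, smul_eq_zero_iff_right (by norm_num), sub_eq_zero, eq_comm]

theorem main_fd [FiniteDimensional ℂ E] {ι : Type} [Fintype ι] [DecidableEq ι]
    (c : Matrix ι ι ℤ) (hc : IsADE c) (s : ι → Module.End ℂ E) (hs : ∀ i x, s i (s i x) = x)
    (hsym : ∀ i x y, ⟪s i x, y⟫_ℂ = ⟪x, s i y⟫_ℂ)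
    (h0 : ∀ i j, c i j = 0 → ∀ x, s i (s j x) = s j (s i x))
    (h1 : ∀ i j, c i j = -1 → ∀ x, s j (s i (s j x)) = s i (s j (s i x)))
    (f : ι → E) (hf : ∀ i j, ∃ a b : E, s i a = a ∧ s j b = b ∧ f i - f j = a - b) :
    ∃ g : E, ∀ i, s i (g - f i) = g - f i := by
  obtain ⟨T, hT⟩ : ∃ T : E →ₗ[ℂ] E, T = ∑ i, pr (s i) := ⟨_, rfl⟩
  have hTsym : LinearMap.IsSymmetric T := by
    intro x y
    rw [hT, LinearMap.sum_apply, LinearMap.sum_apply, sum_inner, inner_sum]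
    exact Finset.sum_congr rfl fun i _ => pr_sym (hsym i) x y
  have hmem : ∑ i, pr (s i) (f i) ∈ LinearMap.range T := by
    have : LinearMap.range T = (LinearMap.ker T)ᗮ := by
      rw [← hTsym.orthogonal_range, Submodule.orthogonal_orthogonal]
    rw [this, Submodule.mem_orthogonal]
    intro k hk
    rw [LinearMap.mem_ker] at hk
    have hk0 : ∑ i, ‖pr (s i) k‖ ^ 2 = 0 := by
      have : (⟪k, T k⟫_ℂ).re = 0 := by rw [hk]; simp
      rw [hT, LinearMap.sum_apply, inner_sum, Complex.re_sum] at this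
      rw [← this]
      refine Finset.sum_congr rfl fun i _ => ?_
      rw [← re_self, pr_sym (hsym i), pr_idem (hs i)]
    have hk1 : ∀ i, pr (s i) k = 0 := by
      intro i
      have := (Finset.sum_eq_zero_iff_of_nonneg (fun i _ => sq_nonneg ‖pr (s i) k‖)).mp hk0 i
        (Finset.mem_univ i)
      simpa using this
    rw [inner_sum]
    refine Finset.sum_eq_zero fun i _ => ?_
    rw [← pr_sym (hsym i), hk1, inner_zero_left]
  obtain ⟨g, hg⟩ := hmem
  obtain ⟨m, hm⟩ : ∃ m : ι → E, ∀ i, m i = pr (s i) (f i - g) := ⟨_, fun i => rfl⟩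
  have hsum : ∑ i, m i = 0 := by
    have : ∑ i, m i = ∑ i, pr (s i) (f i) - T g := by
      rw [hT, LinearMap.sum_apply, ← Finset.sum_sub_distrib]
      exact Finset.sum_congr rfl fun i _ => by rw [hm, map_sub]
    rw [this, hg, sub_self]
  have hu : ∀ i j, ∃ u, pr (s i) u = m i ∧ pr (s j) u = m j := by
    intro i j
    obtain ⟨a, b, ha, hb, hab⟩ := hf i j
    refine ⟨f i - g - a, ?_, ?_⟩
    · rw [hm, map_sub, pr_eq_zero.mpr ha, sub_zero]
    · have : f i - g - a = f j - g - b := by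
        have : f i = f j + (a - b) := by rw [← hab]; abel
        rw [this]; abel
      rw [this, hm, map_sub, pr_eq_zero.mpr hb, sub_zero]
  have hineq : ∀ i j, (1/2) * (‖m i‖ * (c i j : ℝ) * ‖m j‖) ≤ (⟪m i, m j⟫_ℂ).re := by
    intro i j
    by_cases hij : i = j
    · subst hij
      rw [re_self, hc.diag]
      push_cast
      apply le_of_eq
      ring
    · obtain ⟨u, hui, huj⟩ := hu i j
      rcases hc.off i j hij with h | h
      · rw [h, ← hui, ← huj]
        have := claim_comm (hs i) (hs j) (hsym i) (hsym j) (h0 i j h) u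
        simpa using this
      · rw [h, ← hui, ← huj]
        have := claim_braid (hs i) (hs j) (hsym i) (hsym j) (h1 i j h) u
        push_cast
        linarith
  have htot : ∑ i, ∑ j, ‖m i‖ * (c i j : ℝ) * ‖m j‖ ≤ 0 := by
    have e : (⟪∑ i, m i, ∑ j, m j⟫_ℂ).re = ∑ i, ∑ j, (⟪m i, m j⟫_ℂ).re := by
      rw [sum_inner, Complex.re_sum]
      refine Finset.sum_congr rfl fun i _ => ?_
      rw [inner_sum, Complex.re_sum]
    rw [hsum, inner_zero_left, Complex.zero_re] at e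
    have : ∑ i, ∑ j, (1/2) * (‖m i‖ * (c i j : ℝ) * ‖m j‖) ≤ 0 := by
      rw [e]
      exact Finset.sum_le_sum fun i _ => Finset.sum_le_sum fun j _ => hineq i j
    simp only [← Finset.mul_sum] at this
    linarith
  have ht : (fun i => ‖m i‖) = 0 := by
    by_contra h
    exact absurd (hc.pos (fun i => ‖m i‖) h) (not_lt.mpr htot)
  refine ⟨g, fun i => ?_⟩
  have hi : m i = 0 := by
    have := congrFun ht i
    simpa using this
  rw [hm, pr_eq_zero] at hi
  have e : g - f i = -(f i - g) := by abel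
  rw [e, map_neg, hi]

end Core

/-- An averaged inner product. -/
theorem exists_core {E : Type} [AddCommGroup E] [Module ℂ E] [FiniteDimensional ℂ E]
    {G : Type} [Monoid G] [Fintype G] (r : G →* Module.End ℂ E) :
    ∃ K : InnerProductSpace.Core ℂ E, ∀ g : G, g * g = 1 →
      ∀ x y, K.inner (r g x) y = K.inner x (r g y) := by
  classical
  obtain ⟨e⟩ : Nonempty (E ≃ₗ[ℂ] EuclideanSpace ℂ (Fin (Module.finrank ℂ E))) :=
    ⟨LinearEquiv.ofFinrankEq _ _ (by simp)⟩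
  refine ⟨{
    inner := fun x y => ∑ g : G, inner ℂ (e (r g x)) (e (r g y))
    conj_inner_symm := fun x y => ?_
    re_inner_nonneg := fun x => ?_
    add_left := fun x y z => ?_
    smul_left := fun x y c => ?_
    definite := fun x hx => ?_ }, fun g hg x y => ?_⟩
  · rw [map_sum]
    exact Finset.sum_congr rfl fun g _ => inner_conj_symm _ _
  · rw [map_sum]
    exact Finset.sum_nonneg fun g _ => inner_self_nonneg
  · rw [← Finset.sum_add_distrib]
    exact Finset.sum_congr rfl fun g _ => by rw [map_add, map_add, inner_add_left]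
  · rw [Finset.mul_sum]
    exact Finset.sum_congr rfl fun g _ => by rw [map_smul, map_smul, inner_smul_left]
  · have hx' : ∑ g : G, (inner ℂ (e (r g x)) (e (r g x)) : ℂ) = 0 := hx
    have h2 : ∑ g : G, ‖e (r g x)‖ ^ 2 = 0 := by
      have := congrArg Complex.re hx'
      rw [Complex.re_sum, Complex.zero_re] at this
      rw [← this]
      exact Finset.sum_congr rfl fun g _ => (re_self _).symm
    have h3 := (Finset.sum_eq_zero_iff_of_nonneg (fun g _ => sq_nonneg ‖e (r g x)‖)).mp h2 1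
      (Finset.mem_univ 1)
    simpa using h3
  · show ∑ k : G, inner ℂ (e (r k (r g x))) (e (r k y)) =
      ∑ k : G, inner ℂ (e (r k x)) (e (r k (r g y)))
    refine Finset.sum_bij' (fun k _ => k * g) (fun k _ => k * g) (fun _ _ => Finset.mem_univ _)
      (fun _ _ => Finset.mem_univ _) (fun k _ => ?_) (fun k _ => ?_) (fun k _ => ?_)
    · simp [mul_assoc, hg]
    · simp [mul_assoc, hg]
    · rw [← Module.End.mul_apply, ← Module.End.mul_apply, ← map_mul, ← map_mul, mul_assoc, hg,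
        mul_one]

theorem main_mid {ι : Type} [Fintype ι] [DecidableEq ι] (c : Matrix ι ι ℤ) (hc : IsADE c)
    {E : Type} [AddCommGroup E] [Module ℂ E] [FiniteDimensional ℂ E]
    {G : Type} [Monoid G] [Fintype G] (r : G →* Module.End ℂ E) (σ : ι → G)
    (hs : ∀ i, σ i * σ i = 1) (h0 : ∀ i j, c i j = 0 → σ i * σ j = σ j * σ i)
    (h1 : ∀ i j, c i j = -1 → σ i * σ j * σ i = σ j * σ i * σ j)
    (f : ι → E) (hf : ∀ i j, ∃ a b : E, r (σ i) a = a ∧ r (σ j) b = b ∧ f i - f j = a - b) :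
    ∃ g : E, ∀ i, r (σ i) (g - f i) = g - f i := by
  obtain ⟨K, hK⟩ := exists_core r
  letI : NormedAddCommGroup E := @InnerProductSpace.Core.toNormedAddCommGroup ℂ E _ _ _ K
  letI : InnerProductSpace ℂ E := InnerProductSpace.ofCore K.toCore
  refine main_fd c hc (fun i => r (σ i)) (fun i x => ?_) (fun i x y => hK _ (hs i) x y)
    (fun i j h x => ?_) (fun i j h x => ?_) f hf
  · rw [← Module.End.mul_apply, ← map_mul, hs, map_one]; rfl
  · rw [← Module.End.mul_apply, ← Module.End.mul_apply, ← map_mul, ← map_mul, h0 i j h]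
  · rw [← Module.End.mul_apply, ← Module.End.mul_apply, ← Module.End.mul_apply,
      ← Module.End.mul_apply, ← map_mul, ← map_mul, ← map_mul, ← map_mul, h1 i j h]

theorem main : S_GAR := by
  intro ι _ _ c hc V _ _ s hfin hs h0 h1 f hf
  classical
  choose a b ha hb hab using hf
  obtain ⟨X, hX⟩ : ∃ X : Set V, X = Set.range f ∪ Set.range (fun p : ι × ι => a p.1 p.2) ∪
    Set.range (fun p : ι × ι => b p.1 p.2) := ⟨_, rfl⟩
  have hXfin : X.Finite := by
    rw [hX]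
    exact ((Set.finite_range _).union (Set.finite_range _)).union (Set.finite_range _)
  obtain ⟨M, hM⟩ : ∃ M : Submonoid (Module.End ℂ V), M = Submonoid.closure (Set.range s) :=
    ⟨_, rfl⟩
  rw [← hM] at hfin
  obtain ⟨W, hW⟩ : ∃ W : Submodule ℂ V, W = Submodule.span ℂ
    (Set.image2 (fun (m : Module.End ℂ V) x => m x) M X) := ⟨_, rfl⟩
  have hWfd : FiniteDimensional ℂ W := by
    rw [hW]
    exact FiniteDimensional.span_of_finite ℂ (hfin.image2 _ hXfin)
  have hXW : ∀ x ∈ X, x ∈ W := by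
    intro x hx
    rw [hW]
    exact Submodule.subset_span ⟨1, M.one_mem, x, hx, rfl⟩
  have hMW : ∀ m ∈ M, ∀ x ∈ W, m x ∈ W := by
    intro m hm x hx
    rw [hW] at hx ⊢
    induction hx using Submodule.span_induction with
    | mem x hx =>
      obtain ⟨k, hk, y, hy, rfl⟩ := hx
      exact Submodule.subset_span ⟨m * k, M.mul_mem hm hk, y, hy, rfl⟩
    | zero => rw [map_zero]; exact Submodule.zero_mem _
    | add x y _ _ hx hy => rw [map_add]; exact Submodule.add_mem _ hx hy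
    | smul c x _ hx => rw [map_smul]; exact Submodule.smul_mem _ _ hx
  have hsM : ∀ i, s i ∈ M := fun i => by rw [hM]; exact Submonoid.subset_closure ⟨i, rfl⟩
  have : Fintype M := hfin.fintype
  let r : M →* Module.End ℂ W :=
    { toFun := fun m => (m : Module.End ℂ V).restrict (hMW m m.2)
      map_one' := by ext x; rfl
      map_mul' := fun m k => by ext x; rfl }
  have hfW : ∀ i, f i ∈ W := fun i => hXW _ (by rw [hX]; exact Or.inl (Or.inl ⟨i, rfl⟩))
  have haW : ∀ i j, a i j ∈ W := fun i j =>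
    hXW _ (by rw [hX]; exact Or.inl (Or.inr ⟨(i, j), rfl⟩))
  have hbW : ∀ i j, b i j ∈ W := fun i j => hXW _ (by rw [hX]; exact Or.inr ⟨(i, j), rfl⟩)
  obtain ⟨g, hg⟩ := main_mid c hc r (fun i => ⟨s i, hsM i⟩) (fun i => Subtype.ext (hs i))
    (fun i j h => Subtype.ext (h0 i j h)) (fun i j h => Subtype.ext (h1 i j h))
    (fun i => ⟨f i, hfW i⟩) (fun i j => ⟨⟨a i j, haW i j⟩, ⟨b i j, hbW i j⟩,
      Subtype.ext (ha i j), Subtype.ext (hb i j), Subtype.ext (hab i j)⟩)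
  exact ⟨g, fun i => congrArg Subtype.val (hg i)⟩

end Pool.Agent.H391.SK.P_GAR
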