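import Pool.Agent.H391.SK.AsmC

/-!
# Project SK: GENE from SPW and LAG
-/

namespace Pool.Agent.H391.SK.P_GENE

open MvPolynomial Pool.Agent.H391.SK

section poly

variable {ι : Type} {A : Type} [CommRing A]

/-- The polynomial with given coordinates. -/
noncomputable def PP {n : ℕ} (mo : Fin n → ((ι × ℕ) →₀ ℕ)) : (Fin n → A) →ₗ[A] Fk ι A where
  toFun v := ∑ j, monomial (mo j) (v j)
  map_add' v w := by
    simp [Finset.sum_add_distrib]
  map_smul' a v := by
    simp only [Pi.smul_apply, RingHom.id_apply, Finset.smul_sum, smul_monomial]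

theorem PP_apply {n : ℕ} (mo : Fin n → ((ι × ℕ) →₀ ℕ)) (v : Fin n → A) :
    PP mo v = ∑ j, monomial (mo j) (v j) := rfl

theorem coeff_PP {n : ℕ} {mo : Fin n → ((ι × ℕ) →₀ ℕ)} (hmo : Function.Injective mo)
    (v : Fin n → A) (j : Fin n) : coeff (mo j) (PP mo v) = v j := by
  classical
  rw [PP_apply, coeff_sum]
  simp only [coeff_monomial, hmo.eq_iff]
  simp

theorem PP_inj {n : ℕ} {mo : Fin n → ((ι × ℕ) →₀ ℕ)} (hmo : Function.Injective mo) :
    Function.Injective (PP (A := A) mo) := by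
  intro v w h
  ext j
  rw [← coeff_PP hmo v j, h, coeff_PP hmo]

theorem PP_mem {n N : ℕ} {mo : Fin n → ((ι × ℕ) →₀ ℕ)}
    (hr : Set.range mo = {m | Finsupp.weight (fun p : ι × ℕ => p.2 + 1) m = N})
    (v : Fin n → A) : PP mo v ∈ WtN ι A N := by
  rw [PP_apply]
  refine Submodule.sum_mem _ fun j _ => ?_
  rw [WtN, mem_weightedHomogeneousSubmodule]
  refine isWeightedHomogeneous_monomial _ _ _ ?_
  have : mo j ∈ Set.range mo := ⟨j, rfl⟩
  rw [hr] at this
  exact this

theorem PP_coords {n N : ℕ} {mo : Fin n → ((ι × ℕ) →₀ ℕ)} (hmo : Function.Injective mo)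
    (hr : Set.range mo = {m | Finsupp.weight (fun p : ι × ℕ => p.2 + 1) m = N})
    {f : Fk ι A} (hf : f ∈ WtN ι A N) : PP mo (fun j => coeff (mo j) f) = f := by
  classical
  ext m
  by_cases hm : Finsupp.weight (fun p : ι × ℕ => p.2 + 1) m = N
  · have : m ∈ Set.range mo := by rw [hr]; exact hm
    obtain ⟨j, rfl⟩ := this
    rw [coeff_PP hmo]
  · have h1 : coeff m f = 0 := by
      rw [WtN, mem_weightedHomogeneousSubmodule] at hf
      by_contra h
      exact hm (hf h)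
    have h2 := PP_mem hr (fun j => coeff (mo j) f)
    rw [WtN, mem_weightedHomogeneousSubmodule] at h2
    rw [h1]
    by_contra h
    exact hm (h2 h)

end poly

section

variable {ι : Type} [Fintype ι] [DecidableEq ι]

theorem spe_PP {n : ℕ} (mo : Fin n → ((ι × ℕ) →₀ ℕ)) (a : ℂ) (v : Fin n → Polynomial ℂ) :
    spe a (PP mo v) = PP mo (fun j => (v j).eval a) := by
  rw [PP_apply, PP_apply, map_sum]
  refine Finset.sum_congr rfl fun j _ => ?_
  rw [spe, map_monomial, Polynomial.coe_evalRingHom]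

theorem coeff_spe (a : ℂ) (F : Fk ι (Polynomial ℂ)) (m : (ι × ℕ) →₀ ℕ) :
    coeff m (spe a F) = (coeff m F).eval a := by
  rw [spe, coeff_map, Polynomial.coe_evalRingHom]

theorem spe_comp (a : ℂ) (F : Fk ι (Polynomial ℂ)) (N : ℕ) :
    spe a (weightedHomogeneousComponent (fun p : ι × ℕ => p.2 + 1) N F) =
      weightedHomogeneousComponent (fun p : ι × ℕ => p.2 + 1) N (spe a F) := by
  classical
  ext m
  rw [coeff_spe, coeff_weightedHomogeneousComponent, coeff_weightedHomogeneousComponent, coeff_spe]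
  split_ifs <;> simp

/-- The weight of the image under the screening operators (truncated subtraction). -/
theorem scr_wt (h : S_SPW) (c : Matrix ι ι ℤ) {A : Type} [CommRing A] [Algebra ℂ A] (ν : A)
    (i : ι) (N : ℕ) {f : Fk ι A} (hf : f ∈ WtN ι A N) : Scr c ν i f ∈ WtN ι A (N - 1) := by
  classical
  obtain ⟨-, h2, h3, -, -⟩ := h ι c
  rcases N with _ | N
  · have : f = C (coeff 0 f) := by
      ext m
      rw [coeff_C]
      split_ifs with hm
      · rw [hm]
      · rw [WtN, mem_weightedHomogeneousSubmodule] at hf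
        by_contra hne
        have h0 := hf hne
        rw [Finsupp.weight_apply, Finsupp.sum] at h0
        apply hm
        symm
        ext p
        have h1 := (Finset.sum_eq_zero_iff.mp h0) p
        by_cases hp : p ∈ m.support
        · have h5 := h1 hp
          simp only [smul_eq_mul, mul_eq_zero, Nat.add_eq_zero_iff, one_ne_zero, and_false,
            or_false] at h5
          exact h5
        · exact Finsupp.notMem_support_iff.mp hp
    rw [this, h3]
    exact Submodule.zero_mem _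
  · exact h2 A ν i N f hf

/-- The matrix of the screening operators. -/
noncomputable def MM (c : Matrix ι ι ℤ) {A : Type} [CommRing A] [Algebra ℂ A] (ν : A) {n m : ℕ}
    (mo : Fin n → ((ι × ℕ) →₀ ℕ)) (ro : Fin m → ι × ((ι × ℕ) →₀ ℕ)) : Matrix (Fin m) (Fin n) A :=
  fun r j => coeff (ro r).2 (Scr c ν (ro r).1 (monomial (mo j) 1))

theorem MM_mulVec (c : Matrix ι ι ℤ) {A : Type} [CommRing A] [Algebra ℂ A] (ν : A) {n m : ℕ}
    (mo : Fin n → ((ι × ℕ) →₀ ℕ)) (ro : Fin m → ι × ((ι × ℕ) →₀ ℕ)) (v : Fin n → A) (r : Fin m) :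
    (MM c ν mo ro).mulVec v r = coeff (ro r).2 (Scr c ν (ro r).1 (PP mo v)) := by
  rw [PP_apply, map_sum, coeff_sum, Matrix.mulVec, dotProduct]
  refine Finset.sum_congr rfl fun j _ => ?_
  have : (monomial (mo j) (v j) : Fk ι A) = v j • monomial (mo j) 1 := by
    rw [smul_monomial, smul_eq_mul, mul_one]
  rw [this, map_smul, coeff_smul, MM, smul_eq_mul, mul_comm]

theorem mulVec_eq_zero (h : S_SPW) (c : Matrix ι ι ℤ) {A : Type} [CommRing A] [Algebra ℂ A]
    (ν : A) {n m N : ℕ} {mo : Fin n → ((ι × ℕ) →₀ ℕ)} {ro : Fin m → ι × ((ι × ℕ) →₀ ℕ)}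
    (hr : Set.range mo = {m | Finsupp.weight (fun p : ι × ℕ => p.2 + 1) m = N})
    (hro : ∀ (i : ι) (m' : (ι × ℕ) →₀ ℕ),
      Finsupp.weight (fun p : ι × ℕ => p.2 + 1) m' = N - 1 → ∃ r, ro r = (i, m'))
    (v : Fin n → A) : (MM c ν mo ro).mulVec v = 0 ↔ PP mo v ∈ KerS c ν Set.univ := by
  constructor
  · intro hv
    rw [mem_KerS]
    intro i _
    ext m'
    rw [coeff_zero]
    by_cases hm : Finsupp.weight (fun p : ι × ℕ => p.2 + 1) m' = N - 1
    · obtain ⟨r, hr'⟩ := hro i m' hm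
      have := congrFun hv r
      rw [MM_mulVec, hr'] at this
      exact this
    · have h2 := scr_wt h c ν i N (PP_mem hr v)
      rw [WtN, mem_weightedHomogeneousSubmodule] at h2
      by_contra hne
      exact hm (h2 hne)
  · intro hv
    ext r
    rw [MM_mulVec, mem_KerS.mp hv _ (Set.mem_univ _)]
    simp

theorem MM_map (h : S_SPW) (c : Matrix ι ι ℤ) (a : ℂ) {n m : ℕ}
    (mo : Fin n → ((ι × ℕ) →₀ ℕ)) (ro : Fin m → ι × ((ι × ℕ) →₀ ℕ)) :
    (MM c (Polynomial.X : Polynomial ℂ) mo ro).map (Polynomial.eval a) = MM c a mo ro := by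
  obtain ⟨h1, -, -, -, -⟩ := h ι c
  ext r j
  rw [Matrix.map_apply, MM, MM, ← coeff_spe, h1]
  congr 2
  rw [spe, map_monomial, map_one]

/-- Enumerations of the monomials. -/
theorem exists_mo (h : S_SPW) (c : Matrix ι ι ℤ) (N : ℕ) :
    ∃ (n : ℕ) (mo : Fin n → ((ι × ℕ) →₀ ℕ)), Function.Injective mo ∧
      Set.range mo = {m | Finsupp.weight (fun p : ι × ℕ => p.2 + 1) m = N} := by
  obtain ⟨-, -, -, -, h5⟩ := h ι c
  have hf := h5 N
  refine ⟨hf.toFinset.card, fun j => (hf.toFinset.equivFin.symm j : (ι × ℕ) →₀ ℕ), ?_, ?_⟩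
  · intro j k hjk
    exact hf.toFinset.equivFin.symm.injective (Subtype.ext hjk)
  · ext m
    constructor
    · rintro ⟨j, rfl⟩
      have := (hf.toFinset.equivFin.symm j).2
      rwa [Set.Finite.mem_toFinset] at this
    · intro hm
      refine ⟨hf.toFinset.equivFin ⟨m, hf.mem_toFinset.mpr hm⟩, ?_⟩
      simp

theorem exists_ro (h : S_SPW) (c : Matrix ι ι ℤ) (N : ℕ) :
    ∃ (m : ℕ) (ro : Fin m → ι × ((ι × ℕ) →₀ ℕ)), ∀ (i : ι) (m' : (ι × ℕ) →₀ ℕ),
      Finsupp.weight (fun p : ι × ℕ => p.2 + 1) m' = N → ∃ r, ro r = (i, m') := by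
  obtain ⟨n, mo, -, hr⟩ := exists_mo h c N
  let e := Fintype.equivFin (ι × Fin n)
  refine ⟨_, fun r => ((e.symm r).1, mo (e.symm r).2), ?_⟩
  intro i m' hm'
  have : m' ∈ Set.range mo := by rw [hr]; exact hm'
  obtain ⟨j, rfl⟩ := this
  exact ⟨e (i, j), by simp⟩

theorem Wk_le (h : S_SPW) (c : Matrix ι ι ℤ) (a : ℂ) : Wk c a ≤ KerS c a Set.univ := by
  obtain ⟨h1, -, -, -, -⟩ := h ι c
  rintro _ ⟨F, hF, rfl⟩
  rw [mem_KerS]
  intro i hi
  rw [← h1, mem_KerS.mp hF i hi, map_zero]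

theorem comp_mem {A : Type} [CommRing A] (N : ℕ) (f : Fk ι A) :
    weightedHomogeneousComponent (fun p : ι × ℕ => p.2 + 1) N f ∈ WtN ι A N := by
  rw [WtN, mem_weightedHomogeneousSubmodule]
  exact weightedHomogeneousComponent_isWeightedHomogeneous _ _

theorem comp_of_mem {A : Type} [CommRing A] {N : ℕ} {f : Fk ι A} (hf : f ∈ WtN ι A N) :
    weightedHomogeneousComponent (fun p : ι × ℕ => p.2 + 1) N f = f := by
  classical
  rw [WtN, mem_weightedHomogeneousSubmodule] at hf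
  ext m
  rw [coeff_weightedHomogeneousComponent]
  split_ifs with hm
  · rfl
  · by_contra hne
    exact hm (hf (fun h0 => hne h0.symm))

/-- The parts of weight `N`. -/
theorem part (h : S_SPW) (hL : S_LAG) (c : Matrix ι ι ℤ) (N : ℕ) :
    (∃ k : ℕ, ∀ a : ℂ, Module.finrank ℂ (Wk c a ⊓ WtN ι ℂ N : Submodule ℂ (Fk ι ℂ)) = k) ∧
    (∃ E : Set ℂ, E.Finite ∧ ∀ a ∉ E, ∀ f ∈ KerS c a Set.univ, f ∈ WtN ι ℂ N → f ∈ Wk c a) := by
  obtain ⟨n, mo, hmo, hr⟩ := exists_mo h c N
  obtain ⟨m, ro, hro⟩ := exists_ro h c (N - 1)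
  obtain ⟨⟨k, hk⟩, hE⟩ := hL m n (MM c (Polynomial.X : Polynomial ℂ) mo ro)
  refine ⟨⟨k, fun a => ?_⟩, _, hE, ?_⟩
  · rw [← hk a]
    set S := {v : Fin n → ℂ | ∃ w : Fin n → Polynomial ℂ,
      (MM c (Polynomial.X : Polynomial ℂ) mo ro).mulVec w = 0 ∧ ∀ i, (w i).eval a = v i} with hS
    have himg : (PP (A := ℂ) mo) '' S = (Wk c a ⊓ WtN ι ℂ N : Submodule ℂ (Fk ι ℂ)) := by
      ext f
      constructor
      · rintro ⟨v, ⟨w, hw, hwv⟩, rfl⟩
        refine ⟨⟨PP mo w, (mulVec_eq_zero h c _ hr hro w).mp hw, ?_⟩, PP_mem hr v⟩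
        rw [spe_PP]
        congr 1
        exact funext hwv
      · rintro ⟨⟨F, hF, hFf⟩, hf⟩
        obtain ⟨-, -, -, h4, -⟩ := h ι c
        have hG := h4 _ _ _ N F hF
        have hGw := comp_mem N F
        set G := weightedHomogeneousComponent (fun p : ι × ℕ => p.2 + 1) N F with hGdef
        have hGf : spe a G = f := by
          rw [hGdef, spe_comp, hFf]
          exact comp_of_mem hf
        refine ⟨fun j => coeff (mo j) f, ⟨fun j => coeff (mo j) G, ?_, ?_⟩, PP_coords hmo hr hf⟩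
        · rw [mulVec_eq_zero h c _ hr hro, PP_coords hmo hr hGw]
          exact hG
        · intro j
          rw [← coeff_spe, hGf]
    have hmap : Submodule.map (PP (A := ℂ) mo) (Submodule.span ℂ S) = Wk c a ⊓ WtN ι ℂ N := by
      rw [Submodule.map_span, himg, Submodule.span_eq]
    rw [← hmap]
    exact (LinearEquiv.finrank_eq (Submodule.equivMapOfInjective _ (PP_inj hmo) _)).symm
  · intro a ha f hf hfN
    have h1 : ((MM c (Polynomial.X : Polynomial ℂ) mo ro).map (Polynomial.eval a)).mulVec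
        (fun j => coeff (mo j) f) = 0 := by
      rw [MM_map h, mulVec_eq_zero h c _ hr hro, PP_coords hmo hr hfN]
      exact hf
    have h2 : ∃ w : Fin n → Polynomial ℂ, (MM c (Polynomial.X : Polynomial ℂ) mo ro).mulVec w = 0 ∧
        ∀ i, (w i).eval a = coeff (mo i) f := by
      by_contra hcon
      exact ha ⟨_, h1, hcon⟩
    obtain ⟨w, hw, hwf⟩ := h2
    refine ⟨PP mo w, (mulVec_eq_zero h c _ hr hro w).mp hw, ?_⟩
    rw [spe_PP, funext hwf, PP_coords hmo hr hfN]

theorem mem_of_comp {a : ℂ} {c : Matrix ι ι ℤ} {f : Fk ι ℂ}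
    (hf : ∀ N, weightedHomogeneousComponent (fun p : ι × ℕ => p.2 + 1) N f ∈ Wk c a) :
    f ∈ Wk c a := by
  classical
  have h1 := sum_weightedHomogeneousComponent (w := fun p : ι × ℕ => p.2 + 1) f
  rw [← h1, finsum_eq_sum _ (weightedHomogeneousComponent_finsupp _)]
  exact Submodule.sum_mem _ fun N _ => hf N

end

theorem main : S_GENEimp := by
  intro h hL ι _ _ c
  refine ⟨Wk_le h c, ?_, ?_⟩
  · have hp := fun N => (part h hL c N).2
    choose E hE1 hE2 using hp
    refine ⟨⋃ N, E N, Set.countable_iUnion fun N => (hE1 N).countable, ?_⟩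
    intro a ha
    refine le_antisymm (Wk_le h c a) ?_
    intro f hf
    refine mem_of_comp fun N => ?_
    refine hE2 N a (fun hN => ha (Set.mem_iUnion.mpr ⟨N, hN⟩)) _ ?_ (comp_mem N f)
    exact (h ι c).2.2.2.1 _ _ _ N f hf
  · intro a b N
    obtain ⟨⟨k, hk⟩, -⟩ := part h hL c N
    rw [hk a, hk b]

end Pool.Agent.H391.SK.P_GENE
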