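import Pool.Agent.H391.SK.StE
import Pool.Agent.H391.SK.Basic2

/-!
# Project SK, task GLUE
-/

namespace Pool.Agent.H391.SK.P_GLUE

open MvPolynomial Pool.Agent.H391.SK

variable {ι : Type}

/-- the elements of degree less than `e` -/
def F (e : ℕ) (f : Fk ι ℂ) : Prop := ∀ n, e ≤ n → homogeneousComponent n f = 0

theorem F_iff {d : ℕ} {f : Fk ι ℂ} : F (d + 1) f ↔ f.totalDegree ≤ d := by
  constructor
  · intro h
    rw [← sum_homogeneousComponent f]
    refine totalDegree_finsetSum_le ?_
    intro n _
    by_cases hn : n ≤ d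
    · exact ((homogeneousComponent_isHomogeneous n f).totalDegree_le).trans hn
    · rw [h n (by omega)]
      simp
  · intro h n hn
    exact homogeneousComponent_eq_zero n f (by omega)

theorem F_zero {f : Fk ι ℂ} (h : F 0 f) : f = 0 := by
  rw [← sum_homogeneousComponent f]
  exact Finset.sum_eq_zero (fun n _ => h n (Nat.zero_le n))

theorem F_add {e : ℕ} {f g : Fk ι ℂ} (hf : F e f) (hg : F e g) : F e (f + g) := by
  intro n hn
  rw [map_add, hf n hn, hg n hn, add_zero]

theorem F_sub {e : ℕ} {f g : Fk ι ℂ} (hf : F e f) (hg : F e g) : F e (f - g) := by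
  intro n hn
  rw [map_sub, hf n hn, hg n hn, sub_zero]

theorem F_step {e : ℕ} {f : Fk ι ℂ} (hf : F (e + 1) f) (h : homogeneousComponent e f = 0) : F e f := by
  intro n hn
  rcases Nat.eq_or_lt_of_le hn with h1 | h1
  · rw [← h1]; exact h
  · exact hf n h1

theorem F_mono {d e : ℕ} {f : Fk ι ℂ} (hf : F d f) (h : d ≤ e) : F e f :=
  fun n hn => hf n (h.trans hn)

theorem hc_self {e : ℕ} {f : Fk ι ℂ} (h : f.IsHomogeneous e) : homogeneousComponent e f = f := by
  rw [homogeneousComponent_of_mem ((mem_homogeneousSubmodule _ _).mpr h), if_pos rfl]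

theorem F_hom {e : ℕ} {f : Fk ι ℂ} (h : f.IsHomogeneous e) : F (e + 1) f := by
  intro n hn
  rw [homogeneousComponent_of_mem ((mem_homogeneousSubmodule _ _).mpr h), if_neg (by omega)]

theorem main : S_GLUE := by
  intro hMID ι _ _ c hc A H1 H2 d x hx hxB
  -- (1)
  have claim1 : ∀ N e : ℕ, ∀ i j, ∀ a ∈ A i, ∀ b ∈ A j, F N a → F N b → F (e + 1) (a + b) →
      ∃ p ∈ B c (al i), ∃ q ∈ B c (al j), homogeneousComponent e (a + b) = p + q := by
    intro N e i j
    have small : ∀ a ∈ A i, ∀ b ∈ A j, F (e + 1) a → F (e + 1) b →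
        ∃ p ∈ B c (al i), ∃ q ∈ B c (al j), homogeneousComponent e (a + b) = p + q := by
      intro a ha b hb hFa hFb
      exact ⟨_, H1 i a ha e (F_iff.mp hFa), _, H1 j b hb e (F_iff.mp hFb), map_add _ _ _⟩
    induction N with
    | zero =>
      intro a ha b hb hFa hFb _
      exact small a ha b hb (F_mono hFa (Nat.zero_le _)) (F_mono hFb (Nat.zero_le _))
    | succ M ih =>
      intro a ha b hb hFa hFb hab
      by_cases hM : M ≤ e
      · exact small a ha b hb (F_mono hFa (by omega)) (F_mono hFb (by omega))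
      · have h0 : homogeneousComponent M a + homogeneousComponent M b = 0 := by
          rw [← map_add]
          exact hab M (by omega)
        have ha1 := H1 i a ha M (F_iff.mp hFa)
        have hb1 := H1 j b hb M (F_iff.mp hFb)
        have h2 : homogeneousComponent M a = - homogeneousComponent M b := eq_neg_of_add_eq_zero_left h0
        obtain ⟨w, hw1, hw2, hw3, hw4⟩ := H2 i j M (homogeneousComponent M a)
          (homogeneousComponent_isHomogeneous M a) ha1 (by rw [h2]; exact Subalgebra.neg_mem _ hb1)
        have e1 : (a - w) + (b + w) = a + b := by ring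
        have := ih (a - w) ((A i).sub_mem ha hw1) (b + w) ((A j).add_mem hb hw2)
          (F_step (F_sub hFa (F_iff.mpr hw3)) (by rw [map_sub, hw4, sub_self]))
          (F_step (F_add hFb (F_iff.mpr hw3)) (by rw [map_add, hw4, h2]; ring))
          (by rw [e1]; exact hab)
        rw [e1] at this
        exact this
  -- (2)
  have claim2 : ∀ k ≤ d, ∃ v : Fk ι ℂ, F (d + 1) v ∧ homogeneousComponent d v = x ∧
      ∀ i, ∃ a ∈ A i, F (d - k) (v - a) := by
    intro k
    induction k with
    | zero =>
      intro _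
      refine ⟨x, F_hom hx, hc_self hx, fun i => ?_⟩
      obtain ⟨a, ha1, -, ha3, ha4⟩ := H2 i i d x hx (hxB i) (hxB i)
      refine ⟨a, ha1, ?_⟩
      rw [Nat.sub_zero]
      exact F_step (F_sub (F_hom hx) (F_iff.mpr ha3)) (by rw [map_sub, ha4, hc_self hx, sub_self])
    | succ k ih =>
      intro hk
      obtain ⟨v, hv1, hv2, hv3⟩ := ih (by omega)
      choose a ha hu using hv3
      obtain ⟨e, he⟩ : ∃ e, d = e + (k + 1) := ⟨d - (k + 1), by omega⟩
      have e1 : d - k = e + 1 := by omega
      have e2 : d - (k + 1) = e := by omega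
      rw [e1] at hu
      rw [e2]
      have hex : ∀ i j, ∃ p ∈ B c (al i), ∃ q ∈ B c (al j),
          homogeneousComponent e (v - a i) - homogeneousComponent e (v - a j) = p - q := by
        intro i j
        have hs : a i + (- a j) = (v - a j) - (v - a i) := by ring
        have hF1 : F (e + 1) (a i + (- a j)) := by
          rw [hs]; exact F_sub (hu j) (hu i)
        obtain ⟨p, hp, q, hq, hpq⟩ := claim1 (max (a i).totalDegree (a j).totalDegree + 1) e i j (a i) (ha i)
          (- a j) ((A j).neg_mem (ha j))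
          (F_iff.mpr (le_max_left _ _)) (F_iff.mpr (by rw [totalDegree_neg]; exact le_max_right _ _)) hF1
        refine ⟨-p, Subalgebra.neg_mem _ hp, q, hq, ?_⟩
        rw [hs, map_sub] at hpq
        linear_combination -hpq
      obtain ⟨g, hg⟩ := hMID ι c hc (fun i => homogeneousComponent e (v - a i)) hex
      set y := homogeneousComponent e g with hy
      have hyh : y.IsHomogeneous e := homogeneousComponent_isHomogeneous e g
      have hyi : ∀ i, y - homogeneousComponent e (v - a i) ∈ B c (al i) := by
        intro i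
        have h1 := hc_mem_B (hg i) e
        rw [map_sub, hc_self (homogeneousComponent_isHomogeneous e (v - a i))] at h1
        exact h1
      refine ⟨v - y, F_sub hv1 (F_mono (F_hom hyh) (by omega)), ?_, ?_⟩
      · rw [map_sub, hv2, F_hom hyh d (by omega), sub_zero]
      · intro i
        obtain ⟨w, hw1, -, hw3, hw4⟩ := H2 i i e (y - homogeneousComponent e (v - a i))
          (hyh.sub (homogeneousComponent_isHomogeneous e (v - a i))) (hyi i) (hyi i)
        refine ⟨a i - w, (A i).sub_mem (ha i) hw1, ?_⟩
        have e3 : v - y - (a i - w) = ((v - a i) - y) + w := by ring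
        rw [e3]
        refine F_step (F_add (F_sub (hu i) (F_hom hyh)) (F_iff.mpr hw3)) ?_
        rw [map_add, map_sub, hw4, hc_self hyh]
        ring
  obtain ⟨v, hv1, hv2, hv3⟩ := claim2 d le_rfl
  refine ⟨v, F_iff.mp hv1, hv2, fun i => ?_⟩
  obtain ⟨a, ha, hF⟩ := hv3 i
  rw [Nat.sub_self] at hF
  rw [sub_eq_zero.mp (F_zero hF)]
  exact ha

end Pool.Agent.H391.SK.P_GLUE
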