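import Mathlib
import Pool.Agent.H391.SK.StD

/-!
`S_H3`: jets over the quotient by one reflection.
-/

set_option linter.unusedSectionVars false

namespace Pool.Agent.H391.SK.P_H3

open MvPolynomial Pool.Agent.H391.SK

variable {ι : Type} [Fintype ι] [DecidableEq ι]

/-! ### truncation by the jet weight -/

/-- the weights -/
abbrev wj : ι × ℕ → ℕ := fun p => p.2

theorem weight_eq (m : (ι × ℕ) →₀ ℕ) : Finsupp.weight wj m = jwt m := by
  unfold jwt
  rw [Finsupp.weight_apply]
  rfl

/-- truncation -/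
noncomputable def tr (N : ℕ) : Fk ι ℂ →ₗ[ℂ] Fk ι ℂ :=
  ∑ n ∈ Finset.range (N + 1), weightedHomogeneousComponent wj n

theorem coeff_tr (N : ℕ) (f : Fk ι ℂ) (m : (ι × ℕ) →₀ ℕ) :
    coeff m (tr N f) = if jwt m ≤ N then coeff m f else 0 := by
  unfold tr
  rw [LinearMap.sum_apply, coeff_sum]
  simp only [coeff_weightedHomogeneousComponent, weight_eq]
  rw [Finset.sum_ite_eq]
  simp only [Finset.mem_range, Nat.lt_succ_iff]

theorem tr_eq_self {N : ℕ} {f : Fk ι ℂ} (h : JW N f) : tr N f = f := by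
  ext m
  rw [coeff_tr]
  split_ifs with h1
  · rfl
  · by_contra h2
    exact h1 (h m (mem_support_iff.2 (Ne.symm h2)))

theorem JW_tr (N : ℕ) (f : Fk ι ℂ) : JW N (tr N f) := by
  intro m hm
  rw [mem_support_iff, coeff_tr] at hm
  by_contra h
  apply hm
  rw [if_neg]
  exact h

theorem tr_hom {N d : ℕ} {g : Fk ι ℂ} (h : IsWeightedHomogeneous wj g d) :
    tr N g = if d ≤ N then g else 0 := by
  ext m
  rw [coeff_tr]
  by_cases h0 : coeff m g = 0
  · split_ifs <;> simp [h0]
  · have h1 : jwt m = d := by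
      rw [← weight_eq]
      exact h h0
    rw [h1]
    split_ifs <;> simp

theorem tr_comm {F : ι × ℕ → Fk ι ℂ} (hF : ∀ p, IsWeightedHomogeneous wj (F p) p.2) (N : ℕ)
    (f : Fk ι ℂ) : aeval F (tr N f) = tr N (aeval F f) := by
  have hmon : ∀ (m : (ι × ℕ) →₀ ℕ) (a : ℂ), aeval F (tr N (monomial m a)) =
      tr N (aeval F (monomial m a)) := by
    intro m a
    have h1 : IsWeightedHomogeneous wj (monomial m a : Fk ι ℂ) (jwt m) :=
      isWeightedHomogeneous_monomial _ _ _ (weight_eq m)
    have h2 : IsWeightedHomogeneous wj (aeval F (monomial m a)) (jwt m) := by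
      rw [aeval_monomial]
      refine IsWeightedHomogeneous.C_mul ?_ a
      unfold jwt Finsupp.prod Finsupp.sum
      exact IsWeightedHomogeneous.prod _ _ _ fun p _ => (hF p).pow (m p)
    rw [tr_hom h1, tr_hom h2]
    split_ifs
    · rfl
    · rw [map_zero]
  rw [f.as_sum]
  simp only [map_sum]
  exact Finset.sum_congr rfl fun m _ => hmon m _

/-! ### the homomorphisms -/

/-- the vector orthogonal to `α_i` -/
def vv (c : Matrix ι ι ℤ) (i k : ι) : ι → ℤ := (2 : ℤ) • al k - c k i • al i

theorem form_vv {c : Matrix ι ι ℤ} (hc : IsADE c) (i k : ι) : form c (vv c i k) (al i) = 0 := by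
  unfold vv
  rw [form_sub_left, form_smul_left, form_smul_left, form_al_al, hc.form_al]
  ring

/-- the images of the variables -/
noncomputable def ff (c : Matrix ι ι ℤ) (i k : ι) : MvPolynomial ι ℂ :=
  if k = i then X i ^ 2 else lin0 (vv c i k)

/-- `φ` -/
noncomputable def ph (c : Matrix ι ι ℤ) (i : ι) : MvPolynomial ι ℂ →ₐ[ℂ] MvPolynomial ι ℂ :=
  aeval (ff c i)

/-- `Φ` -/
noncomputable def Ph (c : Matrix ι ι ℤ) (i : ι) : Fk ι ℂ →ₐ[ℂ] Fk ι ℂ :=
  aeval fun p => D p.2 (emb (ff c i p.1))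

theorem Ph_X (c : Matrix ι ι ℤ) (i k : ι) (n : ℕ) : Ph c i (X (k, n)) = D n (emb (ff c i k)) := by
  unfold Ph
  rw [aeval_X]

theorem ph_X (c : Matrix ι ι ℤ) (i k : ι) : ph c i (X k) = ff c i k := by
  unfold ph
  rw [aeval_X]

theorem Ph_emb (c : Matrix ι ι ℤ) (i : ι) (g : MvPolynomial ι ℂ) : Ph c i (emb g) = emb (ph c i g) := by
  have h : (Ph c i).comp emb = (emb : MvPolynomial ι ℂ →ₐ[ℂ] Fk ι ℂ).comp (ph c i) := by
    refine algHom_ext fun k => ?_
    rw [AlgHom.comp_apply, AlgHom.comp_apply, emb_X, Ph_X, ph_X, D_zero_idx]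
  exact DFunLike.congr_fun h g

theorem emb_C (a : ℂ) : (emb (C a) : Fk ι ℂ) = C a := by simp [emb]

theorem D_C (n : ℕ) (a : ℂ) : D n (C a : Fk ι ℂ) = if n = 0 then C a else 0 := by
  have : (C a : Fk ι ℂ) = C a * 1 := (mul_one _).symm
  rw [this, D_C_mul, D_one]
  split_ifs <;> simp

theorem Ph_D (c : Matrix ι ι ℤ) (i : ι) (g : MvPolynomial ι ℂ) (n : ℕ) :
    Ph c i (D n (emb g)) = D n (emb (ph c i g)) := by
  induction g using MvPolynomial.induction_on generalizing n with
  | C a =>
    have h1 : ph c i (C a) = C a := (ph c i).commutes a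
    rw [h1, emb_C, D_C]
    split_ifs
    · exact (Ph c i).commutes a
    · rw [map_zero]
  | add p q hp hq => rw [map_add, map_add, D_add, map_add, map_add, D_add, hp, hq]
  | mul_X p k hp =>
    rw [map_mul, map_mul, D_mul, map_sum, map_mul, D_mul]
    refine Finset.sum_congr rfl fun x _ => ?_
    rw [map_mul, hp, ← Ph_emb, emb_X, D_X]
    congr 1
    rw [Nat.zero_add, Nat.choose_self, Nat.cast_one, map_one, one_mul, Ph_X, ph_X]

theorem C2 : (C (2 : ℂ) : MvPolynomial ι ℂ) = 2 := map_ofNat C 2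

theorem C2z : (C (((2 : ℤ) : ℂ)) : MvPolynomial ι ℂ) = 2 := by
  rw [Int.cast_ofNat]
  exact C2

theorem whom_lin (v : ι → ℤ) (n : ℕ) : IsWeightedHomogeneous wj (lin v n) n := by
  unfold lin
  refine IsWeightedHomogeneous.sum _ _ _ fun k _ => ?_
  exact IsWeightedHomogeneous.C_mul (isWeightedHomogeneous_X ℂ wj (k, n)) _

theorem emb_ff (c : Matrix ι ι ℤ) (i k : ι) :
    emb (ff c i k) = if k = i then lin (al i) 0 ^ 2 else lin (vv c i k) 0 := by
  unfold ff
  split_ifs
  · rw [map_pow, emb_X, lin_al]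
  · rw [emb_lin0]

theorem whom_F (c : Matrix ι ι ℤ) (i : ι) (p : ι × ℕ) :
    IsWeightedHomogeneous wj (D p.2 (emb (ff c i p.1))) p.2 := by
  rw [emb_ff]
  split_ifs
  · rw [D_sq]
    refine IsWeightedHomogeneous.sum _ _ _ fun x hx => ?_
    have := (whom_lin (al i) x.1).mul (whom_lin (al i) x.2)
    rwa [Finset.HasAntidiagonal.mem_antidiagonal.1 hx] at this
  · rw [D_lin0]
    exact whom_lin _ _

/-- `Φ` maps onto `B_i`, respecting jet weights -/
theorem B_le {c : Matrix ι ι ℤ} (hc : IsADE c) (i : ι) : B c (al i) ≤ (Ph c i).range := by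
  unfold B
  refine Algebra.adjoin_le ?_
  rintro f (⟨n, rfl⟩ | ⟨v, n, hv, rfl⟩)
  · refine ⟨X (i, n), ?_⟩
    show Ph c i (X (i, n)) = _
    rw [Ph_X, emb_ff, if_pos rfl]
  · have h1 : ∀ k, k ≠ i → lin (vv c i k) n ∈ (Ph c i).range := by
      intro k hk
      refine ⟨X (k, n), ?_⟩
      show Ph c i (X (k, n)) = _
      rw [Ph_X, emb_ff, if_neg hk, D_lin0]
    have h2 : (2 : ℤ) • v = ∑ k ∈ Finset.univ.erase i, v k • vv c i k := by
      funext j
      rw [Finset.sum_apply]
      simp only [vv, Pi.smul_apply, Pi.sub_apply, al, Pi.single_apply, smul_eq_mul]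
      by_cases hj : j = i
      · subst hj
        have h3 : ∑ k, v k * c k j = 0 := by rw [← form_al_right]; exact hv
        rw [← Finset.add_sum_erase _ _ (Finset.mem_univ j), hc.diag] at h3
        have h4 : ∑ k ∈ Finset.univ.erase j, v k * (2 * (if j = k then 1 else 0) - c k j * 1) =
            -∑ k ∈ Finset.univ.erase j, v k * c k j := by
          rw [← Finset.sum_neg_distrib]
          refine Finset.sum_congr rfl fun k hk => ?_
          rw [if_neg (Finset.ne_of_mem_erase hk).symm]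
          ring
        simp only [if_true]
        rw [h4]
        linarith
      · have h4 : ∑ k ∈ Finset.univ.erase i, v k * (2 * (if j = k then 1 else 0) -
            c k i * (if j = i then 1 else 0)) = ∑ k ∈ Finset.univ.erase i, if j = k then 2 * v k else 0 := by
          refine Finset.sum_congr rfl fun k _ => ?_
          rw [if_neg hj]
          split_ifs <;> ring
        rw [h4, Finset.sum_ite_eq, if_pos (Finset.mem_erase.2 ⟨hj, Finset.mem_univ j⟩)]
    have h5 : C (2 : ℂ) * lin v n = ∑ k ∈ Finset.univ.erase i, C ((v k : ℤ) : ℂ) * lin (vv c i k) n := by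
      rw [← lin_sum, ← h2, lin_smul]
      norm_num
    have h6 : C (2 : ℂ) * lin v n ∈ (Ph c i).range := by
      rw [h5]
      refine Subalgebra.sum_mem _ fun k hk => Subalgebra.mul_mem _ (Subalgebra.algebraMap_mem _ _)
        (h1 k (Finset.ne_of_mem_erase hk))
    have h7 : lin v n = C (1 / 2 : ℂ) * (C (2 : ℂ) * lin v n) := by
      rw [← mul_assoc, ← C_mul]
      norm_num
    rw [h7]
    exact Subalgebra.mul_mem _ (Subalgebra.algebraMap_mem _ _) h6

theorem exists_pre {c : Matrix ι ι ℤ} (hc : IsADE c) (i : ι) {f : Fk ι ℂ} {N : ℕ}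
    (hf : f ∈ B c (al i)) (hN : JW N f) : ∃ f', Ph c i f' = f ∧ JW N f' := by
  obtain ⟨g, hg⟩ := B_le hc i hf
  refine ⟨tr N g, ?_, JW_tr N g⟩
  have h1 : Ph c i g = f := hg
  unfold Ph at h1 ⊢
  rw [tr_comm (whom_F c i), h1, tr_eq_self hN]

/-! ### invariants of one reflection -/

theorem act0_ph {c : Matrix ι ι ℤ} (hc : IsADE c) (i : ι) (g : MvPolynomial ι ℂ) :
    act0 (sr c (al i)) (ph c i g) = ph c i g := by
  have h : (act0 (sr c (al i))).comp (ph c i) = ph c i := by
    refine algHom_ext fun k => ?_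
    rw [AlgHom.comp_apply, ph_X]
    unfold ff
    split_ifs
    · rw [map_pow, act0_X, sr_apply, hc.form_al]
      have : al i - (2 : ℤ) • al i = -al i := by rw [two_smul]; abel
      rw [this, lin0_neg, lin0_al, neg_sq]
    · rw [act0_lin0, sr_apply, form_vv hc, zero_smul, sub_zero]
  exact DFunLike.congr_fun h g

theorem decomp {c : Matrix ι ι ℤ} (i : ι) (g : MvPolynomial ι ℂ) :
    ∃ a b, g = ph c i a + X i * ph c i b := by
  induction g using MvPolynomial.induction_on with
  | C a =>
    refine ⟨C a, 0, ?_⟩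
    have h1 : ph c i (C a) = C a := (ph c i).commutes a
    rw [h1, map_zero, mul_zero, add_zero]
  | add p q hp hq =>
    obtain ⟨a, b, h1⟩ := hp
    obtain ⟨a', b', h2⟩ := hq
    refine ⟨a + a', b + b', ?_⟩
    rw [map_add, map_add]
    conv_lhs => rw [h1, h2]
    ring
  | mul_X p k hp =>
    obtain ⟨a, b, h1⟩ := hp
    by_cases hk : k = i
    · subst hk
      refine ⟨b * X k, a, ?_⟩
      rw [map_mul, ph_X, ff, if_pos rfl]
      conv_lhs => rw [h1]
      ring
    · have h2 : (X k : MvPolynomial ι ℂ) = C (1 / 2 : ℂ) * (ph c i (X k)) +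
          C ((c k i : ℂ) / 2) * X i := by
        rw [ph_X, ff, if_neg hk]
        unfold vv
        rw [lin0_sub, lin0_smul, lin0_smul, lin0_al, lin0_al]
        have e1 : (C (((2 : ℤ) : ℂ)) : MvPolynomial ι ℂ) = 2 := C2z
        have e2 : (C ((c k i : ℂ) / 2) : MvPolynomial ι ℂ) = C (1 / 2 : ℂ) * C ((c k i : ℤ) : ℂ) := by
          rw [← C_mul]
          congr 1
          ring
        have e3 : (C (1 / 2 : ℂ) : MvPolynomial ι ℂ) * 2 = 1 := by
          have : (2 : MvPolynomial ι ℂ) = C (2 : ℂ) := C2.symm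
          rw [this, ← C_mul]
          norm_num
        rw [e1, e2]
        linear_combination (-(X k : MvPolynomial ι ℂ)) * e3
      refine ⟨C (1 / 2 : ℂ) * a * X k + C ((c k i : ℂ) / 2) * (b * X i),
        C (1 / 2 : ℂ) * b * X k + C ((c k i : ℂ) / 2) * a, ?_⟩
      have hC : ∀ z : ℂ, ph c i (C z) = C z := fun z => (ph c i).commutes z
      have hi : ph c i (X i) = X i ^ 2 := by rw [ph_X, ff, if_pos rfl]
      simp only [map_add, map_mul, hC, hi]
      conv_lhs => rw [h1, h2]
      ring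

theorem inv_range {c : Matrix ι ι ℤ} (hc : IsADE c) (i : ι) {g : MvPolynomial ι ℂ}
    (hg : act0 (sr c (al i)) g = g) : ∃ a, ph c i a = g := by
  obtain ⟨a, b, h⟩ := decomp (c := c) i g
  have h1 : act0 (sr c (al i)) g = ph c i a - X i * ph c i b := by
    rw [h, map_add, map_mul, act0_ph hc, act0_ph hc, act0_X, sr_apply, hc.form_al]
    have : al i - (2 : ℤ) • al i = -al i := by rw [two_smul]; abel
    rw [this, lin0_neg, lin0_al]
    ring
  rw [hg, h] at h1
  have h2 : (2 : MvPolynomial ι ℂ) * (X i * ph c i b) = 0 := by linear_combination h1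
  have h3 : X i * ph c i b = 0 := by
    rcases mul_eq_zero.1 h2 with h4 | h4
    · exact absurd h4 two_ne_zero
    · exact h4
  exact ⟨a, by rw [h, h3, add_zero]⟩

/-! ### the chain rule -/

theorem pderiv_aeval (F : ι → MvPolynomial ι ℂ) (p : MvPolynomial ι ℂ) (k : ι) :
    pderiv k (aeval F p) = ∑ m, aeval F (pderiv m p) * pderiv k (F m) := by
  induction p using MvPolynomial.induction_on with
  | C a =>
    have h1 : aeval F (C a) = C a := by simp
    rw [h1, pderiv_C]
    simp
  | add p q hp hq =>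
    rw [map_add, map_add, hp, hq, ← Finset.sum_add_distrib]
    refine Finset.sum_congr rfl fun m _ => ?_
    rw [map_add, map_add, add_mul]
  | mul_X p j hp =>
    rw [map_mul, aeval_X, pderiv_mul, hp, Finset.sum_mul]
    have h1 : ∀ m, aeval F (pderiv m (p * X j)) * pderiv k (F m) =
        aeval F (pderiv m p) * pderiv k (F m) * F j +
          if m = j then aeval F p * pderiv k (F j) else 0 := by
      intro m
      rw [pderiv_mul, map_add, map_mul, map_mul, aeval_X, pderiv_X]
      by_cases h : m = j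
      · subst h
        rw [Pi.single_eq_same, map_one, if_pos rfl]
        ring
      · rw [Pi.single_eq_of_ne (Ne.symm h), map_zero, if_neg h]
        ring
    simp only [h1]
    rw [Finset.sum_add_distrib, Finset.sum_ite_eq']
    simp

theorem Jac_aeval (F : ι → MvPolynomial ι ℂ) (P' : ι → MvPolynomial ι ℂ) :
    Jac (fun j => aeval F (P' j)) = aeval F (Jac P') * Jac F := by
  unfold Jac
  rw [AlgHom.map_det, ← Matrix.det_mul]
  congr 1
  ext j k
  rw [Matrix.of_apply, Matrix.mul_apply, pderiv_aeval]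
  rfl

theorem Jac_ff (c : Matrix ι ι ℤ) (i : ι) : ∃ κ : ℂ, κ ≠ 0 ∧ Jac (ff c i) = C κ * X i := by
  refine ⟨2 * 2 ^ (Finset.univ.erase i).card, mul_ne_zero two_ne_zero (pow_ne_zero _ two_ne_zero), ?_⟩
  set d : ι → MvPolynomial ι ℂ := fun k => if k = i then 2 * X i else 2 with hd
  set u : ι → MvPolynomial ι ℂ := fun k => if k = i then 0 else -C ((c k i : ℂ) / 2) with hu
  set w : ι → MvPolynomial ι ℂ := fun k => if k = i then 1 else 0 with hw
  have h1 : (Matrix.of fun j k => pderiv k (ff c i j)) =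
      Matrix.diagonal d * (1 + Matrix.replicateCol Unit u * Matrix.replicateRow Unit w) := by
    ext1 j k
    rw [Matrix.of_apply, Matrix.diagonal_mul, Matrix.add_apply, Matrix.mul_apply]
    simp only [Finset.univ_unique, Finset.sum_singleton, Matrix.replicateCol_apply,
      Matrix.replicateRow_apply]
    by_cases hj : j = i
    · subst hj
      simp only [ff, hd, hu, if_true, zero_mul, add_zero]
      rw [pderiv_pow, pderiv_X, Matrix.one_apply]
      by_cases hk : j = k
      · subst hk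
        simp
      · rw [Pi.single_eq_of_ne hk, if_neg hk]
        simp
    · simp only [ff, hd, hu, hw, if_neg hj]
      have e0 : lin0 (vv c i j) = C (2 : ℂ) * X j - C ((c j i : ℤ) : ℂ) * X i := by
        unfold vv
        rw [lin0_sub, lin0_smul, lin0_smul, lin0_al, lin0_al]
        norm_num
      have e1 : (C ((c j i : ℤ) : ℂ) : MvPolynomial ι ℂ) = 2 * C ((c j i : ℂ) / 2) := by
        have : (2 : MvPolynomial ι ℂ) = C (2 : ℂ) := C2.symm
        rw [this, ← C_mul]
        congr 1
        ring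
      have e2 : (C (2 : ℂ) : MvPolynomial ι ℂ) = 2 := C2
      rw [e0, map_sub, pderiv_C_mul, pderiv_C_mul, pderiv_X, pderiv_X, Matrix.one_apply, e1, e2]
      by_cases hjk : j = k
      · subst hjk
        rw [Pi.single_eq_same, Pi.single_eq_of_ne (Ne.symm hj), if_pos rfl, if_neg hj]
        ring
      · rw [Pi.single_eq_of_ne hjk, if_neg hjk]
        by_cases hik : i = k
        · subst hik
          rw [Pi.single_eq_same, if_pos rfl]
          ring
        · rw [Pi.single_eq_of_ne hik, if_neg (Ne.symm hik)]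
          ring
  have h2 : (1 + Matrix.replicateCol Unit u * Matrix.replicateRow Unit w).det = 1 := by
    rw [Matrix.det_one_add_replicateCol_mul_replicateRow]
    have : w ⬝ᵥ u = 0 := by
      unfold dotProduct
      refine Finset.sum_eq_zero fun k _ => ?_
      simp only [hw, hu]
      split_ifs <;> simp
    rw [this, add_zero]
  unfold Jac
  rw [h1, Matrix.det_mul, Matrix.det_diagonal, h2, mul_one,
    ← Finset.mul_prod_erase _ _ (Finset.mem_univ i)]
  have h3 : ∏ k ∈ Finset.univ.erase i, d k = 2 ^ (Finset.univ.erase i).card := by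
    rw [Finset.prod_congr rfl (g := fun _ => (2 : MvPolynomial ι ℂ)), Finset.prod_const]
    intro k hk
    simp only [hd]
    rw [if_neg (Finset.ne_of_mem_erase hk)]
  rw [h3]
  simp only [hd, if_true, map_mul, map_pow, map_ofNat]
  ring

/-! ### the products of roots -/

theorem PR_empty (c : Matrix ι ι ℤ) : PR c ∅ = ∅ := by
  ext β
  simp only [PR, Set.mem_empty_iff_false, iff_false]
  rintro ⟨h1, -, h3⟩
  have : β = 0 := funext fun k => h3 k (Set.notMem_empty k)
  rw [this] at h1
  simp [form] at h1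

theorem PR_single {c : Matrix ι ι ℤ} (hc : IsADE c) (i : ι) : PR c {i} = {al i} := by
  ext β
  rw [Set.mem_singleton_iff]
  constructor
  · rintro ⟨h1, h2, h3⟩
    have h4 : β = β i • al i := by
      funext k
      by_cases hk : k = i
      · subst hk; simp [al]
      · rw [h3 k (by simpa using hk)]
        simp [al, hk]
    rw [h4, form_smul_left, form_smul_right, hc.form_al] at h1
    have h5 : β i = 1 := by
      have h6 := h2 i
      nlinarith
    rw [h4, h5, one_smul]
  · rintro rfl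
    refine ⟨hc.form_al i, fun k => ?_, fun k hk => ?_⟩
    · simp only [al, Pi.single_apply]
      split_ifs <;> norm_num
    · have : k ≠ i := by simpa using hk
      simp [al, this]

theorem Jc_split (hR : S_ROOT) {c : Matrix ι ι ℤ} (hc : IsADE c) {I : Set ι} {i : ι} (hi : i ∈ I) :
    Jc c I ∅ = X i * Jc c I {i} := by
  have hfin := (hR ι c hc).2.1 I
  have hmem : al i ∈ PR c I := by
    refine ⟨hc.form_al i, fun k => ?_, fun k hk => ?_⟩
    · simp only [al, Pi.single_apply]
      split_ifs <;> norm_num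
    · have : k ≠ i := fun h => hk (h ▸ hi)
      simp [al, this]
  unfold Jc
  rw [PR_empty, PR_single hc, Set.sdiff_empty]
  have h1 : PR c I = insert (al i) (PR c I \ {al i}) := by
    rw [Set.insert_sdiff_singleton, Set.insert_eq_of_mem hmem]
  conv_lhs => rw [h1]
  rw [finprod_mem_insert _ (by simp) (hfin.subset Set.sdiff_subset), lin0_al]

theorem main : S_H3 := by
  intro hR hLEN hJAC hJINV ι _ _ c hc I P hGen i hi N f hf hN
  -- the preimages of the `P j`
  have hP : ∀ j, ∃ a, ph c i a = P j := by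
    intro j
    apply inv_range hc i
    exact (hGen (P j)).1 (Algebra.subset_adjoin ⟨j, rfl⟩) i hi
  choose P' hP' using hP
  obtain ⟨κ₁, hκ₁, h1⟩ := Jac_ff c i
  obtain ⟨κ, hκ, h2⟩ := hJAC hR hLEN ι c hc I P hGen
  have h3 : Jac P = ph c i (Jac P') * Jac (ff c i) := by
    have : P = fun j => aeval (ff c i) (P' j) := funext fun j => (hP' j).symm
    conv_lhs => rw [this]
    exact Jac_aeval (ff c i) P'
  have h4 : ph c i (Jac P') = C (κ / κ₁) * Jc c I {i} := by
    have hX : (X i : MvPolynomial ι ℂ) ≠ 0 := X_ne_zero i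
    have hC : (C κ₁ : MvPolynomial ι ℂ) ≠ 0 := by
      rw [Ne, C_eq_zero]
      exact hκ₁
    have e1 : (C κ : MvPolynomial ι ℂ) = C κ₁ * C (κ / κ₁) := by
      rw [← C_mul]
      congr 1
      field_simp
    apply mul_right_cancel₀ (mul_ne_zero hC hX)
    rw [← h1, ← h3, h2, Jc_split hR hc (show i ∈ (I : Set ι) from hi), e1, h1]
    ring
  obtain ⟨f', hf', hN'⟩ := exists_pre hc i hf hN
  have h5 := hJINV ι P' N f' hN'
  have h6 : RO P' ≤ (RO P).comap (Ph c i) := by
    unfold RO
    refine Algebra.adjoin_le ?_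
    rintro g (⟨g, rfl⟩ | ⟨j, n, rfl⟩)
    · rw [SetLike.mem_coe, Subalgebra.mem_comap, Ph_emb]
      exact Algebra.subset_adjoin (Or.inl ⟨_, rfl⟩)
    · rw [SetLike.mem_coe, Subalgebra.mem_comap, Ph_D, hP']
      exact Algebra.subset_adjoin (Or.inr ⟨j, n, rfl⟩)
  have h7 : Ph c i (emb (Jac P') ^ (2 * N) * f') ∈ RO P := h6 h5
  rw [map_mul, map_pow, Ph_emb, h4, hf', map_mul, emb_C, mul_pow, ← C_pow, mul_assoc] at h7
  have hne : (κ / κ₁) ^ (2 * N) ≠ 0 := pow_ne_zero _ (div_ne_zero hκ hκ₁)
  have h8 : emb (Jc c I {i}) ^ (2 * N) * f = C (((κ / κ₁) ^ (2 * N))⁻¹) *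
      (C ((κ / κ₁) ^ (2 * N)) * (emb (Jc c I {i}) ^ (2 * N) * f)) := by
    rw [← mul_assoc, ← C_mul, inv_mul_cancel₀ hne, C_1, one_mul]
  rw [h8]
  exact Subalgebra.mul_mem _ (Subalgebra.algebraMap_mem _ _) h7

end Pool.Agent.H391.SK.P_H3
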