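import Pool.Agent.H391.SK.StD

/-!
# Project SK, task IND: algebraic independence of the jets of generators
-/

namespace Pool.Agent.H391.SK.P_IND

open MvPolynomial

set_option linter.unusedSectionVars false

variable {ι : Type} [Fintype ι] [DecidableEq ι]

/-- The coefficientwise derivative of a power series with respect to the variable `q`. -/
noncomputable def dd (q : ι × ℕ) (s : PowerSeries (Fk ι ℂ)) : PowerSeries (Fk ι ℂ) :=
  PowerSeries.mk fun n => pderiv q (PowerSeries.coeff n s)

theorem coeff_dd (q : ι × ℕ) (s : PowerSeries (Fk ι ℂ)) (n : ℕ) :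
    PowerSeries.coeff n (dd q s) = pderiv q (PowerSeries.coeff n s) := by
  rw [dd, PowerSeries.coeff_mk]

theorem dd_add (q : ι × ℕ) (s t : PowerSeries (Fk ι ℂ)) : dd q (s + t) = dd q s + dd q t := by
  ext1 n
  rw [coeff_dd, map_add, map_add, map_add, coeff_dd, coeff_dd]

theorem dd_mul (q : ι × ℕ) (s t : PowerSeries (Fk ι ℂ)) :
    dd q (s * t) = dd q s * t + s * dd q t := by
  ext1 n
  rw [coeff_dd, PowerSeries.coeff_mul, map_sum, map_add, PowerSeries.coeff_mul,
    PowerSeries.coeff_mul, ← Finset.sum_add_distrib]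
  refine Finset.sum_congr rfl fun x _ => ?_
  rw [pderiv_mul, coeff_dd, coeff_dd]

theorem emb_C (a : ℂ) : (emb (C a : MvPolynomial ι ℂ) : Fk ι ℂ) = C a := by
  simp [emb]

theorem jet_C (a : ℂ) : jet (C a : Fk ι ℂ) = PowerSeries.C (C a) := by
  have h : (C a : Fk ι ℂ) = algebraMap ℂ (Fk ι ℂ) a := rfl
  rw [h, AlgHom.commutes, PowerSeries.algebraMap_apply]

theorem jet_emb_X (i : ι) : jet (emb (X i : MvPolynomial ι ℂ)) =
    PowerSeries.mk fun n => (X (i, n) : Fk ι ℂ) := by
  rw [emb_X, jet, aeval_X]
  ext1 n
  rw [PowerSeries.coeff_mk, PowerSeries.coeff_mk]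
  simp

theorem dd_jet_X (k i : ι) (m : ℕ) : dd (k, m) (jet (emb (X i : MvPolynomial ι ℂ))) =
    PowerSeries.X ^ m * jet (emb (pderiv k (X i : MvPolynomial ι ℂ))) := by
  rw [jet_emb_X, pderiv_X]
  ext1 n
  rw [coeff_dd, PowerSeries.coeff_mk, pderiv_X]
  by_cases hik : i = k
  · subst hik
    rw [Pi.single_eq_same, map_one, map_one, mul_one, PowerSeries.coeff_X_pow]
    by_cases hn : n = m
    · subst hn
      rw [Pi.single_eq_same, if_pos rfl]
    · rw [if_neg hn, Pi.single_eq_of_ne]
      intro h
      exact hn (Prod.ext_iff.mp h).2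
  · rw [Pi.single_eq_of_ne hik, map_zero, map_zero, mul_zero, map_zero, Pi.single_eq_of_ne]
    intro h
    exact hik (Prod.ext_iff.mp h).1

theorem dd_jet (k : ι) (m : ℕ) (f : MvPolynomial ι ℂ) :
    dd (k, m) (jet (emb f)) = PowerSeries.X ^ m * jet (emb (pderiv k f)) := by
  induction f using MvPolynomial.induction_on with
  | C a =>
    rw [pderiv_C, map_zero, map_zero, mul_zero, emb_C, jet_C]
    ext1 n
    rw [coeff_dd, PowerSeries.coeff_C, map_zero]
    split_ifs
    · exact pderiv_C
    · exact map_zero _
  | add p q hp hq =>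
    rw [map_add, map_add, dd_add, hp, hq, map_add, map_add, map_add, mul_add]
  | mul_X p i hp =>
    rw [map_mul, map_mul, dd_mul, hp, dd_jet_X, pderiv_mul, map_add, map_add, map_mul, map_mul,
      map_mul, map_mul]
    ring

theorem pderiv_D (k : ι) (m n : ℕ) (f : MvPolynomial ι ℂ) :
    pderiv (k, m) (D n (emb f)) = if m ≤ n then D (n - m) (emb (pderiv k f)) else 0 := by
  have h := congrArg (PowerSeries.coeff n) (dd_jet k m f)
  rw [coeff_dd, PowerSeries.coeff_X_pow_mul'] at h
  exact h

/-- The chain rule. -/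
theorem chain (Q : ι × ℕ → Fk ι ℂ) (s : Finset (ι × ℕ)) (q : ι × ℕ) (H : MvPolynomial (ι × ℕ) ℂ)
    (hH : H ∈ supported ℂ (s : Set (ι × ℕ))) :
    pderiv q (aeval Q H) = ∑ p ∈ s, aeval Q (pderiv p H) * pderiv q (Q p) := by
  unfold supported at hH
  induction hH using Algebra.adjoin_induction with
  | mem x hx =>
    obtain ⟨p, hp, rfl⟩ := hx
    rw [aeval_X, Finset.sum_eq_single p]
    · rw [pderiv_X_self, map_one, one_mul]
    · intro b _ hb
      rw [pderiv_X_of_ne hb.symm, map_zero, zero_mul]
    · intro h
      exact absurd (Finset.mem_coe.mp hp) h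
  | algebraMap r =>
    rw [AlgHom.commutes, Derivation.map_algebraMap]
    symm
    refine Finset.sum_eq_zero fun p _ => ?_
    rw [Derivation.map_algebraMap, map_zero, zero_mul]
  | add x y _ _ hx hy =>
    rw [map_add, map_add, hx, hy, ← Finset.sum_add_distrib]
    refine Finset.sum_congr rfl fun p _ => ?_
    rw [map_add, map_add, add_mul]
  | mul x y _ _ hx hy =>
    rw [map_mul, pderiv_mul, hx, hy, Finset.sum_mul, Finset.mul_sum, ← Finset.sum_add_distrib]
    refine Finset.sum_congr rfl fun p _ => ?_
    rw [pderiv_mul, map_add, map_mul, map_mul]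
    ring

/-- The block triangular system has only the trivial solution. -/
theorem inj (P : ι → MvPolynomial ι ℂ) (hJ : Jac P ≠ 0) (h : ι × ℕ → Fk ι ℂ)
    (s : Finset (ι × ℕ)) (hs : ∀ p, p ∉ s → h p = 0)
    (hz : ∀ q : ι × ℕ, ∑ p ∈ s, h p * pderiv q (D p.2 (emb (P p.1))) = 0) :
    ∀ p, h p = 0 := by
  obtain ⟨N, hN⟩ : ∃ N : ℕ, ∀ p ∈ s, p.2 < N :=
    ⟨s.sup (fun p => p.2) + 1, fun p hp =>
      Nat.lt_succ_of_le (Finset.le_sup (f := fun p : ι × ℕ => p.2) hp)⟩
  -- downward induction
  have key : ∀ d M : ℕ, N ≤ M + d → ∀ j, h (j, M) = 0 := by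
    intro d
    induction d with
    | zero =>
      intro M hM j
      apply hs
      intro hmem
      have := hN _ hmem
      simp at this
      omega
    | succ d ih =>
      intro M hM
      have ih' : ∀ n, M < n → ∀ j, h (j, n) = 0 := fun n hn j => ih n (by omega) j
      -- extend the sum to a box
      have h1 : ∀ k : ι, ∑ j, h (j, M) * emb (pderiv k (P j)) = 0 := by
        intro k
        have h2 := hz (k, M)
        have h3 : ∀ p ∈ s, h p * pderiv (k, M) (D p.2 (emb (P p.1))) =
            if p.2 = M then h p * emb (pderiv k (P p.1)) else 0 := by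
          intro p _
          rw [pderiv_D]
          rcases lt_trichotomy p.2 M with hlt | heq | hgt
          · rw [if_neg (by omega), if_neg (by omega), mul_zero]
          · rw [if_pos (by omega), if_pos heq, heq, Nat.sub_self, D_zero_idx]
          · have : h p = 0 := ih' p.2 hgt p.1
            rw [this, zero_mul, zero_mul, ite_self]
        rw [Finset.sum_congr rfl h3, ← Finset.sum_filter] at h2
        rw [← h2]
        symm
        refine Finset.sum_bij_ne_zero (fun p _ _ => p.1) ?_ ?_ ?_ ?_
        · intros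
          exact Finset.mem_univ _
        · intro a ha _ b hb _ hab
          have ha' := (Finset.mem_filter.mp ha).2
          have hb' := (Finset.mem_filter.mp hb).2
          exact Prod.ext hab (ha'.trans hb'.symm)
        · intro j _ hj
          refine ⟨(j, M), Finset.mem_filter.mpr ⟨?_, rfl⟩, hj, rfl⟩
          by_contra hcon
          rw [hs _ hcon, zero_mul] at hj
          exact hj rfl
        · intro a ha _
          have ha' := (Finset.mem_filter.mp ha).2
          rw [← ha']
      have hdet : (Matrix.of fun j k => (emb (pderiv k (P j)) : Fk ι ℂ)).det ≠ 0 := by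
        have h4 : (Matrix.of fun j k => (emb (pderiv k (P j)) : Fk ι ℂ)).det = emb (Jac P) := by
          rw [Jac, AlgHom.map_det]
          rfl
        rw [h4]
        intro h5
        exact hJ (emb_injective (by rw [h5, map_zero]))
      have hv : Matrix.vecMul (fun j => h (j, M))
          (Matrix.of fun j k => (emb (pderiv k (P j)) : Fk ι ℂ)) = 0 := by
        funext k
        exact h1 k
      have := Matrix.eq_zero_of_vecMul_eq_zero hdet hv
      intro j
      exact congrFun this j
  intro p
  exact key N p.2 (by omega) p.1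

theorem vanish (P : ι → MvPolynomial ι ℂ) (hJ : Jac P ≠ 0) :
    ∀ (d : ℕ) (H : MvPolynomial (ι × ℕ) ℂ), (∀ m ∈ H.support, m.degree ≤ d) →
      aeval (fun p : ι × ℕ => D p.2 (emb (P p.1))) H = 0 → H = 0 := by
  have final : ∀ H : MvPolynomial (ι × ℕ) ℂ, (∀ m, m ≠ 0 → coeff m H = 0) →
      aeval (fun p : ι × ℕ => D p.2 (emb (P p.1))) H = 0 → H = 0 := by
    intro H hH h0
    have h1 : H = C (coeff 0 H) := by
      ext m
      rw [coeff_C]
      split_ifs with hm
      · rw [← hm]
      · exact hH m (Ne.symm hm)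
    rw [h1, aeval_C] at h0
    have h2 : (C (coeff 0 H) : Fk ι ℂ) = 0 := h0
    rw [C_eq_zero] at h2
    rw [h1, h2, C_0]
  intro d
  induction d with
  | zero =>
    intro H hH h0
    refine final H (fun m hm => ?_) h0
    by_contra hc
    have := hH m (mem_support_iff.mpr hc)
    rw [Nat.le_zero, Finsupp.degree_eq_zero_iff] at this
    exact hm this
  | succ d ih =>
    intro H hH h0
    have h1 : ∀ p, aeval (fun p : ι × ℕ => D p.2 (emb (P p.1))) (pderiv p H) = 0 := by
      refine inj P hJ _ H.vars ?_ ?_
      · intro p hp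
        show aeval (fun p : ι × ℕ => D p.2 (emb (P p.1))) (pderiv p H) = 0
        rw [pderiv_eq_zero_of_notMem_vars hp, map_zero]
      · intro q
        have h2 := chain (fun p : ι × ℕ => D p.2 (emb (P p.1))) H.vars q H
          (mem_supported_vars H)
        rw [h0, map_zero] at h2
        exact h2.symm
    have h3 : ∀ p, pderiv p H = 0 := by
      intro p
      refine ih _ ?_ (h1 p)
      intro m hm
      rw [mem_support_iff, coeff_pderiv] at hm
      have h4 : coeff (m + Finsupp.single p 1) H ≠ 0 := by
        intro h5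
        apply hm
        rw [h5]
        simp
      have h5 := hH _ (mem_support_iff.mpr h4)
      rw [map_add, Finsupp.degree_single] at h5
      omega
    refine final H (fun m hm => ?_) h0
    obtain ⟨p, hp⟩ : ∃ p, m p ≠ 0 := by
      by_contra hcon
      push Not at hcon
      exact hm (Finsupp.ext hcon)
    have h6 := congrArg (coeff (m - Finsupp.single p 1)) (h3 p)
    rw [coeff_pderiv, coeff_zero] at h6
    have h7 : m - Finsupp.single p 1 + Finsupp.single p 1 = m := by
      refine tsub_add_cancel_of_le ?_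
      rw [Finsupp.single_le_iff]
      omega
    rw [h7] at h6
    rcases mul_eq_zero.mp h6 with h8 | h8
    · exact h8
    · exact absurd h8 (Nat.cast_add_one_ne_zero _)

theorem main : S_IND := by
  intro ι _ _ P hJ
  rw [algebraicIndependent_iff_injective_aeval, injective_iff_map_eq_zero]
  intro H hH
  exact vanish P hJ (H.support.sup Finsupp.degree) H
    (fun m hm => Finset.le_sup (f := Finsupp.degree) hm) hH

end Pool.Agent.H391.SK.P_IND
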