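import Pool.Agent.H391.SK.StD

/-!
# Project SK (helper391), task SK-JINV: jet inversion with the Jacobian (helper225)
-/

set_option autoImplicit false

namespace Pool.Agent.H391.SK.P_JINV

open MvPolynomial

variable {ι : Type} [Fintype ι] [DecidableEq ι]

theorem emb_mem (P : ι → MvPolynomial ι ℂ) (g : MvPolynomial ι ℂ) : emb g ∈ RO P :=
  Algebra.subset_adjoin (Or.inl ⟨g, rfl⟩)

theorem D_mem (P : ι → MvPolynomial ι ℂ) (j : ι) (n : ℕ) : D n (emb (P j)) ∈ RO P :=
  Algebra.subset_adjoin (Or.inr ⟨j, n, rfl⟩)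

/-- the nonlinear part -/
noncomputable def E (n : ℕ) (g : MvPolynomial ι ℂ) : Fk ι ℂ :=
  D n (emb g) - ∑ k, emb (pderiv k g) * X (k, n)

theorem E_add (n : ℕ) (g h : MvPolynomial ι ℂ) : E n (g + h) = E n g + E n h := by
  unfold E
  simp only [map_add, D_add, add_mul, Finset.sum_add_distrib]
  ring

theorem E_C (m : ℕ) (a : ℂ) : E (m + 1) (C a : MvPolynomial ι ℂ) = 0 := by
  unfold E
  have h1 : (emb (C a) : Fk ι ℂ) = a • 1 := by
    rw [smul_eq_C_mul, mul_one]
    exact emb.commutes a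
  rw [h1, D_smul, D_one, if_neg (Nat.succ_ne_zero m), smul_zero]
  simp

theorem D_X0 (n : ℕ) (i : ι) : D n (X (i, 0) : Fk ι ℂ) = X (i, n) := by
  rw [D_X]
  simp

/-- the antidiagonal without its ends -/
theorem sum_ends {M : Type} [AddCommMonoid M] (m : ℕ) (F : ℕ × ℕ → M) :
    ∑ p ∈ Finset.HasAntidiagonal.antidiagonal (m + 1), F p = F (0, m + 1) + F (m + 1, 0) +
      ∑ p ∈ (Finset.HasAntidiagonal.antidiagonal (m + 1)).filter (fun p => p.1 ≠ 0 ∧ p.2 ≠ 0),
        F p := by
  classical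
  have h1 : (Finset.HasAntidiagonal.antidiagonal (m + 1)).filter
      (fun p : ℕ × ℕ => ¬ (p.1 ≠ 0 ∧ p.2 ≠ 0)) = {(0, m + 1), (m + 1, 0)} := by
    ext ⟨a, b⟩
    rw [Finset.mem_filter, Finset.HasAntidiagonal.mem_antidiagonal, Finset.mem_insert,
      Finset.mem_singleton, Prod.mk.injEq, Prod.mk.injEq]
    constructor
    · rintro ⟨h, h'⟩
      simp only [ne_eq] at h h'
      by_cases ha : a = 0
      · left; omega
      · right
        have : b = 0 := by
          by_contra hb
          exact h' ⟨ha, hb⟩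
        omega
    · rintro (⟨rfl, rfl⟩ | ⟨rfl, rfl⟩)
      · simp
      · simp
  rw [← Finset.sum_filter_add_sum_filter_not _ (fun p : ℕ × ℕ => p.1 ≠ 0 ∧ p.2 ≠ 0), h1,
    Finset.sum_pair (by simp), add_comm]

theorem E_mul_X (m : ℕ) (g : MvPolynomial ι ℂ) (i : ι) :
    E (m + 1) (g * X i) = E (m + 1) g * X (i, 0) +
      ∑ p ∈ (Finset.HasAntidiagonal.antidiagonal (m + 1)).filter (fun p => p.1 ≠ 0 ∧ p.2 ≠ 0),
        D p.1 (emb g) * X (i, p.2) := by
  have h1 : D (m + 1) (emb (g * X i)) = emb g * X (i, m + 1) + D (m + 1) (emb g) * X (i, 0) +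
      ∑ p ∈ (Finset.HasAntidiagonal.antidiagonal (m + 1)).filter (fun p => p.1 ≠ 0 ∧ p.2 ≠ 0),
        D p.1 (emb g) * X (i, p.2) := by
    rw [map_mul, emb_X, D_mul, sum_ends]
    simp only [D_X0, D_zero_idx]
  have h2 : ∑ k, emb (pderiv k (g * X i)) * (X (k, m + 1) : Fk ι ℂ) =
      (∑ k, emb (pderiv k g) * X (k, m + 1)) * X (i, 0) + emb g * X (i, m + 1) := by
    have h3 : ∀ k, emb (pderiv k (g * X i)) * (X (k, m + 1) : Fk ι ℂ) =
        emb (pderiv k g) * X (k, m + 1) * X (i, 0) +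
          (if k = i then emb g * X (k, m + 1) else 0) := by
      intro k
      rw [pderiv_mul, map_add, map_mul, map_mul, emb_X, pderiv_X]
      by_cases hk : k = i
      · subst hk
        rw [Pi.single_eq_same, if_pos rfl, map_one]
        ring
      · rw [if_neg hk, Pi.single_eq_of_ne (by exact fun h => hk h.symm), map_zero]
        ring
    rw [Finset.sum_congr rfl fun k _ => h3 k, Finset.sum_add_distrib, Finset.sum_mul,
      Finset.sum_ite_eq' Finset.univ i, if_pos (Finset.mem_univ i)]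
  unfold E
  rw [h1, h2]
  ring

/-- Cramer's rule -/
theorem cramer (P : ι → MvPolynomial ι ℂ) (n : ℕ) (k : ι) :
    emb (Jac P) * (X (k, n) : Fk ι ℂ) =
      ∑ j, emb ((Matrix.of fun j k => pderiv k (P j)).adjugate k j) * (D n (emb (P j)) - E n (P j)) := by
  have h1 : ∀ j, D n (emb (P j)) - E n (P j) = ∑ l, emb (pderiv l (P j)) * X (l, n) := by
    intro j
    unfold E
    ring
  simp only [h1, Finset.mul_sum]
  rw [Finset.sum_comm]
  have h2 : ∀ l, ∑ j, emb ((Matrix.of fun j k => pderiv k (P j)).adjugate k j) *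
      (emb (pderiv l (P j)) * (X (l, n) : Fk ι ℂ)) = if l = k then emb (Jac P) * X (l, n) else 0 := by
    intro l
    have h3 : ((Matrix.of fun j k => pderiv k (P j)).adjugate *
        (Matrix.of fun j k => pderiv k (P j))) k l = if l = k then Jac P else 0 := by
      rw [Matrix.adjugate_mul, Matrix.smul_apply, Matrix.one_apply, smul_eq_mul]
      unfold Jac
      by_cases h : l = k
      · rw [if_pos h, if_pos h.symm, mul_one]
      · rw [if_neg h, if_neg (fun e => h e.symm), mul_zero]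
    rw [Matrix.mul_apply] at h3
    have h4 := congrArg (emb : MvPolynomial ι ℂ →ₐ[ℂ] Fk ι ℂ) h3
    rw [map_sum] at h4
    have h5 : ∑ j, emb ((Matrix.of fun j k => pderiv k (P j)).adjugate k j) *
        (emb (pderiv l (P j)) * (X (l, n) : Fk ι ℂ)) =
        (∑ j, emb ((Matrix.of fun j k => pderiv k (P j)).adjugate k j *
          (Matrix.of fun j k => pderiv k (P j)) j l)) * (X (l, n) : Fk ι ℂ) := by
      rw [Finset.sum_mul]
      refine Finset.sum_congr rfl fun j _ => ?_
      rw [map_mul, Matrix.of_apply]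
      ring
    rw [h5, h4]
    split_ifs
    · rfl
    · rw [map_zero, zero_mul]
  rw [Finset.sum_congr rfl fun l _ => h2 l, Finset.sum_ite_eq' Finset.univ k,
    if_pos (Finset.mem_univ k)]

/-- the claim -/
theorem claim (P : ι → MvPolynomial ι ℂ) (m : ℕ) :
    (∀ g, emb (Jac P) ^ (2 * m) * E (m + 1) g ∈ RO P) ∧
    (∀ k, emb (Jac P) ^ (2 * m + 1) * X (k, m + 1) ∈ RO P) ∧
    (∀ g, emb (Jac P) ^ (2 * m + 1) * D (m + 1) (emb g) ∈ RO P) := by
  induction m using Nat.strong_induction_on with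
  | _ m ih =>
  have hJ : emb (Jac P) ∈ RO P := emb_mem P _
  have ha : ∀ g, emb (Jac P) ^ (2 * m) * E (m + 1) g ∈ RO P := by
    intro g
    induction g using MvPolynomial.induction_on with
    | C a => rw [E_C, mul_zero]; exact Subalgebra.zero_mem _
    | add p q hp hq => rw [E_add, mul_add]; exact Subalgebra.add_mem _ hp hq
    | mul_X p i hp =>
      rw [E_mul_X, mul_add, ← mul_assoc, Finset.mul_sum]
      refine Subalgebra.add_mem _ (Subalgebra.mul_mem _ hp ?_) (Subalgebra.sum_mem _ fun q hq => ?_)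
      · have := emb_mem P (X i)
        rwa [emb_X] at this
      · rw [Finset.mem_filter, Finset.HasAntidiagonal.mem_antidiagonal] at hq
        obtain ⟨hq1, hq2, hq3⟩ := hq
        obtain ⟨a, ha⟩ : ∃ a, q.1 = a + 1 := ⟨q.1 - 1, by omega⟩
        obtain ⟨b, hb⟩ : ∃ b, q.2 = b + 1 := ⟨q.2 - 1, by omega⟩
        have e : 2 * m = (2 * a + 1) + (2 * b + 1) := by omega
        rw [ha, hb, e, pow_add]
        have e2 : emb (Jac P) ^ (2 * a + 1) * emb (Jac P) ^ (2 * b + 1) *
            (D (a + 1) (emb p) * X (i, b + 1)) =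
            (emb (Jac P) ^ (2 * a + 1) * D (a + 1) (emb p)) *
              (emb (Jac P) ^ (2 * b + 1) * X (i, b + 1)) := by ring
        rw [e2]
        exact Subalgebra.mul_mem _ ((ih a (by omega)).2.2 p) ((ih b (by omega)).2.1 i)
  have hb : ∀ k, emb (Jac P) ^ (2 * m + 1) * X (k, m + 1) ∈ RO P := by
    intro k
    rw [pow_succ, mul_assoc, cramer, Finset.mul_sum]
    refine Subalgebra.sum_mem _ fun j _ => ?_
    have e : emb (Jac P) ^ (2 * m) * (emb ((Matrix.of fun j k => pderiv k (P j)).adjugate k j) *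
        (D (m + 1) (emb (P j)) - E (m + 1) (P j))) =
        emb ((Matrix.of fun j k => pderiv k (P j)).adjugate k j) *
        (emb (Jac P) ^ (2 * m) * D (m + 1) (emb (P j)) -
          emb (Jac P) ^ (2 * m) * E (m + 1) (P j)) := by ring
    rw [e]
    refine Subalgebra.mul_mem _ (emb_mem P _) (Subalgebra.sub_mem _ ?_ (ha (P j)))
    exact Subalgebra.mul_mem _ (Subalgebra.pow_mem _ hJ _) (D_mem P j _)
  refine ⟨ha, hb, fun g => ?_⟩
  have e : emb (Jac P) ^ (2 * m + 1) * D (m + 1) (emb g) =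
      emb (Jac P) * (emb (Jac P) ^ (2 * m) * E (m + 1) g) +
        ∑ k, emb (pderiv k g) * (emb (Jac P) ^ (2 * m + 1) * X (k, m + 1)) := by
    have e1 : ∑ k, emb (pderiv k g) * (emb (Jac P) ^ (2 * m + 1) * (X (k, m + 1) : Fk ι ℂ)) =
        emb (Jac P) ^ (2 * m + 1) * ∑ k, emb (pderiv k g) * X (k, m + 1) := by
      rw [Finset.mul_sum]
      refine Finset.sum_congr rfl fun k _ => ?_
      ring
    rw [e1]
    unfold E
    ring
  rw [e]
  refine Subalgebra.add_mem _ (Subalgebra.mul_mem _ hJ (ha g)) (Subalgebra.sum_mem _ fun k _ => ?_)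
  exact Subalgebra.mul_mem _ (emb_mem P _) (hb k)

theorem var_mem (P : ι → MvPolynomial ι ℂ) (p : ι × ℕ) :
    emb (Jac P) ^ (2 * p.2) * X p ∈ RO P := by
  obtain ⟨k, n⟩ := p
  cases n with
  | zero =>
    have := emb_mem P (X k)
    rw [emb_X] at this
    simpa using this
  | succ m =>
    have e : emb (Jac P) ^ (2 * (m + 1)) * X (k, m + 1) =
        emb (Jac P) * (emb (Jac P) ^ (2 * m + 1) * X (k, m + 1)) := by ring
    show emb (Jac P) ^ (2 * (m + 1)) * X (k, m + 1) ∈ RO P
    rw [e]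
    exact Subalgebra.mul_mem _ (emb_mem P _) ((claim P m).2.1 k)

theorem mon_mem (P : ι → MvPolynomial ι ℂ) (m : (ι × ℕ) →₀ ℕ) :
    emb (Jac P) ^ (2 * jwt m) * monomial m (1 : ℂ) ∈ RO P := by
  induction m using Finsupp.induction_linear with
  | zero =>
    have h1 : jwt (0 : (ι × ℕ) →₀ ℕ) = 0 := by
      unfold jwt
      rw [Finsupp.sum_zero_index]
    rw [h1, mul_zero, pow_zero, one_mul]
    exact Subalgebra.one_mem _
  | add a b ha hb =>
    have e : emb (Jac P) ^ (2 * jwt (a + b)) * monomial (a + b) (1 : ℂ) =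
        (emb (Jac P) ^ (2 * jwt a) * monomial a (1 : ℂ)) *
          (emb (Jac P) ^ (2 * jwt b) * monomial b (1 : ℂ)) := by
      have e1 : (monomial (a + b) (1 : ℂ)) = monomial a 1 * monomial b 1 := by
        rw [monomial_mul, one_mul]
      rw [jwt_add, mul_add, pow_add, e1]
      ring
    rw [e]
    exact Subalgebra.mul_mem _ ha hb
  | single p k =>
    have e : emb (Jac P) ^ (2 * jwt (Finsupp.single p k)) * monomial (Finsupp.single p k) (1 : ℂ) =
        (emb (Jac P) ^ (2 * p.2) * X p) ^ k := by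
      have e1 : (monomial (Finsupp.single p k) (1 : ℂ)) = X p ^ k := by
        rw [X_pow_eq_monomial]
      rw [jwt_single, e1, mul_pow, ← pow_mul]
      congr 2
      ring
    rw [e]
    exact Subalgebra.pow_mem _ (var_mem P p) k

theorem main : S_JINV := by
  intro ι _ _ P N f hf
  rw [f.as_sum, Finset.mul_sum]
  refine Subalgebra.sum_mem _ fun m hm => ?_
  have h1 : jwt m ≤ N := hf m hm
  have h2 : monomial m (coeff m f) = coeff m f • monomial m (1 : ℂ) := by
    rw [smul_monomial, smul_eq_mul, mul_one]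
  have e : emb (Jac P) ^ (2 * N) * monomial m (coeff m f) =
      coeff m f • (emb (Jac P) ^ (2 * (N - jwt m)) *
        (emb (Jac P) ^ (2 * jwt m) * monomial m (1 : ℂ))) := by
    rw [h2, mul_smul_comm, ← mul_assoc, ← pow_add]
    congr 3
    omega
  rw [e]
  exact Subalgebra.smul_mem _ (Subalgebra.mul_mem _ (Subalgebra.pow_mem _ (emb_mem P _) _)
    (mon_mem P m)) _

end Pool.Agent.H391.SK.P_JINV
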