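import Pool.Agent.H391.SK.StB

/-!
# SK-LA (helper747, for helper391): linear algebra over `ℂ[t]`
-/

set_option autoImplicit false

namespace Pool.Agent.H391.SK.P_LA

open Polynomial

section

variable {m n : ℕ} (M : Matrix (Fin m) (Fin n) (Polynomial ℂ))

/-- evaluation of a matrix and of a vector -/
theorem map_mulVec_eval (q : ℂ) (w : Fin n → Polynomial ℂ) (i : Fin m) :
    (M.map (Polynomial.eval q)).mulVec (fun j => (w j).eval q) i = (M.mulVec w i).eval q := by
  simp only [Matrix.mulVec, dotProduct, Matrix.map_apply, Polynomial.eval_finsetSum,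
    Polynomial.eval_mul]

theorem eval_mem_ker (q : ℂ) {w : Fin n → Polynomial ℂ} (hw : M.mulVec w = 0) :
    (M.map (Polynomial.eval q)).mulVec (fun j => (w j).eval q) = 0 := by
  funext i
  rw [map_mulVec_eval, hw]
  simp

/-- saturation -/
theorem divide (q : ℂ) {w : Fin n → Polynomial ℂ} (hw : M.mulVec w = 0)
    (h0 : ∀ j, (w j).eval q = 0) : ∃ u : Fin n → Polynomial ℂ, M.mulVec u = 0 ∧
      w = (X - C q) • u := by
  have h1 : ∀ j, ∃ u, w j = (X - C q) * u := fun j => Polynomial.dvd_iff_isRoot.2 (h0 j)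
  choose u hu using h1
  have hwu : w = (X - C q) • u := by
    funext j
    simp [hu j]
  refine ⟨u, ?_, hwu⟩
  rw [hwu, Matrix.mulVec_smul] at hw
  funext i
  have := congrFun hw i
  simp only [Pi.smul_apply, smul_eq_mul, Pi.zero_apply, mul_eq_zero] at this
  rcases this with h | h
  · exact absurd h (Polynomial.X_sub_C_ne_zero q)
  · exact h

/-- a basis of the kernel stays linearly independent -/
theorem linInd {r : ℕ} (e : Module.Basis (Fin r) (Polynomial ℂ) (LinearMap.ker M.mulVecLin))
    (q : ℂ) : LinearIndependent ℂ (fun j : Fin r =>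
      (fun i => ((e j : Fin n → Polynomial ℂ) i).eval q : Fin n → ℂ)) := by
  rw [Fintype.linearIndependent_iff]
  intro c hc
  let w : LinearMap.ker M.mulVecLin := ∑ j, (C (c j)) • e j
  have hw : M.mulVec (w : Fin n → Polynomial ℂ) = 0 := by
    have := w.2
    rwa [LinearMap.mem_ker, Matrix.mulVecLin_apply] at this
  have hw0 : ∀ i, ((w : Fin n → Polynomial ℂ) i).eval q = 0 := by
    intro i
    have := congrFun hc i
    simp only [Finset.sum_apply, Pi.smul_apply, smul_eq_mul, Pi.zero_apply] at this
    simp only [w, Submodule.coe_sum, Submodule.coe_smul, Finset.sum_apply, Pi.smul_apply,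
      smul_eq_mul, Polynomial.eval_finsetSum, Polynomial.eval_mul, Polynomial.eval_C]
    exact this
  obtain ⟨u, hu, hwu⟩ := divide M q hw hw0
  let u' : LinearMap.ker M.mulVecLin := ⟨u, by rw [LinearMap.mem_ker, Matrix.mulVecLin_apply]; exact hu⟩
  have hwu' : w = (X - C q) • u' := Subtype.ext hwu
  intro j
  have h1 : e.repr w j = C (c j) := by
    simp only [w, map_sum, map_smul, Module.Basis.repr_self, Finsupp.coe_finsetSum,
      Finset.sum_apply, Finsupp.smul_single, smul_eq_mul, mul_one]
    rw [Finset.sum_eq_single j]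
    · simp
    · intro b _ hb
      exact Finsupp.single_eq_of_ne (Ne.symm hb)
    · intro h
      exact absurd (Finset.mem_univ j) h
  have h2 : e.repr w j = (X - C q) * e.repr u' j := by
    rw [hwu']
    simp
  have h3 := congrArg (Polynomial.eval q) (h1.symm.trans h2)
  simpa using h3

/-- the specialization of the basis of the kernel generates, if the cokernel has no torsion -/
theorem lift_of_notorsion (q : ℂ)
    (hq : ∀ x : (Fin m → Polynomial ℂ) ⧸ LinearMap.range M.mulVecLin,
      (X - C q) • x = 0 → x = 0) (v : Fin n → ℂ)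
    (hv : (M.map (Polynomial.eval q)).mulVec v = 0) :
    ∃ w : Fin n → Polynomial ℂ, M.mulVec w = 0 ∧ ∀ i, (w i).eval q = v i := by
  let v' : Fin n → Polynomial ℂ := fun i => C (v i)
  have h0 : ∀ i, (M.mulVec v' i).eval q = 0 := by
    intro i
    rw [← map_mulVec_eval]
    have : (fun j => (v' j).eval q) = v := by
      funext j
      simp [v']
    rw [this, hv]
    rfl
  have h1 : ∀ i, ∃ u, M.mulVec v' i = (X - C q) * u := fun i => Polynomial.dvd_iff_isRoot.2 (h0 i)
  choose u hu using h1
  have hu' : M.mulVec v' = (X - C q) • u := by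
    funext i
    simp [hu i]
  have h2 : (LinearMap.range M.mulVecLin).mkQ u = 0 := by
    apply hq
    rw [← map_smul, ← hu', Submodule.mkQ_apply, Submodule.Quotient.mk_eq_zero]
    exact ⟨v', rfl⟩
  rw [Submodule.mkQ_apply, Submodule.Quotient.mk_eq_zero] at h2
  obtain ⟨w, hw⟩ := h2
  rw [Matrix.mulVecLin_apply] at hw
  refine ⟨v' - (X - C q) • w, ?_, ?_⟩
  · rw [Matrix.mulVec_sub, Matrix.mulVec_smul, hw, hu', sub_self]
  · intro i
    simp [v']

/-- there is a good natural number -/
theorem exists_good : ∃ q : ℕ, 1 ≤ q ∧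
    ∀ x : (Fin m → Polynomial ℂ) ⧸ LinearMap.range M.mulVecLin,
      (X - C (q : ℂ)) • x = 0 → x = 0 := by
  let Q := (Fin m → Polynomial ℂ) ⧸ LinearMap.range M.mulVecLin
  let T := Submodule.torsion (Polynomial ℂ) Q
  obtain ⟨a, ha1, ha2⟩ := Submodule.annihilator_top_inter_nonZeroDivisors
    (R := Polynomial ℂ) (M := T) (Submodule.torsion_isTorsion)
  have ha0 : a ≠ 0 := nonZeroDivisors.ne_zero ha2
  have ha3 : ∀ x : Q, x ∈ T → a • x = 0 := by
    intro x hx
    have := (Submodule.mem_annihilator.1 ha1) (⟨x, hx⟩ : T) trivial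
    exact congrArg Subtype.val this
  have hq : ∃ q : ℕ, 1 ≤ q ∧ a.eval (q : ℂ) ≠ 0 := by
    by_contra hcon
    push Not at hcon
    apply ha0
    apply Polynomial.eq_zero_of_infinite_isRoot
    have hinj : Function.Injective (fun k : ℕ => ((k + 1 : ℕ) : ℂ)) := by
      intro x y hxy
      have : (x + 1 : ℕ) = y + 1 := Nat.cast_injective hxy
      omega
    refine (Set.infinite_range_of_injective hinj).mono ?_
    rintro _ ⟨k, rfl⟩
    exact hcon (k + 1) (by omega)
  obtain ⟨q, hq1, hq2⟩ := hq
  refine ⟨q, hq1, ?_⟩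
  intro x hx
  have hxT : x ∈ T := by
    rw [Submodule.mem_torsion_iff]
    exact ⟨⟨X - C (q : ℂ), mem_nonZeroDivisors_of_ne_zero (Polynomial.X_sub_C_ne_zero _)⟩, hx⟩
  have hax := ha3 x hxT
  obtain ⟨b, hb⟩ := Polynomial.X_sub_C_dvd_sub_C_eval (p := a) (a := (q : ℂ))
  have hab : a = C (a.eval (q : ℂ)) + b * (X - C (q : ℂ)) := by
    linear_combination hb
  rw [hab, add_smul, mul_smul, hx, smul_zero, add_zero] at hax
  have : x = C ((a.eval (q : ℂ))⁻¹) • (C (a.eval (q : ℂ)) • x) := by
    rw [smul_smul, ← C_mul, inv_mul_cancel₀ hq2, C_1, one_smul]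
  rw [this, hax, smul_zero]

end

theorem main : S_LA := by
  intro m n M k hk p hp v hv
  obtain ⟨r, e⟩ := Submodule.basisOfPid (Pi.basisFun (Polynomial ℂ) (Fin n))
    (LinearMap.ker M.mulVecLin)
  -- the family in the kernel of `M(q)`
  have hmem : ∀ (q : ℂ) (j : Fin r), (fun i => ((e j : Fin n → Polynomial ℂ) i).eval q) ∈
      LinearMap.ker (Matrix.mulVecLin (M.map (Polynomial.eval q))) := by
    intro q j
    rw [LinearMap.mem_ker, Matrix.mulVecLin_apply]
    apply eval_mem_ker
    have := (e j).2
    rwa [LinearMap.mem_ker, Matrix.mulVecLin_apply] at this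
  let g : ∀ (q : ℂ), Fin r → LinearMap.ker (Matrix.mulVecLin (M.map (Polynomial.eval q))) :=
    fun q j => ⟨_, hmem q j⟩
  have hg : ∀ q : ℂ, LinearIndependent ℂ (g q) := by
    intro q
    have := linInd M e q
    exact LinearIndependent.of_comp
      (LinearMap.ker (Matrix.mulVecLin (M.map (Polynomial.eval q)))).subtype this
  -- `r = k`
  have hrk : r = k := by
    apply le_antisymm
    · have := (hg (p : ℂ)).fintype_card_le_finrank
      rw [Fintype.card_fin, hk p hp] at this
      exact this
    · obtain ⟨q, hq1, hq2⟩ := exists_good M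
      have hspan : LinearMap.ker (Matrix.mulVecLin (M.map (Polynomial.eval (q : ℂ)))) ≤
          Submodule.span ℂ (Set.range (fun j : Fin r =>
            (fun i => ((e j : Fin n → Polynomial ℂ) i).eval (q : ℂ) : Fin n → ℂ))) := by
        intro x hx
        rw [LinearMap.mem_ker, Matrix.mulVecLin_apply] at hx
        obtain ⟨w, hw1, hw2⟩ := lift_of_notorsion M q hq2 x hx
        let w' : LinearMap.ker M.mulVecLin :=
          ⟨w, by rw [LinearMap.mem_ker, Matrix.mulVecLin_apply]; exact hw1⟩
        have hw3 : w' = ∑ j, e.repr w' j • e j := (e.sum_repr w').symm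
        have hx2 : x = ∑ j, (e.repr w' j).eval (q : ℂ) •
            (fun i => ((e j : Fin n → Polynomial ℂ) i).eval (q : ℂ) : Fin n → ℂ) := by
          funext i
          have h4 : w i = (∑ j, e.repr w' j • (e j : Fin n → Polynomial ℂ)) i := by
            have h6 : w = ((∑ j, e.repr w' j • e j : LinearMap.ker M.mulVecLin) :
                Fin n → Polynomial ℂ) := congrArg Subtype.val hw3
            rw [Submodule.coe_sum] at h6
            exact congrFun h6 i
          rw [← hw2 i, h4]
          simp [Polynomial.eval_finsetSum]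
        rw [hx2]
        exact Submodule.sum_mem _ fun j _ => Submodule.smul_mem _ _ (Submodule.subset_span ⟨j, rfl⟩)
      have h1 := Submodule.finrank_mono hspan
      rw [hk q hq1] at h1
      refine h1.trans ?_
      have := finrank_range_le_card (R := ℂ) (fun j : Fin r =>
            (fun i => ((e j : Fin n → Polynomial ℂ) i).eval (q : ℂ) : Fin n → ℂ))
      rw [Fintype.card_fin] at this
      exact this
  have htop := (hg (p : ℂ)).span_eq_top_of_card_eq_finrank'
    (by rw [Fintype.card_fin, hk p hp, hrk])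
  have hvk : v ∈ LinearMap.ker (Matrix.mulVecLin (M.map (Polynomial.eval (p : ℂ)))) := by
    rw [LinearMap.mem_ker, Matrix.mulVecLin_apply]
    exact hv
  have hv2 : (⟨v, hvk⟩ : LinearMap.ker (Matrix.mulVecLin (M.map (Polynomial.eval (p : ℂ))))) ∈
      Submodule.span ℂ (Set.range (g (p : ℂ))) := by
    rw [htop]
    trivial
  rw [Submodule.mem_span_range_iff_exists_fun] at hv2
  obtain ⟨c, hc⟩ := hv2
  refine ⟨((∑ j, (C (c j)) • e j : LinearMap.ker M.mulVecLin) : Fin n → Polynomial ℂ), ?_, ?_⟩
  · have := (∑ j, (C (c j)) • e j : LinearMap.ker M.mulVecLin).2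
    rwa [LinearMap.mem_ker, Matrix.mulVecLin_apply] at this
  · intro i
    have h5 := congrArg (fun z : LinearMap.ker
      (Matrix.mulVecLin (M.map (Polynomial.eval (p : ℂ)))) => (z : Fin n → ℂ) i) hc
    simp only [Submodule.coe_sum, Submodule.coe_smul, Finset.sum_apply, Pi.smul_apply,
      smul_eq_mul] at h5
    rw [← h5]
    simp only [Submodule.coe_sum, Submodule.coe_smul, Finset.sum_apply, Pi.smul_apply,
      smul_eq_mul, Polynomial.eval_finsetSum, Polynomial.eval_mul, Polynomial.eval_C]
    rfl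

end Pool.Agent.H391.SK.P_LA
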