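import Pool.Agent.H391.SK.StB

/-! # SK project, task LC (helper484, for helper391) -/

set_option autoImplicit false

namespace Pool.Agent.H391.SK.P_LC

open MvPolynomial

variable {ι : Type} [Fintype ι] [DecidableEq ι] {c : Matrix ι ι ℤ} {ν : ℂ} {I : Set ι}

theorem lft_zero (d : ℕ) : Lft c ν I d 0 :=
  ⟨isHomogeneous_zero _ _ _, 0, Submodule.zero_mem _, by simp, by simp⟩

theorem lft_add {d : ℕ} {x y : Fk ι ℂ} (hx : Lft c ν I d x) (hy : Lft c ν I d y) :
    Lft c ν I d (x + y) := by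
  obtain ⟨h1, a, ha, hda, rfl⟩ := hx
  obtain ⟨h2, b, hb, hdb, rfl⟩ := hy
  refine ⟨h1.add h2, a + b, Submodule.add_mem _ ha hb, ?_, by rw [map_add]⟩
  exact (totalDegree_add a b).trans (max_le hda hdb)

theorem lft_smul {d : ℕ} {x : Fk ι ℂ} (z : ℂ) (hx : Lft c ν I d x) : Lft c ν I d (z • x) := by
  obtain ⟨h1, a, ha, hda, rfl⟩ := hx
  refine ⟨?_, z • a, Submodule.smul_mem _ z ha, (totalDegree_smul_le z a).trans hda, ?_⟩
  · rw [smul_eq_C_mul]
    have := (isHomogeneous_C (ι × ℕ) z).mul h1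
    rwa [zero_add] at this
  · rw [map_smul]

theorem scr_one (i : ι) : Scr c ν i (1 : Fk ι ℂ) = 0 := by
  unfold Scr Sj
  rw [LinearMap.comp_apply, AlgHom.toLinearMap_apply, map_one, Polynomial.lsum_apply,
    ← Polynomial.C_1, Polynomial.sum_C_index]
  · simp [hz]
  · simp

theorem lft_one : Lft c ν I 0 (1 : Fk ι ℂ) := by
  refine ⟨isHomogeneous_one _ _, 1, ?_, by simp, ?_⟩
  · unfold KerS
    simp only [Submodule.mem_iInf, LinearMap.mem_ker]
    intro i _
    exact scr_one i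
  · rw [homogeneousComponent_of_mem (isHomogeneous_one _ _)]
    simp

theorem lft_mulD (hclo : S_CLO) (hc : IsADE c) {d e : ℕ} {g x : Fk ι ℂ} (n : ℕ)
    (hg : Lft c ν I d g) (hx : Lft c ν I e x) : Lft c ν I (d + e) (D n g * x) := by
  obtain ⟨h1, a, ha, hda, h3⟩ := hg
  obtain ⟨h2, b, hb, hdb, h4⟩ := hx
  obtain ⟨f, hf1, hf2, hf3⟩ := hclo ι c hc ν I a b d e n ha hb hda hdb
  rw [h3, h4] at hf3
  exact ⟨(D_isHomogeneous h1 n).mul h2, f, hf1, hf2, hf3⟩

theorem lft_hc {d : ℕ} {x : Fk ι ℂ} (hx : Lft c ν I d x) (e : ℕ) :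
    Lft c ν I e (homogeneousComponent e x) := by
  rw [homogeneousComponent_of_mem hx.1]
  split_ifs with h
  · subst h; exact hx
  · exact lft_zero e

theorem main : S_LC := by
  intro hclo ι _ _ c hc ν I G hG f hf e
  set S : Set (Fk ι ℂ) := {h : Fk ι ℂ | ∃ g ∈ G, ∃ n, h = D n g} with hS
  have hmon : ∀ m ∈ Submonoid.closure S, ∃ d, Lft c ν I d m := by
    intro m hm
    induction hm using Submonoid.closure_induction_left with
    | one => exact ⟨0, lft_one⟩
    | mul_left x hx y _ hy =>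
      obtain ⟨g, hg, n, rfl⟩ := hx
      obtain ⟨d, hd⟩ := hG g hg
      obtain ⟨e', he'⟩ := hy
      exact ⟨d + e', lft_mulD hclo hc n hd he'⟩
  have hspan : f ∈ Submodule.span ℂ (Submonoid.closure S : Set (Fk ι ℂ)) := by
    rw [← Algebra.adjoin_eq_span]
    exact hf
  have key : ∀ x ∈ Submodule.span ℂ (Submonoid.closure S : Set (Fk ι ℂ)),
      Lft c ν I e (homogeneousComponent e x) := by
    intro x hx
    induction hx using Submodule.span_induction with
    | mem x hx =>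
      obtain ⟨d, hd⟩ := hmon x hx
      exact lft_hc hd e
    | zero => rw [map_zero]; exact lft_zero e
    | add x y _ _ hx hy => rw [map_add]; exact lft_add hx hy
    | smul a x _ hx => rw [map_smul]; exact lft_smul a hx
  exact key f hspan

end Pool.Agent.H391.SK.P_LC
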