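import Pool.Agent.H391.SK.StD

/-!
# SK-LEN: an element of the Weyl group that makes no simple root negative is the identity
-/

set_option autoImplicit false
set_option linter.unusedSectionVars false

namespace Pool.Agent.H391.SK.P_LEN

open MvPolynomial Pool.Agent.H391.SK

variable {ι : Type} [Fintype ι] [DecidableEq ι] {c : Matrix ι ι ℤ}

/-- the simple reflections -/
def s (hc : IsADE c) (i : ι) : (ι → ℤ) ≃ₗ[ℤ] (ι → ℤ) := sre (hc.form_al i)

theorem s_apply (hc : IsADE c) (i : ι) (v : ι → ℤ) : s hc i v = v - form c v (al i) • al i := rfl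

theorem s_mem (hc : IsADE c) {I : Set ι} {i : ι} (hi : i ∈ I) : s hc i ∈ Wg c I :=
  sre_mem_Wg hc hi

theorem s_s (hc : IsADE c) (i : ι) : s hc i * s hc i = 1 :=
  LinearEquiv.ext fun v => sr_sr (hc.form_al i) v

/-- the product of a word -/
def wp (hc : IsADE c) (l : List ι) : (ι → ℤ) ≃ₗ[ℤ] (ι → ℤ) := (l.map (s hc)).prod

theorem wp_nil (hc : IsADE c) : wp hc [] = 1 := by simp [wp]

theorem wp_cons (hc : IsADE c) (i : ι) (l : List ι) : wp hc (i :: l) = s hc i * wp hc l := by
  simp [wp]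

theorem wp_append (hc : IsADE c) (l : List ι) (k : ι) : wp hc (l ++ [k]) = wp hc l * s hc k := by
  simp [wp]

theorem wp_mem (hc : IsADE c) {I : Set ι} {l : List ι} (hl : ∀ i ∈ l, i ∈ I) : wp hc l ∈ Wg c I := by
  induction l with
  | nil => rw [wp_nil]; exact one_mem _
  | cons i t ih =>
    rw [wp_cons]
    exact mul_mem (s_mem hc (hl i (by simp))) (ih fun j hj => hl j (by simp [hj]))

theorem exists_word (hc : IsADE c) {I : Set ι} {g : (ι → ℤ) ≃ₗ[ℤ] (ι → ℤ)} (hg : g ∈ Wg c I) :
    ∃ l : List ι, (∀ i ∈ l, i ∈ I) ∧ wp hc l = g := by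
  refine Wg_induction hc (P := fun g => ∃ l : List ι, (∀ i ∈ l, i ∈ I) ∧ wp hc l = g)
    ⟨[], by simp, wp_nil hc⟩ ?_ hg
  rintro i hi g _ ⟨l, hl, rfl⟩
  refine ⟨i :: l, ?_, wp_cons hc i l⟩
  intro j hj
  rcases List.mem_cons.1 hj with rfl | hj
  · exact hi
  · exact hl j hj

theorem al_mem (hc : IsADE c) {I : Set ι} {k : ι} (hk : k ∈ I) : al k ∈ PR c I := by
  refine ⟨hc.form_al k, ?_, ?_⟩
  · intro j
    by_cases h : j = k
    · subst h; simp [al]
    · simp [al, Pi.single_apply, h]
  · intro j hj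
    have : j ≠ k := fun e => hj (e ▸ hk)
    simp [al, Pi.single_apply, this]

theorem not_both {I : Set ι} {β : ι → ℤ} (h1 : β ∈ PR c I) (h2 : -β ∈ PR c I) : False := by
  have h0 : β = 0 := by
    funext k
    have h3 := h1.2.1 k
    have h4 := h2.2.1 k
    simp only [Pi.neg_apply] at h4
    show β k = 0
    omega
  have h5 := h1.1
  rw [h0] at h5
  simp [form] at h5

theorem conj (hc : IsADE c) {I : Set ι} {w : (ι → ℤ) ≃ₗ[ℤ] (ι → ℤ)} (hw : w ∈ Wg c I) {i k : ι}
    (h : w (al k) = al i) : w * s hc k = s hc i * w := by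
  refine LinearEquiv.ext fun v => ?_
  show w (s hc k v) = s hc i (w v)
  rw [s_apply, s_apply, map_sub, map_smul, h, ← h, form_Wg hc hw]

theorem exch (hR : S_ROOT) (hc : IsADE c) {I : Set ι} {k : ι} (hk : k ∈ I) :
    ∀ l : List ι, (∀ i ∈ l, i ∈ I) → -(wp hc l (al k)) ∈ PR c I →
      ∃ l' : List ι, (∀ i ∈ l', i ∈ I) ∧ l'.length < l.length ∧ wp hc l' = wp hc l * s hc k := by
  obtain ⟨-, -, -, -, r5, r6, -, -⟩ := hR ι c hc
  intro l
  induction l with
  | nil =>
    intro _ h
    rw [wp_nil] at h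
    exact (not_both (al_mem hc hk) h).elim
  | cons i t ih =>
    intro hl h
    have hi : i ∈ I := hl i (by simp)
    have ht : ∀ j ∈ t, j ∈ I := fun j hj => hl j (by simp [hj])
    rcases r6 I (wp hc t) (wp_mem hc ht) (al k) (al_mem hc hk) with h1 | h1
    · have h2 : wp hc t (al k) = al i := by
        by_contra hne
        have h3 := r5 I i hi _ h1 hne
        rw [wp_cons] at h
        exact not_both h3 h
      refine ⟨t, ht, by simp, ?_⟩
      rw [wp_cons, mul_assoc, conj hc (wp_mem hc ht) h2, ← mul_assoc, s_s, one_mul]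
    · obtain ⟨t', ht', hlen, hp⟩ := ih ht h1
      refine ⟨i :: t', ?_, by simpa using hlen, ?_⟩
      · intro j hj
        rcases List.mem_cons.1 hj with rfl | hj
        · exact hi
        · exact ht' j hj
      · rw [wp_cons, wp_cons, hp, mul_assoc]

theorem s_al (hc : IsADE c) (k : ι) : s hc k (al k) = -al k := by
  rw [s_apply, hc.form_al, two_smul]
  abel

theorem word_one (hR : S_ROOT) (hc : IsADE c) {I : Set ι} : ∀ (n : ℕ) (l : List ι), l.length ≤ n →
    (∀ i ∈ l, i ∈ I) → (∀ k ∈ I, wp hc l (al k) ∈ PR c I) → wp hc l = 1 := by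
  intro n
  induction n with
  | zero =>
    intro l hl _ _
    have : l = [] := List.length_eq_zero_iff.1 (by omega)
    rw [this, wp_nil]
  | succ n ih =>
    intro l hl hI hpos
    rcases List.eq_nil_or_concat l with rfl | ⟨l0, k, hlk⟩
    · exact wp_nil hc
    · have hlk' : l = l0 ++ [k] := by simpa using hlk
      subst hlk'
      have hk : k ∈ I := hI k (by simp)
      have h0 : ∀ i ∈ l0, i ∈ I := fun i hi => hI i (by simp [hi])
      have h1 : -(wp hc l0 (al k)) ∈ PR c I := by
        have h2 := hpos k hk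
        rw [wp_append] at h2
        have h3 : (wp hc l0 * s hc k) (al k) = -(wp hc l0 (al k)) := by
          show wp hc l0 (s hc k (al k)) = _
          rw [s_al, map_neg]
        rw [h3] at h2
        exact h2
      obtain ⟨l', hl', hlen, hp⟩ := exch hR hc hk l0 h0 h1
      rw [wp_append, ← hp]
      apply ih l' ?_ hl' ?_
      · simp at hl
        omega
      · intro j hj
        rw [hp, ← wp_append]
        exact hpos j hj

theorem main : S_LEN := by
  intro hR ι _ _ c hc I g hg h
  obtain ⟨l, hl, rfl⟩ := exists_word hc hg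
  exact word_one hR hc l.length l le_rfl hl h

end Pool.Agent.H391.SK.P_LEN
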