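import Pool.Agent.H391.SK.StB

/-!
# SK-LFT: lifts of the generators (by helper286)
-/

set_option autoImplicit false
set_option linter.unusedSectionVars false

namespace Pool.Agent.H391.SK.P_LFT

open MvPolynomial Pool.Agent.H391.SK

variable {ι : Type} [Fintype ι] [DecidableEq ι]

/-- the functional on polynomials in `w` -/
noncomputable def Lam (i : ι) : Polynomial (Fk ι ℂ) →ₗ[ℂ] Fk ι ℂ :=
  Polynomial.lsum fun k : ℕ =>
    LinearMap.mulLeft ℂ (hz (fun n => (X (i, n) : Fk ι ℂ)) ((k : ℤ) + (-1)))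

theorem scr_eq (c : Matrix ι ι ℤ) (ν : ℂ) (i : ι) (f : Fk ι ℂ) :
    Scr c ν i f = Lam i (shf c ν i f) := rfl

theorem Lam_mon (i : ι) (a : Fk ι ℂ) (k : ℕ) :
    Lam i (Polynomial.C a * Polynomial.X ^ k) =
      hz (fun n => (X (i, n) : Fk ι ℂ)) ((k : ℤ) + (-1)) * a := by
  rw [Polynomial.C_mul_X_pow_eq_monomial]
  unfold Lam
  rw [Polynomial.lsum_apply, Polynomial.sum_monomial_index]
  · rfl
  · simp

theorem hz_neg (x : ℕ → Fk ι ℂ) : hz x (-1) = 0 := by simp [hz]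

theorem hz0 (x : ℕ → Fk ι ℂ) : hz x 0 = 1 := by simp [hz, hs]

theorem hz1 (x : ℕ → Fk ι ℂ) : hz x 1 = x 0 := by
  simp [hz, hs]

theorem hz2 (x : ℕ → Fk ι ℂ) : hz x 2 = C (1 / 2 : ℂ) * (x 0 ^ 2 + x 1) := by
  have h0 : hz x 2 = hs x 2 := by simp [hz]
  have h2 : hs x 2 = (((1 : ℕ) : ℂ) + 1)⁻¹ • ∑ k : Fin (1 + 1), x k * hs x (1 - k) := by
    rw [hs]
  have h1 : hs x 1 = (((0 : ℕ) : ℂ) + 1)⁻¹ • ∑ k : Fin (0 + 1), x k * hs x (0 - k) := by
    rw [hs]
  have h3 : hs x 0 = 1 := by rw [hs]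
  rw [h0, h2, Fin.sum_univ_two]
  simp only [Fin.val_zero, Fin.val_one, Nat.sub_zero, Nat.sub_self, h1, h3, Fin.sum_univ_one]
  rw [smul_eq_C_mul, smul_eq_C_mul]
  have e1 : ((((1 : ℕ) : ℂ) + 1)⁻¹) = 1 / 2 := by norm_num
  have e2 : ((((0 : ℕ) : ℂ) + 1)⁻¹) = 1 := by norm_num
  rw [e1, e2]
  simp
  rw [h3]
  ring

/-- the screening operator on polynomials with shift of degree at most three -/
theorem scr_of (c : Matrix ι ι ℤ) (ν : ℂ) (i : ι) (f c0 c1 c2 c3 : Fk ι ℂ)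
    (h : shf c ν i f = Polynomial.C c0 + Polynomial.C c1 * Polynomial.X +
      Polynomial.C c2 * Polynomial.X ^ 2 + Polynomial.C (2 * c3) * Polynomial.X ^ 3) :
    Scr c ν i f = c1 + X (i, 0) * c2 + (X (i, 0) ^ 2 + X (i, 1)) * c3 := by
  have h' : shf c ν i f = Polynomial.C c0 * Polynomial.X ^ 0 + Polynomial.C c1 * Polynomial.X ^ 1 +
      Polynomial.C c2 * Polynomial.X ^ 2 + Polynomial.C (2 * c3) * Polynomial.X ^ 3 := by
    rw [h, pow_zero, pow_one, mul_one]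
  have e5 : (C (1 / 2 : ℂ) : Fk ι ℂ) * 2 = 1 := by
    have : (2 : Fk ι ℂ) = C (2 : ℂ) := (map_ofNat C 2).symm
    rw [this, ← C_mul]; norm_num
  rw [scr_eq, h', map_add, map_add, map_add, Lam_mon, Lam_mon, Lam_mon, Lam_mon]
  have e0 : (((0 : ℕ) : ℤ) + (-1)) = -1 := by norm_num
  have e1 : (((1 : ℕ) : ℤ) + (-1)) = 0 := by norm_num
  have e2 : (((2 : ℕ) : ℤ) + (-1)) = 1 := by norm_num
  have e3 : (((3 : ℕ) : ℤ) + (-1)) = 2 := by norm_num
  rw [e0, e1, e2, e3, hz_neg, hz0, hz1, hz2]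
  linear_combination (X (i, 0) ^ 2 + X (i, 1)) * c3 * e5

theorem shf_X (c : Matrix ι ι ℤ) (ν : ℂ) (i k : ι) (n : ℕ) :
    shf c ν i (X (k, n)) = Polynomial.C (X (k, n)) -
      Polynomial.C (C (ν * ((c i k : ℤ) : ℂ))) * Polynomial.X ^ (n + 1) := by
  simp [shf]

theorem shf_C (c : Matrix ι ι ℤ) (ν : ℂ) (i : ι) (a : ℂ) :
    shf c ν i (C a) = Polynomial.C (C a) := by
  simp [shf, Polynomial.algebraMap_apply, MvPolynomial.algebraMap_eq]

theorem scr_const (c : Matrix ι ι ℤ) (ν : ℂ) (i : ι) (f : Fk ι ℂ)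
    (h : shf c ν i f = Polynomial.C f) : Scr c ν i f = 0 := by
  rw [scr_of c ν i f f 0 0 0 (by rw [h]; simp)]
  ring

theorem shf_lin {c : Matrix ι ι ℤ} (hc : IsADE c) (ν : ℂ) (i : ι) (v : ι → ℤ)
    (h : form c v (al i) = 0) : shf c ν i (lin v 0) = Polynomial.C (lin v 0) := by
  have h1 : ∑ k, (v k : ℂ) * ((c i k : ℤ) : ℂ) = 0 := by
    rw [form_al_right] at h
    have := congrArg (fun z : ℤ => (z : ℂ)) h
    simp only [Int.cast_sum, Int.cast_mul, Int.cast_zero] at this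
    rw [← this]
    refine Finset.sum_congr rfl fun k _ => by rw [hc.symm]
  unfold lin
  simp only [map_sum, map_mul, shf_X, shf_C]
  have h2 : ∀ k, (Polynomial.C (C (v k : ℂ)) : Polynomial (Fk ι ℂ)) *
      (Polynomial.C (X (k, 0)) - Polynomial.C (C ν) * Polynomial.C (C ((c i k : ℤ) : ℂ)) *
        Polynomial.X ^ (0 + 1)) =
      Polynomial.C (C (v k : ℂ)) * Polynomial.C (X (k, 0)) -
        Polynomial.C (C ((v k : ℂ) * ((c i k : ℤ) : ℂ))) * (Polynomial.C (C ν) * Polynomial.X) := by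
    intro k
    rw [C_mul, Polynomial.C_mul]
    ring
  simp only [h2, Finset.sum_sub_distrib, ← Finset.sum_mul, ← map_sum, h1]
  simp

/-- `a² + 2 (ν - 1) a'` -/
theorem scr_quad1 {c : Matrix ι ι ℤ} (hc : IsADE c) (κ : ℂ) (i : ι) :
    Scr c (2 * κ + 1) i (X (i, 0) ^ 2 + 4 * C κ * X (i, 1)) = 0 := by
  rw [scr_of c (2 * κ + 1) i _ (X (i, 0) ^ 2 + 4 * C κ * X (i, 1))
    (-4 * (2 * C κ + 1) * X (i, 0)) (4 * (2 * C κ + 1)) 0]
  · ring
  · simp only [map_add, map_mul, map_pow, map_sub, shf_X, shf_C, hc.diag, map_ofNat, map_one,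
      map_neg, Int.cast_ofNat, map_zero]
    ring

theorem shf_X0 (c : Matrix ι ι ℤ) (ν : ℂ) (i k : ι) (n : ℕ) (h : c i k = 0) :
    shf c ν i (X (k, n)) = Polynomial.C (X (k, n)) := by
  rw [shf_X, h]; simp

theorem scr_quad1' {c : Matrix ι ι ℤ} (κ : ℂ) (i j : ι) (h : c j i = 0) :
    Scr c (2 * κ + 1) j (X (i, 0) ^ 2 + 4 * C κ * X (i, 1)) = 0 := by
  refine scr_const _ _ _ _ ?_
  simp only [map_add, map_mul, map_pow, map_sub, shf_X0 c _ j i _ h, shf_C, map_ofNat]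

/-- `a² + ab + b² + 3(ν-1)(a' + b')` -/
theorem scr_quad2 {c : Matrix ι ι ℤ} (hc : IsADE c) (κ : ℂ) (i j : ι) (h : c i j = -1) :
    Scr c (2 * κ + 1) i (X (i, 0) ^ 2 + X (i, 0) * X (j, 0) + X (j, 0) ^ 2 +
      6 * C κ * (X (i, 1) + X (j, 1))) = 0 := by
  rw [scr_of c (2 * κ + 1) i _ (X (i, 0) ^ 2 + X (i, 0) * X (j, 0) + X (j, 0) ^ 2 +
      6 * C κ * (X (i, 1) + X (j, 1)))
    (-3 * (2 * C κ + 1) * X (i, 0)) (3 * (2 * C κ + 1)) 0]
  · ring
  · simp only [map_add, map_mul, map_pow, map_sub, shf_X, shf_C, hc.diag, h, map_ofNat, map_one,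
      map_neg, Int.cast_ofNat, Int.cast_neg, Int.cast_one, map_zero]
    ring

/-- the cubic -/
theorem scr_cub {c : Matrix ι ι ℤ} (hc : IsADE c) (κ : ℂ) (i j : ι) (h : c i j = -1) :
    Scr c (2 * κ + 1) i ((2 * X (i, 0) + X (j, 0)) * (X (i, 0) - X (j, 0)) *
      (X (i, 0) + 2 * X (j, 0)) + 9 * C κ * (2 * (X (i, 0) * X (i, 1)) - X (i, 0) * X (j, 1) +
        X (j, 0) * X (i, 1) - 2 * (X (j, 0) * X (j, 1))) +
      36 * C κ ^ 2 * (X (i, 2) - X (j, 2))) = 0 := by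
  rw [scr_of c (2 * κ + 1) i _ ((2 * X (i, 0) + X (j, 0)) * (X (i, 0) - X (j, 0)) *
      (X (i, 0) + 2 * X (j, 0)) + 9 * C κ * (2 * (X (i, 0) * X (i, 1)) - X (i, 0) * X (j, 1) +
        X (j, 0) * X (i, 1) - 2 * (X (j, 0) * X (j, 1))) +
      36 * C κ ^ 2 * (X (i, 2) - X (j, 2)))
    (-9 * (2 * C κ + 1) * X (i, 0) * (X (i, 0) + 2 * X (j, 0)) -
      27 * (2 * C κ + 1) * C κ * X (i, 1))
    (9 * (2 * C κ + 1) ^ 2 * (X (i, 0) + 2 * X (j, 0)) -
      9 * (2 * C κ + 1) * C κ * (5 * X (i, 0) + 4 * X (j, 0)))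
    (27 * C κ * (2 * C κ + 1))]
  · ring
  · simp only [map_add, map_mul, map_pow, map_sub, shf_X, shf_C, hc.diag, h, map_ofNat, map_one,
      map_neg, Int.cast_ofNat, Int.cast_neg, Int.cast_one, map_zero]
    ring

theorem mem_KerS {c : Matrix ι ι ℤ} {ν : ℂ} {I : Set ι} {x : Fk ι ℂ} :
    x ∈ KerS c ν I ↔ ∀ i ∈ I, Scr c ν i x = 0 := by
  simp [KerS]

theorem lft_of {c : Matrix ι ι ℤ} {ν : ℂ} {I : Set ι} {d d1 d2 : ℕ} {x y1 y2 : Fk ι ℂ}
    (hx : x.IsHomogeneous d) (h1 : y1.IsHomogeneous d1) (h2 : y2.IsHomogeneous d2)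
    (e1 : d1 < d) (e2 : d2 < d) (hk : ∀ i ∈ I, Scr c ν i (x + y1 + y2) = 0) :
    Lft c ν I d x := by
  refine ⟨hx, x + y1 + y2, mem_KerS.2 hk, ?_, ?_⟩
  · refine (totalDegree_add _ _).trans (max_le ((totalDegree_add _ _).trans (max_le ?_ ?_)) ?_)
    · exact hx.totalDegree_le
    · exact h1.totalDegree_le.trans e1.le
    · exact h2.totalDegree_le.trans e2.le
  · rw [map_add, map_add, homogeneousComponent_of_mem hx, homogeneousComponent_of_mem h1,
      homogeneousComponent_of_mem h2, if_pos rfl, if_neg (by omega), if_neg (by omega), add_zero,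
      add_zero]

theorem hX (k : ι) (n : ℕ) : (X (k, n) : Fk ι ℂ).IsHomogeneous 1 := isHomogeneous_X _ _

theorem hC (a : ℂ) : (C a : Fk ι ℂ).IsHomogeneous 0 := isHomogeneous_C _ _

theorem h_num (n : ℕ) [n.AtLeastTwo] : (OfNat.ofNat n : Fk ι ℂ).IsHomogeneous 0 := by
  rw [← map_ofNat C n]
  exact hC _

theorem lft_lin {c : Matrix ι ι ℤ} (hc : IsADE c) (ν : ℂ) (I : Set ι) (v : ι → ℤ)
    (h : ∀ i ∈ I, form c v (al i) = 0) : Lft c ν I 1 (lin v 0) := by
  refine lft_of (d1 := 0) (d2 := 0) (y1 := 0) (y2 := 0) ?_ (isHomogeneous_zero _ _ _)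
    (isHomogeneous_zero _ _ _) one_pos one_pos ?_
  · unfold lin
    refine IsHomogeneous.sum _ _ _ fun k _ => ?_
    have := (hC (ι := ι) (v k : ℂ)).mul (hX k 0)
    rwa [zero_add] at this
  · intro i hi
    rw [add_zero, add_zero]
    exact scr_const _ _ _ _ (shf_lin hc ν i v (h i hi))

theorem lft_quad1 {c : Matrix ι ι ℤ} (hc : IsADE c) (ν : ℂ) (I : Set ι) (i : ι)
    (hI : ∀ j ∈ I, j ≠ i → c j i = 0) : Lft c ν I 2 (X (i, 0) ^ 2) := by
  obtain ⟨κ, rfl⟩ : ∃ κ : ℂ, ν = 2 * κ + 1 := ⟨(ν - 1) / 2, by ring⟩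
  refine lft_of (d1 := 1) (d2 := 0) (y1 := 4 * C κ * X (i, 1)) (y2 := 0) ?_ ?_
    (isHomogeneous_zero _ _ _) one_lt_two two_pos ?_
  · exact (hX i 0).pow 2
  · exact ((h_num 4).mul (hC κ)).mul (hX i 1)
  · intro j hj
    rw [add_zero]
    by_cases hji : j = i
    · subst hji
      exact scr_quad1 hc κ j
    · exact scr_quad1' κ i j (hI j hj hji)

theorem lft_quad2 {c : Matrix ι ι ℤ} (hc : IsADE c) (ν : ℂ) (i j : ι) (h : c i j = -1) :
    Lft c ν {i, j} 2 (X (i, 0) ^ 2 + X (i, 0) * X (j, 0) + X (j, 0) ^ 2) := by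
  obtain ⟨κ, rfl⟩ : ∃ κ : ℂ, ν = 2 * κ + 1 := ⟨(ν - 1) / 2, by ring⟩
  refine lft_of (d1 := 1) (d2 := 0) (y1 := 6 * C κ * (X (i, 1) + X (j, 1))) (y2 := 0) ?_ ?_
    (isHomogeneous_zero _ _ _) one_lt_two two_pos ?_
  · exact (((hX i 0).pow 2).add ((hX i 0).mul (hX j 0))).add ((hX j 0).pow 2)
  · exact ((h_num 6).mul (hC κ)).mul ((hX i 1).add (hX j 1))
  · intro k hk
    rw [add_zero]
    rcases hk with rfl | hk
    · exact scr_quad2 hc κ k j h
    · rw [Set.mem_singleton_iff] at hk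
      subst hk
      have := scr_quad2 hc κ k i (by rw [hc.symm]; exact h)
      rw [← this]
      congr 1
      ring

theorem lft_cub {c : Matrix ι ι ℤ} (hc : IsADE c) (ν : ℂ) (i j : ι) (h : c i j = -1) :
    Lft c ν {i, j} 3 ((2 * X (i, 0) + X (j, 0)) * (X (i, 0) - X (j, 0)) *
      (X (i, 0) + 2 * X (j, 0))) := by
  obtain ⟨κ, rfl⟩ : ∃ κ : ℂ, ν = 2 * κ + 1 := ⟨(ν - 1) / 2, by ring⟩
  refine lft_of (d1 := 2) (d2 := 1) (y1 := 9 * C κ * (2 * (X (i, 0) * X (i, 1)) -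
      X (i, 0) * X (j, 1) + X (j, 0) * X (i, 1) - 2 * (X (j, 0) * X (j, 1))))
      (y2 := 36 * C κ ^ 2 * (X (i, 2) - X (j, 2))) ?_ ?_ ?_ (by norm_num) (by norm_num) ?_
  · have e2 : ∀ k : ι, (2 * X (k, 0) : Fk ι ℂ).IsHomogeneous 1 := fun k => by
      have := (h_num (ι := ι) 2).mul (hX k 0)
      rwa [zero_add] at this
    exact (((e2 i).add (hX j 0)).mul ((hX i 0).sub (hX j 0))).mul ((hX i 0).add (e2 j))
  · have e2 : ∀ (k l : ι) (m n : ℕ), (X (k, m) * X (l, n) : Fk ι ℂ).IsHomogeneous 2 :=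
      fun k l m n => (hX k m).mul (hX l n)
    have e3 : ∀ (k l : ι) (m n : ℕ), (2 * (X (k, m) * X (l, n)) : Fk ι ℂ).IsHomogeneous 2 := by
      intro k l m n
      have := (h_num (ι := ι) 2).mul (e2 k l m n)
      rwa [zero_add] at this
    exact ((h_num 9).mul (hC κ)).mul
      ((((e3 i i 0 1).sub (e2 i j 0 1)).add (e2 j i 0 1)).sub (e3 j j 0 1))
  · exact ((h_num 36).mul ((hC κ).pow 2)).mul ((hX i 2).sub (hX j 2))
  · intro k hk
    rcases hk with rfl | hk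
    · exact scr_cub hc κ k j h
    · rw [Set.mem_singleton_iff] at hk
      subst hk
      have := scr_cub hc κ k i (by rw [hc.symm]; exact h)
      rw [← neg_eq_zero, ← map_neg, ← this]
      congr 1
      ring

theorem main : S_LFT := by
  intro ι _ _ c hc ν
  refine ⟨fun I v h => lft_lin hc ν I v h, fun i => ?_, fun i j k hij => ?_⟩
  · rw [lin_al]
    exact lft_quad1 hc ν _ i fun j hj hne => absurd hj hne
  · have hji : c j i = c i j := hc.symm j i
    rcases hc.off i j hij with h0 | h1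
    · unfold pairP
      simp only [h0, if_true]
      split_ifs with hk hk
      · refine ⟨2, ?_⟩
        rw [map_pow, emb_X]
        refine lft_quad1 hc ν _ i fun l hl hne => ?_
        rcases hl with rfl | hl
        · exact absurd rfl hne
        · rw [Set.mem_singleton_iff] at hl
          subst hl
          rw [hji, h0]
      · refine ⟨2, ?_⟩
        rw [map_pow, emb_X]
        refine lft_quad1 hc ν _ j fun l hl hne => ?_
        rcases hl with rfl | hl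
        · exact h0
        · exact absurd hl hne
      · refine ⟨1, ?_⟩
        rw [emb_lin0]
        refine lft_lin hc ν _ _ fun l hl => ?_
        simp only [form_sub_left, form_smul_left, form_al_al]
        rcases hl with rfl | hl
        · rw [hc.diag, hji, h0]; ring
        · rw [Set.mem_singleton_iff] at hl
          subst hl
          rw [hc.diag, h0]; ring
    · unfold pairP
      simp only [h1]
      rw [if_neg (by norm_num)]
      split_ifs with hk hk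
      · refine ⟨2, ?_⟩
        simp only [map_add, map_mul, map_pow, emb_X]
        exact lft_quad2 hc ν i j h1
      · refine ⟨3, ?_⟩
        simp only [map_add, map_sub, map_mul, map_pow, emb_X, map_ofNat]
        exact lft_cub hc ν i j h1
      · refine ⟨1, ?_⟩
        rw [emb_lin0]
        refine lft_lin hc ν _ _ fun l hl => ?_
        simp only [form_sub_left, form_smul_left, form_al_al]
        rcases hl with rfl | hl
        · rw [hc.diag, hji, h1]; ring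
        · rw [Set.mem_singleton_iff] at hl
          subst hl
          rw [hc.diag, h1]; ring

end Pool.Agent.H391.SK.P_LFT
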