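import Pool.Agent.H391.SK.StE

/-!
# Project SK: the exactness theorem MID from the parts
-/

set_option autoImplicit false
set_option linter.unusedSectionVars false

namespace Pool.Agent.H391.SK.P_MID

open MvPolynomial Pool.Agent.H391.SK

variable {ι : Type} [Fintype ι] [DecidableEq ι]

/-! ### The derivation `D 1` -/

theorem D_C (n : ℕ) (a : ℂ) : D n (C a : Fk ι ℂ) = if n = 0 then C a else 0 := by
  have h1 : (C a : Fk ι ℂ) = C a * 1 := by rw [mul_one]
  rw [h1, D_C_mul, D_one]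
  split_ifs <;> simp

theorem D1_mul (f g : Fk ι ℂ) : D 1 (f * g) = D 1 f * g + f * D 1 g := by
  rw [D_mul, Finset.Nat.antidiagonal_succ]
  simp [D_zero_idx]
  ring

theorem D1_D (n : ℕ) (f : Fk ι ℂ) : D 1 (D n f) = C ((n : ℂ) + 1) * D (n + 1) f := by
  induction f using MvPolynomial.induction_on generalizing n with
  | C a =>
    rw [D_C, D_C, if_neg (Nat.succ_ne_zero n), mul_zero]
    split_ifs
    · rw [D_C, if_neg one_ne_zero]
    · have : (0 : Fk ι ℂ) = C 0 := (map_zero C).symm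
      rw [this, D_C, if_neg one_ne_zero, map_zero]
  | add p q hp hq => rw [D_add, D_add, D_add, hp, hq, mul_add]
  | mul_X p i hp =>
    obtain ⟨k, m⟩ := i
    have hX : ∀ n, D 1 (D n (X (k, m) : Fk ι ℂ)) = C ((n : ℂ) + 1) * D (n + 1) (X (k, m)) := by
      intro n
      rw [D_X, D_C_mul, D_X, D_X, ← mul_assoc, ← mul_assoc, ← C_mul, ← C_mul]
      congr 2
      rw [Nat.choose_one_right]
      have h1 : (m + n + 1) * (m + n).choose n = (n + 1) * (m + (n + 1)).choose (n + 1) := by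
        have := Nat.add_one_mul_choose_eq (m + n) n
        rw [show m + (n + 1) = m + n + 1 from rfl, this]
        ring
      have h2 : ((m + n + 1 : ℕ) : ℂ) * ((m + n).choose n : ℕ) =
          ((n + 1 : ℕ) : ℂ) * ((m + (n + 1)).choose (n + 1) : ℕ) := by exact_mod_cast h1
      push_cast at h2 ⊢
      linear_combination h2
    rw [D_mul, D_sum]
    have h1 : ∀ x : ℕ × ℕ, D 1 (D x.1 p * D x.2 (X (k, m))) =
        C ((x.1 : ℂ) + 1) * D (x.1 + 1) p * D x.2 (X (k, m)) +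
          D x.1 p * (C ((x.2 : ℂ) + 1) * D (x.2 + 1) (X (k, m))) := by
      intro x
      rw [D1_mul, hp, hX]
    rw [Finset.sum_congr rfl (fun x _ => h1 x), Finset.sum_add_distrib, D_mul, Finset.mul_sum]
    have h2 : ∀ x ∈ Finset.HasAntidiagonal.antidiagonal (n + 1),
        C ((n : ℂ) + 1) * (D x.1 p * D x.2 (X (k, m))) =
          C (x.1 : ℂ) * D x.1 p * D x.2 (X (k, m)) +
            D x.1 p * (C (x.2 : ℂ) * D x.2 (X (k, m))) := by
      intro x hx
      have h3 : x.1 + x.2 = n + 1 := Finset.HasAntidiagonal.mem_antidiagonal.1 hx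
      have h4 : (n : ℂ) + 1 = (x.1 : ℂ) + (x.2 : ℂ) := by exact_mod_cast h3.symm
      rw [h4, C_add]
      ring
    rw [Finset.sum_congr rfl h2, Finset.sum_add_distrib, Finset.Nat.antidiagonal_succ,
      Finset.sum_cons, Finset.sum_map]
    rw [← Finset.Nat.antidiagonal_succ, Finset.Nat.antidiagonal_succ', Finset.sum_cons,
      Finset.sum_map]
    simp

/-- `B β` is stable under `D 1`. -/
theorem D1_mem_B {c : Matrix ι ι ℤ} {β : ι → ℤ} {f : Fk ι ℂ} (hf : f ∈ B c β) :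
    D 1 f ∈ B c β := by
  have hf' := hf
  unfold B at hf'
  induction hf' using Algebra.adjoin_induction with
  | mem x hx =>
    rcases hx with ⟨n, rfl⟩ | ⟨v, n, hv, rfl⟩
    · rw [D1_D]
      exact Subalgebra.mul_mem _ (Subalgebra.algebraMap_mem (B c β) ((n : ℂ) + 1)) (sq_mem_B c β _)
    · rw [D_lin]
      exact Subalgebra.mul_mem _ (Subalgebra.algebraMap_mem (B c β) _) (lin_mem_B hv _)
  | algebraMap r =>
    have : algebraMap ℂ (Fk ι ℂ) r = C r := rfl
    rw [this, D_C, if_neg one_ne_zero]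
    exact Subalgebra.zero_mem _
  | add x y hx hy hx' hy' =>
    rw [D_add]
    exact Subalgebra.add_mem _ (hx' hx) (hy' hy)
  | mul x y hx hy hx' hy' =>
    rw [D1_mul]
    exact Subalgebra.add_mem _ (Subalgebra.mul_mem _ (hx' hx) hy)
      (Subalgebra.mul_mem _ hx (hy' hy))

/-- `B β` is stable under all `D n`. -/
theorem D_mem_B {c : Matrix ι ι ℤ} {β : ι → ℤ} {f : Fk ι ℂ} (hf : f ∈ B c β) (n : ℕ) :
    D n f ∈ B c β := by
  induction n with
  | zero => rwa [D_zero_idx]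
  | succ n ih =>
    have h1 := D1_mem_B ih
    rw [D1_D] at h1
    have h2 : D (n + 1) f = C (((n : ℂ) + 1)⁻¹) * (C ((n : ℂ) + 1) * D (n + 1) f) := by
      rw [← mul_assoc, ← C_mul, inv_mul_cancel₀ (Nat.cast_add_one_ne_zero n), C_1, one_mul]
    rw [h2]
    exact Subalgebra.mul_mem _ (Subalgebra.algebraMap_mem (B c β) _) h1

/-! ### Polynomial functions -/

theorem C_mul_mem_B {c : Matrix ι ι ℤ} {β : ι → ℤ} (a : ℂ) {f : Fk ι ℂ} (hf : f ∈ B c β) :
    C a * f ∈ B c β :=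
  Subalgebra.mul_mem _ (Subalgebra.algebraMap_mem (B c β) a) hf

/-- invariant polynomials are in `B_k` -/
theorem emb_mem_B (hQP : S_QP) {c : Matrix ι ι ℤ} (hc : IsADE c) (k : ι) {f : MvPolynomial ι ℂ}
    (hf : act0 (sr c (al k)) f = f) : emb f ∈ B c (al k) := by
  have h1 := hQP ι c hc k 0 (emb f) (by rw [act_emb, hf]) (JW_emb f)
  rwa [mul_zero, pow_zero, one_mul] at h1

/-- `RR P ⊆ B_k` -/
theorem RR_le_B (hQP : S_QP) {c : Matrix ι ι ℤ} (hc : IsADE c) {P : ι → MvPolynomial ι ℂ}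
    (hP : Gen c Finset.univ P) (k : ι) : RR P ≤ B c (al k) := by
  refine Algebra.adjoin_le ?_
  rintro _ ⟨j, n, rfl⟩
  refine D_mem_B (emb_mem_B hQP hc k ?_) n
  exact (hP (P j)).1 (Algebra.subset_adjoin ⟨j, rfl⟩) k (Finset.mem_univ k)

/-- `emb` maps `ℂ[P]` into `RR P` -/
theorem emb_mem_RR {P : ι → MvPolynomial ι ℂ} {f : MvPolynomial ι ℂ}
    (hf : f ∈ Algebra.adjoin ℂ (Set.range P)) : emb f ∈ RR P := by
  have h1 : Algebra.adjoin ℂ (Set.range P) ≤ (RR P).comap emb := by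
    refine Algebra.adjoin_le ?_
    rintro _ ⟨j, rfl⟩
    show emb (P j) ∈ RR P
    refine Algebra.subset_adjoin ⟨j, 0, ?_⟩
    rw [D_zero_idx]
  exact h1 hf

theorem lin0_ne_zero {β : ι → ℤ} (h : β ≠ 0) : lin0 β ≠ 0 := by
  obtain ⟨k, hk⟩ := Function.ne_iff.1 h
  intro h0
  have h1 : MvPolynomial.eval (Pi.single k (1 : ℂ)) (lin0 β) = ((β k : ℤ) : ℂ) := by
    simp [lin0, Pi.single_apply]
  rw [h0, map_zero] at h1
  exact hk (by exact_mod_cast h1.symm)

theorem al_mem_PR {c : Matrix ι ι ℤ} (hc : IsADE c) (k : ι) :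
    al k ∈ PR c (Set.univ : Set ι) \ PR c ∅ := by
  refine ⟨⟨hc.form_al k, fun j => ?_, fun j hj => absurd (Set.mem_univ j) hj⟩, fun h => ?_⟩
  · unfold al
    rw [Pi.single_apply]
    split_ifs <;> norm_num
  · have h1 := h.2.2 k (Set.notMem_empty k)
    unfold al at h1
    rw [Pi.single_eq_same] at h1
    exact one_ne_zero h1

theorem Jc_eq (hR : S_ROOT) {c : Matrix ι ι ℤ} (hc : IsADE c) :
    ∃ S : Finset (ι → ℤ), (∀ β, β ∈ S ↔ β ∈ PR c (Set.univ : Set ι) \ PR c ∅) ∧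
      Jc c Set.univ ∅ = ∏ β ∈ S, lin0 β := by
  have hfin : (PR c (Set.univ : Set ι) \ PR c ∅).Finite := ((hR ι c hc).2.1 _).subset Set.sdiff_subset
  refine ⟨hfin.toFinset, fun β => hfin.mem_toFinset, ?_⟩
  unfold Jc
  rw [finprod_mem_eq_finite_toFinset_prod _ hfin]

theorem Jc_ne_zero (hR : S_ROOT) {c : Matrix ι ι ℤ} (hc : IsADE c) : Jc c Set.univ ∅ ≠ 0 := by
  obtain ⟨S, hS, h⟩ := Jc_eq hR hc
  rw [h, Finset.prod_ne_zero_iff]
  intro β hβ
  apply lin0_ne_zero
  rintro rfl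
  have h1 : form c (0 : ι → ℤ) 0 = 2 := ((hS _).1 hβ).1.1
  simp [form] at h1

theorem X_dvd_Jc (hR : S_ROOT) {c : Matrix ι ι ℤ} (hc : IsADE c) (k : ι) :
    (X k : MvPolynomial ι ℂ) ∣ Jc c Set.univ ∅ := by
  obtain ⟨S, hS, h⟩ := Jc_eq hR hc
  rw [h, ← lin0_al]
  exact Finset.dvd_prod_of_mem _ ((hS _).2 (al_mem_PR hc k))

theorem X_not_unit (k : ι) : ¬ IsUnit (X k : MvPolynomial ι ℂ) := by
  intro h
  have h1 := h.map (constantCoeff (R := ℂ) (σ := ι))
  rw [constantCoeff_X] at h1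
  exact not_isUnit_zero h1

/-! ### The group -/

theorem sr_comm {c : Matrix ι ι ℤ} (hc : IsADE c) {i j : ι} (h : c i j = 0) :
    sr c (al i) ∘ₗ sr c (al j) = sr c (al j) ∘ₗ sr c (al i) := by
  have h1 : form c (al i) (al j) = 0 := by rw [form_al_al, h]
  have h2 : form c (al j) (al i) = 0 := by rw [form_al_al, hc.symm, h]
  refine LinearMap.ext fun v => ?_
  simp only [LinearMap.comp_apply, sr_apply, form_sub_left, form_smul_left, h1, h2, mul_zero,
    sub_zero]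
  abel

theorem sr_braid {c : Matrix ι ι ℤ} (hc : IsADE c) {i j : ι} (h : c i j = -1) :
    sr c (al i) ∘ₗ sr c (al j) ∘ₗ sr c (al i) = sr c (al j) ∘ₗ sr c (al i) ∘ₗ sr c (al j) := by
  have h1 : form c (al i) (al j) = -1 := by rw [form_al_al, h]
  have h2 : form c (al j) (al i) = -1 := by rw [form_al_al, hc.symm, h]
  have h3 := hc.form_al i
  have h4 := hc.form_al j
  refine LinearMap.ext fun v => ?_
  simp only [LinearMap.comp_apply, sr_apply, form_sub_left, form_smul_left, h1, h2, h3, h4]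
  module

/-- the operators -/
noncomputable def sop (c : Matrix ι ι ℤ) (i : ι) : Module.End ℂ (Fk ι ℂ) :=
  (act (sr c (al i))).toLinearMap

theorem sop_apply (c : Matrix ι ι ℤ) (i : ι) (f : Fk ι ℂ) :
    sop c i f = act (sr c (al i)) f := rfl

theorem sop_closure_finite (hR : S_ROOT) {c : Matrix ι ι ℤ} (hc : IsADE c) :
    (Submonoid.closure (Set.range (sop c)) : Set (Module.End ℂ (Fk ι ℂ))).Finite := by
  have hfin : Finite (Wg c (Set.univ : Set ι)) := (hR ι c hc).2.2.1 _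
  let T : Submonoid (Module.End ℂ (Fk ι ℂ)) :=
    { carrier := Set.range fun g : Wg c (Set.univ : Set ι) =>
        (act (((g : (ι → ℤ) ≃ₗ[ℤ] (ι → ℤ))) : (ι → ℤ) →ₗ[ℤ] (ι → ℤ))).toLinearMap
      one_mem' := ⟨1, LinearMap.ext fun f => act_one f⟩
      mul_mem' := by
        rintro _ _ ⟨g, rfl⟩ ⟨h, rfl⟩
        exact ⟨g * h, LinearMap.ext fun f => act_mul (g : (ι → ℤ) ≃ₗ[ℤ] (ι → ℤ)) h f⟩ }
  have h1 : Submonoid.closure (Set.range (sop c)) ≤ T := by
    rw [Submonoid.closure_le]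
    rintro _ ⟨i, rfl⟩
    exact ⟨⟨sre (hc.form_al i), sre_mem_Wg hc (Set.mem_univ i)⟩, LinearMap.ext fun f => rfl⟩
  exact (Set.finite_range _).subset h1

/-- Step 1: reduction to a family of invariant elements. -/
theorem step1 (hR : S_ROOT) (hG : S_GAR) {c : Matrix ι ι ℤ} (hc : IsADE c) (f : ι → Fk ι ℂ)
    (hf : ∀ i j, ∃ a ∈ B c (al i), ∃ b ∈ B c (al j), f i - f j = a - b) :
    ∃ (f₀ : Fk ι ℂ) (N : ℕ), 1 ≤ N ∧ Fam c N (fun i => f i - f₀) := by
  obtain ⟨f₀, hf₀⟩ := hG ι c hc (Fk ι ℂ) (sop c) (sop_closure_finite hR hc)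
    (fun i => LinearMap.ext fun f => act_sr_sr (hc.form_al i) f)
    (fun i j h => LinearMap.ext fun f => by
      show act (sr c (al i)) (act (sr c (al j)) f) = act (sr c (al j)) (act (sr c (al i)) f)
      rw [← act_comp, ← act_comp, sr_comm hc h])
    (fun i j h => LinearMap.ext fun f => by
      show act (sr c (al i)) (act (sr c (al j)) (act (sr c (al i)) f)) =
        act (sr c (al j)) (act (sr c (al i)) (act (sr c (al j)) f))
      rw [← act_comp, ← act_comp, ← act_comp, ← act_comp, LinearMap.comp_assoc, sr_braid hc h,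
        LinearMap.comp_assoc])
    f (fun i j => by
      obtain ⟨a, ha, b, hb, h⟩ := hf i j
      exact ⟨a, b, B_inv (hc.form_al i) ha, B_inv (hc.form_al j) hb, h⟩)
  have hinv : ∀ i, act (sr c (al i)) (f i - f₀) = f i - f₀ := by
    intro i
    have h1 : act (sr c (al i)) (f₀ - f i) = f₀ - f i := hf₀ i
    have h2 : f i - f₀ = -(f₀ - f i) := by ring
    rw [h2, map_neg, h1]
  have hg : ∀ p : ι × ι, ∃ g : Fk ι ℂ, act (sr c (al p.1)) g = g ∧ act (sr c (al p.2)) g = g ∧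
      g - (f p.1 - f₀) ∈ B c (al p.1) ∧ g - (f p.2 - f₀) ∈ B c (al p.2) := by
    rintro ⟨i, j⟩
    obtain ⟨a, ha, b, hb, h⟩ := hf i j
    refine ⟨f i - f₀ - a, ?_, ?_, ?_, ?_⟩
    · rw [map_sub, hinv i, B_inv (hc.form_al i) ha]
    · have h1 : f i - f₀ - a = f j - f₀ - b := by linear_combination h
      simp only
      rw [h1, map_sub, hinv j, B_inv (hc.form_al j) hb]
    · have h1 : f i - f₀ - a - (f i - f₀) = -a := by ring
      simp only
      rw [h1]
      exact Subalgebra.neg_mem _ ha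
    · have h1 : f i - f₀ - a - (f j - f₀) = -b := by linear_combination h
      simp only
      rw [h1]
      exact Subalgebra.neg_mem _ hb
  choose g hg1 hg2 hg3 hg4 using hg
  choose N₁ hN₁ using fun i => exists_JW (f i - f₀)
  choose N₂ hN₂ using fun p => exists_JW (g p)
  have h1 : ∀ i, N₁ i ≤ 1 + ∑ i, N₁ i + ∑ p, N₂ p := by
    intro i
    have := Finset.single_le_sum (f := N₁) (fun i _ => Nat.zero_le _) (Finset.mem_univ i)
    omega
  have h2 : ∀ p, N₂ p ≤ 1 + ∑ i, N₁ i + ∑ p, N₂ p := by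
    intro p
    have := Finset.single_le_sum (f := N₂) (fun i _ => Nat.zero_le _) (Finset.mem_univ p)
    omega
  refine ⟨f₀, 1 + ∑ i, N₁ i + ∑ p, N₂ p, by omega, ?_, ?_⟩
  · intro i
    exact ⟨hinv i, JW_mono (h1 i) (hN₁ i)⟩
  · intro i j
    exact ⟨g (i, j), hg1 (i, j), hg2 (i, j), JW_mono (h2 _) (hN₂ _), hg3 (i, j), hg4 (i, j)⟩

/-- Step 2: gluing of an invariant family. -/
theorem step2 (hR : S_ROOT) (hQP : S_QP) (hTOR : S_TOR) (hTH : S_TH) (hREG2 : S_REG2)
    (hREG3 : S_REG3) (hCHEV : S_CHEV) (hE1 : S_E1) (hRRG : S_RRG) (hEQ : S_EQ) (hSTEP : S_STEP)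
    {c : Matrix ι ι ℤ} (hc : IsADE c) (hcard : 2 ≤ Fintype.card ι) (N : ℕ) (hN : 1 ≤ N)
    (h : ι → Fk ι ℂ) (hfam : Fam c N h) : ∃ g : Fk ι ℂ, ∀ k, h k - g ∈ B c (al k) := by
  obtain ⟨P, hP⟩ := hCHEV ι c hc
  obtain ⟨hAI, hRR⟩ := hE1 ι c hc Finset.univ P hP
  set a : MvPolynomial ι ℂ := Jc c Set.univ ∅ ^ (2 * N) with ha
  set b : MvPolynomial ι ℂ := ∑ i, th c Set.univ {i} N with hb
  set e : MvPolynomial ι ℂ := ∑ i, ∑ j ∈ Finset.univ.erase i, th c Set.univ {i, j} N with he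
  have hth : ∀ (J : Set ι) (k : ι), act0 (sr c (al k)) (th c Set.univ J N) = th c Set.univ J N :=
    fun J k => (hTH hR ι c hc Set.univ J N).1 k (Set.mem_univ k)
  obtain ⟨n, hn, hn'⟩ := (hTH hR ι c hc Set.univ ∅ N).2
  have hnC : ((n : ℕ) : ℂ) ≠ 0 := Nat.cast_ne_zero.2 hn
  have ha' : a = C ((n : ℂ)⁻¹) * th c Set.univ ∅ N := by
    rw [hn', ← mul_assoc, ← C_mul, inv_mul_cancel₀ hnC, C_1, one_mul]
  have hainv : ∀ k, act0 (sr c (al k)) a = a := by
    intro k
    rw [ha', map_mul, hth]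
    congr 1
    exact AlgHom.commutes (act0 (sr c (al k))) ((n : ℂ)⁻¹)
  have hbinv : ∀ k, act0 (sr c (al k)) b = b := by
    intro k
    rw [hb, map_sum]
    exact Finset.sum_congr rfl fun i _ => hth _ k
  have heinv : ∀ k, act0 (sr c (al k)) e = e := by
    intro k
    rw [he, map_sum]
    refine Finset.sum_congr rfl fun i _ => ?_
    rw [map_sum]
    exact Finset.sum_congr rfl fun j _ => hth _ k
  have haP : a ∈ Algebra.adjoin ℂ (Set.range P) := (hP a).2 fun i _ => hainv i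
  have hbP : b ∈ Algebra.adjoin ℂ (Set.range P) := (hP b).2 fun i _ => hbinv i
  have heP : e ∈ Algebra.adjoin ℂ (Set.range P) := (hP e).2 fun i _ => heinv i
  have ha0 : a ≠ 0 := pow_ne_zero _ (Jc_ne_zero hR hc)
  have hea0 : (emb a : Fk ι ℂ) ≠ 0 := by
    intro h0
    exact ha0 (emb_injective (by rw [h0, map_zero]))
  have hrel : IsRelPrime a b := by
    have h1 := hREG2 hR ι c hc Finset.univ N
    rw [Finset.coe_univ] at h1
    exact h1
  obtain ⟨hG1, hG2, hG3⟩ := hRRG hR ι c hc Finset.univ P hP hAI a b e haP hbP heP ha0 hrel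
  -- the three coboundaries
  obtain ⟨ga', hga'⟩ := hSTEP hR hQP hEQ ι c hc N h hfam ∅ (by simp)
  choose gb' hgb' using fun i => hSTEP hR hQP hEQ ι c hc N h hfam {i} (by simp)
  choose ge' hge' using fun i j => hSTEP hR hQP hEQ ι c hc N h hfam {i, j} Finset.card_le_two
  have haB : ∀ k, emb a ∈ B c (al k) := fun k => emb_mem_B hQP hc k (hainv k)
  have hbB : ∀ k, emb b ∈ B c (al k) := fun k => emb_mem_B hQP hc k (hbinv k)
  have heB : ∀ k, emb e ∈ B c (al k) := fun k => emb_mem_B hQP hc k (heinv k)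
  obtain ⟨ga, hga⟩ : ∃ ga : Fk ι ℂ, ∀ k, emb a * h k - ga ∈ B c (al k) := by
    refine ⟨C ((n : ℂ)⁻¹) * ga', fun k => ?_⟩
    have h1 := C_mul_mem_B ((n : ℂ)⁻¹) (hga' k)
    rw [Finset.coe_empty] at h1
    have h2 : emb a * h k - C ((n : ℂ)⁻¹) * ga' =
        C ((n : ℂ)⁻¹) * (emb (th c Set.univ ∅ N) * h k - ga') := by
      rw [ha', map_mul]
      have h3 : (emb (C ((n : ℂ)⁻¹)) : Fk ι ℂ) = C ((n : ℂ)⁻¹) := AlgHom.commutes emb _
      rw [h3]
      ring
    rw [h2]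
    exact h1
  obtain ⟨gb, hgb⟩ : ∃ gb : Fk ι ℂ, ∀ k, emb b * h k - gb ∈ B c (al k) := by
    refine ⟨∑ i, gb' i, fun k => ?_⟩
    have h2 : emb b * h k - ∑ i, gb' i =
        ∑ i, (emb (th c Set.univ (({i} : Finset ι) : Set ι) N) * h k - gb' i) := by
      rw [Finset.sum_sub_distrib, ← Finset.sum_mul, hb, map_sum]
      simp only [Finset.coe_singleton]
    rw [h2]
    exact Subalgebra.sum_mem _ fun i _ => hgb' i k
  obtain ⟨ge, hge⟩ : ∃ ge : Fk ι ℂ, ∀ k, emb e * h k - ge ∈ B c (al k) := by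
    refine ⟨∑ i, ∑ j ∈ Finset.univ.erase i, ge' i j, fun k => ?_⟩
    have h2 : emb e * h k - ∑ i, ∑ j ∈ Finset.univ.erase i, ge' i j =
        ∑ i, ∑ j ∈ Finset.univ.erase i,
          (emb (th c Set.univ (({i, j} : Finset ι) : Set ι) N) * h k - ge' i j) := by
      simp only [Finset.sum_sub_distrib, ← Finset.sum_mul, he, map_sum, Finset.coe_pair]
    rw [h2]
    exact Subalgebra.sum_mem _ fun i _ => Subalgebra.sum_mem _ fun j _ => hge' i j k
  -- the differences lie in all `B_k`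
  have key : ∀ (x y : MvPolynomial ι ℂ) (gx gy : Fk ι ℂ), (∀ k, emb x ∈ B c (al k)) →
      (∀ k, emb y ∈ B c (al k)) → (∀ k, emb x * h k - gx ∈ B c (al k)) →
      (∀ k, emb y * h k - gy ∈ B c (al k)) → emb y * gx - emb x * gy ∈ RR P := by
    intro x y gx gy hx hy hgx hgy
    refine hRR _ fun k _ => ?_
    have h1 : emb y * gx - emb x * gy =
        emb x * (emb y * h k - gy) - emb y * (emb x * h k - gx) := by ring
    rw [h1]
    exact Subalgebra.sub_mem _ (Subalgebra.mul_mem _ (hx k) (hgy k))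
      (Subalgebra.mul_mem _ (hy k) (hgx k))
  have hab := key a b ga gb haB hbB hga hgb
  have hae := key a e ga ge haB heB hga hge
  have hbe := key b e gb ge hbB heB hgb hge
  obtain ⟨u, hu, v, hv, huv⟩ := hG3 (hREG3 hR hREG2 ι c hc hcard N)
    _ hab _ (Subalgebra.neg_mem _ hbe) _ hae (by ring)
  have heRR : emb e ∈ RR P := emb_mem_RR heP
  obtain ⟨t, ht, ht'⟩ := hG2 (emb e * ga - emb a * ge - emb e * v)
    (Subalgebra.sub_mem _ hae (Subalgebra.mul_mem _ heRR hv))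
    (emb e * u + (emb e * gb - emb b * ge))
    (Subalgebra.add_mem _ (Subalgebra.mul_mem _ heRR hu) hbe) (by
      linear_combination (emb e : Fk ι ℂ) * huv)
  -- the first part for `ga - v`, `gb + u`
  obtain ⟨g, hg⟩ := hG1 (ga - v) (gb + u) (by linear_combination huv)
  have hg' : gb + u = emb b * g := by
    have h1 : emb a * (gb + u) = emb a * (emb b * g) := by
      linear_combination (-1 : Fk ι ℂ) * huv + emb b * hg
    exact mul_left_cancel₀ hea0 h1
  refine ⟨g, fun k => ?_⟩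
  have h1 : emb b * (h k - g) ∈ B c (al k) := by
    have h2 : emb b * (h k - g) = (emb b * h k - gb) - u := by linear_combination hg'
    rw [h2]
    exact Subalgebra.sub_mem _ (hgb k) (RR_le_B hQP hc hP k hu)
  refine hTOR hQP ι c hc k b (h k - g) (hbinv k) ?_ h1
  intro hdvd
  have h2 : (X k : MvPolynomial ι ℂ) ∣ a := by
    rw [ha]
    exact dvd_pow (X_dvd_Jc hR hc k) (by omega)
  exact X_not_unit k (hrel h2 hdvd)

theorem main : S_MIDimp := by
  intro hR hLEN hG hQP hTOR hTH hREG2 hREG3 hCHEV hE1 hRRG hEQ hSTEP ι _ _ c hc f hf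
  by_cases hcard : 2 ≤ Fintype.card ι
  · obtain ⟨f₀, N, hN, hfam⟩ := step1 hR hG hc f hf
    obtain ⟨g, hg⟩ := step2 hR hQP hTOR hTH hREG2 hREG3 hCHEV hE1 hRRG hEQ hSTEP hc hcard N hN _ hfam
    refine ⟨g + f₀, fun i => ?_⟩
    have h1 : g + f₀ - f i = -(f i - f₀ - g) := by ring
    rw [h1]
    exact Subalgebra.neg_mem _ (hg i)
  · have hsub : Subsingleton ι := Fintype.card_le_one_iff_subsingleton.1 (by omega)
    rcases isEmpty_or_nonempty ι with hE | ⟨⟨i₀⟩⟩
    · exact ⟨0, fun i => hE.elim i⟩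
    · refine ⟨f i₀, fun i => ?_⟩
      rw [Subsingleton.elim i i₀, sub_self]
      exact Subalgebra.zero_mem _

end Pool.Agent.H391.SK.P_MID
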