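import Pool.Agent.H391.SK.StD

/-!
# SK-PAIR: the invariants of the group generated by two simple reflections
-/

namespace Pool.Agent.H391.SK.P_PAIR

open MvPolynomial

section abstract

variable {O : Type} [CommRing O] [Algebra ℂ O]

/-- normal forms over the subalgebra `R`, rank two, case `A₂` -/
def NF2 (R : Subalgebra ℂ O) (a b f : O) : Prop :=
  ∃ r0 r1 r2 r3 r4 r5 : O, r0 ∈ R ∧ r1 ∈ R ∧ r2 ∈ R ∧ r3 ∈ R ∧ r4 ∈ R ∧ r5 ∈ R ∧
    f = r0 + r1 * a + r2 * b + r3 * a ^ 2 + r4 * (a * b) + r5 * (a ^ 2 * b)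

/-- normal forms over the subalgebra `R`, case `A₁ × A₁` -/
def NF1 (R : Subalgebra ℂ O) (a b f : O) : Prop :=
  ∃ r0 r1 r2 r3 : O, r0 ∈ R ∧ r1 ∈ R ∧ r2 ∈ R ∧ r3 ∈ R ∧
    f = r0 + r1 * a + r2 * b + r3 * (a * b)

theorem NF2.add {R : Subalgebra ℂ O} {a b f g : O} (hf : NF2 R a b f) (hg : NF2 R a b g) :
    NF2 R a b (f + g) := by
  obtain ⟨r0, r1, r2, r3, r4, r5, h0, h1, h2, h3, h4, h5, rfl⟩ := hf
  obtain ⟨s0, s1, s2, s3, s4, s5, k0, k1, k2, k3, k4, k5, rfl⟩ := hg
  exact ⟨_, _, _, _, _, _, add_mem h0 k0, add_mem h1 k1, add_mem h2 k2, add_mem h3 k3,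
    add_mem h4 k4, add_mem h5 k5, by ring⟩

theorem NF2.smul {R : Subalgebra ℂ O} {a b f c : O} (hf : NF2 R a b f) (hc : c ∈ R) :
    NF2 R a b (c * f) := by
  obtain ⟨r0, r1, r2, r3, r4, r5, h0, h1, h2, h3, h4, h5, rfl⟩ := hf
  exact ⟨_, _, _, _, _, _, mul_mem hc h0, mul_mem hc h1, mul_mem hc h2, mul_mem hc h3,
    mul_mem hc h4, mul_mem hc h5, by ring⟩

theorem NF1.add {R : Subalgebra ℂ O} {a b f g : O} (hf : NF1 R a b f) (hg : NF1 R a b g) :
    NF1 R a b (f + g) := by
  obtain ⟨r0, r1, r2, r3, h0, h1, h2, h3, rfl⟩ := hf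
  obtain ⟨s0, s1, s2, s3, k0, k1, k2, k3, rfl⟩ := hg
  exact ⟨_, _, _, _, add_mem h0 k0, add_mem h1 k1, add_mem h2 k2, add_mem h3 k3, by ring⟩

theorem NF1.smul {R : Subalgebra ℂ O} {a b f c : O} (hf : NF1 R a b f) (hc : c ∈ R) :
    NF1 R a b (c * f) := by
  obtain ⟨r0, r1, r2, r3, h0, h1, h2, h3, rfl⟩ := hf
  exact ⟨_, _, _, _, mul_mem hc h0, mul_mem hc h1, mul_mem hc h2, mul_mem hc h3, by ring⟩

theorem NF2.of_mem {R : Subalgebra ℂ O} {a b f : O} (hf : f ∈ R) : NF2 R a b f :=
  ⟨f, 0, 0, 0, 0, 0, hf, zero_mem _, zero_mem _, zero_mem _, zero_mem _, zero_mem _, by ring⟩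

theorem NF1.of_mem {R : Subalgebra ℂ O} {a b f : O} (hf : f ∈ R) : NF1 R a b f :=
  ⟨f, 0, 0, 0, hf, zero_mem _, zero_mem _, zero_mem _, by ring⟩

theorem NF1.mul_a {R : Subalgebra ℂ O} {a b f : O} (hf : NF1 R a b f) (hp : a ^ 2 ∈ R) :
    NF1 R a b (f * a) := by
  obtain ⟨r0, r1, r2, r3, h0, h1, h2, h3, rfl⟩ := hf
  exact ⟨r1 * a ^ 2, r0, r3 * a ^ 2, r2, mul_mem h1 hp, h0, mul_mem h3 hp, h2, by ring⟩

theorem NF1.mul_b {R : Subalgebra ℂ O} {a b f : O} (hf : NF1 R a b f) (hq : b ^ 2 ∈ R) :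
    NF1 R a b (f * b) := by
  obtain ⟨r0, r1, r2, r3, h0, h1, h2, h3, rfl⟩ := hf
  exact ⟨r2 * b ^ 2, r3 * b ^ 2, r0, r1, mul_mem h2 hq, mul_mem h3 hq, h0, h1, by ring⟩

/-- the cubic relations -/
theorem rel3 {a b p q κ : O} (h3 : 3 * κ = 1) (hp : p = a ^ 2 + a * b + b ^ 2)
    (hq : q = (2 * a + b) * (a - b) * (a + 2 * b)) :
    a ^ 3 = κ * (q + p * a + 2 * p * b) - 2 * (a ^ 2 * b) ∧
    a ^ 3 * b = κ ^ 2 * (2 * p ^ 2 + 2 * q * a + q * b + 3 * p * (a * b)) -
      2 * κ * p * a ^ 2 := by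
  subst hp hq
  constructor
  · linear_combination (-(a ^ 3 + 2 * a ^ 2 * b)) * h3
  · linear_combination (-(a ^ 3 * b * (3 * κ + 1)) -
      2 * κ * (a ^ 2 + a * b + b ^ 2) * a ^ 2) * h3

theorem NF2.mul_a {R : Subalgebra ℂ O} {a b p q κ f : O} (h3 : 3 * κ = 1) (hκ : κ ∈ R)
    (hp : p = a ^ 2 + a * b + b ^ 2)
    (hq : q = (2 * a + b) * (a - b) * (a + 2 * b)) (hpR : p ∈ R) (hqR : q ∈ R)
    (hf : NF2 R a b f) : NF2 R a b (f * a) := by
  obtain ⟨ha3, ha3b⟩ := rel3 h3 hp hq
  obtain ⟨r0, r1, r2, r3, r4, r5, h0, h1, h2, h3', h4, h5, rfl⟩ := hf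
  refine ⟨r3 * κ * q + r5 * κ ^ 2 * (2 * p ^ 2), r0 + r3 * κ * p + r5 * κ ^ 2 * (2 * q),
    r3 * κ * (2 * p) + r5 * κ ^ 2 * q, r1 - r5 * (2 * κ * p), r2 + r5 * κ ^ 2 * (3 * p),
    r4 - 2 * r3, ?_, ?_, ?_, ?_, ?_, ?_, ?_⟩
  · exact add_mem (mul_mem (mul_mem h3' hκ) hqR)
      (mul_mem (mul_mem h5 (pow_mem hκ _)) (mul_mem (ofNat_mem _ _) (pow_mem hpR _)))
  · exact add_mem (add_mem h0 (mul_mem (mul_mem h3' hκ) hpR))
      (mul_mem (mul_mem h5 (pow_mem hκ _)) (mul_mem (ofNat_mem _ _) hqR))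
  · exact add_mem (mul_mem (mul_mem h3' hκ) (mul_mem (ofNat_mem _ _) hpR))
      (mul_mem (mul_mem h5 (pow_mem hκ _)) hqR)
  · exact sub_mem h1 (mul_mem h5 (mul_mem (mul_mem (ofNat_mem _ _) hκ) hpR))
  · exact add_mem h2 (mul_mem (mul_mem h5 (pow_mem hκ _)) (mul_mem (ofNat_mem _ _) hpR))
  · exact sub_mem h4 (mul_mem (ofNat_mem _ _) h3')
  · linear_combination r3 * ha3 + r5 * ha3b

theorem NF2.mul_b {R : Subalgebra ℂ O} {a b p q κ f : O} (h3 : 3 * κ = 1) (hκ : κ ∈ R)
    (hp : p = a ^ 2 + a * b + b ^ 2)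
    (hq : q = (2 * a + b) * (a - b) * (a + 2 * b)) (hpR : p ∈ R) (hqR : q ∈ R)
    (hf : NF2 R a b f) : NF2 R a b (f * b) := by
  obtain ⟨ha3, ha3b⟩ := rel3 h3 hp hq
  have hb2 : b ^ 2 = p - a ^ 2 - a * b := by rw [hp]; ring
  have hab2 : a * b ^ 2 = p * a - κ * (q + p * a + 2 * p * b) + a ^ 2 * b := by
    linear_combination a * hb2 - ha3
  have ha2b2 : a ^ 2 * b ^ 2 = p * a ^ 2 - κ * (q * a + p * a ^ 2 + 2 * p * (a * b)) +
      κ ^ 2 * (2 * p ^ 2 + 2 * q * a + q * b + 3 * p * (a * b)) - 2 * κ * p * a ^ 2 := by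
    linear_combination a ^ 2 * hb2 - a * ha3 + ha3b
  obtain ⟨r0, r1, r2, r3, r4, r5, h0, h1, h2, h3', h4, h5, rfl⟩ := hf
  refine ⟨r2 * p - r4 * κ * q + r5 * κ ^ 2 * (2 * p ^ 2),
    r4 * p - r4 * κ * p + r5 * (2 * κ ^ 2 * q - κ * q),
    r0 - 2 * κ * p * r4 + κ ^ 2 * q * r5, r5 * (p - κ * p - 2 * κ * p) - r2,
    r1 - r2 + r5 * (3 * κ ^ 2 * p - 2 * κ * p), r3 + r4, ?_, ?_, ?_, ?_, ?_, ?_, ?_⟩
  · exact add_mem (sub_mem (mul_mem h2 hpR) (mul_mem (mul_mem h4 hκ) hqR))
      (mul_mem (mul_mem h5 (pow_mem hκ _)) (mul_mem (ofNat_mem _ _) (pow_mem hpR _)))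
  · exact add_mem (sub_mem (mul_mem h4 hpR) (mul_mem (mul_mem h4 hκ) hpR))
      (mul_mem h5 (sub_mem (mul_mem (mul_mem (ofNat_mem _ _) (pow_mem hκ _)) hqR)
        (mul_mem hκ hqR)))
  · exact add_mem (sub_mem h0 (mul_mem (mul_mem (mul_mem (ofNat_mem _ _) hκ) hpR) h4))
      (mul_mem (mul_mem (pow_mem hκ _) hqR) h5)
  · exact sub_mem (mul_mem h5 (sub_mem (sub_mem hpR (mul_mem hκ hpR))
      (mul_mem (mul_mem (ofNat_mem _ _) hκ) hpR))) h2
  · exact add_mem (sub_mem h1 h2) (mul_mem h5 (sub_mem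
      (mul_mem (mul_mem (ofNat_mem _ _) (pow_mem hκ _)) hpR)
      (mul_mem (mul_mem (ofNat_mem _ _) hκ) hpR)))
  · exact add_mem h3' h4
  · linear_combination r2 * hb2 + r4 * hab2 + r5 * ha2b2

/-- invariants, `A₂` -/
theorem inv2 {R : Subalgebra ℂ O} {a b p q : O} (s t : O →ₐ[ℂ] O)
    (hp : p = a ^ 2 + a * b + b ^ 2) (hq : q = (2 * a + b) * (a - b) * (a + 2 * b))
    (hpR : p ∈ R) (hqR : q ∈ R) (hs : ∀ r ∈ R, s r = r) (ht : ∀ r ∈ R, t r = r)
    (sa : s a = -a) (sb : s b = a + b) (ta : t a = a + b) (tb : t b = -b) {f : O}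
    (hf : NF2 R a b f) (hsf : s f = f) (htf : t f = f) : f ∈ R := by
  obtain ⟨r0, r1, r2, r3, r4, r5, h0, h1, h2, h3, h4, h5, hf⟩ := hf
  have e1 : f = r0 + r1 * (-a) + r2 * (a + b) + r3 * (-a) ^ 2 + r4 * ((-a) * (a + b)) +
      r5 * ((-a) ^ 2 * (a + b)) := by
    conv_lhs => rw [← hsf, hf]
    simp only [map_add, map_mul, map_pow, hs _ h0, hs _ h1, hs _ h2, hs _ h3, hs _ h4,
      hs _ h5, sa, sb]
  have e2 : f = r0 + r1 * (a + b) + r2 * (-b) + r3 * (a + b) ^ 2 + r4 * ((a + b) * (-b)) +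
      r5 * ((a + b) ^ 2 * (-b)) := by
    conv_lhs => rw [← htf, hf]
    simp only [map_add, map_mul, map_pow, ht _ h0, ht _ h1, ht _ h2, ht _ h3, ht _ h4,
      ht _ h5, ta, tb]
  have e3 : f = r0 + r1 * (-a + (a + b)) + r2 * (-(a + b)) + r3 * (-a + (a + b)) ^ 2 +
      r4 * ((-a + (a + b)) * (-(a + b))) + r5 * ((-a + (a + b)) ^ 2 * (-(a + b))) := by
    conv_lhs => rw [← hsf, e2]
    simp only [map_add, map_mul, map_pow, map_neg, hs _ h0, hs _ h1, hs _ h2, hs _ h3, hs _ h4,
      hs _ h5, sa, sb]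
  have e4 : f = r0 + r1 * (-(a + b)) + r2 * (a + b + -b) + r3 * (-(a + b)) ^ 2 +
      r4 * ((-(a + b)) * (a + b + -b)) + r5 * ((-(a + b)) ^ 2 * (a + b + -b)) := by
    conv_lhs => rw [← htf, e1]
    simp only [map_add, map_mul, map_pow, map_neg, ht _ h0, ht _ h1, ht _ h2, ht _ h3, ht _ h4,
      ht _ h5, ta, tb]
  have e5 : f = r0 + r1 * (-(-a + (a + b))) + r2 * (-a + (a + b) + -(a + b)) +
      r3 * (-(-a + (a + b))) ^ 2 +
      r4 * ((-(-a + (a + b))) * (-a + (a + b) + -(a + b))) +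
      r5 * ((-(-a + (a + b))) ^ 2 * (-a + (a + b) + -(a + b))) := by
    conv_lhs => rw [← hsf, e4]
    simp only [map_add, map_mul, map_pow, map_neg, hs _ h0, hs _ h1, hs _ h2, hs _ h3, hs _ h4,
      hs _ h5, sa, sb]
  have e6 : 6 * f = 6 * r0 + 4 * p * r3 - 2 * p * r4 + q * r5 := by
    rw [hp, hq]
    linear_combination hf + e1 + e2 + e3 + e4 + e5
  have e7 : f = (algebraMap ℂ O (1 / 6)) * (6 * r0 + 4 * p * r3 - 2 * p * r4 + q * r5) := by
    rw [← e6, ← mul_assoc]
    have : algebraMap ℂ O (1 / 6) * 6 = 1 := by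
      have h6 : (6 : O) = algebraMap ℂ O 6 := (map_ofNat _ _).symm
      rw [h6, ← map_mul]
      norm_num
    rw [this, one_mul]
  rw [e7]
  refine mul_mem (Subalgebra.algebraMap_mem _ _) (add_mem (sub_mem (add_mem
    (mul_mem (ofNat_mem _ _) h0) (mul_mem (mul_mem (ofNat_mem _ _) hpR) h3))
    (mul_mem (mul_mem (ofNat_mem _ _) hpR) h4)) (mul_mem hqR h5))

/-- invariants, `A₁ × A₁` -/
theorem inv1 {R : Subalgebra ℂ O} {a b : O} (s t : O →ₐ[ℂ] O)
    (hs : ∀ r ∈ R, s r = r) (ht : ∀ r ∈ R, t r = r)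
    (sa : s a = -a) (sb : s b = b) (ta : t a = a) (tb : t b = -b) {f : O}
    (hf : NF1 R a b f) (hsf : s f = f) (htf : t f = f) : f ∈ R := by
  obtain ⟨r0, r1, r2, r3, h0, h1, h2, h3, hf⟩ := hf
  have e1 : f = r0 + r1 * (-a) + r2 * b + r3 * ((-a) * b) := by
    conv_lhs => rw [← hsf, hf]
    simp only [map_add, map_mul, hs _ h0, hs _ h1, hs _ h2, hs _ h3, sa, sb]
  have e2 : f = r0 + r1 * a + r2 * (-b) + r3 * (a * (-b)) := by
    conv_lhs => rw [← htf, hf]
    simp only [map_add, map_mul, ht _ h0, ht _ h1, ht _ h2, ht _ h3, ta, tb]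
  have e3 : f = r0 + r1 * (-a) + r2 * (-b) + r3 * ((-a) * (-b)) := by
    conv_lhs => rw [← hsf, e2]
    simp only [map_add, map_mul, map_neg, hs _ h0, hs _ h1, hs _ h2, hs _ h3, sa, sb]
  have e6 : 4 * f = 4 * r0 := by
    linear_combination hf + e1 + e2 + e3
  have e7 : f = r0 := by
    have : algebraMap ℂ O (1 / 4) * 4 = 1 := by
      have h6 : (4 : O) = algebraMap ℂ O 4 := (map_ofNat _ _).symm
      rw [h6, ← map_mul]
      norm_num
    linear_combination (algebraMap ℂ O (1 / 4)) * e6 + (r0 - f) * this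
  rw [e7]
  exact h0

end abstract

section concrete

variable {ι : Type} [Fintype ι] [DecidableEq ι]

theorem act0_sr_X (c : Matrix ι ι ℤ) (i k : ι) :
    act0 (sr c (al i)) (X k) = X k - C ((c k i : ℤ) : ℂ) * X i := by
  rw [act0_X, sr_apply, lin0_sub, lin0_smul, lin0_al, lin0_al, form_al_al]

theorem act0_C (g : (ι → ℤ) →ₗ[ℤ] (ι → ℤ)) (x : ℂ) : act0 g (C x) = C x := by
  simp [act0]

theorem lin0_three (x y z : ℤ) (k i j : ι) :
    lin0 (x • al k - y • al i - z • al j) =
      C ((x : ℤ) : ℂ) * X k - C ((y : ℤ) : ℂ) * X i - C ((z : ℤ) : ℂ) * X j := by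
  rw [lin0_sub, lin0_sub, lin0_smul, lin0_smul, lin0_smul, lin0_al, lin0_al, lin0_al]

/-- the generators are invariant -/
theorem pair_inv {c : Matrix ι ι ℤ} (hc : IsADE c) {i j : ι} (hij : i ≠ j) (k : ι) :
    act0 (sr c (al i)) (pairP c i j k) = pairP c i j k ∧
      act0 (sr c (al j)) (pairP c i j k) = pairP c i j k := by
  have hji : c j i = c i j := hc.symm j i
  have hii := hc.diag i
  have hjj := hc.diag j
  unfold pairP
  rcases hc.off i j hij with h | h
  · rw [if_pos h]
    rw [h] at hji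
    by_cases hki : k = i
    · rw [if_pos hki]
      constructor
      · rw [map_pow, act0_sr_X, hii]
        simp only [Int.cast_ofNat, map_ofNat]
        ring
      · rw [map_pow, act0_sr_X, h]
        simp
    · rw [if_neg hki]
      by_cases hkj : k = j
      · rw [if_pos hkj]
        constructor
        · rw [map_pow, act0_sr_X, hji]
          simp
        · rw [map_pow, act0_sr_X, hjj]
          simp only [Int.cast_ofNat, map_ofNat]
          ring
      · rw [if_neg hkj, lin0_three]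
        constructor
        · simp only [map_sub, map_mul, act0_C, act0_sr_X, hii, hji]
          simp only [Int.cast_ofNat, map_ofNat, Int.cast_zero, map_zero]
          ring
        · simp only [map_sub, map_mul, act0_C, act0_sr_X, hjj, h]
          simp only [Int.cast_ofNat, map_ofNat, Int.cast_zero, map_zero]
          ring
  · rw [if_neg (by rw [h]; decide)]
    rw [h] at hji
    by_cases hki : k = i
    · rw [if_pos hki]
      constructor
      · simp only [map_add, map_mul, map_pow, act0_sr_X, hii, hji]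
        simp only [Int.cast_ofNat, map_ofNat, Int.cast_neg, Int.cast_one, map_neg, map_one]
        ring
      · simp only [map_add, map_mul, map_pow, act0_sr_X, hjj, h]
        simp only [Int.cast_ofNat, map_ofNat, Int.cast_neg, Int.cast_one, map_neg, map_one]
        ring
    · rw [if_neg hki]
      by_cases hkj : k = j
      · rw [if_pos hkj]
        constructor
        · simp only [map_add, map_sub, map_mul, map_ofNat, act0_sr_X, hii, hji]
          simp only [Int.cast_ofNat, map_ofNat, Int.cast_neg, Int.cast_one, map_neg, map_one]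
          ring
        · simp only [map_add, map_sub, map_mul, map_ofNat, act0_sr_X, hjj, h]
          simp only [Int.cast_ofNat, map_ofNat, Int.cast_neg, Int.cast_one, map_neg, map_one]
          ring
      · rw [if_neg hkj, lin0_three]
        constructor
        · simp only [map_sub, map_mul, act0_C, act0_sr_X, hii, hji]
          push_cast
          simp only [map_add, map_mul, map_ofNat, map_neg, map_one]
          ring
        · simp only [map_sub, map_mul, act0_C, act0_sr_X, hjj, h]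
          push_cast
          simp only [map_add, map_mul, map_ofNat, map_neg, map_one]
          ring

theorem adjoin_inv {c : Matrix ι ι ℤ} {P : ι → MvPolynomial ι ℂ} {i : ι}
    (h : ∀ k, act0 (sr c (al i)) (P k) = P k) (r : MvPolynomial ι ℂ)
    (hr : r ∈ Algebra.adjoin ℂ (Set.range P)) : act0 (sr c (al i)) r = r := by
  induction hr using Algebra.adjoin_induction with
  | mem x hx => obtain ⟨k, rfl⟩ := hx; exact h k
  | algebraMap r => rw [AlgHom.commutes]
  | add x y _ _ hx hy => rw [map_add, hx, hy]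
  | mul x y _ _ hx hy => rw [map_mul, hx, hy]

end concrete

theorem main : S_PAIR := by
  intro ι _ _ c hc i j hij f
  set R := Algebra.adjoin ℂ (Set.range (pairP c i j)) with hR
  have hs : ∀ r ∈ R, act0 (sr c (al i)) r = r := adjoin_inv fun k => (pair_inv hc hij k).1
  have ht : ∀ r ∈ R, act0 (sr c (al j)) r = r := adjoin_inv fun k => (pair_inv hc hij k).2
  have hPR : ∀ k, pairP c i j k ∈ R := fun k => Algebra.subset_adjoin ⟨k, rfl⟩
  have hji : c j i = c i j := hc.symm j i
  have hii := hc.diag i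
  have hjj := hc.diag j
  constructor
  · intro hf l hl
    rw [Finset.mem_insert, Finset.mem_singleton] at hl
    rcases hl with rfl | rfl
    · exact hs f hf
    · exact ht f hf
  · intro hf
    have hsf := hf i (by simp)
    have htf := hf j (by simp)
    rcases hc.off i j hij with h | h
    · rw [h] at hji
      have hp : (X i : MvPolynomial ι ℂ) ^ 2 ∈ R := by
        have := hPR i
        simp only [pairP, h, if_true] at this
        exact this
      have hq : (X j : MvPolynomial ι ℂ) ^ 2 ∈ R := by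
        have := hPR j
        simp only [pairP, h, if_true, if_neg hij.symm] at this
        exact this
      have key : ∀ f : MvPolynomial ι ℂ, NF1 R (X i) (X j) f := by
        intro f
        induction f using MvPolynomial.induction_on with
        | C x => exact NF1.of_mem (Subalgebra.algebraMap_mem _ x)
        | add f g hf hg => exact hf.add hg
        | mul_X f k hf =>
          by_cases hki : k = i
          · subst hki; exact hf.mul_a hp
          · by_cases hkj : k = j
            · subst hkj; exact hf.mul_b hq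
            · have h1 := hPR k
              simp only [pairP, h, if_true, if_neg hki, if_neg hkj] at h1
              rw [lin0_three] at h1
              set y := C (((2 : ℤ)) : ℂ) * X k - C ((c k i : ℤ) : ℂ) * X i -
                C ((c k j : ℤ) : ℂ) * (X j : MvPolynomial ι ℂ) with hy
              have h2 : f * X k = C (1 / 2) * (y * f) +
                  (C (1 / 2 * ((c k i : ℤ) : ℂ)) * (f * X i) +
                  C (1 / 2 * ((c k j : ℤ) : ℂ)) * (f * X j)) := by
                have h3 : (C (1 / 2) : MvPolynomial ι ℂ) * C (((2 : ℤ)) : ℂ) = 1 := by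
                  rw [← C_mul]; norm_num
                rw [hy, C_mul, C_mul]
                linear_combination (-(f * X k)) * h3
              rw [h2]
              exact (((hf.smul h1).smul (Subalgebra.algebraMap_mem _ (1 / 2)))).add
                (((hf.mul_a hp).smul (Subalgebra.algebraMap_mem _ _)).add
                ((hf.mul_b hq).smul (Subalgebra.algebraMap_mem _ _)))
      refine inv1 (act0 (sr c (al i))) (act0 (sr c (al j))) hs ht ?_ ?_ ?_ ?_ (key f) hsf htf
      · rw [act0_sr_X, hii]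
        simp only [Int.cast_ofNat, map_ofNat]
        ring
      · rw [act0_sr_X, hji]; simp
      · rw [act0_sr_X, h]; simp
      · rw [act0_sr_X, hjj]
        simp only [Int.cast_ofNat, map_ofNat]
        ring
    · rw [h] at hji
      have hn : ¬ c i j = 0 := by rw [h]; decide
      have hp : (X i ^ 2 + X i * X j + X j ^ 2 : MvPolynomial ι ℂ) ∈ R := by
        have := hPR i
        simp only [pairP, if_neg hn, if_true] at this
        exact this
      have hq : ((2 * X i + X j) * (X i - X j) * (X i + 2 * X j) : MvPolynomial ι ℂ) ∈ R := by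
        have := hPR j
        simp only [pairP, if_neg hn, if_true, if_neg hij.symm] at this
        exact this
      have h3 : (3 : MvPolynomial ι ℂ) * C (1 / 3) = 1 := by
        have : (3 : MvPolynomial ι ℂ) = C 3 := (map_ofNat C 3).symm
        rw [this, ← C_mul]; norm_num
      have hκ : (C (1 / 3) : MvPolynomial ι ℂ) ∈ R := Subalgebra.algebraMap_mem _ _
      have key : ∀ f : MvPolynomial ι ℂ, NF2 R (X i) (X j) f := by
        intro f
        induction f using MvPolynomial.induction_on with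
        | C x => exact NF2.of_mem (Subalgebra.algebraMap_mem _ x)
        | add f g hf hg => exact hf.add hg
        | mul_X f k hf =>
          have hfa := hf.mul_a h3 hκ rfl rfl hp hq
          have hfb := hf.mul_b h3 hκ rfl rfl hp hq
          by_cases hki : k = i
          · subst hki; exact hfa
          · by_cases hkj : k = j
            · subst hkj; exact hfb
            · have h1 := hPR k
              simp only [pairP, if_neg hn, if_neg hki, if_neg hkj] at h1
              rw [lin0_three] at h1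
              set y := C (((3 : ℤ)) : ℂ) * X k - C ((2 * c k i + c k j : ℤ) : ℂ) * X i -
                C ((c k i + 2 * c k j : ℤ) : ℂ) * (X j : MvPolynomial ι ℂ) with hy
              have h2 : f * X k = C (1 / 3) * (y * f) +
                  (C (1 / 3 * ((2 * c k i + c k j : ℤ) : ℂ)) * (f * X i) +
                  C (1 / 3 * ((c k i + 2 * c k j : ℤ) : ℂ)) * (f * X j)) := by
                have h3 : (C (1 / 3) : MvPolynomial ι ℂ) * C (((3 : ℤ)) : ℂ) = 1 := by
                  rw [← C_mul]; norm_num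
                rw [hy, C_mul, C_mul]
                linear_combination (-(f * X k)) * h3
              rw [h2]
              exact (((hf.smul h1).smul (Subalgebra.algebraMap_mem _ (1 / 3)))).add
                ((hfa.smul (Subalgebra.algebraMap_mem _ _)).add
                (hfb.smul (Subalgebra.algebraMap_mem _ _)))
      refine inv2 (act0 (sr c (al i))) (act0 (sr c (al j))) rfl rfl hp hq hs ht ?_ ?_ ?_ ?_
        (key f) hsf htf
      · rw [act0_sr_X, hii]
        simp only [Int.cast_ofNat, map_ofNat]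
        ring
      · rw [act0_sr_X, hji]
        simp only [Int.cast_neg, Int.cast_one, map_neg, map_one]
        ring
      · rw [act0_sr_X, h]
        simp only [Int.cast_neg, Int.cast_one, map_neg, map_one]
        ring
      · rw [act0_sr_X, hjj]
        simp only [Int.cast_ofNat, map_ofNat]
        ring

end Pool.Agent.H391.SK.P_PAIR
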