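import Pool.Agent.H391.SK.StD

/-!
# Project SK (helper391), task QP. helper551.
-/

set_option linter.unusedSectionVars false

namespace Pool.Agent.H391.SK.P_QP

open MvPolynomial

variable {ι : Type} [Fintype ι] [DecidableEq ι]

/-- `a_0^{2n+1} a_{n+1}` lies in `B`. -/
theorem odd_mem (c : Matrix ι ι ℤ) (β : ι → ℤ) (n : ℕ) :
    lin β 0 ^ (2 * n + 1) * lin β (n + 1) ∈ B c β := by
  induction n using Nat.strong_induction_on with
  | _ n ih =>
    have h2 : (C (1 / 2 : ℂ) : Fk ι ℂ) * 2 = 1 := by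
      have : (2 : Fk ι ℂ) = C 2 := (map_ofNat C 2).symm
      rw [this, ← C_mul]
      norm_num
    have hs := Subalgebra.mul_mem (B c β) (Subalgebra.pow_mem _ (sq_mem_B c β 0) n)
      (sq_mem_B c β (n + 1))
    have h0 : D 0 (lin β 0 ^ 2) = lin β 0 ^ 2 := D_zero_idx _
    rw [h0, D_sq] at hs
    have hCh : ∀ x ∈ B c β, C (1 / 2 : ℂ) * x ∈ B c β := by
      intro x hx
      rw [← smul_eq_C_mul]
      exact Subalgebra.smul_mem _ hx _
    cases n with
    | zero =>
      have e : Finset.HasAntidiagonal.antidiagonal (0 + 1) = {((0 : ℕ), (1 : ℕ)), (1, 0)} := by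
        decide
      rw [e, Finset.sum_pair (by decide)] at hs
      have := hCh _ hs
      have e2 : C (1 / 2 : ℂ) * ((lin β 0 ^ 2) ^ 0 * (lin β 0 * lin β 1 + lin β 1 * lin β 0)) =
          lin β 0 ^ (2 * 0 + 1) * lin β (0 + 1) := by
        linear_combination (lin β 0 * lin β 1) * h2
      rwa [e2] at this
    | succ m =>
      have e : Finset.HasAntidiagonal.antidiagonal (m + 1 + 1) =
        Finset.cons (0, m + 2) (Finset.cons (m + 2, 0)
          ((Finset.HasAntidiagonal.antidiagonal m).map ((Function.Embedding.prodMap ⟨Nat.succ, Nat.succ_injective⟩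
            ⟨Nat.succ, Nat.succ_injective⟩))) (by simp)) (by simp) := by
        exact Finset.Nat.antidiagonal_succ_succ'
      rw [e, Finset.sum_cons, Finset.sum_cons, Finset.sum_map] at hs
      have h3 : ∑ p ∈ Finset.HasAntidiagonal.antidiagonal m,
          (lin β 0 ^ (2 * p.1 + 1) * lin β (p.1 + 1)) * (lin β 0 ^ (2 * p.2 + 1) *
            lin β (p.2 + 1)) ∈ B c β := by
        refine Subalgebra.sum_mem _ fun p hp => ?_
        have := Finset.HasAntidiagonal.mem_antidiagonal.1 hp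
        exact Subalgebra.mul_mem _ (ih p.1 (by omega)) (ih p.2 (by omega))
      have h4 : ∑ p ∈ Finset.HasAntidiagonal.antidiagonal m,
          (lin β 0 ^ (2 * p.1 + 1) * lin β (p.1 + 1)) * (lin β 0 ^ (2 * p.2 + 1) *
            lin β (p.2 + 1)) = (lin β 0 ^ 2) ^ (m + 1) *
          ∑ p ∈ Finset.HasAntidiagonal.antidiagonal m, lin β (p.1 + 1) * lin β (p.2 + 1) := by
        rw [Finset.mul_sum]
        refine Finset.sum_congr rfl fun p hp => ?_
        rw [← Finset.HasAntidiagonal.mem_antidiagonal.1 hp]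
        ring
      have h5 := hCh _ (Subalgebra.sub_mem _ hs h3)
      have e2 : C (1 / 2 : ℂ) * ((lin β 0 ^ 2) ^ (m + 1) * (lin β 0 * lin β (m + 2) +
          (lin β (m + 2) * lin β 0 + ∑ p ∈ Finset.HasAntidiagonal.antidiagonal m,
            lin β (p.1 + 1) * lin β (p.2 + 1))) -
          ∑ p ∈ Finset.HasAntidiagonal.antidiagonal m,
          (lin β 0 ^ (2 * p.1 + 1) * lin β (p.1 + 1)) * (lin β 0 ^ (2 * p.2 + 1) *
            lin β (p.2 + 1))) = lin β 0 ^ (2 * (m + 1) + 1) * lin β (m + 1 + 1) := by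
        rw [h4]
        linear_combination ((lin β 0 ^ 2) ^ (m + 1) * (lin β 0 * lin β (m + 2))) * h2
      rw [← e2]
      exact h5

/-- `B + a_0 B` -/
def P (c : Matrix ι ι ℤ) (β : ι → ℤ) (f : Fk ι ℂ) : Prop :=
  ∃ b ∈ B c β, ∃ b' ∈ B c β, f = b + lin β 0 * b'

theorem P_of {c : Matrix ι ι ℤ} {β : ι → ℤ} {f : Fk ι ℂ} (h : f ∈ B c β) : P c β f :=
  ⟨f, h, 0, Subalgebra.zero_mem _, by simp⟩

theorem P_add {c : Matrix ι ι ℤ} {β : ι → ℤ} {f g : Fk ι ℂ} (h : P c β f) (h' : P c β g) :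
    P c β (f + g) := by
  obtain ⟨b, hb, b', hb', rfl⟩ := h
  obtain ⟨d, hd, d', hd', rfl⟩ := h'
  exact ⟨b + d, Subalgebra.add_mem _ hb hd, b' + d', Subalgebra.add_mem _ hb' hd', by ring⟩

theorem P_mul {c : Matrix ι ι ℤ} {β : ι → ℤ} {f g : Fk ι ℂ} (h : P c β f) (h' : P c β g) :
    P c β (f * g) := by
  obtain ⟨b, hb, b', hb', rfl⟩ := h
  obtain ⟨d, hd, d', hd', rfl⟩ := h'
  have h0 : lin β 0 ^ 2 ∈ B c β := by
    have := sq_mem_B c β 0
    rwa [D_zero_idx] at this
  refine ⟨b * d + lin β 0 ^ 2 * (b' * d'), ?_, b * d' + b' * d, ?_, by ring⟩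
  · exact Subalgebra.add_mem _ (Subalgebra.mul_mem _ hb hd)
      (Subalgebra.mul_mem _ h0 (Subalgebra.mul_mem _ hb' hd'))
  · exact Subalgebra.add_mem _ (Subalgebra.mul_mem _ hb hd') (Subalgebra.mul_mem _ hb' hd)

theorem P_C_mul {c : Matrix ι ι ℤ} {β : ι → ℤ} (r : ℂ) {f : Fk ι ℂ} (h : P c β f) :
    P c β (C r * f) :=
  P_mul (P_of (Subalgebra.algebraMap_mem (B c β) r)) h

theorem P_one (c : Matrix ι ι ℤ) (β : ι → ℤ) : P c β 1 := P_of (Subalgebra.one_mem _)

theorem P_pow {c : Matrix ι ι ℤ} {β : ι → ℤ} {f : Fk ι ℂ} (h : P c β f) (n : ℕ) :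
    P c β (f ^ n) := by
  induction n with
  | zero => rw [pow_zero]; exact P_one c β
  | succ n ih => rw [pow_succ]; exact P_mul ih h

theorem P_sum {c : Matrix ι ι ℤ} {β : ι → ℤ} {κ : Type} (s : Finset κ) (f : κ → Fk ι ℂ)
    (h : ∀ i ∈ s, P c β (f i)) : P c β (∑ i ∈ s, f i) := by
  classical
  induction s using Finset.induction_on with
  | empty => rw [Finset.sum_empty]; exact P_of (Subalgebra.zero_mem _)
  | insert a s ha ih =>
    rw [Finset.sum_insert ha]
    exact P_add (h a (by simp)) (ih fun i hi => h i (by simp [hi]))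

theorem P_lin0 (c : Matrix ι ι ℤ) (β : ι → ℤ) : P c β (lin β 0) :=
  ⟨0, Subalgebra.zero_mem _, 1, Subalgebra.one_mem _, by ring⟩

theorem P_lin (c : Matrix ι ι ℤ) (β : ι → ℤ) (n : ℕ) : P c β (lin β 0 ^ (2 * n) * lin β n) := by
  cases n with
  | zero => simpa using P_lin0 c β
  | succ n =>
    refine ⟨0, Subalgebra.zero_mem _, _, odd_mem c β n, ?_⟩
    ring

theorem P_X {c : Matrix ι ι ℤ} (hc : IsADE c) (k j : ι) (n : ℕ) :
    P c (al k) (lin (al k) 0 ^ (2 * n) * X (j, n)) := by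
  have hf : form c ((2 : ℤ) • al j - c j k • al k) (al k) = 0 := by
    rw [form_sub_left, form_smul_left, form_smul_left, form_al_al, form_al_al, hc.diag]
    ring
  have hy := lin_mem_B hf n
  have e : (X (j, n) : Fk ι ℂ) = C (1 / 2 : ℂ) * (lin ((2 : ℤ) • al j - c j k • al k) n +
      C ((c j k : ℤ) : ℂ) * lin (al k) n) := by
    rw [lin_sub, lin_smul, lin_smul, lin_al, lin_al]
    have h2 : (C (1 / 2 : ℂ) : Fk ι ℂ) * C ((2 : ℤ) : ℂ) = 1 := by
      rw [← C_mul]
      norm_num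
    linear_combination (-(X (j, n) : Fk ι ℂ)) * h2
  have h0 : P c (al k) (lin (al k) 0 ^ (2 * n)) := P_pow (P_lin0 c _) _
  have e3 : lin (al k) 0 ^ (2 * n) * X (j, n) = C (1 / 2 : ℂ) *
      (lin (al k) 0 ^ (2 * n) * lin ((2 : ℤ) • al j - c j k • al k) n +
      C ((c j k : ℤ) : ℂ) * (lin (al k) 0 ^ (2 * n) * lin (al k) n)) := by
    conv_lhs => rw [e]
    ring
  rw [e3]
  exact P_C_mul _ (P_add (P_mul h0 (P_of hy)) (P_C_mul _ (P_lin c (al k) n)))

theorem P_mono {c : Matrix ι ι ℤ} (hc : IsADE c) (k : ι) (m : (ι × ℕ) →₀ ℕ) :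
    P c (al k) (lin (al k) 0 ^ (2 * jwt m) * monomial m 1) := by
  induction m using Finsupp.induction with
  | zero =>
    have : jwt (0 : (ι × ℕ) →₀ ℕ) = 0 := by simp [jwt]
    rw [this, mul_zero, pow_zero, one_mul]
    exact P_one c _
  | single_add p e m hp he ih =>
    have h1 : monomial (Finsupp.single p e + m) (1 : ℂ) = X p ^ e * monomial m 1 := by
      rw [X_pow_eq_monomial, monomial_mul, one_mul]
    rw [h1, jwt_add, jwt_single]
    have h2 : lin (al k) 0 ^ (2 * (e * p.2 + jwt m)) * (X p ^ e * monomial m (1 : ℂ)) =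
        (lin (al k) 0 ^ (2 * p.2) * X p) ^ e * (lin (al k) 0 ^ (2 * jwt m) * monomial m 1) := by
      rw [mul_pow, ← pow_mul]
      ring
    rw [h2]
    obtain ⟨j, n⟩ := p
    exact P_mul (P_pow (P_X hc k j n) e) ih

theorem P_all {c : Matrix ι ι ℤ} (hc : IsADE c) (k : ι) {N : ℕ} {q : Fk ι ℂ} (hq : JW N q) :
    P c (al k) (lin (al k) 0 ^ (2 * N) * q) := by
  rw [q.as_sum, Finset.mul_sum]
  refine P_sum _ _ fun m hm => ?_
  have hm' : jwt m ≤ N := hq m hm
  have h1 : lin (al k) 0 ^ (2 * N) * monomial m (coeff m q) =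
      C (coeff m q) * (lin (al k) 0 ^ (2 * (N - jwt m)) *
        (lin (al k) 0 ^ (2 * jwt m) * monomial m 1)) := by
    have e1 : monomial m (coeff m q) = C (coeff m q) * monomial m 1 := by
      rw [C_mul_monomial, mul_one]
    have e2 : 2 * N = 2 * (N - jwt m) + 2 * jwt m := by omega
    rw [e1, e2, pow_add]
    have e3 : 2 * (N - jwt m) + 2 * jwt m - 2 * jwt m = 2 * (N - jwt m) := by omega
    ring
  rw [h1]
  exact P_C_mul _ (P_mul (P_pow (P_lin0 c _) _) (P_mono hc k m))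

theorem main : S_QP := by
  intro ι _ _ c hc k N q hq hN
  obtain ⟨b, hb, b', hb', he⟩ := P_all hc k hN
  have h1 := B_inv (hc.form_al k) hb
  have h2 := B_inv (hc.form_al k) hb'
  have ha : act (sr c (al k)) (lin (al k) 0) = -lin (al k) 0 := by
    rw [act_lin, sr_apply, hc.form_al, ← lin_neg]
    congr 1
    rw [two_smul]
    abel
  have h3 := congrArg (act (sr c (al k))) he
  rw [map_mul, map_pow, ha, hq, map_add, map_mul, h1, h2, ha] at h3
  have h4 : (-lin (al k) 0) ^ (2 * N) = lin (al k) 0 ^ (2 * N) := by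
    rw [pow_mul, neg_sq, ← pow_mul]
  rw [h4, he] at h3
  have h5 : (2 : Fk ι ℂ) * (lin (al k) 0 * b') = 0 := by linear_combination h3
  have h6 : lin (al k) 0 * b' = 0 := (mul_eq_zero.1 h5).resolve_left two_ne_zero
  rw [he, h6, add_zero]
  exact hb

end Pool.Agent.H391.SK.P_QP
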