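import Pool.Agent.H391.SK.StB
import Pool.Agent.H391.SK.Basic2

/-!
# Transfer of the rank one result to several variables
-/

set_option linter.unusedSectionVars false

namespace Pool.Agent.H391.SK.P_R1

open MvPolynomial Pool.Agent.H391.SK

variable {ι : Type} [Fintype ι] [DecidableEq ι]

theorem hs_map {R S : Type} [CommRing R] [Algebra ℂ R] [CommRing S] [Algebra ℂ S]
    (g : R →ₐ[ℂ] S) (x : ℕ → R) (m : ℕ) : g (hs x m) = hs (fun n => g (x n)) m := by
  induction m using Nat.strong_induction_on with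
  | _ m ih =>
    cases m with
    | zero => simp [hs]
    | succ m =>
      rw [hs, hs, map_smul, map_sum]
      congr 1
      refine Finset.sum_congr rfl fun k _ => ?_
      rw [map_mul, ih _ (by omega)]

theorem hz_map {R S : Type} [CommRing R] [Algebra ℂ R] [CommRing S] [Algebra ℂ S]
    (g : R →ₐ[ℂ] S) (x : ℕ → R) (m : ℤ) : g (hz x m) = hz (fun n => g (x n)) m := by
  unfold hz
  split_ifs
  · exact hs_map g x _
  · exact map_zero g

/-- the variables of the other nodes -/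
abbrev Oth (i : ι) : Type := {s : ι × ℕ // s.1 ≠ i}

/-- the polynomials in the variables of the node `i`, with the other variables as parameters -/
abbrev Rg (i : ι) : Type := MvPolynomial (Oth i) (Lm ℂ)

/-- the change of variables -/
noncomputable def Th (c : Matrix ι ι ℤ) (i : ι) : Fk ι ℂ →ₐ[ℂ] Rg i :=
  aeval fun s => if h : s.1 = i then C (X s.2) else
    X ⟨s, h⟩ + C (C (((c i s.1 : ℤ) : ℂ) / 2) * X s.2)

/-- its inverse -/
noncomputable def Xi (c : Matrix ι ι ℤ) (i : ι) : Rg i →+* Fk ι ℂ :=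
  eval₂Hom (rename (fun n : ℕ => (i, n)) : Lm ℂ →ₐ[ℂ] Fk ι ℂ).toRingHom
    (fun s => X s.1 - C (((c i s.1.1 : ℤ) : ℂ) / 2) * X (i, s.1.2))

theorem Th_C (c : Matrix ι ι ℤ) (i : ι) (a : ℂ) : Th c i (C a) = C (C a) := by
  rw [Th, aeval_C]
  rfl

theorem Th_i (c : Matrix ι ι ℤ) (i : ι) (n : ℕ) : Th c i (X (i, n)) = C (X n) := by
  rw [Th, aeval_X]
  simp

theorem Th_o (c : Matrix ι ι ℤ) (i : ι) (s : ι × ℕ) (h : s.1 ≠ i) :
    Th c i (X s) = X ⟨s, h⟩ + C (C (((c i s.1 : ℤ) : ℂ) / 2) * X s.2) := by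
  rw [Th, aeval_X, dif_neg h]

theorem Xi_C (c : Matrix ι ι ℤ) (i : ι) (a : Lm ℂ) :
    Xi c i (C a) = rename (fun n : ℕ => (i, n)) a := by
  rw [Xi, coe_eval₂Hom, eval₂_C]
  rfl

theorem Xi_X (c : Matrix ι ι ℤ) (i : ι) (s : Oth i) :
    Xi c i (X s) = X s.1 - C (((c i s.1.1 : ℤ) : ℂ) / 2) * X (i, s.1.2) := by
  rw [Xi, coe_eval₂Hom, eval₂_X]

theorem Xi_Th (c : Matrix ι ι ℤ) (i : ι) (f : Fk ι ℂ) : Xi c i (Th c i f) = f := by
  induction f using MvPolynomial.induction_on with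
  | C a => rw [Th_C, Xi_C, rename_C]
  | add p q hp hq => rw [map_add, map_add, hp, hq]
  | mul_X p s hp =>
    have key : Xi c i (Th c i (X s)) = X s := by
      by_cases h : s.1 = i
      · obtain ⟨k, n⟩ := s
        simp only at h
        subst h
        rw [Th_i, Xi_C, rename_X]
      · rw [Th_o c i s h, map_add, Xi_X, Xi_C, map_mul, rename_C, rename_X, sub_add_cancel]
    rw [map_mul, map_mul, hp, key]

/-- the substitution on the coefficients -/
noncomputable def Zh (i : ι) (ν : ℂ) : Rg i →+* Polynomial (Rg i) :=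
  eval₂Hom ((Polynomial.mapRingHom (C : Lm ℂ →+* Rg i)).comp (shA ν : Lm ℂ →ₐ[ℂ] _).toRingHom)
    (fun s => Polynomial.C (X s))

theorem Zh_C (i : ι) (ν : ℂ) (a : Lm ℂ) : Zh i ν (C a) = Polynomial.map C (shA ν a) := by
  rw [Zh, coe_eval₂Hom, eval₂_C]
  rfl

theorem Zh_X (i : ι) (ν : ℂ) (s : Oth i) : Zh i ν (X s) = Polynomial.C (X s) := by
  rw [Zh, coe_eval₂Hom, eval₂_X]

theorem Zh_monomial (i : ι) (ν : ℂ) (u : Oth i →₀ ℕ) (a : Lm ℂ) :
    Zh i ν (monomial u a) = Polynomial.map C (shA ν a) * Polynomial.C (monomial u 1) := by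
  have h1 : (monomial u a : Rg i) = C a * monomial u 1 := by
    rw [C_mul_monomial, mul_one]
  rw [h1, map_mul, Zh_C]
  congr 1
  rw [monomial_eq (s := u) (a := (1 : Lm ℂ)), C_1, one_mul, Finsupp.prod, map_prod, map_prod]
  refine Finset.prod_congr rfl fun s _ => ?_
  rw [map_pow, map_pow, Zh_X]

theorem Zh_coeff (i : ι) (ν : ℂ) (h : Rg i) (μ : Oth i →₀ ℕ) (k : ℕ) :
    coeff μ ((Zh i ν h).coeff k) = (shA ν (coeff μ h)).coeff k := by
  classical
  induction h using MvPolynomial.induction_on' with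
  | monomial u a =>
    rw [Zh_monomial, Polynomial.coeff_mul_C, Polynomial.coeff_map, C_mul_monomial, mul_one,
      coeff_monomial, coeff_monomial]
    split_ifs with h
    · rfl
    · rw [map_zero, Polynomial.coeff_zero]
  | add p q hp hq =>
    rw [map_add, Polynomial.coeff_add, coeff_add, hp, hq, coeff_add, map_add, Polynomial.coeff_add]

theorem Zh_Th {c : Matrix ι ι ℤ} {i : ι} (hc : c i i = 2) (ν : ℂ) (f : Fk ι ℂ) :
    Polynomial.map (Th c i : Fk ι ℂ →+* Rg i) (shf c ν i f) = Zh i ν (Th c i f) := by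
  induction f using MvPolynomial.induction_on with
  | C a =>
    rw [Th_C, Zh_C]
    have h1 : shf c ν i (C a) = Polynomial.C (C a) := by
      rw [shf, aeval_C]; rfl
    have h2 : shA ν (C a : Lm ℂ) = Polynomial.C (C a) := by
      rw [shA, aeval_C]; rfl
    rw [h1, h2, Polynomial.map_C, Polynomial.map_C]
    congr 1
    exact Th_C c i a
  | add p q hp hq => rw [map_add, Polynomial.map_add, hp, hq, map_add, map_add]
  | mul_X p s hp =>
    rw [map_mul, Polynomial.map_mul, hp, map_mul, map_mul]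
    congr 1
    have e1 : ∀ n : ℕ, Polynomial.map (C : Lm ℂ →+* Rg i) (shA ν (X n)) =
        Polynomial.C (C (X n)) - Polynomial.C (C (C (2 * ν))) * Polynomial.X ^ (n + 1) := by
      intro n
      rw [shA, aeval_X, Polynomial.map_sub, Polynomial.map_mul, Polynomial.map_pow, Polynomial.map_C,
        Polynomial.map_C, Polynomial.map_X]
    have e2 : Polynomial.map (Th c i : Fk ι ℂ →+* Rg i) (shf c ν i (X s)) =
        Polynomial.C (Th c i (X s)) -
          Polynomial.C (C (C (ν * ((c i s.1 : ℤ) : ℂ)))) * Polynomial.X ^ (s.2 + 1) := by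
      have h5 : ∀ x, (Th c i : Fk ι ℂ →+* Rg i) x = Th c i x := fun _ => rfl
      rw [shf, aeval_X, Polynomial.map_sub, Polynomial.map_mul, Polynomial.map_pow, Polynomial.map_C,
        Polynomial.map_C, Polynomial.map_X, h5, h5, Th_C]
    rw [e2]
    by_cases h : s.1 = i
    · obtain ⟨k, n⟩ := s
      simp only at h
      subst h
      have h6 : ν * ((2 : ℤ) : ℂ) = 2 * ν := by push_cast; ring
      rw [Th_i, Zh_C, e1, hc, h6]
    · have h3 : shA ν (C (((c i s.1 : ℤ) : ℂ) / 2) : Lm ℂ) =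
          Polynomial.C (C (((c i s.1 : ℤ) : ℂ) / 2)) := by
        rw [shA, aeval_C]; rfl
      have h7 : shA ν (C (((c i s.1 : ℤ) : ℂ) / 2) * X s.2 : Lm ℂ) =
          shA ν (C (((c i s.1 : ℤ) : ℂ) / 2) : Lm ℂ) * shA ν (X s.2) := map_mul _ _ _
      rw [Th_o c i s h, map_add, map_add, Zh_X, Zh_C, h7, Polynomial.map_mul, e1]
      have h4 : (C (C (ν * ((c i s.1 : ℤ) : ℂ))) : Rg i) =
          C (C (((c i s.1 : ℤ) : ℂ) / 2)) * C (C (2 * ν)) := by
        rw [← map_mul, ← map_mul]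
        congr 2
        ring
      rw [h3, Polynomial.map_C, h4]
      simp only [map_mul]
      ring

theorem scr_coeff {c : Matrix ι ι ℤ} {i : ι} (hc : c i i = 2) (ν : ℂ) (f : Fk ι ℂ)
    (μ : Oth i →₀ ℕ) : coeff μ (Th c i (Scr c ν i f)) = S1 ν (-1) (coeff μ (Th c i f)) := by
  set N := max (shf c ν i f).natDegree (shA ν (coeff μ (Th c i f))).natDegree + 1 with hN
  have h1 : Scr c ν i f = ∑ k ∈ Finset.range N,
      hz (fun n => (X (i, n) : Fk ι ℂ)) ((k : ℤ) + -1) * (shf c ν i f).coeff k := by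
    rw [Scr, Sj, LinearMap.comp_apply, Polynomial.lsum_apply]
    rw [Polynomial.sum_over_range' _ _ N]
    · rfl
    · exact lt_of_le_of_lt (le_max_left _ _) (Nat.lt_succ_self _)
    · intro n; exact map_zero _
  have h2 : S1 ν (-1) (coeff μ (Th c i f)) = ∑ k ∈ Finset.range N,
      hz (X : ℕ → Lm ℂ) ((k : ℤ) + -1) * (shA ν (coeff μ (Th c i f))).coeff k := by
    rw [S1, LinearMap.comp_apply, Polynomial.lsum_apply]
    rw [Polynomial.sum_over_range' _ _ N]
    · rfl
    · exact lt_of_le_of_lt (le_max_right _ _) (Nat.lt_succ_self _)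
    · intro n; exact map_zero _
  rw [h1, h2, map_sum, coeff_sum]
  refine Finset.sum_congr rfl fun k _ => ?_
  have h3 : Th c i (hz (fun n => (X (i, n) : Fk ι ℂ)) ((k : ℤ) + -1)) =
      C (hz (X : ℕ → Lm ℂ) ((k : ℤ) + -1)) := by
    rw [hz_map]
    simp only [Th_i]
    exact (hz_map (IsScalarTower.toAlgHom ℂ (Lm ℂ) (Rg i)) (X : ℕ → Lm ℂ) _).symm
  rw [map_mul, h3, coeff_C_mul, ← Zh_coeff, ← Zh_Th hc, Polynomial.coeff_map]
  rfl

/-! ### The degrees -/

/-- the total degree is at most `d` -/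
def Q {i : ι} (d : ℕ) (h : Rg i) : Prop := ∀ μ m, coeff m (coeff μ h) ≠ 0 → m.degree + μ.degree ≤ d

theorem Q_mono {i : ι} {d e : ℕ} (h : d ≤ e) {x : Rg i} (hx : Q d x) : Q e x :=
  fun μ m hm => (hx μ m hm).trans h

theorem Q_add {i : ι} {d : ℕ} {x y : Rg i} (hx : Q d x) (hy : Q d y) : Q d (x + y) := by
  intro μ m hm
  rw [coeff_add, coeff_add] at hm
  by_cases h : coeff m (coeff μ x) = 0
  · rw [h, zero_add] at hm
    exact hy μ m hm
  · exact hx μ m h

theorem Q_sum {i : ι} {d : ℕ} {κ : Type} (s : Finset κ) (g : κ → Rg i) (h : ∀ a ∈ s, Q d (g a)) :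
    Q d (∑ a ∈ s, g a) := by
  classical
  intro μ m hm
  rw [coeff_sum, coeff_sum] at hm
  obtain ⟨a, ha, hne⟩ := Finset.exists_ne_zero_of_sum_ne_zero hm
  exact h a ha μ m hne

theorem Q_mul {i : ι} {d e : ℕ} {x y : Rg i} (hx : Q d x) (hy : Q e y) : Q (d + e) (x * y) := by
  classical
  intro μ m hm
  rw [coeff_mul, coeff_sum] at hm
  obtain ⟨⟨μ1, μ2⟩, hμ, h1⟩ := Finset.exists_ne_zero_of_sum_ne_zero hm
  rw [coeff_mul] at h1
  obtain ⟨⟨m1, m2⟩, hm', h2⟩ := Finset.exists_ne_zero_of_sum_ne_zero h1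
  rw [Finset.HasAntidiagonal.mem_antidiagonal] at hμ hm'
  simp only at hμ hm' h2
  have h3 := hx μ1 m1 (left_ne_zero_of_mul h2)
  have h4 := hy μ2 m2 (right_ne_zero_of_mul h2)
  rw [← hμ, ← hm', map_add, map_add]
  omega

theorem Q_CC {i : ι} (a : ℂ) : Q 0 (C (C a) : Rg i) := by
  classical
  intro μ m hm
  rw [coeff_C] at hm
  split_ifs at hm with h
  · rw [coeff_C] at hm
    split_ifs at hm with h'
    · rw [← h, ← h', map_zero, map_zero]
      omega
    · exact absurd rfl hm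
  · rw [coeff_zero] at hm
    exact absurd rfl hm

theorem Q_CX {i : ι} (n : ℕ) : Q 1 (C (X n) : Rg i) := by
  classical
  intro μ m hm
  rw [coeff_C] at hm
  split_ifs at hm with h
  · rw [coeff_X] at hm
    split_ifs at hm with h'
    · rw [← h, ← h', map_zero, Finsupp.degree_single]
      try omega
    · exact absurd rfl hm
  · rw [coeff_zero] at hm
    exact absurd rfl hm

theorem Q_X {i : ι} (s : Oth i) : Q 1 (X s : Rg i) := by
  classical
  intro μ m hm
  rw [coeff_X] at hm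
  split_ifs at hm with h
  · rw [coeff_one] at hm
    split_ifs at hm with h'
    · rw [← h, ← h', map_zero, Finsupp.degree_single]
      try omega
    · exact absurd rfl hm
  · rw [coeff_zero] at hm
    exact absurd rfl hm

theorem Q_Th_X (c : Matrix ι ι ℤ) (i : ι) (s : ι × ℕ) : Q 1 (Th c i (X s)) := by
  by_cases h : s.1 = i
  · obtain ⟨k, n⟩ := s
    simp only at h
    subst h
    rw [Th_i]
    exact Q_CX n
  · rw [Th_o c i s h, map_mul]
    refine Q_add (Q_X _) ?_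
    have := Q_mul (Q_CC (i := i) (((c i s.1 : ℤ) : ℂ) / 2)) (Q_CX s.2)
    rwa [zero_add] at this

theorem Q_pow {i : ι} {x : Rg i} (hx : Q 1 x) (k : ℕ) : Q k (x ^ k) := by
  induction k with
  | zero =>
    rw [pow_zero]
    have := Q_CC (i := i) 1
    rwa [C_1, C_1] at this
  | succ k ih => rw [pow_succ]; exact Q_mul ih hx

theorem Q_prod {i : ι} {κ : Type} (s : Finset κ) (e : κ → ℕ) (g : κ → Rg i)
    (h : ∀ a ∈ s, Q (e a) (g a)) : Q (∑ a ∈ s, e a) (∏ a ∈ s, g a) := by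
  classical
  induction s using Finset.induction_on with
  | empty =>
    rw [Finset.sum_empty, Finset.prod_empty]
    have := Q_CC (i := i) 1
    rwa [C_1, C_1] at this
  | insert a s ha ih =>
    rw [Finset.sum_insert ha, Finset.prod_insert ha]
    exact Q_mul (h a (Finset.mem_insert_self _ _))
      (ih fun b hb => h b (Finset.mem_insert_of_mem hb))

theorem Q_Th (c : Matrix ι ι ℤ) (i : ι) {d : ℕ} {f : Fk ι ℂ} (hf : f.totalDegree ≤ d) :
    Q d (Th c i f) := by
  classical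
  rw [f.as_sum, map_sum]
  refine Q_sum _ _ fun m hm => ?_
  have h1 : (monomial m (coeff m f) : Fk ι ℂ) =
      C (coeff m f) * ∏ s ∈ m.support, X s ^ m s := by
    rw [monomial_eq]
    rfl
  rw [h1, map_mul, Th_C, map_prod]
  have h2 : Q (∑ s ∈ m.support, m s) (∏ s ∈ m.support, Th c i (X s ^ m s)) := by
    refine Q_prod _ _ _ fun s _ => ?_
    rw [map_pow]
    exact Q_pow (Q_Th_X c i s) _
  have h3 := Q_mul (Q_CC (i := i) (coeff m f)) h2
  refine Q_mono ?_ h3
  rw [zero_add]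
  exact (le_totalDegree hm).trans hf

theorem deg_coeff (c : Matrix ι ι ℤ) (i : ι) {d : ℕ} {f : Fk ι ℂ} (hf : f.totalDegree ≤ d)
    (μ : Oth i →₀ ℕ) {e : ℕ} (he : e + μ.degree = d) : (coeff μ (Th c i f)).totalDegree ≤ e := by
  refine Finset.sup_le fun m hm => ?_
  have h1 := Q_Th c i hf μ m (mem_support_iff.1 hm)
  have h2 : m.sum (fun _ e => e) = m.degree := rfl
  rw [h2]
  omega

/-! ### Membership in the algebra `B` -/

theorem ren_yy (i : ι) (n : ℕ) :
    rename (fun n : ℕ => (i, n)) (yy n) = D n (lin (al i) 0 ^ 2) := by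
  rw [D_sq, yy, map_sum]
  have h1 := Finset.Nat.sum_antidiagonal_eq_sum_range_succ
    (fun a b => lin (al i) a * lin (al i) b) n
  rw [h1]
  refine Finset.sum_congr rfl fun a _ => ?_
  rw [map_mul, rename_X, rename_X, lin_al, lin_al]

theorem ren_mem (c : Matrix ι ι ℤ) (i : ι) {a : Lm ℂ} (ha : a ∈ Algebra.adjoin ℂ (Set.range yy)) :
    rename (fun n : ℕ => (i, n)) a ∈ B c (al i) := by
  have h1 : Algebra.adjoin ℂ (Set.range yy) ≤
      (B c (al i)).comap (rename (fun n : ℕ => (i, n)) : Lm ℂ →ₐ[ℂ] Fk ι ℂ) := by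
    refine Algebra.adjoin_le ?_
    rintro _ ⟨n, rfl⟩
    rw [SetLike.mem_coe, Subalgebra.mem_comap, ren_yy]
    exact sq_mem_B c _ n
  exact Subalgebra.mem_comap _ _ _ |>.mp (h1 ha)

/-- the linear forms orthogonal to the root -/
noncomputable def lf (c : Matrix ι ι ℤ) (i : ι) (s : Oth i) : Fk ι ℂ :=
  X s.1 - C (((c i s.1.1 : ℤ) : ℂ) / 2) * X (i, s.1.2)

theorem lf_hom (c : Matrix ι ι ℤ) (i : ι) (s : Oth i) : (lf c i s).IsHomogeneous 1 :=
  (isHomogeneous_X _ _).sub (isHomogeneous_C_mul_X _ _)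

theorem lf_mem {c : Matrix ι ι ℤ} (hc : IsADE c) (i : ι) (s : Oth i) : lf c i s ∈ B c (al i) := by
  obtain ⟨⟨k, n⟩, hk⟩ := s
  have h1 : lf c i ⟨(k, n), hk⟩ = ((1 : ℂ) / 2) • lin ((2 : ℤ) • al k - c i k • al i) n := by
    rw [lin_sub, lin_smul, lin_smul, lin_al, lin_al, lf, smul_sub, smul_eq_C_mul, smul_eq_C_mul,
      ← mul_assoc, ← mul_assoc, ← C_mul, ← C_mul]
    have e1 : (1 : ℂ) / 2 * ((2 : ℤ) : ℂ) = 1 := by push_cast; norm_num
    have e2 : (1 : ℂ) / 2 * ((c i k : ℤ) : ℂ) = ((c i k : ℤ) : ℂ) / 2 := by ring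
    rw [e1, e2, C_1, one_mul]
  rw [h1]
  refine Subalgebra.smul_mem _ (lin_mem_B ?_ n) _
  rw [form_sub_left, form_smul_left, form_smul_left, form_al_al, form_al_al, hc.symm k i, hc.diag]
  ring

theorem Xi_eq (c : Matrix ι ι ℤ) (i : ι) (h : Rg i) : Xi c i h =
    ∑ μ ∈ h.support, rename (fun n : ℕ => (i, n)) (coeff μ h) * ∏ s ∈ μ.support, lf c i s ^ μ s := by
  rw [Xi, coe_eval₂Hom, eval₂_eq]
  rfl

theorem prod_hom (c : Matrix ι ι ℤ) (i : ι) (μ : Oth i →₀ ℕ) :
    (∏ s ∈ μ.support, lf c i s ^ μ s).IsHomogeneous μ.degree := by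
  have h1 : μ.degree = ∑ s ∈ μ.support, 1 * μ s := by
    simp only [one_mul]
    rfl
  rw [h1]
  exact IsHomogeneous.prod _ _ _ fun s _ => (lf_hom c i s).pow _

theorem hc_mul_mem {c : Matrix ι ι ℤ} {β : ι → ℤ} {x y : Fk ι ℂ} {q d : ℕ} (hy : y.IsHomogeneous q)
    (hyB : y ∈ B c β) (hx : ∀ e, e + q = d → homogeneousComponent e x ∈ B c β) :
    homogeneousComponent d (x * y) ∈ B c β := by
  rw [hc_mul]
  refine Subalgebra.sum_mem _ fun a _ => Subalgebra.sum_mem _ fun b _ => ?_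
  split_ifs with h
  · rw [homogeneousComponent_of_mem ((mem_homogeneousSubmodule _ _).mpr hy)]
    split_ifs with h'
    · exact Subalgebra.mul_mem _ (hx a (by omega)) hyB
    · rw [mul_zero]
      exact Subalgebra.zero_mem _
  · exact Subalgebra.zero_mem _

theorem main : S_R1imp := by
  intro hA ι _ _ c hc p hp i d f hf hfd
  have h1 : f = ∑ μ ∈ (Th c i f).support, rename (fun n : ℕ => (i, n)) (coeff μ (Th c i f)) *
      ∏ s ∈ μ.support, lf c i s ^ μ s := by
    rw [← Xi_eq, Xi_Th]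
  rw [h1, map_sum]
  refine Subalgebra.sum_mem _ fun μ _ => ?_
  refine hc_mul_mem (prod_hom c i μ) (Subalgebra.prod_mem _ fun s _ =>
    Subalgebra.pow_mem _ (lf_mem hc i s) _) ?_
  intro e he
  rw [← rename_homogeneousComponent]
  refine ren_mem c i (hA p hp e _ ?_ (deg_coeff c i hfd μ he))
  rw [← scr_coeff (hc.diag i), hf, map_zero, coeff_zero]

end Pool.Agent.H391.SK.P_R1
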