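import Pool.Agent.H391.SK.StD

namespace Pool.Agent.H391.SK.P_REG2

open MvPolynomial

set_option linter.unusedSectionVars false
set_option linter.unusedSimpArgs false

variable {ι : Type} [Fintype ι] [DecidableEq ι]

/-- The value of the linear form `v` at the real point `x`. -/
noncomputable def pr (v : ι → ℤ) (x : ι → ℝ) : ℝ := ∑ j, ((v j : ℤ) : ℝ) * x j

/-- Evaluation at a real point. -/
noncomputable def ev (x : ι → ℝ) : MvPolynomial ι ℂ →ₐ[ℂ] ℂ := aeval fun k => ((x k : ℝ) : ℂ)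

/-- The point `x ∘ g`. -/
noncomputable def mv (g : (ι → ℤ) →ₗ[ℤ] (ι → ℤ)) (x : ι → ℝ) : ι → ℝ := fun k => pr (g (al k)) x

theorem ev_lin0 (x : ι → ℝ) (v : ι → ℤ) : ev x (lin0 v) = ((pr v x : ℝ) : ℂ) := by
  simp [ev, lin0, pr]

theorem pr_add (v w : ι → ℤ) (x : ι → ℝ) : pr (v + w) x = pr v x + pr w x := by
  simp [pr, add_mul, Finset.sum_add_distrib]

theorem pr_smul (m : ℤ) (v : ι → ℤ) (x : ι → ℝ) : pr (m • v) x = m * pr v x := by
  simp [pr, Finset.mul_sum, mul_assoc]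

theorem pr_zero (x : ι → ℝ) : pr 0 x = 0 := by
  simp [pr]

theorem pr_neg (v : ι → ℤ) (x : ι → ℝ) : pr (-v) x = - pr v x := by
  simp [pr, Finset.sum_neg_distrib]

theorem pr_sum {κ : Type} (s : Finset κ) (a : κ → ℤ) (v : κ → ι → ℤ) (x : ι → ℝ) :
    pr (∑ k ∈ s, a k • v k) x = ∑ k ∈ s, (a k : ℝ) * pr (v k) x := by
  classical
  induction s using Finset.induction_on with
  | empty => simp [pr_zero]
  | insert b s hb ih => rw [Finset.sum_insert hb, Finset.sum_insert hb, pr_add, pr_smul, ih]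

theorem pr_mv (g : (ι → ℤ) →ₗ[ℤ] (ι → ℤ)) (v : ι → ℤ) (x : ι → ℝ) :
    pr (g v) x = pr v (mv g x) := by
  conv_lhs => rw [eq_sum_al v, map_sum]
  simp only [map_smul]
  rw [pr_sum]
  rfl

theorem ev_act0 (g : (ι → ℤ) →ₗ[ℤ] (ι → ℤ)) (x : ι → ℝ) (f : MvPolynomial ι ℂ) :
    ev x (act0 g f) = ev (mv g x) f := by
  have : (ev x).comp (act0 g) = ev (mv g x) := by
    refine algHom_ext fun k => ?_
    rw [AlgHom.comp_apply, act0_X, ev_lin0]
    simp [ev, mv]
  exact DFunLike.congr_fun this f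

theorem pr_al (k : ι) (x : ι → ℝ) : pr (al k) x = x k := by
  simp [pr, al, Pi.single_apply]

/-- The points dual to lattice vectors. -/
theorem pr_dual (c : Matrix ι ι ℤ) (v w : ι → ℤ) :
    pr w (fun j => ((∑ i, v i * c i j : ℤ) : ℝ)) = ((form c v w : ℤ) : ℝ) := by
  simp only [pr, form]
  rw [Finset.sum_comm]
  push_cast
  refine Finset.sum_congr rfl fun j _ => ?_
  rw [Finset.mul_sum]
  refine Finset.sum_congr rfl fun i _ => ?_
  ring

/-- The linear functional `x ↦ pr v x`. -/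
noncomputable def prl (v : ι → ℤ) : (ι → ℝ) →ₗ[ℝ] ℝ where
  toFun x := pr v x
  map_add' x y := by simp [pr, mul_add, Finset.sum_add_distrib]
  map_smul' m x := by
    simp only [pr, Pi.smul_apply, smul_eq_mul, RingHom.id_apply, Finset.mul_sum]
    exact Finset.sum_congr rfl fun j _ => by ring

theorem pos_of_PR {c : Matrix ι ι ℤ} {I : Set ι} {β : ι → ℤ} (h : β ∈ PR c I) :
    ∃ k ∈ I, 0 < β k := by
  obtain ⟨h1, h2, h3⟩ := h
  by_contra hcon
  push Not at hcon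
  have hz : β = 0 := by
    funext k
    by_cases hk : k ∈ I
    · exact le_antisymm (hcon k hk) (h2 k)
    · exact h3 k hk
  rw [hz] at h1
  simp [form] at h1

theorem ne_neg_PR {c : Matrix ι ι ℤ} {I J : Set ι} {β γ : ι → ℤ} (h : β ∈ PR c I)
    (h' : γ ∈ PR c J) : γ ≠ -β := by
  intro e
  obtain ⟨k, _, hk⟩ := pos_of_PR h
  have := h'.2.1 k
  rw [e] at this
  simp at this
  omega

theorem al_mem_PR {c : Matrix ι ι ℤ} (hc : IsADE c) {I : Set ι} {i : ι} (hi : i ∈ I) :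
    al i ∈ PR c I := by
  refine ⟨hc.form_al i, fun k => ?_, fun k hk => ?_⟩
  · simp only [al, Pi.single_apply]; split_ifs <;> norm_num
  · have : k ≠ i := fun e => hk (e ▸ hi)
    simp [al, Pi.single_apply, this]

theorem irr_lin0 {v : ι → ℤ} (hv : v ≠ 0) : Irreducible (lin0 v) := by
  obtain ⟨k, hk⟩ : ∃ k, v k ≠ 0 := by
    by_contra h
    push Not at h
    exact hv (funext h)
  have hcoef : coeff (Finsupp.single k 1) (lin0 v) = ((v k : ℤ) : ℂ) := by
    classical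
    rw [lin0, coeff_sum, Finset.sum_eq_single k]
    · rw [coeff_C_mul, coeff_X, if_pos rfl, mul_one]
    · intro j _ hj
      rw [coeff_C_mul, coeff_X, if_neg, mul_zero]
      intro e
      exact hj ((Finsupp.single_left_inj one_ne_zero).mp e)
    · simp
  have hk' : ((v k : ℤ) : ℂ) ≠ 0 := by exact_mod_cast hk
  refine irreducible_of_totalDegree_eq_one (le_antisymm ?_ ?_) ?_
  · rw [lin0]
    refine totalDegree_finsetSum_le fun j _ => ?_
    refine (totalDegree_mul _ _).trans ?_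
    rw [totalDegree_C, totalDegree_X]
  · have hmem : Finsupp.single k 1 ∈ (lin0 v).support := by
      rw [mem_support_iff, hcoef]; exact hk'
    have := le_totalDegree hmem
    simpa using this
  · intro y hy
    have h1 := hy (Finsupp.single k 1)
    rw [hcoef] at h1
    exact isUnit_of_dvd_unit h1 (isUnit_iff_ne_zero.mpr hk')

/-- Two positive roots which are proportional are equal, quantitatively. -/
theorem exists_sep {c : Matrix ι ι ℤ} (hc : IsADE c)
    (h2 : ∀ v : ι → ℤ, v ≠ 0 → 2 ≤ form c v v) {I : Set ι} {β γ : ι → ℤ} (hβ : β ∈ PR c I)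
    (hγ : γ ∈ PR c I) (hne : γ ≠ β) : ∃ x : ι → ℝ, pr β x = 0 ∧ pr γ x ≠ 0 := by
  refine ⟨fun j => ((∑ i, ((2 : ℤ) • γ - form c γ β • β) i * c i j : ℤ) : ℝ), ?_, ?_⟩
  · rw [pr_dual, form_sub_left, form_smul_left, form_smul_left, hβ.1]
    push_cast; ring
  · rw [pr_dual, form_sub_left, form_smul_left, form_smul_left, hγ.1, form_symm hc.symm β γ]
    intro h0
    have h0' : (2 : ℤ) * 2 - form c γ β * form c γ β = 0 := by exact_mod_cast h0
    have h3 : (form c γ β - 2) * (form c γ β + 2) = 0 := by linarith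
    rcases mul_eq_zero.mp h3 with h | h
    · have h4 : form c γ β = 2 := by omega
      apply hne
      by_contra _
      have h5 := h2 (γ - β) (sub_ne_zero.mpr hne)
      rw [form_sub_left, form_sub_right, form_sub_right, hγ.1, hβ.1, form_symm hc.symm β γ,
        h4] at h5
      omega
    · have h4 : form c γ β = -2 := by omega
      have h6 : γ + β ≠ 0 := fun e => ne_neg_PR hβ hγ (eq_neg_of_add_eq_zero_left e)
      have h5 := h2 (γ + β) h6
      rw [form_add_left, form_add_right, form_add_right, hγ.1, hβ.1, form_symm hc.symm β γ,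
        h4] at h5
      omega

/-- A real point at which `β` vanishes and no other positive root of `I`. -/
theorem exists_pt {c : Matrix ι ι ℤ} (hc : IsADE c)
    (h2 : ∀ v : ι → ℤ, v ≠ 0 → 2 ≤ form c v v) {I : Set ι} (hfin : (PR c I).Finite)
    {β : ι → ℤ} (hβ : β ∈ PR c I) :
    ∃ x : ι → ℝ, pr β x = 0 ∧ ∀ γ ∈ PR c I, γ ≠ β → pr γ x ≠ 0 := by
  classical
  let H : Submodule ℝ (ι → ℝ) := LinearMap.ker (prl β)
  let S : Finset (Subspace ℝ H) :=
    (hfin.toFinset.erase β).image fun γ => LinearMap.ker ((prl γ).comp H.subtype)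
  have hS : (⊤ : Subspace ℝ H) ∉ S := by
    intro htop
    obtain ⟨γ, hγ, hker⟩ := Finset.mem_image.mp htop
    rw [Finset.mem_erase, Set.Finite.mem_toFinset] at hγ
    obtain ⟨x, hx, hx'⟩ := exists_sep hc h2 hβ hγ.2 hγ.1
    have : (⟨x, hx⟩ : H) ∈ LinearMap.ker ((prl γ).comp H.subtype) := by rw [hker]; trivial
    exact hx' this
  have hne := Subspace.biUnion_ne_univ_of_top_notMem hS
  obtain ⟨y, hy⟩ := (Set.ne_univ_iff_exists_notMem _).mp hne
  refine ⟨y, y.2, fun γ hγ hγβ h0 => hy ?_⟩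
  simp only [Set.mem_iUnion]
  refine ⟨LinearMap.ker ((prl γ).comp H.subtype), Finset.mem_image.mpr ⟨γ, ?_, rfl⟩, ?_⟩
  · rw [Finset.mem_erase, Set.Finite.mem_toFinset]; exact ⟨hγβ, hγ⟩
  · exact h0

theorem main : S_REG2 := by
  intro hroot ι _ _ c hc I N
  classical
  obtain ⟨r1, r2, r3, -, -, r6, -, r8⟩ := hroot ι c hc
  have hfin : ∀ I J : Set ι, (PR c I \ PR c J).Finite := fun I J => (r2 I).subset Set.sdiff_subset
  -- the real value of `Jc`
  have hJ : ∀ (I J : Set ι) (x : ι → ℝ), ev x (Jc c I J) =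
      ((∏ β ∈ (hfin I J).toFinset, pr β x : ℝ) : ℂ) := by
    intro I J x
    rw [Jc, finprod_mem_eq_finite_toFinset_prod _ (hfin I J), map_prod]
    push_cast
    exact Finset.prod_congr rfl fun β _ => ev_lin0 x β
  have : Finite (Wg c (I : Set ι)) := r3 I
  have : Fintype (Wg c (I : Set ι)) := Fintype.ofFinite _
  have hth : ∀ (J : Set ι) (x : ι → ℝ), ev x (th c I J N) =
      ((∑ w : Wg c (I : Set ι), (∏ β ∈ (hfin I J).toFinset,
        pr β (mv ((w : (ι → ℤ) ≃ₗ[ℤ] (ι → ℤ)) : (ι → ℤ) →ₗ[ℤ] (ι → ℤ)) x)) ^ (2 * N) : ℝ) : ℂ) := by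
    intro J x
    rw [th, finsum_eq_sum_of_fintype, map_sum]
    rw [Complex.ofReal_sum]
    refine Finset.sum_congr rfl fun w _ => ?_
    rw [ev_act0, map_pow, hJ]
    push_cast
    rfl
  refine IsRelPrime.pow_left ?_
  rw [Jc, finprod_mem_eq_finite_toFinset_prod _ (hfin I ∅)]
  refine IsRelPrime.prod_left fun β hβ => ?_
  rw [Set.Finite.mem_toFinset] at hβ
  replace hβ : β ∈ PR c I := hβ.1
  have hβ0 : β ≠ 0 := by
    rintro rfl
    have := hβ.1
    simp [form] at this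
  rw [(irr_lin0 hβ0).isRelPrime_iff_not_dvd]
  rintro ⟨q, hq⟩
  obtain ⟨x, hx0, hx⟩ := exists_pt hc r1 (r2 I) hβ
  -- the value of `b` at `x` is zero
  have hb0 : ev x (∑ i ∈ I, th c I {i} N) = 0 := by
    rw [hq, map_mul, ev_lin0, hx0]; simp
  obtain ⟨g, hg, hdom⟩ := r8 I x
  set gl : (ι → ℤ) →ₗ[ℤ] (ι → ℤ) := (g : (ι → ℤ) →ₗ[ℤ] (ι → ℤ)) with hgl
  have hdom' : ∀ k ∈ (I : Set ι), 0 ≤ mv gl x k := hdom
  have hprg : ∀ γ : ι → ℤ, pr γ (mv gl x) = pr (g γ) x := fun γ => (pr_mv gl γ x).symm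
  -- the roots vanishing at `x'`
  have hvan : ∀ γ ∈ PR c I, pr γ (mv gl x) = 0 → g γ = β ∨ g γ = -β := by
    intro γ hγ h0
    rw [hprg] at h0
    rcases r6 I g hg γ hγ with h | h
    · left
      by_contra hne
      exact hx _ h hne h0
    · right
      by_contra hne
      refine hx _ h (fun e => hne ?_) ?_
      · rw [← e, neg_neg]
      · rw [pr_neg, h0, neg_zero]
  -- the simple root
  have hex : ∃ γ₀ ∈ PR c (I : Set ι), g γ₀ = β ∨ g γ₀ = -β := by
    have hg' : g⁻¹ ∈ Wg c (I : Set ι) := (Wg c (I : Set ι)).inv_mem hg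
    have hgg : ∀ v, g (g⁻¹ v) = v := fun v => by
      have : (g * g⁻¹) v = v := by rw [mul_inv_cancel]; rfl
      exact this
    rcases r6 I g⁻¹ hg' β hβ with h | h
    · exact ⟨_, h, Or.inl (hgg β)⟩
    · refine ⟨_, h, Or.inr ?_⟩
      rw [map_neg, hgg]
  obtain ⟨γ₀, hγ₀, hgγ₀⟩ := hex
  obtain ⟨i, hi, hi0⟩ := pos_of_PR hγ₀
  have hsum : pr γ₀ (mv gl x) = 0 := by
    rw [hprg]
    rcases hgγ₀ with h | h
    · rw [h, hx0]
    · rw [h, pr_neg, hx0, neg_zero]
  have hterm : ((γ₀ i : ℤ) : ℝ) * mv gl x i = 0 := by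
    have hnn : ∀ k ∈ (Finset.univ : Finset ι), 0 ≤ ((γ₀ k : ℤ) : ℝ) * mv gl x k := by
      intro k _
      by_cases hk : k ∈ (I : Set ι)
      · exact mul_nonneg (by exact_mod_cast hγ₀.2.1 k) (hdom' k hk)
      · rw [hγ₀.2.2 k hk]; simp
    exact (Finset.sum_eq_zero_iff_of_nonneg hnn).mp hsum i (Finset.mem_univ i)
  have hxi : mv gl x i = 0 := by
    rcases mul_eq_zero.mp hterm with h | h
    · exfalso
      have : γ₀ i = 0 := by exact_mod_cast h
      omega
    · exact h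
  have hal : g (al i) = β ∨ g (al i) = -β :=
    hvan _ (al_mem_PR hc hi) (by rw [pr_al]; exact hxi)
  -- the positive term
  have hprod : (∏ γ ∈ (hfin (I : Set ι) {i}).toFinset, pr γ (mv gl x)) ≠ 0 := by
    rw [Finset.prod_ne_zero_iff]
    intro γ hγ h0
    rw [Set.Finite.mem_toFinset] at hγ
    have h1 := hvan γ hγ.1 h0
    have h2 : γ = al i ∨ γ = - al i := by
      have e1 : g γ = g (al i) ∨ g γ = g (- al i) := by
        rw [map_neg]
        rcases h1 with h1 | h1 <;> rcases hal with h3 | h3 <;> rw [h1, h3] <;> simp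
      rcases e1 with e | e
      · exact Or.inl (g.injective e)
      · exact Or.inr (g.injective e)
    rcases h2 with h2 | h2
    · exact hγ.2 (h2 ▸ al_mem_PR hc (Set.mem_singleton i))
    · exact ne_neg_PR (al_mem_PR hc hi) hγ.1 h2
  have hbpos : (0 : ℝ) < ∑ j ∈ I, ∑ w : Wg c (I : Set ι), (∏ β ∈ (hfin (I : Set ι) {j}).toFinset,
        pr β (mv ((w : (ι → ℤ) ≃ₗ[ℤ] (ι → ℤ)) : (ι → ℤ) →ₗ[ℤ] (ι → ℤ)) x)) ^ (2 * N) := by
    refine Finset.sum_pos' (fun j _ => Finset.sum_nonneg fun w _ => ?_) ⟨i, hi, ?_⟩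
    · rw [pow_mul]; exact pow_nonneg (sq_nonneg _) _
    · refine Finset.sum_pos' (fun w _ => ?_) ⟨⟨g, hg⟩, Finset.mem_univ _, ?_⟩
      · rw [pow_mul]; exact pow_nonneg (sq_nonneg _) _
      · rw [pow_mul]
        exact pow_pos (by positivity) _
  have hb1 : ev x (∑ i ∈ I, th c I {i} N) = ((∑ j ∈ I, ∑ w : Wg c (I : Set ι),
      (∏ β ∈ (hfin (I : Set ι) {j}).toFinset,
        pr β (mv ((w : (ι → ℤ) ≃ₗ[ℤ] (ι → ℤ)) : (ι → ℤ) →ₗ[ℤ] (ι → ℤ)) x)) ^ (2 * N) : ℝ) : ℂ) := by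
    rw [map_sum, Complex.ofReal_sum]
    exact Finset.sum_congr rfl fun j _ => hth {j} x
  rw [hb1] at hb0
  have : (∑ j ∈ I, ∑ w : Wg c (I : Set ι), (∏ β ∈ (hfin (I : Set ι) {j}).toFinset,
        pr β (mv ((w : (ι → ℤ) ≃ₗ[ℤ] (ι → ℤ)) : (ι → ℤ) →ₗ[ℤ] (ι → ℤ)) x)) ^ (2 * N) : ℝ) = 0 := by
    exact_mod_cast hb0
  exact absurd this hbpos.ne'

end Pool.Agent.H391.SK.P_REG2

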