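import Pool.Agent.H391.SK.StD

/-!
# Project SK, REG3: regularity (devissage)
-/

set_option linter.unusedSectionVars false
set_option linter.unusedSimpArgs false

namespace Pool.Agent.H391.SK.P_REG3

open MvPolynomial Pool.Agent.H391.SK

/-! ### Ideals generated by linear forms -/

section lin
variable {ι : Type} [Fintype ι] [DecidableEq ι]

/-- linear forms with complex coefficients -/
noncomputable def linC : (ι → ℂ) →ₗ[ℂ] MvPolynomial ι ℂ where
  toFun v := ∑ k, C (v k) * X k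
  map_add' v w := by
    simp [add_mul, Finset.sum_add_distrib]
  map_smul' a v := by
    simp [Finset.smul_sum, smul_eq_C_mul, mul_assoc]

theorem linC_apply (v : ι → ℂ) : linC v = ∑ k, C (v k) * X k := rfl

theorem lin0_eq (v : ι → ℤ) : lin0 v = linC (fun k => ((v k : ℤ) : ℂ)) := rfl

theorem linC_single (k : ι) : linC (Pi.single k 1) = (X k : MvPolynomial ι ℂ) := by
  simp [linC_apply, Pi.single_apply]

theorem aeval_linC (P : (ι → ℂ) →ₗ[ℂ] (ι → ℂ)) (v : ι → ℂ) :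
    aeval (fun k => (linC (P (Pi.single k 1)) : MvPolynomial ι ℂ)) (linC v) = linC (P v) := by
  have h1 : v = ∑ k, v k • (Pi.single k (1 : ℂ) : ι → ℂ) := by
    funext j
    simp [Pi.single_apply]
  conv_rhs => rw [h1, map_sum, map_sum]
  rw [linC_apply, map_sum]
  refine Finset.sum_congr rfl fun k _ => ?_
  rw [map_mul, aeval_X, map_smul, map_smul, smul_eq_C_mul]
  simp

/-- the ideal generated by a set of linear forms is prime -/
theorem span_prime (s : Set (ι → ℂ)) : (Ideal.span (linC '' s)).IsPrime := by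
  obtain ⟨U, hU⟩ : ∃ U, U = Submodule.span ℂ s := ⟨_, rfl⟩
  have hUI : ∀ v ∈ U, linC v ∈ Ideal.span (linC '' s) := by
    intro v hv
    rw [hU] at hv
    refine Submodule.span_induction (p := fun v _ => linC v ∈ Ideal.span (linC '' s)) ?_ ?_ ?_ ?_ hv
    · intro x hx
      exact Ideal.subset_span ⟨x, hx, rfl⟩
    · rw [map_zero]; exact Ideal.zero_mem _
    · intro x y _ _ hx hy
      rw [map_add]; exact Ideal.add_mem _ hx hy
    · intro a x _ hx
      rw [map_smul, smul_eq_C_mul]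
      exact Ideal.mul_mem_left _ _ hx
  obtain ⟨t, ht⟩ := U.mkQ.exists_rightInverse_of_surjective U.range_mkQ
  obtain ⟨P, hP⟩ : ∃ P, P = t ∘ₗ U.mkQ := ⟨_, rfl⟩
  have hP0 : ∀ v ∈ U, P v = 0 := by
    intro v hv
    rw [hP, LinearMap.comp_apply, (Submodule.Quotient.mk_eq_zero U).2 hv |> (fun h => (h : U.mkQ v = 0)),
      map_zero]
  have hP1 : ∀ v, v - P v ∈ U := by
    intro v
    rw [← Submodule.ker_mkQ U, LinearMap.mem_ker, map_sub, hP, LinearMap.comp_apply]
    have := LinearMap.congr_fun ht (U.mkQ v)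
    rw [LinearMap.comp_apply, LinearMap.id_apply] at this
    rw [this, sub_self]
  obtain ⟨π, hπ⟩ : ∃ π : MvPolynomial ι ℂ →ₐ[ℂ] MvPolynomial ι ℂ,
    π = aeval (fun k => (linC (P (Pi.single k 1)) : MvPolynomial ι ℂ)) := ⟨_, rfl⟩
  have hπI : ∀ f ∈ Ideal.span (linC '' s), π f = 0 := by
    have h : Ideal.span (linC '' s) ≤ RingHom.ker π := by
      refine Ideal.span_le.2 ?_
      rintro _ ⟨v, hv, rfl⟩
      show π (linC v) = 0
      rw [hπ, aeval_linC, hP0 v (hU ▸ Submodule.subset_span hv), map_zero]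
    exact fun f hf => h hf
  have hdiff : ∀ f, f - π f ∈ Ideal.span (linC '' s) := by
    intro f
    induction f using MvPolynomial.induction_on with
    | C a =>
      have : π (C a) = C a := by rw [hπ]; simp
      rw [this, sub_self]
      exact Ideal.zero_mem _
    | add p q hp hq =>
      rw [map_add]
      have : p + q - (π p + π q) = (p - π p) + (q - π q) := by ring
      rw [this]
      exact Ideal.add_mem _ hp hq
    | mul_X p k hp =>
      have h1 : X k - π (X k) ∈ Ideal.span (linC '' s) := by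
        rw [hπ, aeval_X, ← linC_single, ← map_sub]
        exact hUI _ (hP1 _)
      rw [map_mul]
      have : p * X k - π p * π (X k) = (p - π p) * X k + π p * (X k - π (X k)) := by ring
      rw [this]
      exact Ideal.add_mem _ (Ideal.mul_mem_right _ _ hp) (Ideal.mul_mem_left _ _ h1)
  have hiff : ∀ f, f ∈ Ideal.span (linC '' s) ↔ π f = 0 := by
    intro f
    refine ⟨hπI f, fun h => ?_⟩
    have := hdiff f
    rwa [h, sub_zero] at this
  refine Ideal.isPrime_iff.2 ⟨?_, ?_⟩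
  · rw [Ne, Ideal.eq_top_iff_one, hiff, map_one]
    exact one_ne_zero
  · intro x y h
    rw [hiff, map_mul] at h
    rw [hiff, hiff]
    exact mul_eq_zero.1 h

theorem lin0_prime {v : ι → ℤ} (hv : v ≠ 0) : Prime (lin0 v) := by
  have h0 : lin0 v ≠ 0 := by
    intro h
    obtain ⟨k, hk⟩ := Function.ne_iff.1 hv
    have h1 := congrArg (coeff (Finsupp.single k 1)) h
    rw [lin0, coeff_sum] at h1
    have h2 : ∀ j, coeff (Finsupp.single k 1) (C ((v j : ℤ) : ℂ) * X j : MvPolynomial ι ℂ) =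
        if j = k then ((v j : ℤ) : ℂ) else 0 := by
      intro j
      rw [coeff_C_mul, coeff_X]
      by_cases hjk : j = k
      · subst hjk; simp
      · have : Finsupp.single j 1 ≠ Finsupp.single k 1 := fun e =>
          hjk ((Finsupp.single_left_inj one_ne_zero).1 e)
        rw [if_neg this, if_neg hjk, mul_zero]
    simp only [h2, Finset.sum_ite_eq', Finset.mem_univ, if_true, coeff_zero] at h1
    exact hk (by exact_mod_cast h1)
  rw [← Ideal.span_singleton_prime h0, lin0_eq]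
  have := span_prime ({fun k => ((v k : ℤ) : ℂ)} : Set (ι → ℂ))
  rwa [Set.image_singleton] at this

theorem pair_prime (v w : ι → ℤ) : (Ideal.span {lin0 v, lin0 w}).IsPrime := by
  have := span_prime ({fun k => ((v k : ℤ) : ℂ), fun k => ((w k : ℤ) : ℂ)} : Set (ι → ℂ))
  rwa [Set.image_pair] at this

end lin

/-! ### Devissage -/

theorem dev {R : Type} [CommRing R] {e b : R} (L : Multiset R)
    (h1 : ∀ s ∈ L, ∀ u y k, e * u = s * y + b * k → ∃ p q, u = s * p + b * q)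
    (h2 : ∀ s ∈ L, ∀ w, b ∣ s * w → b ∣ w) :
    ∀ x y z, e * x = L.prod * y + b * z → ∃ u v, x = L.prod * u + b * v := by
  have h3 : ∀ M ≤ L, ∀ w, b ∣ M.prod * w → b ∣ w := by
    intro M
    induction M using Multiset.induction_on with
    | empty => intro _ w hw; simpa using hw
    | cons s M ih =>
      intro hM w hw
      rw [Multiset.prod_cons, mul_assoc] at hw
      exact ih ((Multiset.le_cons_self M s).trans hM) w
        (h2 s (Multiset.mem_of_le hM (Multiset.mem_cons_self s M)) _ hw)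
  have h4 : ∀ M ≤ L, ∀ x y z, e * x = M.prod * y + b * z → ∃ u v, x = M.prod * u + b * v := by
    intro M
    induction M using Multiset.induction_on with
    | empty => intro _ x y z _; exact ⟨x, 0, by simp⟩
    | cons s M ih =>
      intro hM x y z h
      have hM' := (Multiset.le_cons_self M s).trans hM
      have hs := Multiset.mem_of_le hM (Multiset.mem_cons_self s M)
      obtain ⟨u, v, hx⟩ := ih hM' x (s * y) z (by rw [h, Multiset.prod_cons]; ring)
      have h5 : b ∣ M.prod * (e * u - s * y) := by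
        refine ⟨z - e * v, ?_⟩
        rw [hx, Multiset.prod_cons] at h
        linear_combination h
      obtain ⟨k, hk⟩ := h3 M hM' _ h5
      obtain ⟨p, q, hu⟩ := h1 s hs u y k (by linear_combination hk)
      refine ⟨p, M.prod * q + v, ?_⟩
      rw [hx, hu, Multiset.prod_cons]
      ring
  exact h4 L le_rfl

/-! ### Real points -/

section real
variable {ι : Type} [Fintype ι] [DecidableEq ι]

/-- the value of an element of the root lattice at a real point -/
noncomputable def ev (v : ι → ℤ) (x : ι → ℝ) : ℝ := ∑ j, ((v j : ℤ) : ℝ) * x j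

theorem ev_neg (v : ι → ℤ) (x : ι → ℝ) : ev (-v) x = -ev v x := by
  simp [ev]

theorem ev_al (k : ι) (x : ι → ℝ) : ev (al k) x = x k := by
  simp [ev, al, Pi.single_apply]

theorem ev_add_right (v : ι → ℤ) (x y : ι → ℝ) : ev v (x + y) = ev v x + ev v y := by
  simp [ev, mul_add, Finset.sum_add_distrib]

theorem ev_smul_right (v : ι → ℤ) (a : ℝ) (x : ι → ℝ) : ev v (a • x) = a * ev v x := by
  simp only [ev, Pi.smul_apply, smul_eq_mul, Finset.mul_sum]
  exact Finset.sum_congr rfl fun _ _ => by ring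

/-- transformation of a point -/
noncomputable def tr (g : (ι → ℤ) →ₗ[ℤ] (ι → ℤ)) (x : ι → ℝ) (k : ι) : ℝ := ev (g (al k)) x

theorem ev_tr (g : (ι → ℤ) →ₗ[ℤ] (ι → ℤ)) (v : ι → ℤ) (x : ι → ℝ) : ev v (tr g x) = ev (g v) x := by
  have h : ∀ j, (g v) j = ∑ k, v k * (g (al k)) j := by
    intro j
    conv_lhs => rw [eq_sum_al v, map_sum]
    simp only [map_smul, Finset.sum_apply, Pi.smul_apply, smul_eq_mul]
  unfold ev tr
  simp only [h]
  push_cast
  simp only [Finset.sum_mul, ev, Finset.mul_sum]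
  rw [Finset.sum_comm]
  exact Finset.sum_congr rfl fun _ _ => Finset.sum_congr rfl fun _ _ => by ring

/-- complex evaluation at a real point -/
noncomputable def ec (x : ι → ℝ) : MvPolynomial ι ℂ →ₐ[ℂ] ℂ := aeval fun k => ((x k : ℝ) : ℂ)

theorem ec_lin0 (x : ι → ℝ) (v : ι → ℤ) : ec x (lin0 v) = ((ev v x : ℝ) : ℂ) := by
  simp [ec, lin0, ev, map_sum]

theorem ec_act0 (g : (ι → ℤ) →ₗ[ℤ] (ι → ℤ)) (x : ι → ℝ) (f : MvPolynomial ι ℂ) :
    ec x (act0 g f) = ec (tr g x) f := by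
  have : (ec x).comp (act0 g) = ec (tr g x) := by
    refine algHom_ext fun k => ?_
    rw [AlgHom.comp_apply, act0_X, ec_lin0]
    simp [ec, tr]
  exact DFunLike.congr_fun this f

/-- a generic point of the intersection of two hyperplanes -/
theorem generic (F : Finset (ι → ℤ)) (β γ : ι → ℤ) : ∃ x : ι → ℝ, ev β x = 0 ∧ ev γ x = 0 ∧
    ∀ δ ∈ F, ev δ x = 0 → ∀ y, ev β y = 0 → ev γ y = 0 → ev δ y = 0 := by
  classical
  let evL : (ι → ℤ) → (ι → ℝ) →ₗ[ℝ] ℝ := fun v =>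
    { toFun := ev v
      map_add' := ev_add_right v
      map_smul' := fun a x => ev_smul_right v a x }
  let E : Submodule ℝ (ι → ℝ) := LinearMap.ker (evL β) ⊓ LinearMap.ker (evL γ)
  have hE : ∀ y, y ∈ E ↔ ev β y = 0 ∧ ev γ y = 0 := fun y => Iff.rfl
  let S := {δ : ι → ℤ // δ ∈ F ∧ ∃ y ∈ E, ev δ y ≠ 0}
  have : Finite S := Set.Finite.subset F.finite_toSet (fun δ hδ => hδ.1)
  let pS : S → Subspace ℝ E := fun δ => LinearMap.ker ((evL δ.1).comp E.subtype)
  have hne : ¬ ⋃ i, (pS i : Set E) = Set.univ := by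
    intro h
    obtain ⟨δ, hδ⟩ := Subspace.exists_eq_top_of_iUnion_eq_univ h
    obtain ⟨y, hy, hy0⟩ := δ.2.2
    have : (⟨y, hy⟩ : E) ∈ pS δ := by rw [hδ]; trivial
    exact hy0 this
  obtain ⟨x, hx⟩ := (Set.ne_univ_iff_exists_notMem _).1 hne
  refine ⟨x, x.2.1, x.2.2, fun δ hδ h0 y hy1 hy2 => ?_⟩
  by_contra hy
  exact hx (Set.mem_iUnion.2 ⟨⟨δ, hδ, y, ⟨hy1, hy2⟩, hy⟩, h0⟩)

end real

/-! ### Roots -/

section roots
variable {ι : Type} [Fintype ι] [DecidableEq ι]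

theorem PR_empty (c : Matrix ι ι ℤ) : PR c ∅ = ∅ := by
  ext β
  simp only [PR, Set.mem_ofPred_eq, Set.mem_empty_iff_false, not_false_eq_true, forall_const,
    iff_false, not_and]
  intro h _ h2
  have : β = 0 := funext h2
  rw [this] at h
  simp [form] at h

theorem PR_single {c : Matrix ι ι ℤ} (hc : IsADE c) {i : ι} {β : ι → ℤ} (h : β ∈ PR c {i}) :
    β = al i := by
  obtain ⟨h1, h2, h3⟩ := h
  have e : β = β i • al i := by
    funext k
    by_cases hk : k = i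
    · subst hk; simp [al]
    · rw [h3 k (by simpa using hk)]
      simp [al, Pi.single_apply, hk]
  rw [e, form_smul_left, form_smul_right, hc.form_al] at h1
  have h4 := h2 i
  have h5 : β i = 1 := by nlinarith
  rw [e, h5, one_smul]

theorem al_mem {c : Matrix ι ι ℤ} (hc : IsADE c) {I : Set ι} {i : ι} (hi : i ∈ I) : al i ∈ PR c I := by
  refine ⟨hc.form_al i, fun k => ?_, fun k hk => ?_⟩
  · simp only [al, Pi.single_apply]
    split_ifs <;> norm_num
  · have : k ≠ i := fun e => hk (e ▸ hi)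
    simp [al, Pi.single_apply, this]

theorem PR_ne {c : Matrix ι ι ℤ} {I : Set ι} {β : ι → ℤ} (h : β ∈ PR c I) : β ≠ 0 := by
  rintro rfl
  have := h.1
  simp [form] at this

theorem PR_neg {c : Matrix ι ι ℤ} {I : Set ι} {β : ι → ℤ} (h : β ∈ PR c I) (h' : -β ∈ PR c I) :
    False := by
  apply PR_ne h
  funext k
  have h1 := h.2.1 k
  have h2 := h'.2.1 k
  simp only [Pi.neg_apply] at h2
  simp only [Pi.zero_apply]
  omega

open Classical in
/-- the positive one of `v`, `-v` -/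
noncomputable def pos (c : Matrix ι ι ℤ) (v : ι → ℤ) : ι → ℤ := if v ∈ PR c Set.univ then v else -v

theorem pos_or (c : Matrix ι ι ℤ) (v : ι → ℤ) : pos c v = v ∨ pos c v = -v := by
  unfold pos
  split_ifs
  · exact Or.inl rfl
  · exact Or.inr rfl

theorem pos_sq (c : Matrix ι ι ℤ) (v : ι → ℤ) : lin0 (pos c v) ^ 2 = lin0 v ^ 2 := by
  rcases pos_or c v with h | h
  · rw [h]
  · rw [h, lin0_neg, neg_sq]

/-- the part of ROOT which is used -/
structure RT (c : Matrix ι ι ℤ) : Prop where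
  r1 : ∀ v : ι → ℤ, v ≠ 0 → 2 ≤ form c v v
  r2 : ∀ I : Set ι, (PR c I).Finite
  r3 : ∀ I : Set ι, Finite (Wg c I)
  r6 : ∀ I : Set ι, ∀ g ∈ Wg c I, ∀ β ∈ PR c I, g β ∈ PR c I ∨ -(g β) ∈ PR c I
  r7 : ∀ I : Set ι, ∀ β ∈ PR c I, ∃ g ∈ Wg c I, ∃ i ∈ I, g (al i) = β
  r8 : ∀ (I : Set ι) (x : ι → ℝ), ∃ g ∈ Wg c I, ∀ k ∈ I,
    0 ≤ ∑ j, ((g (al k) j : ℤ) : ℝ) * x j

variable {c : Matrix ι ι ℤ}

theorem pos_mem (hR : RT c) {g : (ι → ℤ) ≃ₗ[ℤ] (ι → ℤ)} (hg : g ∈ Wg c Set.univ) {γ : ι → ℤ}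
    (hγ : γ ∈ PR c Set.univ) : pos c (g γ) ∈ PR c Set.univ := by
  unfold pos
  split_ifs with h
  · exact h
  · exact (hR.r6 _ g hg γ hγ).resolve_left h

theorem pos_self {β : ι → ℤ} (h : β ∈ PR c Set.univ) : pos c β = β := if_pos h

theorem pos_inj {g : (ι → ℤ) ≃ₗ[ℤ] (ι → ℤ)} {γ γ' : ι → ℤ}
    (hγ : γ ∈ PR c Set.univ) (hγ' : γ' ∈ PR c Set.univ) (h : pos c (g γ) = pos c (g γ')) :
    γ = γ' := by
  have h1 : g γ = g γ' ∨ g γ = -(g γ') := by
    rcases pos_or c (g γ) with h1 | h1 <;> rcases pos_or c (g γ') with h2 | h2 <;> rw [h1, h2] at h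
    · exact Or.inl h
    · exact Or.inr h
    · exact Or.inr (neg_eq_iff_eq_neg.1 h)
    · exact Or.inl (neg_injective h)
  rcases h1 with h1 | h1
  · exact g.injective h1
  · rw [← map_neg] at h1
    have := g.injective h1
    exact (PR_neg hγ' (this ▸ hγ)).elim

/-- the finite set of the positive roots -/
noncomputable def FF (hR : RT c) : Finset (ι → ℤ) := (hR.r2 Set.univ).toFinset

theorem mem_FF (hR : RT c) {β : ι → ℤ} : β ∈ FF hR ↔ β ∈ PR c Set.univ := Set.Finite.mem_toFinset _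

theorem Jc_eq (hR : RT c) (J : Set ι) [DecidablePred (· ∈ PR c J)] :
    Jc c Set.univ J = ∏ δ ∈ (FF hR).filter (fun δ => ¬ δ ∈ PR c J), lin0 δ := by
  have hfin : (PR c Set.univ \ PR c J).Finite := (hR.r2 Set.univ).subset Set.sdiff_subset
  unfold Jc
  rw [finprod_mem_eq_finite_toFinset_prod _ hfin]
  refine Finset.prod_congr ?_ fun _ _ => rfl
  ext δ
  rw [Set.Finite.mem_toFinset, Finset.mem_filter, mem_FF]
  rfl

theorem Jc_empty (hR : RT c) : Jc c Set.univ ∅ = ∏ δ ∈ FF hR, lin0 δ := by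
  classical
  rw [Jc_eq hR ∅]
  refine Finset.prod_congr ?_ fun _ _ => rfl
  rw [Finset.filter_true_of_mem]
  intro δ _
  rw [PR_empty]
  exact Set.notMem_empty δ

theorem Jc_single (hc : IsADE c) (hR : RT c) (i : ι) :
    Jc c Set.univ {i} = ∏ δ ∈ (FF hR).erase (al i), lin0 δ := by
  classical
  rw [Jc_eq hR {i}]
  refine Finset.prod_congr ?_ fun _ _ => rfl
  ext δ
  rw [Finset.mem_filter, Finset.mem_erase, and_comm]
  refine and_congr_left fun _ => not_congr ⟨PR_single hc, ?_⟩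
  rintro rfl
  exact al_mem hc rfl

/-- the image of the positive roots under the group -/
theorem image_erase (hR : RT c) {g : (ι → ℤ) ≃ₗ[ℤ] (ι → ℤ)} (hg : g ∈ Wg c Set.univ) {a : ι → ℤ}
    (ha : a ∈ PR c Set.univ) : ((FF hR).erase a).image (fun δ => pos c (g δ)) =
      (FF hR).erase (pos c (g a)) := by
  have hinj : Set.InjOn (fun δ => pos c (g δ)) (FF hR : Set (ι → ℤ)) := fun x hx y hy h =>
    pos_inj ((mem_FF hR).1 hx) ((mem_FF hR).1 hy) h
  apply Finset.eq_of_subset_of_card_le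
  · intro δ hδ
    obtain ⟨γ, hγ, rfl⟩ := Finset.mem_image.1 hδ
    obtain ⟨h1, h2⟩ := Finset.mem_erase.1 hγ
    refine Finset.mem_erase.2 ⟨fun h => h1 (hinj h2 ((mem_FF hR).2 ha) h), ?_⟩
    exact (mem_FF hR).2 (pos_mem hR hg ((mem_FF hR).1 h2))
  · rw [Finset.card_image_of_injOn (hinj.mono fun x hx => Finset.mem_of_mem_erase hx),
      Finset.card_erase_of_mem ((mem_FF hR).2 ha),
      Finset.card_erase_of_mem ((mem_FF hR).2 (pos_mem hR hg ha))]

/-- the product of the positive roots except `δ`, to the power `2 N` -/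
noncomputable def JJ (hR : RT c) (N : ℕ) (δ : ι → ℤ) : MvPolynomial ι ℂ :=
  (∏ γ ∈ (FF hR).erase δ, lin0 γ) ^ (2 * N)

theorem act_Jc_single (hc : IsADE c) (hR : RT c) {g : (ι → ℤ) ≃ₗ[ℤ] (ι → ℤ)}
    (hg : g ∈ Wg c Set.univ) (i : ι) (N : ℕ) :
    act0 (g : (ι → ℤ) →ₗ[ℤ] (ι → ℤ)) (Jc c Set.univ {i} ^ (2 * N)) = JJ hR N (pos c (g (al i))) := by
  have ha : al i ∈ PR c Set.univ := al_mem hc (Set.mem_univ i)
  rw [map_pow, Jc_single hc hR, map_prod, JJ, ← image_erase hR hg ha, Finset.prod_image]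
  · have key : (∏ δ ∈ (FF hR).erase (al i), act0 (g : (ι → ℤ) →ₗ[ℤ] (ι → ℤ)) (lin0 δ)) ^ 2 =
        (∏ δ ∈ (FF hR).erase (al i), lin0 (pos c (g δ))) ^ 2 := by
      rw [← Finset.prod_pow, ← Finset.prod_pow]
      refine Finset.prod_congr rfl fun δ _ => ?_
      rw [act0_lin0, pos_sq]
      rfl
    rw [pow_mul, pow_mul, key]
  · intro x hx y hy h
    exact pos_inj ((mem_FF hR).1 (Finset.mem_of_mem_erase hx))
      ((mem_FF hR).1 (Finset.mem_of_mem_erase hy)) h

theorem th_eq [Fintype (Wg c Set.univ)] (J : Set ι) (N : ℕ) :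
    th c Set.univ J N = ∑ w : Wg c Set.univ,
      act0 ((w : (ι → ℤ) ≃ₗ[ℤ] (ι → ℤ)) : (ι → ℤ) →ₗ[ℤ] (ι → ℤ)) (Jc c Set.univ J ^ (2 * N)) :=
  finsum_eq_sum_of_fintype _

/-- `b` modulo a root -/
theorem b_mod (hc : IsADE c) (hR : RT c) {N : ℕ} (hN : N ≠ 0) {β : ι → ℤ}
    (hβ : β ∈ PR c Set.univ) : ∃ (n : ℂ) (t : MvPolynomial ι ℂ), n ≠ 0 ∧
      ∑ i, th c Set.univ {i} N = C n * JJ hR N β + lin0 β * t := by
  classical
  have := hR.r3 Set.univ
  have := Fintype.ofFinite (Wg c Set.univ)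
  have h1 : ∀ (i : ι) (w : Wg c Set.univ), ∃ t : MvPolynomial ι ℂ,
      act0 ((w : (ι → ℤ) ≃ₗ[ℤ] (ι → ℤ)) : (ι → ℤ) →ₗ[ℤ] (ι → ℤ)) (Jc c Set.univ {i} ^ (2 * N)) =
        C (((if pos c ((w : (ι → ℤ) ≃ₗ[ℤ] (ι → ℤ)) (al i)) = β then 1 else 0 : ℕ) : ℂ)) *
          JJ hR N β + lin0 β * t := by
    intro i w
    rw [act_Jc_single hc hR w.2]
    split_ifs with h
    · exact ⟨0, by rw [h]; simp⟩
    · have h2 : lin0 β ∣ JJ hR N (pos c ((w : (ι → ℤ) ≃ₗ[ℤ] (ι → ℤ)) (al i))) := by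
        refine Dvd.dvd.trans ?_ (dvd_pow_self _ (by omega))
        exact Finset.dvd_prod_of_mem _ (Finset.mem_erase.2 ⟨Ne.symm h, (mem_FF hR).2 hβ⟩)
      obtain ⟨t, ht⟩ := h2
      exact ⟨t, by rw [ht]; simp⟩
  choose t ht using h1
  refine ⟨((∑ i, ∑ w : Wg c Set.univ,
    (if pos c ((w : (ι → ℤ) ≃ₗ[ℤ] (ι → ℤ)) (al i)) = β then 1 else 0) : ℕ) : ℂ),
    ∑ i, ∑ w, t i w, ?_, ?_⟩
  · obtain ⟨g, hg, i, -, hgi⟩ := hR.r7 Set.univ β hβ
    rw [Nat.cast_ne_zero]
    refine (Nat.pos_iff_ne_zero.1 ?_)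
    refine Finset.sum_pos' (fun _ _ => Nat.zero_le _) ⟨i, Finset.mem_univ i, ?_⟩
    refine Finset.sum_pos' (fun _ _ => Nat.zero_le _) ⟨⟨g, hg⟩, Finset.mem_univ _, ?_⟩
    show 0 < if pos c (g (al i)) = β then 1 else 0
    rw [hgi, pos_self hβ, if_pos rfl]
    exact one_pos
  · simp only [th_eq, ht, Finset.sum_add_distrib, Finset.mul_sum]
    congr 1
    push_cast
    simp only [map_sum, Finset.sum_mul]

/-- two different positive roots -/
theorem not_dvd (hc : IsADE c) (hR : RT c) {β γ : ι → ℤ} (hβ : β ∈ PR c Set.univ)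
    (hγ : γ ∈ PR c Set.univ) (hne : γ ≠ β) : ¬ lin0 β ∣ lin0 γ := by
  rintro ⟨q, hq⟩
  obtain ⟨x, hx⟩ : ∃ x : ι → ℝ, x = fun k => ((form c (al k) (2 • γ - form c γ β • β) : ℤ) : ℝ) :=
    ⟨_, rfl⟩
  have hev : ∀ v, ev v x = ((form c v (2 • γ - form c γ β • β) : ℤ) : ℝ) := by
    intro v
    have h1 : form c v (2 • γ - form c γ β • β) =
        ∑ k, v k * form c (al k) (2 • γ - form c γ β • β) := by
      conv_lhs => rw [eq_sum_al v]
      have h2 : ∀ (s : Finset ι) (u : ι → ℤ), form c (∑ k ∈ s, v k • al k) u =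
          ∑ k ∈ s, v k * form c (al k) u := by
        intro s u
        induction s using Finset.induction_on with
        | empty => simp [form]
        | insert a s ha ih =>
          rw [Finset.sum_insert ha, Finset.sum_insert ha, form_add_left, form_smul_left, ih]
      exact h2 _ _
    rw [h1, hx, ev]
    push_cast
    rfl
  have h2 : ((2 : ℕ) • γ : ι → ℤ) = (2 : ℤ) • γ := by
    funext k; simp
  have e1 : form c β (2 • γ - form c γ β • β) = 0 := by
    rw [h2, form_sub_right, form_smul_right, form_smul_right, hβ.1, form_symm hc.symm β γ]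
    ring
  have e2 : form c γ (2 • γ - form c γ β • β) = 4 - form c γ β ^ 2 := by
    rw [h2, form_sub_right, form_smul_right, form_smul_right, hγ.1]
    ring
  have h3 := congrArg (ec x) hq
  rw [map_mul, ec_lin0, ec_lin0, hev, hev, e1, e2] at h3
  have h4 : form c γ β ^ 2 = 4 := by
    have : (((4 - form c γ β ^ 2 : ℤ) : ℝ) : ℂ) = 0 := by rw [h3]; simp
    have : 4 - form c γ β ^ 2 = 0 := by exact_mod_cast this
    linarith
  have h5 := hR.r1 (γ - β) (sub_ne_zero.2 hne)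
  have h6 := hR.r1 (γ + β) (fun h => PR_neg hβ (by
    rw [neg_eq_of_add_eq_zero_left h]; exact hγ))
  rw [form_sub_left, form_sub_right, form_sub_right, hγ.1, hβ.1, form_symm hc.symm β γ] at h5
  rw [form_add_left, form_add_right, form_add_right, hγ.1, hβ.1, form_symm hc.symm β γ] at h6
  nlinarith

/-- the supports of roots which vanish at a dominant point -/
theorem supp_of_ev {x : ι → ℝ} (hx : ∀ k, 0 ≤ x k) {δ : ι → ℤ} (hδ : δ ∈ PR c Set.univ)
    (h : ev δ x = 0) {k : ι} (hk : δ k ≠ 0) : x k = 0 := by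
  unfold ev at h
  have h1 : ∀ j ∈ Finset.univ, 0 ≤ ((δ j : ℤ) : ℝ) * x j := fun j _ =>
    mul_nonneg (by exact_mod_cast hδ.2.1 j) (hx j)
  have h2 := (Finset.sum_eq_zero_iff_of_nonneg h1).1 h k (Finset.mem_univ k)
  rcases mul_eq_zero.1 h2 with h3 | h3
  · exact absurd (by exact_mod_cast h3) hk
  · exact h3

/-- the key point: `e` is not in the ideal generated by two roots -/
theorem e_notMem (hc : IsADE c) (hR : RT c) (N : ℕ) {β γ : ι → ℤ} (hβ : β ∈ PR c Set.univ)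
    (hγ : γ ∈ PR c Set.univ) (hne : γ ≠ β) :
    (∑ i, ∑ j ∈ Finset.univ.erase i, th c Set.univ {i, j} N) ∉ Ideal.span {lin0 β, lin0 γ} := by
  classical
  have := hR.r3 Set.univ
  have := Fintype.ofFinite (Wg c Set.univ)
  obtain ⟨x, hxβ, hxγ, hgen⟩ := generic (FF hR) β γ
  obtain ⟨g, hg, hdom⟩ := hR.r8 Set.univ x
  obtain ⟨x', hx'⟩ : ∃ x', x' = tr (g : (ι → ℤ) →ₗ[ℤ] (ι → ℤ)) x := ⟨_, rfl⟩
  have hdom' : ∀ k, 0 ≤ x' k := fun k => by
    rw [hx']
    exact hdom k (Set.mem_univ k)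
  have hev : ∀ v, ev v x' = ev (g v) x := fun v => by
    rw [hx', ev_tr]
    rfl
  have hgi : g⁻¹ ∈ Wg c Set.univ := (Wg c Set.univ).inv_mem hg
  have hgg : ∀ v, g (g⁻¹ v) = v := fun v => by
    show (g * g⁻¹) v = v
    rw [mul_inv_cancel]
    rfl
  have hgg' : ∀ v, g⁻¹ (g v) = v := fun v => by
    show (g⁻¹ * g) v = v
    rw [inv_mul_cancel]
    rfl
  -- at most two simple roots vanish
  have hA : ∀ i j k : ι, x' i = 0 → x' j = 0 → x' k = 0 → i ≠ j → i ≠ k → j ≠ k → False := by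
    intro i j k hi hj hk hij hik hjk
    let s : Fin 3 → ι := ![i, j, k]
    let yv : (Fin 3 → ℝ) → ι → ℝ := fun a => ∑ m, a m • (Pi.single (s m) (1 : ℝ) : ι → ℝ)
    have hyv : ∀ v a, ev v (yv a) = ∑ m, a m * (v (s m) : ℝ) := by
      intro v a
      have h1 : ∀ (t : Finset (Fin 3)), ev v (∑ m ∈ t, a m • (Pi.single (s m) (1 : ℝ) : ι → ℝ)) =
          ∑ m ∈ t, a m * (v (s m) : ℝ) := by
        intro t
        induction t using Finset.induction_on with
        | empty => simp [ev]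
        | insert b t hb ih =>
          rw [Finset.sum_insert hb, Finset.sum_insert hb, ev_add_right, ev_smul_right, ih]
          congr 2
          simp [ev, Pi.single_apply]
      exact h1 _
    let f : (Fin 3 → ℝ) →ₗ[ℝ] (Fin 2 → ℝ) :=
      { toFun := fun a => ![ev (g⁻¹ β) (yv a), ev (g⁻¹ γ) (yv a)]
        map_add' := fun a b => by
          simp only [hyv, Pi.add_apply, add_mul, Finset.sum_add_distrib]
          simp
        map_smul' := fun r a => by
          simp only [hyv, Pi.smul_apply, smul_eq_mul, mul_assoc, ← Finset.mul_sum]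
          simp }
    have hker : LinearMap.ker f ≠ ⊥ := LinearMap.ker_ne_bot_of_finrank_lt (by simp)
    obtain ⟨a, ha, ha0⟩ := (Submodule.ne_bot_iff _).1 hker
    have ha1 : ev (g⁻¹ β) (yv a) = 0 := congrFun ha 0
    have ha2 : ev (g⁻¹ γ) (yv a) = 0 := congrFun ha 1
    obtain ⟨y, hy⟩ : ∃ y, y = tr ((g⁻¹ : (ι → ℤ) ≃ₗ[ℤ] (ι → ℤ)) : (ι → ℤ) →ₗ[ℤ] (ι → ℤ)) (yv a) :=
      ⟨_, rfl⟩
    have hy1 : ∀ v, ev v y = ev (g⁻¹ v) (yv a) := fun v => by
      rw [hy, ev_tr]
      rfl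
    have hz : ∀ m : ι, x' m = 0 → (yv a) m = 0 := by
      intro m hm
      have h1 : ev (g (al m)) x = 0 := by rw [← hev, ev_al, hm]
      have h2 : ev (g (al m)) y = 0 := by
        rcases hR.r6 _ g hg _ (al_mem hc (Set.mem_univ m)) with h | h
        · exact hgen _ ((mem_FF hR).2 h) h1 y (by rw [hy1, ha1]) (by rw [hy1, ha2])
        · have := hgen _ ((mem_FF hR).2 h) (by rw [ev_neg, h1, neg_zero]) y
            (by rw [hy1, ha1]) (by rw [hy1, ha2])
          rwa [ev_neg, neg_eq_zero] at this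
      rw [hy1, hgg', ev_al] at h2
      exact h2
    have hyv2 : ∀ m, (yv a) (s m) = a m := by
      intro m
      have h1 := hyv (al (s m)) a
      rw [ev_al] at h1
      rw [h1]
      have hs : Function.Injective s := by
        intro p q hpq
        fin_cases p <;> fin_cases q <;> simp [s] at hpq ⊢
        · exact hij hpq
        · exact hik hpq
        · exact hij hpq.symm
        · exact hjk hpq
        · exact hik hpq.symm
        · exact hjk hpq.symm
      rw [Finset.sum_eq_single m]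
      · simp [al]
      · intro b _ hb
        have : s b ≠ s m := fun e => hb (hs e)
        simp [al, Pi.single_apply, this]
      · intro h; exact absurd (Finset.mem_univ m) h
    apply ha0
    funext m
    rw [← hyv2 m]
    fin_cases m
    · exact hz i hi
    · exact hz j hj
    · exact hz k hk
  -- two simple roots vanish
  have hβ' := pos_mem hR hgi hβ
  have hγ' := pos_mem hR hgi hγ
  have evpos : ∀ δ, ev δ x = 0 → ev (pos c (g⁻¹ δ)) x' = 0 := by
    intro δ hδ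
    rcases pos_or c (g⁻¹ δ) with h | h
    · rw [h, hev, hgg, hδ]
    · rw [h, ev_neg, hev, hgg, hδ, neg_zero]
  have hne' : pos c (g⁻¹ γ) ≠ pos c (g⁻¹ β) := fun h => hne (pos_inj hγ hβ h)
  have hsup : ∀ δ ∈ PR c Set.univ, ∃ k, δ k ≠ 0 := by
    intro δ hδ
    by_contra h
    push Not at h
    exact PR_ne hδ (funext h)
  have hsup2 : ∀ δ ∈ PR c Set.univ, ∀ i, δ ≠ al i → ∃ k, k ≠ i ∧ δ k ≠ 0 := by
    intro δ hδ i hi
    by_contra h
    push Not at h
    exact hi (PR_single hc ⟨hδ.1, hδ.2.1, fun k hk => h k hk⟩)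
  obtain ⟨i, j, hij, hxi, hxj⟩ : ∃ i j, i ≠ j ∧ x' i = 0 ∧ x' j = 0 := by
    obtain ⟨i, hi⟩ := hsup _ hβ'
    have hxi := supp_of_ev hdom' hβ' (evpos β hxβ) hi
    by_cases h : pos c (g⁻¹ β) = al i
    · obtain ⟨k, hk, hk2⟩ := hsup2 _ hγ' i (fun e => hne' (e.trans h.symm))
      exact ⟨i, k, hk.symm, hxi, supp_of_ev hdom' hγ' (evpos γ hxγ) hk2⟩
    · obtain ⟨k, hk, hk2⟩ := hsup2 _ hβ' i h
      exact ⟨i, k, hk.symm, hxi, supp_of_ev hdom' hβ' (evpos β hxβ) hk2⟩
  have hvan : ∀ δ ∈ PR c Set.univ, ev δ x' = 0 → δ ∈ PR c {i, j} := by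
    intro δ hδ h
    refine ⟨hδ.1, hδ.2.1, fun k hk => ?_⟩
    by_contra hk0
    have hxk := supp_of_ev hdom' hδ h hk0
    simp only [Set.mem_insert_iff, Set.mem_singleton_iff, not_or] at hk
    exact hA i j k hxi hxj hxk hij (Ne.symm hk.1) (Ne.symm hk.2)
  -- evaluation
  let T : ι → ι → Wg c Set.univ → ℝ := fun i' j' w =>
    (∏ δ ∈ (FF hR).filter (fun δ => ¬ δ ∈ PR c ({i', j'} : Set ι)),
      ev δ (tr ((w : (ι → ℤ) ≃ₗ[ℤ] (ι → ℤ)) : (ι → ℤ) →ₗ[ℤ] (ι → ℤ)) x)) ^ (2 * N)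
  have hT0 : ∀ i' j' w, 0 ≤ T i' j' w := fun i' j' w => by
    show 0 ≤ _ ^ (2 * N)
    rw [pow_mul]
    positivity
  have hTe : ∀ i' j', ec x (th c Set.univ {i', j'} N) = ((∑ w, T i' j' w : ℝ) : ℂ) := by
    intro i' j'
    rw [th_eq, map_sum]
    push_cast
    refine Finset.sum_congr rfl fun w _ => ?_
    rw [ec_act0, map_pow, Jc_eq hR, map_prod]
    simp only [ec_lin0]
    rw [show T i' j' w = (∏ δ ∈ (FF hR).filter (fun δ => ¬ δ ∈ PR c ({i', j'} : Set ι)),
      ev δ (tr ((w : (ι → ℤ) ≃ₗ[ℤ] (ι → ℤ)) : (ι → ℤ) →ₗ[ℤ] (ι → ℤ)) x)) ^ (2 * N) from rfl]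
    push_cast
    rfl
  intro hmem
  have h0 : ec x (∑ i, ∑ j ∈ Finset.univ.erase i, th c Set.univ {i, j} N) = 0 := by
    obtain ⟨p, q, hpq⟩ := Ideal.mem_span_pair.1 hmem
    rw [← hpq, map_add, map_mul, map_mul, ec_lin0, ec_lin0, hxβ, hxγ]
    simp
  simp only [map_sum, hTe] at h0
  have h1 : (∑ i', ∑ j' ∈ Finset.univ.erase i', ∑ w, T i' j' w : ℝ) = 0 := by
    exact_mod_cast h0
  have hpos : 0 < (∑ i', ∑ j' ∈ Finset.univ.erase i', ∑ w, T i' j' w : ℝ) := by
    refine Finset.sum_pos' (fun i' _ => Finset.sum_nonneg fun j' _ => Finset.sum_nonneg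
      fun w _ => hT0 _ _ _) ⟨i, Finset.mem_univ i, ?_⟩
    refine Finset.sum_pos' (fun j' _ => Finset.sum_nonneg fun w _ => hT0 _ _ _)
      ⟨j, Finset.mem_erase.2 ⟨hij.symm, Finset.mem_univ j⟩, ?_⟩
    refine Finset.sum_pos' (fun w _ => hT0 _ _ _) ⟨⟨g, hg⟩, Finset.mem_univ _, ?_⟩
    show 0 < (∏ δ ∈ (FF hR).filter (fun δ => ¬ δ ∈ PR c ({i, j} : Set ι)),
      ev δ (tr (g : (ι → ℤ) →ₗ[ℤ] (ι → ℤ)) x)) ^ (2 * N)
    rw [pow_mul]
    refine pow_pos (sq_pos_iff.2 ?_) N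
    refine Finset.prod_ne_zero_iff.2 fun δ hδ => ?_
    rw [Finset.mem_filter, mem_FF] at hδ
    rw [← hx']
    exact fun h => hδ.2 (hvan δ hδ.1 h)
  linarith

/-- regularity of `e` modulo two roots -/
theorem reg_pair (hc : IsADE c) (hR : RT c) (N : ℕ) {β γ : ι → ℤ} (hβ : β ∈ PR c Set.univ)
    (hγ : γ ∈ PR c Set.univ) (hne : γ ≠ β) (u y k : MvPolynomial ι ℂ)
    (h : (∑ i, ∑ j ∈ Finset.univ.erase i, th c Set.univ {i, j} N) * u =
      lin0 γ * y + lin0 β * k) : ∃ p q, u = lin0 γ * p + lin0 β * q := by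
  have h1 : (∑ i, ∑ j ∈ Finset.univ.erase i, th c Set.univ {i, j} N) * u ∈
      Ideal.span {lin0 β, lin0 γ} := by
    rw [h]
    exact Ideal.mem_span_pair.2 ⟨k, y, by ring⟩
  rcases (pair_prime β γ).mem_or_mem h1 with h2 | h2
  · exact absurd h2 (e_notMem hc hR N hβ hγ hne)
  · obtain ⟨p, q, hpq⟩ := Ideal.mem_span_pair.1 h2
    exact ⟨q, p, by rw [← hpq]; ring⟩

/-- regularity of `e` modulo a root and `b` -/
theorem reg_b (hc : IsADE c) (hR : RT c) {N : ℕ} (hN : N ≠ 0) {β : ι → ℤ}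
    (hβ : β ∈ PR c Set.univ) (u y k : MvPolynomial ι ℂ)
    (h : (∑ i, ∑ j ∈ Finset.univ.erase i, th c Set.univ {i, j} N) * u =
      lin0 β * y + (∑ i, th c Set.univ {i} N) * k) :
    ∃ p q, u = lin0 β * p + (∑ i, th c Set.univ {i} N) * q := by
  obtain ⟨n, t, hn, hb⟩ := b_mod hc hR hN hβ
  have hJ : JJ hR N β =
      ((Multiset.replicate (2 * N) ((FF hR).erase β).val).sum.map lin0).prod := by
    rw [Multiset.sum_replicate, Multiset.map_nsmul, Multiset.prod_nsmul]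
    rfl
  have hmem : ∀ s ∈ ((Multiset.replicate (2 * N) ((FF hR).erase β).val).sum.map lin0),
      ∃ γ ∈ PR c Set.univ, γ ≠ β ∧ s = lin0 γ := by
    intro s hs
    obtain ⟨γ, hγ, rfl⟩ := Multiset.mem_map.1 hs
    rw [Multiset.sum_replicate] at hγ
    have h2 := Multiset.mem_of_mem_nsmul hγ
    have h3 : γ ∈ (FF hR).erase β := h2
    obtain ⟨h4, h5⟩ := Finset.mem_erase.1 h3
    exact ⟨γ, (mem_FF hR).1 h5, h4, rfl⟩
  have hd := dev (e := ∑ i, ∑ j ∈ Finset.univ.erase i, th c Set.univ {i, j} N) (b := lin0 β)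
    ((Multiset.replicate (2 * N) ((FF hR).erase β).val).sum.map lin0) (by
      intro s hs u y k h
      obtain ⟨γ, hγ, hne, rfl⟩ := hmem s hs
      exact reg_pair hc hR N hβ hγ hne u y k h) (by
      intro s hs w hw
      obtain ⟨γ, hγ, hne, rfl⟩ := hmem s hs
      exact ((lin0_prime (PR_ne hβ)).dvd_or_dvd hw).resolve_left (not_dvd hc hR hβ hγ hne))
    u (C n * k) (y + t * k) (by rw [← hJ, h, hb]; ring)
  obtain ⟨p, q, hpq⟩ := hd
  rw [← hJ] at hpq
  refine ⟨q - C n⁻¹ * t * p, C n⁻¹ * p, ?_⟩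
  have hcc : (C n⁻¹ * C n : MvPolynomial ι ℂ) = 1 := by
    rw [← C_mul, inv_mul_cancel₀ hn, C_1]
  rw [hpq, hb]
  linear_combination (-(JJ hR N β * p)) * hcc

end roots

theorem main : S_REG3 := by
  intro hROOT hREG2 ι _ _ c hc _ N x y z h
  obtain ⟨r1, r2, r3, -, -, r6, r7, r8⟩ := hROOT ι c hc
  have hR : RT c := ⟨r1, r2, r3, r6, r7, r8⟩
  rcases Nat.eq_zero_or_pos N with rfl | hN
  · exact ⟨x, 0, by simp⟩
  have hrel := hREG2 hROOT ι c hc Finset.univ N
  rw [Finset.coe_univ] at hrel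
  have hJ : Jc c Set.univ ∅ ^ (2 * N) =
      ((Multiset.replicate (2 * N) (FF hR).val).sum.map lin0).prod := by
    rw [Multiset.sum_replicate, Multiset.map_nsmul, Multiset.prod_nsmul, Jc_empty hR]
    rfl
  have hmem : ∀ s ∈ ((Multiset.replicate (2 * N) (FF hR).val).sum.map lin0),
      ∃ β ∈ PR c Set.univ, s = lin0 β := by
    intro s hs
    obtain ⟨γ, hγ, rfl⟩ := Multiset.mem_map.1 hs
    rw [Multiset.sum_replicate] at hγ
    exact ⟨γ, (mem_FF hR).1 (Multiset.mem_of_mem_nsmul hγ), rfl⟩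
  have hd := dev (e := ∑ i, ∑ j ∈ Finset.univ.erase i, th c Set.univ {i, j} N)
    (b := ∑ i, th c Set.univ {i} N)
    ((Multiset.replicate (2 * N) (FF hR).val).sum.map lin0) (by
      intro s hs u y k h
      obtain ⟨β, hβ, rfl⟩ := hmem s hs
      exact reg_b hc hR (by omega) hβ u y k h) (by
      intro s hs w hw
      have hs2 : s ∣ Jc c Set.univ ∅ ^ (2 * N) := by
        rw [hJ]
        exact Multiset.dvd_prod hs
      have h2 : IsRelPrime s (∑ i, th c Set.univ {i} N) := hrel.of_dvd_left hs2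
      exact h2.symm.dvd_of_dvd_mul_left hw) x y z (by rw [← hJ]; exact h)
  rw [← hJ] at hd
  exact hd

end Pool.Agent.H391.SK.P_REG3
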