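import Pool.Agent.H391.SK.StB

/-!
# Project SK: REL (helper127), the relations of the operators `hop`, `Eop`, `Tr`
-/

set_option autoImplicit false
set_option linter.unusedSectionVars false
set_option linter.unusedSimpArgs false

namespace Pool.Agent.H391.SK.P_REL

open MvPolynomial
open Pool.Agent.H391.SK

/-! ### the elements `hz` -/

section hz

variable {R : Type} [CommRing R] [Algebra ℂ R]

theorem hz_neg (x : ℕ → R) {j : ℤ} (h : j < 0) : hz x j = 0 := by
  unfold hz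
  rw [if_neg (not_le.2 h)]

theorem hz_zero (x : ℕ → R) : hz x 0 = 1 := by
  unfold hz
  rw [if_pos le_rfl]
  simp [hs]

theorem hz_nat (x : ℕ → R) (m : ℕ) : hz x (m : ℤ) = hs x m := by
  unfold hz
  rw [if_pos (by positivity), Int.toNat_natCast]

/-- Newton's recursion -/
theorem newton (x : ℕ → R) (J : ℤ) (M : ℕ) (hM : J ≤ M) :
    ∑ a ∈ Finset.range M, x a * hz x (J - 1 - a) = (J : R) * hz x J := by
  rcases lt_or_ge 0 J with h | h
  · obtain ⟨m, rfl⟩ : ∃ m : ℕ, J = (m : ℤ) + 1 := ⟨(J - 1).toNat, by omega⟩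
    have hmM : m + 1 ≤ M := by exact_mod_cast hM
    have h1 : ∑ a ∈ Finset.range M, x a * hz x ((m : ℤ) + 1 - 1 - a) =
        ∑ a ∈ Finset.range (m + 1), x a * hs x (m - a) := by
      rw [← Finset.sum_range_add_sum_Ico _ hmM]
      have h2 : ∑ k ∈ Finset.Ico (m + 1) M, x k * hz x ((m : ℤ) + 1 - 1 - k) = 0 := by
        refine Finset.sum_eq_zero fun k hk => ?_
        rw [Finset.mem_Ico] at hk
        rw [hz_neg x (by omega), mul_zero]
      rw [h2, add_zero]
      refine Finset.sum_congr rfl fun k hk => ?_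
      rw [Finset.mem_range] at hk
      rw [← hz_nat, Nat.cast_sub (by omega)]
      congr 2
      ring
    rw [h1]
    have h3 : hz x ((m : ℤ) + 1) = hs x (m + 1) := by
      rw [← hz_nat]
      push_cast
      rfl
    rw [h3, hs, Finset.sum_range (fun a => x a * hs x (m - a))]
    have h4 : (((m : ℤ) + 1 : ℤ) : R) = algebraMap ℂ R ((m : ℂ) + 1) := by
      rw [map_add, map_natCast, map_one]
      push_cast
      rfl
    rw [h4, ← Algebra.smul_def, smul_smul, mul_inv_cancel₀ (by exact_mod_cast Nat.succ_ne_zero m),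
      one_smul]
  · rw [Finset.sum_eq_zero fun a _ => by rw [hz_neg x (by omega), mul_zero]]
    rcases h.lt_or_eq with h | h
    · rw [hz_neg x h, mul_zero]
    · rw [h]; simp

theorem cancel (m : ℕ) {r s : R} (h : ((m : R) + 1) * r = ((m : R) + 1) * s) : r = s := by
  have h4 : ((m : R) + 1) = algebraMap ℂ R ((m : ℂ) + 1) := by
    rw [map_add, map_natCast, map_one]
  rw [h4, ← Algebra.smul_def, ← Algebra.smul_def] at h
  have h5 := congrArg (fun z => (((m : ℂ) + 1)⁻¹) • z) h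
  simpa [smul_smul, inv_mul_cancel₀ (by exact_mod_cast Nat.succ_ne_zero m : ((m : ℂ) + 1) ≠ 0)]
    using h5

/-- derivations on the elements `hz` -/
theorem der_hz (P : Derivation ℂ R R) (x u : ℕ → R) (hP : ∀ a : ℕ, P (x a) = ((a : R) + 1) * u a)
    (j : ℤ) (M : ℕ) (hM : j ≤ M) :
    P (hz x j) = ∑ k ∈ Finset.range M, u k * hz x (j - k - 1) := by
  have key : ∀ d : ℕ, ∀ j : ℤ, j ≤ d → j ≤ M → P (hz x j) =
      ∑ k ∈ Finset.range M, u k * hz x (j - k - 1) := by
    intro d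
    induction d with
    | zero =>
      intro j hj _
      rw [Finset.sum_eq_zero fun k _ => by rw [hz_neg _ (by push_cast at hj; omega), mul_zero]]
      rcases (show j ≤ 0 by exact_mod_cast hj).lt_or_eq with h | h
      · rw [hz_neg _ h, map_zero]
      · rw [h, hz_zero, Derivation.map_one_eq_zero]
    | succ d ih =>
      intro j hj hjM
      rcases lt_or_ge j ((d : ℤ) + 1) with h | h
      · exact ih j (by omega) hjM
      obtain rfl : j = (d : ℤ) + 1 := le_antisymm (by exact_mod_cast hj) h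
      have h1 := newton x ((d : ℤ) + 1) M hjM
      have h2 := congrArg P h1
      rw [map_sum] at h2
      have h3 : ∀ a ∈ Finset.range M, P (x a * hz x ((d : ℤ) + 1 - 1 - a)) =
          x a * (∑ k ∈ Finset.range M, u k * hz x ((d : ℤ) - a - k - 1)) +
          hz x ((d : ℤ) - a) * (((a : R) + 1) * u a) := by
        intro a _
        rw [Derivation.leibniz, smul_eq_mul, smul_eq_mul, hP,
          ih ((d : ℤ) + 1 - 1 - a) (by omega) (by omega)]
        have e1 : (d : ℤ) + 1 - 1 - a = d - a := by ring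
        rw [e1]
      rw [Finset.sum_congr rfl h3, Finset.sum_add_distrib] at h2
      have h4 : ∑ a ∈ Finset.range M, x a * (∑ k ∈ Finset.range M,
            u k * hz x ((d : ℤ) - a - k - 1)) =
          ∑ k ∈ Finset.range M, u k * ((((d : ℤ) - (k : ℤ) : ℤ) : R) * hz x ((d : ℤ) - k)) := by
        simp only [Finset.mul_sum]
        rw [Finset.sum_comm]
        refine Finset.sum_congr rfl fun k _ => ?_
        rw [← newton x ((d : ℤ) - k) M (by omega), Finset.mul_sum]
        refine Finset.sum_congr rfl fun a _ => ?_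
        have e1 : (d : ℤ) - a - k - 1 = d - k - 1 - a := by ring
        rw [e1]
        ring
      rw [h4] at h2
      have h5 : P ((((d : ℤ) + 1 : ℤ) : R) * hz x ((d : ℤ) + 1)) =
          ((d : R) + 1) * P (hz x ((d : ℤ) + 1)) := by
        rw [Derivation.leibniz, smul_eq_mul, smul_eq_mul]
        have : P (((d : ℤ) + 1 : ℤ) : R) = 0 := Derivation.map_intCast _ _
        rw [this, mul_zero, add_zero]
        push_cast
        ring
      rw [h5] at h2
      refine cancel d ?_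
      rw [← h2, Finset.mul_sum, ← Finset.sum_add_distrib]
      refine Finset.sum_congr rfl fun k _ => ?_
      have e1 : (d : ℤ) + 1 - k - 1 = d - k := by ring
      rw [e1]
      push_cast
      ring
  exact key j.toNat j (by omega) hM

end hz

section ops

variable {ι : Type} [Fintype ι] [DecidableEq ι]

/-! ### the operators `Sj` -/

/-- the variables with first index `i` -/
noncomputable def xx (i : ι) : ℕ → Fk ι ℂ := fun n => X (i, n)

/-- the evaluation in `Sj` -/
noncomputable def TT (i : ι) (j : ℤ) : Polynomial (Fk ι ℂ) →ₗ[ℂ] Fk ι ℂ :=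
  Polynomial.lsum fun k : ℕ => LinearMap.mulLeft ℂ (hz (xx i) ((k : ℤ) + j))

theorem TT_monomial (i : ι) (j : ℤ) (k : ℕ) (a : Fk ι ℂ) :
    TT i j (Polynomial.monomial k a) = hz (xx i) ((k : ℤ) + j) * a := by
  unfold TT
  rw [Polynomial.lsum_apply, Polynomial.sum_monomial_index]
  · simp
  · simp

theorem TT_mul (i : ι) (j : ℤ) (r : Fk ι ℂ) (l : ℕ) (p : Polynomial (Fk ι ℂ)) :
    TT i j (Polynomial.C r * Polynomial.X ^ l * p) = r * TT i (j + l) p := by
  induction p using Polynomial.induction_on' with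
  | add p q hp hq => rw [mul_add, map_add, hp, hq, map_add, mul_add]
  | monomial k c =>
    have h1 : Polynomial.C r * Polynomial.X ^ l * Polynomial.monomial k c =
        Polynomial.monomial (l + k) (r * c) := by
      rw [Polynomial.C_mul_X_pow_eq_monomial, Polynomial.monomial_mul_monomial]
    rw [h1, TT_monomial, TT_monomial]
    have e : ((l + k : ℕ) : ℤ) + j = (k : ℤ) + (j + l) := by push_cast; ring
    rw [e]
    ring

theorem Sj_apply (c : Matrix ι ι ℤ) (ν : ℂ) (i : ι) (j : ℤ) (f : Fk ι ℂ) :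
    Sj c ν i j f = TT i j (shf c ν i f) := rfl

theorem Sj_X_mul (c : Matrix ι ι ℤ) (ν : ℂ) (i : ι) (j : ℤ) (l : ι) (k : ℕ) (f : Fk ι ℂ) :
    Sj c ν i j (X (l, k) * f) =
      X (l, k) * Sj c ν i j f - C (ν * ((c i l : ℤ) : ℂ)) * Sj c ν i (j + k + 1) f := by
  rw [Sj_apply, map_mul]
  have h1 : shf c ν i (X (l, k)) = Polynomial.C (X (l, k)) -
      Polynomial.C (MvPolynomial.C (ν * ((c i l : ℤ) : ℂ))) * Polynomial.X ^ (k + 1) := by
    unfold shf
    rw [aeval_X]
  rw [h1, sub_mul, map_sub, TT_mul]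
  have h2 := TT_mul i j (X (l, k) : Fk ι ℂ) 0 (shf c ν i f)
  rw [pow_zero, mul_one] at h2
  rw [h2, Sj_apply, Sj_apply]
  have e1 : j + ((0 : ℕ) : ℤ) = j := by simp
  have e2 : j + ((k + 1 : ℕ) : ℤ) = j + k + 1 := by push_cast; ring
  rw [e1, e2]

theorem Sj_one (c : Matrix ι ι ℤ) (ν : ℂ) (i : ι) (j : ℤ) :
    Sj c ν i j 1 = hz (xx i) j := by
  rw [Sj_apply, map_one, ← Polynomial.monomial_zero_one, TT_monomial]
  simp

theorem Sj_C_mul (c : Matrix ι ι ℤ) (ν : ℂ) (i : ι) (j : ℤ) (a : ℂ) (f : Fk ι ℂ) :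
    Sj c ν i j (C a * f) = C a * Sj c ν i j f := by
  rw [← smul_eq_C_mul, map_smul, smul_eq_C_mul]

/-! ### the derivations -/

/-- the derivation `√ν α_j(m)`, `m > 0` -/
noncomputable def PP (c : Matrix ι ι ℤ) (ν : ℂ) (j : ι) (m : ℤ) :
    Derivation ℂ (Fk ι ℂ) (Fk ι ℂ) :=
  ∑ k, (ν * m * ((c j k : ℤ) : ℂ)) • pderiv (R := ℂ) (k, (m - 1).toNat)

theorem PP_apply (c : Matrix ι ι ℤ) (ν : ℂ) (j : ι) (m : ℤ) (f : Fk ι ℂ) :
    PP c ν j m f = ∑ k, (ν * m * ((c j k : ℤ) : ℂ)) • pderiv (R := ℂ) (k, (m - 1).toNat) f := by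
  unfold PP
  rw [← Derivation.coeFnAddMonoidHom_apply, map_sum, Finset.sum_apply]
  rfl

theorem PP_X (c : Matrix ι ι ℤ) (ν : ℂ) (j : ι) (m : ℤ) (k : ι) (l : ℕ) :
    PP c ν j m (X (k, l)) = C (if l = (m - 1).toNat then ν * m * ((c j k : ℤ) : ℂ) else 0) := by
  rw [PP_apply]
  by_cases h : l = (m - 1).toNat
  · rw [if_pos h, Finset.sum_eq_single k]
    · rw [h, pderiv_X_self, smul_eq_C_mul, mul_one]
    · intro b _ hb
      rw [pderiv_X_of_ne (fun e => hb (by simpa using (Prod.ext_iff.1 e).1.symm)), smul_zero]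
    · intro h
      exact absurd (Finset.mem_univ k) h
  · rw [if_neg h, C_0]
    refine Finset.sum_eq_zero fun b _ => ?_
    rw [pderiv_X_of_ne (fun e => h (by simpa using (Prod.ext_iff.1 e).2)), smul_zero]

theorem hF_neg (c : Matrix ι ι ℤ) (ν q : ℂ) (j : ι) {n : ℤ} (h : n < 0) (f : Fk ι ℂ) :
    hF c ν q j n f = X (j, (-n - 1).toNat) * f := by
  unfold hF
  rw [if_pos h]
  rfl

theorem hF_zero (c : Matrix ι ι ℤ) (ν q : ℂ) (j : ι) (f : Fk ι ℂ) :
    hF c ν q j 0 f = C q * f := by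
  unfold hF
  rw [if_neg (lt_irrefl 0), if_pos rfl, ← smul_eq_C_mul]
  rfl

theorem hF_pos (c : Matrix ι ι ℤ) (ν q : ℂ) (j : ι) {n : ℤ} (h : 0 < n) (f : Fk ι ℂ) :
    hF c ν q j n f = PP c ν j n f := by
  unfold hF
  rw [if_neg (by omega), if_neg (by omega), PP_apply, LinearMap.sum_apply]
  rfl

theorem dd_X (k : ι) (l : ℕ) :
    (dd : Derivation ℂ (Fk ι ℂ) (Fk ι ℂ)) (X (k, l)) = C ((l : ℂ) + 1) * X (k, l + 1) := by
  unfold dd
  rw [mkDerivation_X]

theorem PP_hz (c : Matrix ι ι ℤ) (ν : ℂ) (j i : ι) {m : ℤ} (hm : 0 < m) (J : ℤ) :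
    PP c ν j m (hz (xx i) J) = C (ν * ((c j i : ℤ) : ℂ)) * hz (xx i) (J - m) := by
  obtain ⟨m, rfl⟩ : ∃ k : ℕ, m = (k : ℤ) + 1 := ⟨(m - 1).toNat, by omega⟩
  have h := der_hz (PP c ν j ((m : ℤ) + 1)) (xx i)
    (fun a => if a = m then C (ν * ((c j i : ℤ) : ℂ)) else 0) (by
      intro a
      unfold xx
      rw [PP_X]
      have e : ((m : ℤ) + 1 - 1).toNat = m := by omega
      rw [e]
      by_cases ha : a = m
      · simp only [if_pos ha]
        rw [ha]
        simp only [map_mul, map_add, map_one, map_natCast, map_intCast]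
        push_cast
        ring
      · simp only [if_neg ha]
        rw [C_0, mul_zero]) J (J.toNat + m + 1) (by push_cast; omega)
  rw [h, Finset.sum_eq_single m]
  · rw [if_pos rfl]
    congr 2
    ring
  · intro b _ hb
    rw [if_neg hb, zero_mul]
  · intro h
    exact absurd (Finset.mem_range.2 (by omega)) h

theorem dd_hz (i : ι) (J : ℤ) :
    (dd : Derivation ℂ (Fk ι ℂ) (Fk ι ℂ)) (hz (xx i) J) + X (i, 0) * hz (xx i) J =
      ((J : Fk ι ℂ) + 1) * hz (xx i) (J + 1) := by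
  have h := der_hz (dd : Derivation ℂ (Fk ι ℂ) (Fk ι ℂ)) (xx i) (fun a => xx i (a + 1)) (by
      intro a
      unfold xx
      rw [dd_X]
      simp only [map_add, map_one, map_natCast]) J J.toNat (by omega)
  have hN := newton (xx i) (J + 1) (J.toNat + 1) (by push_cast; omega)
  rw [Finset.sum_range_succ'] at hN
  rw [h]
  have e0 : J + 1 - 1 - ((0 : ℕ) : ℤ) = J := by push_cast; ring
  rw [e0] at hN
  have e1 : ∑ k ∈ Finset.range J.toNat, xx i (k + 1) * hz (xx i) (J + 1 - 1 - ((k + 1 : ℕ) : ℤ)) =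
      ∑ k ∈ Finset.range J.toNat, xx i (k + 1) * hz (xx i) (J - k - 1) := by
    refine Finset.sum_congr rfl fun k _ => ?_
    congr 2
    push_cast
    ring
  rw [e1] at hN
  push_cast at hN
  exact hN

/-! ### the relations on the Fock spaces -/

theorem PP_comm (c : Matrix ι ι ℤ) (ν : ℂ) (j k : ι) (m n : ℤ) (f : Fk ι ℂ) :
    PP c ν j m (PP c ν k n f) = PP c ν k n (PP c ν j m f) := by
  have h : ⁅PP c ν j m, PP c ν k n⁆ = 0 := by
    refine MvPolynomial.derivation_ext fun p => ?_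
    obtain ⟨a, l⟩ := p
    rw [Derivation.commutator_apply, PP_X, PP_X, derivation_C, derivation_C, sub_zero,
      Derivation.zero_apply]
  have h2 := congrArg (fun D : Derivation ℂ (Fk ι ℂ) (Fk ι ℂ) => D f) h
  simp only [Derivation.commutator_apply, Derivation.zero_apply] at h2
  exact sub_eq_zero.1 h2

theorem rel1 {c : Matrix ι ι ℤ} (hc : ∀ i j, c i j = c j i) (ν q r : ℂ) (j k : ι) (m n : ℤ)
    (f : Fk ι ℂ) :
    hF c ν q j m (hF c ν r k n f) - hF c ν r k n (hF c ν q j m f) =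
      (if m + n = 0 then (m : ℂ) * ν * ((c j k : ℤ) : ℂ) else 0) • f := by
  rw [smul_eq_C_mul]
  rcases lt_trichotomy m 0 with hm | hm | hm
  · rcases lt_trichotomy n 0 with hn | hn | hn
    · rw [hF_neg _ _ _ _ hm, hF_neg _ _ _ _ hn, hF_neg _ _ _ _ hn, hF_neg _ _ _ _ hm,
        if_neg (by omega), C_0]
      ring
    · subst hn
      rw [hF_neg _ _ _ _ hm, hF_zero, hF_zero, hF_neg _ _ _ _ hm, if_neg (by omega), C_0]
      ring
    · rw [hF_neg _ _ _ _ hm, hF_pos _ _ _ _ hn, hF_pos _ _ _ _ hn, hF_neg _ _ _ _ hm,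
        Derivation.leibniz, PP_X, smul_eq_mul, smul_eq_mul]
      by_cases h : m + n = 0
      · obtain rfl : m = -n := by omega
        rw [if_pos h, if_pos (by omega), hc k j]
        push_cast
        simp only [map_mul, map_neg]
        ring
      · rw [if_neg h, if_neg (by omega), C_0]
        ring
  · subst hm
    have e : (if (0 : ℤ) + n = 0 then (((0 : ℤ) : ℂ)) * ν * ((c j k : ℤ) : ℂ) else 0) = 0 := by
      split_ifs <;> simp
    rw [e, C_0, zero_mul]
    rcases lt_trichotomy n 0 with hn | hn | hn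
    · rw [hF_neg _ _ _ _ hn, hF_zero, hF_zero, hF_neg _ _ _ _ hn]
      ring
    · subst hn
      rw [hF_zero, hF_zero, hF_zero, hF_zero]
      ring
    · rw [hF_pos _ _ _ _ hn, hF_zero, hF_zero, hF_pos _ _ _ _ hn, Derivation.leibniz,
        derivation_C, smul_eq_mul, smul_eq_mul]
      ring
  · rcases lt_trichotomy n 0 with hn | hn | hn
    · rw [hF_neg _ _ _ _ hn, hF_pos _ _ _ _ hm, hF_pos _ _ _ _ hm, hF_neg _ _ _ _ hn,
        Derivation.leibniz, PP_X, smul_eq_mul, smul_eq_mul]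
      by_cases h : m + n = 0
      · obtain rfl : m = -n := by omega
        rw [if_pos h, if_pos (by omega)]
        push_cast
        simp only [map_mul, map_neg]
        ring
      · rw [if_neg h, if_neg (by omega), C_0]
        ring
    · subst hn
      rw [hF_pos _ _ _ _ hm, hF_zero, hF_zero, hF_pos _ _ _ _ hm, Derivation.leibniz,
        derivation_C, smul_eq_mul, smul_eq_mul, if_neg (by omega), C_0]
      ring
    · rw [hF_pos _ _ _ _ hm, hF_pos _ _ _ _ hn, hF_pos _ _ _ _ hn, hF_pos _ _ _ _ hm,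
        PP_comm, if_neg (by omega), C_0]
      ring

theorem rel3pos {c : Matrix ι ι ℤ} (ν : ℂ) (j i : ι) {m : ℤ} (hm : 0 < m) (f : Fk ι ℂ) :
    ∀ J : ℤ, PP c ν j m (Sj c ν i J f) - Sj c ν i J (PP c ν j m f) =
      C (ν * ((c j i : ℤ) : ℂ)) * Sj c ν i (J - m) f := by
  induction f using MvPolynomial.induction_on with
  | C a =>
    intro J
    have e : (C a : Fk ι ℂ) = C a * 1 := (mul_one _).symm
    rw [e, Sj_C_mul, Sj_C_mul, Derivation.leibniz, Derivation.leibniz, derivation_C, Sj_one,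
      Sj_one, smul_eq_mul, smul_eq_mul, smul_eq_mul, smul_eq_mul, Derivation.map_one_eq_zero,
      PP_hz c ν j i hm, mul_zero, mul_zero, mul_zero, add_zero, add_zero, map_zero]
    ring
  | add f g hf hg =>
    intro J
    have h1 := hf J
    have h2 := hg J
    simp only [map_add] at h1 h2 ⊢
    linear_combination h1 + h2
  | mul_X f p hf =>
    intro J
    obtain ⟨l, k⟩ := p
    have h1 := hf J
    have h2 := hf (J + k + 1)
    rw [mul_comm f (X (l, k)), Sj_X_mul, Derivation.leibniz, map_sub, Derivation.leibniz,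
      Derivation.leibniz, PP_X, derivation_C, map_add, smul_eq_mul, smul_eq_mul, smul_eq_mul,
      smul_eq_mul, smul_eq_mul, smul_eq_mul, Sj_X_mul, Sj_X_mul, mul_comm f (C _), Sj_C_mul]
    have e2 : J - m + (k : ℤ) + 1 = J + k + 1 - m := by ring
    rw [e2]
    linear_combination (X (l, k) : Fk ι ℂ) * h1 - (C (ν * ((c i l : ℤ) : ℂ)) : Fk ι ℂ) * h2

theorem rel3 {c : Matrix ι ι ℤ} (hc : ∀ i j, c i j = c j i) (ν : ℂ) (j i : ι) (m J : ℤ)
    (f : Fk ι ℂ) :
    hF c ν (ν * ((c j i : ℤ) : ℂ)) j m (Sj c ν i J f) - Sj c ν i J (hF c ν 0 j m f) =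
      (ν * ((c i j : ℤ) : ℂ)) • Sj c ν i (J - m) f := by
  rw [smul_eq_C_mul]
  rcases lt_trichotomy m 0 with hm | hm | hm
  · rw [hF_neg _ _ _ _ hm, hF_neg _ _ _ _ hm, Sj_X_mul]
    have e : J + ((-m - 1).toNat : ℤ) + 1 = J - m := by omega
    rw [e]
    ring
  · subst hm
    rw [hF_zero, hF_zero, C_0, zero_mul, map_zero, hc i j, sub_zero, sub_zero]
  · rw [hF_pos _ _ _ _ hm, hF_pos _ _ _ _ hm, rel3pos ν j i hm, hc i j]

theorem dd_PP (c : Matrix ι ι ℤ) (ν : ℂ) (j : ι) {n : ℤ} (hn : 1 < n) (f : Fk ι ℂ) :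
    (dd : Derivation ℂ (Fk ι ℂ) (Fk ι ℂ)) (PP c ν j n f) -
      PP c ν j n ((dd : Derivation ℂ (Fk ι ℂ) (Fk ι ℂ)) f) =
      (-(n : ℂ)) • PP c ν j (n - 1) f := by
  have h : ⁅(dd : Derivation ℂ (Fk ι ℂ) (Fk ι ℂ)), PP c ν j n⁆ =
      (-(n : ℂ)) • PP c ν j (n - 1) := by
    refine MvPolynomial.derivation_ext fun p => ?_
    obtain ⟨a, l⟩ := p
    rw [Derivation.commutator_apply, PP_X, derivation_C, zero_sub, dd_X, Derivation.leibniz,
      derivation_C, smul_eq_mul, smul_eq_mul, mul_zero, add_zero, PP_X, Derivation.smul_apply,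
      PP_X, smul_eq_C_mul, ← C_mul, ← C_mul, ← C_neg]
    congr 1
    by_cases hl : l = (n - 1 - 1).toNat
    · rw [if_pos (by omega), if_pos hl]
      have e : (l : ℂ) + 1 = (n : ℂ) - 1 := by
        have : (l : ℤ) + 1 = n - 1 := by omega
        exact_mod_cast this
      rw [e]
      push_cast
      ring
    · rw [if_neg (by omega), if_neg hl]
      ring
  have h2 := congrArg (fun D : Derivation ℂ (Fk ι ℂ) (Fk ι ℂ) => D f) h
  simpa only [Derivation.commutator_apply, Derivation.smul_apply] using h2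

theorem dd_PP_one (c : Matrix ι ι ℤ) (ν : ℂ) (j : ι) (f : Fk ι ℂ) :
    (dd : Derivation ℂ (Fk ι ℂ) (Fk ι ℂ)) (PP c ν j 1 f) -
      PP c ν j 1 ((dd : Derivation ℂ (Fk ι ℂ) (Fk ι ℂ)) f) = 0 := by
  have h : ⁅(dd : Derivation ℂ (Fk ι ℂ) (Fk ι ℂ)), PP c ν j 1⁆ = 0 := by
    refine MvPolynomial.derivation_ext fun p => ?_
    obtain ⟨a, l⟩ := p
    rw [Derivation.commutator_apply, PP_X, derivation_C, zero_sub, dd_X, Derivation.leibniz,
      derivation_C, smul_eq_mul, smul_eq_mul, mul_zero, add_zero, PP_X, Derivation.zero_apply,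
      if_neg (by omega), C_0, mul_zero, neg_zero]
  have h2 := congrArg (fun D : Derivation ℂ (Fk ι ℂ) (Fk ι ℂ) => D f) h
  simpa only [Derivation.commutator_apply, Derivation.zero_apply] using h2

/-- the fourth relation; the translation operator is `dd + r X (i,0)`, `r = 0, 1`, the charge is
`r ν c_{ji}`. -/
theorem rel4 (c : Matrix ι ι ℤ) (ν r : ℂ) (i j : ι) (n : ℤ) (f : Fk ι ℂ) :
    ((dd : Derivation ℂ (Fk ι ℂ) (Fk ι ℂ)) (hF c ν (r * (ν * ((c j i : ℤ) : ℂ))) j n f) +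
      C r * X (i, 0) * hF c ν (r * (ν * ((c j i : ℤ) : ℂ))) j n f) -
      hF c ν (r * (ν * ((c j i : ℤ) : ℂ))) j n ((dd : Derivation ℂ (Fk ι ℂ) (Fk ι ℂ)) f +
        C r * X (i, 0) * f) =
      (-(n : ℂ)) • hF c ν (r * (ν * ((c j i : ℤ) : ℂ))) j (n - 1) f := by
  rw [smul_eq_C_mul]
  rcases lt_trichotomy n 0 with hn | hn | hn
  · rw [hF_neg _ _ _ _ hn, hF_neg _ _ _ _ hn, hF_neg _ _ _ _ (by omega : n - 1 < 0),
      Derivation.leibniz, dd_X, smul_eq_mul, smul_eq_mul]
    have e1 : (-n - 1).toNat + 1 = (-(n - 1) - 1).toNat := by omega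
    have e2 : (((-n - 1).toNat : ℕ) : ℂ) + 1 = -(n : ℂ) := by
      have : (((-n - 1).toNat : ℕ) : ℤ) + 1 = - n := by omega
      exact_mod_cast this
    rw [e1, e2]
    ring
  · subst hn
    rw [hF_zero, hF_zero, Derivation.leibniz, derivation_C, smul_eq_mul, smul_eq_mul]
    push_cast
    rw [neg_zero, C_0]
    ring
  · rw [hF_pos _ _ _ _ hn, hF_pos _ _ _ _ hn, map_add, Derivation.leibniz, Derivation.leibniz,
      derivation_C, PP_X, smul_eq_mul, smul_eq_mul, smul_eq_mul, smul_eq_mul, mul_zero, add_zero]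
    rcases (show 1 ≤ n by omega).lt_or_eq with h1 | h1
    · have h := dd_PP c ν j h1 f
      rw [smul_eq_C_mul] at h
      rw [hF_pos _ _ _ _ (by omega : 0 < n - 1), if_neg (by omega), C_0]
      linear_combination h
    · subst h1
      have h := dd_PP_one c ν j f
      rw [if_pos (by omega), sub_self, hF_zero]
      push_cast
      simp only [map_mul, map_neg, map_one]
      linear_combination h

theorem rel5 (c : Matrix ι ι ℤ) (ν : ℂ) (i : ι) (f : Fk ι ℂ) :
    ∀ J : ℤ, ((dd : Derivation ℂ (Fk ι ℂ) (Fk ι ℂ)) (Sj c ν i J f) + X (i, 0) * Sj c ν i J f) -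
      Sj c ν i J ((dd : Derivation ℂ (Fk ι ℂ) (Fk ι ℂ)) f) =
      ((J : Fk ι ℂ) + 1) * Sj c ν i (J + 1) f := by
  induction f using MvPolynomial.induction_on with
  | C a =>
    intro J
    have h := dd_hz i J
    have e : (C a : Fk ι ℂ) = C a * 1 := (mul_one _).symm
    rw [e, Sj_C_mul, Sj_C_mul, Derivation.leibniz, Derivation.leibniz, derivation_C, Sj_one,
      Sj_one, smul_eq_mul, smul_eq_mul, smul_eq_mul, smul_eq_mul, Derivation.map_one_eq_zero,
      mul_zero, mul_zero, mul_zero, add_zero, add_zero, map_zero]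
    linear_combination (C a : Fk ι ℂ) * h
  | add f g hf hg =>
    intro J
    have h1 := hf J
    have h2 := hg J
    simp only [map_add] at h1 h2 ⊢
    linear_combination h1 + h2
  | mul_X f p hf =>
    intro J
    obtain ⟨l, k⟩ := p
    have h1 := hf J
    have h2 := hf (J + k + 1)
    have hX : X (l, k) * (dd : Derivation ℂ (Fk ι ℂ) (Fk ι ℂ)) f +
        f * (C ((k : ℂ) + 1) * X (l, k + 1)) = X (l, k) * (dd : Derivation ℂ (Fk ι ℂ) (Fk ι ℂ)) f +
        C ((k : ℂ) + 1) * (X (l, k + 1) * f) := by ring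
    rw [mul_comm f (X (l, k)), Sj_X_mul, Derivation.leibniz, map_sub, Derivation.leibniz,
      Derivation.leibniz, dd_X, derivation_C, smul_eq_mul, smul_eq_mul, smul_eq_mul,
      smul_eq_mul, smul_eq_mul, smul_eq_mul, hX, LinearMap.map_add, Sj_X_mul, Sj_X_mul, Sj_C_mul,
      Sj_X_mul]
    have e1 : J + ((k + 1 : ℕ) : ℤ) + 1 = J + k + 1 + 1 := by push_cast; ring
    have e2 : J + 1 + (k : ℤ) + 1 = J + k + 1 + 1 := by ring
    rw [e1, e2]
    simp only [map_add, map_one, map_natCast] at h1 h2 ⊢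
    push_cast at h1 h2 ⊢
    linear_combination (X (l, k) : Fk ι ℂ) * h1 - (C (ν * ((c i l : ℤ) : ℂ)) : Fk ι ℂ) * h2

/-! ### the operators on `VV` -/

theorem hop_fst (c : Matrix ι ι ℤ) (ν : ℂ) (j : ι) (n : ℤ) (v : VV ι) :
    (hop c ν j n v).1 = hF c ν 0 j n v.1 := rfl

theorem hop_snd (c : Matrix ι ι ℤ) (ν : ℂ) (j : ι) (n : ℤ) (v : VV ι) (i : ι) :
    (hop c ν j n v).2 i = hF c ν (ν * ((c j i : ℤ) : ℂ)) j n (v.2 i) := rfl

theorem Eop_fst (c : Matrix ι ι ℤ) (ν : ℂ) (i : ι) (n : ℤ) (v : VV ι) :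
    (Eop c ν i n v).1 = 0 := rfl

theorem Eop_snd_self (c : Matrix ι ι ℤ) (ν : ℂ) (i : ι) (n : ℤ) (v : VV ι) :
    (Eop c ν i n v).2 i = Sj c ν i (-n - 1) v.1 := by
  show (Pi.single i (Sj c ν i (-n - 1) v.1) : ι → Fk ι ℂ) i = _
  rw [Pi.single_eq_same]

theorem Eop_snd_ne (c : Matrix ι ι ℤ) (ν : ℂ) (i : ι) (n : ℤ) (v : VV ι) {k : ι} (h : k ≠ i) :
    (Eop c ν i n v).2 k = 0 := by
  show (Pi.single i (Sj c ν i (-n - 1) v.1) : ι → Fk ι ℂ) k = _
  rw [Pi.single_eq_of_ne h]

theorem Tr_fst (v : VV ι) : (Tr v).1 = (dd : Derivation ℂ (Fk ι ℂ) (Fk ι ℂ)) v.1 := rfl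

theorem Tr_snd (v : VV ι) (i : ι) : (Tr v).2 i =
    (dd : Derivation ℂ (Fk ι ℂ) (Fk ι ℂ)) (v.2 i) + X (i, 0) * v.2 i := rfl

end ops

theorem main : S_REL := by
  intro ι _ _ c hc ν
  refine ⟨?_, ?_, ?_, ?_, ?_⟩
  · intro j k m n v
    refine Prod.ext ?_ (funext fun i => ?_)
    · rw [Prod.fst_sub, hop_fst, hop_fst, hop_fst, hop_fst, Prod.smul_fst]
      exact rel1 hc.symm ν 0 0 j k m n v.1
    · rw [Prod.snd_sub, Pi.sub_apply, hop_snd, hop_snd, hop_snd, hop_snd, Prod.smul_snd,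
        Pi.smul_apply]
      exact rel1 hc.symm ν _ _ j k m n (v.2 i)
  · intro i j m n v
    refine Prod.ext ?_ (funext fun k => ?_)
    · rw [Eop_fst]; rfl
    · by_cases h : k = i
      · subst h
        rw [Eop_snd_self, Eop_fst, map_zero]
        rfl
      · rw [Eop_snd_ne c ν i m _ h]
        rfl
  · intro j i m n v
    refine Prod.ext ?_ (funext fun k => ?_)
    · rw [Prod.fst_sub, hop_fst, Eop_fst, Eop_fst, Prod.smul_fst, Eop_fst, map_zero, sub_zero,
        smul_zero]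
    · rw [Prod.snd_sub, Pi.sub_apply, hop_snd, Prod.smul_snd, Pi.smul_apply]
      by_cases h : k = i
      · subst h
        rw [Eop_snd_self, Eop_snd_self, Eop_snd_self, hop_fst]
        have e : -(m + n) - 1 = -n - 1 - m := by ring
        rw [e]
        exact rel3 hc.symm ν j k m (-n - 1) v.1
      · rw [Eop_snd_ne c ν i _ _ h, Eop_snd_ne c ν i _ _ h, Eop_snd_ne c ν i _ _ h, map_zero,
          sub_zero, smul_zero]
  · intro j n v
    refine Prod.ext ?_ (funext fun i => ?_)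
    · rw [Prod.fst_sub, hop_fst, Tr_fst, Tr_fst, hop_fst, Prod.smul_fst, hop_fst]
      have h := rel4 c ν 0 j j n v.1
      rw [C_0, zero_mul, zero_mul, zero_mul, zero_mul, add_zero, add_zero] at h
      exact h
    · rw [Prod.snd_sub, Pi.sub_apply, hop_snd, Tr_snd, Tr_snd, hop_snd, Prod.smul_snd,
        Pi.smul_apply, hop_snd]
      have h := rel4 c ν 1 i j n (v.2 i)
      rw [C_1, one_mul, one_mul] at h
      exact h
  · intro i n v
    refine Prod.ext ?_ (funext fun k => ?_)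
    · rw [Prod.fst_sub, Eop_fst, Tr_fst, Eop_fst, Prod.smul_fst, Eop_fst, map_zero, sub_zero,
        smul_zero]
    · rw [Prod.snd_sub, Pi.sub_apply, Tr_snd, Prod.smul_snd, Pi.smul_apply]
      by_cases h : k = i
      · subst h
        rw [Eop_snd_self, Eop_snd_self, Eop_snd_self, Tr_fst]
        have e : -(n - 1) - 1 = -n - 1 + 1 := by ring
        rw [e, rel5 c ν k v.1 (-n - 1), smul_eq_C_mul]
        push_cast
        simp only [map_neg, map_intCast]
        ring
      · rw [Eop_snd_ne c ν i _ _ h, Eop_snd_ne c ν i _ _ h, Eop_snd_ne c ν i _ _ h, map_zero,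
          mul_zero, add_zero, sub_zero, smul_zero]

end Pool.Agent.H391.SK.P_REL
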