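import Pool.Agent.H391.SK.StD

/-!
# Project SK, task ROOT: elementary facts on simply laced root systems
-/

set_option linter.unusedSectionVars false

namespace Pool.Agent.H391.SK.P_ROOT

open MvPolynomial Pool.Agent.H391.SK

variable {ι : Type} [Fintype ι] [DecidableEq ι] {c : Matrix ι ι ℤ}

theorem form_even (hc : IsADE c) (v : ι → ℤ) : (2 : ℤ) ∣ form c v v := by
  have h2 : ((form c v v : ℤ) : ZMod 2) = 0 := by
    unfold form
    push_cast
    rw [← Fintype.sum_prod_type' (f := fun i j => ((v i : ZMod 2) * (c i j : ZMod 2) * (v j : ZMod 2)))]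
    refine Finset.sum_involution (fun p _ => (p.2, p.1)) ?_ ?_ ?_ ?_
    · rintro ⟨i, j⟩ _
      simp only
      rw [hc.symm j i]
      have : (v j : ZMod 2) * (c i j : ZMod 2) * (v i : ZMod 2) = v i * c i j * v j := by ring
      rw [this]
      exact CharTwo.add_self_eq_zero _
    · rintro ⟨i, j⟩ _ h he
      simp only [Prod.mk.injEq] at he
      apply h
      simp only
      rw [he.1, hc.diag]
      have : ((2 : ℤ) : ZMod 2) = 0 := by decide
      rw [this]
      ring
    · intro a _; exact Finset.mem_univ _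
    · rintro ⟨i, j⟩ _; rfl
  exact (ZMod.intCast_zmod_eq_zero_iff_dvd _ 2).mp h2

/-- the real form -/
noncomputable def rf (c : Matrix ι ι ℤ) (v : ι → ℝ) : ℝ := ∑ i, ∑ j, v i * (c i j : ℝ) * v j

theorem rf_cast (v : ι → ℤ) : rf c (fun i => (v i : ℝ)) = ((form c v v : ℤ) : ℝ) := by
  unfold rf form
  push_cast
  rfl

theorem two_le (hc : IsADE c) (v : ι → ℤ) (hv : v ≠ 0) : 2 ≤ form c v v := by
  have h1 : (0 : ℝ) < ((form c v v : ℤ) : ℝ) := by
    rw [← rf_cast]
    apply hc.pos
    intro h
    apply hv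
    funext i
    have := congrFun h i
    simpa using this
  have h2 : 0 < form c v v := by exact_mod_cast h1
  obtain ⟨k, hk⟩ := form_even hc v
  omega

theorem rf_smul (a : ℝ) (v : ι → ℝ) : rf c (a • v) = a ^ 2 * rf c v := by
  unfold rf
  rw [Finset.mul_sum]
  refine Finset.sum_congr rfl fun i _ => ?_
  rw [Finset.mul_sum]
  refine Finset.sum_congr rfl fun j _ => ?_
  simp only [Pi.smul_apply, smul_eq_mul]
  ring

theorem roots_finite (hc : IsADE c) : {v : ι → ℤ | form c v v = 2}.Finite := by
  rcases isEmpty_or_nonempty ι with he | hne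
  · exact Set.toFinite _
  have hcomp : IsCompact (Metric.sphere (0 : ι → ℝ) 1) := isCompact_sphere 0 1
  have hnes : (Metric.sphere (0 : ι → ℝ) 1).Nonempty := by
    refine ⟨fun _ => 1, ?_⟩
    rw [mem_sphere_zero_iff_norm, pi_norm_const, norm_one]
  have hcont : Continuous (rf c) := by
    unfold rf
    fun_prop
  obtain ⟨x₀, hx₀, hmin⟩ := hcomp.exists_isMinOn hnes hcont.continuousOn
  have hδ : 0 < rf c x₀ := by
    apply hc.pos
    rintro rfl
    simp at hx₀
  set δ := rf c x₀ with hδd
  have hlow : ∀ x : ι → ℝ, δ * ‖x‖ ^ 2 ≤ rf c x := by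
    intro x
    rcases eq_or_ne x 0 with rfl | hx
    · simp [rf]
    · have hn : 0 < ‖x‖ := norm_pos_iff.mpr hx
      have h1 : (‖x‖⁻¹ • x) ∈ Metric.sphere (0 : ι → ℝ) 1 := by
        rw [mem_sphere_zero_iff_norm, norm_smul, norm_inv, norm_norm]
        exact inv_mul_cancel₀ hn.ne'
      have h2 : δ ≤ rf c (‖x‖⁻¹ • x) := hmin h1
      rw [rf_smul] at h2
      have h3 : ‖x‖ ^ 2 * (‖x‖⁻¹ ^ 2 * rf c x) = rf c x := by
        field_simp
      calc δ * ‖x‖ ^ 2 = ‖x‖ ^ 2 * δ := mul_comm _ _
        _ ≤ ‖x‖ ^ 2 * (‖x‖⁻¹ ^ 2 * rf c x) := mul_le_mul_of_nonneg_left h2 (by positivity)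
        _ = rf c x := h3
  obtain ⟨M, hM⟩ := exists_nat_gt (2 / δ)
  refine (Set.finite_Icc (fun _ : ι => -(M : ℤ)) (fun _ => (M : ℤ))).subset ?_
  intro v hv
  have hv2 : form c v v = 2 := hv
  have h1 := hlow (fun i => (v i : ℝ))
  rw [rf_cast, hv2] at h1
  have h2 : ∀ i, (v i : ℤ) ^ 2 ≤ M := by
    intro i
    have h3 : ‖(v i : ℝ)‖ ≤ ‖(fun i => (v i : ℝ))‖ := norm_le_pi_norm (fun i => (v i : ℝ)) i
    have h4 : ((v i : ℝ)) ^ 2 ≤ ‖(fun i => (v i : ℝ))‖ ^ 2 := by
      rw [← sq_abs, ← Real.norm_eq_abs]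
      exact pow_le_pow_left₀ (norm_nonneg _) h3 2
    have h5 : ‖(fun i => (v i : ℝ))‖ ^ 2 ≤ 2 / δ := by
      rw [le_div_iff₀ hδ]
      push_cast at h1
      linarith
    have h6 : ((v i : ℝ)) ^ 2 ≤ M := by linarith
    exact_mod_cast h6
  constructor
  · intro i
    have := h2 i
    change -(M : ℤ) ≤ v i
    nlinarith
  · intro i
    have := h2 i
    change v i ≤ (M : ℤ)
    nlinarith

theorem PR_finite (hc : IsADE c) (I : Set ι) : (PR c I).Finite :=
  (roots_finite hc).subset fun _ h => h.1

theorem Wg_finite (hc : IsADE c) (I : Set ι) : Finite (Wg c I) := by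
  have : Finite {v : ι → ℤ | form c v v = 2} := (roots_finite hc).to_subtype
  let f : Wg c I → (ι → {v : ι → ℤ | form c v v = 2}) := fun g k =>
    ⟨(g : (ι → ℤ) ≃ₗ[ℤ] (ι → ℤ)) (al k), by
      change form c _ _ = 2
      rw [form_Wg hc g.2, hc.form_al]⟩
  refine Finite.of_injective f ?_
  intro g h hgh
  apply Subtype.ext
  apply LinearEquiv.ext
  intro v
  have h1 : ∀ k, (g : (ι → ℤ) ≃ₗ[ℤ] (ι → ℤ)) (al k) = (h : (ι → ℤ) ≃ₗ[ℤ] (ι → ℤ)) (al k) := by
    intro k
    exact congrArg Subtype.val (congrFun hgh k)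
  rw [eq_sum_al v, map_sum, map_sum]
  refine Finset.sum_congr rfl fun k _ => ?_
  rw [map_smul, map_smul, h1]

theorem sign (hc : IsADE c) (β : ι → ℤ) (hβ : form c β β = 2) :
    (∀ k, 0 ≤ β k) ∨ (∀ k, β k ≤ 0) := by
  let p : ι → ℤ := fun k => max (β k) 0
  let q : ι → ℤ := fun k => max (-β k) 0
  have hpq : β = p - q := by
    funext k
    change β k = max (β k) 0 - max (-β k) 0
    rcases le_total 0 (β k) with h | h
    · rw [max_eq_left h, max_eq_right (by omega)]; ring
    · rw [max_eq_right h, max_eq_left (by omega)]; ring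
  have h1 : form c p q ≤ 0 := by
    unfold form
    refine Finset.sum_nonpos fun i _ => Finset.sum_nonpos fun j _ => ?_
    have hp : 0 ≤ p i := le_max_right _ _
    have hq : 0 ≤ q j := le_max_right _ _
    rcases eq_or_ne i j with rfl | hij
    · have : p i * q i = 0 := by
        change max (β i) 0 * max (-β i) 0 = 0
        rcases le_total 0 (β i) with h | h
        · rw [max_eq_right (a := -β i) (by omega)]; ring
        · rw [max_eq_right h]; ring
      have h2 : p i * c i i * q i = c i i * (p i * q i) := by ring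
      rw [h2, this, mul_zero]
    · rcases hc.off i j hij with h | h
      · rw [h]; simp
      · rw [h]
        have := mul_nonneg hp hq
        nlinarith
  have h2 : form c β β = form c p p + form c q q - 2 * form c p q := by
    rw [hpq, form_sub_left, form_sub_right, form_sub_right, form_symm hc.symm q p]
    ring
  by_cases hp : p = 0
  · right
    intro k
    have := congrFun hp k
    change max (β k) 0 = 0 at this
    exact max_eq_right_iff.mp this
  · by_cases hq : q = 0
    · left
      intro k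
      have := congrFun hq k
      change max (-β k) 0 = 0 at this
      have := max_eq_right_iff.mp this
      omega
    · exfalso
      have h3 := two_le hc p hp
      have h4 := two_le hc q hq
      omega

theorem sr_mem_PR (hc : IsADE c) (I : Set ι) (i : ι) (hi : i ∈ I) (β : ι → ℤ) (hβ : β ∈ PR c I)
    (hne : β ≠ al i) : sr c (al i) β ∈ PR c I := by
  obtain ⟨h1, h2, h3⟩ := hβ
  have hk : ∀ k, k ≠ i → sr c (al i) β k = β k := by
    intro k hki
    simp [sr_apply, al, hki]
  have hf : form c (sr c (al i) β) (sr c (al i) β) = 2 := by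
    rw [form_sr hc.symm (hc.form_al i), h1]
  refine ⟨hf, ?_, ?_⟩
  · rcases sign hc _ hf with h | h
    · exact h
    · exfalso
      apply hne
      have h4 : ∀ k, k ≠ i → β k = 0 := by
        intro k hki
        have h5 := h k
        rw [hk k hki] at h5
        exact le_antisymm h5 (h2 k)
      have h5 : β = β i • al i := by
        funext k
        rcases eq_or_ne k i with rfl | hki
        · simp [al]
        · rw [h4 k hki]
          simp [al, hki]
      have h6 : form c β β = β i * (β i * 2) := by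
        conv_lhs => rw [h5]
        rw [form_smul_left, form_smul_right, hc.form_al]
      rw [h1] at h6
      have h7 := h2 i
      have h8 : β i * β i = 1 := by linarith
      have h9 : β i = 1 := by nlinarith
      rw [h5, h9, one_smul]
  · intro k hkI
    have : k ≠ i := fun e => hkI (e ▸ hi)
    rw [hk k this]
    exact h3 k hkI

theorem Wg_PR (hc : IsADE c) (I : Set ι) (g : (ι → ℤ) ≃ₗ[ℤ] (ι → ℤ)) (hg : g ∈ Wg c I) (β : ι → ℤ)
    (hβ : β ∈ PR c I) : g β ∈ PR c I ∨ -(g β) ∈ PR c I := by
  obtain ⟨h1, h2, h3⟩ := hβ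
  have hf : form c (g β) (g β) = 2 := by rw [form_Wg hc hg, h1]
  have hs : ∀ k, k ∉ I → g β k = 0 := fun k hk => by rw [Wg_supp hc hg β hk, h3 k hk]
  rcases sign hc _ hf with h | h
  · exact Or.inl ⟨hf, h, hs⟩
  · right
    refine ⟨by rw [form_neg_left, form_neg_right, neg_neg, hf], fun k => ?_, fun k hk => ?_⟩
    · have := h k
      simp only [Pi.neg_apply]
      omega
    · simp [hs k hk]

theorem form_eq_sum (v w : ι → ℤ) : form c v w = ∑ k, w k * form c v (al k) := by
  conv_lhs => rw [eq_sum_al w]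
  have : ∀ s : Finset ι, form c v (∑ k ∈ s, w k • al k) = ∑ k ∈ s, w k * form c v (al k) := by
    intro s
    induction s using Finset.induction_on with
    | empty => simp [form]
    | insert a s ha ih =>
      rw [Finset.sum_insert ha, Finset.sum_insert ha, form_add_right, form_smul_right, ih]
  exact this _

theorem root_conj (hc : IsADE c) (I : Set ι) (β : ι → ℤ) (hβ : β ∈ PR c I) :
    ∃ g ∈ Wg c I, ∃ i ∈ I, g (al i) = β := by
  have key : ∀ N : ℕ, ∀ β ∈ PR c I, ∑ k, β k ≤ N → ∃ g ∈ Wg c I, ∃ i ∈ I, g (al i) = β := by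
    intro N
    induction N with
    | zero =>
      intro β hβ hN
      exfalso
      have h0 : ∀ k, β k = 0 := by
        intro k
        have h1 := Finset.single_le_sum (f := β) (fun i _ => hβ.2.1 i) (Finset.mem_univ k)
        have h2 := hβ.2.1 k
        push_cast at hN
        omega
      have h1 := hβ.1
      have : β = 0 := funext h0
      rw [this] at h1
      simp [form] at h1
    | succ N ih =>
      intro β hβ hN
      have h1 : 0 < ∑ k, β k * form c β (al k) := by
        rw [← form_eq_sum, hβ.1]; norm_num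
      obtain ⟨k, _, hk⟩ := Finset.exists_lt_of_sum_lt (s := Finset.univ) (f := fun _ : ι => (0 : ℤ))
        (g := fun k => β k * form c β (al k)) (by simpa using h1)
      have h2 : 0 < β k := by
        rcases (hβ.2.1 k).lt_or_eq with h | h
        · exact h
        · exfalso
          simp only [← h] at hk
          simp at hk
      have h3 : 0 < form c β (al k) := pos_of_mul_pos_right hk h2.le |> fun h => h
      have hkI : k ∈ I := by
        by_contra h
        rw [hβ.2.2 k h] at h2
        exact lt_irrefl _ h2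
      by_cases he : β = al k
      · exact ⟨1, Subgroup.one_mem _, k, hkI, he.symm⟩
      · have h4 := sr_mem_PR hc I k hkI β hβ he
        have h5 : ∑ j, (sr c (al k) β) j = ∑ j, β j - form c β (al k) := by
          simp only [sr_apply, al, Finset.sum_sub_distrib, Pi.sub_apply, Pi.smul_apply, smul_eq_mul,
            ← Finset.mul_sum]
          simp
        obtain ⟨g, hg, i, hi, hgi⟩ := ih _ h4 (by
          rw [h5]
          push_cast at hN
          omega)
        refine ⟨sre (hc.form_al k) * g, Subgroup.mul_mem _ (sre_mem_Wg hc hkI) hg, i, hi, ?_⟩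
        change sr c (al k) (g (al i)) = β
        rw [hgi, sr_sr (hc.form_al k)]
  refine key (∑ k, β k).toNat β hβ ?_
  exact Int.self_le_toNat _

theorem dominant (hc : IsADE c) (I : Set ι) (x : ι → ℝ) :
    ∃ g ∈ Wg c I, ∀ k ∈ I, 0 ≤ ∑ j, ((g (al k) j : ℤ) : ℝ) * x j := by
  classical
  have hfin := PR_finite hc I
  let P := hfin.toFinset
  have hP : ∀ β, β ∈ P ↔ β ∈ PR c I := fun β => hfin.mem_toFinset
  let lam : ι → ℤ := ∑ β ∈ P, β
  have hlam : ∀ k ∈ I, sr c (al k) lam = lam - 2 • al k := by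
    intro k hk
    have hk1 : al k ∈ P := by
      rw [hP]
      refine ⟨hc.form_al k, fun j => ?_, fun j hj => ?_⟩
      · simp only [al, Pi.single_apply]
        split_ifs <;> norm_num
      · have : j ≠ k := fun e => hj (e ▸ hk)
        simp [al, this]
    have h1 : lam = al k + ∑ β ∈ P.erase (al k), β := (Finset.add_sum_erase P (fun β => β) hk1).symm
    have h2 : ∑ β ∈ P.erase (al k), sr c (al k) β = ∑ β ∈ P.erase (al k), β := by
      have hmem : ∀ β ∈ P.erase (al k), sr c (al k) β ∈ P.erase (al k) := by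
        intro β hβ
        rw [Finset.mem_erase, hP] at hβ
        rw [Finset.mem_erase, hP]
        refine ⟨?_, sr_mem_PR hc I k hk β hβ.2 hβ.1⟩
        intro he
        have h3 : β = sr c (al k) (al k) := by
          have := congrArg (sr c (al k)) he
          rwa [sr_sr (hc.form_al k)] at this
        have h4 := hβ.2.2.1 k
        rw [h3, sr_apply, hc.form_al] at h4
        simp [al] at h4
      refine Finset.sum_bij (fun β _ => sr c (al k) β) hmem ?_ ?_ (fun _ _ => rfl)
      · intro a _ b _ hab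
        have := congrArg (sr c (al k)) hab
        rwa [sr_sr (hc.form_al k), sr_sr (hc.form_al k)] at this
      · intro b hb
        exact ⟨sr c (al k) b, hmem b hb, sr_sr (hc.form_al k) b⟩
    have h3 : sr c (al k) (al k) = -al k := by
      rw [sr_apply, hc.form_al, two_smul]; abel
    calc sr c (al k) lam = sr c (al k) (al k) + ∑ β ∈ P.erase (al k), sr c (al k) β := by
          conv_lhs => rw [h1]
          rw [map_add, map_sum]
      _ = -al k + ∑ β ∈ P.erase (al k), β := by rw [h2, h3]
      _ = lam - 2 • al k := by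
          rw [h1, two_smul]; abel
  have := Wg_finite hc I
  let φ : Wg c I → ℝ := fun g => ∑ j, (((g : (ι → ℤ) ≃ₗ[ℤ] (ι → ℤ)) lam j : ℤ) : ℝ) * x j
  obtain ⟨g, hg⟩ := Finite.exists_max φ
  refine ⟨g, g.2, fun k hk => ?_⟩
  have h1 := hg ⟨g * sre (hc.form_al k), Subgroup.mul_mem _ g.2 (sre_mem_Wg hc hk)⟩
  have h2 : φ ⟨g * sre (hc.form_al k), Subgroup.mul_mem _ g.2 (sre_mem_Wg hc hk)⟩ =
      φ g - 2 * ∑ j, (((g : (ι → ℤ) ≃ₗ[ℤ] (ι → ℤ)) (al k) j : ℤ) : ℝ) * x j := by
    change ∑ j, (((g : (ι → ℤ) ≃ₗ[ℤ] (ι → ℤ)) (sr c (al k) lam) j : ℤ) : ℝ) * x j = _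
    rw [hlam k hk, map_sub, map_nsmul, Finset.mul_sum, ← Finset.sum_sub_distrib]
    refine Finset.sum_congr rfl fun j _ => ?_
    have e : (2 • ((g : (ι → ℤ) ≃ₗ[ℤ] (ι → ℤ)) (al k))) j =
        2 * (g : (ι → ℤ) ≃ₗ[ℤ] (ι → ℤ)) (al k) j := by
      rw [two_smul, Pi.add_apply]; ring
    rw [Pi.sub_apply, e]
    push_cast
    ring
  rw [h2] at h1
  linarith

theorem main : S_ROOT := by
  intro ι _ _ c hc
  exact ⟨two_le hc, PR_finite hc, Wg_finite hc, sign hc, sr_mem_PR hc, Wg_PR hc, root_conj hc,
    dominant hc⟩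

end Pool.Agent.H391.SK.P_ROOT
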