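import Pool.Agent.H391.SK.StD

/-!
# Project SK: RRG, regularity passes from `O` to `C` and to the algebra `RR P`
-/

set_option autoImplicit false

namespace Pool.Agent.H391.SK.P_RRG

open MvPolynomial Pool.Agent.H391.SK

section

variable {ι : Type} [Fintype ι] [DecidableEq ι]

/-- splitting off the variables of index `0` -/
def eqv : ι × ℕ ≃ (ι × ℕ) ⊕ ι where
  toFun p := match p with
    | (j, 0) => Sum.inr j
    | (j, n + 1) => Sum.inl (j, n)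
  invFun s := match s with
    | Sum.inr j => (j, 0)
    | Sum.inl (j, n) => (j, n + 1)
  left_inv := by rintro ⟨j, _ | n⟩ <;> rfl
  right_inv := by rintro (⟨j, n⟩ | j) <;> rfl

/-- the functions on arcs are polynomials with coefficients in `O` -/
noncomputable def Psi : Fk ι ℂ ≃ₐ[ℂ] MvPolynomial (ι × ℕ) (MvPolynomial ι ℂ) :=
  (renameEquiv ℂ eqv).trans (sumAlgEquiv ℂ (ι × ℕ) ι)

theorem Psi_emb (f : MvPolynomial ι ℂ) : Psi (emb f) = C f := by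
  induction f using MvPolynomial.induction_on with
  | C a =>
    have h : (emb (C a : MvPolynomial ι ℂ) : Fk ι ℂ) = algebraMap ℂ (Fk ι ℂ) a := by
      have : (C a : MvPolynomial ι ℂ) = algebraMap ℂ (MvPolynomial ι ℂ) a := rfl
      rw [this, AlgHom.commutes]
    rw [h, AlgEquiv.commutes]
    rfl
  | add p q hp hq => rw [map_add, map_add, map_add, hp, hq]
  | mul_X p k hp =>
    have h2 : Psi (X (k, 0) : Fk ι ℂ) = C (X k) := by
      show sumAlgEquiv ℂ (ι × ℕ) ι (renameEquiv ℂ eqv (X (k, 0))) = C (X k)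
      have : renameEquiv ℂ (eqv (ι := ι)) (X (k, 0)) = X (Sum.inr k) := by
        simp [eqv]
      rw [this]
      exact sumAlgEquiv_X_inr ..
    rw [map_mul, map_mul, map_mul, hp, emb_X, h2]

theorem L1 {a b : MvPolynomial ι ℂ} (h : ∀ x y : MvPolynomial ι ℂ, b * x = a * y → ∃ t, x = a * t)
    (u v : Fk ι ℂ) (huv : emb b * u = emb a * v) : ∃ t, u = emb a * t := by
  have h1 : C a ∣ Psi u := by
    rw [C_dvd_iff_dvd_coeff]
    intro m
    obtain ⟨t, ht⟩ := h (coeff m (Psi u)) (coeff m (Psi v)) (by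
      rw [← coeff_C_mul, ← coeff_C_mul, ← Psi_emb, ← Psi_emb, ← map_mul, ← map_mul, huv])
    exact ⟨t, ht⟩
  obtain ⟨t, ht⟩ := h1
  refine ⟨Psi.symm t, ?_⟩
  apply Psi.injective
  rw [map_mul, Psi_emb, AlgEquiv.apply_symm_apply, ht]

theorem L2 {a b e : MvPolynomial ι ℂ}
    (h : ∀ x y z : MvPolynomial ι ℂ, e * x = a * y + b * z → ∃ u v, x = a * u + b * v)
    (x y z : Fk ι ℂ) (hx : emb e * x = emb a * y + emb b * z) :
    ∃ u v, x = emb a * u + emb b * v := by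
  have h1 : Psi x ∈ (Ideal.span {a, b}).map (C : MvPolynomial ι ℂ →+*
      MvPolynomial (ι × ℕ) (MvPolynomial ι ℂ)) := by
    rw [mem_map_C_iff]
    intro m
    obtain ⟨u, v, huv⟩ := h (coeff m (Psi x)) (coeff m (Psi y)) (coeff m (Psi z)) (by
      rw [← coeff_C_mul, ← coeff_C_mul, ← coeff_C_mul, ← Psi_emb, ← Psi_emb, ← Psi_emb,
        ← coeff_add, ← map_mul, ← map_mul, ← map_mul, ← map_add, hx])
    rw [Ideal.mem_span_pair]
    exact ⟨u, v, by rw [huv]; ring⟩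
  rw [Ideal.map_span, Set.image_pair, Ideal.mem_span_pair] at h1
  obtain ⟨u, v, huv⟩ := h1
  refine ⟨Psi.symm u, Psi.symm v, ?_⟩
  apply Psi.injective
  rw [map_add, map_mul, map_mul, Psi_emb, Psi_emb, AlgEquiv.apply_symm_apply,
    AlgEquiv.apply_symm_apply, ← huv]
  ring

/-- the substitution `X j ↦ P j` -/
noncomputable def th0 (P : ι → MvPolynomial ι ℂ) : MvPolynomial ι ℂ →ₐ[ℂ] MvPolynomial ι ℂ :=
  aeval P

/-- the substitution `X (j, n) ↦ D n (P j)` -/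
noncomputable def thh (P : ι → MvPolynomial ι ℂ) : Fk ι ℂ →ₐ[ℂ] Fk ι ℂ :=
  aeval fun p : ι × ℕ => D p.2 (emb (P p.1))

theorem thh_emb (P : ι → MvPolynomial ι ℂ) (f : MvPolynomial ι ℂ) :
    thh P (emb f) = emb (th0 P f) := by
  have : (thh P).comp emb = (emb : MvPolynomial ι ℂ →ₐ[ℂ] Fk ι ℂ).comp (th0 P) := by
    refine algHom_ext fun k => ?_
    rw [AlgHom.comp_apply, AlgHom.comp_apply, emb_X, thh, th0, aeval_X, aeval_X, D_zero_idx]
  exact DFunLike.congr_fun this f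

theorem mem_RR {P : ι → MvPolynomial ι ℂ} {u : Fk ι ℂ} : u ∈ RR P ↔ ∃ u', thh P u' = u := by
  have h : {g : Fk ι ℂ | ∃ (j : ι) (n : ℕ), g = D n (emb (P j))} =
      Set.range (fun p : ι × ℕ => D p.2 (emb (P p.1))) := by
    ext g
    constructor
    · rintro ⟨j, n, rfl⟩
      exact ⟨(j, n), rfl⟩
    · rintro ⟨⟨j, n⟩, rfl⟩
      exact ⟨j, n, rfl⟩
  rw [RR, h, Algebra.adjoin_range_eq_range_aeval, AlgHom.mem_range]
  rfl

omit [Fintype ι] [DecidableEq ι] in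
theorem mem_S {P : ι → MvPolynomial ι ℂ} {u : MvPolynomial ι ℂ} :
    u ∈ Algebra.adjoin ℂ (Set.range P) ↔ ∃ u', th0 P u' = u := by
  rw [Algebra.adjoin_range_eq_range_aeval, AlgHom.mem_range]
  rfl

section avg

variable (c : Matrix ι ι ℤ) (I : Set ι) [Fintype (Wg c I)]

/-- the average over the group -/
noncomputable def avg (f : MvPolynomial ι ℂ) : MvPolynomial ι ℂ :=
  C ((Fintype.card (Wg c I) : ℂ)⁻¹) *
    ∑ w : Wg c I, act0 ((w : (ι → ℤ) ≃ₗ[ℤ] (ι → ℤ)) : (ι → ℤ) →ₗ[ℤ] (ι → ℤ)) f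

theorem avg_inv (f : MvPolynomial ι ℂ) (g : (ι → ℤ) ≃ₗ[ℤ] (ι → ℤ)) (hg : g ∈ Wg c I) :
    act0 (g : (ι → ℤ) →ₗ[ℤ] (ι → ℤ)) (avg c I f) = avg c I f := by
  have h1 : act0 (g : (ι → ℤ) →ₗ[ℤ] (ι → ℤ)) (C ((Fintype.card (Wg c I) : ℂ)⁻¹)) =
      C ((Fintype.card (Wg c I) : ℂ)⁻¹) := by
    rw [← algebraMap_eq, AlgHom.commutes]
  rw [avg, map_mul, h1, map_sum]
  refine congrArg (fun z => C ((Fintype.card (Wg c I) : ℂ)⁻¹) * z) ?_
  refine Fintype.sum_equiv (Equiv.mulLeft (⟨g, hg⟩ : Wg c I)) _ _ ?_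
  intro w
  rw [← act0_mul]
  rfl

theorem avg_mul {a : MvPolynomial ι ℂ}
    (ha : ∀ g ∈ Wg c I, act0 ((g : (ι → ℤ) ≃ₗ[ℤ] (ι → ℤ)) : (ι → ℤ) →ₗ[ℤ] (ι → ℤ)) a = a)
    (f : MvPolynomial ι ℂ) : avg c I (a * f) = a * avg c I f := by
  rw [avg, avg, mul_left_comm]
  refine congrArg (fun z => C ((Fintype.card (Wg c I) : ℂ)⁻¹) * z) ?_
  rw [Finset.mul_sum]
  refine Finset.sum_congr rfl fun w _ => ?_
  rw [map_mul, ha w.1 w.2]

theorem avg_add (f g : MvPolynomial ι ℂ) : avg c I (f + g) = avg c I f + avg c I g := by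
  rw [avg, avg, avg, ← mul_add, ← Finset.sum_add_distrib]
  refine congrArg (fun z => C ((Fintype.card (Wg c I) : ℂ)⁻¹) * z) ?_
  refine Finset.sum_congr rfl fun w _ => ?_
  rw [map_add]

theorem avg_self {a : MvPolynomial ι ℂ}
    (ha : ∀ g ∈ Wg c I, act0 ((g : (ι → ℤ) ≃ₗ[ℤ] (ι → ℤ)) : (ι → ℤ) →ₗ[ℤ] (ι → ℤ)) a = a) :
    avg c I a = a := by
  have hs : ∑ w : Wg c I, act0 ((w : (ι → ℤ) ≃ₗ[ℤ] (ι → ℤ)) : (ι → ℤ) →ₗ[ℤ] (ι → ℤ)) a =
      ∑ _w : Wg c I, a := by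
    refine Finset.sum_congr rfl fun w _ => ?_
    exact ha w.1 w.2
  rw [avg, hs, Finset.sum_const, Finset.card_univ, nsmul_eq_mul, ← mul_assoc]
  have h0 : (Fintype.card (Wg c I) : ℂ) ≠ 0 := Nat.cast_ne_zero.mpr Fintype.card_ne_zero
  have h1 : (C ((Fintype.card (Wg c I) : ℂ)⁻¹) : MvPolynomial ι ℂ) *
      (Fintype.card (Wg c I) : MvPolynomial ι ℂ) = 1 := by
    rw [← map_natCast (C : ℂ →+* MvPolynomial ι ℂ), ← C_mul, inv_mul_cancel₀ h0, C_1]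
  rw [h1, one_mul]

end avg

end

theorem main : S_RRG := by
  intro hROOT ι _ _ c hc I P hG hind a b e ha hb he ha0 hab
  have hfin : Finite (Wg c (I : Set ι)) := (hROOT ι c hc).2.2.1 I
  have : Fintype (Wg c (I : Set ι)) := Fintype.ofFinite _
  have hinv : ∀ f : MvPolynomial ι ℂ, f ∈ Algebra.adjoin ℂ (Set.range P) ↔
      ∀ g ∈ Wg c (I : Set ι),
        act0 ((g : (ι → ℤ) ≃ₗ[ℤ] (ι → ℤ)) : (ι → ℤ) →ₗ[ℤ] (ι → ℤ)) f = f := by
    intro f
    rw [← act0_inv_iff hc]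
    exact hG f
  have hThinj : Function.Injective (thh P) := hind
  have hthinj : Function.Injective (th0 P) := by
    intro x y hxy
    apply emb_injective
    apply hThinj
    rw [thh_emb, thh_emb, hxy]
  -- (1) in `O`
  have h1 : ∀ x y : MvPolynomial ι ℂ, b * x = a * y → ∃ t, x = a * t := by
    intro x y hxy
    exact hab.dvd_of_dvd_mul_left ⟨y, hxy⟩
  -- (1) in `S`
  obtain ⟨a', rfl⟩ := mem_S.mp ha
  obtain ⟨b', rfl⟩ := mem_S.mp hb
  obtain ⟨e', rfl⟩ := mem_S.mp he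
  have h1S : ∀ x y : MvPolynomial ι ℂ, b' * x = a' * y → ∃ t, x = a' * t := by
    intro x y hxy
    obtain ⟨t, ht⟩ := h1 (th0 P x) (th0 P y) (by rw [← map_mul, ← map_mul, hxy])
    have htS : t ∈ Algebra.adjoin ℂ (Set.range P) := by
      rw [hinv]
      intro g hg
      have hx := (hinv _).mp (mem_S.mpr ⟨x, rfl⟩ : th0 P x ∈ Algebra.adjoin ℂ (Set.range P)) g hg
      have haa := (hinv _).mp ha g hg
      rw [ht, map_mul, haa] at hx
      exact mul_left_cancel₀ ha0 hx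
    obtain ⟨t', rfl⟩ := mem_S.mp htS
    refine ⟨t', hthinj ?_⟩
    rw [ht, map_mul]
  refine ⟨L1 h1, ?_, ?_⟩
  · intro u hu v hv huv
    obtain ⟨u', rfl⟩ := mem_RR.mp hu
    obtain ⟨v', rfl⟩ := mem_RR.mp hv
    obtain ⟨t, ht⟩ := L1 h1S u' v' (hThinj (by
      rw [map_mul, map_mul, thh_emb, thh_emb, huv]))
    refine ⟨thh P t, mem_RR.mpr ⟨t, rfl⟩, ?_⟩
    rw [ht, map_mul, thh_emb]
  · intro h3 x hx y hy z hz hxyz
    have h3S : ∀ x y z : MvPolynomial ι ℂ, e' * x = a' * y + b' * z →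
        ∃ u v, x = a' * u + b' * v := by
      intro x y z hxyz
      obtain ⟨u, v, huv⟩ := h3 (th0 P x) (th0 P y) (th0 P z) (by
        rw [← map_mul, ← map_mul, ← map_mul, ← map_add, hxyz])
      have h4 : th0 P x = th0 P a' * avg c I u + th0 P b' * avg c I v := by
        rw [← avg_mul c I ((hinv _).mp ha), ← avg_mul c I ((hinv _).mp hb), ← avg_add, ← huv,
          avg_self c I ((hinv _).mp (mem_S.mpr ⟨x, rfl⟩))]
      obtain ⟨u', hu'⟩ := mem_S.mp ((hinv _).mpr (avg_inv c I u))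
      obtain ⟨v', hv'⟩ := mem_S.mp ((hinv _).mpr (avg_inv c I v))
      refine ⟨u', v', hthinj ?_⟩
      rw [h4, ← hu', ← hv', map_add, map_mul, map_mul]
    obtain ⟨x', rfl⟩ := mem_RR.mp hx
    obtain ⟨y', rfl⟩ := mem_RR.mp hy
    obtain ⟨z', rfl⟩ := mem_RR.mp hz
    obtain ⟨u, v, huv⟩ := L2 h3S x' y' z' (hThinj (by
      rw [map_mul, map_add, map_mul, map_mul, thh_emb, thh_emb, thh_emb, hxyz]))
    refine ⟨thh P u, mem_RR.mpr ⟨u, rfl⟩, thh P v, mem_RR.mpr ⟨v, rfl⟩, ?_⟩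
    rw [huv, map_add, map_mul, map_mul, thh_emb, thh_emb]

end Pool.Agent.H391.SK.P_RRG
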