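import Pool.Agent.H391.SK.StF

/-!
# Project SK (helper391), task SK-SPW: specialisation and weights (helper353), after helper225 (A0)
-/

set_option autoImplicit false

namespace Pool.Agent.H391.SK.P_SPW

open MvPolynomial

section

variable {ι A : Type} [CommRing A]

/-- the weight function -/
abbrev wf (ι : Type) : ι × ℕ → ℕ := fun p => p.2 + 1

/-- weight of a polynomial -/
abbrev Wh (f : Fk ι A) (d : ℕ) : Prop := IsWeightedHomogeneous (wf ι) f d

/-- the coefficient of `w ^ k` has weight `d - k` -/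
def Gr (p : Polynomial (Fk ι A)) (d : ℕ) : Prop :=
  ∀ k, (∀ e, e + k = d → Wh (p.coeff k) e) ∧ (d < k → p.coeff k = 0)

lemma wt_zero (d : ℕ) : Wh (0 : Fk ι A) d := isWeightedHomogeneous_zero A _ d

lemma wt_congr {f : Fk ι A} {d e : ℕ} (h : Wh f d) (he : d = e) : Wh f e := he ▸ h

lemma gr_zero (d : ℕ) : Gr (0 : Polynomial (Fk ι A)) d := fun k =>
  ⟨fun e _ => by rw [Polynomial.coeff_zero]; exact wt_zero e, fun _ => Polynomial.coeff_zero k⟩

lemma gr_add {p q : Polynomial (Fk ι A)} {d : ℕ} (hp : Gr p d) (hq : Gr q d) : Gr (p + q) d := by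
  intro k
  refine ⟨fun e he => ?_, fun h => ?_⟩
  · rw [Polynomial.coeff_add]
    exact ((hp k).1 e he).add ((hq k).1 e he)
  · rw [Polynomial.coeff_add, (hp k).2 h, (hq k).2 h, add_zero]

lemma gr_mul {p q : Polynomial (Fk ι A)} {d d' : ℕ} (hp : Gr p d) (hq : Gr q d') :
    Gr (p * q) (d + d') := by
  intro k
  refine ⟨fun e he => ?_, fun h => ?_⟩
  · rw [Polynomial.coeff_mul]
    refine IsWeightedHomogeneous.sum _ _ _ fun x hx => ?_
    rw [Finset.HasAntidiagonal.mem_antidiagonal] at hx
    by_cases h1 : d < x.1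
    · rw [(hp x.1).2 h1, zero_mul]
      exact wt_zero e
    by_cases h2 : d' < x.2
    · rw [(hq x.2).2 h2, mul_zero]
      exact wt_zero e
    refine wt_congr (((hp x.1).1 (d - x.1) (by omega)).mul ((hq x.2).1 (d' - x.2) (by omega))) ?_
    omega
  · rw [Polynomial.coeff_mul]
    refine Finset.sum_eq_zero fun x hx => ?_
    rw [Finset.HasAntidiagonal.mem_antidiagonal] at hx
    by_cases h1 : d < x.1
    · rw [(hp x.1).2 h1, zero_mul]
    · rw [(hq x.2).2 (by omega), mul_zero]

lemma gr_C {f : Fk ι A} {d : ℕ} (h : Wh f d) : Gr (Polynomial.C f) d := by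
  intro k
  refine ⟨fun e he => ?_, fun hk => ?_⟩
  · rw [Polynomial.coeff_C]
    split_ifs with h0
    · exact wt_congr h (by omega)
    · exact wt_zero e
  · rw [Polynomial.coeff_C, if_neg (by omega)]

lemma gr_one : Gr (1 : Polynomial (Fk ι A)) 0 := by
  have h := gr_C (isWeightedHomogeneous_one A (wf ι))
  rwa [Polynomial.C_1] at h

lemma gr_pow {p : Polynomial (Fk ι A)} {d : ℕ} (hp : Gr p d) (n : ℕ) : Gr (p ^ n) (n * d) := by
  induction n with
  | zero => rw [pow_zero, zero_mul]; exact gr_one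
  | succ n ih => rw [pow_succ, Nat.succ_mul]; exact gr_mul ih hp

lemma gr_prod {κ : Type} (s : Finset κ) (p : κ → Polynomial (Fk ι A)) (d : κ → ℕ)
    (h : ∀ i ∈ s, Gr (p i) (d i)) : Gr (∏ i ∈ s, p i) (∑ i ∈ s, d i) := by
  classical
  induction s using Finset.induction_on with
  | empty => rw [Finset.prod_empty, Finset.sum_empty]; exact gr_one
  | insert a s ha ih =>
    rw [Finset.prod_insert ha, Finset.sum_insert ha]
    exact gr_mul (h a (Finset.mem_insert_self a s))
      (ih fun i hi => h i (Finset.mem_insert_of_mem hi))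

lemma gr_var (μ : A) (p : ι × ℕ) : Gr (Polynomial.C (X p : Fk ι A) -
    Polynomial.C (MvPolynomial.C μ) * Polynomial.X ^ (p.2 + 1)) (p.2 + 1) := by
  have h1 : Gr (Polynomial.C (X p : Fk ι A)) (p.2 + 1) := gr_C (isWeightedHomogeneous_X A _ p)
  have h2 : Gr (Polynomial.C (MvPolynomial.C (-μ) : Fk ι A) * Polynomial.X ^ (p.2 + 1))
      (p.2 + 1) := by
    intro k
    rw [Polynomial.coeff_C_mul, Polynomial.coeff_X_pow]
    refine ⟨fun e he => ?_, fun hk => ?_⟩
    · split_ifs with h0
      · rw [mul_one]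
        exact wt_congr (isWeightedHomogeneous_C _ _) (by omega)
      · rw [mul_zero]
        exact wt_zero e
    · rw [if_neg (by omega), mul_zero]
  have h3 := gr_add h1 h2
  have e : Polynomial.C (X p : Fk ι A) -
      Polynomial.C (MvPolynomial.C μ) * Polynomial.X ^ (p.2 + 1) =
      Polynomial.C (X p : Fk ι A) +
        Polynomial.C (MvPolynomial.C (-μ) : Fk ι A) * Polynomial.X ^ (p.2 + 1) := by
    rw [map_neg, map_neg]
    ring
  rw [e]
  exact h3

end

section

variable {ι A : Type} [CommRing A] [Algebra ℂ A]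

omit [Algebra ℂ A] in
lemma gr_shf (c : Matrix ι ι ℤ) (ν : A) (i : ι) {f : Fk ι A} {d : ℕ} (hf : Wh f d) :
    Gr (shf c ν i f) d := by
  induction hf using IsWeightedHomogeneous.induction_on with
  | zero => rw [map_zero]; exact gr_zero d
  | add p q hp hq h1 h2 => rw [map_add]; exact gr_add h1 h2
  | monomial s r hs =>
    unfold shf
    rw [aeval_monomial]
    have h1 : Gr (algebraMap A (Polynomial (Fk ι A)) r) 0 :=
      gr_C (isWeightedHomogeneous_C (wf ι) r)
    have h2 := gr_prod s.support (fun p => (Polynomial.C (X p : Fk ι A) -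
      Polynomial.C (MvPolynomial.C (ν * ((c i p.1 : ℤ) : A))) * Polynomial.X ^ (p.2 + 1)) ^ s p)
      (fun p => s p * (p.2 + 1)) fun p _ => gr_pow (gr_var _ p) (s p)
    have h3 := gr_mul h1 h2
    rw [Finsupp.weight_apply] at hs
    have h4 : (0 + ∑ p ∈ s.support, s p * (p.2 + 1)) = d := by
      rw [zero_add, ← hs]
      rfl
    rw [h4] at h3
    exact h3

lemma wt_smul (c : ℂ) {f : Fk ι A} {d : ℕ} (h : Wh f d) : Wh (c • f) d := by
  have e : c • f = C (algebraMap ℂ A c) * f := by
    rw [Algebra.smul_def]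
    rfl
  rw [e]
  exact h.C_mul _

lemma wt_hs (x : ℕ → Fk ι A) (hx : ∀ n, Wh (x n) (n + 1)) (k : ℕ) : Wh (hs x k) k := by
  induction k using Nat.strong_induction_on with
  | _ k ih =>
    cases k with
    | zero => rw [hs]; exact isWeightedHomogeneous_one A _
    | succ m =>
      rw [hs]
      refine wt_smul _ (IsWeightedHomogeneous.sum _ _ _ fun i _ => ?_)
      exact wt_congr ((hx i).mul (ih (m - i) (by omega))) (by omega)

lemma Scr_apply (c : Matrix ι ι ℤ) (ν : A) (i : ι) (f : Fk ι A) : Scr c ν i f =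
    (shf c ν i f).sum (fun k g => hz (fun n => (X (i, n) : Fk ι A)) ((k : ℤ) + (-1)) * g) := by
  unfold Scr Sj
  rw [LinearMap.comp_apply, Polynomial.lsum_apply]
  rfl

lemma Scr_wt (c : Matrix ι ι ℤ) (ν : A) (i : ι) {N : ℕ} {f : Fk ι A} (hf : Wh f (N + 1)) :
    Wh (Scr c ν i f) N := by
  rw [Scr_apply, Polynomial.sum]
  have hG := gr_shf c ν i hf
  refine IsWeightedHomogeneous.sum _ _ _ fun k hk => ?_
  have hkd : ¬ N + 1 < k := fun h => (Polynomial.mem_support_iff.1 hk) ((hG k).2 h)
  unfold hz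
  split_ifs with h0
  · have h1 := (wt_hs (fun n => (X (i, n) : Fk ι A)) (fun n => isWeightedHomogeneous_X A _ (i, n))
      ((k : ℤ) + (-1)).toNat).mul ((hG k).1 (N + 1 - k) (by omega))
    exact wt_congr h1 (by omega)
  · rw [zero_mul]
    exact wt_zero N

lemma Scr_C (c : Matrix ι ι ℤ) (ν : A) (i : ι) (a : A) : Scr c ν i (C a) = 0 := by
  rw [Scr_apply]
  have h : shf c ν i (C a) = Polynomial.C (C a) := by
    unfold shf
    rw [aeval_C]
    rfl
  rw [h, Polynomial.sum_C_index]
  · unfold hz
    rw [if_neg (by norm_num), zero_mul]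
  · rw [mul_zero]

lemma weight_zero {s : (ι × ℕ) →₀ ℕ} (h : Finsupp.weight (wf ι) s = 0) : s = 0 := by
  rw [Finsupp.weight_apply, Finsupp.sum, Finset.sum_eq_zero_iff] at h
  ext p
  by_contra hne
  have h1 := h p (Finsupp.mem_support_iff.2 hne)
  simp only [smul_eq_mul, mul_eq_zero] at h1
  rcases h1 with h1 | h1
  · exact hne h1
  · exact absurd h1 (Nat.succ_ne_zero _)

lemma comm (c : Matrix ι ι ℤ) (ν : A) (i : ι) (N : ℕ) (f : Fk ι A) :
    weightedHomogeneousComponent (wf ι) N (Scr c ν i f) =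
      Scr c ν i (weightedHomogeneousComponent (wf ι) (N + 1) f) := by
  classical
  induction f using MvPolynomial.induction_on' with
  | add p q hp hq => simp only [map_add, hp, hq]
  | monomial s a =>
    rcases hw : Finsupp.weight (wf ι) s with _ | M
    · have h0 := weight_zero hw
      subst h0
      have h1 : (monomial 0 a : Fk ι A) = C a := rfl
      rw [h1, Scr_C, map_zero]
      have h2 : weightedHomogeneousComponent (wf ι) (N + 1) (C a : Fk ι A) = 0 := by
        rw [weightedHomogeneousComponent_of_mem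
          ((mem_weightedHomogeneousSubmodule _ _ _ _).2 (isWeightedHomogeneous_C (wf ι) a)),
          if_neg (by omega)]
      rw [h2, map_zero]
    · have h1 : Wh (monomial s a : Fk ι A) (M + 1) := isWeightedHomogeneous_monomial _ _ _ hw
      rw [weightedHomogeneousComponent_of_mem ((mem_weightedHomogeneousSubmodule _ _ _ _).2 h1),
        weightedHomogeneousComponent_of_mem
          ((mem_weightedHomogeneousSubmodule _ _ _ _).2 (Scr_wt c ν i h1))]
      by_cases h : N = M
      · subst h
        rw [if_pos rfl, if_pos rfl]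
      · rw [if_neg h, if_neg (by omega), map_zero]

lemma mem_KerS {c : Matrix ι ι ℤ} {ν : A} {I : Set ι} {f : Fk ι A} :
    f ∈ KerS c ν I ↔ ∀ i ∈ I, Scr c ν i f = 0 := by
  simp [KerS]

lemma comp_mem (c : Matrix ι ι ℤ) (ν : A) (I : Set ι) (N : ℕ) (f : Fk ι A)
    (hf : f ∈ KerS c ν I) : weightedHomogeneousComponent (wf ι) N f ∈ KerS c ν I := by
  classical
  rw [mem_KerS] at hf ⊢
  intro i hi
  rcases N with _ | N
  · have h1 : ∃ a, weightedHomogeneousComponent (wf ι) 0 f = C a := by
      have h2 := weightedHomogeneousComponent_isWeightedHomogeneous (w := wf ι) 0 f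
      refine ⟨coeff 0 (weightedHomogeneousComponent (wf ι) 0 f), ?_⟩
      ext s
      rw [coeff_C]
      split_ifs with h3
      · rw [← h3]
      · by_contra h4
        exact h3 (weight_zero (h2 h4)).symm
    obtain ⟨a, ha⟩ := h1
    rw [ha, Scr_C]
  · rw [← comm, hf i hi, map_zero]

end

/-! ### Specialisation -/

section spec

variable {ι : Type}

lemma spe_smul (a : ℂ) (r : ℂ) (f : Fk ι (Polynomial ℂ)) : spe a (r • f) = r • spe a f := by
  have h1 : r • f = C (Polynomial.C r) * f := by
    rw [Algebra.smul_def]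
    rfl
  have h2 : r • spe a f = C r * spe a f := by
    rw [Algebra.smul_def]
    rfl
  rw [h1, h2, map_mul]
  congr 1
  simp [spe]

lemma spe_hs (a : ℂ) (x : ℕ → Fk ι (Polynomial ℂ)) (k : ℕ) :
    spe a (hs x k) = hs (fun n => spe a (x n)) k := by
  induction k using Nat.strong_induction_on with
  | _ k ih =>
    cases k with
    | zero => rw [hs, hs, map_one]
    | succ m =>
      rw [hs, hs, spe_smul, map_sum]
      congr 1
      apply Finset.sum_congr rfl
      intro i _
      rw [map_mul, ih (m - i) (by omega)]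

lemma spe_X (a : ℂ) (p : ι × ℕ) : spe a (X p) = X p := by simp [spe]

lemma spe_hz (a : ℂ) (i : ι) (m : ℤ) :
    spe a (hz (fun n => (X (i, n) : Fk ι (Polynomial ℂ))) m) =
      hz (fun n => (X (i, n) : Fk ι ℂ)) m := by
  unfold hz
  split_ifs with h
  · rw [spe_hs]
    simp only [spe_X]
  · rw [map_zero]

lemma spe_shf (c : Matrix ι ι ℤ) (a : ℂ) (i : ι) (F : Fk ι (Polynomial ℂ)) :
    shf c a i (spe a F) = (shf c (Polynomial.X : Polynomial ℂ) i F).map (spe a) := by
  induction F using MvPolynomial.induction_on with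
  | C r =>
    have h1 : spe a (C r : Fk ι (Polynomial ℂ)) = C (r.eval a) := by simp [spe]
    have h2 : shf c (Polynomial.X : Polynomial ℂ) i (C r) = Polynomial.C (C r) := by
      unfold shf
      rw [aeval_C]
      rfl
    have h3 : shf c a i (C (r.eval a)) = Polynomial.C (C (r.eval a)) := by
      unfold shf
      rw [aeval_C]
      rfl
    rw [h1, h2, h3, Polynomial.map_C, h1]
  | add p q hp hq => rw [map_add, map_add, hp, hq, map_add, Polynomial.map_add]
  | mul_X p n hp =>
    rw [map_mul, map_mul, hp, map_mul, Polynomial.map_mul]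
    congr 1
    rw [spe_X]
    unfold shf
    rw [aeval_X, aeval_X, Polynomial.map_sub, Polynomial.map_mul, Polynomial.map_C,
      Polynomial.map_C, Polynomial.map_pow, Polynomial.map_X, spe_X]
    congr 3
    simp [spe]

lemma spe_Scr (c : Matrix ι ι ℤ) (a : ℂ) (i : ι) (F : Fk ι (Polynomial ℂ)) :
    spe a (Scr c (Polynomial.X : Polynomial ℂ) i F) = Scr c a i (spe a F) := by
  rw [Scr_apply, Scr_apply, spe_shf]
  set p := shf c (Polynomial.X : Polynomial ℂ) i F
  rw [Polynomial.sum_over_range' p (fun n => by rw [mul_zero]) (p.natDegree + 1) (by omega),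
    Polynomial.sum_over_range' (p.map (spe a)) (fun n => by rw [mul_zero]) (p.natDegree + 1)
      (by have := Polynomial.natDegree_map_le (f := spe a) (p := p); omega), map_sum]
  apply Finset.sum_congr rfl
  intro k _
  rw [map_mul, spe_hz, Polynomial.coeff_map]

end spec

lemma fin {ι : Type} [Fintype ι] (N : ℕ) :
    {m : (ι × ℕ) →₀ ℕ | Finsupp.weight (wf ι) m = N}.Finite := by
  classical
  let F : (ι × ℕ) →₀ ℕ := Finsupp.onFinset (Finset.univ ×ˢ Finset.range N)
    (fun p => if p.2 < N then N else 0) (by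
      intro p hp
      rw [Finset.mem_product]
      refine ⟨Finset.mem_univ _, Finset.mem_range.2 ?_⟩
      by_contra h
      exact hp (if_neg h))
  apply (Set.finite_Iic F).subset
  intro m hm
  rw [Set.mem_Iic]
  intro p
  have hm' : Finsupp.weight (wf ι) m = N := hm
  rw [Finsupp.weight_apply, Finsupp.sum] at hm'
  show m p ≤ if p.2 < N then N else 0
  by_cases h0 : m p = 0
  · rw [h0]; exact Nat.zero_le _
  · have h1 : m p * (p.2 + 1) ≤ N := by
      rw [← hm']
      exact Finset.single_le_sum (f := fun p => m p • (wf ι p)) (fun _ _ => Nat.zero_le _)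
        (Finsupp.mem_support_iff.2 h0)
    have h2 : 1 ≤ m p := Nat.one_le_iff_ne_zero.2 h0
    have h3 : p.2 < N := by nlinarith
    rw [if_pos h3]
    nlinarith

theorem main : S_SPW := by
  intro ι _ _ c
  refine ⟨fun a i F => spe_Scr c a i F, ?_, ?_, ?_, fun N => fin N⟩
  · intro A _ _ ν i N f hf
    exact (mem_weightedHomogeneousSubmodule _ _ _ _).2
      (Scr_wt c ν i ((mem_weightedHomogeneousSubmodule _ _ _ _).1 hf))
  · intro A _ _ ν i a
    exact Scr_C c ν i a
  · intro A _ _ ν I N f hf
    exact comp_mem c ν I N f hf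

end Pool.Agent.H391.SK.P_SPW
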