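import Pool.Agent.H391.SK.StE

/-!
# Project SK: STEP (helper289)
-/

namespace Pool.Agent.H391.SK.P_STEP

open MvPolynomial Pool.Agent.H391.SK

variable {ι : Type} [Fintype ι] [DecidableEq ι]

omit [DecidableEq ι] in
theorem sr_conj {c : Matrix ι ι ℤ} {g : (ι → ℤ) ≃ₗ[ℤ] (ι → ℤ)}
    (hg : ∀ v w, form c (g v) (g w) = form c v w) (β v : ι → ℤ) :
    sr c (g β) (g v) = g (sr c β v) := by
  simp only [sr_apply, hg, map_sub, map_smul]

theorem al_mem_PR {c : Matrix ι ι ℤ} (hc : IsADE c) {I : Set ι} {i : ι} (hi : i ∈ I) :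
    al i ∈ PR c I := by
  refine ⟨hc.form_al i, ?_, ?_⟩
  · intro k
    unfold al
    rw [Pi.single_apply]
    split_ifs <;> norm_num
  · intro k hk
    unfold al
    rw [Pi.single_apply, if_neg]
    rintro rfl
    exact hk hi

omit [DecidableEq ι] in
theorem PR_mono {c : Matrix ι ι ℤ} {I J : Set ι} (h : I ⊆ J) : PR c I ⊆ PR c J :=
  fun _ hβ => ⟨hβ.1, hβ.2.1, fun k hk => hβ.2.2 k fun hk' => hk (h hk')⟩

/-- facts from ROOT for one Cartan matrix -/
structure RF (c : Matrix ι ι ℤ) : Prop where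
  pos : ∀ v : ι → ℤ, v ≠ 0 → 2 ≤ form c v v
  fin : ∀ I : Set ι, (PR c I).Finite
  wfin : ∀ I : Set ι, Finite (Wg c I)
  refl : ∀ I : Set ι, ∀ i ∈ I, ∀ β ∈ PR c I, β ≠ al i → sr c (al i) β ∈ PR c I
  sign : ∀ I : Set ι, ∀ g ∈ Wg c I, ∀ β ∈ PR c I, g β ∈ PR c I ∨ -(g β) ∈ PR c I
  orb : ∀ I : Set ι, ∀ β ∈ PR c I, ∃ g ∈ Wg c I, ∃ i ∈ I, g (al i) = β

theorem rf_of (hR : S_ROOT) {c : Matrix ι ι ℤ} (hc : IsADE c) : RF c := by
  obtain ⟨h1, h2, h3, _, h5, h6, h7, _⟩ := hR ι c hc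
  exact ⟨h1, h2, h3, h5, h6, h7⟩

theorem neg_al_not {c : Matrix ι ι ℤ} {I : Set ι} (i : ι) : -(al i) ∉ PR c I := by
  intro h
  have h1 := h.2.1 i
  rw [Pi.neg_apply, al, Pi.single_eq_same] at h1
  omega

/-- the complement is stable under the reflections of `J` -/
theorem refl_compl {c : Matrix ι ι ℤ} (hc : IsADE c) (R : RF c) {J : Set ι} {i : ι} (hi : i ∈ J)
    {β : ι → ℤ} (hβ : β ∈ PR c Set.univ \ PR c J) :
    sr c (al i) β ∈ PR c Set.univ \ PR c J := by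
  have hne : β ≠ al i := by
    rintro rfl
    exact hβ.2 (al_mem_PR hc hi)
  refine ⟨R.refl Set.univ i (Set.mem_univ i) β hβ.1 hne, ?_⟩
  intro h
  by_cases h1 : sr c (al i) β = al i
  · have h2 : β = sr c (al i) (al i) := by
      rw [← sr_sr (hc.form_al i) β, h1]
    have h3 : sr c (al i) (al i) = -(al i) := by
      rw [sr_apply, hc.form_al, two_smul]
      abel
    rw [h3] at h2
    rw [h2] at hβ
    exact neg_al_not i hβ.1
  · have h2 := R.refl J i hi _ h h1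
    rw [sr_sr (hc.form_al i)] at h2
    exact hβ.2 h2

theorem Jc_eq {c : Matrix ι ι ℤ} (R : RF c) (J : Set ι) :
    Jc c Set.univ J = ∏ β ∈ ((R.fin Set.univ).subset
      (Set.sdiff_subset : PR c Set.univ \ PR c J ⊆ PR c Set.univ)).toFinset, lin0 β := by
  unfold Jc
  exact finprod_mem_eq_finite_toFinset_prod _ _

theorem Jc_inv {c : Matrix ι ι ℤ} (hc : IsADE c) (R : RF c) {J : Set ι} {i : ι} (hi : i ∈ J) :
    act0 (sr c (al i)) (Jc c Set.univ J) = Jc c Set.univ J := by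
  rw [Jc_eq R J, map_prod]
  refine Finset.prod_nbij' (fun β => sr c (al i) β) (fun β => sr c (al i) β) ?_ ?_ ?_ ?_ ?_
  · intro β hβ
    rw [Set.Finite.mem_toFinset] at hβ ⊢
    exact refl_compl hc R hi hβ
  · intro β hβ
    rw [Set.Finite.mem_toFinset] at hβ ⊢
    exact refl_compl hc R hi hβ
  · intro β _
    exact sr_sr (hc.form_al i) β
  · intro β _
    exact sr_sr (hc.form_al i) β
  · intro β _
    exact act0_lin0 _ β

theorem dvd_Jc {c : Matrix ι ι ℤ} (R : RF c) {J : Set ι} {β : ι → ℤ}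
    (hβ : β ∈ PR c Set.univ \ PR c J) : lin0 β ∣ Jc c Set.univ J := by
  rw [Jc_eq R J]
  exact Finset.dvd_prod_of_mem _ ((Set.Finite.mem_toFinset _).2 hβ)

/-- the transform under an element of the group -/
noncomputable abbrev ac (w : (ι → ℤ) ≃ₗ[ℤ] (ι → ℤ)) (f : Fk ι ℂ) : Fk ι ℂ :=
  act (w : (ι → ℤ) →ₗ[ℤ] (ι → ℤ)) f

theorem step_term (hQP : S_QP) (hLEN : S_LEN) (hR : S_ROOT) (hEQ : S_EQ) {c : Matrix ι ι ℤ}
    (hc : IsADE c) {N : ℕ} {f : ι → Fk ι ℂ} (hF : Fam c N f) (J : Set ι) {fJ : Fk ι ℂ}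
    (h1 : ∀ i ∈ J, act (sr c (al i)) fJ = fJ) (h2 : ∀ i ∈ J, fJ - f i ∈ B c (al i))
    (h3 : JW N fJ) (k : ι) {w : (ι → ℤ) ≃ₗ[ℤ] (ι → ℤ)} (hw : w ∈ Wg c Set.univ) :
    (ac w (emb (Jc c Set.univ J ^ (2 * N))) * (f k - ac w fJ)) +
      act (sr c (al k)) (ac w (emb (Jc c Set.univ J ^ (2 * N))) * (f k - ac w fJ)) ∈
        B c (al k) := by
  have R := rf_of hR hc
  have hP : ∀ v ∈ Wg c J, act0 ((v : (ι → ℤ) ≃ₗ[ℤ] (ι → ℤ)) : (ι → ℤ) →ₗ[ℤ] (ι → ℤ))
      (Jc c Set.univ J ^ (2 * N)) = Jc c Set.univ J ^ (2 * N) := by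
    apply (act0_inv_iff hc J _).1
    intro i hi
    rw [map_pow, Jc_inv hc R hi]
  have hfJ : ∀ v ∈ Wg c J, act ((v : (ι → ℤ) ≃ₗ[ℤ] (ι → ℤ)) : (ι → ℤ) →ₗ[ℤ] (ι → ℤ)) fJ = fJ :=
    (act_inv_iff hc J fJ).1 h1
  have hwi : w⁻¹ ∈ Wg c Set.univ := (Wg c Set.univ).inv_mem hw
  have hww : ∀ x, w (w⁻¹ x) = x := fun x => w.apply_symm_apply x
  by_cases hcase : w⁻¹ (al k) ∈ PR c J ∨ -(w⁻¹ (al k)) ∈ PR c J
  · -- case (a)
    have ha : ∃ v ∈ Wg c J, ∃ i ∈ J, w (v (al i)) = al k := by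
      rcases hcase with h | h
      · obtain ⟨v, hv, i, hi, hvi⟩ := R.orb J _ h
        exact ⟨v, hv, i, hi, by rw [hvi, hww]⟩
      · obtain ⟨v, hv, i, hi, hvi⟩ := R.orb J _ h
        refine ⟨v * sre (hc.form_al i), (Wg c J).mul_mem hv (sre_mem_Wg hc hi), i, hi, ?_⟩
        have h4 : (v * sre (hc.form_al i)) (al i) = -(v (al i)) := by
          show v (sr c (al i) (al i)) = _
          rw [← map_neg]
          congr 1
          rw [sr_apply, hc.form_al, two_smul]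
          abel
        rw [h4, hvi, neg_neg, hww]
    obtain ⟨v, hv, i, hi, hwv⟩ := ha
    have hvu : v ∈ Wg c Set.univ := Wg_mono (Set.subset_univ J) hv
    have hwvu : w * v ∈ Wg c Set.univ := (Wg c Set.univ).mul_mem hw hvu
    have hwv' : (w * v) (al i) = al k := hwv
    have e1 := hEQ hR hLEN ι c hc N f hF (w * v) hwvu i k hwv'
    have e2 := act_Wg_mem_B hc hwvu (h2 i hi)
    rw [hwv', map_sub, act_mul w v fJ, hfJ v hv] at e2
    have e3 : f k - ac w fJ ∈ B c (al k) := by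
      have h5 := Subalgebra.neg_mem _ (Subalgebra.add_mem _ e1 e2)
      have h6 : f k - ac w fJ = -(act ((w * v : (ι → ℤ) ≃ₗ[ℤ] (ι → ℤ)) : (ι → ℤ) →ₗ[ℤ] (ι → ℤ))
          (f i) - f k + (act (w : (ι → ℤ) →ₗ[ℤ] (ι → ℤ)) fJ -
          act ((w * v : (ι → ℤ) ≃ₗ[ℤ] (ι → ℤ)) : (ι → ℤ) →ₗ[ℤ] (ι → ℤ)) (f i))) := by
        show f k - act (w : (ι → ℤ) →ₗ[ℤ] (ι → ℤ)) fJ = _
        ring
      rw [h6]
      exact h5
    -- invariance of `w P`
    have hcomp : sr c (al k) ∘ₗ (w : (ι → ℤ) →ₗ[ℤ] (ι → ℤ)) =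
        ((w * (v * sre (hc.form_al i) * v⁻¹) : (ι → ℤ) ≃ₗ[ℤ] (ι → ℤ)) :
          (ι → ℤ) →ₗ[ℤ] (ι → ℤ)) := by
      refine LinearMap.ext fun x => ?_
      show sr c (al k) (w x) = w (v (sr c (al i) (v⁻¹ x)))
      have h7 := sr_conj (c := c) (g := w * v) (fun a b => form_Wg hc hwvu a b) (al i) (v⁻¹ x)
      rw [hwv'] at h7
      have h8 : (w * v) (v⁻¹ x) = w x := by
        show w (v (v⁻¹ x)) = w x
        congr 1
        exact v.apply_symm_apply x
      rw [h8] at h7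
      exact h7
    have hmem : v * sre (hc.form_al i) * v⁻¹ ∈ Wg c J :=
      (Wg c J).mul_mem ((Wg c J).mul_mem hv (sre_mem_Wg hc hi)) ((Wg c J).inv_mem hv)
    have e4 : ac w (emb (Jc c Set.univ J ^ (2 * N))) ∈ B c (al k) := by
      have h9 : act (sr c (al k)) (ac w (emb (Jc c Set.univ J ^ (2 * N)))) =
          ac w (emb (Jc c Set.univ J ^ (2 * N))) := by
        show act (sr c (al k)) (act (w : (ι → ℤ) →ₗ[ℤ] (ι → ℤ)) _) = act (w : (ι → ℤ) →ₗ[ℤ] (ι → ℤ)) _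
        rw [← act_comp, hcomp, act_mul, act_emb, hP _ hmem]
      have h10 : JW 0 (ac w (emb (Jc c Set.univ J ^ (2 * N)))) := JW_act _ (JW_emb _)
      have h11 := hQP ι c hc k 0 _ h9 h10
      rwa [Nat.mul_zero, pow_zero, one_mul] at h11
    have e5 := Subalgebra.mul_mem _ e4 e3
    rw [B_inv (hc.form_al k) e5]
    exact Subalgebra.add_mem _ e5 e5
  · -- case (b)
    rw [not_or] at hcase
    have hb : ∃ β : ι → ℤ, β ∈ PR c Set.univ \ PR c J ∧ (w β = al k ∨ w β = -(al k)) := by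
      rcases R.sign Set.univ _ hwi (al k) (al_mem_PR hc (Set.mem_univ k)) with h | h
      · exact ⟨_, ⟨h, hcase.1⟩, Or.inl (hww _)⟩
      · refine ⟨_, ⟨h, hcase.2⟩, Or.inr ?_⟩
        rw [map_neg, hww]
    obtain ⟨β, hβ, hwβ⟩ := hb
    obtain ⟨Q, hQ⟩ := dvd_Jc R hβ
    have e1 : ac w (emb (Jc c Set.univ J ^ (2 * N))) =
        lin (al k) 0 ^ (2 * N) * emb (act0 (w : (ι → ℤ) →ₗ[ℤ] (ι → ℤ)) Q ^ (2 * N)) := by
      show act (w : (ι → ℤ) →ₗ[ℤ] (ι → ℤ)) _ = _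
      rw [act_emb, hQ, mul_pow, map_mul, map_pow, map_pow, act0_lin0, map_mul, map_pow]
      congr 1
      show emb (lin0 (w β)) ^ (2 * N) = _
      rw [emb_lin0]
      rcases hwβ with h | h
      · rw [h]
      · rw [h, lin_neg, pow_mul, neg_sq, ← pow_mul]
    set U : Fk ι ℂ := emb (act0 (w : (ι → ℤ) →ₗ[ℤ] (ι → ℤ)) Q ^ (2 * N)) * (f k - ac w fJ) with hU
    have hJU : JW N U := by
      have h5 := JW_mul (JW_emb (act0 (w : (ι → ℤ) →ₗ[ℤ] (ι → ℤ)) Q ^ (2 * N)))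
        (JW_sub (hF.1 k).2 (JW_act (w : (ι → ℤ) →ₗ[ℤ] (ι → ℤ)) h3))
      rw [Nat.zero_add] at h5
      exact h5
    have e2 : ac w (emb (Jc c Set.univ J ^ (2 * N))) * (f k - ac w fJ) =
        lin (al k) 0 ^ (2 * N) * U := by
      rw [e1, hU, mul_assoc]
    have e3 : act (sr c (al k)) (lin (al k) 0 ^ (2 * N) * U) =
        lin (al k) 0 ^ (2 * N) * act (sr c (al k)) U := by
      rw [map_mul, map_pow, act_lin]
      have h5 : sr c (al k) (al k) = -(al k) := by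
        rw [sr_apply, hc.form_al, two_smul]
        abel
      rw [h5, lin_neg, pow_mul, neg_sq, ← pow_mul]
    rw [e2, e3, ← mul_add]
    apply hQP ι c hc k N
    · rw [map_add, act_sr_sr (hc.form_al k), add_comm]
    · exact JW_add hJU (JW_act _ hJU)

theorem step_main (hQP : S_QP) (hLEN : S_LEN) (hR : S_ROOT) (hEQ : S_EQ) {c : Matrix ι ι ℤ}
    (hc : IsADE c) {N : ℕ} {f : ι → Fk ι ℂ} (hF : Fam c N f) (J : Set ι) {fJ : Fk ι ℂ}
    (h1 : ∀ i ∈ J, act (sr c (al i)) fJ = fJ) (h2 : ∀ i ∈ J, fJ - f i ∈ B c (al i))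
    (h3 : JW N fJ) : ∃ g : Fk ι ℂ, ∀ k, emb (th c Set.univ J N) * f k - g ∈ B c (al k) := by
  classical
  have R := rf_of hR hc
  have hfin := R.wfin Set.univ
  let _ : Fintype (Wg c Set.univ) := Fintype.ofFinite _
  refine ⟨∑ w : Wg c Set.univ, ac w.1 (emb (Jc c Set.univ J ^ (2 * N)) * fJ), ?_⟩
  intro k
  let T : Wg c Set.univ → Fk ι ℂ := fun w =>
    ac w.1 (emb (Jc c Set.univ J ^ (2 * N))) * (f k - ac w.1 fJ)
  have e1 : emb (th c Set.univ J N) * f k -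
      ∑ w : Wg c Set.univ, ac w.1 (emb (Jc c Set.univ J ^ (2 * N)) * fJ) = ∑ w, T w := by
    have h4 : th c Set.univ J N = ∑ w : Wg c Set.univ,
        act0 ((w : (ι → ℤ) ≃ₗ[ℤ] (ι → ℤ)) : (ι → ℤ) →ₗ[ℤ] (ι → ℤ)) (Jc c Set.univ J ^ (2 * N)) := by
      unfold th
      exact finsum_eq_sum_of_fintype _
    rw [h4, map_sum, Finset.sum_mul, ← Finset.sum_sub_distrib]
    refine Finset.sum_congr rfl fun w _ => ?_
    show emb (act0 _ _) * f k - act _ (_ * fJ) = act _ (emb _) * (f k - act _ fJ)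
    rw [map_mul, act_emb]
    ring
  let s : Wg c Set.univ := ⟨sre (hc.form_al k), sre_mem_Wg hc (Set.mem_univ k)⟩
  have e2 : ∀ w : Wg c Set.univ, T (s * w) = act (sr c (al k)) (T w) := by
    intro w
    show ac (sre (hc.form_al k) * w.1) _ * (f k - ac (sre (hc.form_al k) * w.1) fJ) =
      act (sr c (al k)) (ac w.1 _ * (f k - ac w.1 fJ))
    have h5 : ∀ x, ac (sre (hc.form_al k) * w.1) x = act (sr c (al k)) (ac w.1 x) :=
      fun x => act_mul _ _ x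
    rw [h5, h5, map_mul, map_sub, (hF.1 k).1]
  have e3 : ∑ w, T (s * w) = ∑ w, T w := Equiv.sum_comp (Equiv.mulLeft s) T
  have e4 : ∑ w, T w = (2 : ℂ)⁻¹ • ∑ w, (T w + act (sr c (al k)) (T w)) := by
    rw [Finset.sum_add_distrib]
    have h6 : ∑ w, act (sr c (al k)) (T w) = ∑ w, T w := by
      rw [← e3]
      exact Finset.sum_congr rfl fun w _ => (e2 w).symm
    rw [h6, ← two_smul ℂ, smul_smul, inv_mul_cancel₀ two_ne_zero, one_smul]
  rw [e1, e4]
  apply Subalgebra.smul_mem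
  apply Subalgebra.sum_mem
  intro w _
  exact step_term hQP hLEN hR hEQ hc hF J h1 h2 h3 k w.2

theorem main (hLEN : S_LEN) : S_STEP := by
  intro hR hQP hEQ ι _ _ c hc N f hF J hJ
  have key : ∃ fJ : Fk ι ℂ, (∀ i ∈ J, act (sr c (al i)) fJ = fJ) ∧
      (∀ i ∈ J, fJ - f i ∈ B c (al i)) ∧ JW N fJ := by
    rcases Nat.lt_or_ge J.card 2 with h | h
    · rcases Nat.eq_zero_or_pos J.card with h0 | h0
      · rw [Finset.card_eq_zero] at h0
        subst h0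
        exact ⟨0, by simp, by simp, JW_zero N⟩
      · have h1 : J.card = 1 := by omega
        rw [Finset.card_eq_one] at h1
        obtain ⟨i, rfl⟩ := h1
        refine ⟨f i, ?_, ?_, (hF.1 i).2⟩
        · intro j hj
          rw [Finset.mem_singleton] at hj
          subst hj
          exact (hF.1 j).1
        · intro j hj
          rw [Finset.mem_singleton] at hj
          subst hj
          rw [sub_self]
          exact Subalgebra.zero_mem _
    · have h2 : J.card = 2 := by omega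
      rw [Finset.card_eq_two] at h2
      obtain ⟨i, j, _, rfl⟩ := h2
      obtain ⟨g, g1, g2, g3, g4, g5⟩ := hF.2 i j
      refine ⟨g, ?_, ?_, g3⟩
      · intro l hl
        rw [Finset.mem_insert, Finset.mem_singleton] at hl
        rcases hl with rfl | rfl
        · exact g1
        · exact g2
      · intro l hl
        rw [Finset.mem_insert, Finset.mem_singleton] at hl
        rcases hl with rfl | rfl
        · exact g4
        · exact g5
  obtain ⟨fJ, k1, k2, k3⟩ := key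
  exact step_main hQP hLEN hR hEQ hc hF (J : Set ι) (fun i hi => k1 i hi) (fun i hi => k2 i hi) k3

end Pool.Agent.H391.SK.P_STEP
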