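import Pool.Agent.H391.SK.StG
import Pool.Agent.H391.SK.AsmC

/-!
# Project SK: the symbols of the common kernel (task SYM)
-/

set_option autoImplicit false

namespace Pool.Agent.H391.SK.P_SYM

open MvPolynomial

variable {ι : Type} [Fintype ι] [DecidableEq ι]

theorem D_C (n : ℕ) (a : ℂ) : D n (C a : Fk ι ℂ) = if n = 0 then C a else 0 := by
  have : (C a : Fk ι ℂ) = C a * 1 := by rw [mul_one]
  rw [this, D_C_mul, D_one]
  split_ifs <;> simp

theorem D_zero' (n : ℕ) : D n (0 : Fk ι ℂ) = 0 := by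
  simp [D]

theorem D_one_mul (f g : Fk ι ℂ) : D 1 (f * g) = D 1 f * g + f * D 1 g := by
  rw [D_mul, Finset.Nat.sum_antidiagonal_succ]
  simp only [Finset.Nat.antidiagonal_zero, Finset.sum_singleton, D_zero_idx]
  ring

/-- `D 1` is the derivation and `D n = (D 1) ^ n / n!` -/
theorem D_one_D (f : Fk ι ℂ) : ∀ n, D 1 (D n f) = C ((n : ℂ) + 1) * D (n + 1) f := by
  induction f using MvPolynomial.induction_on with
  | C a =>
    intro n
    rw [D_C, D_C, if_neg (Nat.succ_ne_zero n), mul_zero]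
    split_ifs
    · rw [D_C, if_neg one_ne_zero]
    · rw [D_zero']
  | add p q hp hq =>
    intro n
    rw [D_add, D_add, D_add, hp, hq, mul_add]
  | mul_X p i hp =>
    intro n
    obtain ⟨k, m⟩ := i
    have hX : ∀ n, D 1 (D n (X (k, m) : Fk ι ℂ)) = C ((n : ℂ) + 1) * D (n + 1) (X (k, m)) := by
      intro n
      rw [D_X, D_X, D_C_mul, D_X, ← mul_assoc, ← mul_assoc, ← C_mul, ← C_mul, add_assoc]
      congr 2
      have h1 : (m + n).choose n * (m + n + 1).choose 1 =
          (n + 1) * (m + (n + 1)).choose (n + 1) := by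
        rw [Nat.choose_one_right, ← add_assoc m n 1, mul_comm (n + 1), mul_comm]
        exact Nat.add_one_mul_choose_eq (m + n) n
      exact_mod_cast h1
    rw [D_mul, D_sum]
    have e1 : ∀ x ∈ Finset.HasAntidiagonal.antidiagonal n,
        D 1 (D x.1 p * D x.2 (X (k, m))) =
        C ((x.1 : ℂ) + 1) * D (x.1 + 1) p * D x.2 (X (k, m)) +
          D x.1 p * (C ((x.2 : ℂ) + 1) * D (x.2 + 1) (X (k, m))) := by
      intro x _
      rw [D_one_mul, hp, hX]
    rw [Finset.sum_congr rfl e1, Finset.sum_add_distrib, D_mul, Finset.mul_sum]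
    have e2 : ∀ x ∈ Finset.HasAntidiagonal.antidiagonal (n + 1),
        C ((n : ℂ) + 1) * (D x.1 p * D x.2 (X (k, m) : Fk ι ℂ)) =
        C (x.1 : ℂ) * D x.1 p * D x.2 (X (k, m)) + D x.1 p * (C (x.2 : ℂ) * D x.2 (X (k, m))) := by
      intro x hx
      have h1 : x.1 + x.2 = n + 1 := Finset.HasAntidiagonal.mem_antidiagonal.1 hx
      have h2 : ((n : ℂ) + 1) = (x.1 : ℂ) + (x.2 : ℂ) := by exact_mod_cast h1.symm
      rw [h2, C_add]
      ring
    rw [Finset.sum_congr rfl e2, Finset.sum_add_distrib]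
    congr 1
    · rw [Finset.Nat.sum_antidiagonal_succ]
      simp
    · rw [Finset.Nat.sum_antidiagonal_succ']
      simp

/-- `B β` is stable under `D 1` -/
theorem D_one_mem_B {c : Matrix ι ι ℤ} {β : ι → ℤ} {f : Fk ι ℂ} (hf : f ∈ B c β) :
    D 1 f ∈ B c β := by
  unfold B at hf
  induction hf using Algebra.adjoin_induction with
  | mem x hx =>
    rcases hx with ⟨n, rfl⟩ | ⟨v, n, hv, rfl⟩
    · rw [D_one_D, ← smul_eq_C_mul]
      exact Subalgebra.smul_mem _ (sq_mem_B c β _) _
    · rw [D_lin, ← smul_eq_C_mul]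
      exact Subalgebra.smul_mem _ (lin_mem_B hv _) _
  | algebraMap r =>
    have : algebraMap ℂ (Fk ι ℂ) r = C r := rfl
    rw [this, D_C, if_neg one_ne_zero]
    exact Subalgebra.zero_mem _
  | add x y _ _ hx hy => rw [D_add]; exact Subalgebra.add_mem _ hx hy
  | mul x y hx' hy' hx hy =>
    rw [D_one_mul]
    exact Subalgebra.add_mem _ (Subalgebra.mul_mem _ hx hy') (Subalgebra.mul_mem _ hx' hy)

/-- `B β` is stable under all `D n` -/
theorem D_mem_B {c : Matrix ι ι ℤ} {β : ι → ℤ} {f : Fk ι ℂ} (hf : f ∈ B c β) (n : ℕ) :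
    D n f ∈ B c β := by
  induction n with
  | zero => rw [D_zero_idx]; exact hf
  | succ n ih =>
    have h1 := D_one_mem_B ih
    rw [D_one_D, ← smul_eq_C_mul] at h1
    have h2 : ((n : ℂ) + 1) ≠ 0 := Nat.cast_add_one_ne_zero n
    have h3 := Subalgebra.smul_mem (B c β) h1 ((n : ℂ) + 1)⁻¹
    rwa [smul_smul, inv_mul_cancel₀ h2, one_smul] at h3

theorem main : S_SYMimp := by
  intro hR1 hALL hQP hE1 ι _ _ c hc P hP p d hp x hx
  constructor
  · intro hxR
    have hemb : ∀ (j i : ι), emb (P j) ∈ B c (al i) := by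
      intro j i
      have h1 : act0 (sr c (al i)) (P j) = P j :=
        (hP (P j)).1 (Algebra.subset_adjoin (Set.mem_range_self j)) i (Finset.mem_univ i)
      have h2 := hQP ι c hc i 0 (emb (P j)) (by rw [act_emb, h1]) (JW_emb (P j))
      simpa using h2
    have hB : ∀ i, x ∈ B c (al i) := by
      intro i
      have hle : RR P ≤ B c (al i) := by
        refine Algebra.adjoin_le ?_
        rintro _ ⟨j, n, rfl⟩
        exact D_mem_B (hemb j i) n
      exact hle hxR
    exact (hALL ι c hc p hp d x hx hB).2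
  · rintro ⟨a, ha, had, rfl⟩
    refine (hE1 ι c hc Finset.univ P hP).2 _ fun i _ => ?_
    exact hR1 ι c hc p hp i d a (mem_KerS.mp ha i (Set.mem_univ i)) had

end Pool.Agent.H391.SK.P_SYM
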