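import Pool.Agent.H391.SK.StD

/-!
# Project SK: the sums `th` are invariant (task TH)
-/

set_option autoImplicit false

namespace Pool.Agent.H391.SK.P_TH

open MvPolynomial

variable {ι : Type} [Fintype ι] [DecidableEq ι] {c : Matrix ι ι ℤ}

omit [DecidableEq ι] in
theorem PR_empty (c : Matrix ι ι ℤ) : PR c (∅ : Set ι) = ∅ := by
  rw [Set.eq_empty_iff_forall_notMem]
  rintro β ⟨h1, -, h3⟩
  have h0 : β = 0 := funext fun k => h3 k (Set.notMem_empty k)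
  rw [h0] at h1
  simp [form] at h1

theorem al_mem (hc : IsADE c) {I : Set ι} {i : ι} (hi : i ∈ I) : al i ∈ PR c I := by
  refine ⟨hc.form_al i, fun k => ?_, fun k hk => ?_⟩
  · by_cases h : k = i
    · subst h; simp [al]
    · simp [al, h]
  · have h : k ≠ i := fun h => hk (h ▸ hi)
    simp [al, h]

theorem sr_al (hc : IsADE c) (i : ι) : sr c (al i) (al i) = - al i := by
  rw [sr_apply, hc.form_al i]
  module

/-- the simple reflection changes the sign of the product of the positive roots -/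
theorem Jc_sr (hc : IsADE c) {I : Set ι} (hfin : (PR c I).Finite)
    (h5 : ∀ i ∈ I, ∀ β ∈ PR c I, β ≠ al i → sr c (al i) β ∈ PR c I) {i : ι} (hi : i ∈ I) :
    act0 (sr c (al i)) (Jc c I ∅) = - Jc c I ∅ := by
  have e : Jc c I ∅ = ∏ β ∈ hfin.toFinset, lin0 β := by
    unfold Jc
    rw [PR_empty, Set.sdiff_empty]
    exact finprod_mem_eq_finite_toFinset_prod _ hfin
  have hmem : al i ∈ hfin.toFinset := hfin.mem_toFinset.2 (al_mem hc hi)
  rw [e, map_prod, ← Finset.mul_prod_erase _ _ hmem, ← Finset.mul_prod_erase _ _ hmem,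
    act0_lin0, sr_al hc, lin0_neg, neg_mul]
  congr 2
  have key : ∀ β ∈ hfin.toFinset.erase (al i), sr c (al i) β ∈ hfin.toFinset.erase (al i) := by
    intro β hβ
    rw [Finset.mem_erase, hfin.mem_toFinset] at hβ ⊢
    refine ⟨?_, h5 i hi β hβ.2 hβ.1⟩
    intro h
    have h1 : β = - al i := by
      rw [← sr_sr (hc.form_al i) β, h, sr_al hc]
    have h2 := hβ.2.2.1 i
    rw [h1] at h2
    simp [al] at h2
  refine Finset.prod_nbij' (fun β => sr c (al i) β) (fun β => sr c (al i) β) key key ?_ ?_ ?_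
  · intro β _
    exact sr_sr (hc.form_al i) β
  · intro β _
    exact sr_sr (hc.form_al i) β
  · intro β _
    rw [act0_lin0]

theorem main : S_TH := by
  intro hR ι _ _ c hc I J N
  obtain ⟨-, h2, h3, -, h5, -⟩ := hR ι c hc
  have : Finite (Wg c I) := h3 I
  let _ : Fintype (Wg c I) := Fintype.ofFinite _
  have hth : ∀ J, th c I J N = ∑ w : Wg c I,
      act0 ((w : (ι → ℤ) ≃ₗ[ℤ] (ι → ℤ)) : (ι → ℤ) →ₗ[ℤ] (ι → ℤ)) (Jc c I J ^ (2 * N)) := by
    intro J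
    unfold th
    exact finsum_eq_sum_of_fintype _
  refine ⟨?_, ?_⟩
  · intro i hi
    rw [hth, map_sum]
    let g : Wg c I := ⟨sre (hc.form_al i), sre_mem_Wg hc hi⟩
    have hcomp := Equiv.sum_comp (Equiv.mulLeft g) (fun w : Wg c I =>
      act0 ((w : (ι → ℤ) ≃ₗ[ℤ] (ι → ℤ)) : (ι → ℤ) →ₗ[ℤ] (ι → ℤ)) (Jc c I J ^ (2 * N)))
    refine Eq.trans ?_ hcomp
    refine Finset.sum_congr rfl fun w _ => ?_
    have h6 : ((Equiv.mulLeft g w : Wg c I) : (ι → ℤ) ≃ₗ[ℤ] (ι → ℤ)) =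
        sre (hc.form_al i) * (w : (ι → ℤ) ≃ₗ[ℤ] (ι → ℤ)) := rfl
    rw [h6, act0_mul, act0_sre]
  · refine ⟨Fintype.card (Wg c I), Fintype.card_ne_zero, ?_⟩
    rw [hth]
    have hinv : ∀ g ∈ Wg c I, act0 ((g : (ι → ℤ) ≃ₗ[ℤ] (ι → ℤ)) : (ι → ℤ) →ₗ[ℤ] (ι → ℤ))
        (Jc c I ∅ ^ (2 * N)) = Jc c I ∅ ^ (2 * N) := by
      rw [← act0_inv_iff hc]
      intro i hi
      rw [map_pow, Jc_sr hc (h2 I) (h5 I) hi, pow_mul, neg_sq, ← pow_mul]
    have hsum : ∀ w : Wg c I, act0 ((w : (ι → ℤ) ≃ₗ[ℤ] (ι → ℤ)) : (ι → ℤ) →ₗ[ℤ] (ι → ℤ))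
        (Jc c I ∅ ^ (2 * N)) = Jc c I ∅ ^ (2 * N) := fun w => hinv _ (SetLike.coe_mem w)
    rw [Finset.sum_congr rfl fun w _ => hsum w, Finset.sum_const, Finset.card_univ,
      nsmul_eq_mul]
    simp

end Pool.Agent.H391.SK.P_TH
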