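import Pool.Agent.H391.SK.StD

set_option autoImplicit false

namespace Pool.Agent.H391.SK.P_TOR

open MvPolynomial

section
variable {K : Type*} [Field K]

/-- the coefficients of a square root of a power series -/
noncomputable def sq (s : K) (x : ℕ → K) : ℕ → K
  | 0 => s
  | n + 1 => (x (n + 1) - ∑ i : Fin n, sq s x (i + 1) * sq s x (n - i)) / (2 * s)

theorem sq_spec (s : K) (x : ℕ → K) (hs : s ≠ 0) (h2 : (2 : K) ≠ 0) (h0 : s * s = x 0) (n : ℕ) :
    ∑ p ∈ Finset.HasAntidiagonal.antidiagonal n, sq s x p.1 * sq s x p.2 = x n := by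
  rw [Finset.Nat.sum_antidiagonal_eq_sum_range_succ_mk]
  cases n with
  | zero => simp [sq, h0]
  | succ n =>
    rw [Finset.sum_range_succ, Finset.sum_range_succ']
    have e1 : ∑ i ∈ Finset.range n, sq s x (i + 1) * sq s x (n + 1 - (i + 1)) =
        ∑ i : Fin n, sq s x (i + 1) * sq s x (n - i) := by
      rw [Finset.sum_range]
      refine Finset.sum_congr rfl fun i _ => ?_
      rw [Nat.add_sub_add_right]
    have e2 : sq s x (n + 1) =
        (x (n + 1) - ∑ i : Fin n, sq s x (i + 1) * sq s x (n - i)) / (2 * s) := by rw [sq]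
    have e3 : sq s x 0 = s := by rw [sq]
    simp only [Nat.sub_self, Nat.sub_zero] at *
    rw [e1, e3, e2]
    field_simp
    ring

end

variable {ι : Type} [Fintype ι] [DecidableEq ι]

/-- the generators -/
noncomputable def ph (c : Matrix ι ι ℤ) (k : ι) (p : ι × ℕ) : Fk ι ℂ :=
  if p.1 = k then D p.2 (lin (al k) 0 ^ 2) else lin ((2 : ℤ) • al p.1 - c p.1 k • al k) p.2

/-- the homomorphism -/
noncomputable def Ph (c : Matrix ι ι ℤ) (k : ι) : Fk ι ℂ →ₐ[ℂ] Fk ι ℂ := aeval (ph c k)

theorem Ph_inj (c : Matrix ι ι ℤ) (k : ι) : Function.Injective (Ph c k) := by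
  let K := AlgebraicClosure (FractionRing (Fk ι ℂ))
  let am : Fk ι ℂ →ₐ[ℂ] K := IsScalarTower.toAlgHom ℂ (Fk ι ℂ) K
  have ham : Function.Injective am := by
    have h1 : Function.Injective (algebraMap (Fk ι ℂ) K) := by
      rw [IsScalarTower.algebraMap_eq (Fk ι ℂ) (FractionRing (Fk ι ℂ)) K]
      exact (algebraMap (FractionRing (Fk ι ℂ)) K).injective.comp
        (IsFractionRing.injective (Fk ι ℂ) (FractionRing (Fk ι ℂ)))
    exact h1
  obtain ⟨s, hs⟩ := IsAlgClosed.exists_pow_nat_eq (am (X (k, 0))) (n := 2) (by norm_num)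
  have hx0 : am (X (k, 0)) ≠ 0 := by
    intro h
    have := ham (h.trans (map_zero am).symm)
    exact X_ne_zero _ this
  have hs0 : s ≠ 0 := by
    intro h; rw [h] at hs; apply hx0; rw [← hs]; simp
  have h2 : (2 : K) ≠ 0 := by
    have : (2 : K) = am (C 2) := by
      rw [show (C (2 : ℂ) : Fk ι ℂ) = 2 from map_ofNat C 2, map_ofNat]
    rw [this]
    intro h
    have := ham (h.trans (map_zero am).symm)
    rw [C_eq_zero] at this
    norm_num at this
  set a : ℕ → K := sq s (fun n => am (X (k, n))) with ha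
  have ha' : ∀ n, ∑ p ∈ Finset.HasAntidiagonal.antidiagonal n, a p.1 * a p.2 = am (X (k, n)) :=
    fun n => sq_spec s (fun n => am (X (k, n))) hs0 h2 (by rw [← hs]; ring) n
  let La : Fk ι ℂ →ₐ[ℂ] K := aeval fun p => if p.1 = k then a p.2 else
    (am (X p) + ((c p.1 k : ℤ) : K) * a p.2) / 2
  have hLk : ∀ n, La (X (k, n)) = a n := by intro n; simp [La]
  have hLlin : ∀ (v : ι → ℤ) n, La (lin v n) = ∑ j, ((v j : ℤ) : K) * La (X (j, n)) := by
    intro v n
    rw [lin, map_sum]
    refine Finset.sum_congr rfl fun j _ => ?_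
    rw [map_mul]
    congr 1
    rw [show (C ((v j : ℤ) : ℂ) : Fk ι ℂ) = ((v j : ℤ) : Fk ι ℂ) by simp, map_intCast]
  have key : La.comp (Ph c k) = am := by
    refine algHom_ext fun p => ?_
    obtain ⟨j, n⟩ := p
    rw [AlgHom.comp_apply, Ph, aeval_X, ph]
    by_cases h : j = k
    · subst h
      rw [if_pos rfl]
      simp only
      rw [D_sq, map_sum, ← ha' n]
      refine Finset.sum_congr rfl fun p _ => ?_
      rw [map_mul, lin_al, lin_al, hLk, hLk]
    · rw [if_neg h]
      simp only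
      rw [lin_sub, lin_smul, lin_smul, lin_al, lin_al, map_sub, map_mul, map_mul, hLk]
      have e1 : La (C ((2 : ℤ) : ℂ)) = 2 := by
        rw [show ((2 : ℤ) : ℂ) = 2 by norm_num, show (C (2 : ℂ) : Fk ι ℂ) = 2 from map_ofNat C 2,
          map_ofNat]
      have e2 : La (C ((c j k : ℤ) : ℂ)) = ((c j k : ℤ) : K) := by
        rw [show (C ((c j k : ℤ) : ℂ) : Fk ι ℂ) = ((c j k : ℤ) : Fk ι ℂ) by simp, map_intCast]
      have e3 : La (X (j, n)) = (am (X (j, n)) + ((c j k : ℤ) : K) * a n) / 2 := by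
        simp [La, h]
      rw [e1, e2, e3, mul_comm (2 : K), div_mul_cancel₀ _ h2, add_sub_cancel_right]
  have hinj : Function.Injective (La.comp (Ph c k)) := by rw [key]; exact ham
  intro x y hxy
  apply hinj
  rw [AlgHom.comp_apply, AlgHom.comp_apply, hxy]

theorem Ph_range {c : Matrix ι ι ℤ} (hc : IsADE c) (k : ι) : (Ph c k).range = B c (al k) := by
  rw [Ph, ← Algebra.adjoin_range_eq_range_aeval]
  apply le_antisymm
  · refine Algebra.adjoin_le ?_
    rintro _ ⟨⟨j, n⟩, rfl⟩
    unfold ph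
    simp only
    split_ifs with h
    · exact sq_mem_B c _ n
    · refine lin_mem_B ?_ n
      rw [form_sub_left, form_smul_left, form_smul_left, form_al_al, form_al_al, hc.diag]
      ring
  · refine Algebra.adjoin_le ?_
    rintro f (⟨n, rfl⟩ | ⟨v, n, hv, rfl⟩)
    · refine Algebra.subset_adjoin ⟨(k, n), ?_⟩
      simp [ph]
    · set S := Algebra.adjoin ℂ (Set.range (ph c k)) with hS
      have e1 : lin ((2 : ℤ) • v) n =
          ∑ j, C ((v j : ℤ) : ℂ) * lin ((2 : ℤ) • al j - c j k • al k) n := by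
        rw [← lin_sum]
        congr 1
        have h1 : ∑ j, v j • ((2 : ℤ) • al j - c j k • al k) =
            (2 : ℤ) • v - (∑ j, v j * c j k) • al k := by
          conv_rhs => rw [eq_sum_al v]
          simp only [smul_sub, Finset.sum_sub_distrib]
          congr 1
          · rw [Finset.smul_sum]
            refine Finset.sum_congr rfl fun j _ => ?_
            rw [smul_comm]
          · rw [Finset.sum_smul]
            refine Finset.sum_congr rfl fun j _ => ?_
            rw [smul_smul]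
            congr 2
            simp [al, Pi.single_apply]
        rw [h1, ← form_al_right, hv, zero_smul, sub_zero]
      have h2 : lin ((2 : ℤ) • v) n ∈ S := by
        rw [e1]
        refine Subalgebra.sum_mem _ fun j _ => Subalgebra.mul_mem _ ?_ ?_
        · exact Subalgebra.algebraMap_mem S ((v j : ℤ) : ℂ)
        · by_cases h : j = k
          · subst h
            rw [hc.diag, sub_self, lin_zero]
            exact Subalgebra.zero_mem _
          · refine Algebra.subset_adjoin ⟨(j, n), ?_⟩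
            simp [ph, h]
      have h3 : lin v n = (2⁻¹ : ℂ) • lin ((2 : ℤ) • v) n := by
        rw [lin_smul, smul_eq_C_mul, ← mul_assoc, ← C_mul]
        norm_num
      rw [SetLike.mem_coe, h3]
      exact Subalgebra.smul_mem _ h2 _

theorem main : S_TOR := by
  intro hQP ι _ _ c hc k b u hb hdvd hbu
  have hal := hc.form_al k
  have hb0 : b ≠ 0 := fun h => hdvd (h ▸ dvd_zero _)
  have heb0 : emb b ≠ 0 := by
    intro h
    exact hb0 (emb_injective (h.trans (map_zero _).symm))
  -- invariance of `u`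
  have hu : act (sr c (al k)) u = u := by
    have h1 := B_inv hal hbu
    rw [map_mul, act_emb, hb] at h1
    exact mul_left_cancel₀ heb0 h1
  obtain ⟨N, hN⟩ := exists_JW u
  have hv := hQP ι c hc k N u hu hN
  have hbB := hQP ι c hc k 0 (emb b) (by rw [act_emb, hb]) (JW_emb b)
  rw [mul_zero, pow_zero, one_mul] at hbB
  rw [← Ph_range hc k] at hbu hv hbB ⊢
  obtain ⟨w', hw'⟩ := hbu
  obtain ⟨v', hv'⟩ := hv
  obtain ⟨b', hb'⟩ := hbB
  have hw1 : Ph c k w' = emb b * u := hw'
  have hv1 : Ph c k v' = lin (al k) 0 ^ (2 * N) * u := hv'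
  have hb1 : Ph c k b' = emb b := hb'
  have hX : Ph c k (X (k, 0)) = lin (al k) 0 ^ 2 := by
    rw [Ph, aeval_X, ph, if_pos rfl, D_zero_idx]
  have h1 : b' * v' = X (k, 0) ^ N * w' := by
    apply Ph_inj c k
    rw [map_mul, map_mul, map_pow, hw1, hv1, hb1, hX, ← pow_mul]
    ring
  have hp : Prime (X (k, 0) : Fk ι ℂ) := X_prime
  have h2 : ¬ (X (k, 0) : Fk ι ℂ) ∣ b' := by
    rintro ⟨d, rfl⟩
    rw [map_mul, hX, lin_al] at hb1
    apply hdvd
    -- retraction
    let ret : Fk ι ℂ →ₐ[ℂ] MvPolynomial ι ℂ := aeval fun p => if p.2 = 0 then X p.1 else 0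
    have hre : ∀ f, ret (emb f) = f := by
      intro f
      have : ret.comp emb = AlgHom.id ℂ (MvPolynomial ι ℂ) := by
        refine algHom_ext fun j => ?_
        rw [AlgHom.comp_apply, emb_X, aeval_X]
        simp
      exact DFunLike.congr_fun this f
    have h3 := congrArg ret hb1
    rw [hre, map_mul, map_pow] at h3
    have h4 : ret (X (k, 0)) = X k := by rw [aeval_X]; simp
    rw [h4] at h3
    rw [← h3]
    exact ⟨X k * ret (Ph c k d), by ring⟩
  have h3 : (X (k, 0) : Fk ι ℂ) ^ N ∣ v' := by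
    have h4 : (X (k, 0) : Fk ι ℂ) ^ N ∣ b' * v' := ⟨w', h1⟩
    exact hp.pow_dvd_of_dvd_mul_left N h2 h4
  obtain ⟨u', hu'⟩ := h3
  refine ⟨u', ?_⟩
  have h5 : lin (al k) 0 ^ (2 * N) * Ph c k u' = lin (al k) 0 ^ (2 * N) * u := by
    rw [← hv1, hu', map_mul, map_pow, hX, ← pow_mul]
  have h6 : (lin (al k) 0 ^ (2 * N) : Fk ι ℂ) ≠ 0 := by
    rw [lin_al]; exact pow_ne_zero _ (X_ne_zero _)
  exact mul_left_cancel₀ h6 h5

end Pool.Agent.H391.SK.P_TOR
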