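import Pool.Agent.H391.SK.StB
import Pool.Graph.R_seed8.W688.VO.Fin
import Pool.Graph.R_seed8.W933.VO.Int
import Pool.Graph.R_seed8.W688.VO.Prd
import Pool.Graph.R_seed8.W395.VO.Sym
import Pool.Graph.R_seed8.W369.VO.Dong
import Pool.Graph.R_seed8.W85.VO.Cov
import Pool.Graph.R_seed8.W179.VO.CRE
import Pool.Graph.R_seed8.W155.VO.Recon

/-!
# Project SK: VA, the vertex algebra generated by the fields `hop`, `Eop`
-/

set_option linter.unusedSectionVars false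
set_option linter.unusedSimpArgs false

namespace Pool.Agent.H391.SK.P_VA

open MvPolynomial
open Pool.Agent.W345.VO (bc trm Loc Cov Cre FL)

/-- The reconstruction theorem of the library. -/
theorem hREC : Pool.Agent.W345.VO.S_REC := by
  have hFIN : Pool.Agent.W345.VO.S_FIN := Pool.Agent.W688.VO.fin
  have hPAS : Pool.Agent.W345.VO.S_PAS := Pool.Agent.W688.VO.pas
  have hDong : Pool.Agent.W345.VO.S_DONG :=
    Pool.Agent.W369.VO.dong hFIN hPAS Pool.Agent.W395.VO.sym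
  have hINT : Pool.Agent.W345.VO.S_INT := Pool.Agent.W933.VO.int hPAS
  have hPRD : Pool.Agent.W345.VO.S_PRD := Pool.Agent.W688.VO.prd hFIN
  have hLAD : Pool.Agent.W345.VO.S_LAD := Pool.Agent.W688.VO.lad hFIN
  exact Pool.Agent.W155.VO.Recon.recon hFIN hPAS hINT hPRD Pool.Agent.W395.VO.sym hLAD hDong
    (Pool.Agent.W85.VO.cov hFIN) Pool.Agent.W179.VO.cre Pool.Agent.W179.VO.god

section general

variable {V : Type} [AddCommGroup V] [Module ℂ V]

theorem bc_nat (n i : ℕ) : bc (n : ℤ) i = (Nat.choose n i : ℂ) := by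
  have h1 : Ring.choose ((n : ℕ) : ℤ) i = ((Nat.choose n i : ℕ) : ℤ) := Ring.choose_natCast n i
  unfold Pool.Agent.W345.VO.bc
  rw [h1]
  simp

theorem RR_nat (a b : ℤ → Module.End ℂ V) (N : ℕ) (p q : ℤ) (v : V) :
    Pool.Agent.W345.VO.RR a b (N : ℤ) p q v = ∑ i ∈ Finset.range (N + 1), trm a b (N : ℤ) p q v i := by
  unfold Pool.Agent.W345.VO.RR
  apply finsum_eq_sum_of_support_subset
  intro i hi
  rw [Function.mem_support] at hi
  by_contra hc
  apply hi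
  unfold Pool.Agent.W345.VO.trm
  have h3 : N < i := by
    simp only [Finset.coe_range, Set.mem_Iio, not_lt] at hc
    omega
  rw [bc_nat, Nat.choose_eq_zero_of_lt h3]
  simp

theorem loc_zero (a b : ℤ → Module.End ℂ V) (h : ∀ (m n : ℤ) (v : V), a m (b n v) = b n (a m v)) :
    Loc a b := by
  refine ⟨0, fun p q v => ?_⟩
  rw [RR_nat, Finset.sum_range_one]
  unfold Pool.Agent.W345.VO.trm
  rw [bc_nat]
  simp [h]

theorem loc_one (a b : ℤ → Module.End ℂ V) (F : ℤ → V → V)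
    (h : ∀ (m n : ℤ) (v : V), a m (b n v) - b n (a m v) = F (m + n) v) : Loc a b := by
  refine ⟨1, fun p q v => ?_⟩
  rw [RR_nat, Finset.sum_range_succ, Finset.sum_range_one]
  unfold Pool.Agent.W345.VO.trm
  rw [bc_nat, bc_nat]
  have h1 := h (p + 1) q v
  have h2 := h p (q + 1) v
  have h3 : p + 1 + q = p + (q + 1) := by ring
  rw [h3] at h1
  have h4 := h1.trans h2.symm
  have e1 : p + ((1 : ℕ) : ℤ) - ((0 : ℕ) : ℤ) = p + 1 := by simp
  have e2 : q + ((0 : ℕ) : ℤ) = q := by simp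
  have e3 : q + ((1 : ℕ) : ℤ) - ((0 : ℕ) : ℤ) = q + 1 := by simp
  have e4 : p + ((0 : ℕ) : ℤ) = p := by simp
  have e5 : p + ((1 : ℕ) : ℤ) - ((1 : ℕ) : ℤ) = p := by simp
  have e6 : q + ((1 : ℕ) : ℤ) = q + 1 := by simp
  have e7 : q + ((1 : ℕ) : ℤ) - ((1 : ℕ) : ℤ) = q := by simp
  have e8 : p + ((1 : ℕ) : ℤ) = p + 1 := by simp
  rw [e1, e2, e3, e4, e5, e7, e6, e8]
  have s : ((-1 : ℂ) ^ (((1 : ℕ) : ℤ))) = -1 := by norm_num
  rw [s]
  have c0 : Nat.choose 1 0 = 1 := rfl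
  have c1 : Nat.choose 1 1 = 1 := rfl
  rw [c0, c1]
  have h5 : a (p + 1) (b q v) = b q (a (p + 1) v) + (a p (b (q + 1) v) - b (q + 1) (a p v)) := by
    rw [← h4]; abel
  rw [h5]
  simp only [pow_zero, Nat.cast_one, mul_one, one_smul, pow_one, neg_smul]
  abel

theorem loc_two (a b : ℤ → Module.End ℂ V) (κ : ℂ)
    (h : ∀ (m n : ℤ) (v : V), a m (b n v) - b n (a m v) =
      (if m + n = 0 then (m : ℂ) * κ else 0) • v) : Loc a b := by
  refine ⟨2, fun p q v => ?_⟩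
  rw [RR_nat, Finset.sum_range_succ, Finset.sum_range_succ, Finset.sum_range_one]
  unfold Pool.Agent.W345.VO.trm
  rw [bc_nat, bc_nat, bc_nat]
  have h1 := h (p + 2) q v
  have h2 := h (p + 1) (q + 1) v
  have h3 := h p (q + 2) v
  have e1 : p + ((2 : ℕ) : ℤ) - ((0 : ℕ) : ℤ) = p + 2 := by simp
  have e2 : q + ((0 : ℕ) : ℤ) = q := by simp
  have e3 : q + ((2 : ℕ) : ℤ) - ((0 : ℕ) : ℤ) = q + 2 := by simp
  have e4 : p + ((0 : ℕ) : ℤ) = p := by simp
  have e5 : p + ((2 : ℕ) : ℤ) - ((1 : ℕ) : ℤ) = p + 1 := by push_cast; ring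
  have e6 : q + ((1 : ℕ) : ℤ) = q + 1 := by simp
  have e7 : q + ((2 : ℕ) : ℤ) - ((1 : ℕ) : ℤ) = q + 1 := by push_cast; ring
  have e8 : p + ((1 : ℕ) : ℤ) = p + 1 := by simp
  have e9 : p + ((2 : ℕ) : ℤ) - ((2 : ℕ) : ℤ) = p := by push_cast; ring
  have e10 : q + ((2 : ℕ) : ℤ) = q + 2 := by simp
  have e11 : q + ((2 : ℕ) : ℤ) - ((2 : ℕ) : ℤ) = q := by push_cast; ring
  have e12 : p + ((2 : ℕ) : ℤ) = p + 2 := by simp
  rw [e1, e2, e3, e4, e5, e7, e6, e8, e9, e11, e10, e12]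
  have s : ((-1 : ℂ) ^ (((2 : ℕ) : ℤ))) = 1 := by norm_num
  rw [s]
  have c0 : Nat.choose 2 0 = 1 := rfl
  have c1 : Nat.choose 2 1 = 2 := rfl
  have c2 : Nat.choose 2 2 = 1 := rfl
  rw [c0, c1, c2, one_smul, one_smul, one_smul, h2]
  have f1 : p + 2 + q = p + q + 2 := by ring
  have f2 : p + 1 + (q + 1) = p + q + 2 := by ring
  have f3 : p + (q + 2) = p + q + 2 := by ring
  rw [f1] at h1
  rw [f2]
  rw [f3] at h3
  have g1 : a (p + 2) (b q v) = b q (a (p + 2) v) +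
      (if p + q + 2 = 0 then ((p + 2 : ℤ) : ℂ) * κ else 0) • v := by
    rw [← h1]; abel
  have g3 : a p (b (q + 2) v) = b (q + 2) (a p v) +
      (if p + q + 2 = 0 then (p : ℂ) * κ else 0) • v := by
    rw [← h3]; abel
  rw [g1, g3]
  by_cases hh : p + q + 2 = 0
  · rw [if_pos hh, if_pos hh, if_pos hh]
    push_cast
    module
  · rw [if_neg hh, if_neg hh, if_neg hh]
    module

end general

section model

variable {ι : Type} [Fintype ι] [DecidableEq ι]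

/-! ### Values on the vacuum -/

theorem Sj_one (c : Matrix ι ι ℤ) (ν : ℂ) (i : ι) (m : ℤ) :
    Sj c ν i m (1 : Fk ι ℂ) = hz (fun n => (X (i, n) : Fk ι ℂ)) m := by
  unfold Sj
  rw [LinearMap.comp_apply, AlgHom.toLinearMap_apply, map_one]
  have h1 : (1 : Polynomial (Fk ι ℂ)) = Polynomial.monomial 0 1 := rfl
  rw [h1, Polynomial.lsum_apply, Polynomial.sum_monomial_index]
  · simp
  · simp

theorem hz_neg {R : Type} [CommRing R] [Algebra ℂ R] (x : ℕ → R) (m : ℤ) (h : m < 0) :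
    hz x m = 0 := by
  unfold hz
  rw [if_neg (by omega)]

theorem hz_zero {R : Type} [CommRing R] [Algebra ℂ R] (x : ℕ → R) : hz x 0 = 1 := by
  unfold hz
  rw [if_pos le_rfl]
  show hs x 0 = 1
  rw [hs]

theorem Eop_apply (c : Matrix ι ι ℤ) (ν : ℂ) (i : ι) (n : ℤ) (v : VV ι) :
    Eop c ν i n v = (0, Pi.single i (Sj c ν i (-n - 1) v.1)) := rfl

theorem hop_apply (c : Matrix ι ι ℤ) (ν : ℂ) (j : ι) (n : ℤ) (v : VV ι) :
    hop c ν j n v =
      (hF c ν 0 j n v.1, fun i => hF c ν (ν * ((c j i : ℤ) : ℂ)) j n (v.2 i)) := rfl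

theorem hF_neg (c : Matrix ι ι ℤ) (ν q : ℂ) (j : ι) (l : ℕ) (f : Fk ι ℂ) :
    hF c ν q j (-(l : ℤ) - 1) f = X (j, l) * f := by
  unfold hF
  rw [if_pos (by omega)]
  have : (-(-(l : ℤ) - 1) - 1).toNat = l := by omega
  rw [this]
  rfl

theorem hF_zero (c : Matrix ι ι ℤ) (ν q : ℂ) (j : ι) (f : Fk ι ℂ) :
    hF c ν q j 0 f = q • f := by
  unfold hF
  rw [if_neg (by omega), if_pos rfl]
  rfl

theorem hF_pos (c : Matrix ι ι ℤ) (ν q : ℂ) (j : ι) (n : ℤ) (hn : 0 < n) (f : Fk ι ℂ) :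
    hF c ν q j n f = ∑ k, (ν * n * ((c j k : ℤ) : ℂ)) • pderiv (k, (n - 1).toNat) f := by
  unfold hF
  rw [if_neg (by omega), if_neg (by omega), LinearMap.sum_apply]
  rfl

theorem hF_big (c : Matrix ι ι ℤ) (ν : ℂ) (f : Fk ι ℂ) :
    ∃ N : ℤ, ∀ n, N ≤ n → ∀ (q : ℂ) (j : ι), hF c ν q j n f = 0 := by
  classical
  refine ⟨((f.vars.sup Prod.snd : ℕ) : ℤ) + 2, fun n hn q j => ?_⟩
  rw [hF_pos _ _ _ _ _ (by omega)]
  refine Finset.sum_eq_zero fun k _ => ?_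
  have : (k, (n - 1).toNat) ∉ f.vars := by
    intro hmem
    have := Finset.le_sup (f := Prod.snd) hmem
    simp only at this
    omega
  rw [pderiv_eq_zero_of_notMem_vars this, smul_zero]

theorem hop_mem_FL (c : Matrix ι ι ℤ) (ν : ℂ) (j : ι) : hop c ν j ∈ FL (VV ι) := by
  intro v
  obtain ⟨N0, hN0⟩ := hF_big c ν v.1
  choose N hN using fun i => hF_big c ν (v.2 i)
  have hbd : ∃ M : ℤ, N0 ≤ M ∧ ∀ i, N i ≤ M := by
    obtain ⟨M, hM⟩ := (Set.finite_range N).bddAbove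
    exact ⟨max N0 M, le_max_left _ _, fun i => le_trans (hM ⟨i, rfl⟩) (le_max_right _ _)⟩
  obtain ⟨M, hM0, hM⟩ := hbd
  refine ⟨M, fun n hn => ?_⟩
  rw [hop_apply, hN0 n (le_trans hM0 hn)]
  have : (fun i => hF c ν (ν * ((c j i : ℤ) : ℂ)) j n (v.2 i)) = 0 := by
    funext i
    exact hN i n (le_trans (hM i) hn) _ _
  rw [this]
  rfl

theorem Sj_low (c : Matrix ι ι ℤ) (ν : ℂ) (i : ι) (f : Fk ι ℂ) (m : ℤ)
    (hm : m + (shf c ν i f).natDegree < 0) : Sj c ν i m f = 0 := by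
  unfold Sj
  rw [LinearMap.comp_apply, AlgHom.toLinearMap_apply, Polynomial.lsum_apply]
  unfold Polynomial.sum
  refine Finset.sum_eq_zero fun k hk => ?_
  have hk' : k ≤ (shf c ν i f).natDegree := Polynomial.le_natDegree_of_mem_supp k hk
  have : hz (fun n => (X (i, n) : Fk ι ℂ)) ((k : ℤ) + m) = 0 := hz_neg _ _ (by omega)
  show hz (fun n => (X (i, n) : Fk ι ℂ)) ((k : ℤ) + m) * (shf c ν i f).coeff k = 0
  rw [this, zero_mul]

theorem Eop_mem_FL (c : Matrix ι ι ℤ) (ν : ℂ) (i : ι) : Eop c ν i ∈ FL (VV ι) := by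
  intro v
  refine ⟨((shf c ν i v.1).natDegree : ℤ), fun n hn => ?_⟩
  rw [Eop_apply, Sj_low c ν i v.1 (-n - 1) (by omega), Pi.single_zero]
  rfl

theorem hop_cre (c : Matrix ι ι ℤ) (ν : ℂ) (j : ι) : Cre ((1, 0) : VV ι) (hop c ν j) := by
  intro n hn
  rw [hop_apply]
  have h1 : hF c ν 0 j n (1 : Fk ι ℂ) = 0 := by
    rcases hn.eq_or_lt with h | h
    · rw [← h, hF_zero, zero_smul]
    · rw [hF_pos _ _ _ _ _ h]
      refine Finset.sum_eq_zero fun k _ => ?_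
      have hd : pderiv (k, (n - 1).toNat) (1 : Fk ι ℂ) = 0 := pderiv_one
      exact (congrArg _ hd).trans (smul_zero _)
  have h2 : (fun i => hF c ν (ν * ((c j i : ℤ) : ℂ)) j n (((1, 0) : VV ι).2 i)) = 0 := by
    funext i
    show hF c ν (ν * ((c j i : ℤ) : ℂ)) j n 0 = 0
    rw [map_zero]
  rw [h2]
  show (hF c ν 0 j n (1 : Fk ι ℂ), (0 : ι → Fk ι ℂ)) = 0
  rw [h1]
  rfl

theorem Eop_cre (c : Matrix ι ι ℤ) (ν : ℂ) (i : ι) : Cre ((1, 0) : VV ι) (Eop c ν i) := by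
  intro n hn
  rw [Eop_apply]
  show ((0, Pi.single i (Sj c ν i (-n - 1) (1 : Fk ι ℂ))) : VV ι) = 0
  rw [Sj_one, hz_neg _ _ (by omega), Pi.single_zero]
  rfl

theorem hop_vac (c : Matrix ι ι ℤ) (ν : ℂ) (j : ι) :
    hop c ν j (-1) ((1, 0) : VV ι) = (X (j, 0), 0) := by
  rw [hop_apply]
  have h0 : (-1 : ℤ) = -((0 : ℕ) : ℤ) - 1 := by simp
  have h2 : (fun i => hF c ν (ν * ((c j i : ℤ) : ℂ)) j (-1) (((1, 0) : VV ι).2 i)) = 0 := by
    funext i
    show hF c ν (ν * ((c j i : ℤ) : ℂ)) j (-1) 0 = 0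
    rw [map_zero]
  rw [h2]
  show (hF c ν 0 j (-1) (1 : Fk ι ℂ), (0 : ι → Fk ι ℂ)) = _
  rw [h0, hF_neg, mul_one]

theorem Eop_vac (c : Matrix ι ι ℤ) (ν : ℂ) (i : ι) :
    Eop c ν i (-1) ((1, 0) : VV ι) = (0, Pi.single i 1) := by
  rw [Eop_apply]
  show ((0, Pi.single i (Sj c ν i (-(-1) - 1) (1 : Fk ι ℂ))) : VV ι) = _
  rw [Sj_one]
  have : (-(-1) - 1 : ℤ) = 0 := by norm_num
  rw [this, hz_zero]

theorem Tr_vac : Tr ((1, 0) : VV ι) = 0 := by
  unfold Tr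
  rw [LinearMap.prodMap_apply]
  have h1 : ((dd : Derivation ℂ (Fk ι ℂ) (Fk ι ℂ)) : Module.End ℂ (Fk ι ℂ)) (1 : Fk ι ℂ) = 0 :=
    Derivation.map_one_eq_zero _
  show (((dd : Derivation ℂ (Fk ι ℂ) (Fk ι ℂ)) : Module.End ℂ (Fk ι ℂ)) (1 : Fk ι ℂ), _) = _
  rw [h1]
  have h2 : ∀ F : (ι → Fk ι ℂ) →ₗ[ℂ] (ι → Fk ι ℂ), F (((1, 0) : VV ι).2) = 0 := by
    intro F
    exact map_zero F
  rw [h2]
  rfl

/-! ### Generation -/

theorem gen (c : Matrix ι ι ℤ) (ν : ℂ) (S : Submodule ℂ (VV ι)) (h0 : ((1, 0) : VV ι) ∈ S)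
    (hh : ∀ (j : ι) (n : ℤ) (v : VV ι), v ∈ S → hop c ν j n v ∈ S)
    (hE : ∀ (i : ι) (n : ℤ) (v : VV ι), v ∈ S → Eop c ν i n v ∈ S) : S = ⊤ := by
  have step : ∀ (j : ι) (l : ℕ) (v : VV ι), v ∈ S →
      ((X (j, l) * v.1, fun i => X (j, l) * v.2 i) : VV ι) ∈ S := by
    intro j l v hv
    have := hh j (-(l : ℤ) - 1) v hv
    rw [hop_apply] at this
    simpa only [hF_neg] using this
  have hA : ∀ f : Fk ι ℂ, ((f, 0) : VV ι) ∈ S := by
    intro f
    induction f using MvPolynomial.induction_on with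
    | C a =>
      have h1 := S.smul_mem a h0
      have h2 : a • ((1, 0) : VV ι) = (C a, 0) := by
        rw [Prod.smul_mk, smul_zero, MvPolynomial.smul_eq_C_mul, mul_one]
      rwa [h2] at h1
    | add p q hp hq =>
      have h1 := S.add_mem hp hq
      rwa [Prod.mk_add_mk, add_zero] at h1
    | mul_X p x hp =>
      have h1 := step x.1 x.2 _ hp
      have h2 : ((X (x.1, x.2) * ((p, 0) : VV ι).1, fun i => X (x.1, x.2) * ((p, 0) : VV ι).2 i) :
          VV ι) = (p * X x, 0) := by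
        refine Prod.ext ?_ ?_
        · show X (x.1, x.2) * p = p * X x
          rw [mul_comm]
        · funext i
          show X (x.1, x.2) * (0 : Fk ι ℂ) = 0
          rw [mul_zero]
      rwa [h2] at h1
  have hB : ∀ (i : ι) (f : Fk ι ℂ), ((0, Pi.single i f) : VV ι) ∈ S := by
    intro i f
    have hv : ((0, Pi.single i 1) : VV ι) ∈ S := by
      rw [← Eop_vac c ν i]
      exact hE i (-1) _ h0
    induction f using MvPolynomial.induction_on with
    | C a =>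
      have h1 := S.smul_mem a hv
      have h2 : a • ((0, Pi.single i 1) : VV ι) = (0, Pi.single i (C a)) := by
        rw [Prod.smul_mk, smul_zero, ← Pi.single_smul, MvPolynomial.smul_eq_C_mul, mul_one]
      rwa [h2] at h1
    | add p q hp hq =>
      have h1 := S.add_mem hp hq
      rwa [Prod.mk_add_mk, add_zero, ← Pi.single_add] at h1
    | mul_X p x hp =>
      have h1 := step x.1 x.2 _ hp
      have h2 : ((X (x.1, x.2) * ((0, Pi.single i p) : VV ι).1,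
          fun k => X (x.1, x.2) * ((0, Pi.single i p) : VV ι).2 k) : VV ι) =
          (0, Pi.single i (p * X x)) := by
        refine Prod.ext ?_ ?_
        · show X (x.1, x.2) * (0 : Fk ι ℂ) = 0
          rw [mul_zero]
        · funext k
          show X (x.1, x.2) * (Pi.single i p : ι → Fk ι ℂ) k =
            (Pi.single i (p * X x) : ι → Fk ι ℂ) k
          by_cases hk : k = i
          · subst hk
            rw [Pi.single_eq_same, Pi.single_eq_same, mul_comm]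
          · rw [Pi.single_eq_of_ne hk, Pi.single_eq_of_ne hk, mul_zero]
      rwa [h2] at h1
  rw [eq_top_iff]
  rintro ⟨f, g⟩ -
  have h1 : ((f, g) : VV ι) = (f, 0) + ∑ i, (0, Pi.single i (g i)) := by
    refine Prod.ext ?_ ?_
    · rw [Prod.fst_add, Prod.fst_sum]
      simp
    · rw [Prod.snd_add, Prod.snd_sum]
      simp only [zero_add]
      exact (Finset.univ_sum_single g).symm
  rw [h1]
  exact S.add_mem (hA f) (S.sum_mem fun i _ => hB i (g i))

end model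

theorem main : S_VA := by
  intro hREL ι _ _ c hc ν
  obtain ⟨hhh, hEE, hhE, hTh, hTE⟩ := hREL ι c hc ν
  obtain ⟨A, hA1, hA2, -⟩ := hREC (VV ι) Tr (1, 0)
    (Set.range (fun j : ι => hop c ν j) ∪ Set.range (fun i : ι => Eop c ν i)) Tr_vac
    (by
      rintro a (⟨j, rfl⟩ | ⟨i, rfl⟩)
      · exact ⟨hop_mem_FL c ν j, fun n v => hTh j n v, hop_cre c ν j⟩
      · exact ⟨Eop_mem_FL c ν i, fun n v => hTE i n v, Eop_cre c ν i⟩)
    (by
      rintro a (⟨j, rfl⟩ | ⟨i, rfl⟩) b (⟨k, rfl⟩ | ⟨l, rfl⟩)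
      · refine loc_two _ _ (ν * ((c j k : ℤ) : ℂ)) fun m n v => ?_
        rw [← mul_assoc]
        exact hhh j k m n v
      · exact loc_one _ _ (fun s v => (ν * ((c l j : ℤ) : ℂ)) • Eop c ν l s v)
          fun m n v => hhE j l m n v
      · refine loc_one _ _ (fun s v => -((ν * ((c i k : ℤ) : ℂ)) • Eop c ν i s v))
          fun m n v => ?_
        rw [add_comm m n, ← hhE k i n m v]
        abel
      · refine loc_zero _ _ fun m n v => ?_
        rw [hEE, hEE])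
    (by
      intro S hS h
      exact gen c ν S hS (fun j n v hv => h _ (Or.inl ⟨j, rfl⟩) n v hv)
        (fun i n v hv => h _ (Or.inr ⟨i, rfl⟩) n v hv))
  refine ⟨A, hA1, fun j => ?_, fun i => ?_⟩
  · have h1 := hA2 (hop c ν j) (Or.inl ⟨j, rfl⟩)
    rwa [hop_vac] at h1
  · have h1 := hA2 (Eop c ν i) (Or.inr ⟨i, rfl⟩)
    rwa [Eop_vac] at h1

end Pool.Agent.H391.SK.P_VA
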