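import Pool.Agent.H391.SK.StA

/-!
# Project SK (helper391), task SK-A0: weights of the operators (helper225)
-/

set_option autoImplicit false

namespace Pool.Agent.H391.SK.P_A0

open MvPolynomial

section

variable {A : Type} [CommRing A]

/-- the coefficient of `w ^ k` has weight `d - k` -/
def Gr (p : Polynomial (Lm A)) (d : ℕ) : Prop :=
  ∀ k, (∀ e, e + k = d → Wt (p.coeff k) e) ∧ (d < k → p.coeff k = 0)

lemma wt_zero (d : ℕ) : Wt (0 : Lm A) d := isWeightedHomogeneous_zero A _ d

lemma wt_congr {f : Lm A} {d e : ℕ} (h : Wt f d) (he : d = e) : Wt f e := he ▸ h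

lemma gr_zero (d : ℕ) : Gr (0 : Polynomial (Lm A)) d := fun k =>
  ⟨fun e _ => by rw [Polynomial.coeff_zero]; exact wt_zero e, fun _ => Polynomial.coeff_zero k⟩

lemma gr_add {p q : Polynomial (Lm A)} {d : ℕ} (hp : Gr p d) (hq : Gr q d) : Gr (p + q) d := by
  intro k
  refine ⟨fun e he => ?_, fun h => ?_⟩
  · rw [Polynomial.coeff_add]
    exact ((hp k).1 e he).add ((hq k).1 e he)
  · rw [Polynomial.coeff_add, (hp k).2 h, (hq k).2 h, add_zero]

lemma gr_mul {p q : Polynomial (Lm A)} {d d' : ℕ} (hp : Gr p d) (hq : Gr q d') :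
    Gr (p * q) (d + d') := by
  intro k
  refine ⟨fun e he => ?_, fun h => ?_⟩
  · rw [Polynomial.coeff_mul]
    refine IsWeightedHomogeneous.sum _ _ _ fun x hx => ?_
    rw [Finset.HasAntidiagonal.mem_antidiagonal] at hx
    by_cases h1 : d < x.1
    · rw [(hp x.1).2 h1, zero_mul]
      exact wt_zero e
    by_cases h2 : d' < x.2
    · rw [(hq x.2).2 h2, mul_zero]
      exact wt_zero e
    refine wt_congr (((hp x.1).1 (d - x.1) (by omega)).mul ((hq x.2).1 (d' - x.2) (by omega))) ?_
    omega
  · rw [Polynomial.coeff_mul]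
    refine Finset.sum_eq_zero fun x hx => ?_
    rw [Finset.HasAntidiagonal.mem_antidiagonal] at hx
    by_cases h1 : d < x.1
    · rw [(hp x.1).2 h1, zero_mul]
    · rw [(hq x.2).2 (by omega), mul_zero]

lemma gr_C {f : Lm A} {d : ℕ} (h : Wt f d) : Gr (Polynomial.C f) d := by
  intro k
  refine ⟨fun e he => ?_, fun hk => ?_⟩
  · rw [Polynomial.coeff_C]
    split_ifs with h0
    · exact wt_congr h (by omega)
    · exact wt_zero e
  · rw [Polynomial.coeff_C, if_neg (by omega)]

lemma gr_one : Gr (1 : Polynomial (Lm A)) 0 := by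
  have h := gr_C (isWeightedHomogeneous_one A (fun n : ℕ => n + 1))
  rwa [Polynomial.C_1] at h

lemma gr_pow {p : Polynomial (Lm A)} {d : ℕ} (hp : Gr p d) (n : ℕ) : Gr (p ^ n) (n * d) := by
  induction n with
  | zero => rw [pow_zero, zero_mul]; exact gr_one
  | succ n ih => rw [pow_succ, Nat.succ_mul]; exact gr_mul ih hp

lemma gr_prod {κ : Type} (s : Finset κ) (p : κ → Polynomial (Lm A)) (d : κ → ℕ)
    (h : ∀ i ∈ s, Gr (p i) (d i)) : Gr (∏ i ∈ s, p i) (∑ i ∈ s, d i) := by
  classical
  induction s using Finset.induction_on with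
  | empty => rw [Finset.prod_empty, Finset.sum_empty]; exact gr_one
  | insert a s ha ih =>
    rw [Finset.prod_insert ha, Finset.sum_insert ha]
    exact gr_mul (h a (Finset.mem_insert_self a s))
      (ih fun i hi => h i (Finset.mem_insert_of_mem hi))

lemma gr_var (ν : A) (n : ℕ) : Gr (Polynomial.C (X n : Lm A) -
    Polynomial.C (MvPolynomial.C (2 * ν)) * Polynomial.X ^ (n + 1)) (n + 1) := by
  have h1 : Gr (Polynomial.C (X n : Lm A)) (n + 1) := gr_C (isWeightedHomogeneous_X A _ n)
  have h2 : Gr (Polynomial.C (MvPolynomial.C (-(2 * ν)) : Lm A) * Polynomial.X ^ (n + 1))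
      (n + 1) := by
    intro k
    rw [Polynomial.coeff_C_mul, Polynomial.coeff_X_pow]
    refine ⟨fun e he => ?_, fun hk => ?_⟩
    · split_ifs with h0
      · rw [mul_one]
        exact wt_congr (isWeightedHomogeneous_C _ _) (by omega)
      · rw [mul_zero]
        exact wt_zero e
    · rw [if_neg (by omega), mul_zero]
  have h3 := gr_add h1 h2
  have e : Polynomial.C (X n : Lm A) -
      Polynomial.C (MvPolynomial.C (2 * ν)) * Polynomial.X ^ (n + 1) =
      Polynomial.C (X n : Lm A) +
        Polynomial.C (MvPolynomial.C (-(2 * ν)) : Lm A) * Polynomial.X ^ (n + 1) := by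
    rw [map_neg, map_neg]
    ring
  rw [e]
  exact h3

lemma gr_shA (ν : A) {f : Lm A} {d : ℕ} (hf : Wt f d) : Gr (shA ν f) d := by
  induction hf using IsWeightedHomogeneous.induction_on with
  | zero => rw [map_zero]; exact gr_zero d
  | add p q hp hq h1 h2 => rw [map_add]; exact gr_add h1 h2
  | monomial s r hs =>
    unfold shA
    rw [aeval_monomial]
    have h1 : Gr (algebraMap A (Polynomial (Lm A)) r) 0 :=
      gr_C (isWeightedHomogeneous_C (fun n : ℕ => n + 1) r)
    have h2 := gr_prod s.support (fun i => (Polynomial.C (X i : Lm A) -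
      Polynomial.C (MvPolynomial.C (2 * ν)) * Polynomial.X ^ (i + 1)) ^ s i)
      (fun i => s i * (i + 1)) fun i _ => gr_pow (gr_var ν i) (s i)
    have h3 := gr_mul h1 h2
    rw [Finsupp.weight_apply] at hs
    have h4 : (0 + ∑ i ∈ s.support, s i * (i + 1)) = d := by
      rw [zero_add, ← hs]
      rfl
    rw [h4] at h3
    exact h3

end

section

variable {A : Type} [CommRing A] [Algebra ℂ A]

lemma wt_smul (c : ℂ) {f : Lm A} {d : ℕ} (h : Wt f d) : Wt (c • f) d := by
  have e : c • f = C (algebraMap ℂ A c) * f := by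
    rw [Algebra.smul_def]
    rfl
  rw [e]
  exact h.C_mul _

lemma wt_hs (x : ℕ → Lm A) (hx : ∀ n, Wt (x n) (n + 1)) (k : ℕ) : Wt (hs x k) k := by
  induction k using Nat.strong_induction_on with
  | _ k ih =>
    cases k with
    | zero => rw [hs]; exact isWeightedHomogeneous_one A _
    | succ m =>
      rw [hs]
      refine wt_smul _ (IsWeightedHomogeneous.sum _ _ _ fun i _ => ?_)
      exact wt_congr ((hx i).mul (ih (m - i) (by omega))) (by omega)

lemma S1_apply (ν : A) (j : ℤ) (f : Lm A) : S1 ν j f =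
    ∑ k ∈ (shA ν f).support, hz (X : ℕ → Lm A) ((k : ℤ) + j) * (shA ν f).coeff k := by
  unfold S1
  rw [LinearMap.comp_apply, Polynomial.lsum_apply]
  rfl

lemma S1_wt (ν : A) {d : ℕ} {f : Lm A} (hf : Wt f d) {e : ℕ} {j : ℤ} (he : (e : ℤ) = d + j) :
    Wt (S1 ν j f) e := by
  rw [S1_apply]
  have hG := gr_shA ν hf
  refine IsWeightedHomogeneous.sum _ _ _ fun k hk => ?_
  have hkd : ¬ d < k := fun h => (Polynomial.mem_support_iff.1 hk) ((hG k).2 h)
  unfold hz
  split_ifs with h0
  · have h1 := (wt_hs (X : ℕ → Lm A) (fun n => isWeightedHomogeneous_X A _ n)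
      ((k : ℤ) + j).toNat).mul ((hG k).1 (d - k) (by omega))
    exact wt_congr h1 (by omega)
  · rw [zero_mul]
    exact wt_zero e

lemma S1_zero (ν : A) {d : ℕ} {f : Lm A} (hf : Wt f d) {j : ℤ} (hj : (d : ℤ) + j < 0) :
    S1 ν j f = 0 := by
  rw [S1_apply]
  have hG := gr_shA ν hf
  refine Finset.sum_eq_zero fun k hk => ?_
  have hkd : ¬ d < k := fun h => (Polynomial.mem_support_iff.1 hk) ((hG k).2 h)
  unfold hz
  rw [if_neg (by omega), zero_mul]

lemma der_wt (ν : A) (n : ℕ) {d : ℕ} {f : Lm A} (hf : Wt f d) :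
    Wt ((mkDerivation A fun k : ℕ => C (4 * ν * ((k : A) + 1)) * X (n + k) :
      Derivation A (Lm A) (Lm A)) f) (d + n) := by
  induction hf using IsWeightedHomogeneous.induction_on with
  | zero => rw [map_zero]; exact wt_zero _
  | add p q hp hq h1 h2 => rw [map_add]; exact h1.add h2
  | monomial s r hs =>
    rw [mkDerivation_monomial]
    have e : ∀ g : Lm A, r • g = C r * g := fun g => by
      rw [Algebra.smul_def]
      rfl
    rw [e]
    refine IsWeightedHomogeneous.C_mul (IsWeightedHomogeneous.sum _ _ _ fun i hi => ?_) r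
    simp only [smul_eq_mul]
    have h1 : Finsupp.weight (fun n : ℕ => n + 1) (s - Finsupp.single i 1) + (i + 1) = d := by
      rw [← hs]
      have h2 : s - Finsupp.single i 1 + Finsupp.single i 1 = s := by
        apply tsub_add_cancel_of_le
        rw [Finsupp.single_le_iff]
        exact Nat.one_le_iff_ne_zero.2 (Finsupp.mem_support_iff.1 hi)
      conv_rhs => rw [← h2]
      rw [map_add, Finsupp.weight_apply (w := fun n : ℕ => n + 1) (f := Finsupp.single i 1),
        Finsupp.sum_single_index]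
      · simp
      · simp
    have h3 : Wt (monomial (s - Finsupp.single i 1) ((s i : ℕ) : A))
        (Finsupp.weight (fun n : ℕ => n + 1) (s - Finsupp.single i 1)) :=
      isWeightedHomogeneous_monomial _ _ _ rfl
    have h4 : Wt (C (4 * ν * ((i : A) + 1)) * X (n + i) : Lm A) (n + i + 1) :=
      (isWeightedHomogeneous_X A _ (n + i)).C_mul _
    exact wt_congr (h3.mul h4) (by omega)

lemma LL_wt (m ν : A) {n : ℕ} (hn : 1 ≤ n) {d : ℕ} {f : Lm A} (hf : Wt f d) :
    Wt (LL m ν n f) (d + n) := by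
  unfold LL
  rw [LinearMap.add_apply]
  refine IsWeightedHomogeneous.add ?_ (der_wt ν n hf)
  rw [LinearMap.mulLeft_apply, add_comm d n]
  refine IsWeightedHomogeneous.mul ?_ hf
  refine IsWeightedHomogeneous.add (IsWeightedHomogeneous.sum _ _ _ fun a ha => ?_) ?_
  · rw [Finset.mem_range] at ha
    exact wt_congr ((isWeightedHomogeneous_X A (fun n : ℕ => n + 1) a).mul
      (isWeightedHomogeneous_X A (fun n : ℕ => n + 1) (n - 2 - a))) (by omega)
  · exact wt_congr ((isWeightedHomogeneous_X A (fun n : ℕ => n + 1) (n - 1)).C_mul _) (by omega)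

end

theorem main : S_A0 := by
  intro A _ _ m ν d f hf
  refine ⟨fun e j he => S1_wt ν hf he, fun j hj => S1_zero ν hf hj, fun n hn => LL_wt m ν hn hf,
    wt_hs (X : ℕ → Lm A) fun n => isWeightedHomogeneous_X A _ n, fun μ k => ?_⟩
  exact wt_hs _ (fun n => (isWeightedHomogeneous_X ℂ (fun n : ℕ => n + 1) n).C_mul _) k

end Pool.Agent.H391.SK.P_A0
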