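import Pool.Agent.H391.SK.StD

set_option autoImplicit false

namespace Pool.Agent.H391.SK.P_CHEV

open MvPolynomial Pool.Agent.H391.SK

section homog

variable {ι : Type} [Fintype ι] [DecidableEq ι]

/-- homogeneous components of a product with a homogeneous polynomial -/
theorem hc_mul_hom (V h : MvPolynomial ι ℂ) (e n : ℕ) (hh : h.IsHomogeneous e) :
    homogeneousComponent n (V * h) =
      if e ≤ n then homogeneousComponent (n - e) V * h else 0 := by
  conv_lhs => rw [← sum_homogeneousComponent V, Finset.sum_mul, map_sum]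
  have h1 : ∀ i ∈ Finset.range (V.totalDegree + 1),
      homogeneousComponent n (homogeneousComponent i V * h) =
        if i + e = n then homogeneousComponent i V * h else 0 := by
    intro i _
    have : homogeneousComponent i V * h ∈ homogeneousSubmodule ι ℂ (i + e) :=
      (homogeneousComponent_isHomogeneous i V).mul hh
    rw [homogeneousComponent_of_mem this]
    simp only [eq_comm]
  rw [Finset.sum_congr rfl h1]
  by_cases he : e ≤ n
  · rw [if_pos he]
    by_cases hr : n - e ∈ Finset.range (V.totalDegree + 1)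
    · rw [Finset.sum_eq_single_of_mem (n - e) hr]
      · rw [if_pos (by omega)]
      · intro b _ hb
        rw [if_neg (by omega)]
    · rw [Finset.sum_eq_zero]
      · rw [homogeneousComponent_eq_zero, zero_mul]
        rw [Finset.mem_range] at hr
        omega
      · intro b hb
        rw [if_neg]
        intro hbe
        exact hr (by rw [← hbe]; simpa using hb)
  · rw [if_neg he, Finset.sum_eq_zero]
    intro b hb
    rw [if_neg (by omega)]

/-- chain rule -/
theorem chain_rule {σ : Type} [Fintype σ] [DecidableEq σ] (F : σ → MvPolynomial ι ℂ)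
    (H : MvPolynomial σ ℂ) (k : ι) :
    pderiv k (aeval F H) = ∑ s, aeval F (pderiv s H) * pderiv k (F s) := by
  induction H using MvPolynomial.induction_on with
  | C a => simp [MvPolynomial.algebraMap_eq]
  | add p q hp hq =>
    simp only [map_add, hp, hq, add_mul, Finset.sum_add_distrib]
  | mul_X p s hp =>
    rw [map_mul, aeval_X, Derivation.leibniz, hp]
    simp only [Derivation.leibniz, pderiv_X, smul_eq_mul, map_add, map_mul, aeval_X, add_mul,
      Finset.sum_add_distrib]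
    congr 1
    · rw [Finset.sum_eq_single_of_mem s (Finset.mem_univ s)]
      · simp
      · intro x _ hx
        rw [Pi.single_apply, if_neg (fun h => hx h.symm)]
        simp
    · rw [Finset.mul_sum]
      refine Finset.sum_congr rfl fun x _ => by ring

/-- weighted homogeneous components and `aeval` -/
theorem aeval_whc {σ : Type} [Fintype σ] [DecidableEq σ] (F : σ → MvPolynomial ι ℂ) (d : σ → ℕ)
    (hF : ∀ s, (F s).IsHomogeneous (d s)) (n : ℕ) (H : MvPolynomial σ ℂ) :
    homogeneousComponent n (aeval F H) = aeval F (weightedHomogeneousComponent d n H) := by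
  induction H using MvPolynomial.induction_on' with
  | monomial m a =>
    have h1 : (aeval F (monomial m a)).IsHomogeneous (Finsupp.weight d m) := by
      rw [aeval_monomial, MvPolynomial.algebraMap_eq, Finsupp.weight_apply]
      have := (isHomogeneous_C ι a).mul (IsHomogeneous.prod m.support (fun s => F s ^ m s)
        (fun s => d s * m s) (fun s _ => (hF s).pow (m s)))
      rw [zero_add] at this
      have e : (m.sum fun i c => c • d i) = ∑ s ∈ m.support, d s * m s := by
        rw [Finsupp.sum]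
        exact Finset.sum_congr rfl fun s _ => by rw [smul_eq_mul, mul_comm]
      rw [e]
      exact this
    rw [homogeneousComponent_of_mem h1,
      weightedHomogeneousComponent_of_mem (n := Finsupp.weight d m)
        (isWeightedHomogeneous_monomial d m a rfl)]
    split_ifs <;> simp
  | add p q hp hq => simp only [map_add, hp, hq]

/-- the data for the abstract argument -/
structure Dt (A : Subalgebra ℂ (MvPolynomial ι ℂ))
    (ρ : MvPolynomial ι ℂ →ₗ[ℂ] MvPolynomial ι ℂ) : Prop where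
  hc : ∀ f ∈ A, ∀ n, homogeneousComponent n f ∈ A
  mem : ∀ f, ρ f ∈ A
  id : ∀ f ∈ A, ρ f = f
  mul : ∀ f, ∀ a ∈ A, ρ (f * a) = ρ f * a
  hom : ∀ (f : MvPolynomial ι ℂ) (n : ℕ), f.IsHomogeneous n → (ρ f).IsHomogeneous n
  ch1 : ∀ (m d : ℕ) (F G : Fin (m + 1) → MvPolynomial ι ℂ),
    (∀ j, F j ∈ A) →
    (¬ ∃ r : Fin m → MvPolynomial ι ℂ, (∀ j, r j ∈ A) ∧ F 0 = ∑ j : Fin m, r j * F j.succ) →
    (G 0).IsHomogeneous d → ∑ j, F j * G j = 0 →
    G 0 ∈ Ideal.span {f : MvPolynomial ι ℂ | f ∈ A ∧ constantCoeff f = 0}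

/-- homogeneous generators of the augmentation ideal -/
structure Gn (A : Subalgebra ℂ (MvPolynomial ι ℂ)) {n : ℕ} (F : Fin n → MvPolynomial ι ℂ)
    (d : Fin n → ℕ) : Prop where
  mem : ∀ s, F s ∈ A
  hom : ∀ s, (F s).IsHomogeneous (d s)
  pos : ∀ s, 0 < d s
  span : Ideal.span (Set.range F) = Ideal.span {f : MvPolynomial ι ℂ | f ∈ A ∧ constantCoeff f = 0}

theorem hom_cc {f : MvPolynomial ι ℂ} {d : ℕ} (h : f.IsHomogeneous d) (hd : 0 < d) :
    constantCoeff f = 0 := by
  rw [constantCoeff_eq]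
  apply h.coeff_eq_zero
  simp; omega

theorem exists_gens {A : Subalgebra ℂ (MvPolynomial ι ℂ)}
    {ρ : MvPolynomial ι ℂ →ₗ[ℂ] MvPolynomial ι ℂ} (D : Dt A ρ) :
    ∃ (n : ℕ) (F : Fin n → MvPolynomial ι ℂ) (d : Fin n → ℕ), Gn A F d := by
  set T : Set (MvPolynomial ι ℂ) := {f | f ∈ A ∧ ∃ d : ℕ, 0 < d ∧ f.IsHomogeneous d} with hT
  have h1 : Ideal.span T = Ideal.span {f : MvPolynomial ι ℂ | f ∈ A ∧ constantCoeff f = 0} := by
    apply le_antisymm
    · apply Ideal.span_mono
      rintro f ⟨hf, d, hd, hh⟩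
      exact ⟨hf, hom_cc hh hd⟩
    · rw [Ideal.span_le]
      rintro f ⟨hf, hc⟩
      rw [SetLike.mem_coe, ← sum_homogeneousComponent f]
      refine Ideal.sum_mem _ fun i _ => ?_
      rcases Nat.eq_zero_or_pos i with hi | hi
      · subst hi
        rw [homogeneousComponent_zero]
        rw [constantCoeff_eq] at hc
        rw [hc, map_zero]
        exact Ideal.zero_mem _
      · exact Ideal.subset_span ⟨D.hc f hf i, i, hi, homogeneousComponent_isHomogeneous i f⟩
  have hfg : (Ideal.span T).FG := IsNoetherian.noetherian _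
  obtain ⟨s', hs', hsp⟩ := (Submodule.fg_span_iff_fg_span_finset_subset T).1 hfg
  have hd : ∀ i : Fin s'.card, ∃ d : ℕ, 0 < d ∧
      ((s'.equivFin.symm i : s') : MvPolynomial ι ℂ).IsHomogeneous d := fun i =>
    (hs' (s'.equivFin.symm i).2).2
  choose d hd1 hd2 using hd
  refine ⟨s'.card, fun i => ((s'.equivFin.symm i : s') : MvPolynomial ι ℂ), d,
    ⟨fun i => (hs' (s'.equivFin.symm i).2).1, hd2, hd1, ?_⟩⟩
  have hr : Set.range (fun i => ((s'.equivFin.symm i : s') : MvPolynomial ι ℂ)) = (s' : Set _) := by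
    ext f
    constructor
    · rintro ⟨i, rfl⟩
      exact (s'.equivFin.symm i).2
    · intro hf
      exact ⟨s'.equivFin ⟨f, hf⟩, by simp⟩
  rw [hr, ← h1]
  exact hsp.symm

/-- generation of the algebra -/
theorem adjoin_eq {A : Subalgebra ℂ (MvPolynomial ι ℂ)}
    {ρ : MvPolynomial ι ℂ →ₗ[ℂ] MvPolynomial ι ℂ} (D : Dt A ρ)
    {n : ℕ} {F : Fin n → MvPolynomial ι ℂ} {d : Fin n → ℕ} (G : Gn A F d) :
    Algebra.adjoin ℂ (Set.range F) = A := by
  apply le_antisymm
  · rw [Algebra.adjoin_le_iff]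
    rintro _ ⟨s, rfl⟩
    exact G.mem s
  · have key : ∀ N : ℕ, ∀ f ∈ A, f.IsHomogeneous N → f ∈ Algebra.adjoin ℂ (Set.range F) := by
      intro N
      induction N using Nat.strong_induction_on with
      | _ N ih =>
        intro f hf hh
        rcases Nat.eq_zero_or_pos N with hN | hN
        · subst hN
          rw [← totalDegree_zero_iff_isHomogeneous, totalDegree_eq_zero_iff_eq_C] at hh
          rw [hh]
          exact Subalgebra.algebraMap_mem _ _
        · have hmem : f ∈ Ideal.span (Set.range F) := by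
            rw [G.span]
            exact Ideal.subset_span ⟨hf, hom_cc hh hN⟩
          obtain ⟨g, hg⟩ := (Ideal.mem_span_range_iff_exists_fun).1 hmem
          have h1 : f = ∑ s, ρ (if d s ≤ N then homogeneousComponent (N - d s) (g s) else 0) * F s := by
            have e1 : f = ∑ s, (if d s ≤ N then homogeneousComponent (N - d s) (g s) else 0) * F s := by
              have e2 := congrArg (homogeneousComponent N) hg
              rw [map_sum, homogeneousComponent_eq_self hh] at e2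
              rw [← e2]
              refine Finset.sum_congr rfl fun s _ => ?_
              rw [hc_mul_hom _ _ _ _ (G.hom s)]
              split_ifs <;> simp
            have e3 := congrArg ρ e1
            rw [D.id f hf, map_sum] at e3
            rw [e3]
            refine Finset.sum_congr rfl fun s _ => ?_
            rw [D.mul _ _ (G.mem s)]
          rw [h1]
          refine Subalgebra.sum_mem _ fun s _ => ?_
          refine Subalgebra.mul_mem _ ?_ (Algebra.subset_adjoin ⟨s, rfl⟩)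
          by_cases hs : d s ≤ N
          · rw [if_pos hs]
            exact ih (N - d s) (by have := G.pos s; omega) _ (D.mem _)
              (D.hom _ _ (homogeneousComponent_isHomogeneous _ _))
          · rw [if_neg hs, map_zero]
            exact Subalgebra.zero_mem _
    intro f hf
    rw [← sum_homogeneousComponent f]
    exact Subalgebra.sum_mem _ fun i _ => key i _ (D.hc f hf i) (homogeneousComponent_isHomogeneous i f)

/-- minimal systems of generators -/
theorem exists_min {A : Subalgebra ℂ (MvPolynomial ι ℂ)}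
    {ρ : MvPolynomial ι ℂ →ₗ[ℂ] MvPolynomial ι ℂ} (D : Dt A ρ) :
    ∃ (n : ℕ) (F : Fin n → MvPolynomial ι ℂ) (d : Fin n → ℕ), Gn A F d ∧
      ∀ i₀ : Fin n, F i₀ ∉ Ideal.span (F '' {i | i ≠ i₀}) := by
  classical
  have hex : ∃ n : ℕ, ∃ (F : Fin n → MvPolynomial ι ℂ) (d : Fin n → ℕ), Gn A F d := exists_gens D
  obtain ⟨F, d, G⟩ := Nat.find_spec hex
  refine ⟨Nat.find hex, F, d, G, ?_⟩
  have hmin := fun m hm => Nat.find_min (m := m) hex hm
  generalize Nat.find hex = n at *
  intro i₀ hi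
  cases n with
  | zero => exact i₀.elim0
  | succ m =>
    refine hmin m (Nat.lt_succ_self m) ⟨F ∘ i₀.succAbove, d ∘ i₀.succAbove,
      ⟨fun s => G.mem _, fun s => G.hom _, fun s => G.pos _, ?_⟩⟩
    have hr : Set.range (F ∘ i₀.succAbove) = F '' {i | i ≠ i₀} := by
      rw [Set.range_comp, Fin.range_succAbove]
      rfl
    rw [hr, ← G.span]
    apply le_antisymm
    · exact Ideal.span_mono (Set.image_subset_range _ _)
    · rw [Ideal.span_le]
      rintro _ ⟨s, rfl⟩
      by_cases hs : s = i₀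
      · subst hs; exact hi
      · exact Ideal.subset_span ⟨s, hs, rfl⟩

/-- the key lemma for finite sets of indices -/
theorem ch1_fin {A : Subalgebra ℂ (MvPolynomial ι ℂ)}
    {ρ : MvPolynomial ι ℂ →ₗ[ℂ] MvPolynomial ι ℂ} (D : Dt A ρ) {σ : Type} [Fintype σ]
    [DecidableEq σ] (K : Finset σ) (i₀ : σ) (hi : i₀ ∈ K) (h G : σ → MvPolynomial ι ℂ)
    (hh : ∀ s, h s ∈ A)
    (hmin : ¬ ∃ V : σ → MvPolynomial ι ℂ, (∀ i, V i ∈ A) ∧ h i₀ = ∑ i ∈ K.erase i₀, V i * h i)
    (d : ℕ) (hG : (G i₀).IsHomogeneous d) (hsum : ∑ i ∈ K, h i * G i = 0) :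
    G i₀ ∈ Ideal.span {f : MvPolynomial ι ℂ | f ∈ A ∧ constantCoeff f = 0} := by
  set m := (K.erase i₀).card with hm
  let e : Fin m ≃ (K.erase i₀ : Finset σ) := (K.erase i₀).equivFin.symm
  have hs : ∀ u : σ → MvPolynomial ι ℂ, ∑ j : Fin m, u (e j : σ) = ∑ i ∈ K.erase i₀, u i := by
    intro u
    rw [← Finset.sum_coe_sort (K.erase i₀) u]
    exact Equiv.sum_comp e (fun i : (K.erase i₀ : Finset σ) => u (i : σ))
  have := D.ch1 m d (Fin.cons (h i₀) fun j => h (e j : σ)) (Fin.cons (G i₀) fun j => G (e j : σ))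
    ?_ ?_ ?_ ?_
  · simpa using this
  · intro j
    refine Fin.cases ?_ (fun j => ?_) j
    · simpa using hh i₀
    · simpa using hh _
  · rintro ⟨r, hr, hr2⟩
    apply hmin
    refine ⟨fun i => if hi : i ∈ K.erase i₀ then r (e.symm ⟨i, hi⟩) else 0, ?_, ?_⟩
    · intro i
      beta_reduce
      split_ifs
      · exact hr _
      · exact Subalgebra.zero_mem _
    · simp only [Fin.cons_zero, Fin.cons_succ] at hr2
      rw [hr2, ← hs (fun i => (if hi : i ∈ K.erase i₀ then r (e.symm ⟨i, hi⟩) else 0) * h i)]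
      refine Finset.sum_congr rfl fun j _ => ?_
      rw [dif_pos (e j).2]
      congr 2
      simp
  · simpa using hG
  · rw [Fin.sum_univ_succ]
    simp only [Fin.cons_zero, Fin.cons_succ]
    rw [hs (fun i => h i * G i), Finset.add_sum_erase K (fun i => h i * G i) hi]
    exact hsum

/-- the weight of a monomial which contains `s` -/
theorem le_weight {σ : Type} [Fintype σ] [DecidableEq σ] (d : σ → ℕ) (m : σ →₀ ℕ) (s : σ)
    (hs : m s ≠ 0) : d s ≤ Finsupp.weight d m := by
  rw [Finsupp.weight_apply, Finsupp.sum]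
  have h1 : m s • d s ≤ ∑ i ∈ m.support, m i • d i :=
    Finset.single_le_sum (f := fun i => m i • d i) (fun i _ => Nat.zero_le _)
      (Finsupp.mem_support_iff.2 hs)
  refine le_trans ?_ h1
  rw [smul_eq_mul]
  exact Nat.le_mul_of_pos_left _ (Nat.pos_of_ne_zero hs)

theorem pderiv_deg {σ : Type} [Fintype σ] [DecidableEq σ] (d : σ → ℕ) (n : ℕ)
    (H : MvPolynomial σ ℂ) (hH : IsWeightedHomogeneous d H n) (s : σ) (hs : pderiv s H ≠ 0) :
    d s ≤ n := by
  by_contra hlt
  apply hs
  apply pderiv_eq_zero_of_notMem_vars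
  intro hv
  rw [mem_vars_iff_mem_support] at hv
  obtain ⟨m, hm, hms⟩ := hv
  have h1 := hH (mem_support_iff.1 hm)
  have h2 := le_weight d m s (Finsupp.mem_support_iff.1 hms)
  omega

/-- the components of the coefficients -/
theorem comp_V {A : Subalgebra ℂ (MvPolynomial ι ℂ)}
    {ρ : MvPolynomial ι ℂ →ₗ[ℂ] MvPolynomial ι ℂ} (D : Dt A ρ) {σ : Type} [Fintype σ]
    [DecidableEq σ] (K : Finset σ) (h : σ → MvPolynomial ι ℂ) (d : σ → ℕ) (n : ℕ)
    (hd : ∀ s, h s ≠ 0 → d s ≤ n ∧ (h s).IsHomogeneous (n - d s)) (j : σ)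
    (V : σ → MvPolynomial ι ℂ) (hV : ∀ i, V i ∈ A) (hj : h j = ∑ i ∈ K, V i * h i) :
    ∃ V' : σ → MvPolynomial ι ℂ, (∀ i, V' i ∈ A) ∧ h j = ∑ i ∈ K, V' i * h i ∧
      ∀ i, V' i ≠ 0 → d j ≤ d i ∧ (V' i).IsHomogeneous (d i - d j) := by
  by_cases h0 : h j = 0
  · exact ⟨fun _ => 0, fun _ => Subalgebra.zero_mem _, by simp [h0], fun i hi => absurd rfl hi⟩
  · obtain ⟨hj1, hj2⟩ := hd j h0
    refine ⟨fun i => if d j ≤ d i then homogeneousComponent (d i - d j) (V i) else 0, ?_, ?_, ?_⟩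
    · intro i
      beta_reduce
      split_ifs
      · exact D.hc _ (hV i) _
      · exact Subalgebra.zero_mem _
    · have e2 := congrArg (homogeneousComponent (n - d j)) hj
      rw [map_sum, homogeneousComponent_eq_self hj2] at e2
      rw [e2]
      refine Finset.sum_congr rfl fun i _ => ?_
      by_cases hi0 : h i = 0
      · rw [hi0]; simp
      · obtain ⟨hi1, hi2⟩ := hd i hi0
        rw [hc_mul_hom _ _ _ _ hi2]
        beta_reduce
        by_cases hij : d j ≤ d i
        · rw [if_pos (by omega), if_pos hij, show n - d j - (n - d i) = d i - d j by omega]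
        · rw [if_neg (by omega), if_neg hij, zero_mul]
    · intro i hi
      beta_reduce at hi ⊢
      by_cases hij : d j ≤ d i
      · rw [if_pos hij]
        exact ⟨hij, homogeneousComponent_isHomogeneous _ _⟩
      · rw [if_neg hij] at hi; exact absurd rfl hi

theorem indep {A : Subalgebra ℂ (MvPolynomial ι ℂ)}
    {ρ : MvPolynomial ι ℂ →ₗ[ℂ] MvPolynomial ι ℂ} (D : Dt A ρ)
    {r : ℕ} {F : Fin r → MvPolynomial ι ℂ} {d : Fin r → ℕ} (G : Gn A F d)
    (hmin : ∀ i₀ : Fin r, F i₀ ∉ Ideal.span (F '' {i | i ≠ i₀})) :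
    AlgebraicIndependent ℂ F := by
  classical
  rw [algebraicIndependent_iff]
  by_contra hcon
  push Not at hcon
  obtain ⟨H0, hH0, hH0'⟩ := hcon
  have hex : ∃ n : ℕ, ∃ H : MvPolynomial (Fin r) ℂ, H ≠ 0 ∧ IsWeightedHomogeneous d H n ∧
      aeval F H = 0 := by
    obtain ⟨m, hm⟩ := (ne_zero_iff).1 hH0'
    refine ⟨Finsupp.weight d m, weightedHomogeneousComponent d (Finsupp.weight d m) H0, ?_,
      weightedHomogeneousComponent_isWeightedHomogeneous _ _, ?_⟩
    · intro h0
      apply hm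
      have := congrArg (coeff m) h0
      rw [coeff_weightedHomogeneousComponent, if_pos rfl, coeff_zero] at this
      exact this
    · rw [← aeval_whc F d G.hom, hH0, map_zero]
  obtain ⟨H, hH, hHw, hHF⟩ := Nat.find_spec hex
  have hfm := fun m hm => Nat.find_min (m := m) hex hm
  generalize Nat.find hex = n at *
  set h : Fin r → MvPolynomial ι ℂ := fun s => aeval F (pderiv s H) with hh
  have hadj : ∀ Q : MvPolynomial (Fin r) ℂ, aeval F Q ∈ A := by
    intro Q
    rw [← adjoin_eq D G, Algebra.adjoin_range_eq_range_aeval]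
    exact ⟨Q, rfl⟩
  have hhA : ∀ s, h s ∈ A := fun s => hadj _
  have hd : ∀ s, h s ≠ 0 → d s ≤ n ∧ (h s).IsHomogeneous (n - d s) := by
    intro s hs
    have hs' : pderiv s H ≠ 0 := by
      intro h0; apply hs; rw [hh]; beta_reduce; rw [h0, map_zero]
    have h1 := pderiv_deg d n H hHw s hs'
    refine ⟨h1, ?_⟩
    have h2 : IsWeightedHomogeneous d (pderiv s H) (n - d s) := hHw.pderiv (by omega)
    have h3 := aeval_whc F d G.hom (n - d s) (pderiv s H)
    rw [h2.weightedHomogeneousComponent_same] at h3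
    rw [hh]
    beta_reduce
    rw [← h3]
    exact homogeneousComponent_isHomogeneous _ _
  have hzero : ∀ s, h s = 0 → pderiv s H = 0 := by
    intro s hs
    by_contra h0
    have h1 := pderiv_deg d n H hHw s h0
    have h2 : IsWeightedHomogeneous d (pderiv s H) (n - d s) := hHw.pderiv (by omega)
    exact hfm (n - d s) (by have := G.pos s; omega) ⟨pderiv s H, h0, h2, hs⟩
  -- not all `h s` are zero
  have hne : ∃ s, h s ≠ 0 := by
    by_contra hall
    push Not at hall
    have h1 := hHw.sum_weight_X_mul_pderiv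
    have h2 : ∀ s, pderiv s H = 0 := fun s => hzero s (hall s)
    simp only [h2, mul_zero, smul_zero, Finset.sum_const_zero] at h1
    have hn : n = 0 := by
      by_contra hn
      apply hH
      have h3 : (n : MvPolynomial (Fin r) ℂ) * H = 0 := by rw [← nsmul_eq_mul]; exact h1.symm
      rcases mul_eq_zero.1 h3 with h4 | h4
      · exact absurd (by exact_mod_cast h4) hn
      · exact h4
    subst hn
    have h5 : H = C (coeff 0 H) := by
      ext m
      rw [coeff_C]
      by_cases hm : m = 0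
      · subst hm; simp
      · rw [if_neg (Ne.symm hm)]
        by_contra hc
        have h6 := hHw hc
        obtain ⟨s, hs⟩ := Finsupp.ne_iff.1 hm
        have h7 := le_weight d m s (by simpa using hs)
        have := G.pos s
        omega
    rw [h5, aeval_C, MvPolynomial.algebraMap_eq] at hHF
    have h8 : coeff 0 H = 0 := by simpa using hHF
    rw [h8, map_zero] at h5
    exact hH h5
  -- minimal set of indices
  let Q : Finset (Fin r) → Prop := fun K => ∀ j, ∃ V : Fin r → MvPolynomial ι ℂ, (∀ i, V i ∈ A) ∧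
    h j = ∑ i ∈ K, V i * h i
  have hQu : Q Finset.univ := by
    intro j
    refine ⟨Pi.single j 1, ?_, ?_⟩
    · intro i
      rw [Pi.single_apply]
      split_ifs
      · exact Subalgebra.one_mem _
      · exact Subalgebra.zero_mem _
    · rw [Finset.sum_eq_single_of_mem j (Finset.mem_univ j)]
      · simp
      · intro b _ hb
        rw [Pi.single_apply, if_neg hb, zero_mul]
  obtain ⟨K, hK, hKmin⟩ : ∃ K, Q K ∧ ∀ K', Q K' → K.card ≤ K'.card := by
    have hex2 : ∃ k : ℕ, ∃ K, Q K ∧ K.card = k := ⟨_, Finset.univ, hQu, rfl⟩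
    obtain ⟨K, hK, hKc⟩ := Nat.find_spec hex2
    refine ⟨K, hK, fun K' hK' => ?_⟩
    rw [hKc]
    exact Nat.find_min' hex2 ⟨K', hK', rfl⟩
  obtain ⟨i₀, hi₀⟩ : K.Nonempty := by
    rw [Finset.nonempty_iff_ne_empty]
    rintro rfl
    obtain ⟨s, hs⟩ := hne
    obtain ⟨V, -, hV⟩ := hK s
    exact hs (by simpa using hV)
  have hi₀min : ¬ ∃ V : Fin r → MvPolynomial ι ℂ, (∀ i, V i ∈ A) ∧
      h i₀ = ∑ i ∈ K.erase i₀, V i * h i := by
    rintro ⟨V, hV, hV'⟩
    have hQ' : Q (K.erase i₀) := by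
      intro j
      obtain ⟨U, hU, hU'⟩ := hK j
      refine ⟨fun i => U i₀ * V i + U i, fun i => Subalgebra.add_mem _
        (Subalgebra.mul_mem _ (hU _) (hV _)) (hU _), ?_⟩
      rw [hU', ← Finset.add_sum_erase K _ hi₀]
      conv_lhs => rw [hV', Finset.mul_sum, ← Finset.sum_add_distrib]
      refine Finset.sum_congr rfl fun i _ => by ring
    have h1 := hKmin _ hQ'
    rw [Finset.card_erase_of_mem hi₀] at h1
    have : 0 < K.card := Finset.card_pos.2 ⟨i₀, hi₀⟩
    omega
  have hV : ∀ j, ∃ V' : Fin r → MvPolynomial ι ℂ, (∀ i, V' i ∈ A) ∧ h j = ∑ i ∈ K, V' i * h i ∧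
      ∀ i, V' i ≠ 0 → d j ≤ d i ∧ (V' i).IsHomogeneous (d i - d j) := by
    intro j
    obtain ⟨V, hV1, hV2⟩ := hK j
    exact comp_V D K h d n hd j V hV1 hV2
  choose V hVA hVs hVh using hV
  -- the polynomials `G_k`
  let g : ι → Fin r → MvPolynomial ι ℂ := fun k i =>
    pderiv k (F i) + ∑ j ∈ Kᶜ, V j i * pderiv k (F j)
  have hsum : ∀ k, ∑ i ∈ K, h i * g k i = 0 := by
    intro k
    have h1 := chain_rule F H k
    rw [hHF, map_zero] at h1
    have h2 : ∑ s, h s * pderiv k (F s) = ∑ i ∈ K, h i * pderiv k (F i) +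
        ∑ j ∈ Kᶜ, h j * pderiv k (F j) := (Finset.sum_add_sum_compl K _).symm
    have h3 : ∑ j ∈ Kᶜ, h j * pderiv k (F j) =
        ∑ i ∈ K, h i * ∑ j ∈ Kᶜ, V j i * pderiv k (F j) := by
      have : ∀ j ∈ Kᶜ, h j * pderiv k (F j) = ∑ i ∈ K, h i * (V j i * pderiv k (F j)) := by
        intro j _
        conv_lhs => rw [hVs j, Finset.sum_mul]
        refine Finset.sum_congr rfl fun i _ => by ring
      rw [Finset.sum_congr rfl this, Finset.sum_comm]
      refine Finset.sum_congr rfl fun i _ => by rw [Finset.mul_sum]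
    have h4 : ∑ s, h s * pderiv k (F s) = 0 := h1.symm
    rw [h2, h3, ← Finset.sum_add_distrib] at h4
    rw [← h4]
    refine Finset.sum_congr rfl fun i _ => by ring
  have hghom : ∀ k, (g k i₀).IsHomogeneous (d i₀ - 1) := by
    intro k
    refine ((G.hom i₀).pderiv).add (IsHomogeneous.sum _ _ _ fun j _ => ?_)
    by_cases hz : V j i₀ = 0
    · rw [hz, zero_mul]; exact isHomogeneous_zero _ _ _
    · obtain ⟨h1, h2⟩ := hVh j i₀ hz
      have h3 := h2.mul ((G.hom j).pderiv (i := k))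
      have := G.pos j
      rwa [show d i₀ - d j + (d j - 1) = d i₀ - 1 by omega] at h3
  have hgmem : ∀ k, g k i₀ ∈ Ideal.span (Set.range F) := by
    intro k
    rw [G.span]
    exact ch1_fin D K i₀ hi₀ h (g k) hhA hi₀min (d i₀ - 1) (hghom k) (hsum k)
  have hgex : ∀ k, ∃ w : Fin r → MvPolynomial ι ℂ, ∑ s, w s * F s = g k i₀ := fun k =>
    (Ideal.mem_span_range_iff_exists_fun).1 (hgmem k)
  choose w hw using hgex
  set I₀ := Ideal.span (F '' {i | i ≠ i₀}) with hI₀
  have hFI : ∀ s, s ≠ i₀ → F s ∈ I₀ := fun s hs => Ideal.subset_span ⟨s, hs, rfl⟩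
  -- Euler
  have hE : ∑ k, X k * g k i₀ = (d i₀ : MvPolynomial ι ℂ) * F i₀ +
      ∑ j ∈ Kᶜ, V j i₀ * ((d j : MvPolynomial ι ℂ) * F j) := by
    have h1 : ∀ j, ∑ k, X k * pderiv k (F j) = (d j : MvPolynomial ι ℂ) * F j := by
      intro j
      rw [(G.hom j).sum_X_mul_pderiv, nsmul_eq_mul]
    have h2 : ∀ k, X k * g k i₀ = X k * pderiv k (F i₀) +
        ∑ j ∈ Kᶜ, V j i₀ * (X k * pderiv k (F j)) := by
      intro k
      show X k * (pderiv k (F i₀) + ∑ j ∈ Kᶜ, V j i₀ * pderiv k (F j)) = _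
      rw [mul_add, Finset.mul_sum]
      congr 1
      refine Finset.sum_congr rfl fun j _ => by ring
    rw [Finset.sum_congr rfl fun k _ => h2 k, Finset.sum_add_distrib, h1 i₀, Finset.sum_comm]
    congr 1
    refine Finset.sum_congr rfl fun j _ => ?_
    rw [← Finset.mul_sum, h1 j]
  have hThom : (∑ k, X k * g k i₀).IsHomogeneous (d i₀) := by
    refine IsHomogeneous.sum _ _ _ fun k _ => ?_
    have := (isHomogeneous_X ℂ k).mul (hghom k)
    have hp := G.pos i₀
    rwa [show 1 + (d i₀ - 1) = d i₀ by omega] at this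
  have hTI : ∑ k, X k * g k i₀ ∈ I₀ := by
    have h1 : ∑ k, X k * g k i₀ = ∑ s, (∑ k, w k s * X k) * F s := by
      have : ∀ k, X k * g k i₀ = ∑ s, (w k s * X k) * F s := by
        intro k
        rw [← hw k, Finset.mul_sum]
        refine Finset.sum_congr rfl fun s _ => by ring
      rw [Finset.sum_congr rfl fun k _ => this k, Finset.sum_comm]
      refine Finset.sum_congr rfl fun s _ => by rw [Finset.sum_mul]
    have h2 := congrArg (homogeneousComponent (d i₀)) h1
    rw [homogeneousComponent_eq_self hThom, map_sum] at h2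
    rw [h2]
    refine Ideal.sum_mem _ fun s _ => ?_
    rw [hc_mul_hom _ _ _ _ (G.hom s)]
    split_ifs with hs
    · by_cases hsi : s = i₀
      · subst hsi
        rw [Nat.sub_self, map_sum]
        have : ∑ k, homogeneousComponent 0 (w k s * X k) = 0 := by
          refine Finset.sum_eq_zero fun k _ => ?_
          rw [hc_mul_hom _ _ _ _ (isHomogeneous_X ℂ k), if_neg (by omega)]
        rw [this, zero_mul]
        exact Ideal.zero_mem _
      · exact Ideal.mul_mem_left _ _ (hFI s hsi)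
    · exact Ideal.zero_mem _
  have hrest : ∑ j ∈ Kᶜ, V j i₀ * ((d j : MvPolynomial ι ℂ) * F j) ∈ I₀ := by
    refine Ideal.sum_mem _ fun j hj => ?_
    have hji : j ≠ i₀ := by
      rintro rfl
      exact (Finset.mem_compl.1 hj) hi₀
    exact Ideal.mul_mem_left _ _ (Ideal.mul_mem_left _ _ (hFI j hji))
  rw [hE] at hTI
  have hfin : (d i₀ : MvPolynomial ι ℂ) * F i₀ ∈ I₀ := (Ideal.add_mem_iff_left _ hrest).1 hTI
  apply hmin i₀
  have hd0 : (d i₀ : ℂ) ≠ 0 := by
    have := G.pos i₀
    exact_mod_cast this.ne'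
  have : F i₀ = C ((d i₀ : ℂ)⁻¹) * ((d i₀ : MvPolynomial ι ℂ) * F i₀) := by
    rw [← mul_assoc]
    have e : (C ((d i₀ : ℂ)⁻¹) : MvPolynomial ι ℂ) * (d i₀ : MvPolynomial ι ℂ) = 1 := by
      have : ((d i₀ : ℕ) : MvPolynomial ι ℂ) = C ((d i₀ : ℕ) : ℂ) := by simp
      rw [this, ← map_mul, inv_mul_cancel₀ hd0, map_one]
    rw [e, one_mul]
  rw [this]
  exact Ideal.mul_mem_left _ _ hfin

/-- the abstract theorem -/
theorem chev {A : Subalgebra ℂ (MvPolynomial ι ℂ)}
    {ρ : MvPolynomial ι ℂ →ₗ[ℂ] MvPolynomial ι ℂ} (D : Dt A ρ) :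
    ∃ P : ι → MvPolynomial ι ℂ, Algebra.adjoin ℂ (Set.range P) = A := by
  classical
  obtain ⟨n, F, d, G, hmin⟩ := exists_min D
  have hind := indep D G hmin
  have hn : n ≤ Fintype.card ι := by
    have h1 := hind.lift_cardinalMk_le_trdeg
    rw [MvPolynomial.trdeg_of_isDomain] at h1
    simpa using h1
  let e := Fintype.equivFin ι
  refine ⟨fun k => if hk : (e k : ℕ) < n then F ⟨e k, hk⟩ else 0, ?_⟩
  rw [← adjoin_eq D G]
  apply le_antisymm
  · rw [Algebra.adjoin_le_iff]
    rintro _ ⟨k, rfl⟩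
    beta_reduce
    split_ifs with hk
    · exact Algebra.subset_adjoin ⟨_, rfl⟩
    · exact Subalgebra.zero_mem _
  · apply Algebra.adjoin_mono
    rintro _ ⟨s, rfl⟩
    refine ⟨e.symm ⟨s, lt_of_lt_of_le s.2 hn⟩, ?_⟩
    simp

end homog

section weyl

variable {ι : Type} [Fintype ι] [DecidableEq ι]

/-- the invariants -/
noncomputable def InvA (c : Matrix ι ι ℤ) : Subalgebra ℂ (MvPolynomial ι ℂ) where
  carrier := {f | ∀ i, act0 (sr c (al i)) f = f}
  mul_mem' := by
    intro a b ha hb i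
    rw [map_mul, ha i, hb i]
  add_mem' := by
    intro a b ha hb i
    rw [map_add, ha i, hb i]
  algebraMap_mem' := by
    intro r i
    rw [AlgHom.commutes]

theorem mem_InvA (c : Matrix ι ι ℤ) (f : MvPolynomial ι ℂ) :
    f ∈ InvA c ↔ ∀ i, act0 (sr c (al i)) f = f := Iff.rfl

theorem lin0_hom (v : ι → ℤ) : (lin0 v).IsHomogeneous 1 :=
  IsHomogeneous.sum _ _ _ fun k _ => isHomogeneous_C_mul_X _ k

theorem act0_hom (g : (ι → ℤ) →ₗ[ℤ] (ι → ℤ)) {f : MvPolynomial ι ℂ} {n : ℕ}
    (hf : f.IsHomogeneous n) : (act0 g f).IsHomogeneous n := by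
  have := hf.aeval (fun k => lin0 (g (al k))) (n := 1) (fun k => lin0_hom _)
  rwa [one_mul] at this

theorem act0_hc (g : (ι → ℤ) →ₗ[ℤ] (ι → ℤ)) (f : MvPolynomial ι ℂ) (n : ℕ) :
    homogeneousComponent n (act0 g f) = act0 g (homogeneousComponent n f) := by
  conv_lhs => rw [← sum_homogeneousComponent f, map_sum, map_sum]
  have h1 : ∀ i ∈ Finset.range (f.totalDegree + 1),
      homogeneousComponent n (act0 g (homogeneousComponent i f)) =
        if i = n then act0 g (homogeneousComponent i f) else 0 := by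
    intro i _
    have : act0 g (homogeneousComponent i f) ∈ homogeneousSubmodule ι ℂ i :=
      act0_hom g (homogeneousComponent_isHomogeneous i f)
    rw [homogeneousComponent_of_mem this]
    simp only [eq_comm]
  rw [Finset.sum_congr rfl h1, Finset.sum_ite_eq']
  split_ifs with hn
  · rfl
  · rw [homogeneousComponent_eq_zero, map_zero]
    rw [Finset.mem_range] at hn
    omega

/-- the averaging operator -/
noncomputable def rho (c : Matrix ι ι ℤ) [Fintype (Wg c Set.univ)] :
    MvPolynomial ι ℂ →ₗ[ℂ] MvPolynomial ι ℂ :=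
  ((Fintype.card (Wg c Set.univ) : ℂ)⁻¹) • ∑ g : Wg c Set.univ,
    (act0 ((g : (ι → ℤ) ≃ₗ[ℤ] (ι → ℤ)) : (ι → ℤ) →ₗ[ℤ] (ι → ℤ))).toLinearMap

theorem rho_apply (c : Matrix ι ι ℤ) [Fintype (Wg c Set.univ)] (f : MvPolynomial ι ℂ) :
    rho c f = ((Fintype.card (Wg c Set.univ) : ℂ)⁻¹) • ∑ g : Wg c Set.univ,
      act0 ((g : (ι → ℤ) ≃ₗ[ℤ] (ι → ℤ)) : (ι → ℤ) →ₗ[ℤ] (ι → ℤ)) f := by
  simp [rho]

theorem mem_InvA_iff {c : Matrix ι ι ℤ} (hc : IsADE c) (f : MvPolynomial ι ℂ) :
    f ∈ InvA c ↔ ∀ g : Wg c Set.univ,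
      act0 ((g : (ι → ℤ) ≃ₗ[ℤ] (ι → ℤ)) : (ι → ℤ) →ₗ[ℤ] (ι → ℤ)) f = f := by
  have := act0_inv_iff hc Set.univ f
  rw [mem_InvA]
  constructor
  · intro h g
    exact this.1 (fun i _ => h i) g g.2
  · intro h i
    exact this.2 (fun g hg => h ⟨g, hg⟩) i (Set.mem_univ i)

theorem dt_weyl {c : Matrix ι ι ℤ} (hc : IsADE c) [Fintype (Wg c Set.univ)] (hroot : S_ROOT)
    (hch : S_CH1) : Dt (InvA c) (rho c) where
  hc := by
    intro f hf n i
    rw [← act0_hc, hf i]
  mem := by
    intro f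
    rw [mem_InvA_iff hc]
    intro h
    rw [rho_apply, map_smul, map_sum]
    have : ∀ g : Wg c Set.univ,
        act0 ((h : (ι → ℤ) ≃ₗ[ℤ] (ι → ℤ)) : (ι → ℤ) →ₗ[ℤ] (ι → ℤ))
          (act0 ((g : (ι → ℤ) ≃ₗ[ℤ] (ι → ℤ)) : (ι → ℤ) →ₗ[ℤ] (ι → ℤ)) f) =
        act0 (((h * g : Wg c Set.univ) : (ι → ℤ) ≃ₗ[ℤ] (ι → ℤ)) : (ι → ℤ) →ₗ[ℤ] (ι → ℤ)) f := by
      intro g
      rw [← act0_mul]
      rfl
    rw [Finset.sum_congr rfl fun g _ => this g]
    exact congrArg (fun x => ((Fintype.card (Wg c Set.univ) : ℂ)⁻¹) • x)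
      (Equiv.sum_comp (Equiv.mulLeft h) (fun g : Wg c Set.univ =>
      act0 ((g : (ι → ℤ) ≃ₗ[ℤ] (ι → ℤ)) : (ι → ℤ) →ₗ[ℤ] (ι → ℤ)) f))
  id := by
    intro f hf
    rw [mem_InvA_iff hc] at hf
    rw [rho_apply, Finset.sum_congr rfl fun g _ => hf g, Finset.sum_const, Finset.card_univ,
      ← Nat.cast_smul_eq_nsmul ℂ, smul_smul, inv_mul_cancel₀, one_smul]
    exact_mod_cast Fintype.card_ne_zero
  mul := by
    intro f a ha
    rw [mem_InvA_iff hc] at ha
    rw [rho_apply, rho_apply, smul_mul_assoc, Finset.sum_mul]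
    refine congrArg (fun x => ((Fintype.card (Wg c Set.univ) : ℂ)⁻¹) • x) ?_
    refine Finset.sum_congr rfl fun g _ => ?_
    rw [map_mul, ha g]
  hom := by
    intro f n hf
    rw [rho_apply, smul_eq_C_mul]
    exact (IsHomogeneous.sum _ _ _ fun g _ => act0_hom _ hf).C_mul _
  ch1 := by
    intro m d F G hF hr hG hs
    have h1 := hch hroot ι c hc m d F G (fun j i => hF j i) (fun ⟨r, h1, h2⟩ =>
      hr ⟨r, fun j i => h1 j i, h2⟩) hG hs
    exact h1

theorem main : S_CHEVimp := by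
  intro hroot hch ι _ _ c hc
  have : Finite (Wg c Set.univ) := (hroot ι c hc).2.2.1 Set.univ
  have : Fintype (Wg c Set.univ) := Fintype.ofFinite _
  obtain ⟨P, hP⟩ := chev (dt_weyl hc hroot hch)
  refine ⟨P, fun f => ?_⟩
  rw [hP, mem_InvA]
  simp

end weyl

end Pool.Agent.H391.SK.P_CHEV
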