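import Pool.Agent.H391.SK.P.CHEV

/-!
# Project SK: homogeneous basic invariants
-/

namespace Pool.Agent.H391.SK.P_CHEVH

open MvPolynomial Pool.Agent.H391.SK Pool.Agent.H391.SK.P_CHEV

variable {ι : Type} [Fintype ι] [DecidableEq ι]

theorem chevH {A : Subalgebra ℂ (MvPolynomial ι ℂ)}
    {ρ : MvPolynomial ι ℂ →ₗ[ℂ] MvPolynomial ι ℂ} (D : Dt A ρ) :
    ∃ (P : ι → MvPolynomial ι ℂ) (d : ι → ℕ), (∀ j, P j ≠ 0 → 0 < d j) ∧
      (∀ j, (P j).IsHomogeneous (d j)) ∧ Algebra.adjoin ℂ (Set.range P) = A := by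
  classical
  obtain ⟨n, F, d, G, hmin⟩ := exists_min D
  have hind := indep D G hmin
  have hn : n ≤ Fintype.card ι := by
    have h1 := hind.lift_cardinalMk_le_trdeg
    rw [MvPolynomial.trdeg_of_isDomain] at h1
    simpa using h1
  let e := Fintype.equivFin ι
  refine ⟨fun k => if hk : (e k : ℕ) < n then F ⟨e k, hk⟩ else 0,
    fun k => if hk : (e k : ℕ) < n then d ⟨e k, hk⟩ else 0, ?_, ?_, ?_⟩
  · intro j hj
    beta_reduce at hj ⊢
    split_ifs at hj ⊢ with hk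
    · exact G.pos _
    · exact absurd rfl hj
  · intro j
    beta_reduce
    split_ifs with hk
    · exact G.hom _
    · exact isHomogeneous_zero _ _ _
  rw [← adjoin_eq D G]
  apply le_antisymm
  · rw [Algebra.adjoin_le_iff]
    rintro _ ⟨k, rfl⟩
    beta_reduce
    split_ifs with hk
    · exact Algebra.subset_adjoin ⟨_, rfl⟩
    · exact Subalgebra.zero_mem _
  · apply Algebra.adjoin_mono
    rintro _ ⟨s, rfl⟩
    refine ⟨e.symm ⟨s, lt_of_lt_of_le s.2 hn⟩, ?_⟩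
    simp

theorem main (hroot : S_ROOT) (hch : S_CH1) {c : Matrix ι ι ℤ} (hc : IsADE c) :
    ∃ (P : ι → MvPolynomial ι ℂ) (d : ι → ℕ), (∀ j, P j ≠ 0 → 0 < d j) ∧
      (∀ j, (P j).IsHomogeneous (d j)) ∧ Gen c Finset.univ P := by
  have : Finite (Wg c Set.univ) := (hroot ι c hc).2.2.1 Set.univ
  have : Fintype (Wg c Set.univ) := Fintype.ofFinite _
  obtain ⟨P, d, h1, h2, hP⟩ := chevH (dt_weyl hc hroot hch)
  refine ⟨P, d, h1, h2, fun f => ?_⟩
  rw [hP, mem_InvA]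
  simp

end Pool.Agent.H391.SK.P_CHEVH
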