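import Pool.Agent.H391.SK.StD

/-!
# Project SK, task E1: the functions on arcs which lie in all `B_i` are polynomials in the
`D n (P j)`; assembly of the parts.
-/

set_option linter.unusedSectionVars false

namespace Pool.Agent.H391.SK.P_E1

open MvPolynomial Pool.Agent.H391.SK

variable {ι : Type} [Fintype ι] [DecidableEq ι]

theorem lin0_ne_zero {v : ι → ℤ} (hv : v ≠ 0) : lin0 v ≠ 0 := by
  intro h
  apply hv
  funext k
  have h1 : coeff (Finsupp.single k 1) (lin0 v) = ((v k : ℤ) : ℂ) := by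
    simp only [lin0, coeff_sum, coeff_C_mul, coeff_X]
    rw [Finset.sum_eq_single k]
    · simp
    · intro b _ hb
      rw [if_neg, mul_zero]
      intro h2
      exact hb (Finsupp.single_left_injective one_ne_zero h2)
    · intro h2
      exact absurd (Finset.mem_univ k) h2
  rw [h, coeff_zero] at h1
  exact_mod_cast h1.symm

theorem Jc_ne_zero (c : Matrix ι ι ℤ) (I J : Set ι) : Jc c I J ≠ 0 := by
  unfold Jc
  refine finprod_mem_induction (fun x : MvPolynomial ι ℂ => x ≠ 0) one_ne_zero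
    (fun x y hx hy => mul_ne_zero hx hy) ?_
  intro β hβ
  refine lin0_ne_zero ?_
  rintro rfl
  have h2 : form c 0 0 = 2 := hβ.1.1
  simp [form] at h2

theorem emb_mem_RR {P : ι → MvPolynomial ι ℂ} {g : MvPolynomial ι ℂ}
    (hg : g ∈ Algebra.adjoin ℂ (Set.range P)) : emb g ∈ RR P := by
  have : Algebra.adjoin ℂ (Set.range P) ≤ (RR P).comap emb := by
    refine Algebra.adjoin_le ?_
    rintro _ ⟨j, rfl⟩
    rw [SetLike.mem_coe, Subalgebra.mem_comap]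
    exact Algebra.subset_adjoin ⟨j, 0, (D_zero_idx _).symm⟩
  exact (Subalgebra.mem_comap _ _ _).mp (this hg)

section avg

variable {c : Matrix ι ι ℤ} (hc : IsADE c) (I : Finset ι) (P : ι → MvPolynomial ι ℂ)
  (hG : Gen c I P)

include hc hG

theorem P_inv (j : ι) (w : (ι → ℤ) ≃ₗ[ℤ] (ι → ℤ)) (hw : w ∈ Wg c (I : Set ι)) :
    act0 (w : (ι → ℤ) →ₗ[ℤ] (ι → ℤ)) (P j) = P j := by
  have h1 : ∀ i ∈ (I : Set ι), act0 (sr c (al i)) (P j) = P j := fun i hi =>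
    (hG (P j)).mp (Algebra.subset_adjoin ⟨j, rfl⟩) i (Finset.mem_coe.mp hi)
  exact (act0_inv_iff hc (I : Set ι) (P j)).mp h1 w hw

theorem DP_inv (j : ι) (n : ℕ) (w : (ι → ℤ) ≃ₗ[ℤ] (ι → ℤ)) (hw : w ∈ Wg c (I : Set ι)) :
    act (w : (ι → ℤ) →ₗ[ℤ] (ι → ℤ)) (D n (emb (P j))) = D n (emb (P j)) := by
  rw [act_D, act_emb, P_inv hc I P hG j w hw]

theorem sum_inv [Fintype (Wg c (I : Set ι))] (g : MvPolynomial ι ℂ) :
    ∑ w : Wg c (I : Set ι), act0 ((w : (ι → ℤ) ≃ₗ[ℤ] (ι → ℤ)) : (ι → ℤ) →ₗ[ℤ] (ι → ℤ)) g ∈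
      Algebra.adjoin ℂ (Set.range P) := by
  rw [hG]
  intro i hi
  rw [map_sum]
  let s : Wg c (I : Set ι) := ⟨sre (hc.form_al i), sre_mem_Wg hc (Finset.mem_coe.mpr hi)⟩
  refine Fintype.sum_equiv (Equiv.mulLeft s) _ _ ?_
  intro w
  show act0 (sr c (al i)) (act0 ((w : (ι → ℤ) ≃ₗ[ℤ] (ι → ℤ)) : (ι → ℤ) →ₗ[ℤ] (ι → ℤ)) g) =
    act0 (((sre (hc.form_al i) * (w : (ι → ℤ) ≃ₗ[ℤ] (ι → ℤ)) : (ι → ℤ) ≃ₗ[ℤ] (ι → ℤ))) :
      (ι → ℤ) →ₗ[ℤ] (ι → ℤ)) g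
  rw [act0_mul, act0_sre]

/-- The sums over the group of elements of `RO P` lie in `RR P`. -/
theorem sum_mem_RR [Fintype (Wg c (I : Set ι))] {x : Fk ι ℂ} (hx : x ∈ RO P) :
    ∑ w : Wg c (I : Set ι), act ((w : (ι → ℤ) ≃ₗ[ℤ] (ι → ℤ)) : (ι → ℤ) →ₗ[ℤ] (ι → ℤ)) x ∈
      RR P := by
  classical
  let T : Fk ι ℂ → Prop := fun y => ∀ g : MvPolynomial ι ℂ,
    ∑ w : Wg c (I : Set ι), act ((w : (ι → ℤ) ≃ₗ[ℤ] (ι → ℤ)) : (ι → ℤ) →ₗ[ℤ] (ι → ℤ))
      (emb g * y) ∈ RR P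
  have T1 : T 1 := by
    intro g
    have h1 : ∑ w : Wg c (I : Set ι),
        act ((w : (ι → ℤ) ≃ₗ[ℤ] (ι → ℤ)) : (ι → ℤ) →ₗ[ℤ] (ι → ℤ)) (emb g * 1) =
        emb (∑ w : Wg c (I : Set ι),
          act0 ((w : (ι → ℤ) ≃ₗ[ℤ] (ι → ℤ)) : (ι → ℤ) →ₗ[ℤ] (ι → ℤ)) g) := by
      rw [map_sum]
      refine Finset.sum_congr rfl fun w _ => ?_
      rw [mul_one, act_emb]
    rw [h1]
    exact emb_mem_RR (sum_inv hc I P hG g)
  have Tadd : ∀ y z, T y → T z → T (y + z) := by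
    intro y z hy hz g
    have h1 : ∑ w : Wg c (I : Set ι),
        act ((w : (ι → ℤ) ≃ₗ[ℤ] (ι → ℤ)) : (ι → ℤ) →ₗ[ℤ] (ι → ℤ)) (emb g * (y + z)) =
        ∑ w : Wg c (I : Set ι),
          act ((w : (ι → ℤ) ≃ₗ[ℤ] (ι → ℤ)) : (ι → ℤ) →ₗ[ℤ] (ι → ℤ)) (emb g * y) +
        ∑ w : Wg c (I : Set ι),
          act ((w : (ι → ℤ) ≃ₗ[ℤ] (ι → ℤ)) : (ι → ℤ) →ₗ[ℤ] (ι → ℤ)) (emb g * z) := by
      rw [← Finset.sum_add_distrib]
      refine Finset.sum_congr rfl fun w _ => ?_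
      rw [mul_add, map_add]
    rw [h1]
    exact Subalgebra.add_mem _ (hy g) (hz g)
  have Tsm : ∀ (r : ℂ) y, T y → T (algebraMap ℂ (Fk ι ℂ) r * y) := by
    intro r y hy g
    have h1 : ∑ w : Wg c (I : Set ι),
        act ((w : (ι → ℤ) ≃ₗ[ℤ] (ι → ℤ)) : (ι → ℤ) →ₗ[ℤ] (ι → ℤ))
          (emb g * (algebraMap ℂ (Fk ι ℂ) r * y)) =
        algebraMap ℂ (Fk ι ℂ) r * ∑ w : Wg c (I : Set ι),
          act ((w : (ι → ℤ) ≃ₗ[ℤ] (ι → ℤ)) : (ι → ℤ) →ₗ[ℤ] (ι → ℤ)) (emb g * y) := by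
      rw [Finset.mul_sum]
      refine Finset.sum_congr rfl fun w _ => ?_
      rw [mul_left_comm, map_mul, AlgHom.commutes]
    rw [h1]
    exact Subalgebra.mul_mem _ (Subalgebra.algebraMap_mem _ r) (hy g)
  have key : ∀ x ∈ RO P, ∀ y, T y → T (x * y) := by
    intro x hx
    unfold RO at hx
    induction hx using Algebra.adjoin_induction with
    | mem x hx =>
      rcases hx with ⟨g', rfl⟩ | ⟨j, n, rfl⟩
      · intro y hy g
        have h1 := hy (g * g')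
        rw [map_mul] at h1
        simp only [mul_assoc] at h1
        exact h1
      · intro y hy g
        have h1 : ∑ w : Wg c (I : Set ι),
            act ((w : (ι → ℤ) ≃ₗ[ℤ] (ι → ℤ)) : (ι → ℤ) →ₗ[ℤ] (ι → ℤ))
              (emb g * (D n (emb (P j)) * y)) =
            D n (emb (P j)) * ∑ w : Wg c (I : Set ι),
              act ((w : (ι → ℤ) ≃ₗ[ℤ] (ι → ℤ)) : (ι → ℤ) →ₗ[ℤ] (ι → ℤ)) (emb g * y) := by
          rw [Finset.mul_sum]
          refine Finset.sum_congr rfl fun w _ => ?_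
          rw [mul_left_comm, map_mul, DP_inv hc I P hG j n w w.2]
        rw [h1]
        exact Subalgebra.mul_mem _ (Algebra.subset_adjoin ⟨j, n, rfl⟩) (hy g)
    | algebraMap r => intro y hy; exact Tsm r y hy
    | add x z _ _ hx hz => intro y hy; rw [add_mul]; exact Tadd _ _ (hx y hy) (hz y hy)
    | mul x z _ _ hx hz => intro y hy; rw [mul_assoc]; exact hx _ (hz y hy)
  have h1 := key x hx 1 T1 1
  simpa only [map_one, one_mul, mul_one] using h1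

/-- Invariant elements of `RO P` lie in `RR P`. -/
theorem inv_mem_RR [Fintype (Wg c (I : Set ι))] {x : Fk ι ℂ} (hx : x ∈ RO P)
    (hinv : ∀ i ∈ (I : Set ι), act (sr c (al i)) x = x) : x ∈ RR P := by
  have h1 := sum_mem_RR hc I P hG hx
  have h2 := (act_inv_iff hc (I : Set ι) x).mp hinv
  rw [Finset.sum_congr rfl fun (w : Wg c (I : Set ι)) _ => h2 w w.2, Finset.sum_const,
    Finset.card_univ] at h1
  set m := Fintype.card (Wg c (I : Set ι)) with hm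
  have hm0 : (m : ℂ) ≠ 0 := Nat.cast_ne_zero.mpr Fintype.card_ne_zero
  have h3 : x = ((m : ℂ)⁻¹) • (m • x) := by
    rw [← Nat.cast_smul_eq_nsmul ℂ m x, smul_smul, inv_mul_cancel₀ hm0, one_smul]
  rw [h3]
  exact Subalgebra.smul_mem _ h1 _

end avg

theorem main : S_E1imp := by
  intro ROOT LEN TH REG2 JAC JINV H3 IND RRG ι _ _ c hc I P hG
  obtain ⟨κ, hκ, hJ⟩ := JAC ROOT LEN ι c hc I P hG
  have hJc := Jc_ne_zero c (I : Set ι) ∅
  have hCκ : (C κ : MvPolynomial ι ℂ) ≠ 0 := by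
    rw [Ne, C_eq_zero]; exact hκ
  have hJ0 : Jac P ≠ 0 := by
    rw [hJ]; exact mul_ne_zero hCκ hJc
  have hind := IND ι P hJ0
  refine ⟨hind, ?_⟩
  intro f hf
  have hfin : Finite (Wg c (I : Set ι)) := (ROOT ι c hc).2.2.1 (I : Set ι)
  let _ : Fintype (Wg c (I : Set ι)) := Fintype.ofFinite _
  have hfinv : ∀ i ∈ (I : Set ι), act (sr c (al i)) f = f := fun i hi =>
    B_inv (hc.form_al i) (hf i (Finset.mem_coe.mp hi))
  have hfW := (act_inv_iff hc (I : Set ι) f).mp hfinv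
  obtain ⟨N, hN⟩ := exists_JW f
  -- a
  have hTH0 := TH ROOT ι c hc (I : Set ι) ∅ N
  obtain ⟨htinv, n, hn, hth⟩ := hTH0
  have hnC : (n : ℂ) ≠ 0 := Nat.cast_ne_zero.mpr hn
  have hCn : (C (n : ℂ) : MvPolynomial ι ℂ) ≠ 0 := by
    rw [Ne, C_eq_zero]; exact hnC
  have hainv : ∀ i ∈ I, act0 (sr c (al i)) (Jc c (I : Set ι) ∅ ^ (2 * N)) =
      Jc c (I : Set ι) ∅ ^ (2 * N) := by
    intro i hi
    have h1 := htinv i (Finset.mem_coe.mpr hi)
    rw [hth, map_mul] at h1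
    have h2 : act0 (sr c (al i)) (C (n : ℂ)) = (C (n : ℂ) : MvPolynomial ι ℂ) :=
      AlgHom.commutes _ _
    rw [h2] at h1
    exact mul_left_cancel₀ hCn h1
  have ha0 : Jc c (I : Set ι) ∅ ^ (2 * N) ≠ 0 := pow_ne_zero _ hJc
  have haS : Jc c (I : Set ι) ∅ ^ (2 * N) ∈ Algebra.adjoin ℂ (Set.range P) := (hG _).mpr hainv
  have hbS : (∑ i ∈ I, th c (I : Set ι) {i} N) ∈ Algebra.adjoin ℂ (Set.range P) := by
    refine Subalgebra.sum_mem _ fun i _ => ?_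
    rw [hG]
    intro k hk
    exact (TH ROOT ι c hc (I : Set ι) {i} N).1 k (Finset.mem_coe.mpr hk)
  -- u
  have hu : emb (Jc c (I : Set ι) ∅ ^ (2 * N)) * f ∈ RR P := by
    refine inv_mem_RR hc I P hG ?_ ?_
    · have h1 := JINV ι P N f hN
      rw [hJ, map_mul, mul_pow] at h1
      have h2 : (emb (C κ : MvPolynomial ι ℂ) : Fk ι ℂ) = algebraMap ℂ (Fk ι ℂ) κ :=
        AlgHom.commutes _ _
      rw [h2, ← map_pow, mul_assoc] at h1
      have h3 : κ ^ (2 * N) ≠ 0 := pow_ne_zero _ hκ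
      have h4 : emb (Jc c (I : Set ι) ∅ ^ (2 * N)) * f =
          algebraMap ℂ (Fk ι ℂ) ((κ ^ (2 * N))⁻¹) *
            (algebraMap ℂ (Fk ι ℂ) (κ ^ (2 * N)) * (emb (Jc c (I : Set ι) ∅) ^ (2 * N) * f)) := by
        rw [← mul_assoc, ← map_mul, inv_mul_cancel₀ h3, map_one, one_mul, map_pow]
      rw [h4]
      exact Subalgebra.mul_mem _ (Subalgebra.algebraMap_mem _ _) h1
    · intro i hi
      rw [map_mul, hfinv i hi, act_emb, hainv i (Finset.mem_coe.mp hi)]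
  have hv : emb (∑ i ∈ I, th c (I : Set ι) {i} N) * f ∈ RR P := by
    rw [map_sum, Finset.sum_mul]
    refine Subalgebra.sum_mem _ fun i hi => ?_
    have h1 := H3 ROOT LEN JAC JINV ι c hc I P hG i hi N f (hf i hi) hN
    have h2 := sum_mem_RR hc I P hG h1
    have h3 : emb (th c (I : Set ι) {i} N) * f = ∑ w : Wg c (I : Set ι),
        act ((w : (ι → ℤ) ≃ₗ[ℤ] (ι → ℤ)) : (ι → ℤ) →ₗ[ℤ] (ι → ℤ))
          (emb (Jc c (I : Set ι) {i}) ^ (2 * N) * f) := by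
      unfold th
      rw [finsum_eq_sum_of_fintype, map_sum, Finset.sum_mul]
      refine Finset.sum_congr rfl fun w _ => ?_
      rw [map_mul, hfW w w.2, ← act_emb, map_pow, map_pow]
    rw [h3]
    exact h2
  have hrel := REG2 ROOT ι c hc I N
  have hR := (RRG ROOT ι c hc I P hG hind (Jc c (I : Set ι) ∅ ^ (2 * N))
    (∑ i ∈ I, th c (I : Set ι) {i} N) (Jc c (I : Set ι) ∅ ^ (2 * N)) haS hbS haS ha0 hrel).2.1
  obtain ⟨t, ht, hft⟩ := hR _ hu _ hv (by ring)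
  have hea : (emb (Jc c (I : Set ι) ∅ ^ (2 * N)) : Fk ι ℂ) ≠ 0 := by
    intro h
    apply ha0
    apply emb_injective
    rw [h, map_zero]
  have : f = t := mul_left_cancel₀ hea hft
  rw [this]
  exact ht

end Pool.Agent.H391.SK.P_E1
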