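import Pool.Agent.H391.SK.StD

/-!
# Project SK, task JAC: the Jacobian determinant of basic invariants
-/

set_option linter.unusedSectionVars false
set_option linter.unusedSimpArgs false
set_option linter.unusedVariables false

namespace Pool.Agent.H391.SK.P_JAC

open MvPolynomial Pool.Agent.H391.SK

variable {ι : Type} [Fintype ι] [DecidableEq ι]

/-! ### Linear forms -/

theorem eval_lin0 (x : ι → ℂ) (v : ι → ℤ) : eval x (lin0 v) = ∑ k, ((v k : ℤ) : ℂ) * x k := by
  simp [lin0]

theorem pderiv_lin0 (v : ι → ℤ) (k : ι) : pderiv k (lin0 v) = C ((v k : ℤ) : ℂ) := by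
  simp [lin0, pderiv_X, Pi.single_apply]

theorem lin0_ne_zero {v : ι → ℤ} (hv : v ≠ 0) : lin0 v ≠ 0 := by
  intro h
  apply hv
  funext k
  have := congrArg (pderiv k) h
  rw [pderiv_lin0, map_zero, C_eq_zero] at this
  exact_mod_cast this

theorem lin0_isHomogeneous (v : ι → ℤ) : (lin0 v).IsHomogeneous 1 := by
  unfold lin0
  refine IsHomogeneous.sum _ _ _ fun k _ => ?_
  have := (isHomogeneous_C ι ((v k : ℤ) : ℂ)).mul (isHomogeneous_X ℂ k)
  simpa using this

theorem lin0_prime {v : ι → ℤ} (hv : v ≠ 0) : Prime (lin0 v) := by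
  have hne := lin0_ne_zero hv
  apply Irreducible.prime
  refine MvPolynomial.irreducible_of_totalDegree_eq_one
    ((lin0_isHomogeneous v).totalDegree hne) ?_
  intro x hx
  have : x ≠ 0 := by
    rintro rfl
    apply hne
    ext m
    have := hx m
    rw [zero_dvd_iff] at this
    rw [this, coeff_zero]
  exact isUnit_iff_ne_zero.2 this

theorem lin0_dvd {u v : ι → ℤ} (h : lin0 u ∣ lin0 v) (k j : ι) : u k * v j = v k * u j := by
  rcases eq_or_ne k j with rfl | hkj
  · ring
  obtain ⟨q, hq⟩ := h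
  have := congrArg (eval (fun i : ι => if i = j then ((u k : ℤ) : ℂ) else
    if i = k then -((u j : ℤ) : ℂ) else 0)) hq
  rw [map_mul, eval_lin0, eval_lin0] at this
  have e : ∀ w : ι → ℤ, ∑ i, ((w i : ℤ) : ℂ) * (if i = j then ((u k : ℤ) : ℂ) else
      if i = k then -((u j : ℤ) : ℂ) else 0) = (w j : ℂ) * u k - w k * u j := by
    intro w
    have : ∀ i, ((w i : ℤ) : ℂ) * (if i = j then ((u k : ℤ) : ℂ) else
      if i = k then -((u j : ℤ) : ℂ) else 0) =
      (if i = j then ((w i : ℤ) : ℂ) * ((u k : ℤ) : ℂ) else 0) +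
      (if i = k then -(((w i : ℤ) : ℂ) * ((u j : ℤ) : ℂ)) else 0) := by
      intro i
      by_cases h1 : i = j
      · subst h1
        have : ¬ i = k := fun e => hkj e.symm
        simp [this]
      · by_cases h2 : i = k
        · simp [h1, h2, hkj]
        · simp [h1, h2]
    simp only [this, Finset.sum_add_distrib, Finset.sum_ite_eq', Finset.mem_univ, if_true]
    ring
  rw [e, e] at this
  have h2 : ((u j : ℤ) : ℂ) * u k - u k * u j = 0 := by ring
  rw [h2, zero_mul, sub_eq_zero] at this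
  have h3 : v j * u k = v k * u j := by exact_mod_cast this
  linarith

theorem lin0_dvd_of_prop {u v : ι → ℤ} {p s : ℤ} (hp : p ≠ 0) (h : p • v = s • u) :
    lin0 u ∣ lin0 v := by
  have h1 : C ((p : ℤ) : ℂ) * lin0 v = C ((s : ℤ) : ℂ) * lin0 u := by
    rw [← lin0_smul, ← lin0_smul, h]
  have hp' : ((p : ℤ) : ℂ) ≠ 0 := by exact_mod_cast hp
  refine ⟨C (((p : ℤ) : ℂ)⁻¹ * s), ?_⟩
  calc lin0 v = C (((p : ℤ) : ℂ)⁻¹ * p) * lin0 v := by
        rw [inv_mul_cancel₀ hp', C_1, one_mul]
    _ = C (((p : ℤ) : ℂ)⁻¹) * (C ((p : ℤ) : ℂ) * lin0 v) := by rw [C_mul]; ring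
    _ = lin0 u * C (((p : ℤ) : ℂ)⁻¹ * s) := by rw [h1, C_mul]; ring

theorem pderiv_aeval {κ : Type} [Fintype κ] [DecidableEq κ] (P : κ → MvPolynomial ι ℂ) (i : ι)
    (q : MvPolynomial κ ℂ) :
    pderiv i (aeval P q) = ∑ j, aeval P (pderiv j q) * pderiv i (P j) := by
  induction q using MvPolynomial.induction_on with
  | C a =>
    simp
  | add p q hp hq => simp only [map_add, hp, hq, add_mul, Finset.sum_add_distrib]
  | mul_X p n hp =>
    rw [map_mul, Derivation.leibniz, aeval_X, hp]
    simp only [Derivation.leibniz, map_add, smul_eq_mul, map_mul, aeval_X, add_mul,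
      Finset.sum_add_distrib, Finset.mul_sum]
    congr 1
    · rw [Finset.sum_eq_single n]
      · simp [pderiv_X]
      · intro b _ hb
        simp [pderiv_X, Pi.single_apply, hb]
      · simp
    · refine Finset.sum_congr rfl fun j _ => by ring


/-! ### The lattice -/

theorem generic (c : Matrix ι ι ℤ) (hpos : ∀ v : ι → ℤ, v ≠ 0 → 2 ≤ form c v v)
    (S : Finset (ι → ℤ)) (hS : ∀ γ ∈ S, γ ≠ 0) : ∃ v : ι → ℤ, ∀ γ ∈ S, form c v γ ≠ 0 := by
  induction S using Finset.induction_on with
  | empty => exact ⟨0, by simp⟩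
  | insert t S ht ih =>
    obtain ⟨v, hv⟩ := ih fun γ hγ => hS γ (Finset.mem_insert_of_mem hγ)
    by_cases h : form c v t = 0
    · let M : ℤ := 1 + ∑ γ ∈ S, |form c t γ|
      have hM : ∀ γ ∈ S, |form c t γ| < M := by
        intro γ hγ
        have := Finset.single_le_sum (f := fun γ => |form c t γ|)
          (fun γ _ => abs_nonneg _) hγ
        have h2 : |form c t γ| ≤ ∑ γ ∈ S, |form c t γ| := this
        show |form c t γ| < 1 + ∑ γ ∈ S, |form c t γ|
        linarith
      refine ⟨M • v + t, ?_⟩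
      intro γ hγ
      rw [Finset.mem_insert] at hγ
      rw [form_add_left, form_smul_left]
      rcases hγ with rfl | hγ
      · rw [h]
        have := hpos γ (hS γ (Finset.mem_insert_self _ _))
        intro h0
        linarith
      · intro h0
        have h1 : M * form c v γ = - form c t γ := by linarith
        have h2 : |M * form c v γ| = |form c t γ| := by rw [h1, abs_neg]
        rw [abs_mul] at h2
        have h3 : 1 ≤ |form c v γ| := Int.one_le_abs (hv γ hγ)
        have h4 := hM γ hγ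
        have h5 : 0 ≤ |form c t γ| := abs_nonneg _
        have h6 : M ≤ |M| := le_abs_self M
        nlinarith
    · refine ⟨v, fun γ hγ => ?_⟩
      rw [Finset.mem_insert] at hγ
      rcases hγ with rfl | hγ
      · exact h
      · exact hv γ hγ

/-- If `v` has the same norm as `a + t u`, `a ⊥ u`, and `a + t u - v` is proportional to `u` then
`v = a - t u` or `v = a + t u`. -/
theorem reflect_alt (c : Matrix ι ι ℤ) (hpos : ∀ v : ι → ℤ, v ≠ 0 → 2 ≤ form c v v)
    (hsymm : ∀ i j, c i j = c j i)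
    {a u v : ι → ℤ} {t : ℤ} (hu : u ≠ 0) (hau : form c a u = 0)
    (hn : form c v v = form c (a + t • u) (a + t • u))
    (hd : ∀ k j, u k * (a + t • u - v) j = (a + t • u - v) k * u j) (hne : v ≠ a + t • u) :
    v = a - t • u ∧ t ≠ 0 := by
  obtain ⟨k, hk⟩ : ∃ k, u k ≠ 0 := by
    by_contra h
    push Not at h
    exact hu (funext h)
  have huu := hpos u hu
  have hua : form c u a = 0 := by rw [form_symm hsymm, hau]
  set p := u k with hp
  set s := (a + t • u - v) k with hs
  have e1 : p • v = p • a + (p * t - s) • u := by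
    funext j
    have := hd k j
    rw [← hs, ← hp] at this
    simp only [Pi.sub_apply, Pi.add_apply, Pi.smul_apply, smul_eq_mul] at this ⊢
    linarith
  have e2 : form c (p • v) (p • v) = p * p * form c v v := by
    rw [form_smul_left, form_smul_right]; ring
  have e3 : form c (p • v) (p • v) = p * p * form c a a + (p * t - s) * (p * t - s) * form c u u := by
    rw [e1]
    simp only [form_add_left, form_add_right, form_smul_left, form_smul_right, hau, hua]
    ring
  have e4 : form c v v = form c a a + t * t * form c u u := by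
    rw [hn]
    simp only [form_add_left, form_add_right, form_smul_left, form_smul_right, hau, hua]
    ring
  have e5 : ((p * t - s) * (p * t - s) - p * p * (t * t)) * form c u u = 0 := by
    rw [e2, e4] at e3
    linarith
  have e6 : (p * t - s) * (p * t - s) - p * p * (t * t) = 0 := by
    rcases mul_eq_zero.1 e5 with h | h
    · exact h
    · omega
  have e7 : s * (s - 2 * p * t) = 0 := by
    have : s * (s - 2 * p * t) = (p * t - s) * (p * t - s) - p * p * (t * t) := by ring
    rw [this, e6]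
  have hs0 : s ≠ 0 := by
    intro h0
    apply hne
    funext j
    have := congrFun e1 j
    simp only [h0, Pi.add_apply, Pi.smul_apply, smul_eq_mul, sub_zero] at this ⊢
    have : p * v j = p * (a j + t * u j) := by rw [this]; ring
    exact mul_left_cancel₀ hk this
  have e8 : s = 2 * p * t := by
    rcases mul_eq_zero.1 e7 with h | h
    · exact absurd h hs0
    · linarith
  refine ⟨?_, ?_⟩
  · funext j
    have := congrFun e1 j
    simp only [e8, Pi.add_apply, Pi.sub_apply, Pi.smul_apply, smul_eq_mul, sub_zero] at this ⊢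
    have : p * v j = p * (a j - t * u j) := by rw [this]; ring
    exact mul_left_cancel₀ hk this
  · rintro rfl
    apply hs0
    rw [e8]; ring

/-- Two roots which are proportional, both positive, are equal. -/
theorem PR_prop (c : Matrix ι ι ℤ) {I : Set ι} {β γ : ι → ℤ} (hβ : β ∈ PR c I) (hγ : γ ∈ PR c I)
    (h : ∀ k j, β k * γ j = γ k * β j) : β = γ := by
  have hβ0 : β ≠ 0 := by
    rintro rfl
    have := hβ.1
    simp [form] at this
  obtain ⟨k, hk⟩ : ∃ k, β k ≠ 0 := by
    by_contra h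
    push Not at h
    exact hβ0 (funext h)
  set p := β k with hp
  set s := γ k with hs
  have e1 : p • γ = s • β := by
    funext j
    have := h k j
    simpa using this
  have e2 : form c (p • γ) (p • γ) = form c (s • β) (s • β) := by rw [e1]
  rw [form_smul_left, form_smul_right, form_smul_left, form_smul_right, hβ.1, hγ.1] at e2
  have e3 : (p - s) * (p + s) = 0 := by linarith
  have hpp : 0 < p := lt_of_le_of_ne (hβ.2.1 k) (Ne.symm hk)
  have hss : 0 ≤ s := hγ.2.1 k
  have e4 : p = s := by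
    rcases mul_eq_zero.1 e3 with h | h
    · linarith
    · linarith
  funext j
  have := congrFun e1 j
  simp only [Pi.smul_apply, smul_eq_mul, ← e4] at this
  exact (mul_left_cancel₀ hk this).symm

theorem ne_zero_of_norm {c : Matrix ι ι ℤ} {β : ι → ℤ} (h : form c β β = 2) : β ≠ 0 := by
  rintro rfl
  simp [form] at h

theorem al_mem_PR {c : Matrix ι ι ℤ} (hc : IsADE c) {I : Set ι} {k : ι} (hk : k ∈ I) :
    al k ∈ PR c I := by
  refine ⟨hc.form_al k, ?_, ?_⟩
  · intro j
    by_cases h : j = k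
    · subst h; simp [al]
    · simp [al, Pi.single_apply, h]
  · intro j hj
    have : j ≠ k := fun e => hj (e ▸ hk)
    simp [al, Pi.single_apply, this]

theorem form_sum_left (c : Matrix ι ι ℤ) {κ : Type} (s : Finset κ) (a : κ → ℤ)
    (v : κ → (ι → ℤ)) (w : ι → ℤ) :
    form c (∑ i ∈ s, a i • v i) w = ∑ i ∈ s, a i * form c (v i) w := by
  classical
  induction s using Finset.induction_on with
  | empty => simp [form]
  | insert a s ha ih => rw [Finset.sum_insert ha, Finset.sum_insert ha, form_add_left,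
      form_smul_left, ih]

/-- Chambers. -/
theorem chamber (hR : S_ROOT) (hL : S_LEN) (c : Matrix ι ι ℤ) (hc : IsADE c) (I : Set ι)
    (w : (ι → ℤ) ≃ₗ[ℤ] (ι → ℤ)) (hw : w ∈ Wg c I) (y : ι → ℤ)
    (hy : ∀ γ ∈ PR c I, 0 < form c y γ * form c (w y) γ) : w = 1 := by
  obtain ⟨h1, h2, h3, h4, h5, h6, h7, h8⟩ := hR ι c hc
  obtain ⟨g, hg, hgx⟩ := h8 I (fun j => ((form c (al j) y : ℤ) : ℝ))
  have hgx' : ∀ k ∈ I, 0 ≤ form c (g (al k)) y := by
    intro k hk
    have := hgx k hk
    have e : form c (g (al k)) y = ∑ j, (g (al k) j) * form c (al j) y := by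
      conv_lhs => rw [eq_sum_al (g (al k))]
      rw [form_sum_left]
    have e' : ((form c (g (al k)) y : ℤ) : ℝ) =
        ∑ j, ((g (al k) j : ℤ) : ℝ) * ((form c (al j) y : ℤ) : ℝ) := by
      rw [e]; push_cast; rfl
    rw [← e'] at this
    exact_mod_cast this
  have hne : ∀ γ ∈ PR c I, form c (g γ) y ≠ 0 := by
    intro γ hγ h0
    rcases h6 I g hg γ hγ with h | h
    · have := hy _ h
      rw [form_symm hc.symm y, h0, zero_mul] at this
      exact lt_irrefl _ this
    · have := hy _ h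
      rw [form_symm hc.symm y, form_neg_left, h0, neg_zero, zero_mul] at this
      exact lt_irrefl _ this
  have hpos : ∀ γ ∈ PR c I, 0 < form c (g γ) y := by
    intro γ hγ
    refine lt_of_le_of_ne ?_ (Ne.symm (hne γ hγ))
    have e : g γ = ∑ k, γ k • g (al k) := by
      conv_lhs => rw [eq_sum_al γ]
      rw [map_sum]
      simp only [map_smul]
    rw [e, form_sum_left]
    refine Finset.sum_nonneg fun k _ => ?_
    by_cases hk : k ∈ I
    · exact mul_nonneg (hγ.2.1 k) (hgx' k hk)
    · rw [hγ.2.2 k hk, zero_mul]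
  have hpos' : ∀ γ ∈ PR c I, 0 < form c (g γ) (w y) := by
    intro γ hγ
    have hp := hpos γ hγ
    rcases h6 I g hg γ hγ with h | h
    · have := hy _ h
      rw [form_symm hc.symm y, form_symm hc.symm (w y)] at this
      exact (mul_pos_iff_of_pos_left hp).1 this
    · have := hy _ h
      rw [form_symm hc.symm y, form_symm hc.symm (w y), form_neg_left, form_neg_left,
        neg_mul_neg] at this
      exact (mul_pos_iff_of_pos_left hp).1 this
  -- the element h
  have hh : g⁻¹ * w⁻¹ * g ∈ Wg c I := (Wg c I).mul_mem ((Wg c I).mul_mem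
    ((Wg c I).inv_mem hg) ((Wg c I).inv_mem hw)) hg
  have key := hL hR ι c hc I (g⁻¹ * w⁻¹ * g) hh ?_
  · have : w⁻¹ = 1 := by
      have e : w⁻¹ = g * (g⁻¹ * w⁻¹ * g) * g⁻¹ := by group
      rw [e, key]; group
    exact inv_eq_one.1 this
  · intro k hk
    rcases h6 I _ hh (al k) (al_mem_PR hc hk) with h | h
    · exact h
    · exfalso
      have e1 := hpos _ h
      have e2 := hpos' _ (al_mem_PR hc hk)
      have e3 : g (-((g⁻¹ * w⁻¹ * g) (al k))) = -(w⁻¹ (g (al k))) := by
        rw [map_neg]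
        congr 1
        have : (g * (g⁻¹ * w⁻¹ * g)) (al k) = (w⁻¹ * g) (al k) := by
          congr 1; group
        exact this
      rw [e3, form_neg_left] at e1
      have e4 : form c (w⁻¹ (g (al k))) y = form c (g (al k)) (w y) := by
        rw [← form_Wg hc hw (w⁻¹ (g (al k))) y]
        congr 1
        have : (w * w⁻¹) (g (al k)) = g (al k) := by rw [mul_inv_cancel]; rfl
        exact this
      rw [e4] at e1
      linarith


/-! ### The orbit polynomials -/

/-- A finite orbit. -/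
noncomputable def orb (c : Matrix ι ι ℤ) (I : Set ι) (hf : Finite (Wg c I)) (y : ι → ℤ) :
    Finset (ι → ℤ) :=
  (Set.finite_range fun w : Wg c I => (w : (ι → ℤ) ≃ₗ[ℤ] (ι → ℤ)) y).toFinset

theorem mem_orb {c : Matrix ι ι ℤ} {I : Set ι} {hf : Finite (Wg c I)} {y v : ι → ℤ} :
    v ∈ orb c I hf y ↔ ∃ w ∈ Wg c I, w y = v := by
  simp [orb]

theorem self_mem_orb {c : Matrix ι ι ℤ} {I : Set ι} {hf : Finite (Wg c I)} {y : ι → ℤ} :
    y ∈ orb c I hf y := mem_orb.2 ⟨1, (Wg c I).one_mem, rfl⟩

/-- The product of the differences. -/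
noncomputable def dd (c : Matrix ι ι ℤ) (I : Set ι) (hf : Finite (Wg c I)) (y : ι → ℤ) :
    MvPolynomial ι ℂ := ∏ v ∈ (orb c I hf y).erase y, lin0 (y - v)

/-- The orbit polynomial. -/
noncomputable def pp (c : Matrix ι ι ℤ) (I : Set ι) (hf : Finite (Wg c I)) (y : ι → ℤ) :
    Polynomial (MvPolynomial ι ℂ) := ∏ v ∈ orb c I hf y, (Polynomial.X - Polynomial.C (lin0 v))

theorem pp_eq (c : Matrix ι ι ℤ) (I : Set ι) (hf : Finite (Wg c I)) (y : ι → ℤ) :
    pp c I hf y = (Polynomial.X - Polynomial.C (lin0 y)) *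
      ∏ v ∈ (orb c I hf y).erase y, (Polynomial.X - Polynomial.C (lin0 v)) := by
  unfold pp
  exact (Finset.mul_prod_erase (orb c I hf y) (fun v => Polynomial.X - Polynomial.C (lin0 v))
    self_mem_orb).symm

theorem pp_eval (c : Matrix ι ι ℤ) (I : Set ι) (hf : Finite (Wg c I)) (y : ι → ℤ) :
    (pp c I hf y).eval (lin0 y) = 0 := by
  rw [pp_eq]; simp

theorem pp_deriv_eval (c : Matrix ι ι ℤ) (I : Set ι) (hf : Finite (Wg c I)) (y : ι → ℤ) :
    (Polynomial.derivative (pp c I hf y)).eval (lin0 y) = dd c I hf y := by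
  rw [pp_eq, Polynomial.derivative_mul, Polynomial.eval_add, Polynomial.eval_mul,
    Polynomial.eval_mul]
  simp only [Polynomial.derivative_sub, Polynomial.derivative_X, Polynomial.derivative_C,
    sub_zero, Polynomial.eval_one, one_mul, Polynomial.eval_sub, Polynomial.eval_X,
    Polynomial.eval_C, sub_self, zero_mul, add_zero, Polynomial.eval_prod, dd, lin0_sub]

theorem pp_inv (c : Matrix ι ι ℤ) (hc : IsADE c) (I : Set ι) (hf : Finite (Wg c I)) (y : ι → ℤ)
    (i : ι) (hi : i ∈ I) (m : ℕ) :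
    act0 (sr c (al i)) ((pp c I hf y).coeff m) = (pp c I hf y).coeff m := by
  have h1 : (pp c I hf y).map ((act0 (sr c (al i)) : MvPolynomial ι ℂ →ₐ[ℂ] MvPolynomial ι ℂ) :
      MvPolynomial ι ℂ →+* MvPolynomial ι ℂ) = pp c I hf y := by
    unfold pp
    rw [Polynomial.map_prod]
    simp only [Polynomial.map_sub, Polynomial.map_X, Polynomial.map_C, RingHom.coe_coe,
      act0_lin0]
    refine Finset.prod_bij' (fun v _ => sr c (al i) v) (fun v _ => sr c (al i) v) ?_ ?_ ?_ ?_ ?_
    · intro v hv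
      obtain ⟨w, hw, rfl⟩ := mem_orb.1 hv
      exact mem_orb.2 ⟨sre (hc.form_al i) * w, (Wg c I).mul_mem (sre_mem_Wg hc hi) hw, rfl⟩
    · intro v hv
      obtain ⟨w, hw, rfl⟩ := mem_orb.1 hv
      exact mem_orb.2 ⟨sre (hc.form_al i) * w, (Wg c I).mul_mem (sre_mem_Wg hc hi) hw, rfl⟩
    · intro v _
      exact sr_sr (hc.form_al i) v
    · intro v _
      exact sr_sr (hc.form_al i) v
    · intro v _
      rfl
  have h2 := congrArg (fun q => Polynomial.coeff q m) h1
  simp only [Polynomial.coeff_map] at h2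
  exact h2

/-- Differentiation of `p(x) = 0`. -/
theorem pderiv_eval (p : Polynomial (MvPolynomial ι ℂ)) (x : MvPolynomial ι ℂ) (i : ι) :
    pderiv i (p.eval x) = (∑ m ∈ Finset.range (p.natDegree + 1), pderiv i (p.coeff m) * x ^ m) +
      (Polynomial.derivative p).eval x * pderiv i x := by
  have h : ∀ (n : ℕ) (q : Polynomial (MvPolynomial ι ℂ)), q.natDegree < n →
      pderiv i (q.eval x) = (∑ m ∈ Finset.range n, pderiv i (q.coeff m) * x ^ m) +
      (Polynomial.derivative q).eval x * pderiv i x := by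
    intro n q hq
    rw [Polynomial.eval_eq_sum_range' hq, map_sum]
    have e : Polynomial.derivative q =
        ∑ m ∈ Finset.range n, Polynomial.C (q.coeff m) * (Polynomial.C (m : MvPolynomial ι ℂ) *
          Polynomial.X ^ (m - 1)) := by
      conv_lhs => rw [Polynomial.as_sum_range' q n hq]
      rw [map_sum]
      refine Finset.sum_congr rfl fun m _ => ?_
      rw [Polynomial.derivative_monomial, ← Polynomial.C_mul_X_pow_eq_monomial, map_mul,
        mul_assoc]
    rw [e, Polynomial.eval_finsetSum, Finset.sum_mul, ← Finset.sum_add_distrib]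
    refine Finset.sum_congr rfl fun m _ => ?_
    rw [Derivation.leibniz, Derivation.leibniz_pow]
    simp only [smul_eq_mul, nsmul_eq_mul, Polynomial.eval_mul, Polynomial.eval_C,
      Polynomial.eval_pow, Polynomial.eval_X]
    ring
  exact h _ p (Nat.lt_succ_self _)

/-- One row. -/
theorem row (c : Matrix ι ι ℤ) (hc : IsADE c) (I : Finset ι) (hf : Finite (Wg c I))
    (P : ι → MvPolynomial ι ℂ) (hP : Gen c I P) (y : ι → ℤ) :
    ∃ a : ι → MvPolynomial ι ℂ, ∀ i, ∑ j, a j * pderiv i (P j) =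
      - dd c I hf y * C ((y i : ℤ) : ℂ) := by
  have hq : ∀ m : ℕ, ∃ q : MvPolynomial ι ℂ, aeval P q = (pp c I hf y).coeff m := by
    intro m
    have := (hP ((pp c I hf y).coeff m)).2 fun i hi => pp_inv c hc I hf y i hi m
    rw [Algebra.adjoin_range_eq_range_aeval] at this
    exact this
  choose q hq using hq
  refine ⟨fun j => ∑ m ∈ Finset.range ((pp c I hf y).natDegree + 1),
    aeval P (pderiv j (q m)) * lin0 y ^ m, fun i => ?_⟩
  have h1 := pderiv_eval (pp c I hf y) (lin0 y) i
  rw [pp_eval, map_zero, pp_deriv_eval, pderiv_lin0] at h1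
  have h2 : ∑ m ∈ Finset.range ((pp c I hf y).natDegree + 1),
      pderiv i ((pp c I hf y).coeff m) * lin0 y ^ m =
      ∑ j, (∑ m ∈ Finset.range ((pp c I hf y).natDegree + 1),
    aeval P (pderiv j (q m)) * lin0 y ^ m) * pderiv i (P j) := by
    simp only [Finset.sum_mul]
    rw [Finset.sum_comm]
    refine Finset.sum_congr rfl fun m _ => ?_
    rw [← hq m, pderiv_aeval, Finset.sum_mul]
    refine Finset.sum_congr rfl fun j _ => by ring
  rw [← h2]
  linear_combination -h1

/-- The main divisibility. -/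
theorem jac_dvd (c : Matrix ι ι ℤ) (hc : IsADE c) (I : Finset ι) (hf : Finite (Wg c I))
    (P : ι → MvPolynomial ι ℂ) (hP : Gen c I P) (Y : Matrix ι ι ℤ) :
    Jac P ∣ (∏ k, dd c I hf (Y k)) * C ((Y.det : ℤ) : ℂ) := by
  have h := fun k => row c hc I hf P hP (Y k)
  choose A hA using h
  have h1 : (Matrix.of A) * (Matrix.of fun j k => pderiv k (P j)) =
      Matrix.of fun k i => (- dd c I hf (Y k)) * (C ((Y k i : ℤ) : ℂ)) := by
    ext1 k i
    rw [Matrix.mul_apply]
    exact hA k i
  have h2 := congrArg Matrix.det h1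
  rw [Matrix.det_mul, Matrix.det_mul_column] at h2
  have h3 : (Matrix.of fun k i => (C ((Y k i : ℤ) : ℂ) : MvPolynomial ι ℂ)).det =
      C ((Y.det : ℤ) : ℂ) := by
    have e : (Matrix.of fun k i => (C ((Y k i : ℤ) : ℂ) : MvPolynomial ι ℂ)) =
        ((C : ℂ →+* MvPolynomial ι ℂ).comp (Int.castRingHom ℂ)).mapMatrix Y := by
      ext1 k i; rfl
    rw [e, ← RingHom.map_det]
    rfl
  have h4 : (∏ k, dd c I hf (Y k)) * C ((Y.det : ℤ) : ℂ) =
      (Jac P) * ((∏ k : ι, (-1 : MvPolynomial ι ℂ)) * (Matrix.of A).det) := by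
    have e1 : (∏ k, - dd c I hf (Y k)) =
        (∏ k : ι, (-1 : MvPolynomial ι ℂ)) * ∏ k, dd c I hf (Y k) := by
      rw [← Finset.prod_mul_distrib]
      refine Finset.prod_congr rfl fun k _ => by ring
    have e2 : (∏ k : ι, (-1 : MvPolynomial ι ℂ)) * (∏ k : ι, (-1 : MvPolynomial ι ℂ)) = 1 := by
      rw [← Finset.prod_mul_distrib]
      simp
    have e3 : (Matrix.of A).det * Jac P = ((∏ k : ι, (-1 : MvPolynomial ι ℂ)) *
        ∏ k, dd c I hf (Y k)) * C ((Y.det : ℤ) : ℂ) := by
      rw [← e1, ← h3]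
      exact h2
    calc (∏ k, dd c I hf (Y k)) * C ((Y.det : ℤ) : ℂ) =
        ((∏ k : ι, (-1 : MvPolynomial ι ℂ)) * (∏ k : ι, (-1 : MvPolynomial ι ℂ))) *
          ((∏ k, dd c I hf (Y k)) * C ((Y.det : ℤ) : ℂ)) := by rw [e2, one_mul]
      _ = (∏ k : ι, (-1 : MvPolynomial ι ℂ)) * (((∏ k : ι, (-1 : MvPolynomial ι ℂ)) *
        ∏ k, dd c I hf (Y k)) * C ((Y.det : ℤ) : ℂ)) := by ring
      _ = (Jac P) * ((∏ k : ι, (-1 : MvPolynomial ι ℂ)) * (Matrix.of A).det) := by
        rw [← e3]; ring
  exact ⟨_, h4⟩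


/-! ### The choice of the vectors -/

/-- The vectors `u + a` and the projections of the basis vectors. -/
def YY (c : Matrix ι ι ℤ) (a u : ι → ℤ) (k₀ : ι) : Matrix ι ι ℤ := fun k =>
  if k = k₀ then a + (1 : ℤ) • u else (form c u u • al k - form c (al k) u • u) + (0 : ℤ) • u

theorem YY_det (c : Matrix ι ι ℤ) (hpos : ∀ v : ι → ℤ, v ≠ 0 → 2 ≤ form c v v)
    {a u : ι → ℤ} {k₀ : ι} (hk : u k₀ ≠ 0) (hau : form c a u = 0) : (YY c a u k₀).det ≠ 0 := by
  intro h
  obtain ⟨x, hx, hx0⟩ := Matrix.exists_mulVec_eq_zero_iff.2 h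
  have hu : u ≠ 0 := by
    rintro rfl
    exact hk rfl
  have huu := hpos u hu
  -- the functional
  let L : (ι → ℤ) →ₗ[ℤ] ℤ :=
    { toFun := fun v => ∑ k, v k * x k
      map_add' := fun v w => by simp [add_mul, Finset.sum_add_distrib]
      map_smul' := fun m v => by simp [Finset.mul_sum, mul_assoc] }
  have hL : ∀ k, L (YY c a u k₀ k) = 0 := fun k => congrFun hx0 k
  have hLal : ∀ k, L (al k) = x k := fun k => by
    show ∑ j, al k j * x j = x k
    simp [al, Pi.single_apply]
  have h0 : L a + L u = 0 := by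
    have := hL k₀
    rw [YY, if_pos rfl, map_add, one_smul] at this
    exact this
  have h1 : ∀ k, k ≠ k₀ → form c u u * x k = form c (al k) u * L u := by
    intro k hkk
    have := hL k
    rw [YY, if_neg hkk, zero_smul, add_zero, map_sub, map_smul, map_smul, hLal] at this
    simp only [smul_eq_mul] at this
    linarith
  have h2 : ∀ v : ι → ℤ, L v = ∑ k, v k * x k := fun v => rfl
  have h3 : ∀ v : ι → ℤ, form c v u = ∑ k, v k * form c (al k) u := by
    intro v
    conv_lhs => rw [eq_sum_al v]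
    rw [form_sum_left]
  have h4 : u k₀ * (form c u u * x k₀ - form c (al k₀) u * L u) = 0 := by
    have e : ∑ k, u k * (form c u u * x k - form c (al k) u * L u) = 0 := by
      have : ∀ k, u k * (form c u u * x k - form c (al k) u * L u) =
          form c u u * (u k * x k) - (u k * form c (al k) u) * L u := fun k => by ring
      simp only [this, Finset.sum_sub_distrib, ← Finset.mul_sum, ← Finset.sum_mul]
      rw [← h2, ← h3]; ring
    rw [Finset.sum_eq_single k₀] at e
    · exact e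
    · intro k _ hkk
      rw [h1 k hkk]; ring
    · simp
  have h5 : form c u u * x k₀ = form c (al k₀) u * L u := by
    rcases mul_eq_zero.1 h4 with h | h
    · exact absurd h hk
    · linarith
  have h6 : ∀ k, form c u u * x k = form c (al k) u * L u := by
    intro k
    by_cases hkk : k = k₀
    · rw [hkk, h5]
    · exact h1 k hkk
  have h7 : ∀ v : ι → ℤ, form c u u * L v = form c v u * L u := by
    intro v
    rw [h2 v, h3 v, Finset.mul_sum, Finset.sum_mul]
    refine Finset.sum_congr rfl fun k _ => ?_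
    calc form c u u * (v k * x k) = v k * (form c u u * x k) := by ring
      _ = _ := by rw [h6]; ring
  have h8 : L a = 0 := by
    have := h7 a
    rw [hau, zero_mul] at this
    rcases mul_eq_zero.1 this with h | h
    · omega
    · exact h
  have h9 : L u = 0 := by linarith
  apply hx
  funext k
  have := h6 k
  rw [h9, mul_zero] at this
  rcases mul_eq_zero.1 this with h | h
  · omega
  · exact h

/-- A prime linear form dividing one of the differences. -/
theorem dvd_dd {c : Matrix ι ι ℤ} (hc : IsADE c) {I : Set ι} {hf : Finite (Wg c I)}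
    (hpos : ∀ v : ι → ℤ, v ≠ 0 → 2 ≤ form c v v) {a u : ι → ℤ} {t : ℤ} (hu : u ≠ 0)
    (hau : form c a u = 0) {v : ι → ℤ} (hv : v ∈ (orb c I hf (a + t • u)).erase (a + t • u))
    (h : lin0 u ∣ lin0 (a + t • u - v)) : v = a - t • u ∧ t ≠ 0 := by
  obtain ⟨hne, hv⟩ := Finset.mem_erase.1 hv
  obtain ⟨w, hw, hwv⟩ := mem_orb.1 hv
  refine reflect_alt c hpos hc.symm hu hau ?_ (lin0_dvd h) hne
  rw [← hwv, form_Wg hc hw]

theorem prime_dvd_jac {c : Matrix ι ι ℤ} (hc : IsADE c) {I : Finset ι} (hf : Finite (Wg c I))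
    (hpos : ∀ v : ι → ℤ, v ≠ 0 → 2 ≤ form c v v)
    {P : ι → MvPolynomial ι ℂ} (hP : Gen c I P) {a u : ι → ℤ} (hu : u ≠ 0)
    (hau : form c a u = 0) (h : lin0 u ∣ Jac P) : ∃ w ∈ Wg c I, w (a + u) = a - u := by
  obtain ⟨k₀, hk⟩ : ∃ k, u k ≠ 0 := by
    by_contra h
    push Not at h
    exact hu (funext h)
  have hp := lin0_prime hu
  have h1 := h.trans (jac_dvd c hc I hf P hP (YY c a u k₀))
  have hdet := YY_det c hpos hk hau
  rcases hp.dvd_or_dvd h1 with h2 | h2
  · obtain ⟨k, _, hk2⟩ := (Prime.dvd_finsetProd_iff hp _).1 h2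
    have h3 := (Prime.dvd_finsetProd_iff hp _).1 hk2
    obtain ⟨v, hv, hv2⟩ := h3
    by_cases hkk : k = k₀
    · have e : YY c a u k₀ k = a + (1 : ℤ) • u := by rw [YY, if_pos hkk]
      rw [e] at hv hv2
      obtain ⟨hv3, -⟩ := dvd_dd hc hpos hu hau hv hv2
      obtain ⟨w, hw, hwv⟩ := mem_orb.1 (Finset.mem_of_mem_erase hv)
      refine ⟨w, hw, ?_⟩
      rw [one_smul] at hwv hv3
      rw [hwv, hv3]
    · exfalso
      have e : YY c a u k₀ k = (form c u u • al k - form c (al k) u • u) + (0 : ℤ) • u := by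
        rw [YY, if_neg hkk]
      rw [e] at hv hv2
      have hau' : form c (form c u u • al k - form c (al k) u • u) u = 0 := by
        rw [form_sub_left, form_smul_left, form_smul_left]; ring
      exact (dvd_dd hc hpos hu hau' hv hv2).2 rfl
  · exfalso
    apply hp.not_isUnit
    refine isUnit_of_dvd_unit h2 ?_
    have : (((YY c a u k₀).det : ℤ) : ℂ) ≠ 0 := by exact_mod_cast hdet
    exact (isUnit_iff_ne_zero.2 this).map C

/-- Case 1. -/
theorem not_dvd (hR : S_ROOT) (hL : S_LEN) {c : Matrix ι ι ℤ} (hc : IsADE c) {I : Finset ι}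
    {P : ι → MvPolynomial ι ℂ} (hP : Gen c I P) {u : ι → ℤ} (hu : u ≠ 0)
    (h : lin0 u ∣ Jac P) : ∃ γ ∈ PR c (I : Set ι), ∀ k j, u k * γ j = γ k * u j := by
  by_contra hcon
  push Not at hcon
  obtain ⟨hpos, hfin, hf, -, -, -, -, -⟩ := hR ι c hc
  have huu := hpos u hu
  -- the vectors γ'
  let S : Finset (ι → ℤ) := (hfin I).toFinset.image fun γ => form c u u • γ - form c γ u • u
  have hS : ∀ γ ∈ S, γ ≠ 0 := by
    intro γ hγ h0
    obtain ⟨δ, hδ, rfl⟩ := Finset.mem_image.1 hγ
    rw [Set.Finite.mem_toFinset] at hδ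
    obtain ⟨k, j, hkj⟩ := hcon δ hδ
    apply hkj
    have e1 := congrFun h0 j
    have e2 := congrFun h0 k
    simp only [Pi.sub_apply, Pi.smul_apply, smul_eq_mul, Pi.zero_apply] at e1 e2
    have e3 : form c u u * (u k * δ j) = form c u u * (δ k * u j) := by
      linear_combination u k * e1 - u j * e2
    exact mul_left_cancel₀ (by omega) e3
  obtain ⟨v, hv⟩ := generic c hpos S hS
  let a₀ : ι → ℤ := form c u u • v - form c v u • u
  have ha₀u : form c a₀ u = 0 := by
    show form c (form c u u • v - form c v u • u) u = 0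
    rw [form_sub_left, form_smul_left, form_smul_left]; ring
  have ha₀ : ∀ γ ∈ PR c (I : Set ι), form c a₀ γ ≠ 0 := by
    intro γ hγ
    have h1 := hv (form c u u • γ - form c γ u • u) (Finset.mem_image.2 ⟨γ,
      (hfin I).mem_toFinset.2 hγ, rfl⟩)
    have h2 : form c a₀ γ = form c v (form c u u • γ - form c γ u • u) := by
      show form c (form c u u • v - form c v u • u) γ = _
      rw [form_sub_left, form_smul_left, form_smul_left, form_sub_right, form_smul_right,
        form_smul_right, form_symm hc.symm u γ]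
      ring
    rw [h2]; exact h1
  let N : ℤ := 1 + ∑ γ ∈ (hfin I).toFinset, |form c u γ|
  have hN : ∀ γ ∈ PR c (I : Set ι), |form c u γ| < N := by
    intro γ hγ
    have := Finset.single_le_sum (f := fun γ => |form c u γ|)
      (fun γ _ => abs_nonneg _) ((hfin I).mem_toFinset.2 hγ)
    have h2 : |form c u γ| ≤ ∑ γ ∈ (hfin I).toFinset, |form c u γ| := this
    show |form c u γ| < 1 + ∑ γ ∈ (hfin I).toFinset, |form c u γ|
    linarith
  have hau : form c (N • a₀) u = 0 := by rw [form_smul_left, ha₀u, mul_zero]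
  obtain ⟨w, hw, hwa⟩ := prime_dvd_jac hc (hf I) hpos hP hu hau h
  have h1 : w = 1 := by
    refine chamber hR hL c hc I w hw (N • a₀ + u) ?_
    intro γ hγ
    rw [hwa, form_add_left, form_sub_left, form_smul_left]
    have h2 := hN γ hγ
    have h3 : 1 ≤ |form c a₀ γ| := Int.one_le_abs (ha₀ γ hγ)
    have h4 : (N * form c a₀ γ + form c u γ) * (N * form c a₀ γ - form c u γ) =
        |N * form c a₀ γ| ^ 2 - |form c u γ| ^ 2 := by
      rw [sq_abs, sq_abs]; ring
    rw [h4, abs_mul]
    have h5 : N ≤ |N| := le_abs_self N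
    have h6 : 0 ≤ |form c u γ| := abs_nonneg _
    have h7 : |form c u γ| < |N| * |form c a₀ γ| := by nlinarith
    nlinarith
  rw [h1] at hwa
  have h2 : N • a₀ + u = N • a₀ - u := hwa
  have h3 : u = -u := by
    have := add_left_cancel (h2.trans (sub_eq_add_neg _ _))
    exact this
  apply hu
  funext k
  have := congrFun h3 k
  simp only [Pi.neg_apply, Pi.zero_apply] at this ⊢
  omega


theorem lin0_two_smul (u : ι → ℤ) : lin0 u ∣ lin0 (u - -u) := by
  have : u - -u = (2 : ℤ) • u := by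
    rw [sub_neg_eq_add, two_smul]
  rw [this, lin0_smul]
  exact Dvd.intro_left _ rfl

/-- Case 2: the square of a root does not divide the Jacobian determinant. -/
theorem not_sq_dvd {c : Matrix ι ι ℤ} (hc : IsADE c) {I : Finset ι} (hf : Finite (Wg c I))
    (hpos : ∀ v : ι → ℤ, v ≠ 0 → 2 ≤ form c v v)
    {P : ι → MvPolynomial ι ℂ} (hP : Gen c I P) {u : ι → ℤ} (hu : u ≠ 0) :
    ¬ (lin0 u) ^ 2 ∣ Jac P := by
  intro h
  obtain ⟨k₀, hk⟩ : ∃ k, u k ≠ 0 := by
    by_contra h
    push Not at h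
    exact hu (funext h)
  have hp := lin0_prime hu
  have hau : form c 0 u = 0 := by simp [form]
  have h1 := h.trans (jac_dvd c hc I hf P hP (YY c 0 u k₀))
  have hdet := YY_det c hpos hk hau
  have hunit : IsUnit (C (((YY c 0 u k₀).det : ℤ) : ℂ) : MvPolynomial ι ℂ) := by
    have : (((YY c 0 u k₀).det : ℤ) : ℂ) ≠ 0 := by exact_mod_cast hdet
    exact (isUnit_iff_ne_zero.2 this).map C
  rw [hunit.dvd_mul_right] at h1
  rw [← Finset.mul_prod_erase Finset.univ _ (Finset.mem_univ k₀)] at h1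
  have h2 : ¬ lin0 u ∣ ∏ k ∈ Finset.univ.erase k₀, dd c I hf (YY c 0 u k₀ k) := by
    intro h2
    obtain ⟨k, hkk, hk2⟩ := (Prime.dvd_finsetProd_iff hp _).1 h2
    obtain ⟨v, hv, hv2⟩ := (Prime.dvd_finsetProd_iff hp _).1 hk2
    have hkk := Finset.ne_of_mem_erase hkk
    have e : YY c 0 u k₀ k = (form c u u • al k - form c (al k) u • u) + (0 : ℤ) • u := by
      rw [YY, if_neg hkk]
    rw [e] at hv hv2
    have hau' : form c (form c u u • al k - form c (al k) u • u) u = 0 := by
      rw [form_sub_left, form_smul_left, form_smul_left]; ring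
    exact (dvd_dd hc hpos hu hau' hv hv2).2 rfl
  have h3 : (lin0 u) ^ 2 ∣ dd c I hf (YY c 0 u k₀ k₀) := by
    rw [mul_comm] at h1
    exact hp.pow_dvd_of_dvd_mul_left 2 h2 h1
  have e : YY c 0 u k₀ k₀ = u := by rw [YY, if_pos rfl, one_smul, zero_add]
  rw [e] at h3
  have key : ∀ v ∈ (orb c I hf u).erase u, lin0 u ∣ lin0 (u - v) → v = -u := by
    intro v hv hv2
    have e : (0 : ι → ℤ) + (1 : ℤ) • u = u := by rw [one_smul, zero_add]
    have := (dvd_dd (v := v) (I := (I : Set ι)) (hf := hf) hc hpos (t := 1) hu hau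
      (by rw [e]; exact hv) (by rw [e]; exact hv2)).1
    rw [one_smul, zero_sub] at this
    exact this
  by_cases hm : -u ∈ (orb c I hf u).erase u
  · unfold dd at h3
    rw [← Finset.mul_prod_erase _ _ hm, sq] at h3
    have e2 : lin0 (u - -u) = lin0 u * C 2 := by
      have : u - -u = (2 : ℤ) • u := by
        rw [sub_neg_eq_add, two_smul]
      rw [this, lin0_smul, mul_comm]
      norm_num
    rw [e2, mul_assoc] at h3
    have h4 := (mul_dvd_mul_iff_left hp.ne_zero).1 h3
    have hunit2 : IsUnit (C 2 : MvPolynomial ι ℂ) :=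
      (isUnit_iff_ne_zero.2 (by norm_num : (2 : ℂ) ≠ 0)).map C
    rw [hunit2.dvd_mul_left] at h4
    obtain ⟨v, hv, hv2⟩ := (Prime.dvd_finsetProd_iff hp _).1 h4
    exact Finset.ne_of_mem_erase hv (key v (Finset.mem_of_mem_erase hv) hv2)
  · have h4 : lin0 u ∣ dd c I hf u := (dvd_pow_self _ two_ne_zero).trans h3
    obtain ⟨v, hv, hv2⟩ := (Prime.dvd_finsetProd_iff hp _).1 h4
    exact hm (key v hv hv2 ▸ hv)

theorem jac_ne_zero {c : Matrix ι ι ℤ} (hc : IsADE c) {I : Finset ι} (hf : Finite (Wg c I))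
    {P : ι → MvPolynomial ι ℂ} (hP : Gen c I P) : Jac P ≠ 0 := by
  intro h
  have h1 := jac_dvd c hc I hf P hP (1 : Matrix ι ι ℤ)
  rw [h, zero_dvd_iff, Matrix.det_one, Int.cast_one, C_1, mul_one, Finset.prod_eq_zero_iff] at h1
  obtain ⟨k, _, hk⟩ := h1
  rw [dd, Finset.prod_eq_zero_iff] at hk
  obtain ⟨v, hv, hv2⟩ := hk
  exact lin0_ne_zero (sub_ne_zero.2 (Finset.ne_of_mem_erase hv).symm) hv2

/-- Irreducible factors of the Jacobian determinant are linear. -/
theorem irr_dvd {c : Matrix ι ι ℤ} (hc : IsADE c) {I : Finset ι} (hf : Finite (Wg c I))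
    {P : ι → MvPolynomial ι ℂ} (hP : Gen c I P) {π : MvPolynomial ι ℂ} (hπ : Irreducible π)
    (h : π ∣ Jac P) : ∃ u : ι → ℤ, u ≠ 0 ∧ Associated π (lin0 u) := by
  have hp := hπ.prime
  have h1 := h.trans (jac_dvd c hc I hf P hP (1 : Matrix ι ι ℤ))
  rw [Matrix.det_one, Int.cast_one, C_1, mul_one] at h1
  obtain ⟨k, _, hk⟩ := (Prime.dvd_finsetProd_iff hp _).1 h1
  obtain ⟨v, hv, hv2⟩ := (Prime.dvd_finsetProd_iff hp _).1 hk
  have h0 := (sub_ne_zero.2 (Finset.ne_of_mem_erase hv).symm)
  exact ⟨_, h0, hπ.associated_of_dvd (lin0_prime h0).irreducible hv2⟩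

/-! ### The roots divide the Jacobian determinant -/

theorem act0_congr (c : Matrix ι ι ℤ) (β : ι → ℤ) (f : MvPolynomial ι ℂ) :
    lin0 β ∣ act0 (sr c β) f - f := by
  induction f using MvPolynomial.induction_on with
  | C a => simp [act0]
  | add p q hp hq =>
    rw [map_add]
    have : act0 (sr c β) p + act0 (sr c β) q - (p + q) =
      (act0 (sr c β) p - p) + (act0 (sr c β) q - q) := by ring
    rw [this]; exact dvd_add hp hq
  | mul_X p n hp =>
    rw [map_mul, act0_X, sr_apply, lin0_sub, lin0_smul, lin0_al]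
    have : act0 (sr c β) p * (X n - C ((form c (al n) β : ℤ) : ℂ) * lin0 β) - p * X n =
      (act0 (sr c β) p - p) * X n - lin0 β * (act0 (sr c β) p * C ((form c (al n) β : ℤ) : ℂ)) := by
      ring
    rw [this]
    exact dvd_sub (hp.mul_right _) (dvd_mul_right _ _)

theorem root_dvd (hR : S_ROOT) {c : Matrix ι ι ℤ} (hc : IsADE c) {I : Finset ι}
    {P : ι → MvPolynomial ι ℂ} (hP : Gen c I P) {β : ι → ℤ} (hβ : β ∈ PR c (I : Set ι)) :
    lin0 β ∣ Jac P := by
  obtain ⟨hpos, hfin, hf, -, -, -, h7, -⟩ := hR ι c hc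
  obtain ⟨g, hg, i, hi, hgi⟩ := h7 I β hβ
  have hβ0 : β ≠ 0 := ne_zero_of_norm hβ.1
  have hp := lin0_prime hβ0
  -- the reflection
  have hs : g * sre (hc.form_al i) * g⁻¹ ∈ Wg c (I : Set ι) :=
    (Wg c (I : Set ι)).mul_mem ((Wg c (I : Set ι)).mul_mem hg (sre_mem_Wg hc hi))
      ((Wg c (I : Set ι)).inv_mem hg)
  have hs2 : (((g * sre (hc.form_al i) * g⁻¹ : (ι → ℤ) ≃ₗ[ℤ] (ι → ℤ))) :
      (ι → ℤ) →ₗ[ℤ] (ι → ℤ)) = sr c β := by
    refine LinearMap.ext fun v => ?_
    show g (sr c (al i) (g⁻¹ v)) = sr c β v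
    have e0 : g (g⁻¹ v) = v := by
      have : (g * g⁻¹) v = v := by rw [mul_inv_cancel]; rfl
      exact this
    rw [sr_apply, sr_apply, map_sub, map_smul, hgi, e0]
    congr 2
    rw [← form_Wg hc hg, e0, hgi]
  have hinv : ∀ m, act0 (sr c β) (P m) = P m := by
    intro m
    have h1 := (hP (P m)).1 (Algebra.subset_adjoin ⟨m, rfl⟩)
    have h2 := (act0_inv_iff hc (I : Set ι) (P m)).1 h1 _ hs
    rw [hs2] at h2
    exact h2
  have hdir : ∀ m, lin0 β ∣ ∑ j, pderiv j (P m) * C ((form c (al j) β : ℤ) : ℂ) := by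
    intro m
    obtain ⟨k, hk⟩ : ∃ k, β k ≠ 0 := by
      by_contra h
      push Not at h
      exact hβ0 (funext h)
    have e1 : pderiv k (P m) = ∑ j, act0 (sr c β) (pderiv j (P m)) *
        pderiv k (lin0 (sr c β (al j))) := by
      conv_lhs => rw [← hinv m]
      exact pderiv_aeval (fun k => lin0 (sr c β (al k))) k (P m)
    have e2 : ∀ j, pderiv k (lin0 (sr c β (al j))) = (if j = k then 1 else 0) -
        C ((form c (al j) β : ℤ) : ℂ) * C ((β k : ℤ) : ℂ) := by
      intro j
      rw [pderiv_lin0, sr_apply]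
      by_cases h : j = k
      · subst h
        simp [al]
      · have h' : ¬ k = j := fun e => h e.symm
        simp [al, Pi.single_apply, h, h']
    simp only [e2, mul_sub, Finset.sum_sub_distrib, mul_ite, mul_one, mul_zero,
      Finset.sum_ite_eq', Finset.mem_univ, if_true] at e1
    have e3 : (∑ j, pderiv j (P m) * C ((form c (al j) β : ℤ) : ℂ)) * C ((β k : ℤ) : ℂ) =
        (act0 (sr c β) (pderiv k (P m)) - pderiv k (P m)) -
        ∑ j, (act0 (sr c β) (pderiv j (P m)) - pderiv j (P m)) *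
          (C ((form c (al j) β : ℤ) : ℂ) * C ((β k : ℤ) : ℂ)) := by
      simp only [sub_mul, Finset.sum_sub_distrib]
      rw [Finset.sum_mul]
      have : ∀ j, pderiv j (P m) * C ((form c (al j) β : ℤ) : ℂ) * C ((β k : ℤ) : ℂ) =
        pderiv j (P m) * (C ((form c (al j) β : ℤ) : ℂ) * C ((β k : ℤ) : ℂ)) := fun j => by ring
      simp only [this]
      linear_combination e1
    have e4 : lin0 β ∣ (∑ j, pderiv j (P m) * C ((form c (al j) β : ℤ) : ℂ)) *
        C ((β k : ℤ) : ℂ) := by
      rw [e3]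
      exact dvd_sub (act0_congr c β _) (Finset.dvd_sum fun j _ => (act0_congr c β _).mul_right _)
    have hunit : IsUnit (C ((β k : ℤ) : ℂ) : MvPolynomial ι ℂ) := by
      have : ((β k : ℤ) : ℂ) ≠ 0 := by exact_mod_cast hk
      exact (isUnit_iff_ne_zero.2 this).map C
    rwa [hunit.dvd_mul_right] at e4
  -- the adjugate
  set M : Matrix ι ι (MvPolynomial ι ℂ) := Matrix.of fun j k => pderiv k (P j) with hM
  set b : ι → MvPolynomial ι ℂ := fun j => C ((form c (al j) β : ℤ) : ℂ) with hb
  have hMb : ∀ m, lin0 β ∣ (M.mulVec b) m := by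
    intro m
    exact hdir m
  have hadj : M.adjugate.mulVec (M.mulVec b) = Jac P • b := by
    rw [Matrix.mulVec_mulVec, Matrix.adjugate_mul, Matrix.smul_mulVec, Matrix.one_mulVec]
    rfl
  have hall : ∀ k, lin0 β ∣ Jac P * b k := by
    intro k
    have : Jac P * b k = (M.adjugate.mulVec (M.mulVec b)) k := by
      rw [hadj]; rfl
    rw [this]
    exact Finset.dvd_sum fun m _ => (hMb m).mul_left _
  obtain ⟨k, hk⟩ : ∃ k, form c (al k) β ≠ 0 := by
    by_contra h
    push Not at h
    have h1 := hβ.1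
    have h2 : form c β β = ∑ k, β k * form c (al k) β := by
      conv_lhs => rw [eq_sum_al β]
      rw [form_sum_left, ← eq_sum_al β]
    rw [h2] at h1
    simp [h] at h1
  have hunit : IsUnit (b k) := by
    have : ((form c (al k) β : ℤ) : ℂ) ≠ 0 := by exact_mod_cast hk
    exact (isUnit_iff_ne_zero.2 this).map C
  have := hall k
  rwa [hunit.dvd_mul_right] at this

theorem main : S_JAC := by
  intro hR hL ι _ _ c hc I P hP
  obtain ⟨hpos, hfin, hf, -⟩ := hR ι c hc
  have hPR : PR c (I : Set ι) \ PR c (∅ : Set ι) = PR c (I : Set ι) := by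
    have : PR c (∅ : Set ι) = ∅ := by
      ext β
      simp only [PR, Set.mem_setOf_eq, Set.mem_empty_iff_false, iff_false]
      rintro ⟨h1, -, h3⟩
      exact ne_zero_of_norm h1 (funext fun k => h3 k (by simp))
    rw [this, Set.diff_empty]
  have hJc : Jc c (I : Set ι) ∅ = ∏ β ∈ (hfin I).toFinset, lin0 β := by
    unfold Jc
    rw [hPR]
    exact finprod_mem_eq_finite_toFinset_prod _ (hfin I)
  have hne := jac_ne_zero hc (hf I) hP
  have hdvd : Jc c (I : Set ι) ∅ ∣ Jac P := by
    rw [hJc]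
    refine Finset.prod_dvd_of_isRelPrime ?_ ?_
    · intro β hβ γ hγ hβγ
      have hβ' : β ∈ PR c (I : Set ι) := by simpa using hβ
      have hγ' : γ ∈ PR c (I : Set ι) := by simpa using hγ
      show IsRelPrime (lin0 β) (lin0 γ)
      rw [(lin0_prime (ne_zero_of_norm hβ'.1)).irreducible.isRelPrime_iff_not_dvd]
      intro h
      exact hβγ (PR_prop c hβ' hγ' (lin0_dvd h))
    · intro β hβ
      exact root_dvd hR hc hP ((hfin I).mem_toFinset.1 hβ)
  obtain ⟨q, hq⟩ := hdvd
  have hq0 : q ≠ 0 := by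
    rintro rfl
    rw [mul_zero] at hq
    exact hne hq
  have hqu : IsUnit q := by
    by_contra hqu
    obtain ⟨π, hπ, hπq⟩ := WfDvdMonoid.exists_irreducible_factor hqu hq0
    have hπJ : π ∣ Jac P := hπq.trans (Dvd.intro_left _ hq.symm)
    obtain ⟨u, hu, hass⟩ := irr_dvd hc (hf I) hP hπ hπJ
    obtain ⟨γ, hγ, hprop⟩ := not_dvd hR hL hc hP hu (hass.symm.dvd.trans hπJ)
    have hγ0 := ne_zero_of_norm hγ.1
    have h1 : lin0 γ ∣ lin0 u := by
      obtain ⟨k, hk⟩ : ∃ k, γ k ≠ 0 := by
        by_contra h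
        push Not at h
        exact hγ0 (funext h)
      refine lin0_dvd_of_prop (p := γ k) (s := u k) hk ?_
      funext j
      have := hprop k j
      simp only [Pi.smul_apply, smul_eq_mul]
      linarith
    have h2 : lin0 γ ∣ q := h1.trans (hass.symm.dvd.trans hπq)
    have h3 : lin0 γ ∣ Jc c (I : Set ι) ∅ := by
      rw [hJc]
      exact Finset.dvd_prod_of_mem _ ((hfin I).mem_toFinset.2 hγ)
    apply not_sq_dvd hc (hf I) hpos hP hγ0
    rw [hq, sq]
    exact mul_dvd_mul h3 h2
  obtain ⟨r, hr, hqr⟩ := MvPolynomial.isUnit_iff_eq_C_of_isReduced.1 hqu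
  refine ⟨r, hr.ne_zero, ?_⟩
  rw [hq, hqr, mul_comm]

end Pool.Agent.H391.SK.P_JAC
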