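import Pool.Agent.H391.SK.StF

/-!
# SK-LAG (helper106, for helper391): linear algebra over `ℂ[t]`

The first lemmas are those of SK-LA by helper747.
-/

set_option autoImplicit false

namespace Pool.Agent.H391.SK.P_LAG

open Polynomial

section

variable {m n : ℕ} (M : Matrix (Fin m) (Fin n) (Polynomial ℂ))

/-- evaluation of a matrix and of a vector -/
theorem map_mulVec_eval (q : ℂ) (w : Fin n → Polynomial ℂ) (i : Fin m) :
    (M.map (Polynomial.eval q)).mulVec (fun j => (w j).eval q) i = (M.mulVec w i).eval q := by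
  simp only [Matrix.mulVec, dotProduct, Matrix.map_apply, Polynomial.eval_finsetSum,
    Polynomial.eval_mul]

theorem eval_mem_ker (q : ℂ) {w : Fin n → Polynomial ℂ} (hw : M.mulVec w = 0) :
    (M.map (Polynomial.eval q)).mulVec (fun j => (w j).eval q) = 0 := by
  funext i
  rw [map_mulVec_eval, hw]
  simp

/-- saturation -/
theorem divide (q : ℂ) {w : Fin n → Polynomial ℂ} (hw : M.mulVec w = 0)
    (h0 : ∀ j, (w j).eval q = 0) : ∃ u : Fin n → Polynomial ℂ, M.mulVec u = 0 ∧
      w = (X - C q) • u := by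
  have h1 : ∀ j, ∃ u, w j = (X - C q) * u := fun j => Polynomial.dvd_iff_isRoot.2 (h0 j)
  choose u hu using h1
  have hwu : w = (X - C q) • u := by
    funext j
    simp [hu j]
  refine ⟨u, ?_, hwu⟩
  rw [hwu, Matrix.mulVec_smul] at hw
  funext i
  have := congrFun hw i
  simp only [Pi.smul_apply, smul_eq_mul, Pi.zero_apply, mul_eq_zero] at this
  rcases this with h | h
  · exact absurd h (Polynomial.X_sub_C_ne_zero q)
  · exact h

/-- a basis of the kernel stays linearly independent -/
theorem linInd {r : ℕ} (e : Module.Basis (Fin r) (Polynomial ℂ) (LinearMap.ker M.mulVecLin))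
    (q : ℂ) : LinearIndependent ℂ (fun j : Fin r =>
      (fun i => ((e j : Fin n → Polynomial ℂ) i).eval q : Fin n → ℂ)) := by
  rw [Fintype.linearIndependent_iff]
  intro c hc
  let w : LinearMap.ker M.mulVecLin := ∑ j, (C (c j)) • e j
  have hw : M.mulVec (w : Fin n → Polynomial ℂ) = 0 := by
    have := w.2
    rwa [LinearMap.mem_ker, Matrix.mulVecLin_apply] at this
  have hw0 : ∀ i, ((w : Fin n → Polynomial ℂ) i).eval q = 0 := by
    intro i
    have := congrFun hc i
    simp only [Finset.sum_apply, Pi.smul_apply, smul_eq_mul, Pi.zero_apply] at this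
    simp only [w, Submodule.coe_sum, Submodule.coe_smul, Finset.sum_apply, Pi.smul_apply,
      smul_eq_mul, Polynomial.eval_finsetSum, Polynomial.eval_mul, Polynomial.eval_C]
    exact this
  obtain ⟨u, hu, hwu⟩ := divide M q hw hw0
  let u' : LinearMap.ker M.mulVecLin := ⟨u, by rw [LinearMap.mem_ker, Matrix.mulVecLin_apply]; exact hu⟩
  have hwu' : w = (X - C q) • u' := Subtype.ext hwu
  intro j
  have h1 : e.repr w j = C (c j) := by
    simp only [w, map_sum, map_smul, Module.Basis.repr_self, Finsupp.coe_finsetSum,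
      Finset.sum_apply, Finsupp.smul_single, smul_eq_mul, mul_one]
    rw [Finset.sum_eq_single j]
    · simp
    · intro b _ hb
      exact Finsupp.single_eq_of_ne (Ne.symm hb)
    · intro h
      exact absurd (Finset.mem_univ j) h
  have h2 : e.repr w j = (X - C q) * e.repr u' j := by
    rw [hwu']
    simp
  have h3 := congrArg (Polynomial.eval q) (h1.symm.trans h2)
  simpa using h3

/-- the specialization of the basis of the kernel generates, if the cokernel has no torsion -/
theorem lift_of_notorsion (q : ℂ)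
    (hq : ∀ x : (Fin m → Polynomial ℂ) ⧸ LinearMap.range M.mulVecLin,
      (X - C q) • x = 0 → x = 0) (v : Fin n → ℂ)
    (hv : (M.map (Polynomial.eval q)).mulVec v = 0) :
    ∃ w : Fin n → Polynomial ℂ, M.mulVec w = 0 ∧ ∀ i, (w i).eval q = v i := by
  let v' : Fin n → Polynomial ℂ := fun i => C (v i)
  have h0 : ∀ i, (M.mulVec v' i).eval q = 0 := by
    intro i
    rw [← map_mulVec_eval]
    have : (fun j => (v' j).eval q) = v := by
      funext j
      simp [v']
    rw [this, hv]
    rfl
  have h1 : ∀ i, ∃ u, M.mulVec v' i = (X - C q) * u := fun i => Polynomial.dvd_iff_isRoot.2 (h0 i)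
  choose u hu using h1
  have hu' : M.mulVec v' = (X - C q) • u := by
    funext i
    simp [hu i]
  have h2 : (LinearMap.range M.mulVecLin).mkQ u = 0 := by
    apply hq
    rw [← map_smul, ← hu', Submodule.mkQ_apply, Submodule.Quotient.mk_eq_zero]
    exact ⟨v', rfl⟩
  rw [Submodule.mkQ_apply, Submodule.Quotient.mk_eq_zero] at h2
  obtain ⟨w, hw⟩ := h2
  rw [Matrix.mulVecLin_apply] at hw
  refine ⟨v' - (X - C q) • w, ?_, ?_⟩
  · rw [Matrix.mulVec_sub, Matrix.mulVec_smul, hw, hu', sub_self]
  · intro i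
    simp [v']

/-- all but finitely many points are good -/
theorem exists_ann : ∃ a : Polynomial ℂ, a ≠ 0 ∧ ∀ q : ℂ, a.eval q ≠ 0 →
    ∀ x : (Fin m → Polynomial ℂ) ⧸ LinearMap.range M.mulVecLin,
      (X - C q) • x = 0 → x = 0 := by
  let Q := (Fin m → Polynomial ℂ) ⧸ LinearMap.range M.mulVecLin
  let T := Submodule.torsion (Polynomial ℂ) Q
  obtain ⟨a, ha1, ha2⟩ := Submodule.annihilator_top_inter_nonZeroDivisors
    (R := Polynomial ℂ) (M := T) (Submodule.torsion_isTorsion)
  have ha0 : a ≠ 0 := nonZeroDivisors.ne_zero ha2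
  have ha3 : ∀ x : Q, x ∈ T → a • x = 0 := by
    intro x hx
    have := (Submodule.mem_annihilator.1 ha1) (⟨x, hx⟩ : T) trivial
    exact congrArg Subtype.val this
  refine ⟨a, ha0, ?_⟩
  intro q hq2 x hx
  have hxT : x ∈ T := by
    rw [Submodule.mem_torsion_iff]
    exact ⟨⟨X - C q, mem_nonZeroDivisors_of_ne_zero (Polynomial.X_sub_C_ne_zero _)⟩, hx⟩
  have hax := ha3 x hxT
  obtain ⟨b, hb⟩ := Polynomial.X_sub_C_dvd_sub_C_eval (p := a) (a := q)
  have hab : a = C (a.eval q) + b * (X - C q) := by
    linear_combination hb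
  rw [hab, add_smul, mul_smul, hx, smul_zero, add_zero] at hax
  have : x = C ((a.eval q)⁻¹) • (C (a.eval q) • x) := by
    rw [smul_smul, ← C_mul, inv_mul_cancel₀ hq2, C_1, one_smul]
  rw [this, hax, smul_zero]

/-- the specialisation of the kernel is spanned by the specialisation of a basis -/
theorem span_eq {r : ℕ} (e : Module.Basis (Fin r) (Polynomial ℂ) (LinearMap.ker M.mulVecLin))
    (q : ℂ) : Submodule.span ℂ {v : Fin n → ℂ | ∃ w : Fin n → Polynomial ℂ, M.mulVec w = 0 ∧
      ∀ i, (w i).eval q = v i} = Submodule.span ℂ (Set.range (fun j : Fin r =>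
        (fun i => ((e j : Fin n → Polynomial ℂ) i).eval q : Fin n → ℂ))) := by
  apply le_antisymm
  · rw [Submodule.span_le]
    rintro x ⟨w, hw1, hw2⟩
    let w' : LinearMap.ker M.mulVecLin :=
      ⟨w, by rw [LinearMap.mem_ker, Matrix.mulVecLin_apply]; exact hw1⟩
    have hw3 : w' = ∑ j, e.repr w' j • e j := (e.sum_repr w').symm
    have hx2 : x = ∑ j, (e.repr w' j).eval q •
        (fun i => ((e j : Fin n → Polynomial ℂ) i).eval q : Fin n → ℂ) := by
      funext i
      have h4 : w i = (∑ j, e.repr w' j • (e j : Fin n → Polynomial ℂ)) i := by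
        have h6 : w = ((∑ j, e.repr w' j • e j : LinearMap.ker M.mulVecLin) :
            Fin n → Polynomial ℂ) := congrArg Subtype.val hw3
        rw [Submodule.coe_sum] at h6
        exact congrFun h6 i
      rw [← hw2 i, h4]
      simp [Polynomial.eval_finsetSum]
    rw [hx2]
    exact Submodule.sum_mem _ fun j _ => Submodule.smul_mem _ _ (Submodule.subset_span ⟨j, rfl⟩)
  · rw [Submodule.span_le]
    rintro _ ⟨j, rfl⟩
    apply Submodule.subset_span
    refine ⟨(e j : Fin n → Polynomial ℂ), ?_, fun i => rfl⟩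
    have := (e j).2
    rwa [LinearMap.mem_ker, Matrix.mulVecLin_apply] at this

end

theorem main : S_LAG := by
  intro m n M
  obtain ⟨r, e⟩ := Submodule.basisOfPid (Pi.basisFun (Polynomial ℂ) (Fin n))
    (LinearMap.ker M.mulVecLin)
  constructor
  · refine ⟨r, fun a => ?_⟩
    rw [span_eq M e a, finrank_span_eq_card (linInd M e a), Fintype.card_fin]
  · obtain ⟨a, ha0, ha⟩ := exists_ann M
    refine (a.roots.toFinset.finite_toSet).subset ?_
    rintro q ⟨v, hv, hv'⟩
    rw [Finset.mem_coe, Multiset.mem_toFinset, Polynomial.mem_roots ha0, Polynomial.IsRoot.def]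
    by_contra hq
    exact hv' (lift_of_notorsion M q (ha q hq) v hv)

end Pool.Agent.H391.SK.P_LAG
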